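import Pool.Agent.H34R2.U.Defs

/-! TASK A1: algebra of the twisted exponential `EE`. -/

set_option autoImplicit false

namespace Pool.Agent.H34R2.U

open Finset

variable {n : ℕ}

theorem EE_empty (Q : Fin n → Fin n → ℝ) (g : Finset (Fin n) → ℝ) : EE Q g ∅ = 1 := by
  rw [EE]
  simp

theorem cut_comm {Q : Fin n → Fin n → ℝ} (hs : ∀ i j, Q i j = Q j i)
    (B C : Finset (Fin n)) : cut Q B C = cut Q C B := by
  unfold cut
  rw [Finset.prod_comm]
  refine Finset.prod_congr rfl fun i _ => Finset.prod_congr rfl fun j _ => hs _ _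

theorem cut_union_left (Q : Fin n → Fin n → ℝ) {B B' : Finset (Fin n)} (h : Disjoint B B')
    (C : Finset (Fin n)) : cut Q (B ∪ B') C = cut Q B C * cut Q B' C := by
  unfold cut
  exact Finset.prod_union h

theorem cut_union_right (Q : Fin n → Fin n → ℝ) (B : Finset (Fin n)) {C C' : Finset (Fin n)}
    (h : Disjoint C C') : cut Q B (C ∪ C') = cut Q B C * cut Q B C' := by
  unfold cut
  rw [← Finset.prod_mul_distrib]
  exact Finset.prod_congr rfl fun i _ => Finset.prod_union h

theorem cut_nonneg {Q : Fin n → Fin n → ℝ} (hQ : ∀ i j, 0 ≤ Q i j) (B C : Finset (Fin n)) :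
    0 ≤ cut Q B C :=
  Finset.prod_nonneg fun i _ => Finset.prod_nonneg fun j _ => hQ i j

theorem sum_block {M : Type*} [AddCommMonoid M] (A : Finset (Fin n)) (a : Fin n) (ha : a ∈ A)
    (F : Finset (Fin n) → M) :
    ∑ B ∈ (A.erase a).powerset, F (insert a B) = ∑ B ∈ A.powerset with a ∈ B, F B := by
  refine Finset.sum_bij (fun B _ => insert a B) ?_ ?_ ?_ ?_
  · intro B hB
    rw [Finset.mem_powerset] at hB
    rw [Finset.mem_filter, Finset.mem_powerset]
    refine ⟨?_, Finset.mem_insert_self _ _⟩
    exact Finset.insert_subset ha (hB.trans (Finset.erase_subset _ _))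
  · intro B hB B' hB' h
    rw [Finset.mem_powerset] at hB hB'
    have h1 : a ∉ B := fun h => (Finset.notMem_erase a A) (hB h)
    have h2 : a ∉ B' := fun h => (Finset.notMem_erase a A) (hB' h)
    rw [← Finset.erase_insert h1, ← Finset.erase_insert h2, h]
  · intro B hB
    rw [Finset.mem_filter, Finset.mem_powerset] at hB
    refine ⟨B.erase a, ?_, Finset.insert_erase hB.2⟩
    rw [Finset.mem_powerset]
    exact Finset.erase_subset_erase _ hB.1
  · intro B _
    rfl

/-- the recursion in filtered form, at the smallest element. -/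
theorem EE_min (Q : Fin n → Fin n → ℝ) (g : Finset (Fin n) → ℝ) (A : Finset (Fin n))
    (h : A.Nonempty) : EE Q g A = ∑ B ∈ A.powerset with A.min' h ∈ B,
      g B * cut Q B (A \ B) * EE Q g (A \ B) := by
  rw [EE, dif_pos h]
  exact sum_block A (A.min' h) (A.min'_mem h) (fun B => g B * cut Q B (A \ B) * EE Q g (A \ B))

theorem card_sdiff_lt {A B : Finset (Fin n)} {a : Fin n} (ha : a ∈ A) (hB : a ∈ B) :
    (A \ B).card < A.card := by
  apply Finset.card_lt_card
  rw [Finset.ssubset_iff_of_subset Finset.sdiff_subset]
  exact ⟨a, ha, fun hh => (Finset.mem_sdiff.1 hh).2 hB⟩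

/-- the recursion in filtered form, at any element. -/
theorem EE_any {Q : Fin n → Fin n → ℝ} (hs : ∀ i j, Q i j = Q j i)
    (g : Finset (Fin n) → ℝ) : ∀ (A : Finset (Fin n)) (a : Fin n), a ∈ A →
    EE Q g A = ∑ B ∈ A.powerset with a ∈ B, g B * cut Q B (A \ B) * EE Q g (A \ B) := by
  intro A
  induction hk : A.card using Nat.strong_induction_on generalizing A with
  | _ k ih =>
    intro a ha
    have hne : A.Nonempty := ⟨a, ha⟩
    set m := A.min' hne with hm
    have hmA : m ∈ A := A.min'_mem hne
    rw [EE_min Q g A hne, ← hm]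
    by_cases ham : a = m
    · rw [ham]
    -- split both sums
    rw [← Finset.sum_filter_add_sum_filter_not (A.powerset.filter (fun B => m ∈ B))
      (fun B => a ∈ B)]
    rw [← Finset.sum_filter_add_sum_filter_not (A.powerset.filter (fun B => a ∈ B))
      (fun B => m ∈ B)]
    congr 1
    · rw [Finset.filter_filter, Finset.filter_filter]
      refine Finset.sum_congr ?_ fun _ _ => rfl
      ext B
      simp only [Finset.mem_filter]
      tauto
    · have e1 : ∀ B ∈ (A.powerset.filter (fun B => m ∈ B)).filter (fun B => ¬ a ∈ B),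
          g B * cut Q B (A \ B) * EE Q g (A \ B) =
          ∑ C ∈ (A \ B).powerset with a ∈ C, g B * cut Q B (A \ B) *
            (g C * cut Q C ((A \ B) \ C) * EE Q g ((A \ B) \ C)) := by
        intro B hB
        simp only [Finset.mem_filter, Finset.mem_powerset] at hB
        rw [ih _ (by rw [← hk]; exact card_sdiff_lt hmA hB.1.2) (A \ B) rfl a
          (Finset.mem_sdiff.2 ⟨ha, hB.2⟩), Finset.mul_sum]
      have e2 : ∀ C ∈ (A.powerset.filter (fun B => a ∈ B)).filter (fun B => ¬ m ∈ B),
          g C * cut Q C (A \ C) * EE Q g (A \ C) =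
          ∑ B ∈ (A \ C).powerset with m ∈ B, g C * cut Q C (A \ C) *
            (g B * cut Q B ((A \ C) \ B) * EE Q g ((A \ C) \ B)) := by
        intro C hC
        simp only [Finset.mem_filter, Finset.mem_powerset] at hC
        rw [ih _ (by rw [← hk]; exact card_sdiff_lt ha hC.1.2) (A \ C) rfl m
          (Finset.mem_sdiff.2 ⟨hmA, hC.2⟩), Finset.mul_sum]
      rw [Finset.sum_congr rfl e1, Finset.sum_congr rfl e2]
      rw [Finset.sum_comm' (t' := (A.powerset.filter (fun B => a ∈ B)).filter (fun B => ¬ m ∈ B))
        (s' := fun C => (A \ C).powerset.filter (fun B => m ∈ B))]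
      · refine Finset.sum_congr rfl fun C hC => Finset.sum_congr rfl fun B hB => ?_
        simp only [Finset.mem_filter, Finset.mem_powerset] at hC hB
        have hd : Disjoint B C := by
          rw [Finset.disjoint_left]
          intro x hx hx'
          exact (Finset.mem_sdiff.1 (hB.1 hx)).2 hx'
        have hBA : B ⊆ A := hB.1.trans Finset.sdiff_subset
        have hD : (A \ B) \ C = (A \ C) \ B := by
          ext x; simp only [Finset.mem_sdiff]; tauto
        have h1 : A \ B = C ∪ ((A \ C) \ B) := by
          ext x; simp only [Finset.mem_sdiff, Finset.mem_union]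
          constructor
          · rintro ⟨h1, h2⟩
            by_cases h3 : x ∈ C
            · exact Or.inl h3
            · exact Or.inr ⟨⟨h1, h3⟩, h2⟩
          · rintro (h | h)
            · exact ⟨hC.1.1 h, fun h' => Finset.disjoint_left.1 hd h' h⟩
            · exact ⟨h.1.1, h.2⟩
        have h2 : A \ C = B ∪ ((A \ C) \ B) := by
          ext x; simp only [Finset.mem_sdiff, Finset.mem_union]
          constructor
          · rintro ⟨h1, h2⟩
            by_cases h3 : x ∈ B
            · exact Or.inl h3
            · exact Or.inr ⟨⟨h1, h2⟩, h3⟩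
          · rintro (h | h)
            · exact ⟨hBA h, fun h' => Finset.disjoint_left.1 hd h h'⟩
            · exact h.1
        have d1 : Disjoint C ((A \ C) \ B) := by
          rw [Finset.disjoint_left]; intro x hx hx'
          simp only [Finset.mem_sdiff] at hx'
          exact hx'.1.2 hx
        have d2 : Disjoint B ((A \ C) \ B) := by
          rw [Finset.disjoint_left]; intro x hx hx'
          simp only [Finset.mem_sdiff] at hx'
          exact hx'.2 hx
        rw [hD]
        have c1 : cut Q B (A \ B) = cut Q B C * cut Q B ((A \ C) \ B) := by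
          conv_lhs => rw [h1]
          exact cut_union_right Q B d1
        have c2 : cut Q C (A \ C) = cut Q C B * cut Q C ((A \ C) \ B) := by
          conv_lhs => rw [h2]
          exact cut_union_right Q C d2
        rw [c1, c2, cut_comm hs C B]
        ring
      · intro B C
        simp only [Finset.mem_filter, Finset.mem_powerset, Finset.subset_sdiff]
        constructor
        · rintro ⟨⟨⟨h1, h2⟩, h3⟩, ⟨h4, h5⟩, h6⟩
          exact ⟨⟨⟨h1, h5.symm⟩, h2⟩, ⟨⟨h4, h6⟩, fun h => Finset.disjoint_left.1 h5 h h2⟩⟩
        · rintro ⟨⟨⟨h1, h2⟩, h3⟩, ⟨h4, h5⟩, h6⟩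
          exact ⟨⟨⟨h1, h3⟩, fun h => Finset.disjoint_left.1 h2 h h5⟩, ⟨h4, h2.symm⟩, h5⟩

/-- the recursion holds with any element in place of the smallest one. -/
theorem EE_choice {Q : Fin n → Fin n → ℝ} (hs : ∀ i j, Q i j = Q j i)
    (g : Finset (Fin n) → ℝ) (A : Finset (Fin n)) (a : Fin n) (ha : a ∈ A) :
    EE Q g A = ∑ B ∈ (A.erase a).powerset,
      g (insert a B) * cut Q (insert a B) (A \ insert a B) * EE Q g (A \ insert a B) := by
  rw [sum_block A a ha (fun B => g B * cut Q B (A \ B) * EE Q g (A \ B))]
  exact EE_any hs g A a ha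

theorem cut_congr {Q Q' : Fin n → Fin n → ℝ} {A B C : Finset (Fin n)}
    (hQ : ∀ i ∈ A, ∀ j ∈ A, i ≠ j → Q i j = Q' i j) (hB : B ⊆ A) (hC : C ⊆ A)
    (hd : Disjoint B C) : cut Q B C = cut Q' B C := by
  unfold cut
  refine Finset.prod_congr rfl fun i hi => Finset.prod_congr rfl fun j hj => ?_
  refine hQ i (hB hi) j (hC hj) ?_
  rintro rfl
  exact Finset.disjoint_left.1 hd hi hj

theorem EE_congr {Q Q' : Fin n → Fin n → ℝ} {g g' : Finset (Fin n) → ℝ} {A : Finset (Fin n)}
    (hQ : ∀ i ∈ A, ∀ j ∈ A, i ≠ j → Q i j = Q' i j)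
    (hg : ∀ B ⊆ A, B.Nonempty → g B = g' B) : EE Q g A = EE Q' g' A := by
  induction hk : A.card using Nat.strong_induction_on generalizing A with
  | _ k ih =>
    by_cases hne : A.Nonempty
    · rw [EE_min Q g A hne, EE_min Q' g' A hne]
      refine Finset.sum_congr rfl fun B hB => ?_
      simp only [Finset.mem_filter, Finset.mem_powerset] at hB
      rw [hg B hB.1 ⟨_, hB.2⟩, cut_congr hQ hB.1 Finset.sdiff_subset Finset.disjoint_sdiff]
      rw [ih _ (by rw [← hk]; exact card_sdiff_lt (A.min'_mem hne) hB.2) (A := A \ B) ?_ ?_ rfl]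
      · intro i hi j hj hij
        exact hQ i (Finset.sdiff_subset hi) j (Finset.sdiff_subset hj) hij
      · intro C hC hCne
        exact hg C (hC.trans Finset.sdiff_subset) hCne
    · rw [Finset.not_nonempty_iff_eq_empty] at hne
      subst hne
      rw [EE_empty, EE_empty]

/-- additivity (exponential formula). -/
theorem EE_add {Q : Fin n → Fin n → ℝ} (hs : ∀ i j, Q i j = Q j i)
    (g₁ g₂ : Finset (Fin n) → ℝ) (A : Finset (Fin n)) :
    ∑ B ∈ A.powerset, EE Q g₁ B * cut Q B (A \ B) * EE Q g₂ (A \ B) =
      EE Q (fun B => g₁ B + g₂ B) A := by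
  induction hk : A.card using Nat.strong_induction_on generalizing A with
  | _ k ih =>
    by_cases hne : A.Nonempty
    · obtain ⟨a, ha⟩ := hne
      rw [EE_any hs _ A a ha]
      -- right side
      have e0 : ∀ C ∈ A.powerset.filter (fun B => a ∈ B),
          (g₁ C + g₂ C) * cut Q C (A \ C) * EE Q (fun B => g₁ B + g₂ B) (A \ C) =
          (∑ B ∈ (A \ C).powerset, g₁ C * cut Q C (A \ C) *
            (EE Q g₁ B * cut Q B ((A \ C) \ B) * EE Q g₂ ((A \ C) \ B))) +
          (∑ B ∈ (A \ C).powerset, g₂ C * cut Q C (A \ C) *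
            (EE Q g₁ B * cut Q B ((A \ C) \ B) * EE Q g₂ ((A \ C) \ B))) := by
        intro C hC
        simp only [Finset.mem_filter, Finset.mem_powerset] at hC
        rw [← ih _ (by rw [← hk]; exact card_sdiff_lt ha hC.2) (A \ C) rfl,
          ← Finset.mul_sum, ← Finset.mul_sum]
        ring
      rw [Finset.sum_congr rfl e0, Finset.sum_add_distrib]
      rw [← Finset.sum_filter_add_sum_filter_not A.powerset (fun B => a ∈ B)]
      congr 1
      · have e1 : ∀ B ∈ A.powerset.filter (fun B => a ∈ B),
            EE Q g₁ B * cut Q B (A \ B) * EE Q g₂ (A \ B) =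
            ∑ C ∈ B.powerset with a ∈ C, (g₁ C * cut Q C (B \ C) * EE Q g₁ (B \ C)) *
              cut Q B (A \ B) * EE Q g₂ (A \ B) := by
          intro B hB
          simp only [Finset.mem_filter, Finset.mem_powerset] at hB
          rw [EE_any hs g₁ B a hB.2, Finset.sum_mul, Finset.sum_mul]
        rw [Finset.sum_congr rfl e1]
        rw [Finset.sum_comm' (t' := A.powerset.filter (fun B => a ∈ B))
          (s' := fun C => A.powerset.filter (fun B => C ⊆ B))]
        · refine Finset.sum_congr rfl fun C hC => ?_
          simp only [Finset.mem_filter, Finset.mem_powerset] at hC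
          refine Finset.sum_bij' (fun B _ => B \ C) (fun B _ => B ∪ C) ?_ ?_ ?_ ?_ ?_
          · intro B hB
            simp only [Finset.mem_filter, Finset.mem_powerset] at hB ⊢
            exact Finset.sdiff_subset_sdiff hB.1 (Finset.Subset.refl _)
          · intro B hB
            simp only [Finset.mem_filter, Finset.mem_powerset] at hB ⊢
            exact ⟨Finset.union_subset (hB.trans Finset.sdiff_subset) hC.1,
              Finset.subset_union_right⟩
          · intro B hB
            simp only [Finset.mem_filter, Finset.mem_powerset] at hB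
            exact Finset.sdiff_union_of_subset hB.2
          · intro B hB
            simp only [Finset.mem_powerset, Finset.subset_sdiff] at hB
            exact Finset.union_sdiff_cancel_right hB.2
          · intro B hB
            simp only [Finset.mem_filter, Finset.mem_powerset] at hB
            have h1 : (A \ C) \ (B \ C) = A \ B := by
              ext x; simp only [Finset.mem_sdiff]
              constructor
              · rintro ⟨⟨h1, h2⟩, h3⟩
                exact ⟨h1, fun h => h3 ⟨h, h2⟩⟩
              · rintro ⟨h1, h2⟩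
                exact ⟨⟨h1, fun h => h2 (hB.2 h)⟩, fun h => h2 h.1⟩
            have h2 : A \ C = (B \ C) ∪ (A \ B) := by
              ext x; simp only [Finset.mem_sdiff, Finset.mem_union]
              constructor
              · rintro ⟨h1, h2⟩
                by_cases h3 : x ∈ B
                · exact Or.inl ⟨h3, h2⟩
                · exact Or.inr ⟨h1, h3⟩
              · rintro (h | h)
                · exact ⟨hB.1 h.1, h.2⟩
                · exact ⟨h.1, fun h' => h.2 (hB.2 h')⟩
            have d1 : Disjoint (B \ C) (A \ B) := by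
              rw [Finset.disjoint_left]; intro x hx hx'
              exact (Finset.mem_sdiff.1 hx').2 (Finset.mem_sdiff.1 hx).1
            have c1 : cut Q C (A \ C) = cut Q C (B \ C) * cut Q C (A \ B) := by
              rw [h2]; exact cut_union_right Q C d1
            have c2 : cut Q B (A \ B) = cut Q C (A \ B) * cut Q (B \ C) (A \ B) := by
              rw [← cut_union_left Q (Finset.disjoint_sdiff), Finset.union_sdiff_of_subset hB.2]
            rw [h1, c1, c2]
            ring
        · intro B C
          simp only [Finset.mem_filter, Finset.mem_powerset]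
          constructor
          · rintro ⟨⟨h1, h2⟩, h3, h4⟩
            exact ⟨⟨h1, h3⟩, h3.trans h1, h4⟩
          · rintro ⟨⟨h1, h2⟩, h3, h4⟩
            exact ⟨⟨h1, h2 h4⟩, h2, h4⟩
      · have e1 : ∀ B ∈ A.powerset.filter (fun B => ¬ a ∈ B),
            EE Q g₁ B * cut Q B (A \ B) * EE Q g₂ (A \ B) =
            ∑ C ∈ (A \ B).powerset with a ∈ C, EE Q g₁ B * cut Q B (A \ B) *
              (g₂ C * cut Q C ((A \ B) \ C) * EE Q g₂ ((A \ B) \ C)) := by
          intro B hB
          simp only [Finset.mem_filter, Finset.mem_powerset] at hB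
          rw [EE_any hs g₂ (A \ B) a (Finset.mem_sdiff.2 ⟨ha, hB.2⟩), Finset.mul_sum]
        rw [Finset.sum_congr rfl e1]
        rw [Finset.sum_comm' (t' := A.powerset.filter (fun B => a ∈ B))
          (s' := fun C => (A \ C).powerset)]
        · refine Finset.sum_congr rfl fun C hC => Finset.sum_congr rfl fun B hB => ?_
          simp only [Finset.mem_filter, Finset.mem_powerset] at hC hB
          have hd : Disjoint B C := (Finset.subset_sdiff.1 hB).2
          have hBA : B ⊆ A := hB.trans Finset.sdiff_subset
          have hD : (A \ B) \ C = (A \ C) \ B := by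
            ext x; simp only [Finset.mem_sdiff]; tauto
          have h1 : A \ B = C ∪ ((A \ C) \ B) := by
            ext x; simp only [Finset.mem_sdiff, Finset.mem_union]
            constructor
            · rintro ⟨h1, h2⟩
              by_cases h3 : x ∈ C
              · exact Or.inl h3
              · exact Or.inr ⟨⟨h1, h3⟩, h2⟩
            · rintro (h | h)
              · exact ⟨hC.1 h, fun h' => Finset.disjoint_left.1 hd h' h⟩
              · exact ⟨h.1.1, h.2⟩
          have h2 : A \ C = B ∪ ((A \ C) \ B) := by
            ext x; simp only [Finset.mem_sdiff, Finset.mem_union]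
            constructor
            · rintro ⟨h1, h2⟩
              by_cases h3 : x ∈ B
              · exact Or.inl h3
              · exact Or.inr ⟨⟨h1, h2⟩, h3⟩
            · rintro (h | h)
              · exact ⟨hBA h, fun h' => Finset.disjoint_left.1 hd h h'⟩
              · exact h.1
          have d1 : Disjoint C ((A \ C) \ B) := by
            rw [Finset.disjoint_left]; intro x hx hx'
            simp only [Finset.mem_sdiff] at hx'
            exact hx'.1.2 hx
          have d2 : Disjoint B ((A \ C) \ B) := by
            rw [Finset.disjoint_left]; intro x hx hx'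
            simp only [Finset.mem_sdiff] at hx'
            exact hx'.2 hx
          rw [hD]
          have c1 : cut Q B (A \ B) = cut Q B C * cut Q B ((A \ C) \ B) := by
            conv_lhs => rw [h1]
            exact cut_union_right Q B d1
          have c2 : cut Q C (A \ C) = cut Q C B * cut Q C ((A \ C) \ B) := by
            conv_lhs => rw [h2]
            exact cut_union_right Q C d2
          rw [c1, c2, cut_comm hs C B]
          ring
        · intro B C
          simp only [Finset.mem_filter, Finset.mem_powerset, Finset.subset_sdiff]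
          constructor
          · rintro ⟨⟨h1, h2⟩, ⟨h3, h4⟩, h5⟩
            exact ⟨⟨h1, h4.symm⟩, h3, h5⟩
          · rintro ⟨⟨h1, h2⟩, h3, h4⟩
            exact ⟨⟨h1, fun h => Finset.disjoint_left.1 h2 h h4⟩, ⟨h3, h2.symm⟩, h4⟩
    · rw [Finset.not_nonempty_iff_eq_empty] at hne
      subst hne
      simp [EE_empty, cut]

theorem EE_mul (Q : Fin n → Fin n → ℝ) (μ : Fin n → ℝ) (g : Finset (Fin n) → ℝ)
    (A : Finset (Fin n)) :
    EE Q (fun B => (∏ i ∈ B, μ i) * g B) A = (∏ i ∈ A, μ i) * EE Q g A := by
  induction hk : A.card using Nat.strong_induction_on generalizing A with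
  | _ k ih =>
    by_cases hne : A.Nonempty
    · rw [EE_min _ _ A hne, EE_min Q g A hne, Finset.mul_sum]
      refine Finset.sum_congr rfl fun B hB => ?_
      simp only [Finset.mem_filter, Finset.mem_powerset] at hB
      rw [ih _ (by rw [← hk]; exact card_sdiff_lt (A.min'_mem hne) hB.2) (A \ B) rfl]
      have h1 : (∏ i ∈ A, μ i) = (∏ i ∈ B, μ i) * ∏ i ∈ A \ B, μ i := by
        rw [mul_comm]
        exact (Finset.prod_sdiff hB.1).symm
      rw [h1]
      ring
    · rw [Finset.not_nonempty_iff_eq_empty] at hne
      subst hne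
      simp [EE_empty]

theorem EE_nonneg {Q : Fin n → Fin n → ℝ} {g : Finset (Fin n) → ℝ} {A : Finset (Fin n)}
    (hQ : ∀ i j, 0 ≤ Q i j) (hg : ∀ B ⊆ A, B.Nonempty → 0 ≤ g B) : 0 ≤ EE Q g A := by
  induction hk : A.card using Nat.strong_induction_on generalizing A with
  | _ k ih =>
    by_cases hne : A.Nonempty
    · rw [EE_min _ _ A hne]
      refine Finset.sum_nonneg fun B hB => ?_
      simp only [Finset.mem_filter, Finset.mem_powerset] at hB
      refine mul_nonneg (mul_nonneg (hg B hB.1 ⟨_, hB.2⟩) (cut_nonneg hQ _ _)) ?_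
      refine ih _ (by rw [← hk]; exact card_sdiff_lt (A.min'_mem hne) hB.2) (A := A \ B) ?_ rfl
      intro C hC hCne
      exact hg C (hC.trans Finset.sdiff_subset) hCne
    · rw [Finset.not_nonempty_iff_eq_empty] at hne
      subst hne
      rw [EE_empty]
      exact zero_le_one

end Pool.Agent.H34R2.U
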