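import Pool.Agent.H34R2.U.A1

/-! TASK A2: reliability `RR` and the functional `MM`; uses A1. -/

set_option autoImplicit false

namespace Pool.Agent.H34R2.U

open Finset

variable {n : ℕ}

theorem a2_cut_empty_right (Q : Fin n → Fin n → ℝ) (B : Finset (Fin n)) : cut Q B ∅ = 1 := by
  simp [cut]

theorem a2_cut_insert (Q : Fin n → Fin n → ℝ) (w : Fin n) (B C : Finset (Fin n)) (hw : w ∉ B) :
    cut Q (insert w B) C = tt Q w C * cut Q B C := by
  rw [cut, Finset.prod_insert hw]
  rfl

theorem a2_EE_eq (Q : Fin n → Fin n → ℝ) (g : Finset (Fin n) → ℝ) (A : Finset (Fin n))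
    (h : A.Nonempty) : EE Q g A = ∑ B ∈ (A.erase (A.min' h)).powerset,
        g (insert (A.min' h) B) * cut Q (insert (A.min' h) B) (A \ insert (A.min' h) B) *
          EE Q g (A \ insert (A.min' h) B) := by
  rw [EE, dif_pos h]

theorem a2_RR_empty (Q : Fin n → Fin n → ℝ) : RR Q ∅ = 1 := by
  rw [RR, dif_neg (by simp)]

theorem a2_card_lt {A : Finset (Fin n)} {a : Fin n} (ha : a ∈ A) (B : Finset (Fin n)) :
    (A \ insert a B).card < A.card := by
  apply Finset.card_lt_card
  rw [Finset.ssubset_iff_of_subset Finset.sdiff_subset]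
  exact ⟨a, ha, fun hh => (Finset.mem_sdiff.1 hh).2 (Finset.mem_insert_self _ _)⟩

theorem a2_insert_subset {A B : Finset (Fin n)} {a : Fin n} (ha : a ∈ A)
    (hB : B ∈ (A.erase a).powerset) : insert a B ⊆ A := by
  rw [Finset.mem_powerset] at hB
  intro x hx
  rw [Finset.mem_insert] at hx
  rcases hx with rfl | hx
  · exact ha
  · exact Finset.mem_of_mem_erase (hB hx)

theorem a2_insert_card_lt {A B : Finset (Fin n)} {a : Fin n} (ha : a ∈ A)
    (hB : B ∈ (A.erase a).powerset.erase (A.erase a)) : (insert a B).card < A.card := by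
  rw [Finset.mem_erase] at hB
  apply Finset.card_lt_card
  rw [Finset.ssubset_iff_subset_ne]
  refine ⟨a2_insert_subset ha hB.2, fun he => hB.1 ?_⟩
  have h1 := Finset.mem_powerset.1 hB.2
  have hna : a ∉ B := fun h => Finset.notMem_erase a A (h1 h)
  rw [← he, Finset.erase_insert hna]

/-- isolating the full block in the recursion -/
theorem a2_split (F : Finset (Fin n) → ℝ) (G : Finset (Fin n) → ℝ) (Q : Fin n → Fin n → ℝ)
    (A : Finset (Fin n)) (a : Fin n) (ha : a ∈ A) (hG : G ∅ = 1) :
    ∑ B ∈ (A.erase a).powerset, F (insert a B) * cut Q (insert a B) (A \ insert a B) *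
        G (A \ insert a B) =
      F A + ∑ B ∈ (A.erase a).powerset.erase (A.erase a),
        F (insert a B) * cut Q (insert a B) (A \ insert a B) * G (A \ insert a B) := by
  rw [← Finset.add_sum_erase _ _ (Finset.mem_powerset.2 (Finset.Subset.refl (A.erase a)))]
  congr 1
  rw [Finset.insert_erase ha, Finset.sdiff_self, a2_cut_empty_right, hG, mul_one, mul_one]

theorem a2_split1 (F : Finset (Fin n) → ℝ) (Q : Fin n → Fin n → ℝ)
    (A : Finset (Fin n)) (a : Fin n) (ha : a ∈ A) :
    ∑ B ∈ (A.erase a).powerset, F (insert a B) * cut Q (insert a B) (A \ insert a B) =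
      F A + ∑ B ∈ (A.erase a).powerset.erase (A.erase a),
        F (insert a B) * cut Q (insert a B) (A \ insert a B) := by
  have := a2_split F (fun _ => 1) Q A a ha rfl
  simpa using this

theorem a2_RR_min (Q : Fin n → Fin n → ℝ) (A : Finset (Fin n)) (h : A.Nonempty) :
    ∑ B ∈ (A.erase (A.min' h)).powerset,
      RR Q (insert (A.min' h) B) * cut Q (insert (A.min' h) B) (A \ insert (A.min' h) B) = 1 := by
  rw [a2_split1 (RR Q) Q A _ (A.min'_mem h)]
  have h1 : RR Q A = 1 - ∑ B ∈ (A.erase (A.min' h)).powerset.erase (A.erase (A.min' h)),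
        RR Q (insert (A.min' h) B) * cut Q (insert (A.min' h) B) (A \ insert (A.min' h) B) := by
    conv_lhs => rw [RR, dif_pos h]
    rw [Finset.sum_attach ((A.erase (A.min' h)).powerset.erase (A.erase (A.min' h)))
      (fun B => RR Q (insert (A.min' h) B) *
        cut Q (insert (A.min' h) B) (A \ insert (A.min' h) B))]
  rw [h1]
  ring

theorem MM_empty (Q : Fin n → Fin n → ℝ) (f : Finset (Fin n) → ℝ) : MM Q f ∅ = 1 :=
  EE_empty _ _

theorem MM_one {Q : Fin n → Fin n → ℝ} (_hs : ∀ i j, Q i j = Q j i) (A : Finset (Fin n)) :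
    MM Q (fun _ => 1) A = 1 := by
  induction hk : A.card using Nat.strong_induction_on generalizing A with
  | _ k ih =>
    subst hk
    rcases A.eq_empty_or_nonempty with rfl | h
    · exact MM_empty _ _
    · rw [MM, a2_EE_eq _ _ _ h]
      refine Eq.trans (Finset.sum_congr rfl fun B _ => ?_) (a2_RR_min Q A h)
      have := ih _ (a2_card_lt (A.min'_mem h) B) _ rfl
      rw [MM] at this
      rw [this, mul_one, mul_one]

theorem RR_sum {Q : Fin n → Fin n → ℝ} (hs : ∀ i j, Q i j = Q j i) (A : Finset (Fin n))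
    (a : Fin n) (ha : a ∈ A) :
    ∑ B ∈ (A.erase a).powerset, RR Q (insert a B) * cut Q (insert a B) (A \ insert a B) = 1 := by
  rw [← MM_one hs A, MM, EE_choice hs _ A a ha]
  refine Finset.sum_congr rfl fun B _ => ?_
  have := MM_one hs (A \ insert a B)
  rw [MM] at this
  rw [this, mul_one, mul_one]

/-- uniqueness: a set function with the same recursion is `RR`. -/
theorem RR_unique {Q : Fin n → Fin n → ℝ} (F : Finset (Fin n) → ℝ)
    (hF : ∀ (A : Finset (Fin n)) (h : A.Nonempty),
      ∑ B ∈ (A.erase (A.min' h)).powerset,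
        F (insert (A.min' h) B) * cut Q (insert (A.min' h) B) (A \ insert (A.min' h) B) = 1)
    (A : Finset (Fin n)) (h : A.Nonempty) : F A = RR Q A := by
  induction hk : A.card using Nat.strong_induction_on generalizing A with
  | _ k ih =>
    subst hk
    have h1 := hF A h
    have h2 := a2_RR_min Q A h
    rw [a2_split1 _ _ _ _ (A.min'_mem h)] at h1 h2
    have h3 : ∑ B ∈ (A.erase (A.min' h)).powerset.erase (A.erase (A.min' h)),
        F (insert (A.min' h) B) * cut Q (insert (A.min' h) B) (A \ insert (A.min' h) B) =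
        ∑ B ∈ (A.erase (A.min' h)).powerset.erase (A.erase (A.min' h)),
        RR Q (insert (A.min' h) B) * cut Q (insert (A.min' h) B) (A \ insert (A.min' h) B) := by
      refine Finset.sum_congr rfl fun B hB => ?_
      rw [ih _ (a2_insert_card_lt (A.min'_mem h) hB) _ (Finset.insert_nonempty _ _) rfl]
    rw [h3] at h1
    linarith

theorem a2_tt_pull (Q : Fin n → Fin n → ℝ) (w : Fin n) (f : Finset (Fin n) → ℝ)
    (A : Finset (Fin n)) :
    MM Q (fun B => tt Q w B * f B) A = tt Q w A * MM Q f A := by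
  rw [MM, MM, tt, ← EE_mul]
  congr 1
  funext B
  rw [tt]
  ring

theorem a2_mu_pull (Q : Fin n → Fin n → ℝ) (μ : Fin n → ℝ) (f : Finset (Fin n) → ℝ)
    (A : Finset (Fin n)) :
    MM Q (fun B => f B * ∏ i ∈ B, μ i) A = MM Q f A * ∏ i ∈ A, μ i := by
  rw [MM, MM, mul_comm, ← EE_mul]
  congr 1
  funext B
  ring

theorem a2_add {Q : Fin n → Fin n → ℝ} (hs : ∀ i j, Q i j = Q j i)
    (f₁ f₂ : Finset (Fin n) → ℝ) (A : Finset (Fin n)) :
    ∑ B ∈ A.powerset, MM Q f₁ B * cut Q B (A \ B) * MM Q f₂ (A \ B) =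
      MM Q (fun B => f₁ B + f₂ B) A := by
  have h := EE_add hs (fun B => RR Q B * f₁ B) (fun B => RR Q B * f₂ B) A
  unfold MM
  rw [h]
  congr 1
  funext B
  ring

theorem a2_powerset_split (F : Finset (Fin n) → ℝ) (A : Finset (Fin n)) :
    ∑ B ∈ A.powerset, F B = F A + ∑ B ∈ A.powerset.erase A, F B :=
  (Finset.add_sum_erase _ _ (Finset.mem_powerset.2 (Finset.Subset.refl A))).symm

theorem a2_insert_sdiff {A B : Finset (Fin n)} {w : Fin n} (hw : w ∉ A) :
    insert w A \ insert w B = A \ B := by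
  ext x
  simp only [Finset.mem_sdiff, Finset.mem_insert]
  constructor
  · rintro ⟨h1, h2⟩
    push Not at h2
    exact ⟨h1.resolve_left h2.1, h2.2⟩
  · rintro ⟨h1, h2⟩
    refine ⟨Or.inr h1, ?_⟩
    rintro (rfl | h3)
    · exact hw h1
    · exact h2 h3

theorem RR_insert {Q : Fin n → Fin n → ℝ} (hs : ∀ i j, Q i j = Q j i) (w : Fin n)
    (B : Finset (Fin n)) (hw : w ∉ B) :
    RR Q (insert w B) = MM Q (fun C => 1 - tt Q w C) B := by
  induction hk : B.card using Nat.strong_induction_on generalizing B with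
  | _ k ih =>
    subst hk
    have h1 := RR_sum hs (insert w B) w (Finset.mem_insert_self _ _)
    rw [Finset.erase_insert hw] at h1
    have h2 := a2_add hs (fun C => 1 - tt Q w C) (fun C => tt Q w C * 1) B
    have h3 : (fun C => 1 - tt Q w C + tt Q w C * 1) = (fun _ : Finset (Fin n) => (1 : ℝ)) := by
      funext C; ring
    rw [h3, MM_one hs] at h2
    have h4 : ∑ C ∈ B.powerset, RR Q (insert w C) *
        cut Q (insert w C) (insert w B \ insert w C) =
        ∑ C ∈ B.powerset, RR Q (insert w C) * (tt Q w (B \ C) * cut Q C (B \ C)) := by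
      refine Finset.sum_congr rfl fun C hC => ?_
      rw [a2_insert_sdiff hw, a2_cut_insert _ _ _ _
        fun h => hw (Finset.mem_powerset.1 hC h)]
    rw [h4, a2_powerset_split] at h1
    have h5 : ∑ C ∈ B.powerset, MM Q (fun C => 1 - tt Q w C) C * cut Q C (B \ C) *
        MM Q (fun C => tt Q w C * 1) (B \ C) =
        ∑ C ∈ B.powerset, MM Q (fun C => 1 - tt Q w C) C *
          (tt Q w (B \ C) * cut Q C (B \ C)) := by
      refine Finset.sum_congr rfl fun C _ => ?_
      rw [a2_tt_pull, MM_one hs]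
      ring
    rw [h5, a2_powerset_split] at h2
    have h6 : ∑ C ∈ B.powerset.erase B, MM Q (fun C => 1 - tt Q w C) C *
          (tt Q w (B \ C) * cut Q C (B \ C)) = ∑ C ∈ B.powerset.erase B,
          RR Q (insert w C) * (tt Q w (B \ C) * cut Q C (B \ C)) := by
      refine Finset.sum_congr rfl fun C hC => ?_
      rw [Finset.mem_erase, Finset.mem_powerset] at hC
      rw [ih C.card (Finset.card_lt_card (Finset.ssubset_iff_subset_ne.2 ⟨hC.2, hC.1⟩)) C
        (fun h => hw (hC.2 h)) rfl]
    have h7 : tt Q w (B \ B) * cut Q B (B \ B) = 1 := by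
      rw [Finset.sdiff_self, a2_cut_empty_right]
      simp [tt]
    rw [h6, h7] at h2
    rw [h7] at h1
    linarith

/-- vertex expansion. -/
theorem MM_insert {ι : Type*} (J : Finset ι) {Q : Fin n → Fin n → ℝ}
    (hs : ∀ i j, Q i j = Q j i) (w : Fin n) (A : Finset (Fin n)) (hw : w ∉ A)
    (f : Finset (Fin n) → ℝ) (c : ι → ℝ) (m : ι → Fin n → ℝ)
    (hf : ∀ B ⊆ A, f (insert w B) = ∑ j ∈ J, c j * ∏ i ∈ B, m j i) :
    MM Q f (insert w A) =
      ∑ j ∈ J, c j * MM Q (fun B => (1 - tt Q w B) * (∏ i ∈ B, m j i) + tt Q w B * f B) A := by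
  have h1 : ∀ j, MM Q (fun B => (1 - tt Q w B) * (∏ i ∈ B, m j i) + tt Q w B * f B) A =
      ∑ B ∈ A.powerset, RR Q (insert w B) * (∏ i ∈ B, m j i) * cut Q B (A \ B) *
        (tt Q w (A \ B) * MM Q f (A \ B)) := by
    intro j
    rw [← a2_add hs]
    refine Finset.sum_congr rfl fun B hB => ?_
    rw [a2_mu_pull, a2_tt_pull, RR_insert hs w B fun h => hw (Finset.mem_powerset.1 hB h)]
  rw [Finset.sum_congr rfl fun j _ => by rw [h1 j]]
  rw [MM, EE_choice hs _ _ w (Finset.mem_insert_self _ _), Finset.erase_insert hw]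
  have h2 : ∀ B ∈ A.powerset, RR Q (insert w B) * f (insert w B) *
      cut Q (insert w B) (insert w A \ insert w B) *
      EE Q (fun B => RR Q B * f B) (insert w A \ insert w B) =
      ∑ j ∈ J, c j * (RR Q (insert w B) * (∏ i ∈ B, m j i) * cut Q B (A \ B) *
        (tt Q w (A \ B) * MM Q f (A \ B))) := by
    intro B hB
    rw [a2_insert_sdiff hw, a2_cut_insert _ _ _ _ fun h => hw (Finset.mem_powerset.1 hB h),
      hf B (Finset.mem_powerset.1 hB), Finset.mul_sum, Finset.sum_mul, Finset.sum_mul]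
    refine Finset.sum_congr rfl fun j _ => ?_
    rw [MM]
    ring
  rw [Finset.sum_congr rfl h2, Finset.sum_comm]
  refine Finset.sum_congr rfl fun j _ => ?_
  rw [Finset.mul_sum]

theorem a2_cut_congr {Q Q' : Fin n → Fin n → ℝ} {A : Finset (Fin n)}
    (hQ : ∀ i ∈ A, ∀ j ∈ A, i ≠ j → Q i j = Q' i j) {B : Finset (Fin n)} (hB : B ⊆ A) :
    cut Q B (A \ B) = cut Q' B (A \ B) := by
  rw [cut, cut]
  refine Finset.prod_congr rfl fun i hi => Finset.prod_congr rfl fun j hj => ?_
  rw [Finset.mem_sdiff] at hj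
  exact hQ i (hB hi) j hj.1 fun h => hj.2 (h ▸ hi)

theorem RR_congr {Q Q' : Fin n → Fin n → ℝ} {A : Finset (Fin n)}
    (hQ : ∀ i ∈ A, ∀ j ∈ A, i ≠ j → Q i j = Q' i j) : RR Q A = RR Q' A := by
  induction hk : A.card using Nat.strong_induction_on generalizing A with
  | _ k ih =>
    subst hk
    rcases A.eq_empty_or_nonempty with rfl | h
    · rw [a2_RR_empty, a2_RR_empty]
    have h1 := a2_RR_min Q A h
    have h2 := a2_RR_min Q' A h
    rw [a2_split1 _ _ _ _ (A.min'_mem h)] at h1 h2
    have h3 : ∑ B ∈ (A.erase (A.min' h)).powerset.erase (A.erase (A.min' h)),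
        RR Q (insert (A.min' h) B) * cut Q (insert (A.min' h) B) (A \ insert (A.min' h) B) =
        ∑ B ∈ (A.erase (A.min' h)).powerset.erase (A.erase (A.min' h)),
        RR Q' (insert (A.min' h) B) *
          cut Q' (insert (A.min' h) B) (A \ insert (A.min' h) B) := by
      refine Finset.sum_congr rfl fun B hB => ?_
      have hsub := a2_insert_subset (A.min'_mem h) (Finset.mem_of_mem_erase hB)
      rw [ih _ (a2_insert_card_lt (A.min'_mem h) hB)
        (fun i hi j hj => hQ i (hsub hi) j (hsub hj)) rfl, a2_cut_congr hQ hsub]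
    rw [h3] at h1
    linarith

theorem MM_congr {Q Q' : Fin n → Fin n → ℝ} {f f' : Finset (Fin n) → ℝ} {A : Finset (Fin n)}
    (hQ : ∀ i ∈ A, ∀ j ∈ A, i ≠ j → Q i j = Q' i j)
    (hf : ∀ B ⊆ A, B.Nonempty → f B = f' B) : MM Q f A = MM Q' f' A := by
  refine EE_congr hQ fun B hB hn => ?_
  rw [RR_congr fun i hi j hj => hQ i (hB hi) j (hB hj), hf B hB hn]

theorem RR_nonneg {Q : Fin n → Fin n → ℝ} (hQ : Wt Q) (A : Finset (Fin n)) : 0 ≤ RR Q A := by
  induction hk : A.card using Nat.strong_induction_on generalizing A with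
  | _ k ih =>
    subst hk
    rcases A.eq_empty_or_nonempty with rfl | ⟨w, hw⟩
    · rw [a2_RR_empty]; exact zero_le_one
    rw [← Finset.insert_erase hw, RR_insert hQ.1 w _ (Finset.notMem_erase w A)]
    refine EE_nonneg hQ.2.1 fun B hB _ => mul_nonneg ?_ ?_
    · refine ih B.card ?_ B rfl
      exact lt_of_le_of_lt (Finset.card_le_card hB) (Finset.card_erase_lt_of_mem hw)
    · rw [sub_nonneg, tt]
      exact Finset.prod_le_one (fun i _ => hQ.2.1 _ _) fun i _ => hQ.2.2 _ _

theorem MM_nonneg {Q : Fin n → Fin n → ℝ} (hQ : Wt Q) {f : Finset (Fin n) → ℝ}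
    {A : Finset (Fin n)} (hf : ∀ B ⊆ A, B.Nonempty → 0 ≤ f B) : 0 ≤ MM Q f A :=
  EE_nonneg hQ.2.1 fun B hB hn => mul_nonneg (RR_nonneg hQ B) (hf B hB hn)

theorem a2_cut_nonneg {Q : Fin n → Fin n → ℝ} (hQ : Wt Q) (B C : Finset (Fin n)) :
    0 ≤ cut Q B C :=
  Finset.prod_nonneg fun i _ => Finset.prod_nonneg fun j _ => hQ.2.1 i j

/-- termwise positivity: if a linear combination of products over blocks is nonnegative for every
set partition, then so is the combination of expectations. -/
theorem MM_termwise {ι : Type*} (J : Finset ι) {Q : Fin n → Fin n → ℝ} (hQ : Wt Q)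
    (A : Finset (Fin n)) (c : ι → ℝ) (f : ι → Finset (Fin n) → ℝ)
    (h : ∀ L, IsPart A L → 0 ≤ ∑ j ∈ J, c j * (L.map (f j)).prod) :
    0 ≤ ∑ j ∈ J, c j * MM Q (f j) A := by
  induction hk : A.card using Nat.strong_induction_on generalizing A c with
  | _ k ih =>
    subst hk
    rcases A.eq_empty_or_nonempty with rfl | hne
    · have := h [] IsPart.nil
      simpa [MM_empty] using this
    have h1 : ∀ j, MM Q (f j) A = ∑ B ∈ (A.erase (A.min' hne)).powerset,
        RR Q (insert (A.min' hne) B) * f j (insert (A.min' hne) B) *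
          cut Q (insert (A.min' hne) B) (A \ insert (A.min' hne) B) *
          MM Q (f j) (A \ insert (A.min' hne) B) := fun j => a2_EE_eq _ _ _ hne
    have h2 : ∑ j ∈ J, c j * MM Q (f j) A = ∑ B ∈ (A.erase (A.min' hne)).powerset,
        RR Q (insert (A.min' hne) B) *
          cut Q (insert (A.min' hne) B) (A \ insert (A.min' hne) B) *
          ∑ j ∈ J, (c j * f j (insert (A.min' hne) B)) *
            MM Q (f j) (A \ insert (A.min' hne) B) := by
      rw [Finset.sum_congr rfl fun j _ => by rw [h1 j, Finset.mul_sum], Finset.sum_comm]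
      refine Finset.sum_congr rfl fun B _ => ?_
      rw [Finset.mul_sum]
      refine Finset.sum_congr rfl fun j _ => ?_
      ring
    rw [h2]
    refine Finset.sum_nonneg fun B hB => mul_nonneg
      (mul_nonneg (RR_nonneg hQ _) (a2_cut_nonneg hQ _ _)) ?_
    refine ih _ (a2_card_lt (A.min'_mem hne) B) _ _ (fun L hL => ?_) rfl
    have := h (insert (A.min' hne) B :: L) (IsPart.cons A _ L (Finset.insert_nonempty _ _)
      (a2_insert_subset (A.min'_mem hne) hB) hL)
    refine this.trans_eq (Finset.sum_congr rfl fun j _ => ?_)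
    rw [List.map_cons, List.prod_cons]
    ring

theorem a2_MM_choice {Q : Fin n → Fin n → ℝ} (hs : ∀ i j, Q i j = Q j i) {A : Finset (Fin n)}
    {x : Fin n} (hx : x ∈ A) (f : Finset (Fin n) → ℝ) :
    MM Q f A = ∑ B ∈ (A.erase x).powerset, RR Q (insert x B) * f (insert x B) *
      cut Q (insert x B) (A \ insert x B) * MM Q f (A \ insert x B) :=
  EE_choice hs _ A x hx

/-- two functionals that differ only on the block of `x`. -/
theorem MM_sub_at {Q : Fin n → Fin n → ℝ} (hs : ∀ i j, Q i j = Q j i) {A : Finset (Fin n)}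
    {x : Fin n} (hx : x ∈ A) (f₁ f₂ : Finset (Fin n) → ℝ)
    (h : ∀ B ⊆ A, x ∉ B → f₁ B = f₂ B) :
    MM Q f₁ A - MM Q f₂ A = MM Q (fun B => if x ∈ B then f₁ B - f₂ B else f₁ B) A := by
  rw [a2_MM_choice hs hx f₁, a2_MM_choice hs hx f₂, a2_MM_choice hs hx, ← Finset.sum_sub_distrib]
  refine Finset.sum_congr rfl fun B _ => ?_
  have hx' : x ∈ insert x B := Finset.mem_insert_self _ _
  have hnx : ∀ C ⊆ A \ insert x B, x ∉ C := fun C hC hxC => (Finset.mem_sdiff.1 (hC hxC)).2 hx'
  have e1 : MM Q f₂ (A \ insert x B) = MM Q f₁ (A \ insert x B) :=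
    MM_congr (fun _ _ _ _ _ => rfl) fun C hC _ =>
      (h C (hC.trans Finset.sdiff_subset) (hnx C hC)).symm
  have e2 : MM Q (fun B => if x ∈ B then f₁ B - f₂ B else f₁ B) (A \ insert x B) =
      MM Q f₁ (A \ insert x B) :=
    MM_congr (fun _ _ _ _ _ => rfl) fun C hC _ => by
      show (if x ∈ C then f₁ C - f₂ C else f₁ C) = f₁ C
      rw [if_neg (hnx C hC)]
  rw [e1, e2, if_pos hx']
  ring

theorem MM_smul_at {Q : Fin n → Fin n → ℝ} (hs : ∀ i j, Q i j = Q j i) {A : Finset (Fin n)}
    {x : Fin n} (hx : x ∈ A) (f : Finset (Fin n) → ℝ) (c : ℝ) :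
    MM Q (fun B => if x ∈ B then c * f B else f B) A = c * MM Q f A := by
  rw [a2_MM_choice hs hx f, a2_MM_choice hs hx, Finset.mul_sum]
  refine Finset.sum_congr rfl fun B _ => ?_
  have hx' : x ∈ insert x B := Finset.mem_insert_self _ _
  have hnx : ∀ C ⊆ A \ insert x B, x ∉ C := fun C hC hxC => (Finset.mem_sdiff.1 (hC hxC)).2 hx'
  have e2 : MM Q (fun B => if x ∈ B then c * f B else f B) (A \ insert x B) =
      MM Q f (A \ insert x B) :=
    MM_congr (fun _ _ _ _ _ => rfl) fun C hC _ => by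
      show (if x ∈ C then c * f C else f C) = f C
      rw [if_neg (hnx C hC)]
  rw [e2, if_pos hx']
  ring

theorem Qw_symm (H : SimpleGraph (Fin n)) (q : ℝ) (i j : Fin n) : Qw H q i j = Qw H q j i := by
  unfold Qw
  split_ifs with h1 h2 h2
  · rfl
  · exact absurd h1.symm h2
  · exact absurd h2.symm h1
  · rfl

theorem Qw_wt (H : SimpleGraph (Fin n)) {q : ℝ} (h0 : 0 ≤ q) (h1 : q ≤ 1) : Wt (Qw H q) := by
  refine ⟨Qw_symm H q, fun i j => ?_, fun i j => ?_⟩
  · unfold Qw
    split_ifs
    · exact zero_le_one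
    · exact h0
  · unfold Qw
    split_ifs
    · exact le_rfl
    · exact h1

/-- relabelling the vertices does not change the reliability. -/
theorem RH_iso (H H' : SimpleGraph (Fin n)) (σ : Equiv.Perm (Fin n))
    (h : ∀ i j, H.Adj i j ↔ H'.Adj (σ i) (σ j)) (q : ℝ) : RH H q = RH H' q := by
  unfold RH
  rcases (Finset.univ : Finset (Fin n)).eq_empty_or_nonempty with h0 | hne
  · rw [h0, a2_RR_empty, a2_RR_empty]
  have hcut : ∀ B C : Finset (Fin n), cut (Qw H' q) (B.map σ.toEmbedding) (C.map σ.toEmbedding) =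
      cut (Qw H q) B C := by
    intro B C
    rw [cut, cut, Finset.prod_map]
    refine Finset.prod_congr rfl fun i _ => ?_
    rw [Finset.prod_map]
    refine Finset.prod_congr rfl fun j _ => ?_
    unfold Qw
    simp only [Equiv.coe_toEmbedding]
    split_ifs with h1 h2 h2
    · rfl
    · exact absurd ((h i j).2 h1) h2
    · exact absurd ((h i j).1 h2) h1
    · rfl
  have key := RR_unique (Q := Qw H q) (fun A => RR (Qw H' q) (A.map σ.toEmbedding)) (by
    intro A hA
    have h1 := RR_sum (Qw_symm H' q) (A.map σ.toEmbedding) (σ (A.min' hA))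
      (Finset.mem_map_of_mem _ (A.min'_mem hA))
    rw [← h1]
    refine Finset.sum_bij (fun B _ => B.map σ.toEmbedding) ?_ ?_ ?_ ?_
    · intro B hB
      rw [Finset.mem_powerset] at hB ⊢
      intro x hx
      rw [Finset.mem_map] at hx
      obtain ⟨y, hy, rfl⟩ := hx
      have h2 := hB hy
      rw [Finset.mem_erase] at h2 ⊢
      exact ⟨fun e => h2.1 (σ.injective e), Finset.mem_map_of_mem _ h2.2⟩
    · intro B _ B' _ e
      exact Finset.map_injective _ e
    · intro C hC
      rw [Finset.mem_powerset] at hC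
      refine ⟨C.map σ.symm.toEmbedding, ?_, ?_⟩
      · rw [Finset.mem_powerset]
        intro x hx
        rw [Finset.mem_map] at hx
        obtain ⟨y, hy, rfl⟩ := hx
        have h2 := hC hy
        rw [Finset.mem_erase, Finset.mem_map] at h2
        obtain ⟨h3, z, hz, rfl⟩ := h2
        rw [Finset.mem_erase]
        simp only [Equiv.coe_toEmbedding, Equiv.symm_apply_apply]
        refine ⟨fun e => h3 ?_, hz⟩
        rw [Equiv.coe_toEmbedding, e]
      · rw [Finset.map_map]
        ext x
        simp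
    · intro B _
      rw [Finset.map_insert]
      have e2 : insert (σ (A.min' hA)) (B.map σ.toEmbedding) =
          (insert (A.min' hA) B).map σ.toEmbedding := by
        rw [Finset.map_insert]
        rfl
      have e : (A.map σ.toEmbedding) \ insert (σ (A.min' hA)) (B.map σ.toEmbedding) =
          (A \ insert (A.min' hA) B).map σ.toEmbedding := by
        rw [e2, Finset.map_sdiff]
      rw [e, ← hcut]
      simp only [Finset.map_insert, Equiv.coe_toEmbedding]) Finset.univ hne
  rw [← key]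
  show RR (Qw H' q) ((Finset.univ : Finset (Fin n)).map σ.toEmbedding) = _
  rw [Finset.map_univ_equiv]

end Pool.Agent.H34R2.U
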