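import Pool.Agent.H34R2.U.MDefs

/-! kernel-friendly version of the certificate check -/

set_option autoImplicit false

namespace Pool.Agent.H34R2.U

def cf_axpy (c : ℕ) : List ℕ → List ℕ → List ℕ
  | x :: a, y :: b => Nat.add (Nat.mul c x) y :: cf_axpy c a b
  | _, _ => []

def cf_combo (rows : List (List ℕ)) (z : List ℕ) : List (ℕ × ℕ) → List ℕ
  | [] => z
  | e :: t => cf_axpy e.2 (rows.getD e.1 []) (cf_combo rows z t)

def cf_mul : List ℕ → List ℕ → List ℕ
  | x :: a, y :: b => Nat.mul x y :: cf_mul a b
  | _, _ => []

def cf_eq : List ℕ → List ℕ → Bool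
  | [], [] => true
  | x :: a, y :: b => Nat.beq x y && cf_eq a b
  | _, _ => false

/-- check for one row and one `T`; the first list is the list over `j` of the vectors `nJ`. -/
def cf_J (rows : List (List ℕ)) (z row : List ℕ) : List (List ℕ) → List (List (ℕ × ℕ)) → Bool
  | [], [] => true
  | t :: ts, c :: cs => cf_eq (cf_combo rows z c) (cf_mul t row) && cf_J rows z row ts cs
  | _, _ => false

def cf_T (rows : List (List ℕ)) (z row : List ℕ) : List (List (List ℕ)) →
    List (List (List (ℕ × ℕ))) → Bool
  | [], [] => true
  | t :: ts, m :: ms => cf_J rows z row t m && cf_T rows z row ts ms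
  | _, _ => false

/-- the entry for `T = 0`, `j = 0` is not checked. -/
def cf_row (rows : List (List ℕ)) (z row : List ℕ) : List (List (List ℕ)) →
    List (List (List (ℕ × ℕ))) → Bool
  | (_ :: t) :: ts, (_ :: m) :: ms => cf_J rows z row t m && cf_T rows z row ts ms
  | _, _ => false

def cf_rows (rows : List (List ℕ)) (z : List ℕ) (tab : List (List (List ℕ))) :
    List (List ℕ) → List (List (List (List (ℕ × ℕ)))) → Bool
  | [], [] => true
  | row :: rs, m :: ms => cf_row rows z row tab m && cf_rows rows z tab rs ms
  | _, _ => false

theorem cf_axpy_eq (c : ℕ) (a b : List ℕ) :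
    cf_axpy c a b = List.zipWith (fun x y => c * x + y) a b := by
  induction a generalizing b with
  | nil => cases b <;> simp [cf_axpy]
  | cons x a ih =>
    cases b with
    | nil => simp [cf_axpy]
    | cons y b => simp only [cf_axpy, List.zipWith_cons_cons, ih]; rfl

theorem cf_combo_eq (rows : List (List ℕ)) (len : ℕ) (c : List (ℕ × ℕ)) :
    cf_combo rows (List.replicate len 0) c = combo rows len c := by
  induction c with
  | nil => simp [cf_combo, combo]
  | cons e t ih =>
    rw [cf_combo, ih, cf_axpy_eq]
    simp [combo]

theorem cf_mul_eq (r j T : ℕ) (types : List Ty) (row : List ℕ) :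
    cf_mul (types.map (nJ r j T)) row = mulRow r j T types row := by
  unfold mulRow
  induction types generalizing row with
  | nil => cases row <;> simp [cf_mul]
  | cons x a ih =>
    cases row with
    | nil => simp [cf_mul]
    | cons y b => simp only [List.map_cons, cf_mul, List.zipWith_cons_cons, ih]; rfl

theorem cf_eq_iff (a b : List ℕ) (h : cf_eq a b = true) : a = b := by
  induction a generalizing b with
  | nil =>
    cases b with
    | nil => rfl
    | cons y b => simp [cf_eq] at h
  | cons x a ih =>
    cases b with
    | nil => simp [cf_eq] at h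
    | cons y b =>
      simp only [cf_eq, Bool.and_eq_true, Nat.beq_eq] at h
      rw [h.1, ih b h.2]

theorem cf_J_sound (K r T len : ℕ) (types : List Ty) (rows : List (List ℕ)) (row : List ℕ)
    (js : List ℕ) (cs : List (List (ℕ × ℕ)))
    (h : cf_J rows (List.replicate len 0) row (js.map fun j => types.map (nJ r j T)) cs = true) :
    cs.length = js.length ∧ ∀ g ∈ List.zip js cs, combo rows len g.2 = mulRow r g.1 T types row := by
  induction js generalizing cs with
  | nil =>
    cases cs with
    | nil => simp
    | cons y b => simp [cf_J] at h
  | cons j js ih =>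
    cases cs with
    | nil => simp [cf_J] at h
    | cons c cs =>
      simp only [List.map_cons, cf_J, Bool.and_eq_true] at h
      obtain ⟨h1, h2⟩ := h
      obtain ⟨h3, h4⟩ := ih cs h2
      refine ⟨by simp [h3], ?_⟩
      intro g hg
      rw [List.zip_cons_cons, List.mem_cons] at hg
      rcases hg with rfl | hg
      · have := cf_eq_iff _ _ h1
        rw [cf_combo_eq, cf_mul_eq] at this
        exact this
      · exact h4 g hg

theorem cf_T_sound (K r len : ℕ) (types : List Ty) (rows : List (List ℕ)) (row : List ℕ)
    (Ts : List ℕ) (cs : List (List (List (ℕ × ℕ))))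
    (h : cf_T rows (List.replicate len 0) row
      (Ts.map fun T => (List.range (K + 1)).map fun j => types.map (nJ r j T)) cs = true) :
    cs.length = Ts.length ∧ ∀ f ∈ List.zip Ts cs, f.2.length = K + 1 ∧
      ∀ g ∈ List.zip (List.range (K + 1)) f.2,
        combo rows len g.2 = mulRow r g.1 f.1 types row := by
  induction Ts generalizing cs with
  | nil =>
    cases cs with
    | nil => simp
    | cons y b => simp [cf_T] at h
  | cons T Ts ih =>
    cases cs with
    | nil => simp [cf_T] at h
    | cons c cs =>
      simp only [List.map_cons, cf_T, Bool.and_eq_true] at h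
      obtain ⟨h1, h2⟩ := h
      obtain ⟨h3, h4⟩ := ih cs h2
      refine ⟨by simp [h3], ?_⟩
      intro f hf
      rw [List.zip_cons_cons, List.mem_cons] at hf
      rcases hf with rfl | hf
      · have := cf_J_sound K r T len types rows row _ _ h1
        simpa using this
      · exact h4 f hf

theorem cf_row_sound (K r len : ℕ) (types : List Ty) (rows : List (List ℕ)) (row : List ℕ)
    (cs : List (List (List (ℕ × ℕ))))
    (h : cf_row rows (List.replicate len 0) row
      ((List.range (2 ^ r)).map fun T => (List.range (K + 1)).map fun j => types.map (nJ r j T))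
      cs = true) :
    ((cs.length == 2 ^ r) &&
    ((List.zip (List.range (2 ^ r)) cs).all fun f =>
      (f.2.length == K + 1) &&
      ((List.zip (List.range (K + 1)) f.2).all fun g =>
        (g.1 == 0 && f.1 == 0) ||
          combo rows len g.2 == mulRow r g.1 f.1 types row))) = true := by
  obtain ⟨N, hN⟩ : ∃ N, 2 ^ r = N + 1 := ⟨2 ^ r - 1, by have := Nat.one_le_two_pow (n := r); omega⟩
  rw [hN] at h ⊢
  rw [show List.range (N + 1) = 0 :: List.map Nat.succ (List.range N) from
    List.range_succ_eq_map] at h ⊢
  rw [List.map_cons] at h
  rw [show List.range (K + 1) = 0 :: List.map Nat.succ (List.range K) from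
    List.range_succ_eq_map] at h
  rw [List.map_cons] at h
  cases cs with
  | nil => simp [cf_row] at h
  | cons c cs =>
    cases c with
    | nil => simp [cf_row] at h
    | cons c0 c =>
      simp only [cf_row, Bool.and_eq_true] at h
      obtain ⟨h1, h2⟩ := h
      have h3 := cf_J_sound K r 0 len types rows row _ _ h1
      have h2' : cf_T rows (List.replicate len 0) row
          ((List.map Nat.succ (List.range N)).map fun T => (List.range (K + 1)).map fun j =>
            types.map (nJ r j T)) cs = true := by
        rw [show List.range (K + 1) = 0 :: List.map Nat.succ (List.range K) from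
          List.range_succ_eq_map]
        exact h2
      have h4 := cf_T_sound K r len types rows row _ _ h2'
      obtain ⟨h5, h6⟩ := h3
      obtain ⟨h7, h8⟩ := h4
      simp only [List.length_map, List.length_range] at h5 h7
      simp only [Bool.and_eq_true, List.all_eq_true, beq_iff_eq, Bool.or_eq_true]
      refine ⟨by simp [h7], ?_⟩
      intro f hf
      rw [List.zip_cons_cons, List.mem_cons] at hf
      rcases hf with rfl | hf
      · refine ⟨by simp [h5], ?_⟩
        intro g hg
        rw [List.range_succ_eq_map] at hg
        dsimp only at hg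
        rw [List.zip_cons_cons, List.mem_cons] at hg
        rcases hg with rfl | hg
        · left; simp
        · right; exact h6 g hg
      · obtain ⟨h9, h10⟩ := h8 f hf
        refine ⟨h9, ?_⟩
        intro g hg
        right; exact h10 g hg

theorem cf_rows_sound (K r len : ℕ) (types : List Ty) (rows : List (List ℕ))
    (tab : List (List (List ℕ)))
    (htab : tab = (List.range (2 ^ r)).map fun T => (List.range (K + 1)).map fun j =>
      types.map (nJ r j T))
    (rs : List (List ℕ)) (ms : List (List (List (List (ℕ × ℕ)))))
    (h : cf_rows rows (List.replicate len 0) tab rs ms = true) :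
    ms.length = rs.length ∧ (List.zip rs ms).all (fun e =>
      (e.2.length == 2 ^ r) &&
      ((List.zip (List.range (2 ^ r)) e.2).all fun f =>
        (f.2.length == K + 1) &&
        ((List.zip (List.range (K + 1)) f.2).all fun g =>
          (g.1 == 0 && f.1 == 0) ||
            combo rows len g.2 == mulRow r g.1 f.1 types e.1))) = true := by
  subst htab
  induction rs generalizing ms with
  | nil =>
    cases ms with
    | nil => simp
    | cons y b => simp [cf_rows] at h
  | cons row rs ih =>
    cases ms with
    | nil => simp [cf_rows] at h
    | cons m ms =>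
      simp only [cf_rows, Bool.and_eq_true] at h
      obtain ⟨h1, h2⟩ := h
      obtain ⟨h3, h4⟩ := ih ms h2
      refine ⟨by simp [h3], ?_⟩
      rw [List.zip_cons_cons, List.all_cons, Bool.and_eq_true]
      exact ⟨cf_row_sound K r len types rows row m h1, h4⟩

theorem cf_rows_append (rows : List (List ℕ)) (z : List ℕ) (tab : List (List (List ℕ)))
    (rs rs' : List (List ℕ)) (ms ms' : List (List (List (List (ℕ × ℕ)))))
    (h : cf_rows rows z tab rs ms = true) (h' : cf_rows rows z tab rs' ms' = true) :
    cf_rows rows z tab (rs ++ rs') (ms ++ ms') = true := by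
  induction rs generalizing ms with
  | nil =>
    cases ms with
    | nil => simpa using h'
    | cons y b => simp [cf_rows] at h
  | cons row rs ih =>
    cases ms with
    | nil => simp [cf_rows] at h
    | cons m ms =>
      simp only [cf_rows, Bool.and_eq_true, List.cons_append] at h ⊢
      exact ⟨h.1, ih ms h.2⟩

/-- the cheap part of the check -/
def cf_basic (K : ℕ) (C : Cert) : Bool :=
  (C.rows.all fun row => row.length == C.types.length) &&
  (C.rows.any fun row => row.all fun x => x == 1) &&
  (C.types.all fun τ => τ.all fun b => b.2 ≤ K) &&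
  (C.types.all fun τ => (τ.map fun b => b.2).sum == K)

theorem certOK_of (K r len : ℕ) (C : Cert) (tab : List (List (List ℕ)))
    (hlen : C.types.length = len) (hb : cf_basic K C = true)
    (htab : tab = (List.range (2 ^ r)).map fun T => (List.range (K + 1)).map fun j =>
      C.types.map (nJ r j T))
    (h : cf_rows C.rows (List.replicate len 0) tab C.rows C.mul = true) :
    certOK K r C = true := by
  subst hlen
  obtain ⟨h1, h2⟩ := cf_rows_sound K r C.types.length C.types C.rows tab htab _ _ h
  unfold certOK
  unfold cf_basic at hb
  rw [Bool.and_eq_true, Bool.and_eq_true]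
  refine ⟨⟨hb, by simp [h1]⟩, h2⟩

end Pool.Agent.H34R2.U
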