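import Pool.Agent.H34R2.U.CFast

/-! certificate data (generated) -/

set_option autoImplicit false
set_option maxRecDepth 100000

namespace Pool.Agent.H34R2.U

def cert10_0_types : List Ty :=
  [[(0,1),(0,1),(0,1),(0,1),(0,1),(0,1),(0,1),(0,1),(0,1),(0,1)],
   [(0,1),(0,1),(0,1),(0,1),(0,1),(0,1),(0,1),(0,1),(0,2)],
   [(0,1),(0,1),(0,1),(0,1),(0,1),(0,1),(0,1),(0,3)],
   [(0,1),(0,1),(0,1),(0,1),(0,1),(0,1),(0,2),(0,2)],
   [(0,1),(0,1),(0,1),(0,1),(0,1),(0,1),(0,4)],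
   [(0,1),(0,1),(0,1),(0,1),(0,1),(0,2),(0,3)],
   [(0,1),(0,1),(0,1),(0,1),(0,2),(0,2),(0,2)],
   [(0,1),(0,1),(0,1),(0,1),(0,1),(0,5)],
   [(0,1),(0,1),(0,1),(0,1),(0,2),(0,4)],
   [(0,1),(0,1),(0,1),(0,1),(0,3),(0,3)],
   [(0,1),(0,1),(0,1),(0,2),(0,2),(0,3)],
   [(0,1),(0,1),(0,2),(0,2),(0,2),(0,2)],
   [(0,1),(0,1),(0,1),(0,1),(0,6)],
   [(0,1),(0,1),(0,1),(0,2),(0,5)],
   [(0,1),(0,1),(0,1),(0,3),(0,4)],
   [(0,1),(0,1),(0,2),(0,2),(0,4)],
   [(0,1),(0,1),(0,2),(0,3),(0,3)],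
   [(0,1),(0,2),(0,2),(0,2),(0,3)],
   [(0,2),(0,2),(0,2),(0,2),(0,2)],
   [(0,1),(0,1),(0,1),(0,7)],
   [(0,1),(0,1),(0,2),(0,6)],
   [(0,1),(0,1),(0,3),(0,5)],
   [(0,1),(0,1),(0,4),(0,4)],
   [(0,1),(0,2),(0,2),(0,5)],
   [(0,1),(0,2),(0,3),(0,4)],
   [(0,1),(0,3),(0,3),(0,3)],
   [(0,2),(0,2),(0,2),(0,4)],
   [(0,2),(0,2),(0,3),(0,3)],
   [(0,1),(0,1),(0,8)],
   [(0,1),(0,2),(0,7)],
   [(0,1),(0,3),(0,6)],
   [(0,1),(0,4),(0,5)],
   [(0,2),(0,2),(0,6)],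
   [(0,2),(0,3),(0,5)],
   [(0,2),(0,4),(0,4)],
   [(0,3),(0,3),(0,4)],
   [(0,1),(0,9)],
   [(0,2),(0,8)],
   [(0,3),(0,7)],
   [(0,4),(0,6)],
   [(0,5),(0,5)],
   [(0,10)]]

def cert10_0_tab : List (List (List ℕ)) :=
  [[[10,9,8,8,7,7,7,6,6,6,6,6,5,5,5,5,5,5,5,4,4,4,4,4,4,4,4,4,3,3,3,3,3,3,3,3,2,2,2,2,2,1],
    [10,10,10,10,10,10,10,10,10,10,10,10,10,10,10,10,10,10,10,10,10,10,10,10,10,10,10,10,10,10,10,10,10,10,10,10,10,10,10,10,10,10],
    [0,1,3,2,6,4,3,10,7,6,5,4,15,11,9,8,7,6,5,21,16,13,12,12,10,9,9,8,28,22,18,16,17,14,13,12,36,29,24,21,20,45],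
    [0,0,1,0,4,1,0,10,4,2,1,0,20,10,5,4,2,1,0,35,20,11,8,10,5,3,4,2,56,35,21,14,20,11,8,6,84,56,36,24,20,120],
    [0,0,0,0,1,0,0,5,1,0,0,0,15,5,1,1,0,0,0,35,15,5,2,5,1,0,1,0,70,35,15,6,15,5,2,1,126,70,35,16,10,210],
    [0,0,0,0,0,0,0,1,0,0,0,0,6,1,0,0,0,0,0,21,6,1,0,1,0,0,0,0,56,21,6,1,6,1,0,0,126,56,21,6,2,252],
    [0,0,0,0,0,0,0,0,0,0,0,0,1,0,0,0,0,0,0,7,1,0,0,0,0,0,0,0,28,7,1,0,1,0,0,0,84,28,7,1,0,210],
    [0,0,0,0,0,0,0,0,0,0,0,0,0,0,0,0,0,0,0,1,0,0,0,0,0,0,0,0,8,1,0,0,0,0,0,0,36,8,1,0,0,120],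
    [0,0,0,0,0,0,0,0,0,0,0,0,0,0,0,0,0,0,0,0,0,0,0,0,0,0,0,0,1,0,0,0,0,0,0,0,9,1,0,0,0,45],
    [0,0,0,0,0,0,0,0,0,0,0,0,0,0,0,0,0,0,0,0,0,0,0,0,0,0,0,0,0,0,0,0,0,0,0,0,1,0,0,0,0,10],
    [0,0,0,0,0,0,0,0,0,0,0,0,0,0,0,0,0,0,0,0,0,0,0,0,0,0,0,0,0,0,0,0,0,0,0,0,0,0,0,0,0,1]]]

def cert10_0_R0 : List (List ℕ) :=
  [[1,1,1,1,1,1,1,1,1,1,1,1,1,1,1,1,1,1,1,1,1,1,1,1,1,1,1,1,1,1,1,1,1,1,1,1,1,1,1,1,1,1],
   [0,1,3,2,6,4,3,10,7,6,5,4,15,11,9,8,7,6,5,21,16,13,12,12,10,9,9,8,28,22,18,16,17,14,13,12,36,29,24,21,20,45],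
   [0,0,1,0,4,1,0,10,4,2,1,0,20,10,5,4,2,1,0,35,20,11,8,10,5,3,4,2,56,35,21,14,20,11,8,6,84,56,36,24,20,120],
   [0,0,0,1,3,3,3,15,9,9,7,6,45,25,21,16,15,12,10,105,60,45,42,36,30,27,24,22,210,126,90,78,76,58,54,48,378,238,168,138,130,630],
   [0,0,0,0,1,0,0,5,1,0,0,0,15,5,1,1,0,0,0,35,15,5,2,5,1,0,1,0,70,35,15,6,15,5,2,1,126,70,35,16,10,210],
   [0,0,0,0,0,1,0,10,4,6,2,0,60,20,18,8,8,3,0,210,80,50,48,30,23,18,12,10,560,245,135,110,100,61,56,42,1260,616,336,240,220,2520],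
   [0,0,0,0,0,0,1,0,3,0,3,4,15,15,9,12,9,10,10,105,60,45,36,40,30,27,28,24,420,210,150,120,120,90,78,72,1260,630,420,330,300,3150],
   [0,0,0,0,0,0,0,1,0,0,0,0,6,1,0,0,0,0,0,21,6,1,0,1,0,0,0,0,56,21,6,1,6,1,0,0,126,56,21,6,2,252],
   [0,0,0,0,0,0,0,0,1,0,0,0,15,5,3,2,0,0,0,105,30,15,12,10,4,0,3,0,420,140,60,40,45,20,14,6,1260,490,210,120,100,3150],
   [0,0,0,0,0,0,0,0,0,1,0,0,10,0,4,0,1,0,0,70,10,10,16,0,4,3,0,1,280,70,30,40,10,10,16,9,840,280,105,90,100,2100],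
   [0,0,0,0,0,0,0,0,0,0,1,0,0,10,3,4,6,3,0,105,60,45,24,30,21,27,12,14,840,315,225,150,140,95,72,78,3780,1400,840,600,500,12600]]

def cert10_0_R1 : List (List ℕ) :=
  [[0,0,0,0,0,0,0,0,0,0,0,1,0,0,0,3,0,3,5,0,15,0,9,15,9,0,15,9,105,105,45,45,75,45,45,27,945,525,315,225,225,4725],
   [0,0,0,0,0,0,0,0,0,0,0,0,1,0,0,0,0,0,0,7,1,0,0,0,0,0,0,0,28,7,1,0,1,0,0,0,84,28,7,1,0,210],
   [0,0,0,0,0,0,0,0,0,0,0,0,0,1,0,0,0,0,0,21,6,3,0,2,0,0,0,0,168,42,18,6,12,4,0,0,756,224,84,36,20,2520],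
   [0,0,0,0,0,0,0,0,0,0,0,0,0,0,1,0,0,0,0,35,0,5,8,0,1,0,0,0,280,35,15,30,0,5,8,2,1260,280,70,80,100,4200],
   [0,0,0,0,0,0,0,0,0,0,0,0,0,0,0,1,0,0,0,0,15,0,6,5,3,0,3,0,210,105,45,30,45,15,18,9,1890,630,315,180,150,9450],
   [0,0,0,0,0,0,0,0,0,0,0,0,0,0,0,0,1,0,0,0,10,10,0,0,4,9,0,2,280,70,90,40,20,20,16,30,2520,560,420,300,200,12600],
   [0,0,0,0,0,0,0,0,0,0,0,0,0,0,0,0,0,1,0,0,0,0,0,10,3,0,4,6,0,105,15,30,60,45,24,18,1260,840,420,240,300,12600],
   [0,0,0,0,0,0,0,0,0,0,0,0,0,0,0,0,0,0,1,0,0,0,0,0,0,0,3,0,0,0,0,0,15,0,9,0,0,105,0,45,0,945],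
   [0,0,0,0,0,0,0,0,0,0,0,0,0,0,0,0,0,0,0,1,0,0,0,0,0,0,0,0,8,1,0,0,0,0,0,0,36,8,1,0,0,120],
   [0,0,0,0,0,0,0,0,0,0,0,0,0,0,0,0,0,0,0,0,1,0,0,0,0,0,0,0,28,7,3,0,2,0,0,0,252,56,21,6,0,1260],
   [0,0,0,0,0,0,0,0,0,0,0,0,0,0,0,0,0,0,0,0,0,1,0,0,0,0,0,0,56,0,6,4,0,1,0,0,504,56,21,24,20,2520]]

def cert10_0_R2 : List (List ℕ) :=
  [[0,0,0,0,0,0,0,0,0,0,0,0,0,0,0,0,0,0,0,0,0,0,1,0,0,0,0,0,35,0,0,5,0,0,1,0,315,35,0,15,25,1575],
   [0,0,0,0,0,0,0,0,0,0,0,0,0,0,0,0,0,0,0,0,0,0,0,1,0,0,0,0,0,21,0,3,6,3,0,0,378,168,63,18,30,3780],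
   [0,0,0,0,0,0,0,0,0,0,0,0,0,0,0,0,0,0,0,0,0,0,0,0,1,0,0,0,0,35,15,10,0,5,8,6,1260,280,210,120,100,12600],
   [0,0,0,0,0,0,0,0,0,0,0,0,0,0,0,0,0,0,0,0,0,0,0,0,0,1,0,0,0,0,10,0,0,0,0,4,280,0,70,40,0,2800],
   [0,0,0,0,0,0,0,0,0,0,0,0,0,0,0,0,0,0,0,0,0,0,0,0,0,0,1,0,0,0,0,0,15,0,6,0,0,210,0,60,0,3150],
   [0,0,0,0,0,0,0,0,0,0,0,0,0,0,0,0,0,0,0,0,0,0,0,0,0,0,0,1,0,0,0,0,10,10,0,3,0,280,105,30,100,6300],
   [0,0,0,0,0,0,0,0,0,0,0,0,0,0,0,0,0,0,0,0,0,0,0,0,0,0,0,0,1,0,0,0,0,0,0,0,9,1,0,0,0,45],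
   [0,0,0,0,0,0,0,0,0,0,0,0,0,0,0,0,0,0,0,0,0,0,0,0,0,0,0,0,0,1,0,0,0,0,0,0,36,8,3,0,0,360],
   [0,0,0,0,0,0,0,0,0,0,0,0,0,0,0,0,0,0,0,0,0,0,0,0,0,0,0,0,0,0,1,0,0,0,0,0,84,0,7,4,0,840],
   [0,0,0,0,0,0,0,0,0,0,0,0,0,0,0,0,0,0,0,0,0,0,0,0,0,0,0,0,0,0,0,1,0,0,0,0,126,0,0,6,10,1260],
   [0,0,0,0,0,0,0,0,0,0,0,0,0,0,0,0,0,0,0,0,0,0,0,0,0,0,0,0,0,0,0,0,1,0,0,0,0,28,0,3,0,630]]

def cert10_0_R3 : List (List ℕ) :=
  [[0,0,0,0,0,0,0,0,0,0,0,0,0,0,0,0,0,0,0,0,0,0,0,0,0,0,0,0,0,0,0,0,0,1,0,0,0,56,21,0,20,2520],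
   [0,0,0,0,0,0,0,0,0,0,0,0,0,0,0,0,0,0,0,0,0,0,0,0,0,0,0,0,0,0,0,0,0,0,1,0,0,35,0,15,0,1575],
   [0,0,0,0,0,0,0,0,0,0,0,0,0,0,0,0,0,0,0,0,0,0,0,0,0,0,0,0,0,0,0,0,0,0,0,1,0,0,35,10,0,2100],
   [0,0,0,0,0,0,0,0,0,0,0,0,0,0,0,0,0,0,0,0,0,0,0,0,0,0,0,0,0,0,0,0,0,0,0,0,1,0,0,0,0,10],
   [0,0,0,0,0,0,0,0,0,0,0,0,0,0,0,0,0,0,0,0,0,0,0,0,0,0,0,0,0,0,0,0,0,0,0,0,0,1,0,0,0,45],
   [0,0,0,0,0,0,0,0,0,0,0,0,0,0,0,0,0,0,0,0,0,0,0,0,0,0,0,0,0,0,0,0,0,0,0,0,0,0,1,0,0,120],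
   [0,0,0,0,0,0,0,0,0,0,0,0,0,0,0,0,0,0,0,0,0,0,0,0,0,0,0,0,0,0,0,0,0,0,0,0,0,0,0,1,0,210],
   [0,0,0,0,0,0,0,0,0,0,0,0,0,0,0,0,0,0,0,0,0,0,0,0,0,0,0,0,0,0,0,0,0,0,0,0,0,0,0,0,1,126],
   [0,0,0,0,0,0,0,0,0,0,0,0,0,0,0,0,0,0,0,0,0,0,0,0,0,0,0,0,0,0,0,0,0,0,0,0,0,0,0,0,0,1]]

def cert10_0_m0 : List (List (List (ℕ × ℕ))) :=
  [[[],
    [(0,10)],
    [(1,1)],
    [(2,1)],
    [(4,1)],
    [(7,1)],
    [(12,1)],
    [(19,1)],
    [(28,1)],
    [(36,1)],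
    [(41,1)]]]
def cert10_0_m1 : List (List (List (ℕ × ℕ))) :=
  [[[],
    [(1,10)],
    [(1,1),(2,6),(3,2)],
    [(2,3),(4,12),(5,1)],
    [(4,6),(7,20),(8,1)],
    [(7,10),(12,30),(13,1)],
    [(12,15),(19,42),(20,1)],
    [(19,21),(28,56),(29,1)],
    [(28,28),(36,72),(37,1)],
    [(36,36),(41,90)],
    [(41,45)]]]
def cert10_0_m2 : List (List (List (ℕ × ℕ))) :=
  [[[],
    [(2,10)],
    [(2,3),(4,12),(5,1)],
    [(2,1),(4,12),(7,30),(9,2)],
    [(4,4),(7,30),(12,60),(14,1)],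
    [(7,10),(12,60),(19,105),(21,1)],
    [(12,20),(19,105),(28,168),(30,1)],
    [(19,35),(28,168),(36,252),(38,1)],
    [(28,56),(36,252),(41,360)],
    [(36,84),(41,360)],
    [(41,120)]]]
def cert10_0_m3 : List (List (List (ℕ × ℕ))) :=
  [[[],
    [(3,10)],
    [(3,2),(4,12),(5,6),(6,3)],
    [(4,12),(5,3),(7,60),(8,12),(10,1)],
    [(4,3),(7,60),(8,6),(12,180),(13,20),(15,1)],
    [(7,15),(12,180),(13,10),(19,420),(20,30),(23,1)],
    [(12,45),(19,420),(20,15),(28,840),(29,42),(32,1)],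
    [(19,105),(28,840),(29,21),(36,1512),(37,56)],
    [(28,210),(36,1512),(37,28),(41,2520)],
    [(36,378),(41,2520)],
    [(41,630)]]]
def cert10_0_m4 : List (List (List (ℕ × ℕ))) :=
  [[[],
    [(4,10)],
    [(4,6),(7,20),(8,1)],
    [(4,4),(7,30),(12,60),(14,1)],
    [(4,1),(7,20),(12,90),(19,140),(22,2)],
    [(7,5),(12,60),(19,210),(28,280),(31,1)],
    [(12,15),(19,140),(28,420),(36,504),(39,1)],
    [(19,35),(28,280),(36,756),(41,840)],
    [(28,70),(36,504),(41,1260)],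
    [(36,126),(41,840)],
    [(41,210)]]]
def cert10_0_m5 : List (List (List (ℕ × ℕ))) :=
  [[[],
    [(5,10)],
    [(5,4),(7,60),(8,12),(9,12),(10,2)],
    [(5,1),(7,90),(8,12),(9,6),(12,360),(13,30),(14,12),(16,2)],
    [(7,50),(8,4),(12,540),(13,30),(14,6),(19,1260),(20,60),(21,20),(24,1)],
    [(7,10),(12,300),(13,10),(19,1890),(20,60),(21,10),(28,3360),(29,105),(30,30),(33,1)],
    [(12,60),(19,1050),(20,20),(28,5040),(29,105),(30,15),(36,7560),(37,168),(38,42)],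
    [(19,210),(28,2800),(29,35),(36,11340),(37,168),(38,21),(41,15120)],
    [(28,560),(36,6300),(37,56),(41,22680)],
    [(36,1260),(41,12600)],
    [(41,2520)]]]
def cert10_0_m6 : List (List (List (ℕ × ℕ))) :=
  [[[],
    [(6,10)],
    [(6,3),(8,12),(10,6),(11,4)],
    [(8,12),(10,3),(12,120),(13,60),(15,12),(17,1)],
    [(8,3),(12,180),(13,60),(15,6),(19,840),(20,180),(23,20),(26,1)],
    [(12,90),(13,15),(19,1260),(20,180),(23,10),(28,3360),(29,420),(32,30)],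
    [(12,15),(19,630),(20,45),(28,5040),(29,420),(32,15),(36,10080),(37,840)],
    [(19,105),(28,2520),(29,105),(36,15120),(37,840),(41,25200)],
    [(28,420),(36,7560),(37,210),(41,37800)],
    [(36,1260),(41,18900)],
    [(41,3150)]]]
def cert10_0_m7 : List (List (List (ℕ × ℕ))) :=
  [[[],
    [(7,10)],
    [(7,10),(12,30),(13,1)],
    [(7,10),(12,60),(19,105),(21,1)],
    [(7,5),(12,60),(19,210),(28,280),(31,1)],
    [(7,1),(12,30),(19,210),(28,560),(36,630),(40,2)],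
    [(12,6),(19,105),(28,560),(36,1260),(41,1260)],
    [(19,21),(28,280),(36,1260),(41,2520)],
    [(28,56),(36,630),(41,2520)],
    [(36,126),(41,1260)],
    [(41,252)]]]
def cert10_0_m8 : List (List (List (ℕ × ℕ))) :=
  [[[],
    [(8,10)],
    [(8,7),(12,120),(13,20),(14,6),(15,2)],
    [(8,4),(12,240),(13,30),(14,3),(19,840),(20,60),(22,24),(24,1)],
    [(8,1),(12,210),(13,20),(19,1680),(20,90),(22,12),(28,3360),(29,140),(31,20),(34,2)],
    [(12,90),(13,5),(19,1470),(20,60),(28,6720),(29,210),(31,10),(36,10080),(37,280),(39,30)],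
    [(12,15),(19,630),(20,15),(28,5880),(29,140),(36,20160),(37,420),(39,15),(41,25200)],
    [(19,105),(28,2520),(29,35),(36,17640),(37,280),(41,50400)],
    [(28,420),(36,7560),(37,70),(41,44100)],
    [(36,1260),(41,18900)],
    [(41,3150)]]]
def cert10_0_m9 : List (List (List (ℕ × ℕ))) :=
  [[[],
    [(9,10)],
    [(9,6),(12,90),(14,12),(16,1)],
    [(9,2),(12,180),(14,12),(19,630),(21,30),(25,3)],
    [(12,150),(14,4),(19,1260),(21,30),(28,2520),(30,60),(35,1)],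
    [(12,60),(19,1050),(21,10),(28,5040),(30,60),(36,7560),(38,105)],
    [(12,10),(19,420),(28,4200),(30,20),(36,15120),(38,105),(41,18900)],
    [(19,70),(28,1680),(36,12600),(38,35),(41,37800)],
    [(28,280),(36,5040),(41,31500)],
    [(36,840),(41,12600)],
    [(41,2100)]]]
def cert10_0_m10 : List (List (List (ℕ × ℕ))) :=
  [[[],
    [(10,10)],
    [(10,5),(13,60),(14,12),(15,12),(16,12),(17,3)],
    [(10,1),(13,90),(14,12),(15,12),(16,6),(19,1260),(20,360),(21,60),(23,30),(24,12),(27,2)],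
    [(13,50),(14,3),(15,4),(19,2520),(20,540),(21,60),(23,30),(24,6),(28,10080),(29,1260),(30,180),(32,60),(33,20)],
    [(13,10),(19,1995),(20,300),(21,15),(23,10),(28,20160),(29,1890),(30,180),(32,60),(33,10),(36,45360),(37,3360),(38,420)],
    [(19,735),(20,60),(28,15960),(29,1050),(30,45),(32,20),(36,90720),(37,5040),(38,420),(41,151200)],
    [(19,105),(28,5880),(29,210),(36,71820),(37,2800),(38,105),(41,302400)],
    [(28,840),(36,26460),(37,560),(41,239400)],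
    [(36,3780),(41,88200)],
    [(41,12600)]]]
def cert10_0_m11 : List (List (List (ℕ × ℕ))) :=
  [[[],
    [(11,10)],
    [(11,4),(15,12),(17,6),(18,5)],
    [(15,12),(17,3),(20,120),(23,60),(26,12)],
    [(15,3),(20,180),(23,60),(26,6),(28,1680),(29,840),(32,180)],
    [(20,90),(23,15),(28,3360),(29,1260),(32,180),(36,15120),(37,3360)],
    [(20,15),(28,2520),(29,630),(32,45),(36,30240),(37,5040),(41,75600)],
    [(28,840),(29,105),(36,22680),(37,2520),(41,151200)],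
    [(28,105),(36,7560),(37,420),(41,113400)],
    [(36,945),(41,37800)],
    [(41,4725)]]]
def cert10_0_m12 : List (List (List (ℕ × ℕ))) :=
  [[[],
    [(12,10)],
    [(12,15),(19,42),(20,1)],
    [(12,20),(19,105),(28,168),(30,1)],
    [(12,15),(19,140),(28,420),(36,504),(39,1)],
    [(12,6),(19,105),(28,560),(36,1260),(41,1260)],
    [(12,1),(19,42),(28,420),(36,1680),(41,3150)],
    [(19,7),(28,168),(36,1260),(41,4200)],
    [(28,28),(36,504),(41,3150)],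
    [(36,84),(41,1260)],
    [(41,210)]]]
def cert10_0_m13 : List (List (List (ℕ × ℕ))) :=
  [[[],
    [(13,10)],
    [(13,11),(19,210),(20,30),(21,6),(23,2)],
    [(13,10),(19,525),(20,60),(21,3),(28,1680),(29,105),(31,12),(33,1)],
    [(13,5),(19,630),(20,60),(28,4200),(29,210),(31,6),(36,7560),(37,280),(40,40)],
    [(13,1),(19,420),(20,30),(28,5040),(29,210),(36,18900),(37,560),(40,20),(41,25200)],
    [(19,147),(20,6),(28,3360),(29,105),(36,22680),(37,560),(41,63000)],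
    [(19,21),(28,1176),(29,21),(36,15120),(37,280),(41,75600)],
    [(28,168),(36,5292),(37,56),(41,50400)],
    [(36,756),(41,17640)],
    [(41,2520)]]]
def cert10_0_m14 : List (List (List (ℕ × ℕ))) :=
  [[[],
    [(14,10)],
    [(14,9),(19,420),(21,20),(22,24),(24,1)],
    [(14,5),(19,1050),(21,30),(22,24),(28,3360),(30,60),(31,30),(35,2)],
    [(14,1),(19,1190),(21,20),(22,8),(28,8400),(30,90),(31,30),(36,15120),(38,140),(39,60)],
    [(19,735),(21,5),(28,9520),(30,60),(31,10),(36,37800),(38,210),(39,60),(41,50400)],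
    [(19,245),(28,5880),(30,15),(36,42840),(38,140),(39,20),(41,126000)],
    [(19,35),(28,1960),(36,26460),(38,35),(41,142800)],
    [(28,280),(36,8820),(41,88200)],
    [(36,1260),(41,29400)],
    [(41,4200)]]]
def cert10_0_m15 : List (List (List (ℕ × ℕ))) :=
  [[[],
    [(15,10)],
    [(15,8),(20,120),(22,24),(23,20),(24,6),(26,3)],
    [(15,4),(20,240),(22,24),(23,30),(24,3),(28,3360),(29,840),(31,60),(32,60),(34,24)],
    [(15,1),(20,210),(22,6),(23,20),(28,8400),(29,1680),(31,60),(32,90),(34,12),(36,30240),(37,3360),(39,180)],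
    [(20,90),(23,5),(28,9240),(29,1470),(31,15),(32,60),(36,75600),(37,6720),(39,180),(41,151200)],
    [(20,15),(28,5460),(29,630),(32,15),(36,83160),(37,5880),(39,45),(41,378000)],
    [(28,1680),(29,105),(36,49140),(37,2520),(41,415800)],
    [(28,210),(36,15120),(37,420),(41,245700)],
    [(36,1890),(41,75600)],
    [(41,9450)]]]
def cert10_0_m16 : List (List (List (ℕ × ℕ))) :=
  [[[],
    [(16,10)],
    [(16,7),(20,90),(21,60),(24,12),(25,18),(27,2)],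
    [(16,2),(20,180),(21,90),(24,12),(25,9),(28,5040),(29,630),(30,360),(33,30),(35,12)],
    [(20,150),(21,50),(24,4),(28,12600),(29,1260),(30,540),(33,30),(35,6),(36,45360),(37,2520),(38,1260)],
    [(20,60),(21,10),(28,13440),(29,1050),(30,300),(33,10),(36,113400),(37,5040),(38,1890),(41,226800)],
    [(20,10),(28,7560),(29,420),(30,60),(36,120960),(37,4200),(38,1050),(41,567000)],
    [(28,2240),(29,70),(36,68040),(37,1680),(38,210),(41,604800)],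
    [(28,280),(36,20160),(37,280),(41,340200)],
    [(36,2520),(41,100800)],
    [(41,12600)]]]
def cert10_0_m17 : List (List (List (ℕ × ℕ))) :=
  [[[],
    [(17,10)],
    [(17,6),(23,60),(24,12),(26,12),(27,12)],
    [(17,1),(23,90),(24,12),(26,12),(27,6),(29,1260),(30,120),(32,360),(33,60)],
    [(23,50),(24,3),(26,4),(29,2520),(30,180),(32,540),(33,60),(36,30240),(37,10080),(38,840)],
    [(23,10),(29,1995),(30,90),(32,300),(33,15),(36,75600),(37,20160),(38,1260),(41,302400)],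
    [(29,735),(30,15),(32,60),(36,78120),(37,15960),(38,630),(41,756000)],
    [(29,105),(36,41580),(37,5880),(38,105),(41,781200)],
    [(36,11340),(37,840),(41,415800)],
    [(36,1260),(41,113400)],
    [(41,12600)]]]
def cert10_0_m18 : List (List (List (ℕ × ℕ))) :=
  [[[],
    [(18,10)],
    [(18,5),(26,12)],
    [(26,12),(32,120)],
    [(26,3),(32,180),(37,1680)],
    [(32,90),(37,3360),(41,30240)],
    [(32,15),(37,2520),(41,75600)],
    [(37,840),(41,75600)],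
    [(37,105),(41,37800)],
    [(41,9450)],
    [(41,945)]]]
def cert10_0_m19 : List (List (List (ℕ × ℕ))) :=
  [[[],
    [(19,10)],
    [(19,21),(28,56),(29,1)],
    [(19,35),(28,168),(36,252),(38,1)],
    [(19,35),(28,280),(36,756),(41,840)],
    [(19,21),(28,280),(36,1260),(41,2520)],
    [(19,7),(28,168),(36,1260),(41,4200)],
    [(19,1),(28,56),(36,756),(41,4200)],
    [(28,8),(36,252),(41,2520)],
    [(36,36),(41,840)],
    [(41,120)]]]
def cert10_0_m20 : List (List (List (ℕ × ℕ))) :=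
  [[[],
    [(20,10)],
    [(20,16),(28,336),(29,42),(30,6),(32,2)],
    [(20,20),(28,1008),(29,105),(30,3),(36,3024),(37,168),(39,12)],
    [(20,15),(28,1540),(29,140),(36,9072),(37,420),(39,6),(41,15120)],
    [(20,6),(28,1400),(29,105),(36,13860),(37,560),(41,45360)],
    [(20,1),(28,756),(29,42),(36,12600),(37,420),(41,69300)],
    [(28,224),(29,7),(36,6804),(37,168),(41,63000)],
    [(28,28),(36,2016),(37,28),(41,34020)],
    [(36,252),(41,10080)],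
    [(41,1260)]]]
def cert10_0_m21 : List (List (List (ℕ × ℕ))) :=
  [[[],
    [(21,10)],
    [(21,13),(28,840),(30,30),(31,12),(33,1)],
    [(21,11),(28,2520),(30,60),(31,12),(36,7560),(38,105),(40,60)],
    [(21,5),(28,3640),(30,60),(31,4),(36,22680),(38,210),(40,60),(41,37800)],
    [(21,1),(28,3080),(30,30),(36,32760),(38,210),(40,20),(41,113400)],
    [(28,1568),(30,6),(36,27720),(38,105),(41,163800)],
    [(28,448),(36,14112),(38,21),(41,138600)],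
    [(28,56),(36,4032),(41,70560)],
    [(36,504),(41,20160)],
    [(41,2520)]]]
def cert10_0_m22 : List (List (List (ℕ × ℕ))) :=
  [[[],
    [(22,10)],
    [(22,12),(28,560),(31,20),(34,1)],
    [(22,8),(28,1680),(31,30),(36,5040),(39,60)],
    [(22,2),(28,2380),(31,20),(36,15120),(39,90),(41,25200)],
    [(28,1960),(31,5),(36,21420),(39,60),(41,75600)],
    [(28,980),(36,17640),(39,15),(41,107100)],
    [(28,280),(36,8820),(41,88200)],
    [(28,35),(36,2520),(41,44100)],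
    [(36,315),(41,12600)],
    [(41,1575)]]]
def cert10_0_m23 : List (List (List (ℕ × ℕ))) :=
  [[[],
    [(23,10)],
    [(23,12),(29,210),(31,12),(32,30),(33,6)],
    [(23,10),(29,525),(31,12),(32,60),(33,3),(36,7560),(37,1680),(40,120)],
    [(23,5),(29,630),(31,3),(32,60),(36,22680),(37,4200),(40,120),(41,75600)],
    [(23,1),(29,420),(32,30),(36,32130),(37,5040),(40,30),(41,226800)],
    [(29,147),(32,6),(36,26460),(37,3360),(41,321300)],
    [(29,21),(36,12852),(37,1176),(41,264600)],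
    [(36,3402),(37,168),(41,128520)],
    [(36,378),(41,34020)],
    [(41,3780)]]]
def cert10_0_m24 : List (List (List (ℕ × ℕ))) :=
  [[[],
    [(24,10)],
    [(24,10),(29,420),(30,120),(31,60),(33,20),(34,24),(35,12)],
    [(24,5),(29,1050),(30,240),(31,90),(33,30),(34,24),(35,6),(36,30240),(37,3360),(38,840),(39,360)],
    [(24,1),(29,1190),(30,210),(31,50),(33,20),(34,8),(36,90720),(37,8400),(38,1680),(39,540),(41,302400)],
    [(29,735),(30,90),(31,10),(33,5),(36,123480),(37,9520),(38,1470),(39,300),(41,907200)],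
    [(29,245),(30,15),(36,95760),(37,5880),(38,630),(39,60),(41,1234800)],
    [(29,35),(36,44100),(37,1960),(38,105),(41,957600)],
    [(36,11340),(37,280),(41,441000)],
    [(36,1260),(41,113400)],
    [(41,12600)]]]
def cert10_0_m25 : List (List (List (ℕ × ℕ))) :=
  [[[],
    [(25,10)],
    [(25,9),(30,90),(35,12)],
    [(25,3),(30,180),(35,12),(36,7560),(38,630)],
    [(30,150),(35,4),(36,22680),(38,1260),(41,75600)],
    [(30,60),(36,30240),(38,1050),(41,226800)],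
    [(30,10),(36,22680),(38,420),(41,302400)],
    [(36,10080),(38,70),(41,226800)],
    [(36,2520),(41,100800)],
    [(36,280),(41,25200)],
    [(41,2800)]]]
def cert10_0_m26 : List (List (List (ℕ × ℕ))) :=
  [[[],
    [(26,10)],
    [(26,9),(32,120),(34,24)],
    [(26,4),(32,240),(34,24),(37,3360),(39,120)],
    [(26,1),(32,210),(34,6),(37,8400),(39,180),(41,100800)],
    [(32,90),(37,9240),(39,90),(41,302400)],
    [(32,15),(37,5460),(39,15),(41,403200)],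
    [(37,1680),(41,302400)],
    [(37,210),(41,132300)],
    [(41,31500)],
    [(41,3150)]]]
def cert10_0_m27 : List (List (List (ℕ × ℕ))) :=
  [[[],
    [(27,10)],
    [(27,8),(32,90),(33,60),(35,12)],
    [(27,2),(32,180),(33,90),(35,12),(37,5040),(38,1260)],
    [(32,150),(33,50),(35,3),(37,12600),(38,2520),(41,226800)],
    [(32,60),(33,10),(37,13440),(38,1995),(41,680400)],
    [(32,10),(37,7560),(38,735),(41,888300)],
    [(37,2240),(38,105),(41,642600)],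
    [(37,280),(41,270900)],
    [(41,63000)],
    [(41,6300)]]]
def cert10_0_m28 : List (List (List (ℕ × ℕ))) :=
  [[[],
    [(28,10)],
    [(28,28),(36,72),(37,1)],
    [(28,56),(36,252),(41,360)],
    [(28,70),(36,504),(41,1260)],
    [(28,56),(36,630),(41,2520)],
    [(28,28),(36,504),(41,3150)],
    [(28,8),(36,252),(41,2520)],
    [(28,1),(36,72),(41,1260)],
    [(36,9),(41,360)],
    [(41,45)]]]
def cert10_0_m29 : List (List (List (ℕ × ℕ))) :=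
  [[[],
    [(29,10)],
    [(29,22),(36,504),(37,56),(38,6)],
    [(29,35),(36,1764),(37,168),(38,3),(41,5040)],
    [(29,35),(36,3276),(37,280),(41,17640)],
    [(29,21),(36,3780),(37,280),(41,32760)],
    [(29,7),(36,2772),(37,168),(41,37800)],
    [(29,1),(36,1260),(37,56),(41,27720)],
    [(36,324),(37,8),(41,12600)],
    [(36,36),(41,3240)],
    [(41,360)]]]
def cert10_0_m30 : List (List (List (ℕ × ℕ))) :=
  [[[],
    [(30,10)],
    [(30,18),(36,1512),(38,42),(39,12)],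
    [(30,21),(36,5292),(38,105),(39,12),(41,15120)],
    [(30,15),(36,9324),(38,140),(39,4),(41,52920)],
    [(30,6),(36,10080),(38,105),(41,93240)],
    [(30,1),(36,6972),(38,42),(41,100800)],
    [(36,3024),(38,7),(41,69720)],
    [(36,756),(41,30240)],
    [(36,84),(41,7560)],
    [(41,840)]]]
def cert10_0_m31 : List (List (List (ℕ × ℕ))) :=
  [[[],
    [(31,10)],
    [(31,16),(36,2520),(39,30),(40,40)],
    [(31,14),(36,8820),(39,60),(40,60),(41,25200)],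
    [(31,6),(36,15120),(39,60),(40,40),(41,88200)],
    [(31,1),(36,15750),(39,30),(40,10),(41,151200)],
    [(36,10584),(39,6),(41,157500)],
    [(36,4536),(41,105840)],
    [(36,1134),(41,45360)],
    [(36,126),(41,11340)],
    [(41,1260)]]]
def cert10_0_m32 : List (List (List (ℕ × ℕ))) :=
  [[[],
    [(32,10)],
    [(32,17),(37,336),(39,12)],
    [(32,20),(37,1008),(39,12),(41,15120)],
    [(32,15),(37,1540),(39,3),(41,52920)],
    [(32,6),(37,1400),(41,91980)],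
    [(32,1),(37,756),(41,97650)],
    [(37,224),(41,65520)],
    [(37,28),(41,27090)],
    [(41,6300)],
    [(41,630)]]]
def cert10_0_m33 : List (List (List (ℕ × ℕ))) :=
  [[[],
    [(33,10)],
    [(33,14),(37,840),(38,210),(40,120)],
    [(33,11),(37,2520),(38,525),(40,180),(41,75600)],
    [(33,5),(37,3640),(38,630),(40,100),(41,264600)],
    [(33,1),(37,3080),(38,420),(40,20),(41,441000)],
    [(37,1568),(38,147),(41,441000)],
    [(37,448),(38,21),(41,279720)],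
    [(37,56),(41,110880)],
    [(41,25200)],
    [(41,2520)]]]
def cert10_0_m34 : List (List (List (ℕ × ℕ))) :=
  [[[],
    [(34,10)],
    [(34,13),(37,560),(39,120)],
    [(34,8),(37,1680),(39,240),(41,50400)],
    [(34,2),(37,2380),(39,210),(41,176400)],
    [(37,1960),(39,90),(41,289800)],
    [(37,980),(39,15),(41,283500)],
    [(37,280),(41,176400)],
    [(37,35),(41,69300)],
    [(41,15750)],
    [(41,1575)]]]
def cert10_0_m35 : List (List (List (ℕ × ℕ))) :=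
  [[[],
    [(35,10)],
    [(35,12),(38,420),(39,90)],
    [(35,6),(38,1050),(39,180),(41,75600)],
    [(35,1),(38,1190),(39,150),(41,264600)],
    [(38,735),(39,60),(41,428400)],
    [(38,245),(39,10),(41,409500)],
    [(38,35),(41,247800)],
    [(41,94500)],
    [(41,21000)],
    [(41,2100)]]]
def cert10_0_m36 : List (List (List (ℕ × ℕ))) :=
  [[[],
    [(36,10)],
    [(36,36),(41,90)],
    [(36,84),(41,360)],
    [(36,126),(41,840)],
    [(36,126),(41,1260)],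
    [(36,84),(41,1260)],
    [(36,36),(41,840)],
    [(36,9),(41,360)],
    [(36,1),(41,90)],
    [(41,10)]]]
def cert10_0_m37 : List (List (List (ℕ × ℕ))) :=
  [[[],
    [(37,10)],
    [(37,29),(41,720)],
    [(37,56),(41,2880)],
    [(37,70),(41,6300)],
    [(37,56),(41,8820)],
    [(37,28),(41,8190)],
    [(37,8),(41,5040)],
    [(37,1),(41,1980)],
    [(41,450)],
    [(41,45)]]]
def cert10_0_m38 : List (List (List (ℕ × ℕ))) :=
  [[[],
    [(38,10)],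
    [(38,24),(41,2520)],
    [(38,36),(41,10080)],
    [(38,35),(41,21000)],
    [(38,21),(41,27720)],
    [(38,7),(41,24360)],
    [(38,1),(41,14280)],
    [(41,5400)],
    [(41,1200)],
    [(41,120)]]]
def cert10_0_m39 : List (List (List (ℕ × ℕ))) :=
  [[[],
    [(39,10)],
    [(39,21),(41,5040)],
    [(39,24),(41,20160)],
    [(39,16),(41,40740)],
    [(39,6),(41,51660)],
    [(39,1),(41,43890)],
    [(41,25200)],
    [(41,9450)],
    [(41,2100)],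
    [(41,210)]]]
def cert10_0_m40 : List (List (List (ℕ × ℕ))) :=
  [[[],
    [(40,10)],
    [(40,20),(41,3150)],
    [(40,20),(41,12600)],
    [(40,10),(41,25200)],
    [(40,2),(41,31500)],
    [(41,26460)],
    [(41,15120)],
    [(41,5670)],
    [(41,1260)],
    [(41,126)]]]
def cert10_0_m41 : List (List (List (ℕ × ℕ))) :=
  [[[],
    [(41,10)],
    [(41,45)],
    [(41,120)],
    [(41,210)],
    [(41,252)],
    [(41,210)],
    [(41,120)],
    [(41,45)],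
    [(41,10)],
    [(41,1)]]]
def cert10_0_M0 : List (List (List (List (ℕ × ℕ)))) :=
  [cert10_0_m0, cert10_0_m1, cert10_0_m2, cert10_0_m3, cert10_0_m4, cert10_0_m5, cert10_0_m6, cert10_0_m7, cert10_0_m8, cert10_0_m9, cert10_0_m10]

def cert10_0_M1 : List (List (List (List (ℕ × ℕ)))) :=
  [cert10_0_m11, cert10_0_m12, cert10_0_m13, cert10_0_m14, cert10_0_m15, cert10_0_m16, cert10_0_m17, cert10_0_m18, cert10_0_m19, cert10_0_m20, cert10_0_m21]

def cert10_0_M2 : List (List (List (List (ℕ × ℕ)))) :=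
  [cert10_0_m22, cert10_0_m23, cert10_0_m24, cert10_0_m25, cert10_0_m26, cert10_0_m27, cert10_0_m28, cert10_0_m29, cert10_0_m30, cert10_0_m31, cert10_0_m32]

def cert10_0_M3 : List (List (List (List (ℕ × ℕ)))) :=
  [cert10_0_m33, cert10_0_m34, cert10_0_m35, cert10_0_m36, cert10_0_m37, cert10_0_m38, cert10_0_m39, cert10_0_m40, cert10_0_m41]

def cert10_0_rows : List (List ℕ) := cert10_0_R0 ++ (cert10_0_R1 ++ (cert10_0_R2 ++ (cert10_0_R3)))

/-- the certificate -/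
def cert10_0 : Cert where
  types := cert10_0_types
  rows := cert10_0_rows
  mul := cert10_0_M0 ++ (cert10_0_M1 ++ (cert10_0_M2 ++ (cert10_0_M3)))

theorem cert10_0_c0 : cf_rows cert10_0_rows (List.replicate 42 0) cert10_0_tab cert10_0_R0 cert10_0_M0 = true := by
  decide +kernel

theorem cert10_0_c1 : cf_rows cert10_0_rows (List.replicate 42 0) cert10_0_tab cert10_0_R1 cert10_0_M1 = true := by
  decide +kernel

theorem cert10_0_c2 : cf_rows cert10_0_rows (List.replicate 42 0) cert10_0_tab cert10_0_R2 cert10_0_M2 = true := by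
  decide +kernel

theorem cert10_0_c3 : cf_rows cert10_0_rows (List.replicate 42 0) cert10_0_tab cert10_0_R3 cert10_0_M3 = true := by
  decide +kernel

theorem cert10_0_all : cf_rows cert10_0_rows (List.replicate 42 0) cert10_0_tab cert10_0.rows cert10_0.mul = true :=
  (cf_rows_append _ _ _ _ _ _ _ cert10_0_c0 (cf_rows_append _ _ _ _ _ _ _ cert10_0_c1 (cf_rows_append _ _ _ _ _ _ _ cert10_0_c2 cert10_0_c3)))

theorem cert10_0_basic : cf_basic 10 cert10_0 = true := by decide +kernel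

theorem cert10_0_tabok : cert10_0_tab = (List.range (2 ^ 0)).map fun T => (List.range (10 + 1)).map fun j =>
    cert10_0.types.map (nJ 0 j T) := by decide +kernel

theorem cert10_0_ok : certOK 10 0 cert10_0 = true :=
  certOK_of 10 0 42 cert10_0 cert10_0_tab (by decide +kernel) cert10_0_basic cert10_0_tabok cert10_0_all

end Pool.Agent.H34R2.U
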