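import Pool.Agent.H34R2.U.CFast

/-! certificate data (generated) -/

set_option autoImplicit false
set_option maxRecDepth 100000

namespace Pool.Agent.H34R2.U

def cert5_0_types : List Ty :=
  [[(0,1),(0,1),(0,1),(0,1),(0,1)],
   [(0,1),(0,1),(0,1),(0,2)],
   [(0,1),(0,1),(0,3)],
   [(0,1),(0,2),(0,2)],
   [(0,1),(0,4)],
   [(0,2),(0,3)],
   [(0,5)]]

def cert5_0_tab : List (List (List ℕ)) :=
  [[[5,4,3,3,2,2,1],
    [5,5,5,5,5,5,5],
    [0,1,3,2,6,4,10],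
    [0,0,1,0,4,1,10],
    [0,0,0,0,1,0,5],
    [0,0,0,0,0,0,1]]]

def cert5_0_R0 : List (List ℕ) :=
  [[1,1,1,1,1,1,1],
   [0,1,3,2,6,4,10],
   [0,0,1,0,4,1,10],
   [0,0,0,1,3,3,15],
   [0,0,0,0,1,0,5],
   [0,0,0,0,0,1,10],
   [0,0,0,0,0,0,1]]

def cert5_0_m0 : List (List (List (ℕ × ℕ))) :=
  [[[],
    [(0,5)],
    [(1,1)],
    [(2,1)],
    [(4,1)],
    [(6,1)]]]
def cert5_0_m1 : List (List (List (ℕ × ℕ))) :=
  [[[],
    [(1,5)],
    [(1,1),(2,6),(3,2)],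
    [(2,3),(4,12),(5,1)],
    [(4,6),(6,20)],
    [(6,10)]]]
def cert5_0_m2 : List (List (List (ℕ × ℕ))) :=
  [[[],
    [(2,5)],
    [(2,3),(4,12),(5,1)],
    [(2,1),(4,12),(6,30)],
    [(4,4),(6,30)],
    [(6,10)]]]
def cert5_0_m3 : List (List (List (ℕ × ℕ))) :=
  [[[],
    [(3,5)],
    [(3,2),(4,12),(5,6)],
    [(4,12),(5,3),(6,60)],
    [(4,3),(6,60)],
    [(6,15)]]]
def cert5_0_m4 : List (List (List (ℕ × ℕ))) :=
  [[[],
    [(4,5)],
    [(4,6),(6,20)],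
    [(4,4),(6,30)],
    [(4,1),(6,20)],
    [(6,5)]]]
def cert5_0_m5 : List (List (List (ℕ × ℕ))) :=
  [[[],
    [(5,5)],
    [(5,4),(6,60)],
    [(5,1),(6,90)],
    [(6,50)],
    [(6,10)]]]
def cert5_0_m6 : List (List (List (ℕ × ℕ))) :=
  [[[],
    [(6,5)],
    [(6,10)],
    [(6,10)],
    [(6,5)],
    [(6,1)]]]
def cert5_0_M0 : List (List (List (List (ℕ × ℕ)))) :=
  [cert5_0_m0, cert5_0_m1, cert5_0_m2, cert5_0_m3, cert5_0_m4, cert5_0_m5, cert5_0_m6]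

def cert5_0_rows : List (List ℕ) := cert5_0_R0

/-- the certificate -/
def cert5_0 : Cert where
  types := cert5_0_types
  rows := cert5_0_rows
  mul := cert5_0_M0

theorem cert5_0_c0 : cf_rows cert5_0_rows (List.replicate 7 0) cert5_0_tab cert5_0_R0 cert5_0_M0 = true := by
  decide +kernel

theorem cert5_0_all : cf_rows cert5_0_rows (List.replicate 7 0) cert5_0_tab cert5_0.rows cert5_0.mul = true :=
  cert5_0_c0

theorem cert5_0_basic : cf_basic 5 cert5_0 = true := by decide +kernel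

theorem cert5_0_tabok : cert5_0_tab = (List.range (2 ^ 0)).map fun T => (List.range (5 + 1)).map fun j =>
    cert5_0.types.map (nJ 0 j T) := by decide +kernel

theorem cert5_0_ok : certOK 5 0 cert5_0 = true :=
  certOK_of 5 0 7 cert5_0 cert5_0_tab (by decide +kernel) cert5_0_basic cert5_0_tabok cert5_0_all

end Pool.Agent.H34R2.U
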