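import Pool.Agent.H34R2.U.CFast

/-! certificate data (generated) -/

set_option autoImplicit false
set_option maxRecDepth 100000

namespace Pool.Agent.H34R2.U

def cert5_1_types : List Ty :=
  [[(0,1),(0,1),(0,1),(0,1),(0,1),(1,0)],
   [(0,1),(0,1),(0,1),(0,1),(1,1)],
   [(0,1),(0,1),(0,1),(0,2),(1,0)],
   [(0,1),(0,1),(0,1),(1,2)],
   [(0,1),(0,1),(0,2),(1,1)],
   [(0,1),(0,1),(0,3),(1,0)],
   [(0,1),(0,2),(0,2),(1,0)],
   [(0,1),(0,1),(1,3)],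
   [(0,1),(0,2),(1,2)],
   [(0,1),(0,3),(1,1)],
   [(0,1),(0,4),(1,0)],
   [(0,2),(0,2),(1,1)],
   [(0,2),(0,3),(1,0)],
   [(0,1),(1,4)],
   [(0,2),(1,3)],
   [(0,3),(1,2)],
   [(0,4),(1,1)],
   [(0,5),(1,0)],
   [(1,5)]]

def cert5_1_tab : List (List (List ℕ)) :=
  [[[6,5,5,4,4,4,4,3,3,3,3,3,3,2,2,2,2,2,1],
    [5,5,5,5,5,5,5,5,5,5,5,5,5,5,5,5,5,5,5],
    [0,0,1,1,1,3,2,3,2,3,6,2,4,6,4,4,6,10,10],
    [0,0,0,0,0,1,0,1,0,1,4,0,1,4,1,1,4,10,10],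
    [0,0,0,0,0,0,0,0,0,0,1,0,0,1,0,0,1,5,5],
    [0,0,0,0,0,0,0,0,0,0,0,0,0,0,0,0,0,1,1]],
   [[1,1,1,1,1,1,1,1,1,1,1,1,1,1,1,1,1,1,1],
    [0,1,0,2,1,0,0,3,2,1,0,1,0,4,3,2,1,0,5],
    [0,0,0,1,0,0,0,3,1,0,0,0,0,6,3,1,0,0,10],
    [0,0,0,0,0,0,0,1,0,0,0,0,0,4,1,0,0,0,10],
    [0,0,0,0,0,0,0,0,0,0,0,0,0,1,0,0,0,0,5],
    [0,0,0,0,0,0,0,0,0,0,0,0,0,0,0,0,0,0,1]]]

def cert5_1_R0 : List (List ℕ) :=
  [[1,1,1,1,1,1,1,1,1,1,1,1,1,1,1,1,1,1,1],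
   [0,1,0,2,1,0,0,3,2,1,0,1,0,4,3,2,1,0,5],
   [0,0,1,1,1,3,2,3,2,3,6,2,4,6,4,4,6,10,10],
   [0,0,0,1,0,0,0,3,1,0,0,0,0,6,3,1,0,0,10],
   [0,0,0,0,1,0,0,3,2,3,0,2,0,12,6,6,6,0,30],
   [0,0,0,0,0,1,0,1,0,1,4,0,1,4,1,1,4,10,10],
   [0,0,0,0,0,0,1,0,1,0,3,1,3,3,3,3,3,15,15],
   [0,0,0,0,0,0,0,1,0,0,0,0,0,4,1,0,0,0,10],
   [0,0,0,0,0,0,0,0,1,0,0,0,0,6,3,3,0,0,30],
   [0,0,0,0,0,0,0,0,0,1,0,0,0,4,0,2,4,0,20]]

def cert5_1_R1 : List (List ℕ) :=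
  [[0,0,0,0,0,0,0,0,0,0,1,0,0,1,0,0,1,5,5],
   [0,0,0,0,0,0,0,0,0,0,0,1,0,0,3,0,3,0,15],
   [0,0,0,0,0,0,0,0,0,0,0,0,1,0,1,1,0,10,10],
   [0,0,0,0,0,0,0,0,0,0,0,0,0,1,0,0,0,0,5],
   [0,0,0,0,0,0,0,0,0,0,0,0,0,0,1,0,0,0,10],
   [0,0,0,0,0,0,0,0,0,0,0,0,0,0,0,1,0,0,10],
   [0,0,0,0,0,0,0,0,0,0,0,0,0,0,0,0,1,0,5],
   [0,0,0,0,0,0,0,0,0,0,0,0,0,0,0,0,0,1,1],
   [0,0,0,0,0,0,0,0,0,0,0,0,0,0,0,0,0,0,1]]

def cert5_1_m0 : List (List (List (ℕ × ℕ))) :=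
  [[[],
    [(0,5)],
    [(2,1)],
    [(5,1)],
    [(10,1)],
    [(17,1)]],
   [[(0,1)],
    [(1,1)],
    [(3,1)],
    [(7,1)],
    [(13,1)],
    [(18,1)]]]
def cert5_1_m1 : List (List (List (ℕ × ℕ))) :=
  [[[],
    [(1,5)],
    [(3,2),(4,1)],
    [(7,3),(9,1)],
    [(13,4),(16,1)],
    [(18,5)]],
   [[(1,1)],
    [(1,1),(3,2)],
    [(3,2),(7,3)],
    [(7,3),(13,4)],
    [(13,4),(18,5)],
    [(18,5)]]]
def cert5_1_m2 : List (List (List (ℕ × ℕ))) :=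
  [[[],
    [(2,5)],
    [(2,1),(5,6),(6,2)],
    [(5,3),(10,12),(12,1)],
    [(10,6),(17,20)],
    [(17,10)]],
   [[(2,1)],
    [(3,2),(4,1)],
    [(3,1),(7,6),(8,1)],
    [(7,3),(13,12),(14,1)],
    [(13,6),(18,20)],
    [(18,10)]]]
def cert5_1_m3 : List (List (List (ℕ × ℕ))) :=
  [[[],
    [(3,5)],
    [(3,1),(7,6),(8,1)],
    [(7,3),(13,12),(15,1)],
    [(13,6),(18,20)],
    [(18,10)]],
   [[(3,1)],
    [(3,2),(7,3)],
    [(3,1),(7,6),(13,6)],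
    [(7,3),(13,12),(18,10)],
    [(13,6),(18,20)],
    [(18,10)]]]
def cert5_1_m4 : List (List (List (ℕ × ℕ))) :=
  [[[],
    [(4,5)],
    [(4,1),(7,6),(8,2),(9,6),(11,2)],
    [(7,3),(9,3),(13,24),(14,3),(16,12)],
    [(13,12),(16,6),(18,60)],
    [(18,30)]],
   [[(4,1)],
    [(4,1),(7,6),(8,2)],
    [(7,9),(8,2),(13,24),(14,3)],
    [(7,3),(13,36),(14,3),(18,60)],
    [(13,12),(18,90)],
    [(18,30)]]]
def cert5_1_m5 : List (List (List (ℕ × ℕ))) :=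
  [[[],
    [(5,5)],
    [(5,3),(10,12),(12,1)],
    [(5,1),(10,12),(17,30)],
    [(10,4),(17,30)],
    [(17,10)]],
   [[(5,1)],
    [(7,3),(9,1)],
    [(7,3),(13,12),(15,1)],
    [(7,1),(13,12),(18,30)],
    [(13,4),(18,30)],
    [(18,10)]]]
def cert5_1_m6 : List (List (List (ℕ × ℕ))) :=
  [[[],
    [(6,5)],
    [(6,2),(10,12),(12,6)],
    [(10,12),(12,3),(17,60)],
    [(10,3),(17,60)],
    [(17,15)]],
   [[(6,1)],
    [(8,2),(11,1)],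
    [(8,1),(13,12),(14,6)],
    [(13,12),(14,3),(18,60)],
    [(13,3),(18,60)],
    [(18,15)]]]
def cert5_1_m7 : List (List (List (ℕ × ℕ))) :=
  [[[],
    [(7,5)],
    [(7,3),(13,12),(14,1)],
    [(7,1),(13,12),(18,30)],
    [(13,4),(18,30)],
    [(18,10)]],
   [[(7,1)],
    [(7,3),(13,4)],
    [(7,3),(13,12),(18,10)],
    [(7,1),(13,12),(18,30)],
    [(13,4),(18,30)],
    [(18,10)]]]
def cert5_1_m8 : List (List (List (ℕ × ℕ))) :=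
  [[[],
    [(8,5)],
    [(8,2),(13,24),(14,6),(15,6)],
    [(13,24),(14,3),(15,3),(18,120)],
    [(13,6),(18,120)],
    [(18,30)]],
   [[(8,1)],
    [(8,2),(13,12),(14,3)],
    [(8,1),(13,30),(14,6),(18,60)],
    [(13,24),(14,3),(18,150)],
    [(13,6),(18,120)],
    [(18,30)]]]
def cert5_1_m9 : List (List (List (ℕ × ℕ))) :=
  [[[],
    [(9,5)],
    [(9,3),(13,12),(15,2),(16,12)],
    [(9,1),(13,12),(16,12),(18,60)],
    [(13,4),(16,4),(18,60)],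
    [(18,20)]],
   [[(9,1)],
    [(9,1),(13,12),(15,2)],
    [(13,24),(15,2),(18,60)],
    [(13,16),(18,120)],
    [(13,4),(18,80)],
    [(18,20)]]]
def cert5_1_m10 : List (List (List (ℕ × ℕ))) :=
  [[[],
    [(10,5)],
    [(10,6),(17,20)],
    [(10,4),(17,30)],
    [(10,1),(17,20)],
    [(17,5)]],
   [[(10,1)],
    [(13,4),(16,1)],
    [(13,6),(18,20)],
    [(13,4),(18,30)],
    [(13,1),(18,20)],
    [(18,5)]]]
def cert5_1_m11 : List (List (List (ℕ × ℕ))) :=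
  [[[],
    [(11,5)],
    [(11,2),(14,6),(16,12)],
    [(14,3),(16,12),(18,60)],
    [(16,3),(18,60)],
    [(18,15)]],
   [[(11,1)],
    [(11,1),(14,6)],
    [(14,9),(18,60)],
    [(14,3),(18,120)],
    [(18,75)],
    [(18,15)]]]
def cert5_1_m12 : List (List (List (ℕ × ℕ))) :=
  [[[],
    [(12,5)],
    [(12,4),(17,60)],
    [(12,1),(17,90)],
    [(17,50)],
    [(17,10)]],
   [[(12,1)],
    [(14,3),(15,2)],
    [(14,3),(15,1),(18,60)],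
    [(14,1),(18,90)],
    [(18,50)],
    [(18,10)]]]
def cert5_1_m13 : List (List (List (ℕ × ℕ))) :=
  [[[],
    [(13,5)],
    [(13,6),(18,20)],
    [(13,4),(18,30)],
    [(13,1),(18,20)],
    [(18,5)]],
   [[(13,1)],
    [(13,4),(18,5)],
    [(13,6),(18,20)],
    [(13,4),(18,30)],
    [(13,1),(18,20)],
    [(18,5)]]]
def cert5_1_m14 : List (List (List (ℕ × ℕ))) :=
  [[[],
    [(14,5)],
    [(14,4),(18,60)],
    [(14,1),(18,90)],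
    [(18,50)],
    [(18,10)]],
   [[(14,1)],
    [(14,3),(18,20)],
    [(14,3),(18,70)],
    [(14,1),(18,90)],
    [(18,50)],
    [(18,10)]]]
def cert5_1_m15 : List (List (List (ℕ × ℕ))) :=
  [[[],
    [(15,5)],
    [(15,4),(18,60)],
    [(15,1),(18,90)],
    [(18,50)],
    [(18,10)]],
   [[(15,1)],
    [(15,2),(18,30)],
    [(15,1),(18,90)],
    [(18,100)],
    [(18,50)],
    [(18,10)]]]
def cert5_1_m16 : List (List (List (ℕ × ℕ))) :=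
  [[[],
    [(16,5)],
    [(16,6),(18,20)],
    [(16,4),(18,30)],
    [(16,1),(18,20)],
    [(18,5)]],
   [[(16,1)],
    [(16,1),(18,20)],
    [(18,50)],
    [(18,50)],
    [(18,25)],
    [(18,5)]]]
def cert5_1_m17 : List (List (List (ℕ × ℕ))) :=
  [[[],
    [(17,5)],
    [(17,10)],
    [(17,10)],
    [(17,5)],
    [(17,1)]],
   [[(17,1)],
    [(18,5)],
    [(18,10)],
    [(18,10)],
    [(18,5)],
    [(18,1)]]]
def cert5_1_m18 : List (List (List (ℕ × ℕ))) :=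
  [[[],
    [(18,5)],
    [(18,10)],
    [(18,10)],
    [(18,5)],
    [(18,1)]],
   [[(18,1)],
    [(18,5)],
    [(18,10)],
    [(18,10)],
    [(18,5)],
    [(18,1)]]]
def cert5_1_M0 : List (List (List (List (ℕ × ℕ)))) :=
  [cert5_1_m0, cert5_1_m1, cert5_1_m2, cert5_1_m3, cert5_1_m4, cert5_1_m5, cert5_1_m6, cert5_1_m7, cert5_1_m8, cert5_1_m9]

def cert5_1_M1 : List (List (List (List (ℕ × ℕ)))) :=
  [cert5_1_m10, cert5_1_m11, cert5_1_m12, cert5_1_m13, cert5_1_m14, cert5_1_m15, cert5_1_m16, cert5_1_m17, cert5_1_m18]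

def cert5_1_rows : List (List ℕ) := cert5_1_R0 ++ (cert5_1_R1)

/-- the certificate -/
def cert5_1 : Cert where
  types := cert5_1_types
  rows := cert5_1_rows
  mul := cert5_1_M0 ++ (cert5_1_M1)

theorem cert5_1_c0 : cf_rows cert5_1_rows (List.replicate 19 0) cert5_1_tab cert5_1_R0 cert5_1_M0 = true := by
  decide +kernel

theorem cert5_1_c1 : cf_rows cert5_1_rows (List.replicate 19 0) cert5_1_tab cert5_1_R1 cert5_1_M1 = true := by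
  decide +kernel

theorem cert5_1_all : cf_rows cert5_1_rows (List.replicate 19 0) cert5_1_tab cert5_1.rows cert5_1.mul = true :=
  (cf_rows_append _ _ _ _ _ _ _ cert5_1_c0 cert5_1_c1)

theorem cert5_1_basic : cf_basic 5 cert5_1 = true := by decide +kernel

theorem cert5_1_tabok : cert5_1_tab = (List.range (2 ^ 1)).map fun T => (List.range (5 + 1)).map fun j =>
    cert5_1.types.map (nJ 1 j T) := by decide +kernel

theorem cert5_1_ok : certOK 5 1 cert5_1 = true :=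
  certOK_of 5 1 19 cert5_1 cert5_1_tab (by decide +kernel) cert5_1_basic cert5_1_tabok cert5_1_all

end Pool.Agent.H34R2.U
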