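import Pool.Agent.H34R2.U.CFast

/-! certificate data (generated) -/

set_option autoImplicit false
set_option maxRecDepth 100000

namespace Pool.Agent.H34R2.U

def cert5_2_types : List Ty :=
  [[(0,1),(0,1),(0,1),(0,1),(0,1),(1,0),(2,0)],
   [(0,1),(0,1),(0,1),(0,1),(0,1),(3,0)],
   [(0,1),(0,1),(0,1),(0,1),(1,0),(2,1)],
   [(0,1),(0,1),(0,1),(0,1),(1,1),(2,0)],
   [(0,1),(0,1),(0,1),(0,2),(1,0),(2,0)],
   [(0,1),(0,1),(0,1),(0,1),(3,1)],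
   [(0,1),(0,1),(0,1),(0,2),(3,0)],
   [(0,1),(0,1),(0,1),(1,0),(2,2)],
   [(0,1),(0,1),(0,1),(1,1),(2,1)],
   [(0,1),(0,1),(0,1),(1,2),(2,0)],
   [(0,1),(0,1),(0,2),(1,0),(2,1)],
   [(0,1),(0,1),(0,2),(1,1),(2,0)],
   [(0,1),(0,1),(0,3),(1,0),(2,0)],
   [(0,1),(0,2),(0,2),(1,0),(2,0)],
   [(0,1),(0,1),(0,1),(3,2)],
   [(0,1),(0,1),(0,2),(3,1)],
   [(0,1),(0,1),(0,3),(3,0)],
   [(0,1),(0,1),(1,0),(2,3)],
   [(0,1),(0,1),(1,1),(2,2)],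
   [(0,1),(0,1),(1,2),(2,1)],
   [(0,1),(0,1),(1,3),(2,0)],
   [(0,1),(0,2),(0,2),(3,0)],
   [(0,1),(0,2),(1,0),(2,2)],
   [(0,1),(0,2),(1,1),(2,1)],
   [(0,1),(0,2),(1,2),(2,0)],
   [(0,1),(0,3),(1,0),(2,1)],
   [(0,1),(0,3),(1,1),(2,0)],
   [(0,1),(0,4),(1,0),(2,0)],
   [(0,2),(0,2),(1,0),(2,1)],
   [(0,2),(0,2),(1,1),(2,0)],
   [(0,2),(0,3),(1,0),(2,0)],
   [(0,1),(0,1),(3,3)],
   [(0,1),(0,2),(3,2)],
   [(0,1),(0,3),(3,1)],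
   [(0,1),(0,4),(3,0)],
   [(0,1),(1,0),(2,4)],
   [(0,1),(1,1),(2,3)],
   [(0,1),(1,2),(2,2)],
   [(0,1),(1,3),(2,1)],
   [(0,1),(1,4),(2,0)],
   [(0,2),(0,2),(3,1)],
   [(0,2),(0,3),(3,0)],
   [(0,2),(1,0),(2,3)],
   [(0,2),(1,1),(2,2)],
   [(0,2),(1,2),(2,1)],
   [(0,2),(1,3),(2,0)],
   [(0,3),(1,0),(2,2)],
   [(0,3),(1,1),(2,1)],
   [(0,3),(1,2),(2,0)],
   [(0,4),(1,0),(2,1)],
   [(0,4),(1,1),(2,0)],
   [(0,5),(1,0),(2,0)],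
   [(0,1),(3,4)],
   [(0,2),(3,3)],
   [(0,3),(3,2)],
   [(0,4),(3,1)],
   [(0,5),(3,0)],
   [(1,0),(2,5)],
   [(1,1),(2,4)],
   [(1,2),(2,3)],
   [(1,3),(2,2)],
   [(1,4),(2,1)],
   [(1,5),(2,0)],
   [(3,5)]]

def cert5_2_tab : List (List (List ℕ)) :=
  [[[7,6,6,6,6,5,5,5,5,5,5,5,5,5,4,4,4,4,4,4,4,4,4,4,4,4,4,4,4,4,4,3,3,3,3,3,3,3,3,3,3,3,3,3,3,3,3,3,3,3,3,3,2,2,2,2,2,2,2,2,2,2,2,1],
    [5,5,5,5,5,5,5,5,5,5,5,5,5,5,5,5,5,5,5,5,5,5,5,5,5,5,5,5,5,5,5,5,5,5,5,5,5,5,5,5,5,5,5,5,5,5,5,5,5,5,5,5,5,5,5,5,5,5,5,5,5,5,5,5],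
    [0,0,0,0,1,0,1,1,0,1,1,1,3,2,1,1,3,3,1,1,3,2,2,1,2,3,3,6,2,2,4,3,2,3,6,6,3,2,3,6,2,4,4,2,2,4,4,3,4,6,6,10,6,4,4,6,10,10,6,4,4,6,10,10],
    [0,0,0,0,0,0,0,0,0,0,0,0,1,0,0,0,1,1,0,0,1,0,0,0,0,1,1,4,0,0,1,1,0,1,4,4,1,0,1,4,0,1,1,0,0,1,1,1,1,4,4,10,4,1,1,4,10,10,4,1,1,4,10,10],
    [0,0,0,0,0,0,0,0,0,0,0,0,0,0,0,0,0,0,0,0,0,0,0,0,0,0,0,1,0,0,0,0,0,0,1,1,0,0,0,1,0,0,0,0,0,0,0,0,0,1,1,5,1,0,0,1,5,5,1,0,0,1,5,5],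
    [0,0,0,0,0,0,0,0,0,0,0,0,0,0,0,0,0,0,0,0,0,0,0,0,0,0,0,0,0,0,0,0,0,0,0,0,0,0,0,0,0,0,0,0,0,0,0,0,0,0,0,1,0,0,0,0,1,1,0,0,0,0,1,1]],
   [[1,1,1,1,1,1,1,1,1,1,1,1,1,1,1,1,1,1,1,1,1,1,1,1,1,1,1,1,1,1,1,1,1,1,1,1,1,1,1,1,1,1,1,1,1,1,1,1,1,1,1,1,1,1,1,1,1,1,1,1,1,1,1,1],
    [0,0,0,1,0,1,0,0,1,2,0,1,0,0,2,1,0,0,1,2,3,0,0,1,2,0,1,0,0,1,0,3,2,1,0,0,1,2,3,4,1,0,0,1,2,3,0,1,2,0,1,0,4,3,2,1,0,0,1,2,3,4,5,5],
    [0,0,0,0,0,0,0,0,0,1,0,0,0,0,1,0,0,0,0,1,3,0,0,0,1,0,0,0,0,0,0,3,1,0,0,0,0,1,3,6,0,0,0,0,1,3,0,0,1,0,0,0,6,3,1,0,0,0,0,1,3,6,10,10],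
    [0,0,0,0,0,0,0,0,0,0,0,0,0,0,0,0,0,0,0,0,1,0,0,0,0,0,0,0,0,0,0,1,0,0,0,0,0,0,1,4,0,0,0,0,0,1,0,0,0,0,0,0,4,1,0,0,0,0,0,0,1,4,10,10],
    [0,0,0,0,0,0,0,0,0,0,0,0,0,0,0,0,0,0,0,0,0,0,0,0,0,0,0,0,0,0,0,0,0,0,0,0,0,0,0,1,0,0,0,0,0,0,0,0,0,0,0,0,1,0,0,0,0,0,0,0,0,1,5,5],
    [0,0,0,0,0,0,0,0,0,0,0,0,0,0,0,0,0,0,0,0,0,0,0,0,0,0,0,0,0,0,0,0,0,0,0,0,0,0,0,0,0,0,0,0,0,0,0,0,0,0,0,0,0,0,0,0,0,0,0,0,0,0,1,1]],
   [[1,1,1,1,1,1,1,1,1,1,1,1,1,1,1,1,1,1,1,1,1,1,1,1,1,1,1,1,1,1,1,1,1,1,1,1,1,1,1,1,1,1,1,1,1,1,1,1,1,1,1,1,1,1,1,1,1,1,1,1,1,1,1,1],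
    [0,0,1,0,0,1,0,2,1,0,1,0,0,0,2,1,0,3,2,1,0,0,2,1,0,1,0,0,1,0,0,3,2,1,0,4,3,2,1,0,1,0,3,2,1,0,2,1,0,1,0,0,4,3,2,1,0,5,4,3,2,1,0,5],
    [0,0,0,0,0,0,0,1,0,0,0,0,0,0,1,0,0,3,1,0,0,0,1,0,0,0,0,0,0,0,0,3,1,0,0,6,3,1,0,0,0,0,3,1,0,0,1,0,0,0,0,0,6,3,1,0,0,10,6,3,1,0,0,10],
    [0,0,0,0,0,0,0,0,0,0,0,0,0,0,0,0,0,1,0,0,0,0,0,0,0,0,0,0,0,0,0,1,0,0,0,4,1,0,0,0,0,0,1,0,0,0,0,0,0,0,0,0,4,1,0,0,0,10,4,1,0,0,0,10],
    [0,0,0,0,0,0,0,0,0,0,0,0,0,0,0,0,0,0,0,0,0,0,0,0,0,0,0,0,0,0,0,0,0,0,0,1,0,0,0,0,0,0,0,0,0,0,0,0,0,0,0,0,1,0,0,0,0,5,1,0,0,0,0,5],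
    [0,0,0,0,0,0,0,0,0,0,0,0,0,0,0,0,0,0,0,0,0,0,0,0,0,0,0,0,0,0,0,0,0,0,0,0,0,0,0,0,0,0,0,0,0,0,0,0,0,0,0,0,0,0,0,0,0,1,0,0,0,0,0,1]],
   [[0,1,0,0,0,1,1,0,0,0,0,0,0,0,1,1,1,0,0,0,0,1,0,0,0,0,0,0,0,0,0,1,1,1,1,0,0,0,0,0,1,1,0,0,0,0,0,0,0,0,0,0,1,1,1,1,1,0,0,0,0,0,0,1],
    [0,0,0,0,0,1,0,0,0,0,0,0,0,0,2,1,0,0,0,0,0,0,0,0,0,0,0,0,0,0,0,3,2,1,0,0,0,0,0,0,1,0,0,0,0,0,0,0,0,0,0,0,4,3,2,1,0,0,0,0,0,0,0,5],
    [0,0,0,0,0,0,0,0,0,0,0,0,0,0,1,0,0,0,0,0,0,0,0,0,0,0,0,0,0,0,0,3,1,0,0,0,0,0,0,0,0,0,0,0,0,0,0,0,0,0,0,0,6,3,1,0,0,0,0,0,0,0,0,10],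
    [0,0,0,0,0,0,0,0,0,0,0,0,0,0,0,0,0,0,0,0,0,0,0,0,0,0,0,0,0,0,0,1,0,0,0,0,0,0,0,0,0,0,0,0,0,0,0,0,0,0,0,0,4,1,0,0,0,0,0,0,0,0,0,10],
    [0,0,0,0,0,0,0,0,0,0,0,0,0,0,0,0,0,0,0,0,0,0,0,0,0,0,0,0,0,0,0,0,0,0,0,0,0,0,0,0,0,0,0,0,0,0,0,0,0,0,0,0,1,0,0,0,0,0,0,0,0,0,0,5],
    [0,0,0,0,0,0,0,0,0,0,0,0,0,0,0,0,0,0,0,0,0,0,0,0,0,0,0,0,0,0,0,0,0,0,0,0,0,0,0,0,0,0,0,0,0,0,0,0,0,0,0,0,0,0,0,0,0,0,0,0,0,0,0,1]]]

def cert5_2_R0 : List (List ℕ) :=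
  [[1,1,1,1,1,1,1,1,1,1,1,1,1,1,1,1,1,1,1,1,1,1,1,1,1,1,1,1,1,1,1,1,1,1,1,1,1,1,1,1,1,1,1,1,1,1,1,1,1,1,1,1,1,1,1,1,1,1,1,1,1,1,1,1],
   [0,1,0,0,0,1,1,0,0,0,0,0,0,0,1,1,1,0,0,0,0,1,0,0,0,0,0,0,0,0,0,1,1,1,1,0,0,0,0,0,1,1,0,0,0,0,0,0,0,0,0,0,1,1,1,1,1,0,0,0,0,0,0,1],
   [0,0,1,0,0,1,0,2,1,0,1,0,0,0,2,1,0,3,2,1,0,0,2,1,0,1,0,0,1,0,0,3,2,1,0,4,3,2,1,0,1,0,3,2,1,0,2,1,0,1,0,0,4,3,2,1,0,5,4,3,2,1,0,5],
   [0,0,0,1,0,1,0,0,1,2,0,1,0,0,2,1,0,0,1,2,3,0,0,1,2,0,1,0,0,1,0,3,2,1,0,0,1,2,3,4,1,0,0,1,2,3,0,1,2,0,1,0,4,3,2,1,0,0,1,2,3,4,5,5],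
   [0,0,0,0,1,0,1,1,0,1,1,1,3,2,1,1,3,3,1,1,3,2,2,1,2,3,3,6,2,2,4,3,2,3,6,6,3,2,3,6,2,4,4,2,2,4,4,3,4,6,6,10,6,4,4,6,10,10,6,4,4,6,10,10],
   [0,0,0,0,0,1,0,0,0,0,0,0,0,0,2,1,0,0,0,0,0,0,0,0,0,0,0,0,0,0,0,3,2,1,0,0,0,0,0,0,1,0,0,0,0,0,0,0,0,0,0,0,4,3,2,1,0,0,0,0,0,0,0,5],
   [0,0,0,0,0,0,1,0,0,0,0,0,0,0,1,1,3,0,0,0,0,2,0,0,0,0,0,0,0,0,0,3,2,3,6,0,0,0,0,0,2,4,0,0,0,0,0,0,0,0,0,0,6,4,4,6,10,0,0,0,0,0,0,10],
   [0,0,0,0,0,0,0,1,0,0,0,0,0,0,1,0,0,3,1,0,0,0,1,0,0,0,0,0,0,0,0,3,1,0,0,6,3,1,0,0,0,0,3,1,0,0,1,0,0,0,0,0,6,3,1,0,0,10,6,3,1,0,0,10]]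

def cert5_2_R1 : List (List ℕ) :=
  [[0,0,0,0,0,0,0,0,1,0,0,0,0,0,2,0,0,0,2,2,0,0,0,1,0,0,0,0,0,0,0,6,2,0,0,0,3,4,3,0,0,0,0,2,2,0,0,1,0,0,0,0,12,6,2,0,0,0,4,6,6,4,0,20],
   [0,0,0,0,0,0,0,0,0,1,0,0,0,0,1,0,0,0,0,1,3,0,0,0,1,0,0,0,0,0,0,3,1,0,0,0,0,1,3,6,0,0,0,0,1,3,0,0,1,0,0,0,6,3,1,0,0,0,0,1,3,6,10,10],
   [0,0,0,0,0,0,0,0,0,0,1,0,0,0,0,1,0,3,0,1,0,0,2,1,0,3,0,0,2,0,0,3,2,3,0,12,3,2,3,0,2,0,6,2,2,0,6,3,0,6,0,0,12,6,6,6,0,30,12,6,6,6,0,30],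
   [0,0,0,0,0,0,0,0,0,0,0,1,0,0,0,1,0,0,1,0,3,0,0,1,2,0,3,0,0,2,0,3,2,3,0,0,3,2,3,12,2,0,0,2,2,6,0,3,6,0,6,0,12,6,6,6,0,0,6,6,6,12,30,30],
   [0,0,0,0,0,0,0,0,0,0,0,0,1,0,0,0,1,1,0,0,1,0,0,0,0,1,1,4,0,0,1,1,0,1,4,4,1,0,1,4,0,1,1,0,0,1,1,1,1,4,4,10,4,1,1,4,10,10,4,1,1,4,10,10],
   [0,0,0,0,0,0,0,0,0,0,0,0,0,1,0,0,0,0,0,0,0,1,1,0,1,0,0,3,1,1,3,0,1,0,3,3,0,1,0,3,1,3,3,1,1,3,3,0,3,3,3,15,3,3,3,3,15,15,3,3,3,3,15,15],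
   [0,0,0,0,0,0,0,0,0,0,0,0,0,0,1,0,0,0,0,0,0,0,0,0,0,0,0,0,0,0,0,3,1,0,0,0,0,0,0,0,0,0,0,0,0,0,0,0,0,0,0,0,6,3,1,0,0,0,0,0,0,0,0,10],
   [0,0,0,0,0,0,0,0,0,0,0,0,0,0,0,1,0,0,0,0,0,0,0,0,0,0,0,0,0,0,0,3,2,3,0,0,0,0,0,0,2,0,0,0,0,0,0,0,0,0,0,0,12,6,6,6,0,0,0,0,0,0,0,30]]

def cert5_2_R2 : List (List ℕ) :=
  [[0,0,0,0,0,0,0,0,0,0,0,0,0,0,0,0,1,0,0,0,0,0,0,0,0,0,0,0,0,0,0,1,0,1,4,0,0,0,0,0,0,1,0,0,0,0,0,0,0,0,0,0,4,1,1,4,10,0,0,0,0,0,0,10],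
   [0,0,0,0,0,0,0,0,0,0,0,0,0,0,0,0,0,1,0,0,0,0,0,0,0,0,0,0,0,0,0,1,0,0,0,4,1,0,0,0,0,0,1,0,0,0,0,0,0,0,0,0,4,1,0,0,0,10,4,1,0,0,0,10],
   [0,0,0,0,0,0,0,0,0,0,0,0,0,0,0,0,0,0,1,0,0,0,0,0,0,0,0,0,0,0,0,3,0,0,0,0,3,2,0,0,0,0,0,1,0,0,0,0,0,0,0,0,12,3,0,0,0,0,6,6,3,0,0,30],
   [0,0,0,0,0,0,0,0,0,0,0,0,0,0,0,0,0,0,0,1,0,0,0,0,0,0,0,0,0,0,0,3,0,0,0,0,0,2,3,0,0,0,0,0,1,0,0,0,0,0,0,0,12,3,0,0,0,0,0,3,6,6,0,30],
   [0,0,0,0,0,0,0,0,0,0,0,0,0,0,0,0,0,0,0,0,1,0,0,0,0,0,0,0,0,0,0,1,0,0,0,0,0,0,1,4,0,0,0,0,0,1,0,0,0,0,0,0,4,1,0,0,0,0,0,0,1,4,10,10],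
   [0,0,0,0,0,0,0,0,0,0,0,0,0,0,0,0,0,0,0,0,0,1,0,0,0,0,0,0,0,0,0,0,1,0,3,0,0,0,0,0,1,3,0,0,0,0,0,0,0,0,0,0,3,3,3,3,15,0,0,0,0,0,0,15],
   [0,0,0,0,0,0,0,0,0,0,0,0,0,0,0,0,0,0,0,0,0,0,1,0,0,0,0,0,0,0,0,0,1,0,0,6,0,1,0,0,0,0,3,1,0,0,3,0,0,0,0,0,6,3,3,0,0,30,6,3,3,0,0,30],
   [0,0,0,0,0,0,0,0,0,0,0,0,0,0,0,0,0,0,0,0,0,0,0,1,0,0,0,0,0,0,0,0,2,0,0,0,3,0,3,0,0,0,0,2,2,0,0,3,0,0,0,0,12,6,6,0,0,0,12,6,6,12,0,60]]

def cert5_2_R3 : List (List ℕ) :=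
  [[0,0,0,0,0,0,0,0,0,0,0,0,0,0,0,0,0,0,0,0,0,0,0,0,1,0,0,0,0,0,0,0,1,0,0,0,0,1,0,6,0,0,0,0,1,3,0,0,3,0,0,0,6,3,3,0,0,0,0,3,3,6,30,30],
   [0,0,0,0,0,0,0,0,0,0,0,0,0,0,0,0,0,0,0,0,0,0,0,0,0,1,0,0,0,0,0,0,0,1,0,4,0,0,1,0,0,0,0,0,0,0,2,1,0,4,0,0,4,0,2,4,0,20,4,0,2,4,0,20],
   [0,0,0,0,0,0,0,0,0,0,0,0,0,0,0,0,0,0,0,0,0,0,0,0,0,0,1,0,0,0,0,0,0,1,0,0,1,0,0,4,0,0,0,0,0,0,0,1,2,0,4,0,4,0,2,4,0,0,4,2,0,4,20,20],
   [0,0,0,0,0,0,0,0,0,0,0,0,0,0,0,0,0,0,0,0,0,0,0,0,0,0,0,1,0,0,0,0,0,0,1,1,0,0,0,1,0,0,0,0,0,0,0,0,0,1,1,5,1,0,0,1,5,5,1,0,0,1,5,5],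
   [0,0,0,0,0,0,0,0,0,0,0,0,0,0,0,0,0,0,0,0,0,0,0,0,0,0,0,0,1,0,0,0,0,0,0,0,0,0,0,0,1,0,3,0,1,0,0,0,0,3,0,0,0,3,0,3,0,15,0,3,0,3,0,15],
   [0,0,0,0,0,0,0,0,0,0,0,0,0,0,0,0,0,0,0,0,0,0,0,0,0,0,0,0,0,1,0,0,0,0,0,0,0,0,0,0,1,0,0,1,0,3,0,0,0,0,3,0,0,3,0,3,0,0,3,0,3,0,15,15],
   [0,0,0,0,0,0,0,0,0,0,0,0,0,0,0,0,0,0,0,0,0,0,0,0,0,0,0,0,0,0,1,0,0,0,0,0,0,0,0,0,0,1,1,0,0,1,1,0,1,0,0,10,0,1,1,0,10,10,0,1,1,0,10,10],
   [0,0,0,0,0,0,0,0,0,0,0,0,0,0,0,0,0,0,0,0,0,0,0,0,0,0,0,0,0,0,0,1,0,0,0,0,0,0,0,0,0,0,0,0,0,0,0,0,0,0,0,0,4,1,0,0,0,0,0,0,0,0,0,10]]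

def cert5_2_R4 : List (List ℕ) :=
  [[0,0,0,0,0,0,0,0,0,0,0,0,0,0,0,0,0,0,0,0,0,0,0,0,0,0,0,0,0,0,0,0,1,0,0,0,0,0,0,0,0,0,0,0,0,0,0,0,0,0,0,0,6,3,3,0,0,0,0,0,0,0,0,30],
   [0,0,0,0,0,0,0,0,0,0,0,0,0,0,0,0,0,0,0,0,0,0,0,0,0,0,0,0,0,0,0,0,0,1,0,0,0,0,0,0,0,0,0,0,0,0,0,0,0,0,0,0,4,0,2,4,0,0,0,0,0,0,0,20],
   [0,0,0,0,0,0,0,0,0,0,0,0,0,0,0,0,0,0,0,0,0,0,0,0,0,0,0,0,0,0,0,0,0,0,1,0,0,0,0,0,0,0,0,0,0,0,0,0,0,0,0,0,1,0,0,1,5,0,0,0,0,0,0,5],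
   [0,0,0,0,0,0,0,0,0,0,0,0,0,0,0,0,0,0,0,0,0,0,0,0,0,0,0,0,0,0,0,0,0,0,0,1,0,0,0,0,0,0,0,0,0,0,0,0,0,0,0,0,1,0,0,0,0,5,1,0,0,0,0,5],
   [0,0,0,0,0,0,0,0,0,0,0,0,0,0,0,0,0,0,0,0,0,0,0,0,0,0,0,0,0,0,0,0,0,0,0,0,1,0,0,0,0,0,0,0,0,0,0,0,0,0,0,0,4,0,0,0,0,0,4,2,0,0,0,20],
   [0,0,0,0,0,0,0,0,0,0,0,0,0,0,0,0,0,0,0,0,0,0,0,0,0,0,0,0,0,0,0,0,0,0,0,0,0,1,0,0,0,0,0,0,0,0,0,0,0,0,0,0,6,0,0,0,0,0,0,3,3,0,0,30],
   [0,0,0,0,0,0,0,0,0,0,0,0,0,0,0,0,0,0,0,0,0,0,0,0,0,0,0,0,0,0,0,0,0,0,0,0,0,0,1,0,0,0,0,0,0,0,0,0,0,0,0,0,4,0,0,0,0,0,0,0,2,4,0,20],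
   [0,0,0,0,0,0,0,0,0,0,0,0,0,0,0,0,0,0,0,0,0,0,0,0,0,0,0,0,0,0,0,0,0,0,0,0,0,0,0,1,0,0,0,0,0,0,0,0,0,0,0,0,1,0,0,0,0,0,0,0,0,1,5,5]]

def cert5_2_R5 : List (List ℕ) :=
  [[0,0,0,0,0,0,0,0,0,0,0,0,0,0,0,0,0,0,0,0,0,0,0,0,0,0,0,0,0,0,0,0,0,0,0,0,0,0,0,0,1,0,0,0,0,0,0,0,0,0,0,0,0,3,0,3,0,0,0,0,0,0,0,15],
   [0,0,0,0,0,0,0,0,0,0,0,0,0,0,0,0,0,0,0,0,0,0,0,0,0,0,0,0,0,0,0,0,0,0,0,0,0,0,0,0,0,1,0,0,0,0,0,0,0,0,0,0,0,1,1,0,10,0,0,0,0,0,0,10],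
   [0,0,0,0,0,0,0,0,0,0,0,0,0,0,0,0,0,0,0,0,0,0,0,0,0,0,0,0,0,0,0,0,0,0,0,0,0,0,0,0,0,0,1,0,0,0,0,0,0,0,0,0,0,1,0,0,0,10,0,1,0,0,0,10],
   [0,0,0,0,0,0,0,0,0,0,0,0,0,0,0,0,0,0,0,0,0,0,0,0,0,0,0,0,0,0,0,0,0,0,0,0,0,0,0,0,0,0,0,1,0,0,0,0,0,0,0,0,0,3,0,0,0,0,6,0,3,0,0,30],
   [0,0,0,0,0,0,0,0,0,0,0,0,0,0,0,0,0,0,0,0,0,0,0,0,0,0,0,0,0,0,0,0,0,0,0,0,0,0,0,0,0,0,0,0,1,0,0,0,0,0,0,0,0,3,0,0,0,0,0,3,0,6,0,30],
   [0,0,0,0,0,0,0,0,0,0,0,0,0,0,0,0,0,0,0,0,0,0,0,0,0,0,0,0,0,0,0,0,0,0,0,0,0,0,0,0,0,0,0,0,0,1,0,0,0,0,0,0,0,1,0,0,0,0,0,0,1,0,10,10],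
   [0,0,0,0,0,0,0,0,0,0,0,0,0,0,0,0,0,0,0,0,0,0,0,0,0,0,0,0,0,0,0,0,0,0,0,0,0,0,0,0,0,0,0,0,0,0,1,0,0,0,0,0,0,0,1,0,0,10,0,0,1,0,0,10],
   [0,0,0,0,0,0,0,0,0,0,0,0,0,0,0,0,0,0,0,0,0,0,0,0,0,0,0,0,0,0,0,0,0,0,0,0,0,0,0,0,0,0,0,0,0,0,0,1,0,0,0,0,0,0,2,0,0,0,4,0,0,4,0,20]]

def cert5_2_R6 : List (List ℕ) :=
  [[0,0,0,0,0,0,0,0,0,0,0,0,0,0,0,0,0,0,0,0,0,0,0,0,0,0,0,0,0,0,0,0,0,0,0,0,0,0,0,0,0,0,0,0,0,0,0,0,1,0,0,0,0,0,1,0,0,0,0,1,0,0,10,10],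
   [0,0,0,0,0,0,0,0,0,0,0,0,0,0,0,0,0,0,0,0,0,0,0,0,0,0,0,0,0,0,0,0,0,0,0,0,0,0,0,0,0,0,0,0,0,0,0,0,0,1,0,0,0,0,0,1,0,5,0,0,0,1,0,5],
   [0,0,0,0,0,0,0,0,0,0,0,0,0,0,0,0,0,0,0,0,0,0,0,0,0,0,0,0,0,0,0,0,0,0,0,0,0,0,0,0,0,0,0,0,0,0,0,0,0,0,1,0,0,0,0,1,0,0,1,0,0,0,5,5],
   [0,0,0,0,0,0,0,0,0,0,0,0,0,0,0,0,0,0,0,0,0,0,0,0,0,0,0,0,0,0,0,0,0,0,0,0,0,0,0,0,0,0,0,0,0,0,0,0,0,0,0,1,0,0,0,0,1,1,0,0,0,0,1,1],
   [0,0,0,0,0,0,0,0,0,0,0,0,0,0,0,0,0,0,0,0,0,0,0,0,0,0,0,0,0,0,0,0,0,0,0,0,0,0,0,0,0,0,0,0,0,0,0,0,0,0,0,0,1,0,0,0,0,0,0,0,0,0,0,5],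
   [0,0,0,0,0,0,0,0,0,0,0,0,0,0,0,0,0,0,0,0,0,0,0,0,0,0,0,0,0,0,0,0,0,0,0,0,0,0,0,0,0,0,0,0,0,0,0,0,0,0,0,0,0,1,0,0,0,0,0,0,0,0,0,10],
   [0,0,0,0,0,0,0,0,0,0,0,0,0,0,0,0,0,0,0,0,0,0,0,0,0,0,0,0,0,0,0,0,0,0,0,0,0,0,0,0,0,0,0,0,0,0,0,0,0,0,0,0,0,0,1,0,0,0,0,0,0,0,0,10],
   [0,0,0,0,0,0,0,0,0,0,0,0,0,0,0,0,0,0,0,0,0,0,0,0,0,0,0,0,0,0,0,0,0,0,0,0,0,0,0,0,0,0,0,0,0,0,0,0,0,0,0,0,0,0,0,1,0,0,0,0,0,0,0,5]]

def cert5_2_R7 : List (List ℕ) :=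
  [[0,0,0,0,0,0,0,0,0,0,0,0,0,0,0,0,0,0,0,0,0,0,0,0,0,0,0,0,0,0,0,0,0,0,0,0,0,0,0,0,0,0,0,0,0,0,0,0,0,0,0,0,0,0,0,0,1,0,0,0,0,0,0,1],
   [0,0,0,0,0,0,0,0,0,0,0,0,0,0,0,0,0,0,0,0,0,0,0,0,0,0,0,0,0,0,0,0,0,0,0,0,0,0,0,0,0,0,0,0,0,0,0,0,0,0,0,0,0,0,0,0,0,1,0,0,0,0,0,1],
   [0,0,0,0,0,0,0,0,0,0,0,0,0,0,0,0,0,0,0,0,0,0,0,0,0,0,0,0,0,0,0,0,0,0,0,0,0,0,0,0,0,0,0,0,0,0,0,0,0,0,0,0,0,0,0,0,0,0,1,0,0,0,0,5],
   [0,0,0,0,0,0,0,0,0,0,0,0,0,0,0,0,0,0,0,0,0,0,0,0,0,0,0,0,0,0,0,0,0,0,0,0,0,0,0,0,0,0,0,0,0,0,0,0,0,0,0,0,0,0,0,0,0,0,0,1,0,0,0,10],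
   [0,0,0,0,0,0,0,0,0,0,0,0,0,0,0,0,0,0,0,0,0,0,0,0,0,0,0,0,0,0,0,0,0,0,0,0,0,0,0,0,0,0,0,0,0,0,0,0,0,0,0,0,0,0,0,0,0,0,0,0,1,0,0,10],
   [0,0,0,0,0,0,0,0,0,0,0,0,0,0,0,0,0,0,0,0,0,0,0,0,0,0,0,0,0,0,0,0,0,0,0,0,0,0,0,0,0,0,0,0,0,0,0,0,0,0,0,0,0,0,0,0,0,0,0,0,0,1,0,5],
   [0,0,0,0,0,0,0,0,0,0,0,0,0,0,0,0,0,0,0,0,0,0,0,0,0,0,0,0,0,0,0,0,0,0,0,0,0,0,0,0,0,0,0,0,0,0,0,0,0,0,0,0,0,0,0,0,0,0,0,0,0,0,1,1],
   [0,0,0,0,0,0,0,0,0,0,0,0,0,0,0,0,0,0,0,0,0,0,0,0,0,0,0,0,0,0,0,0,0,0,0,0,0,0,0,0,0,0,0,0,0,0,0,0,0,0,0,0,0,0,0,0,0,0,0,0,0,0,0,1]]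

def cert5_2_m0 : List (List (List (ℕ × ℕ))) :=
  [[[],
    [(0,5)],
    [(4,1)],
    [(12,1)],
    [(27,1)],
    [(51,1)]],
   [[(0,1)],
    [(3,1)],
    [(9,1)],
    [(20,1)],
    [(39,1)],
    [(62,1)]],
   [[(0,1)],
    [(2,1)],
    [(7,1)],
    [(17,1)],
    [(35,1)],
    [(57,1)]],
   [[(1,1)],
    [(5,1)],
    [(14,1)],
    [(31,1)],
    [(52,1)],
    [(63,1)]]]
def cert5_2_m1 : List (List (List (ℕ × ℕ))) :=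
  [[[],
    [(1,5)],
    [(6,1)],
    [(16,1)],
    [(34,1)],
    [(56,1)]],
   [[(1,1)],
    [(5,1)],
    [(14,1)],
    [(31,1)],
    [(52,1)],
    [(63,1)]],
   [[(1,1)],
    [(5,1)],
    [(14,1)],
    [(31,1)],
    [(52,1)],
    [(63,1)]],
   [[(1,1)],
    [(5,1)],
    [(14,1)],
    [(31,1)],
    [(52,1)],
    [(63,1)]]]
def cert5_2_m2 : List (List (List (ℕ × ℕ))) :=
  [[[],
    [(2,5)],
    [(7,2),(10,1)],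
    [(17,3),(25,1)],
    [(35,4),(49,1)],
    [(57,5)]],
   [[(2,1)],
    [(5,1),(8,1)],
    [(14,2),(19,1)],
    [(31,3),(38,1)],
    [(52,4),(61,1)],
    [(63,5)]],
   [[(2,1)],
    [(2,1),(7,2)],
    [(7,2),(17,3)],
    [(17,3),(35,4)],
    [(35,4),(57,5)],
    [(57,5)]],
   [[(5,1)],
    [(5,1),(14,2)],
    [(14,2),(31,3)],
    [(31,3),(52,4)],
    [(52,4),(63,5)],
    [(63,5)]]]
def cert5_2_m3 : List (List (List (ℕ × ℕ))) :=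
  [[[],
    [(3,5)],
    [(9,2),(11,1)],
    [(20,3),(26,1)],
    [(39,4),(50,1)],
    [(62,5)]],
   [[(3,1)],
    [(3,1),(9,2)],
    [(9,2),(20,3)],
    [(20,3),(39,4)],
    [(39,4),(62,5)],
    [(62,5)]],
   [[(3,1)],
    [(5,1),(8,1)],
    [(14,2),(18,1)],
    [(31,3),(36,1)],
    [(52,4),(58,1)],
    [(63,5)]],
   [[(5,1)],
    [(5,1),(14,2)],
    [(14,2),(31,3)],
    [(31,3),(52,4)],
    [(52,4),(63,5)],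
    [(63,5)]]]
def cert5_2_m4 : List (List (List (ℕ × ℕ))) :=
  [[[],
    [(4,5)],
    [(4,1),(12,6),(13,2)],
    [(12,3),(27,12),(30,1)],
    [(27,6),(51,20)],
    [(51,10)]],
   [[(4,1)],
    [(9,2),(11,1)],
    [(9,1),(20,6),(24,1)],
    [(20,3),(39,12),(45,1)],
    [(39,6),(62,20)],
    [(62,10)]],
   [[(4,1)],
    [(7,2),(10,1)],
    [(7,1),(17,6),(22,1)],
    [(17,3),(35,12),(42,1)],
    [(35,6),(57,20)],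
    [(57,10)]],
   [[(6,1)],
    [(14,2),(15,1)],
    [(14,1),(31,6),(32,1)],
    [(31,3),(52,12),(53,1)],
    [(52,6),(63,20)],
    [(63,10)]]]
def cert5_2_m5 : List (List (List (ℕ × ℕ))) :=
  [[[],
    [(5,5)],
    [(14,2),(15,1)],
    [(31,3),(33,1)],
    [(52,4),(55,1)],
    [(63,5)]],
   [[(5,1)],
    [(5,1),(14,2)],
    [(14,2),(31,3)],
    [(31,3),(52,4)],
    [(52,4),(63,5)],
    [(63,5)]],
   [[(5,1)],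
    [(5,1),(14,2)],
    [(14,2),(31,3)],
    [(31,3),(52,4)],
    [(52,4),(63,5)],
    [(63,5)]],
   [[(5,1)],
    [(5,1),(14,2)],
    [(14,2),(31,3)],
    [(31,3),(52,4)],
    [(52,4),(63,5)],
    [(63,5)]]]
def cert5_2_m6 : List (List (List (ℕ × ℕ))) :=
  [[[],
    [(6,5)],
    [(6,1),(16,6),(21,2)],
    [(16,3),(34,12),(41,1)],
    [(34,6),(56,20)],
    [(56,10)]],
   [[(6,1)],
    [(14,2),(15,1)],
    [(14,1),(31,6),(32,1)],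
    [(31,3),(52,12),(53,1)],
    [(52,6),(63,20)],
    [(63,10)]],
   [[(6,1)],
    [(14,2),(15,1)],
    [(14,1),(31,6),(32,1)],
    [(31,3),(52,12),(53,1)],
    [(52,6),(63,20)],
    [(63,10)]],
   [[(6,1)],
    [(14,2),(15,1)],
    [(14,1),(31,6),(32,1)],
    [(31,3),(52,12),(53,1)],
    [(52,6),(63,20)],
    [(63,10)]]]
def cert5_2_m7 : List (List (List (ℕ × ℕ))) :=
  [[[],
    [(7,5)],
    [(7,1),(17,6),(22,1)],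
    [(17,3),(35,12),(46,1)],
    [(35,6),(57,20)],
    [(57,10)]],
   [[(7,1)],
    [(14,2),(18,1)],
    [(14,1),(31,6),(37,1)],
    [(31,3),(52,12),(60,1)],
    [(52,6),(63,20)],
    [(63,10)]],
   [[(7,1)],
    [(7,2),(17,3)],
    [(7,1),(17,6),(35,6)],
    [(17,3),(35,12),(57,10)],
    [(35,6),(57,20)],
    [(57,10)]],
   [[(14,1)],
    [(14,2),(31,3)],
    [(14,1),(31,6),(52,6)],
    [(31,3),(52,12),(63,10)],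
    [(52,6),(63,20)],
    [(63,10)]]]
def cert5_2_m8 : List (List (List (ℕ × ℕ))) :=
  [[[],
    [(8,5)],
    [(14,2),(18,2),(19,2),(23,1)],
    [(31,6),(36,3),(38,3),(47,1)],
    [(52,12),(58,4),(61,4)],
    [(63,20)]],
   [[(8,1)],
    [(8,1),(14,2),(19,2)],
    [(14,2),(19,2),(31,6),(38,3)],
    [(31,6),(38,3),(52,12),(61,4)],
    [(52,12),(61,4),(63,20)],
    [(63,20)]],
   [[(8,1)],
    [(8,1),(14,2),(18,2)],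
    [(14,2),(18,2),(31,6),(36,3)],
    [(31,6),(36,3),(52,12),(58,4)],
    [(52,12),(58,4),(63,20)],
    [(63,20)]],
   [[(14,2)],
    [(14,4),(31,6)],
    [(14,2),(31,12),(52,12)],
    [(31,6),(52,24),(63,20)],
    [(52,12),(63,40)],
    [(63,20)]]]
def cert5_2_m9 : List (List (List (ℕ × ℕ))) :=
  [[[],
    [(9,5)],
    [(9,1),(20,6),(24,1)],
    [(20,3),(39,12),(48,1)],
    [(39,6),(62,20)],
    [(62,10)]],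
   [[(9,1)],
    [(9,2),(20,3)],
    [(9,1),(20,6),(39,6)],
    [(20,3),(39,12),(62,10)],
    [(39,6),(62,20)],
    [(62,10)]],
   [[(9,1)],
    [(14,2),(19,1)],
    [(14,1),(31,6),(37,1)],
    [(31,3),(52,12),(59,1)],
    [(52,6),(63,20)],
    [(63,10)]],
   [[(14,1)],
    [(14,2),(31,3)],
    [(14,1),(31,6),(52,6)],
    [(31,3),(52,12),(63,10)],
    [(52,6),(63,20)],
    [(63,10)]]]
def cert5_2_m10 : List (List (List (ℕ × ℕ))) :=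
  [[[],
    [(10,5)],
    [(10,1),(17,6),(22,2),(25,6),(28,2)],
    [(17,3),(25,3),(35,24),(42,3),(49,12)],
    [(35,12),(49,6),(57,60)],
    [(57,30)]],
   [[(10,1)],
    [(15,1),(19,2),(23,1)],
    [(19,1),(31,6),(32,2),(38,6),(44,1)],
    [(31,3),(38,3),(52,24),(53,3),(61,12)],
    [(52,12),(61,6),(63,60)],
    [(63,30)]],
   [[(10,1)],
    [(10,1),(17,6),(22,2)],
    [(17,9),(22,2),(35,24),(42,3)],
    [(17,3),(35,36),(42,3),(57,60)],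
    [(35,12),(57,90)],
    [(57,30)]],
   [[(15,1)],
    [(15,1),(31,6),(32,2)],
    [(31,9),(32,2),(52,24),(53,3)],
    [(31,3),(52,36),(53,3),(63,60)],
    [(52,12),(63,90)],
    [(63,30)]]]
def cert5_2_m11 : List (List (List (ℕ × ℕ))) :=
  [[[],
    [(11,5)],
    [(11,1),(20,6),(24,2),(26,6),(29,2)],
    [(20,3),(26,3),(39,24),(45,3),(50,12)],
    [(39,12),(50,6),(62,60)],
    [(62,30)]],
   [[(11,1)],
    [(11,1),(20,6),(24,2)],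
    [(20,9),(24,2),(39,24),(45,3)],
    [(20,3),(39,36),(45,3),(62,60)],
    [(39,12),(62,90)],
    [(62,30)]],
   [[(11,1)],
    [(15,1),(18,2),(23,1)],
    [(18,1),(31,6),(32,2),(36,6),(43,1)],
    [(31,3),(36,3),(52,24),(53,3),(58,12)],
    [(52,12),(58,6),(63,60)],
    [(63,30)]],
   [[(15,1)],
    [(15,1),(31,6),(32,2)],
    [(31,9),(32,2),(52,24),(53,3)],
    [(31,3),(52,36),(53,3),(63,60)],
    [(52,12),(63,90)],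
    [(63,30)]]]
def cert5_2_m12 : List (List (List (ℕ × ℕ))) :=
  [[[],
    [(12,5)],
    [(12,3),(27,12),(30,1)],
    [(12,1),(27,12),(51,30)],
    [(27,4),(51,30)],
    [(51,10)]],
   [[(12,1)],
    [(20,3),(26,1)],
    [(20,3),(39,12),(48,1)],
    [(20,1),(39,12),(62,30)],
    [(39,4),(62,30)],
    [(62,10)]],
   [[(12,1)],
    [(17,3),(25,1)],
    [(17,3),(35,12),(46,1)],
    [(17,1),(35,12),(57,30)],
    [(35,4),(57,30)],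
    [(57,10)]],
   [[(16,1)],
    [(31,3),(33,1)],
    [(31,3),(52,12),(54,1)],
    [(31,1),(52,12),(63,30)],
    [(52,4),(63,30)],
    [(63,10)]]]
def cert5_2_m13 : List (List (List (ℕ × ℕ))) :=
  [[[],
    [(13,5)],
    [(13,2),(27,12),(30,6)],
    [(27,12),(30,3),(51,60)],
    [(27,3),(51,60)],
    [(51,15)]],
   [[(13,1)],
    [(24,2),(29,1)],
    [(24,1),(39,12),(45,6)],
    [(39,12),(45,3),(62,60)],
    [(39,3),(62,60)],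
    [(62,15)]],
   [[(13,1)],
    [(22,2),(28,1)],
    [(22,1),(35,12),(42,6)],
    [(35,12),(42,3),(57,60)],
    [(35,3),(57,60)],
    [(57,15)]],
   [[(21,1)],
    [(32,2),(40,1)],
    [(32,1),(52,12),(53,6)],
    [(52,12),(53,3),(63,60)],
    [(52,3),(63,60)],
    [(63,15)]]]
def cert5_2_m14 : List (List (List (ℕ × ℕ))) :=
  [[[],
    [(14,5)],
    [(14,1),(31,6),(32,1)],
    [(31,3),(52,12),(54,1)],
    [(52,6),(63,20)],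
    [(63,10)]],
   [[(14,1)],
    [(14,2),(31,3)],
    [(14,1),(31,6),(52,6)],
    [(31,3),(52,12),(63,10)],
    [(52,6),(63,20)],
    [(63,10)]],
   [[(14,1)],
    [(14,2),(31,3)],
    [(14,1),(31,6),(52,6)],
    [(31,3),(52,12),(63,10)],
    [(52,6),(63,20)],
    [(63,10)]],
   [[(14,1)],
    [(14,2),(31,3)],
    [(14,1),(31,6),(52,6)],
    [(31,3),(52,12),(63,10)],
    [(52,6),(63,20)],
    [(63,10)]]]
def cert5_2_m15 : List (List (List (ℕ × ℕ))) :=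
  [[[],
    [(15,5)],
    [(15,1),(31,6),(32,2),(33,6),(40,2)],
    [(31,3),(33,3),(52,24),(53,3),(55,12)],
    [(52,12),(55,6),(63,60)],
    [(63,30)]],
   [[(15,1)],
    [(15,1),(31,6),(32,2)],
    [(31,9),(32,2),(52,24),(53,3)],
    [(31,3),(52,36),(53,3),(63,60)],
    [(52,12),(63,90)],
    [(63,30)]],
   [[(15,1)],
    [(15,1),(31,6),(32,2)],
    [(31,9),(32,2),(52,24),(53,3)],
    [(31,3),(52,36),(53,3),(63,60)],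
    [(52,12),(63,90)],
    [(63,30)]],
   [[(15,1)],
    [(15,1),(31,6),(32,2)],
    [(31,9),(32,2),(52,24),(53,3)],
    [(31,3),(52,36),(53,3),(63,60)],
    [(52,12),(63,90)],
    [(63,30)]]]
def cert5_2_m16 : List (List (List (ℕ × ℕ))) :=
  [[[],
    [(16,5)],
    [(16,3),(34,12),(41,1)],
    [(16,1),(34,12),(56,30)],
    [(34,4),(56,30)],
    [(56,10)]],
   [[(16,1)],
    [(31,3),(33,1)],
    [(31,3),(52,12),(54,1)],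
    [(31,1),(52,12),(63,30)],
    [(52,4),(63,30)],
    [(63,10)]],
   [[(16,1)],
    [(31,3),(33,1)],
    [(31,3),(52,12),(54,1)],
    [(31,1),(52,12),(63,30)],
    [(52,4),(63,30)],
    [(63,10)]],
   [[(16,1)],
    [(31,3),(33,1)],
    [(31,3),(52,12),(54,1)],
    [(31,1),(52,12),(63,30)],
    [(52,4),(63,30)],
    [(63,10)]]]
def cert5_2_m17 : List (List (List (ℕ × ℕ))) :=
  [[[],
    [(17,5)],
    [(17,3),(35,12),(42,1)],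
    [(17,1),(35,12),(57,30)],
    [(35,4),(57,30)],
    [(57,10)]],
   [[(17,1)],
    [(31,3),(36,1)],
    [(31,3),(52,12),(59,1)],
    [(31,1),(52,12),(63,30)],
    [(52,4),(63,30)],
    [(63,10)]],
   [[(17,1)],
    [(17,3),(35,4)],
    [(17,3),(35,12),(57,10)],
    [(17,1),(35,12),(57,30)],
    [(35,4),(57,30)],
    [(57,10)]],
   [[(31,1)],
    [(31,3),(52,4)],
    [(31,3),(52,12),(63,10)],
    [(31,1),(52,12),(63,30)],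
    [(52,4),(63,30)],
    [(63,10)]]]
def cert5_2_m18 : List (List (List (ℕ × ℕ))) :=
  [[[],
    [(18,5)],
    [(18,1),(31,6),(36,6),(37,2),(43,1)],
    [(31,3),(36,3),(52,24),(58,12),(60,3)],
    [(52,12),(58,6),(63,60)],
    [(63,30)]],
   [[(18,1)],
    [(18,1),(31,6),(37,2)],
    [(31,9),(37,2),(52,24),(60,3)],
    [(31,3),(52,36),(60,3),(63,60)],
    [(52,12),(63,90)],
    [(63,30)]],
   [[(18,1)],
    [(18,2),(31,3),(36,3)],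
    [(18,1),(31,6),(36,6),(52,12),(58,6)],
    [(31,3),(36,3),(52,24),(58,12),(63,30)],
    [(52,12),(58,6),(63,60)],
    [(63,30)]],
   [[(31,3)],
    [(31,9),(52,12)],
    [(31,9),(52,36),(63,30)],
    [(31,3),(52,36),(63,90)],
    [(52,12),(63,90)],
    [(63,30)]]]
def cert5_2_m19 : List (List (List (ℕ × ℕ))) :=
  [[[],
    [(19,5)],
    [(19,1),(31,6),(37,2),(38,6),(44,1)],
    [(31,3),(38,3),(52,24),(59,3),(61,12)],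
    [(52,12),(61,6),(63,60)],
    [(63,30)]],
   [[(19,1)],
    [(19,2),(31,3),(38,3)],
    [(19,1),(31,6),(38,6),(52,12),(61,6)],
    [(31,3),(38,3),(52,24),(61,12),(63,30)],
    [(52,12),(61,6),(63,60)],
    [(63,30)]],
   [[(19,1)],
    [(19,1),(31,6),(37,2)],
    [(31,9),(37,2),(52,24),(59,3)],
    [(31,3),(52,36),(59,3),(63,60)],
    [(52,12),(63,90)],
    [(63,30)]],
   [[(31,3)],
    [(31,9),(52,12)],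
    [(31,9),(52,36),(63,30)],
    [(31,3),(52,36),(63,90)],
    [(52,12),(63,90)],
    [(63,30)]]]
def cert5_2_m20 : List (List (List (ℕ × ℕ))) :=
  [[[],
    [(20,5)],
    [(20,3),(39,12),(45,1)],
    [(20,1),(39,12),(62,30)],
    [(39,4),(62,30)],
    [(62,10)]],
   [[(20,1)],
    [(20,3),(39,4)],
    [(20,3),(39,12),(62,10)],
    [(20,1),(39,12),(62,30)],
    [(39,4),(62,30)],
    [(62,10)]],
   [[(20,1)],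
    [(31,3),(38,1)],
    [(31,3),(52,12),(60,1)],
    [(31,1),(52,12),(63,30)],
    [(52,4),(63,30)],
    [(63,10)]],
   [[(31,1)],
    [(31,3),(52,4)],
    [(31,3),(52,12),(63,10)],
    [(31,1),(52,12),(63,30)],
    [(52,4),(63,30)],
    [(63,10)]]]
def cert5_2_m21 : List (List (List (ℕ × ℕ))) :=
  [[[],
    [(21,5)],
    [(21,2),(34,12),(41,6)],
    [(34,12),(41,3),(56,60)],
    [(34,3),(56,60)],
    [(56,15)]],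
   [[(21,1)],
    [(32,2),(40,1)],
    [(32,1),(52,12),(53,6)],
    [(52,12),(53,3),(63,60)],
    [(52,3),(63,60)],
    [(63,15)]],
   [[(21,1)],
    [(32,2),(40,1)],
    [(32,1),(52,12),(53,6)],
    [(52,12),(53,3),(63,60)],
    [(52,3),(63,60)],
    [(63,15)]],
   [[(21,1)],
    [(32,2),(40,1)],
    [(32,1),(52,12),(53,6)],
    [(52,12),(53,3),(63,60)],
    [(52,3),(63,60)],
    [(63,15)]]]
def cert5_2_m22 : List (List (List (ℕ × ℕ))) :=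
  [[[],
    [(22,5)],
    [(22,2),(35,24),(42,6),(46,6)],
    [(35,24),(42,3),(46,3),(57,120)],
    [(35,6),(57,120)],
    [(57,30)]],
   [[(22,1)],
    [(32,2),(37,2),(43,1)],
    [(32,1),(37,1),(52,24),(53,6),(60,6)],
    [(52,24),(53,3),(60,3),(63,120)],
    [(52,6),(63,120)],
    [(63,30)]],
   [[(22,1)],
    [(22,2),(35,12),(42,3)],
    [(22,1),(35,30),(42,6),(57,60)],
    [(35,24),(42,3),(57,150)],
    [(35,6),(57,120)],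
    [(57,30)]],
   [[(32,1)],
    [(32,2),(52,12),(53,3)],
    [(32,1),(52,30),(53,6),(63,60)],
    [(52,24),(53,3),(63,150)],
    [(52,6),(63,120)],
    [(63,30)]]]
def cert5_2_m23 : List (List (List (ℕ × ℕ))) :=
  [[[],
    [(23,5)],
    [(23,1),(32,2),(36,6),(38,6),(43,2),(44,2),(47,6)],
    [(36,3),(38,3),(47,3),(52,24),(53,6),(58,24),(61,24)],
    [(52,12),(58,12),(61,12),(63,120)],
    [(63,60)]],
   [[(23,1)],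
    [(23,1),(32,2),(38,6),(44,2)],
    [(32,2),(38,9),(44,2),(52,24),(53,6),(61,24)],
    [(38,3),(52,36),(53,6),(61,36),(63,120)],
    [(52,12),(61,12),(63,180)],
    [(63,60)]],
   [[(23,1)],
    [(23,1),(32,2),(36,6),(43,2)],
    [(32,2),(36,9),(43,2),(52,24),(53,6),(58,24)],
    [(36,3),(52,36),(53,6),(58,36),(63,120)],
    [(52,12),(58,12),(63,180)],
    [(63,60)]],
   [[(32,2)],
    [(32,4),(52,24),(53,6)],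
    [(32,2),(52,60),(53,12),(63,120)],
    [(52,48),(53,6),(63,300)],
    [(52,12),(63,240)],
    [(63,60)]]]
def cert5_2_m24 : List (List (List (ℕ × ℕ))) :=
  [[[],
    [(24,5)],
    [(24,2),(39,24),(45,6),(48,6)],
    [(39,24),(45,3),(48,3),(62,120)],
    [(39,6),(62,120)],
    [(62,30)]],
   [[(24,1)],
    [(24,2),(39,12),(45,3)],
    [(24,1),(39,30),(45,6),(62,60)],
    [(39,24),(45,3),(62,150)],
    [(39,6),(62,120)],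
    [(62,30)]],
   [[(24,1)],
    [(32,2),(37,2),(44,1)],
    [(32,1),(37,1),(52,24),(53,6),(59,6)],
    [(52,24),(53,3),(59,3),(63,120)],
    [(52,6),(63,120)],
    [(63,30)]],
   [[(32,1)],
    [(32,2),(52,12),(53,3)],
    [(32,1),(52,30),(53,6),(63,60)],
    [(52,24),(53,3),(63,150)],
    [(52,6),(63,120)],
    [(63,30)]]]
def cert5_2_m25 : List (List (List (ℕ × ℕ))) :=
  [[[],
    [(25,5)],
    [(25,3),(35,12),(46,2),(49,12)],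
    [(25,1),(35,12),(49,12),(57,60)],
    [(35,4),(49,4),(57,60)],
    [(57,20)]],
   [[(25,1)],
    [(33,1),(38,3),(47,1)],
    [(38,3),(52,12),(54,2),(61,12)],
    [(38,1),(52,12),(61,12),(63,60)],
    [(52,4),(61,4),(63,60)],
    [(63,20)]],
   [[(25,1)],
    [(25,1),(35,12),(46,2)],
    [(35,24),(46,2),(57,60)],
    [(35,16),(57,120)],
    [(35,4),(57,80)],
    [(57,20)]],
   [[(33,1)],
    [(33,1),(52,12),(54,2)],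
    [(52,24),(54,2),(63,60)],
    [(52,16),(63,120)],
    [(52,4),(63,80)],
    [(63,20)]]]
def cert5_2_m26 : List (List (List (ℕ × ℕ))) :=
  [[[],
    [(26,5)],
    [(26,3),(39,12),(48,2),(50,12)],
    [(26,1),(39,12),(50,12),(62,60)],
    [(39,4),(50,4),(62,60)],
    [(62,20)]],
   [[(26,1)],
    [(26,1),(39,12),(48,2)],
    [(39,24),(48,2),(62,60)],
    [(39,16),(62,120)],
    [(39,4),(62,80)],
    [(62,20)]],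
   [[(26,1)],
    [(33,1),(36,3),(47,1)],
    [(36,3),(52,12),(54,2),(58,12)],
    [(36,1),(52,12),(58,12),(63,60)],
    [(52,4),(58,4),(63,60)],
    [(63,20)]],
   [[(33,1)],
    [(33,1),(52,12),(54,2)],
    [(52,24),(54,2),(63,60)],
    [(52,16),(63,120)],
    [(52,4),(63,80)],
    [(63,20)]]]
def cert5_2_m27 : List (List (List (ℕ × ℕ))) :=
  [[[],
    [(27,5)],
    [(27,6),(51,20)],
    [(27,4),(51,30)],
    [(27,1),(51,20)],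
    [(51,5)]],
   [[(27,1)],
    [(39,4),(50,1)],
    [(39,6),(62,20)],
    [(39,4),(62,30)],
    [(39,1),(62,20)],
    [(62,5)]],
   [[(27,1)],
    [(35,4),(49,1)],
    [(35,6),(57,20)],
    [(35,4),(57,30)],
    [(35,1),(57,20)],
    [(57,5)]],
   [[(34,1)],
    [(52,4),(55,1)],
    [(52,6),(63,20)],
    [(52,4),(63,30)],
    [(52,1),(63,20)],
    [(63,5)]]]
def cert5_2_m28 : List (List (List (ℕ × ℕ))) :=
  [[[],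
    [(28,5)],
    [(28,2),(42,6),(49,12)],
    [(42,3),(49,12),(57,60)],
    [(49,3),(57,60)],
    [(57,15)]],
   [[(28,1)],
    [(40,1),(44,2)],
    [(44,1),(53,6),(61,12)],
    [(53,3),(61,12),(63,60)],
    [(61,3),(63,60)],
    [(63,15)]],
   [[(28,1)],
    [(28,1),(42,6)],
    [(42,9),(57,60)],
    [(42,3),(57,120)],
    [(57,75)],
    [(57,15)]],
   [[(40,1)],
    [(40,1),(53,6)],
    [(53,9),(63,60)],
    [(53,3),(63,120)],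
    [(63,75)],
    [(63,15)]]]
def cert5_2_m29 : List (List (List (ℕ × ℕ))) :=
  [[[],
    [(29,5)],
    [(29,2),(45,6),(50,12)],
    [(45,3),(50,12),(62,60)],
    [(50,3),(62,60)],
    [(62,15)]],
   [[(29,1)],
    [(29,1),(45,6)],
    [(45,9),(62,60)],
    [(45,3),(62,120)],
    [(62,75)],
    [(62,15)]],
   [[(29,1)],
    [(40,1),(43,2)],
    [(43,1),(53,6),(58,12)],
    [(53,3),(58,12),(63,60)],
    [(58,3),(63,60)],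
    [(63,15)]],
   [[(40,1)],
    [(40,1),(53,6)],
    [(53,9),(63,60)],
    [(53,3),(63,120)],
    [(63,75)],
    [(63,15)]]]
def cert5_2_m30 : List (List (List (ℕ × ℕ))) :=
  [[[],
    [(30,5)],
    [(30,4),(51,60)],
    [(30,1),(51,90)],
    [(51,50)],
    [(51,10)]],
   [[(30,1)],
    [(45,3),(48,2)],
    [(45,3),(48,1),(62,60)],
    [(45,1),(62,90)],
    [(62,50)],
    [(62,10)]],
   [[(30,1)],
    [(42,3),(46,2)],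
    [(42,3),(46,1),(57,60)],
    [(42,1),(57,90)],
    [(57,50)],
    [(57,10)]],
   [[(41,1)],
    [(53,3),(54,2)],
    [(53,3),(54,1),(63,60)],
    [(53,1),(63,90)],
    [(63,50)],
    [(63,10)]]]
def cert5_2_m31 : List (List (List (ℕ × ℕ))) :=
  [[[],
    [(31,5)],
    [(31,3),(52,12),(53,1)],
    [(31,1),(52,12),(63,30)],
    [(52,4),(63,30)],
    [(63,10)]],
   [[(31,1)],
    [(31,3),(52,4)],
    [(31,3),(52,12),(63,10)],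
    [(31,1),(52,12),(63,30)],
    [(52,4),(63,30)],
    [(63,10)]],
   [[(31,1)],
    [(31,3),(52,4)],
    [(31,3),(52,12),(63,10)],
    [(31,1),(52,12),(63,30)],
    [(52,4),(63,30)],
    [(63,10)]],
   [[(31,1)],
    [(31,3),(52,4)],
    [(31,3),(52,12),(63,10)],
    [(31,1),(52,12),(63,30)],
    [(52,4),(63,30)],
    [(63,10)]]]
def cert5_2_m32 : List (List (List (ℕ × ℕ))) :=
  [[[],
    [(32,5)],
    [(32,2),(52,24),(53,6),(54,6)],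
    [(52,24),(53,3),(54,3),(63,120)],
    [(52,6),(63,120)],
    [(63,30)]],
   [[(32,1)],
    [(32,2),(52,12),(53,3)],
    [(32,1),(52,30),(53,6),(63,60)],
    [(52,24),(53,3),(63,150)],
    [(52,6),(63,120)],
    [(63,30)]],
   [[(32,1)],
    [(32,2),(52,12),(53,3)],
    [(32,1),(52,30),(53,6),(63,60)],
    [(52,24),(53,3),(63,150)],
    [(52,6),(63,120)],
    [(63,30)]],
   [[(32,1)],
    [(32,2),(52,12),(53,3)],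
    [(32,1),(52,30),(53,6),(63,60)],
    [(52,24),(53,3),(63,150)],
    [(52,6),(63,120)],
    [(63,30)]]]
def cert5_2_m33 : List (List (List (ℕ × ℕ))) :=
  [[[],
    [(33,5)],
    [(33,3),(52,12),(54,2),(55,12)],
    [(33,1),(52,12),(55,12),(63,60)],
    [(52,4),(55,4),(63,60)],
    [(63,20)]],
   [[(33,1)],
    [(33,1),(52,12),(54,2)],
    [(52,24),(54,2),(63,60)],
    [(52,16),(63,120)],
    [(52,4),(63,80)],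
    [(63,20)]],
   [[(33,1)],
    [(33,1),(52,12),(54,2)],
    [(52,24),(54,2),(63,60)],
    [(52,16),(63,120)],
    [(52,4),(63,80)],
    [(63,20)]],
   [[(33,1)],
    [(33,1),(52,12),(54,2)],
    [(52,24),(54,2),(63,60)],
    [(52,16),(63,120)],
    [(52,4),(63,80)],
    [(63,20)]]]
def cert5_2_m34 : List (List (List (ℕ × ℕ))) :=
  [[[],
    [(34,5)],
    [(34,6),(56,20)],
    [(34,4),(56,30)],
    [(34,1),(56,20)],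
    [(56,5)]],
   [[(34,1)],
    [(52,4),(55,1)],
    [(52,6),(63,20)],
    [(52,4),(63,30)],
    [(52,1),(63,20)],
    [(63,5)]],
   [[(34,1)],
    [(52,4),(55,1)],
    [(52,6),(63,20)],
    [(52,4),(63,30)],
    [(52,1),(63,20)],
    [(63,5)]],
   [[(34,1)],
    [(52,4),(55,1)],
    [(52,6),(63,20)],
    [(52,4),(63,30)],
    [(52,1),(63,20)],
    [(63,5)]]]
def cert5_2_m35 : List (List (List (ℕ × ℕ))) :=
  [[[],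
    [(35,5)],
    [(35,6),(57,20)],
    [(35,4),(57,30)],
    [(35,1),(57,20)],
    [(57,5)]],
   [[(35,1)],
    [(52,4),(58,1)],
    [(52,6),(63,20)],
    [(52,4),(63,30)],
    [(52,1),(63,20)],
    [(63,5)]],
   [[(35,1)],
    [(35,4),(57,5)],
    [(35,6),(57,20)],
    [(35,4),(57,30)],
    [(35,1),(57,20)],
    [(57,5)]],
   [[(52,1)],
    [(52,4),(63,5)],
    [(52,6),(63,20)],
    [(52,4),(63,30)],
    [(52,1),(63,20)],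
    [(63,5)]]]
def cert5_2_m36 : List (List (List (ℕ × ℕ))) :=
  [[[],
    [(36,5)],
    [(36,3),(52,12),(58,12),(59,2)],
    [(36,1),(52,12),(58,12),(63,60)],
    [(52,4),(58,4),(63,60)],
    [(63,20)]],
   [[(36,1)],
    [(36,1),(52,12),(59,2)],
    [(52,24),(59,2),(63,60)],
    [(52,16),(63,120)],
    [(52,4),(63,80)],
    [(63,20)]],
   [[(36,1)],
    [(36,3),(52,4),(58,4)],
    [(36,3),(52,12),(58,12),(63,20)],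
    [(36,1),(52,12),(58,12),(63,60)],
    [(52,4),(58,4),(63,60)],
    [(63,20)]],
   [[(52,4)],
    [(52,16),(63,20)],
    [(52,24),(63,80)],
    [(52,16),(63,120)],
    [(52,4),(63,80)],
    [(63,20)]]]
def cert5_2_m37 : List (List (List (ℕ × ℕ))) :=
  [[[],
    [(37,5)],
    [(37,2),(52,24),(59,6),(60,6)],
    [(52,24),(59,3),(60,3),(63,120)],
    [(52,6),(63,120)],
    [(63,30)]],
   [[(37,1)],
    [(37,2),(52,12),(60,3)],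
    [(37,1),(52,30),(60,6),(63,60)],
    [(52,24),(60,3),(63,150)],
    [(52,6),(63,120)],
    [(63,30)]],
   [[(37,1)],
    [(37,2),(52,12),(59,3)],
    [(37,1),(52,30),(59,6),(63,60)],
    [(52,24),(59,3),(63,150)],
    [(52,6),(63,120)],
    [(63,30)]],
   [[(52,6)],
    [(52,24),(63,30)],
    [(52,36),(63,120)],
    [(52,24),(63,180)],
    [(52,6),(63,120)],
    [(63,30)]]]
def cert5_2_m38 : List (List (List (ℕ × ℕ))) :=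
  [[[],
    [(38,5)],
    [(38,3),(52,12),(60,2),(61,12)],
    [(38,1),(52,12),(61,12),(63,60)],
    [(52,4),(61,4),(63,60)],
    [(63,20)]],
   [[(38,1)],
    [(38,3),(52,4),(61,4)],
    [(38,3),(52,12),(61,12),(63,20)],
    [(38,1),(52,12),(61,12),(63,60)],
    [(52,4),(61,4),(63,60)],
    [(63,20)]],
   [[(38,1)],
    [(38,1),(52,12),(60,2)],
    [(52,24),(60,2),(63,60)],
    [(52,16),(63,120)],
    [(52,4),(63,80)],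
    [(63,20)]],
   [[(52,4)],
    [(52,16),(63,20)],
    [(52,24),(63,80)],
    [(52,16),(63,120)],
    [(52,4),(63,80)],
    [(63,20)]]]
def cert5_2_m39 : List (List (List (ℕ × ℕ))) :=
  [[[],
    [(39,5)],
    [(39,6),(62,20)],
    [(39,4),(62,30)],
    [(39,1),(62,20)],
    [(62,5)]],
   [[(39,1)],
    [(39,4),(62,5)],
    [(39,6),(62,20)],
    [(39,4),(62,30)],
    [(39,1),(62,20)],
    [(62,5)]],
   [[(39,1)],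
    [(52,4),(61,1)],
    [(52,6),(63,20)],
    [(52,4),(63,30)],
    [(52,1),(63,20)],
    [(63,5)]],
   [[(52,1)],
    [(52,4),(63,5)],
    [(52,6),(63,20)],
    [(52,4),(63,30)],
    [(52,1),(63,20)],
    [(63,5)]]]
def cert5_2_m40 : List (List (List (ℕ × ℕ))) :=
  [[[],
    [(40,5)],
    [(40,2),(53,6),(55,12)],
    [(53,3),(55,12),(63,60)],
    [(55,3),(63,60)],
    [(63,15)]],
   [[(40,1)],
    [(40,1),(53,6)],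
    [(53,9),(63,60)],
    [(53,3),(63,120)],
    [(63,75)],
    [(63,15)]],
   [[(40,1)],
    [(40,1),(53,6)],
    [(53,9),(63,60)],
    [(53,3),(63,120)],
    [(63,75)],
    [(63,15)]],
   [[(40,1)],
    [(40,1),(53,6)],
    [(53,9),(63,60)],
    [(53,3),(63,120)],
    [(63,75)],
    [(63,15)]]]
def cert5_2_m41 : List (List (List (ℕ × ℕ))) :=
  [[[],
    [(41,5)],
    [(41,4),(56,60)],
    [(41,1),(56,90)],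
    [(56,50)],
    [(56,10)]],
   [[(41,1)],
    [(53,3),(54,2)],
    [(53,3),(54,1),(63,60)],
    [(53,1),(63,90)],
    [(63,50)],
    [(63,10)]],
   [[(41,1)],
    [(53,3),(54,2)],
    [(53,3),(54,1),(63,60)],
    [(53,1),(63,90)],
    [(63,50)],
    [(63,10)]],
   [[(41,1)],
    [(53,3),(54,2)],
    [(53,3),(54,1),(63,60)],
    [(53,1),(63,90)],
    [(63,50)],
    [(63,10)]]]
def cert5_2_m42 : List (List (List (ℕ × ℕ))) :=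
  [[[],
    [(42,5)],
    [(42,4),(57,60)],
    [(42,1),(57,90)],
    [(57,50)],
    [(57,10)]],
   [[(42,1)],
    [(53,3),(59,2)],
    [(53,3),(59,1),(63,60)],
    [(53,1),(63,90)],
    [(63,50)],
    [(63,10)]],
   [[(42,1)],
    [(42,3),(57,20)],
    [(42,3),(57,70)],
    [(42,1),(57,90)],
    [(57,50)],
    [(57,10)]],
   [[(53,1)],
    [(53,3),(63,20)],
    [(53,3),(63,70)],
    [(53,1),(63,90)],
    [(63,50)],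
    [(63,10)]]]
def cert5_2_m43 : List (List (List (ℕ × ℕ))) :=
  [[[],
    [(43,5)],
    [(43,2),(53,6),(58,24),(60,6)],
    [(53,3),(58,24),(60,3),(63,120)],
    [(58,6),(63,120)],
    [(63,30)]],
   [[(43,1)],
    [(43,1),(53,6),(60,6)],
    [(53,9),(60,9),(63,120)],
    [(53,3),(60,3),(63,240)],
    [(63,150)],
    [(63,30)]],
   [[(43,1)],
    [(43,2),(53,3),(58,12)],
    [(43,1),(53,6),(58,30),(63,60)],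
    [(53,3),(58,24),(63,150)],
    [(58,6),(63,120)],
    [(63,30)]],
   [[(53,3)],
    [(53,9),(63,60)],
    [(53,9),(63,210)],
    [(53,3),(63,270)],
    [(63,150)],
    [(63,30)]]]
def cert5_2_m44 : List (List (List (ℕ × ℕ))) :=
  [[[],
    [(44,5)],
    [(44,2),(53,6),(59,6),(61,24)],
    [(53,3),(59,3),(61,24),(63,120)],
    [(61,6),(63,120)],
    [(63,30)]],
   [[(44,1)],
    [(44,2),(53,3),(61,12)],
    [(44,1),(53,6),(61,30),(63,60)],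
    [(53,3),(61,24),(63,150)],
    [(61,6),(63,120)],
    [(63,30)]],
   [[(44,1)],
    [(44,1),(53,6),(59,6)],
    [(53,9),(59,9),(63,120)],
    [(53,3),(59,3),(63,240)],
    [(63,150)],
    [(63,30)]],
   [[(53,3)],
    [(53,9),(63,60)],
    [(53,9),(63,210)],
    [(53,3),(63,270)],
    [(63,150)],
    [(63,30)]]]
def cert5_2_m45 : List (List (List (ℕ × ℕ))) :=
  [[[],
    [(45,5)],
    [(45,4),(62,60)],
    [(45,1),(62,90)],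
    [(62,50)],
    [(62,10)]],
   [[(45,1)],
    [(45,3),(62,20)],
    [(45,3),(62,70)],
    [(45,1),(62,90)],
    [(62,50)],
    [(62,10)]],
   [[(45,1)],
    [(53,3),(60,2)],
    [(53,3),(60,1),(63,60)],
    [(53,1),(63,90)],
    [(63,50)],
    [(63,10)]],
   [[(53,1)],
    [(53,3),(63,20)],
    [(53,3),(63,70)],
    [(53,1),(63,90)],
    [(63,50)],
    [(63,10)]]]
def cert5_2_m46 : List (List (List (ℕ × ℕ))) :=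
  [[[],
    [(46,5)],
    [(46,4),(57,60)],
    [(46,1),(57,90)],
    [(57,50)],
    [(57,10)]],
   [[(46,1)],
    [(54,2),(60,3)],
    [(54,1),(60,3),(63,60)],
    [(60,1),(63,90)],
    [(63,50)],
    [(63,10)]],
   [[(46,1)],
    [(46,2),(57,30)],
    [(46,1),(57,90)],
    [(57,100)],
    [(57,50)],
    [(57,10)]],
   [[(54,1)],
    [(54,2),(63,30)],
    [(54,1),(63,90)],
    [(63,100)],
    [(63,50)],
    [(63,10)]]]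
def cert5_2_m47 : List (List (List (ℕ × ℕ))) :=
  [[[],
    [(47,5)],
    [(47,3),(54,2),(58,12),(61,12)],
    [(47,1),(58,12),(61,12),(63,60)],
    [(58,4),(61,4),(63,60)],
    [(63,20)]],
   [[(47,1)],
    [(47,1),(54,2),(61,12)],
    [(54,2),(61,24),(63,60)],
    [(61,16),(63,120)],
    [(61,4),(63,80)],
    [(63,20)]],
   [[(47,1)],
    [(47,1),(54,2),(58,12)],
    [(54,2),(58,24),(63,60)],
    [(58,16),(63,120)],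
    [(58,4),(63,80)],
    [(63,20)]],
   [[(54,2)],
    [(54,4),(63,60)],
    [(54,2),(63,180)],
    [(63,200)],
    [(63,100)],
    [(63,20)]]]
def cert5_2_m48 : List (List (List (ℕ × ℕ))) :=
  [[[],
    [(48,5)],
    [(48,4),(62,60)],
    [(48,1),(62,90)],
    [(62,50)],
    [(62,10)]],
   [[(48,1)],
    [(48,2),(62,30)],
    [(48,1),(62,90)],
    [(62,100)],
    [(62,50)],
    [(62,10)]],
   [[(48,1)],
    [(54,2),(59,3)],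
    [(54,1),(59,3),(63,60)],
    [(59,1),(63,90)],
    [(63,50)],
    [(63,10)]],
   [[(54,1)],
    [(54,2),(63,30)],
    [(54,1),(63,90)],
    [(63,100)],
    [(63,50)],
    [(63,10)]]]
def cert5_2_m49 : List (List (List (ℕ × ℕ))) :=
  [[[],
    [(49,5)],
    [(49,6),(57,20)],
    [(49,4),(57,30)],
    [(49,1),(57,20)],
    [(57,5)]],
   [[(49,1)],
    [(55,1),(61,4)],
    [(61,6),(63,20)],
    [(61,4),(63,30)],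
    [(61,1),(63,20)],
    [(63,5)]],
   [[(49,1)],
    [(49,1),(57,20)],
    [(57,50)],
    [(57,50)],
    [(57,25)],
    [(57,5)]],
   [[(55,1)],
    [(55,1),(63,20)],
    [(63,50)],
    [(63,50)],
    [(63,25)],
    [(63,5)]]]
def cert5_2_m50 : List (List (List (ℕ × ℕ))) :=
  [[[],
    [(50,5)],
    [(50,6),(62,20)],
    [(50,4),(62,30)],
    [(50,1),(62,20)],
    [(62,5)]],
   [[(50,1)],
    [(50,1),(62,20)],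
    [(62,50)],
    [(62,50)],
    [(62,25)],
    [(62,5)]],
   [[(50,1)],
    [(55,1),(58,4)],
    [(58,6),(63,20)],
    [(58,4),(63,30)],
    [(58,1),(63,20)],
    [(63,5)]],
   [[(55,1)],
    [(55,1),(63,20)],
    [(63,50)],
    [(63,50)],
    [(63,25)],
    [(63,5)]]]
def cert5_2_m51 : List (List (List (ℕ × ℕ))) :=
  [[[],
    [(51,5)],
    [(51,10)],
    [(51,10)],
    [(51,5)],
    [(51,1)]],
   [[(51,1)],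
    [(62,5)],
    [(62,10)],
    [(62,10)],
    [(62,5)],
    [(62,1)]],
   [[(51,1)],
    [(57,5)],
    [(57,10)],
    [(57,10)],
    [(57,5)],
    [(57,1)]],
   [[(56,1)],
    [(63,5)],
    [(63,10)],
    [(63,10)],
    [(63,5)],
    [(63,1)]]]
def cert5_2_m52 : List (List (List (ℕ × ℕ))) :=
  [[[],
    [(52,5)],
    [(52,6),(63,20)],
    [(52,4),(63,30)],
    [(52,1),(63,20)],
    [(63,5)]],
   [[(52,1)],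
    [(52,4),(63,5)],
    [(52,6),(63,20)],
    [(52,4),(63,30)],
    [(52,1),(63,20)],
    [(63,5)]],
   [[(52,1)],
    [(52,4),(63,5)],
    [(52,6),(63,20)],
    [(52,4),(63,30)],
    [(52,1),(63,20)],
    [(63,5)]],
   [[(52,1)],
    [(52,4),(63,5)],
    [(52,6),(63,20)],
    [(52,4),(63,30)],
    [(52,1),(63,20)],
    [(63,5)]]]
def cert5_2_m53 : List (List (List (ℕ × ℕ))) :=
  [[[],
    [(53,5)],
    [(53,4),(63,60)],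
    [(53,1),(63,90)],
    [(63,50)],
    [(63,10)]],
   [[(53,1)],
    [(53,3),(63,20)],
    [(53,3),(63,70)],
    [(53,1),(63,90)],
    [(63,50)],
    [(63,10)]],
   [[(53,1)],
    [(53,3),(63,20)],
    [(53,3),(63,70)],
    [(53,1),(63,90)],
    [(63,50)],
    [(63,10)]],
   [[(53,1)],
    [(53,3),(63,20)],
    [(53,3),(63,70)],
    [(53,1),(63,90)],
    [(63,50)],
    [(63,10)]]]
def cert5_2_m54 : List (List (List (ℕ × ℕ))) :=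
  [[[],
    [(54,5)],
    [(54,4),(63,60)],
    [(54,1),(63,90)],
    [(63,50)],
    [(63,10)]],
   [[(54,1)],
    [(54,2),(63,30)],
    [(54,1),(63,90)],
    [(63,100)],
    [(63,50)],
    [(63,10)]],
   [[(54,1)],
    [(54,2),(63,30)],
    [(54,1),(63,90)],
    [(63,100)],
    [(63,50)],
    [(63,10)]],
   [[(54,1)],
    [(54,2),(63,30)],
    [(54,1),(63,90)],
    [(63,100)],
    [(63,50)],
    [(63,10)]]]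
def cert5_2_m55 : List (List (List (ℕ × ℕ))) :=
  [[[],
    [(55,5)],
    [(55,6),(63,20)],
    [(55,4),(63,30)],
    [(55,1),(63,20)],
    [(63,5)]],
   [[(55,1)],
    [(55,1),(63,20)],
    [(63,50)],
    [(63,50)],
    [(63,25)],
    [(63,5)]],
   [[(55,1)],
    [(55,1),(63,20)],
    [(63,50)],
    [(63,50)],
    [(63,25)],
    [(63,5)]],
   [[(55,1)],
    [(55,1),(63,20)],
    [(63,50)],
    [(63,50)],
    [(63,25)],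
    [(63,5)]]]
def cert5_2_m56 : List (List (List (ℕ × ℕ))) :=
  [[[],
    [(56,5)],
    [(56,10)],
    [(56,10)],
    [(56,5)],
    [(56,1)]],
   [[(56,1)],
    [(63,5)],
    [(63,10)],
    [(63,10)],
    [(63,5)],
    [(63,1)]],
   [[(56,1)],
    [(63,5)],
    [(63,10)],
    [(63,10)],
    [(63,5)],
    [(63,1)]],
   [[(56,1)],
    [(63,5)],
    [(63,10)],
    [(63,10)],
    [(63,5)],
    [(63,1)]]]
def cert5_2_m57 : List (List (List (ℕ × ℕ))) :=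
  [[[],
    [(57,5)],
    [(57,10)],
    [(57,10)],
    [(57,5)],
    [(57,1)]],
   [[(57,1)],
    [(63,5)],
    [(63,10)],
    [(63,10)],
    [(63,5)],
    [(63,1)]],
   [[(57,1)],
    [(57,5)],
    [(57,10)],
    [(57,10)],
    [(57,5)],
    [(57,1)]],
   [[(63,1)],
    [(63,5)],
    [(63,10)],
    [(63,10)],
    [(63,5)],
    [(63,1)]]]
def cert5_2_m58 : List (List (List (ℕ × ℕ))) :=
  [[[],
    [(58,5)],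
    [(58,6),(63,20)],
    [(58,4),(63,30)],
    [(58,1),(63,20)],
    [(63,5)]],
   [[(58,1)],
    [(58,1),(63,20)],
    [(63,50)],
    [(63,50)],
    [(63,25)],
    [(63,5)]],
   [[(58,1)],
    [(58,4),(63,5)],
    [(58,6),(63,20)],
    [(58,4),(63,30)],
    [(58,1),(63,20)],
    [(63,5)]],
   [[(63,5)],
    [(63,25)],
    [(63,50)],
    [(63,50)],
    [(63,25)],
    [(63,5)]]]
def cert5_2_m59 : List (List (List (ℕ × ℕ))) :=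
  [[[],
    [(59,5)],
    [(59,4),(63,60)],
    [(59,1),(63,90)],
    [(63,50)],
    [(63,10)]],
   [[(59,1)],
    [(59,2),(63,30)],
    [(59,1),(63,90)],
    [(63,100)],
    [(63,50)],
    [(63,10)]],
   [[(59,1)],
    [(59,3),(63,20)],
    [(59,3),(63,70)],
    [(59,1),(63,90)],
    [(63,50)],
    [(63,10)]],
   [[(63,10)],
    [(63,50)],
    [(63,100)],
    [(63,100)],
    [(63,50)],
    [(63,10)]]]
def cert5_2_m60 : List (List (List (ℕ × ℕ))) :=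
  [[[],
    [(60,5)],
    [(60,4),(63,60)],
    [(60,1),(63,90)],
    [(63,50)],
    [(63,10)]],
   [[(60,1)],
    [(60,3),(63,20)],
    [(60,3),(63,70)],
    [(60,1),(63,90)],
    [(63,50)],
    [(63,10)]],
   [[(60,1)],
    [(60,2),(63,30)],
    [(60,1),(63,90)],
    [(63,100)],
    [(63,50)],
    [(63,10)]],
   [[(63,10)],
    [(63,50)],
    [(63,100)],
    [(63,100)],
    [(63,50)],
    [(63,10)]]]
def cert5_2_m61 : List (List (List (ℕ × ℕ))) :=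
  [[[],
    [(61,5)],
    [(61,6),(63,20)],
    [(61,4),(63,30)],
    [(61,1),(63,20)],
    [(63,5)]],
   [[(61,1)],
    [(61,4),(63,5)],
    [(61,6),(63,20)],
    [(61,4),(63,30)],
    [(61,1),(63,20)],
    [(63,5)]],
   [[(61,1)],
    [(61,1),(63,20)],
    [(63,50)],
    [(63,50)],
    [(63,25)],
    [(63,5)]],
   [[(63,5)],
    [(63,25)],
    [(63,50)],
    [(63,50)],
    [(63,25)],
    [(63,5)]]]
def cert5_2_m62 : List (List (List (ℕ × ℕ))) :=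
  [[[],
    [(62,5)],
    [(62,10)],
    [(62,10)],
    [(62,5)],
    [(62,1)]],
   [[(62,1)],
    [(62,5)],
    [(62,10)],
    [(62,10)],
    [(62,5)],
    [(62,1)]],
   [[(62,1)],
    [(63,5)],
    [(63,10)],
    [(63,10)],
    [(63,5)],
    [(63,1)]],
   [[(63,1)],
    [(63,5)],
    [(63,10)],
    [(63,10)],
    [(63,5)],
    [(63,1)]]]
def cert5_2_m63 : List (List (List (ℕ × ℕ))) :=
  [[[],
    [(63,5)],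
    [(63,10)],
    [(63,10)],
    [(63,5)],
    [(63,1)]],
   [[(63,1)],
    [(63,5)],
    [(63,10)],
    [(63,10)],
    [(63,5)],
    [(63,1)]],
   [[(63,1)],
    [(63,5)],
    [(63,10)],
    [(63,10)],
    [(63,5)],
    [(63,1)]],
   [[(63,1)],
    [(63,5)],
    [(63,10)],
    [(63,10)],
    [(63,5)],
    [(63,1)]]]
def cert5_2_M0 : List (List (List (List (ℕ × ℕ)))) :=
  [cert5_2_m0, cert5_2_m1, cert5_2_m2, cert5_2_m3, cert5_2_m4, cert5_2_m5, cert5_2_m6, cert5_2_m7]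

def cert5_2_M1 : List (List (List (List (ℕ × ℕ)))) :=
  [cert5_2_m8, cert5_2_m9, cert5_2_m10, cert5_2_m11, cert5_2_m12, cert5_2_m13, cert5_2_m14, cert5_2_m15]

def cert5_2_M2 : List (List (List (List (ℕ × ℕ)))) :=
  [cert5_2_m16, cert5_2_m17, cert5_2_m18, cert5_2_m19, cert5_2_m20, cert5_2_m21, cert5_2_m22, cert5_2_m23]

def cert5_2_M3 : List (List (List (List (ℕ × ℕ)))) :=
  [cert5_2_m24, cert5_2_m25, cert5_2_m26, cert5_2_m27, cert5_2_m28, cert5_2_m29, cert5_2_m30, cert5_2_m31]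

def cert5_2_M4 : List (List (List (List (ℕ × ℕ)))) :=
  [cert5_2_m32, cert5_2_m33, cert5_2_m34, cert5_2_m35, cert5_2_m36, cert5_2_m37, cert5_2_m38, cert5_2_m39]

def cert5_2_M5 : List (List (List (List (ℕ × ℕ)))) :=
  [cert5_2_m40, cert5_2_m41, cert5_2_m42, cert5_2_m43, cert5_2_m44, cert5_2_m45, cert5_2_m46, cert5_2_m47]

def cert5_2_M6 : List (List (List (List (ℕ × ℕ)))) :=
  [cert5_2_m48, cert5_2_m49, cert5_2_m50, cert5_2_m51, cert5_2_m52, cert5_2_m53, cert5_2_m54, cert5_2_m55]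

def cert5_2_M7 : List (List (List (List (ℕ × ℕ)))) :=
  [cert5_2_m56, cert5_2_m57, cert5_2_m58, cert5_2_m59, cert5_2_m60, cert5_2_m61, cert5_2_m62, cert5_2_m63]

def cert5_2_rows : List (List ℕ) := cert5_2_R0 ++ (cert5_2_R1 ++ (cert5_2_R2 ++ (cert5_2_R3 ++ (cert5_2_R4 ++ (cert5_2_R5 ++ (cert5_2_R6 ++ (cert5_2_R7)))))))

/-- the certificate -/
def cert5_2 : Cert where
  types := cert5_2_types
  rows := cert5_2_rows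
  mul := cert5_2_M0 ++ (cert5_2_M1 ++ (cert5_2_M2 ++ (cert5_2_M3 ++ (cert5_2_M4 ++ (cert5_2_M5 ++ (cert5_2_M6 ++ (cert5_2_M7)))))))

theorem cert5_2_c0 : cf_rows cert5_2_rows (List.replicate 64 0) cert5_2_tab cert5_2_R0 cert5_2_M0 = true := by
  decide +kernel

theorem cert5_2_c1 : cf_rows cert5_2_rows (List.replicate 64 0) cert5_2_tab cert5_2_R1 cert5_2_M1 = true := by
  decide +kernel

theorem cert5_2_c2 : cf_rows cert5_2_rows (List.replicate 64 0) cert5_2_tab cert5_2_R2 cert5_2_M2 = true := by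
  decide +kernel

theorem cert5_2_c3 : cf_rows cert5_2_rows (List.replicate 64 0) cert5_2_tab cert5_2_R3 cert5_2_M3 = true := by
  decide +kernel

theorem cert5_2_c4 : cf_rows cert5_2_rows (List.replicate 64 0) cert5_2_tab cert5_2_R4 cert5_2_M4 = true := by
  decide +kernel

theorem cert5_2_c5 : cf_rows cert5_2_rows (List.replicate 64 0) cert5_2_tab cert5_2_R5 cert5_2_M5 = true := by
  decide +kernel

theorem cert5_2_c6 : cf_rows cert5_2_rows (List.replicate 64 0) cert5_2_tab cert5_2_R6 cert5_2_M6 = true := by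
  decide +kernel

theorem cert5_2_c7 : cf_rows cert5_2_rows (List.replicate 64 0) cert5_2_tab cert5_2_R7 cert5_2_M7 = true := by
  decide +kernel

theorem cert5_2_all : cf_rows cert5_2_rows (List.replicate 64 0) cert5_2_tab cert5_2.rows cert5_2.mul = true :=
  (cf_rows_append _ _ _ _ _ _ _ cert5_2_c0 (cf_rows_append _ _ _ _ _ _ _ cert5_2_c1 (cf_rows_append _ _ _ _ _ _ _ cert5_2_c2 (cf_rows_append _ _ _ _ _ _ _ cert5_2_c3 (cf_rows_append _ _ _ _ _ _ _ cert5_2_c4 (cf_rows_append _ _ _ _ _ _ _ cert5_2_c5 (cf_rows_append _ _ _ _ _ _ _ cert5_2_c6 cert5_2_c7)))))))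

theorem cert5_2_basic : cf_basic 5 cert5_2 = true := by decide +kernel

theorem cert5_2_tabok : cert5_2_tab = (List.range (2 ^ 2)).map fun T => (List.range (5 + 1)).map fun j =>
    cert5_2.types.map (nJ 2 j T) := by decide +kernel

theorem cert5_2_ok : certOK 5 2 cert5_2 = true :=
  certOK_of 5 2 64 cert5_2 cert5_2_tab (by decide +kernel) cert5_2_basic cert5_2_tabok cert5_2_all

end Pool.Agent.H34R2.U
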