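import Pool.Agent.H34R2.U.CFast

/-! certificate data (generated) -/

set_option autoImplicit false
set_option maxRecDepth 100000

namespace Pool.Agent.H34R2.U

def cert6_0_types : List Ty :=
  [[(0,1),(0,1),(0,1),(0,1),(0,1),(0,1)],
   [(0,1),(0,1),(0,1),(0,1),(0,2)],
   [(0,1),(0,1),(0,1),(0,3)],
   [(0,1),(0,1),(0,2),(0,2)],
   [(0,1),(0,1),(0,4)],
   [(0,1),(0,2),(0,3)],
   [(0,2),(0,2),(0,2)],
   [(0,1),(0,5)],
   [(0,2),(0,4)],
   [(0,3),(0,3)],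
   [(0,6)]]

def cert6_0_tab : List (List (List ℕ)) :=
  [[[6,5,4,4,3,3,3,2,2,2,1],
    [6,6,6,6,6,6,6,6,6,6,6],
    [0,1,3,2,6,4,3,10,7,6,15],
    [0,0,1,0,4,1,0,10,4,2,20],
    [0,0,0,0,1,0,0,5,1,0,15],
    [0,0,0,0,0,0,0,1,0,0,6],
    [0,0,0,0,0,0,0,0,0,0,1]]]

def cert6_0_R0 : List (List ℕ) :=
  [[1,1,1,1,1,1,1,1,1,1,1],
   [0,1,3,2,6,4,3,10,7,6,15],
   [0,0,1,0,4,1,0,10,4,2,20],
   [0,0,0,1,3,3,3,15,9,9,45],
   [0,0,0,0,1,0,0,5,1,0,15],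
   [0,0,0,0,0,1,0,10,4,6,60],
   [0,0,0,0,0,0,1,0,3,0,15],
   [0,0,0,0,0,0,0,1,0,0,6],
   [0,0,0,0,0,0,0,0,1,0,15],
   [0,0,0,0,0,0,0,0,0,1,10],
   [0,0,0,0,0,0,0,0,0,0,1]]

def cert6_0_m0 : List (List (List (ℕ × ℕ))) :=
  [[[],
    [(0,6)],
    [(1,1)],
    [(2,1)],
    [(4,1)],
    [(7,1)],
    [(10,1)]]]
def cert6_0_m1 : List (List (List (ℕ × ℕ))) :=
  [[[],
    [(1,6)],
    [(1,1),(2,6),(3,2)],
    [(2,3),(4,12),(5,1)],
    [(4,6),(7,20),(8,1)],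
    [(7,10),(10,30)],
    [(10,15)]]]
def cert6_0_m2 : List (List (List (ℕ × ℕ))) :=
  [[[],
    [(2,6)],
    [(2,3),(4,12),(5,1)],
    [(2,1),(4,12),(7,30),(9,2)],
    [(4,4),(7,30),(10,60)],
    [(7,10),(10,60)],
    [(10,20)]]]
def cert6_0_m3 : List (List (List (ℕ × ℕ))) :=
  [[[],
    [(3,6)],
    [(3,2),(4,12),(5,6),(6,3)],
    [(4,12),(5,3),(7,60),(8,12)],
    [(4,3),(7,60),(8,6),(10,180)],
    [(7,15),(10,180)],
    [(10,45)]]]
def cert6_0_m4 : List (List (List (ℕ × ℕ))) :=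
  [[[],
    [(4,6)],
    [(4,6),(7,20),(8,1)],
    [(4,4),(7,30),(10,60)],
    [(4,1),(7,20),(10,90)],
    [(7,5),(10,60)],
    [(10,15)]]]
def cert6_0_m5 : List (List (List (ℕ × ℕ))) :=
  [[[],
    [(5,6)],
    [(5,4),(7,60),(8,12),(9,12)],
    [(5,1),(7,90),(8,12),(9,6),(10,360)],
    [(7,50),(8,4),(10,540)],
    [(7,10),(10,300)],
    [(10,60)]]]
def cert6_0_m6 : List (List (List (ℕ × ℕ))) :=
  [[[],
    [(6,6)],
    [(6,3),(8,12)],
    [(8,12),(10,120)],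
    [(8,3),(10,180)],
    [(10,90)],
    [(10,15)]]]
def cert6_0_m7 : List (List (List (ℕ × ℕ))) :=
  [[[],
    [(7,6)],
    [(7,10),(10,30)],
    [(7,10),(10,60)],
    [(7,5),(10,60)],
    [(7,1),(10,30)],
    [(10,6)]]]
def cert6_0_m8 : List (List (List (ℕ × ℕ))) :=
  [[[],
    [(8,6)],
    [(8,7),(10,120)],
    [(8,4),(10,240)],
    [(8,1),(10,210)],
    [(10,90)],
    [(10,15)]]]
def cert6_0_m9 : List (List (List (ℕ × ℕ))) :=
  [[[],
    [(9,6)],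
    [(9,6),(10,90)],
    [(9,2),(10,180)],
    [(10,150)],
    [(10,60)],
    [(10,10)]]]
def cert6_0_m10 : List (List (List (ℕ × ℕ))) :=
  [[[],
    [(10,6)],
    [(10,15)],
    [(10,20)],
    [(10,15)],
    [(10,6)],
    [(10,1)]]]
def cert6_0_M0 : List (List (List (List (ℕ × ℕ)))) :=
  [cert6_0_m0, cert6_0_m1, cert6_0_m2, cert6_0_m3, cert6_0_m4, cert6_0_m5, cert6_0_m6, cert6_0_m7, cert6_0_m8, cert6_0_m9, cert6_0_m10]

def cert6_0_rows : List (List ℕ) := cert6_0_R0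

/-- the certificate -/
def cert6_0 : Cert where
  types := cert6_0_types
  rows := cert6_0_rows
  mul := cert6_0_M0

theorem cert6_0_c0 : cf_rows cert6_0_rows (List.replicate 11 0) cert6_0_tab cert6_0_R0 cert6_0_M0 = true := by
  decide +kernel

theorem cert6_0_all : cf_rows cert6_0_rows (List.replicate 11 0) cert6_0_tab cert6_0.rows cert6_0.mul = true :=
  cert6_0_c0

theorem cert6_0_basic : cf_basic 6 cert6_0 = true := by decide +kernel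

theorem cert6_0_tabok : cert6_0_tab = (List.range (2 ^ 0)).map fun T => (List.range (6 + 1)).map fun j =>
    cert6_0.types.map (nJ 0 j T) := by decide +kernel

theorem cert6_0_ok : certOK 6 0 cert6_0 = true :=
  certOK_of 6 0 11 cert6_0 cert6_0_tab (by decide +kernel) cert6_0_basic cert6_0_tabok cert6_0_all

end Pool.Agent.H34R2.U
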