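import Pool.Agent.H34R2.U.CFast

/-! certificate data (generated) -/

set_option autoImplicit false
set_option maxRecDepth 100000

namespace Pool.Agent.H34R2.U

def cert7_0_types : List Ty :=
  [[(0,1),(0,1),(0,1),(0,1),(0,1),(0,1),(0,1)],
   [(0,1),(0,1),(0,1),(0,1),(0,1),(0,2)],
   [(0,1),(0,1),(0,1),(0,1),(0,3)],
   [(0,1),(0,1),(0,1),(0,2),(0,2)],
   [(0,1),(0,1),(0,1),(0,4)],
   [(0,1),(0,1),(0,2),(0,3)],
   [(0,1),(0,2),(0,2),(0,2)],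
   [(0,1),(0,1),(0,5)],
   [(0,1),(0,2),(0,4)],
   [(0,1),(0,3),(0,3)],
   [(0,2),(0,2),(0,3)],
   [(0,1),(0,6)],
   [(0,2),(0,5)],
   [(0,3),(0,4)],
   [(0,7)]]

def cert7_0_tab : List (List (List ℕ)) :=
  [[[7,6,5,5,4,4,4,3,3,3,3,2,2,2,1],
    [7,7,7,7,7,7,7,7,7,7,7,7,7,7,7],
    [0,1,3,2,6,4,3,10,7,6,5,15,11,9,21],
    [0,0,1,0,4,1,0,10,4,2,1,20,10,5,35],
    [0,0,0,0,1,0,0,5,1,0,0,15,5,1,35],
    [0,0,0,0,0,0,0,1,0,0,0,6,1,0,21],
    [0,0,0,0,0,0,0,0,0,0,0,1,0,0,7],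
    [0,0,0,0,0,0,0,0,0,0,0,0,0,0,1]]]

def cert7_0_R0 : List (List ℕ) :=
  [[1,1,1,1,1,1,1,1,1,1,1,1,1,1,1],
   [0,1,3,2,6,4,3,10,7,6,5,15,11,9,21],
   [0,0,1,0,4,1,0,10,4,2,1,20,10,5,35],
   [0,0,0,1,3,3,3,15,9,9,7,45,25,21,105],
   [0,0,0,0,1,0,0,5,1,0,0,15,5,1,35],
   [0,0,0,0,0,1,0,10,4,6,2,60,20,18,210],
   [0,0,0,0,0,0,1,0,3,0,3,15,15,9,105],
   [0,0,0,0,0,0,0,1,0,0,0,6,1,0,21],
   [0,0,0,0,0,0,0,0,1,0,0,15,5,3,105],
   [0,0,0,0,0,0,0,0,0,1,0,10,0,4,70],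
   [0,0,0,0,0,0,0,0,0,0,1,0,10,3,105],
   [0,0,0,0,0,0,0,0,0,0,0,1,0,0,7],
   [0,0,0,0,0,0,0,0,0,0,0,0,1,0,21],
   [0,0,0,0,0,0,0,0,0,0,0,0,0,1,35],
   [0,0,0,0,0,0,0,0,0,0,0,0,0,0,1]]

def cert7_0_m0 : List (List (List (ℕ × ℕ))) :=
  [[[],
    [(0,7)],
    [(1,1)],
    [(2,1)],
    [(4,1)],
    [(7,1)],
    [(11,1)],
    [(14,1)]]]
def cert7_0_m1 : List (List (List (ℕ × ℕ))) :=
  [[[],
    [(1,7)],
    [(1,1),(2,6),(3,2)],
    [(2,3),(4,12),(5,1)],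
    [(4,6),(7,20),(8,1)],
    [(7,10),(11,30),(12,1)],
    [(11,15),(14,42)],
    [(14,21)]]]
def cert7_0_m2 : List (List (List (ℕ × ℕ))) :=
  [[[],
    [(2,7)],
    [(2,3),(4,12),(5,1)],
    [(2,1),(4,12),(7,30),(9,2)],
    [(4,4),(7,30),(11,60),(13,1)],
    [(7,10),(11,60),(14,105)],
    [(11,20),(14,105)],
    [(14,35)]]]
def cert7_0_m3 : List (List (List (ℕ × ℕ))) :=
  [[[],
    [(3,7)],
    [(3,2),(4,12),(5,6),(6,3)],
    [(4,12),(5,3),(7,60),(8,12),(10,1)],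
    [(4,3),(7,60),(8,6),(11,180),(12,20)],
    [(7,15),(11,180),(12,10),(14,420)],
    [(11,45),(14,420)],
    [(14,105)]]]
def cert7_0_m4 : List (List (List (ℕ × ℕ))) :=
  [[[],
    [(4,7)],
    [(4,6),(7,20),(8,1)],
    [(4,4),(7,30),(11,60),(13,1)],
    [(4,1),(7,20),(11,90),(14,140)],
    [(7,5),(11,60),(14,210)],
    [(11,15),(14,140)],
    [(14,35)]]]
def cert7_0_m5 : List (List (List (ℕ × ℕ))) :=
  [[[],
    [(5,7)],
    [(5,4),(7,60),(8,12),(9,12),(10,2)],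
    [(5,1),(7,90),(8,12),(9,6),(11,360),(12,30),(13,12)],
    [(7,50),(8,4),(11,540),(12,30),(13,6),(14,1260)],
    [(7,10),(11,300),(12,10),(14,1890)],
    [(11,60),(14,1050)],
    [(14,210)]]]
def cert7_0_m6 : List (List (List (ℕ × ℕ))) :=
  [[[],
    [(6,7)],
    [(6,3),(8,12),(10,6)],
    [(8,12),(10,3),(11,120),(12,60)],
    [(8,3),(11,180),(12,60),(14,840)],
    [(11,90),(12,15),(14,1260)],
    [(11,15),(14,630)],
    [(14,105)]]]
def cert7_0_m7 : List (List (List (ℕ × ℕ))) :=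
  [[[],
    [(7,7)],
    [(7,10),(11,30),(12,1)],
    [(7,10),(11,60),(14,105)],
    [(7,5),(11,60),(14,210)],
    [(7,1),(11,30),(14,210)],
    [(11,6),(14,105)],
    [(14,21)]]]
def cert7_0_m8 : List (List (List (ℕ × ℕ))) :=
  [[[],
    [(8,7)],
    [(8,7),(11,120),(12,20),(13,6)],
    [(8,4),(11,240),(12,30),(13,3),(14,840)],
    [(8,1),(11,210),(12,20),(14,1680)],
    [(11,90),(12,5),(14,1470)],
    [(11,15),(14,630)],
    [(14,105)]]]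
def cert7_0_m9 : List (List (List (ℕ × ℕ))) :=
  [[[],
    [(9,7)],
    [(9,6),(11,90),(13,12)],
    [(9,2),(11,180),(13,12),(14,630)],
    [(11,150),(13,4),(14,1260)],
    [(11,60),(14,1050)],
    [(11,10),(14,420)],
    [(14,70)]]]
def cert7_0_m10 : List (List (List (ℕ × ℕ))) :=
  [[[],
    [(10,7)],
    [(10,5),(12,60),(13,12)],
    [(10,1),(12,90),(13,12),(14,1260)],
    [(12,50),(13,3),(14,2520)],
    [(12,10),(14,1995)],
    [(14,735)],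
    [(14,105)]]]
def cert7_0_m11 : List (List (List (ℕ × ℕ))) :=
  [[[],
    [(11,7)],
    [(11,15),(14,42)],
    [(11,20),(14,105)],
    [(11,15),(14,140)],
    [(11,6),(14,105)],
    [(11,1),(14,42)],
    [(14,7)]]]
def cert7_0_m12 : List (List (List (ℕ × ℕ))) :=
  [[[],
    [(12,7)],
    [(12,11),(14,210)],
    [(12,10),(14,525)],
    [(12,5),(14,630)],
    [(12,1),(14,420)],
    [(14,147)],
    [(14,21)]]]
def cert7_0_m13 : List (List (List (ℕ × ℕ))) :=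
  [[[],
    [(13,7)],
    [(13,9),(14,420)],
    [(13,5),(14,1050)],
    [(13,1),(14,1190)],
    [(14,735)],
    [(14,245)],
    [(14,35)]]]
def cert7_0_m14 : List (List (List (ℕ × ℕ))) :=
  [[[],
    [(14,7)],
    [(14,21)],
    [(14,35)],
    [(14,35)],
    [(14,21)],
    [(14,7)],
    [(14,1)]]]
def cert7_0_M0 : List (List (List (List (ℕ × ℕ)))) :=
  [cert7_0_m0, cert7_0_m1, cert7_0_m2, cert7_0_m3, cert7_0_m4, cert7_0_m5, cert7_0_m6, cert7_0_m7, cert7_0_m8, cert7_0_m9, cert7_0_m10, cert7_0_m11, cert7_0_m12, cert7_0_m13, cert7_0_m14]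

def cert7_0_rows : List (List ℕ) := cert7_0_R0

/-- the certificate -/
def cert7_0 : Cert where
  types := cert7_0_types
  rows := cert7_0_rows
  mul := cert7_0_M0

theorem cert7_0_c0 : cf_rows cert7_0_rows (List.replicate 15 0) cert7_0_tab cert7_0_R0 cert7_0_M0 = true := by
  decide +kernel

theorem cert7_0_all : cf_rows cert7_0_rows (List.replicate 15 0) cert7_0_tab cert7_0.rows cert7_0.mul = true :=
  cert7_0_c0

theorem cert7_0_basic : cf_basic 7 cert7_0 = true := by decide +kernel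

theorem cert7_0_tabok : cert7_0_tab = (List.range (2 ^ 0)).map fun T => (List.range (7 + 1)).map fun j =>
    cert7_0.types.map (nJ 0 j T) := by decide +kernel

theorem cert7_0_ok : certOK 7 0 cert7_0 = true :=
  certOK_of 7 0 15 cert7_0 cert7_0_tab (by decide +kernel) cert7_0_basic cert7_0_tabok cert7_0_all

end Pool.Agent.H34R2.U
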