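import Pool.Agent.H34R2.U.CFast

/-! certificate data (generated) -/

set_option autoImplicit false
set_option maxRecDepth 100000

namespace Pool.Agent.H34R2.U

def cert7_1_types : List Ty :=
  [[(0,1),(0,1),(0,1),(0,1),(0,1),(0,1),(0,1),(1,0)],
   [(0,1),(0,1),(0,1),(0,1),(0,1),(0,1),(1,1)],
   [(0,1),(0,1),(0,1),(0,1),(0,1),(0,2),(1,0)],
   [(0,1),(0,1),(0,1),(0,1),(0,1),(1,2)],
   [(0,1),(0,1),(0,1),(0,1),(0,2),(1,1)],
   [(0,1),(0,1),(0,1),(0,1),(0,3),(1,0)],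
   [(0,1),(0,1),(0,1),(0,2),(0,2),(1,0)],
   [(0,1),(0,1),(0,1),(0,1),(1,3)],
   [(0,1),(0,1),(0,1),(0,2),(1,2)],
   [(0,1),(0,1),(0,1),(0,3),(1,1)],
   [(0,1),(0,1),(0,1),(0,4),(1,0)],
   [(0,1),(0,1),(0,2),(0,2),(1,1)],
   [(0,1),(0,1),(0,2),(0,3),(1,0)],
   [(0,1),(0,2),(0,2),(0,2),(1,0)],
   [(0,1),(0,1),(0,1),(1,4)],
   [(0,1),(0,1),(0,2),(1,3)],
   [(0,1),(0,1),(0,3),(1,2)],
   [(0,1),(0,1),(0,4),(1,1)],
   [(0,1),(0,1),(0,5),(1,0)],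
   [(0,1),(0,2),(0,2),(1,2)],
   [(0,1),(0,2),(0,3),(1,1)],
   [(0,1),(0,2),(0,4),(1,0)],
   [(0,1),(0,3),(0,3),(1,0)],
   [(0,2),(0,2),(0,2),(1,1)],
   [(0,2),(0,2),(0,3),(1,0)],
   [(0,1),(0,1),(1,5)],
   [(0,1),(0,2),(1,4)],
   [(0,1),(0,3),(1,3)],
   [(0,1),(0,4),(1,2)],
   [(0,1),(0,5),(1,1)],
   [(0,1),(0,6),(1,0)],
   [(0,2),(0,2),(1,3)],
   [(0,2),(0,3),(1,2)],
   [(0,2),(0,4),(1,1)],
   [(0,2),(0,5),(1,0)],
   [(0,3),(0,3),(1,1)],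
   [(0,3),(0,4),(1,0)],
   [(0,1),(1,6)],
   [(0,2),(1,5)],
   [(0,3),(1,4)],
   [(0,4),(1,3)],
   [(0,5),(1,2)],
   [(0,6),(1,1)],
   [(0,7),(1,0)],
   [(1,7)]]

def cert7_1_tab : List (List (List ℕ)) :=
  [[[8,7,7,6,6,6,6,5,5,5,5,5,5,5,4,4,4,4,4,4,4,4,4,4,4,3,3,3,3,3,3,3,3,3,3,3,3,2,2,2,2,2,2,2,1],
    [7,7,7,7,7,7,7,7,7,7,7,7,7,7,7,7,7,7,7,7,7,7,7,7,7,7,7,7,7,7,7,7,7,7,7,7,7,7,7,7,7,7,7,7,7],
    [0,0,1,1,1,3,2,3,2,3,6,2,4,3,6,4,4,6,10,3,4,7,6,3,5,10,7,6,7,10,15,5,5,7,11,6,9,15,11,9,9,11,15,21,21],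
    [0,0,0,0,0,1,0,1,0,1,4,0,1,0,4,1,1,4,10,0,1,4,2,0,1,10,4,2,4,10,20,1,1,4,10,2,5,20,10,5,5,10,20,35,35],
    [0,0,0,0,0,0,0,0,0,0,1,0,0,0,1,0,0,1,5,0,0,1,0,0,0,5,1,0,1,5,15,0,0,1,5,0,1,15,5,1,1,5,15,35,35],
    [0,0,0,0,0,0,0,0,0,0,0,0,0,0,0,0,0,0,1,0,0,0,0,0,0,1,0,0,0,1,6,0,0,0,1,0,0,6,1,0,0,1,6,21,21],
    [0,0,0,0,0,0,0,0,0,0,0,0,0,0,0,0,0,0,0,0,0,0,0,0,0,0,0,0,0,0,1,0,0,0,0,0,0,1,0,0,0,0,1,7,7],
    [0,0,0,0,0,0,0,0,0,0,0,0,0,0,0,0,0,0,0,0,0,0,0,0,0,0,0,0,0,0,0,0,0,0,0,0,0,0,0,0,0,0,0,1,1]],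
   [[1,1,1,1,1,1,1,1,1,1,1,1,1,1,1,1,1,1,1,1,1,1,1,1,1,1,1,1,1,1,1,1,1,1,1,1,1,1,1,1,1,1,1,1,1],
    [0,1,0,2,1,0,0,3,2,1,0,1,0,0,4,3,2,1,0,2,1,0,0,1,0,5,4,3,2,1,0,3,2,1,0,1,0,6,5,4,3,2,1,0,7],
    [0,0,0,1,0,0,0,3,1,0,0,0,0,0,6,3,1,0,0,1,0,0,0,0,0,10,6,3,1,0,0,3,1,0,0,0,0,15,10,6,3,1,0,0,21],
    [0,0,0,0,0,0,0,1,0,0,0,0,0,0,4,1,0,0,0,0,0,0,0,0,0,10,4,1,0,0,0,1,0,0,0,0,0,20,10,4,1,0,0,0,35],
    [0,0,0,0,0,0,0,0,0,0,0,0,0,0,1,0,0,0,0,0,0,0,0,0,0,5,1,0,0,0,0,0,0,0,0,0,0,15,5,1,0,0,0,0,35],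
    [0,0,0,0,0,0,0,0,0,0,0,0,0,0,0,0,0,0,0,0,0,0,0,0,0,1,0,0,0,0,0,0,0,0,0,0,0,6,1,0,0,0,0,0,21],
    [0,0,0,0,0,0,0,0,0,0,0,0,0,0,0,0,0,0,0,0,0,0,0,0,0,0,0,0,0,0,0,0,0,0,0,0,0,1,0,0,0,0,0,0,7],
    [0,0,0,0,0,0,0,0,0,0,0,0,0,0,0,0,0,0,0,0,0,0,0,0,0,0,0,0,0,0,0,0,0,0,0,0,0,0,0,0,0,0,0,0,1]]]

def cert7_1_R0 : List (List ℕ) :=
  [[1,1,1,1,1,1,1,1,1,1,1,1,1,1,1,1,1,1,1,1,1,1,1,1,1,1,1,1,1,1,1,1,1,1,1,1,1,1,1,1,1,1,1,1,1],
   [0,1,0,2,1,0,0,3,2,1,0,1,0,0,4,3,2,1,0,2,1,0,0,1,0,5,4,3,2,1,0,3,2,1,0,1,0,6,5,4,3,2,1,0,7],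
   [0,0,1,1,1,3,2,3,2,3,6,2,4,3,6,4,4,6,10,3,4,7,6,3,5,10,7,6,7,10,15,5,5,7,11,6,9,15,11,9,9,11,15,21,21],
   [0,0,0,1,0,0,0,3,1,0,0,0,0,0,6,3,1,0,0,1,0,0,0,0,0,10,6,3,1,0,0,3,1,0,0,0,0,15,10,6,3,1,0,0,21],
   [0,0,0,0,1,0,0,3,2,3,0,2,0,0,12,6,6,6,0,4,4,0,0,3,0,30,16,12,12,10,0,9,8,7,0,6,0,60,35,24,21,20,15,0,105],
   [0,0,0,0,0,1,0,1,0,1,4,0,1,0,4,1,1,4,10,0,1,4,2,0,1,10,4,2,4,10,20,1,1,4,10,2,5,20,10,5,5,10,20,35,35],
   [0,0,0,0,0,0,1,0,1,0,3,1,3,3,3,3,3,3,15,3,3,9,9,3,7,15,9,9,9,15,45,7,7,9,25,9,21,45,25,21,21,25,45,105,105],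
   [0,0,0,0,0,0,0,1,0,0,0,0,0,0,4,1,0,0,0,0,0,0,0,0,0,10,4,1,0,0,0,1,0,0,0,0,0,20,10,4,1,0,0,0,35],
   [0,0,0,0,0,0,0,0,1,0,0,0,0,0,6,3,3,0,0,2,0,0,0,0,0,30,12,9,6,0,0,6,4,0,0,0,0,90,40,24,18,10,0,0,210],
   [0,0,0,0,0,0,0,0,0,1,0,0,0,0,4,0,2,4,0,0,1,0,0,0,0,20,4,3,8,10,0,0,2,4,0,2,0,60,20,8,12,20,20,0,140],
   [0,0,0,0,0,0,0,0,0,0,1,0,0,0,1,0,0,1,5,0,0,1,0,0,0,5,1,0,1,5,15,0,0,1,5,0,1,15,5,1,1,5,15,35,35],
   [0,0,0,0,0,0,0,0,0,0,0,1,0,0,0,3,0,3,0,2,3,0,0,3,0,15,12,9,6,15,0,9,6,9,0,9,0,90,45,36,27,30,45,0,315]]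

def cert7_1_R1 : List (List ℕ) :=
  [[0,0,0,0,0,0,0,0,0,0,0,0,1,0,0,1,1,0,10,0,1,4,6,0,2,10,4,6,4,10,60,2,2,4,20,6,18,60,20,18,18,20,60,210,210],
   [0,0,0,0,0,0,0,0,0,0,0,0,0,1,0,0,0,0,0,1,0,3,0,1,3,0,3,0,3,0,15,3,3,3,15,0,9,15,15,9,9,15,15,105,105],
   [0,0,0,0,0,0,0,0,0,0,0,0,0,0,1,0,0,0,0,0,0,0,0,0,0,5,1,0,0,0,0,0,0,0,0,0,0,15,5,1,0,0,0,0,35],
   [0,0,0,0,0,0,0,0,0,0,0,0,0,0,0,1,0,0,0,0,0,0,0,0,0,10,4,3,0,0,0,2,0,0,0,0,0,60,20,12,6,0,0,0,210],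
   [0,0,0,0,0,0,0,0,0,0,0,0,0,0,0,0,1,0,0,0,0,0,0,0,0,10,0,3,4,0,0,0,1,0,0,0,0,60,10,6,12,10,0,0,210],
   [0,0,0,0,0,0,0,0,0,0,0,0,0,0,0,0,0,1,0,0,0,0,0,0,0,5,0,0,2,5,0,0,0,1,0,0,0,30,5,0,3,10,15,0,105],
   [0,0,0,0,0,0,0,0,0,0,0,0,0,0,0,0,0,0,1,0,0,0,0,0,0,1,0,0,0,1,6,0,0,0,1,0,0,6,1,0,0,1,6,21,21],
   [0,0,0,0,0,0,0,0,0,0,0,0,0,0,0,0,0,0,0,1,0,0,0,0,0,0,6,0,3,0,0,3,3,0,0,0,0,45,30,18,9,15,0,0,315],
   [0,0,0,0,0,0,0,0,0,0,0,0,0,0,0,0,0,0,0,0,1,0,0,0,0,0,4,3,0,10,0,0,2,4,0,6,0,60,20,24,12,20,60,0,420],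
   [0,0,0,0,0,0,0,0,0,0,0,0,0,0,0,0,0,0,0,0,0,1,0,0,0,0,1,0,1,0,15,0,0,1,5,0,3,15,5,3,3,5,15,105,105],
   [0,0,0,0,0,0,0,0,0,0,0,0,0,0,0,0,0,0,0,0,0,0,1,0,0,0,0,1,0,0,10,0,0,0,0,1,4,10,0,4,4,0,10,70,70],
   [0,0,0,0,0,0,0,0,0,0,0,0,0,0,0,0,0,0,0,0,0,0,0,1,0,0,0,0,0,0,0,3,0,3,0,0,0,0,15,0,9,0,15,0,105]]

def cert7_1_R2 : List (List ℕ) :=
  [[0,0,0,0,0,0,0,0,0,0,0,0,0,0,0,0,0,0,0,0,0,0,0,0,1,0,0,0,0,0,0,1,1,0,10,0,3,0,10,3,3,10,0,105,105],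
   [0,0,0,0,0,0,0,0,0,0,0,0,0,0,0,0,0,0,0,0,0,0,0,0,0,1,0,0,0,0,0,0,0,0,0,0,0,6,1,0,0,0,0,0,21],
   [0,0,0,0,0,0,0,0,0,0,0,0,0,0,0,0,0,0,0,0,0,0,0,0,0,0,1,0,0,0,0,0,0,0,0,0,0,15,5,3,0,0,0,0,105],
   [0,0,0,0,0,0,0,0,0,0,0,0,0,0,0,0,0,0,0,0,0,0,0,0,0,0,0,1,0,0,0,0,0,0,0,0,0,20,0,4,4,0,0,0,140],
   [0,0,0,0,0,0,0,0,0,0,0,0,0,0,0,0,0,0,0,0,0,0,0,0,0,0,0,0,1,0,0,0,0,0,0,0,0,15,0,0,3,5,0,0,105],
   [0,0,0,0,0,0,0,0,0,0,0,0,0,0,0,0,0,0,0,0,0,0,0,0,0,0,0,0,0,1,0,0,0,0,0,0,0,6,0,0,0,2,6,0,42],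
   [0,0,0,0,0,0,0,0,0,0,0,0,0,0,0,0,0,0,0,0,0,0,0,0,0,0,0,0,0,0,1,0,0,0,0,0,0,1,0,0,0,0,1,7,7],
   [0,0,0,0,0,0,0,0,0,0,0,0,0,0,0,0,0,0,0,0,0,0,0,0,0,0,0,0,0,0,0,1,0,0,0,0,0,0,10,0,3,0,0,0,105],
   [0,0,0,0,0,0,0,0,0,0,0,0,0,0,0,0,0,0,0,0,0,0,0,0,0,0,0,0,0,0,0,0,1,0,0,0,0,0,10,6,0,10,0,0,210],
   [0,0,0,0,0,0,0,0,0,0,0,0,0,0,0,0,0,0,0,0,0,0,0,0,0,0,0,0,0,0,0,0,0,1,0,0,0,0,5,0,3,0,15,0,105],
   [0,0,0,0,0,0,0,0,0,0,0,0,0,0,0,0,0,0,0,0,0,0,0,0,0,0,0,0,0,0,0,0,0,0,1,0,0,0,1,0,0,1,0,21,21],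
   [0,0,0,0,0,0,0,0,0,0,0,0,0,0,0,0,0,0,0,0,0,0,0,0,0,0,0,0,0,0,0,0,0,0,0,1,0,0,0,4,0,0,10,0,70]]

def cert7_1_R3 : List (List ℕ) :=
  [[0,0,0,0,0,0,0,0,0,0,0,0,0,0,0,0,0,0,0,0,0,0,0,0,0,0,0,0,0,0,0,0,0,0,0,0,1,0,0,1,1,0,0,35,35],
   [0,0,0,0,0,0,0,0,0,0,0,0,0,0,0,0,0,0,0,0,0,0,0,0,0,0,0,0,0,0,0,0,0,0,0,0,0,1,0,0,0,0,0,0,7],
   [0,0,0,0,0,0,0,0,0,0,0,0,0,0,0,0,0,0,0,0,0,0,0,0,0,0,0,0,0,0,0,0,0,0,0,0,0,0,1,0,0,0,0,0,21],
   [0,0,0,0,0,0,0,0,0,0,0,0,0,0,0,0,0,0,0,0,0,0,0,0,0,0,0,0,0,0,0,0,0,0,0,0,0,0,0,1,0,0,0,0,35],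
   [0,0,0,0,0,0,0,0,0,0,0,0,0,0,0,0,0,0,0,0,0,0,0,0,0,0,0,0,0,0,0,0,0,0,0,0,0,0,0,0,1,0,0,0,35],
   [0,0,0,0,0,0,0,0,0,0,0,0,0,0,0,0,0,0,0,0,0,0,0,0,0,0,0,0,0,0,0,0,0,0,0,0,0,0,0,0,0,1,0,0,21],
   [0,0,0,0,0,0,0,0,0,0,0,0,0,0,0,0,0,0,0,0,0,0,0,0,0,0,0,0,0,0,0,0,0,0,0,0,0,0,0,0,0,0,1,0,7],
   [0,0,0,0,0,0,0,0,0,0,0,0,0,0,0,0,0,0,0,0,0,0,0,0,0,0,0,0,0,0,0,0,0,0,0,0,0,0,0,0,0,0,0,1,1],
   [0,0,0,0,0,0,0,0,0,0,0,0,0,0,0,0,0,0,0,0,0,0,0,0,0,0,0,0,0,0,0,0,0,0,0,0,0,0,0,0,0,0,0,0,1]]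

def cert7_1_m0 : List (List (List (ℕ × ℕ))) :=
  [[[],
    [(0,7)],
    [(2,1)],
    [(5,1)],
    [(10,1)],
    [(18,1)],
    [(30,1)],
    [(43,1)]],
   [[(0,1)],
    [(1,1)],
    [(3,1)],
    [(7,1)],
    [(14,1)],
    [(25,1)],
    [(37,1)],
    [(44,1)]]]
def cert7_1_m1 : List (List (List (ℕ × ℕ))) :=
  [[[],
    [(1,7)],
    [(3,2),(4,1)],
    [(7,3),(9,1)],
    [(14,4),(17,1)],
    [(25,5),(29,1)],
    [(37,6),(42,1)],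
    [(44,7)]],
   [[(1,1)],
    [(1,1),(3,2)],
    [(3,2),(7,3)],
    [(7,3),(14,4)],
    [(14,4),(25,5)],
    [(25,5),(37,6)],
    [(37,6),(44,7)],
    [(44,7)]]]
def cert7_1_m2 : List (List (List (ℕ × ℕ))) :=
  [[[],
    [(2,7)],
    [(2,1),(5,6),(6,2)],
    [(5,3),(10,12),(12,1)],
    [(10,6),(18,20),(21,1)],
    [(18,10),(30,30),(34,1)],
    [(30,15),(43,42)],
    [(43,21)]],
   [[(2,1)],
    [(3,2),(4,1)],
    [(3,1),(7,6),(8,1)],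
    [(7,3),(14,12),(15,1)],
    [(14,6),(25,20),(26,1)],
    [(25,10),(37,30),(38,1)],
    [(37,15),(44,42)],
    [(44,21)]]]
def cert7_1_m3 : List (List (List (ℕ × ℕ))) :=
  [[[],
    [(3,7)],
    [(3,1),(7,6),(8,1)],
    [(7,3),(14,12),(16,1)],
    [(14,6),(25,20),(28,1)],
    [(25,10),(37,30),(41,1)],
    [(37,15),(44,42)],
    [(44,21)]],
   [[(3,1)],
    [(3,2),(7,3)],
    [(3,1),(7,6),(14,6)],
    [(7,3),(14,12),(25,10)],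
    [(14,6),(25,20),(37,15)],
    [(25,10),(37,30),(44,21)],
    [(37,15),(44,42)],
    [(44,21)]]]
def cert7_1_m4 : List (List (List (ℕ × ℕ))) :=
  [[[],
    [(4,7)],
    [(4,1),(7,6),(8,2),(9,6),(11,2)],
    [(7,3),(9,3),(14,24),(15,3),(17,12),(20,1)],
    [(14,12),(17,6),(25,60),(26,4),(29,20),(33,1)],
    [(25,30),(29,10),(37,120),(38,5),(42,30)],
    [(37,60),(42,15),(44,210)],
    [(44,105)]],
   [[(4,1)],
    [(4,1),(7,6),(8,2)],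
    [(7,9),(8,2),(14,24),(15,3)],
    [(7,3),(14,36),(15,3),(25,60),(26,4)],
    [(14,12),(25,90),(26,4),(37,120),(38,5)],
    [(25,30),(37,180),(38,5),(44,210)],
    [(37,60),(44,315)],
    [(44,105)]]]
def cert7_1_m5 : List (List (List (ℕ × ℕ))) :=
  [[[],
    [(5,7)],
    [(5,3),(10,12),(12,1)],
    [(5,1),(10,12),(18,30),(22,2)],
    [(10,4),(18,30),(30,60),(36,1)],
    [(18,10),(30,60),(43,105)],
    [(30,20),(43,105)],
    [(43,35)]],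
   [[(5,1)],
    [(7,3),(9,1)],
    [(7,3),(14,12),(16,1)],
    [(7,1),(14,12),(25,30),(27,1)],
    [(14,4),(25,30),(37,60),(39,1)],
    [(25,10),(37,60),(44,105)],
    [(37,20),(44,105)],
    [(44,35)]]]
def cert7_1_m6 : List (List (List (ℕ × ℕ))) :=
  [[[],
    [(6,7)],
    [(6,2),(10,12),(12,6),(13,3)],
    [(10,12),(12,3),(18,60),(21,12),(24,1)],
    [(10,3),(18,60),(21,6),(30,180),(34,20)],
    [(18,15),(30,180),(34,10),(43,420)],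
    [(30,45),(43,420)],
    [(43,105)]],
   [[(6,1)],
    [(8,2),(11,1)],
    [(8,1),(14,12),(15,6),(19,1)],
    [(14,12),(15,3),(25,60),(26,12),(31,1)],
    [(14,3),(25,60),(26,6),(37,180),(38,20)],
    [(25,15),(37,180),(38,10),(44,420)],
    [(37,45),(44,420)],
    [(44,105)]]]
def cert7_1_m7 : List (List (List (ℕ × ℕ))) :=
  [[[],
    [(7,7)],
    [(7,3),(14,12),(15,1)],
    [(7,1),(14,12),(25,30),(27,1)],
    [(14,4),(25,30),(37,60),(40,1)],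
    [(25,10),(37,60),(44,105)],
    [(37,20),(44,105)],
    [(44,35)]],
   [[(7,1)],
    [(7,3),(14,4)],
    [(7,3),(14,12),(25,10)],
    [(7,1),(14,12),(25,30),(37,20)],
    [(14,4),(25,30),(37,60),(44,35)],
    [(25,10),(37,60),(44,105)],
    [(37,20),(44,105)],
    [(44,35)]]]
def cert7_1_m8 : List (List (List (ℕ × ℕ))) :=
  [[[],
    [(8,7)],
    [(8,2),(14,24),(15,6),(16,6),(19,2)],
    [(14,24),(15,3),(16,3),(25,120),(26,12),(28,12),(32,1)],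
    [(14,6),(25,120),(26,6),(28,6),(37,360),(38,20),(41,20)],
    [(25,30),(37,360),(38,10),(41,10),(44,840)],
    [(37,90),(44,840)],
    [(44,210)]],
   [[(8,1)],
    [(8,2),(14,12),(15,3)],
    [(8,1),(14,30),(15,6),(25,60),(26,6)],
    [(14,24),(15,3),(25,150),(26,12),(37,180),(38,10)],
    [(14,6),(25,120),(26,6),(37,450),(38,20),(44,420)],
    [(25,30),(37,360),(38,10),(44,1050)],
    [(37,90),(44,840)],
    [(44,210)]]]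
def cert7_1_m9 : List (List (List (ℕ × ℕ))) :=
  [[[],
    [(9,7)],
    [(9,3),(14,12),(16,2),(17,12),(20,1)],
    [(9,1),(14,12),(17,12),(25,60),(27,3),(29,30),(35,2)],
    [(14,4),(17,4),(25,60),(29,30),(37,180),(39,4),(42,60)],
    [(25,20),(29,10),(37,180),(42,60),(44,420)],
    [(37,60),(42,20),(44,420)],
    [(44,140)]],
   [[(9,1)],
    [(9,1),(14,12),(16,2)],
    [(14,24),(16,2),(25,60),(27,3)],
    [(14,16),(25,120),(27,3),(37,180),(39,4)],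
    [(14,4),(25,80),(37,360),(39,4),(44,420)],
    [(25,20),(37,240),(44,840)],
    [(37,60),(44,560)],
    [(44,140)]]]
def cert7_1_m10 : List (List (List (ℕ × ℕ))) :=
  [[[],
    [(10,7)],
    [(10,6),(18,20),(21,1)],
    [(10,4),(18,30),(30,60),(36,1)],
    [(10,1),(18,20),(30,90),(43,140)],
    [(18,5),(30,60),(43,210)],
    [(30,15),(43,140)],
    [(43,35)]],
   [[(10,1)],
    [(14,4),(17,1)],
    [(14,6),(25,20),(28,1)],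
    [(14,4),(25,30),(37,60),(40,1)],
    [(14,1),(25,20),(37,90),(44,140)],
    [(25,5),(37,60),(44,210)],
    [(37,15),(44,140)],
    [(44,35)]]]
def cert7_1_m11 : List (List (List (ℕ × ℕ))) :=
  [[[],
    [(11,7)],
    [(11,2),(15,6),(17,12),(19,2),(20,6),(23,3)],
    [(15,3),(17,12),(20,3),(25,60),(26,24),(29,60),(31,3),(33,12)],
    [(17,3),(25,60),(26,12),(29,60),(33,6),(37,360),(38,60),(42,180)],
    [(25,15),(29,15),(37,360),(38,30),(42,180),(44,1260)],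
    [(37,90),(42,45),(44,1260)],
    [(44,315)]],
   [[(11,1)],
    [(11,1),(15,6),(19,2)],
    [(15,9),(19,2),(25,60),(26,24),(31,3)],
    [(15,3),(25,120),(26,36),(31,3),(37,360),(38,60)],
    [(25,75),(26,12),(37,720),(38,90),(44,1260)],
    [(25,15),(37,450),(38,30),(44,2520)],
    [(37,90),(44,1575)],
    [(44,315)]]]
def cert7_1_m12 : List (List (List (ℕ × ℕ))) :=
  [[[],
    [(12,7)],
    [(12,4),(18,60),(21,12),(22,12),(24,2)],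
    [(12,1),(18,90),(21,12),(22,6),(30,360),(34,30),(36,12)],
    [(18,50),(21,4),(30,540),(34,30),(36,6),(43,1260)],
    [(18,10),(30,300),(34,10),(43,1890)],
    [(30,60),(43,1050)],
    [(43,210)]],
   [[(12,1)],
    [(15,3),(16,2),(20,1)],
    [(15,3),(16,1),(25,60),(26,12),(27,6),(32,1)],
    [(15,1),(25,90),(26,12),(27,3),(37,360),(38,30),(39,12)],
    [(25,50),(26,4),(37,540),(38,30),(39,6),(44,1260)],
    [(25,10),(37,300),(38,10),(44,1890)],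
    [(37,60),(44,1050)],
    [(44,210)]]]
def cert7_1_m13 : List (List (List (ℕ × ℕ))) :=
  [[[],
    [(13,7)],
    [(13,3),(21,12),(24,6)],
    [(21,12),(24,3),(30,120),(34,60)],
    [(21,3),(30,180),(34,60),(43,840)],
    [(30,90),(34,15),(43,1260)],
    [(30,15),(43,630)],
    [(43,105)]],
   [[(13,1)],
    [(19,2),(23,1)],
    [(19,1),(26,12),(31,6)],
    [(26,12),(31,3),(37,120),(38,60)],
    [(26,3),(37,180),(38,60),(44,840)],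
    [(37,90),(38,15),(44,1260)],
    [(37,15),(44,630)],
    [(44,105)]]]
def cert7_1_m14 : List (List (List (ℕ × ℕ))) :=
  [[[],
    [(14,7)],
    [(14,6),(25,20),(26,1)],
    [(14,4),(25,30),(37,60),(39,1)],
    [(14,1),(25,20),(37,90),(44,140)],
    [(25,5),(37,60),(44,210)],
    [(37,15),(44,140)],
    [(44,35)]],
   [[(14,1)],
    [(14,4),(25,5)],
    [(14,6),(25,20),(37,15)],
    [(14,4),(25,30),(37,60),(44,35)],
    [(14,1),(25,20),(37,90),(44,140)],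
    [(25,5),(37,60),(44,210)],
    [(37,15),(44,140)],
    [(44,35)]]]
def cert7_1_m15 : List (List (List (ℕ × ℕ))) :=
  [[[],
    [(15,7)],
    [(15,4),(25,60),(26,12),(27,6),(31,2)],
    [(15,1),(25,90),(26,12),(27,3),(37,360),(38,30),(40,12)],
    [(25,50),(26,4),(37,540),(38,30),(40,6),(44,1260)],
    [(25,10),(37,300),(38,10),(44,1890)],
    [(37,60),(44,1050)],
    [(44,210)]],
   [[(15,1)],
    [(15,3),(25,20),(26,4)],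
    [(15,3),(25,70),(26,12),(37,120),(38,10)],
    [(15,1),(25,90),(26,12),(37,420),(38,30),(44,420)],
    [(25,50),(26,4),(37,540),(38,30),(44,1470)],
    [(25,10),(37,300),(38,10),(44,1890)],
    [(37,60),(44,1050)],
    [(44,210)]]]
def cert7_1_m16 : List (List (List (ℕ × ℕ))) :=
  [[[],
    [(16,7)],
    [(16,4),(25,60),(27,6),(28,12),(32,1)],
    [(16,1),(25,90),(27,3),(28,12),(37,360),(39,12),(41,30)],
    [(25,50),(28,4),(37,540),(39,6),(41,30),(44,1260)],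
    [(25,10),(37,300),(41,10),(44,1890)],
    [(37,60),(44,1050)],
    [(44,210)]],
   [[(16,1)],
    [(16,2),(25,30),(27,3)],
    [(16,1),(25,90),(27,6),(37,180),(39,6)],
    [(25,100),(27,3),(37,540),(39,12),(44,630)],
    [(25,50),(37,600),(39,6),(44,1890)],
    [(25,10),(37,300),(44,2100)],
    [(37,60),(44,1050)],
    [(44,210)]]]
def cert7_1_m17 : List (List (List (ℕ × ℕ))) :=
  [[[],
    [(17,7)],
    [(17,6),(25,20),(28,2),(29,20),(33,1)],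
    [(17,4),(25,30),(29,30),(37,120),(40,3),(42,60)],
    [(17,1),(25,20),(29,20),(37,180),(42,90),(44,420)],
    [(25,5),(29,5),(37,120),(42,60),(44,630)],
    [(37,30),(42,15),(44,420)],
    [(44,105)]],
   [[(17,1)],
    [(17,1),(25,20),(28,2)],
    [(25,50),(28,2),(37,120),(40,3)],
    [(25,50),(37,300),(40,3),(44,420)],
    [(25,25),(37,300),(44,1050)],
    [(25,5),(37,150),(44,1050)],
    [(37,30),(44,525)],
    [(44,105)]]]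
def cert7_1_m18 : List (List (List (ℕ × ℕ))) :=
  [[[],
    [(18,7)],
    [(18,10),(30,30),(34,1)],
    [(18,10),(30,60),(43,105)],
    [(18,5),(30,60),(43,210)],
    [(18,1),(30,30),(43,210)],
    [(30,6),(43,105)],
    [(43,21)]],
   [[(18,1)],
    [(25,5),(29,1)],
    [(25,10),(37,30),(41,1)],
    [(25,10),(37,60),(44,105)],
    [(25,5),(37,60),(44,210)],
    [(25,1),(37,30),(44,210)],
    [(37,6),(44,105)],
    [(44,21)]]]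
def cert7_1_m19 : List (List (List (ℕ × ℕ))) :=
  [[[],
    [(19,7)],
    [(19,3),(26,24),(28,12),(31,6),(32,6)],
    [(26,24),(28,12),(31,3),(32,3),(37,360),(38,120),(41,60)],
    [(26,6),(28,3),(37,540),(38,120),(41,60),(44,2520)],
    [(37,270),(38,30),(41,15),(44,3780)],
    [(37,45),(44,1890)],
    [(44,315)]],
   [[(19,1)],
    [(19,2),(26,12),(31,3)],
    [(19,1),(26,30),(31,6),(37,180),(38,60)],
    [(26,24),(31,3),(37,540),(38,150),(44,1260)],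
    [(26,6),(37,585),(38,120),(44,3780)],
    [(37,270),(38,30),(44,4095)],
    [(37,45),(44,1890)],
    [(44,315)]]]
def cert7_1_m20 : List (List (List (ℕ × ℕ))) :=
  [[[],
    [(20,7)],
    [(20,4),(26,12),(27,6),(29,60),(32,2),(33,12),(35,12)],
    [(20,1),(26,12),(27,3),(29,90),(33,12),(35,6),(37,360),(38,60),(39,24),(42,360)],
    [(26,4),(29,50),(33,4),(37,540),(38,60),(39,12),(42,540),(44,2520)],
    [(29,10),(37,300),(38,20),(42,300),(44,3780)],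
    [(37,60),(42,60),(44,2100)],
    [(44,420)]],
   [[(20,1)],
    [(20,1),(26,12),(27,6),(32,2)],
    [(26,24),(27,9),(32,2),(37,360),(38,60),(39,24)],
    [(26,16),(27,3),(37,900),(38,120),(39,36),(44,2520)],
    [(26,4),(37,840),(38,80),(39,12),(44,6300)],
    [(37,360),(38,20),(44,5880)],
    [(37,60),(44,2520)],
    [(44,420)]]]
def cert7_1_m21 : List (List (List (ℕ × ℕ))) :=
  [[[],
    [(21,7)],
    [(21,7),(30,120),(34,20),(36,6)],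
    [(21,4),(30,240),(34,30),(36,3),(43,840)],
    [(21,1),(30,210),(34,20),(43,1680)],
    [(30,90),(34,5),(43,1470)],
    [(30,15),(43,630)],
    [(43,105)]],
   [[(21,1)],
    [(26,4),(28,2),(33,1)],
    [(26,6),(28,1),(37,120),(38,20),(40,6)],
    [(26,4),(37,240),(38,30),(40,3),(44,840)],
    [(26,1),(37,210),(38,20),(44,1680)],
    [(37,90),(38,5),(44,1470)],
    [(37,15),(44,630)],
    [(44,105)]]]
def cert7_1_m22 : List (List (List (ℕ × ℕ))) :=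
  [[[],
    [(22,7)],
    [(22,6),(30,90),(36,12)],
    [(22,2),(30,180),(36,12),(43,630)],
    [(30,150),(36,4),(43,1260)],
    [(30,60),(43,1050)],
    [(30,10),(43,420)],
    [(43,70)]],
   [[(22,1)],
    [(27,3),(35,1)],
    [(27,3),(37,90),(39,12)],
    [(27,1),(37,180),(39,12),(44,630)],
    [(37,150),(39,4),(44,1260)],
    [(37,60),(44,1050)],
    [(37,10),(44,420)],
    [(44,70)]]]
def cert7_1_m23 : List (List (List (ℕ × ℕ))) :=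
  [[[],
    [(23,7)],
    [(23,3),(31,6),(33,12)],
    [(31,3),(33,12),(38,60),(42,120)],
    [(33,3),(38,60),(42,180),(44,840)],
    [(38,15),(42,90),(44,1260)],
    [(42,15),(44,630)],
    [(44,105)]],
   [[(23,1)],
    [(23,1),(31,6)],
    [(31,9),(38,60)],
    [(31,3),(38,120),(44,840)],
    [(38,75),(44,2100)],
    [(38,15),(44,1890)],
    [(44,735)],
    [(44,105)]]]
def cert7_1_m24 : List (List (List (ℕ × ℕ))) :=
  [[[],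
    [(24,7)],
    [(24,5),(34,60),(36,12)],
    [(24,1),(34,90),(36,12),(43,1260)],
    [(34,50),(36,3),(43,2520)],
    [(34,10),(43,1995)],
    [(43,735)],
    [(43,105)]],
   [[(24,1)],
    [(31,3),(32,2)],
    [(31,3),(32,1),(38,60),(39,12)],
    [(31,1),(38,90),(39,12),(44,1260)],
    [(38,50),(39,3),(44,2520)],
    [(38,10),(44,1995)],
    [(44,735)],
    [(44,105)]]]
def cert7_1_m25 : List (List (List (ℕ × ℕ))) :=
  [[[],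
    [(25,7)],
    [(25,10),(37,30),(38,1)],
    [(25,10),(37,60),(44,105)],
    [(25,5),(37,60),(44,210)],
    [(25,1),(37,30),(44,210)],
    [(37,6),(44,105)],
    [(44,21)]],
   [[(25,1)],
    [(25,5),(37,6)],
    [(25,10),(37,30),(44,21)],
    [(25,10),(37,60),(44,105)],
    [(25,5),(37,60),(44,210)],
    [(25,1),(37,30),(44,210)],
    [(37,6),(44,105)],
    [(44,21)]]]
def cert7_1_m26 : List (List (List (ℕ × ℕ))) :=
  [[[],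
    [(26,7)],
    [(26,7),(37,120),(38,20),(39,6)],
    [(26,4),(37,240),(38,30),(39,3),(44,840)],
    [(26,1),(37,210),(38,20),(44,1680)],
    [(37,90),(38,5),(44,1470)],
    [(37,15),(44,630)],
    [(44,105)]],
   [[(26,1)],
    [(26,4),(37,30),(38,5)],
    [(26,6),(37,135),(38,20),(44,210)],
    [(26,4),(37,240),(38,30),(44,945)],
    [(26,1),(37,210),(38,20),(44,1680)],
    [(37,90),(38,5),(44,1470)],
    [(37,15),(44,630)],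
    [(44,105)]]]
def cert7_1_m27 : List (List (List (ℕ × ℕ))) :=
  [[[],
    [(27,7)],
    [(27,6),(37,180),(39,12),(40,12)],
    [(27,2),(37,360),(39,12),(40,12),(44,1260)],
    [(37,300),(39,4),(40,4),(44,2520)],
    [(37,120),(44,2100)],
    [(37,20),(44,840)],
    [(44,140)]],
   [[(27,1)],
    [(27,3),(37,60),(39,4)],
    [(27,3),(37,240),(39,12),(44,420)],
    [(27,1),(37,380),(39,12),(44,1680)],
    [(37,300),(39,4),(44,2660)],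
    [(37,120),(44,2100)],
    [(37,20),(44,840)],
    [(44,140)]]]
def cert7_1_m28 : List (List (List (ℕ × ℕ))) :=
  [[[],
    [(28,7)],
    [(28,7),(37,120),(40,6),(41,20)],
    [(28,4),(37,240),(40,3),(41,30),(44,840)],
    [(28,1),(37,210),(41,20),(44,1680)],
    [(37,90),(41,5),(44,1470)],
    [(37,15),(44,630)],
    [(44,105)]],
   [[(28,1)],
    [(28,2),(37,60),(40,3)],
    [(28,1),(37,210),(40,6),(44,420)],
    [(37,300),(40,3),(44,1470)],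
    [(37,225),(44,2100)],
    [(37,90),(44,1575)],
    [(37,15),(44,630)],
    [(44,105)]]]
def cert7_1_m29 : List (List (List (ℕ × ℕ))) :=
  [[[],
    [(29,7)],
    [(29,10),(37,30),(41,2),(42,30)],
    [(29,10),(37,60),(42,60),(44,210)],
    [(29,5),(37,60),(42,60),(44,420)],
    [(29,1),(37,30),(42,30),(44,420)],
    [(37,6),(42,6),(44,210)],
    [(44,42)]],
   [[(29,1)],
    [(29,1),(37,30),(41,2)],
    [(37,90),(41,2),(44,210)],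
    [(37,120),(44,630)],
    [(37,90),(44,840)],
    [(37,36),(44,630)],
    [(37,6),(44,252)],
    [(44,42)]]]
def cert7_1_m30 : List (List (List (ℕ × ℕ))) :=
  [[[],
    [(30,7)],
    [(30,15),(43,42)],
    [(30,20),(43,105)],
    [(30,15),(43,140)],
    [(30,6),(43,105)],
    [(30,1),(43,42)],
    [(43,7)]],
   [[(30,1)],
    [(37,6),(42,1)],
    [(37,15),(44,42)],
    [(37,20),(44,105)],
    [(37,15),(44,140)],
    [(37,6),(44,105)],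
    [(37,1),(44,42)],
    [(44,7)]]]
def cert7_1_m31 : List (List (List (ℕ × ℕ))) :=
  [[[],
    [(31,7)],
    [(31,5),(38,60),(40,12)],
    [(31,1),(38,90),(40,12),(44,1260)],
    [(38,50),(40,3),(44,2520)],
    [(38,10),(44,1995)],
    [(44,735)],
    [(44,105)]],
   [[(31,1)],
    [(31,3),(38,20)],
    [(31,3),(38,70),(44,420)],
    [(31,1),(38,90),(44,1680)],
    [(38,50),(44,2625)],
    [(38,10),(44,1995)],
    [(44,735)],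
    [(44,105)]]]
def cert7_1_m32 : List (List (List (ℕ × ℕ))) :=
  [[[],
    [(32,7)],
    [(32,5),(38,60),(39,24),(41,60)],
    [(32,1),(38,90),(39,24),(41,90),(44,2520)],
    [(38,50),(39,6),(41,50),(44,5040)],
    [(38,10),(41,10),(44,3990)],
    [(44,1470)],
    [(44,210)]],
   [[(32,1)],
    [(32,2),(38,30),(39,12)],
    [(32,1),(38,90),(39,30),(44,1260)],
    [(38,100),(39,24),(44,4410)],
    [(38,50),(39,6),(44,6090)],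
    [(38,10),(44,4200)],
    [(44,1470)],
    [(44,210)]]]
def cert7_1_m33 : List (List (List (ℕ × ℕ))) :=
  [[[],
    [(33,7)],
    [(33,7),(38,20),(40,6),(42,120)],
    [(33,4),(38,30),(40,3),(42,240),(44,840)],
    [(33,1),(38,20),(42,210),(44,1680)],
    [(38,5),(42,90),(44,1470)],
    [(42,15),(44,630)],
    [(44,105)]],
   [[(33,1)],
    [(33,1),(38,20),(40,6)],
    [(38,50),(40,9),(44,840)],
    [(38,50),(40,3),(44,2520)],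
    [(38,25),(44,3150)],
    [(38,5),(44,2100)],
    [(44,735)],
    [(44,105)]]]
def cert7_1_m34 : List (List (List (ℕ × ℕ))) :=
  [[[],
    [(34,7)],
    [(34,11),(43,210)],
    [(34,10),(43,525)],
    [(34,5),(43,630)],
    [(34,1),(43,420)],
    [(43,147)],
    [(43,21)]],
   [[(34,1)],
    [(38,5),(41,2)],
    [(38,10),(41,1),(44,210)],
    [(38,10),(44,525)],
    [(38,5),(44,630)],
    [(38,1),(44,420)],
    [(44,147)],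
    [(44,21)]]]
def cert7_1_m35 : List (List (List (ℕ × ℕ))) :=
  [[[],
    [(35,7)],
    [(35,6),(39,12),(42,90)],
    [(35,2),(39,12),(42,180),(44,630)],
    [(39,4),(42,150),(44,1260)],
    [(42,60),(44,1050)],
    [(42,10),(44,420)],
    [(44,70)]],
   [[(35,1)],
    [(35,1),(39,12)],
    [(39,24),(44,630)],
    [(39,16),(44,1890)],
    [(39,4),(44,2310)],
    [(44,1470)],
    [(44,490)],
    [(44,70)]]]
def cert7_1_m36 : List (List (List (ℕ × ℕ))) :=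
  [[[],
    [(36,7)],
    [(36,9),(43,420)],
    [(36,5),(43,1050)],
    [(36,1),(43,1190)],
    [(43,735)],
    [(43,245)],
    [(43,35)]],
   [[(36,1)],
    [(39,4),(40,3)],
    [(39,6),(40,3),(44,420)],
    [(39,4),(40,1),(44,1050)],
    [(39,1),(44,1190)],
    [(44,735)],
    [(44,245)],
    [(44,35)]]]
def cert7_1_m37 : List (List (List (ℕ × ℕ))) :=
  [[[],
    [(37,7)],
    [(37,15),(44,42)],
    [(37,20),(44,105)],
    [(37,15),(44,140)],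
    [(37,6),(44,105)],
    [(37,1),(44,42)],
    [(44,7)]],
   [[(37,1)],
    [(37,6),(44,7)],
    [(37,15),(44,42)],
    [(37,20),(44,105)],
    [(37,15),(44,140)],
    [(37,6),(44,105)],
    [(37,1),(44,42)],
    [(44,7)]]]
def cert7_1_m38 : List (List (List (ℕ × ℕ))) :=
  [[[],
    [(38,7)],
    [(38,11),(44,210)],
    [(38,10),(44,525)],
    [(38,5),(44,630)],
    [(38,1),(44,420)],
    [(44,147)],
    [(44,21)]],
   [[(38,1)],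
    [(38,5),(44,42)],
    [(38,10),(44,231)],
    [(38,10),(44,525)],
    [(38,5),(44,630)],
    [(38,1),(44,420)],
    [(44,147)],
    [(44,21)]]]
def cert7_1_m39 : List (List (List (ℕ × ℕ))) :=
  [[[],
    [(39,7)],
    [(39,9),(44,420)],
    [(39,5),(44,1050)],
    [(39,1),(44,1190)],
    [(44,735)],
    [(44,245)],
    [(44,35)]],
   [[(39,1)],
    [(39,4),(44,105)],
    [(39,6),(44,525)],
    [(39,4),(44,1085)],
    [(39,1),(44,1190)],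
    [(44,735)],
    [(44,245)],
    [(44,35)]]]
def cert7_1_m40 : List (List (List (ℕ × ℕ))) :=
  [[[],
    [(40,7)],
    [(40,9),(44,420)],
    [(40,5),(44,1050)],
    [(40,1),(44,1190)],
    [(44,735)],
    [(44,245)],
    [(44,35)]],
   [[(40,1)],
    [(40,3),(44,140)],
    [(40,3),(44,630)],
    [(40,1),(44,1190)],
    [(44,1225)],
    [(44,735)],
    [(44,245)],
    [(44,35)]]]
def cert7_1_m41 : List (List (List (ℕ × ℕ))) :=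
  [[[],
    [(41,7)],
    [(41,11),(44,210)],
    [(41,10),(44,525)],
    [(41,5),(44,630)],
    [(41,1),(44,420)],
    [(44,147)],
    [(44,21)]],
   [[(41,1)],
    [(41,2),(44,105)],
    [(41,1),(44,420)],
    [(44,735)],
    [(44,735)],
    [(44,441)],
    [(44,147)],
    [(44,21)]]]
def cert7_1_m42 : List (List (List (ℕ × ℕ))) :=
  [[[],
    [(42,7)],
    [(42,15),(44,42)],
    [(42,20),(44,105)],
    [(42,15),(44,140)],
    [(42,6),(44,105)],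
    [(42,1),(44,42)],
    [(44,7)]],
   [[(42,1)],
    [(42,1),(44,42)],
    [(44,147)],
    [(44,245)],
    [(44,245)],
    [(44,147)],
    [(44,49)],
    [(44,7)]]]
def cert7_1_m43 : List (List (List (ℕ × ℕ))) :=
  [[[],
    [(43,7)],
    [(43,21)],
    [(43,35)],
    [(43,35)],
    [(43,21)],
    [(43,7)],
    [(43,1)]],
   [[(43,1)],
    [(44,7)],
    [(44,21)],
    [(44,35)],
    [(44,35)],
    [(44,21)],
    [(44,7)],
    [(44,1)]]]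
def cert7_1_m44 : List (List (List (ℕ × ℕ))) :=
  [[[],
    [(44,7)],
    [(44,21)],
    [(44,35)],
    [(44,35)],
    [(44,21)],
    [(44,7)],
    [(44,1)]],
   [[(44,1)],
    [(44,7)],
    [(44,21)],
    [(44,35)],
    [(44,35)],
    [(44,21)],
    [(44,7)],
    [(44,1)]]]
def cert7_1_M0 : List (List (List (List (ℕ × ℕ)))) :=
  [cert7_1_m0, cert7_1_m1, cert7_1_m2, cert7_1_m3, cert7_1_m4, cert7_1_m5, cert7_1_m6, cert7_1_m7, cert7_1_m8, cert7_1_m9, cert7_1_m10, cert7_1_m11]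

def cert7_1_M1 : List (List (List (List (ℕ × ℕ)))) :=
  [cert7_1_m12, cert7_1_m13, cert7_1_m14, cert7_1_m15, cert7_1_m16, cert7_1_m17, cert7_1_m18, cert7_1_m19, cert7_1_m20, cert7_1_m21, cert7_1_m22, cert7_1_m23]

def cert7_1_M2 : List (List (List (List (ℕ × ℕ)))) :=
  [cert7_1_m24, cert7_1_m25, cert7_1_m26, cert7_1_m27, cert7_1_m28, cert7_1_m29, cert7_1_m30, cert7_1_m31, cert7_1_m32, cert7_1_m33, cert7_1_m34, cert7_1_m35]

def cert7_1_M3 : List (List (List (List (ℕ × ℕ)))) :=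
  [cert7_1_m36, cert7_1_m37, cert7_1_m38, cert7_1_m39, cert7_1_m40, cert7_1_m41, cert7_1_m42, cert7_1_m43, cert7_1_m44]

def cert7_1_rows : List (List ℕ) := cert7_1_R0 ++ (cert7_1_R1 ++ (cert7_1_R2 ++ (cert7_1_R3)))

/-- the certificate -/
def cert7_1 : Cert where
  types := cert7_1_types
  rows := cert7_1_rows
  mul := cert7_1_M0 ++ (cert7_1_M1 ++ (cert7_1_M2 ++ (cert7_1_M3)))

theorem cert7_1_c0 : cf_rows cert7_1_rows (List.replicate 45 0) cert7_1_tab cert7_1_R0 cert7_1_M0 = true := by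
  decide +kernel

theorem cert7_1_c1 : cf_rows cert7_1_rows (List.replicate 45 0) cert7_1_tab cert7_1_R1 cert7_1_M1 = true := by
  decide +kernel

theorem cert7_1_c2 : cf_rows cert7_1_rows (List.replicate 45 0) cert7_1_tab cert7_1_R2 cert7_1_M2 = true := by
  decide +kernel

theorem cert7_1_c3 : cf_rows cert7_1_rows (List.replicate 45 0) cert7_1_tab cert7_1_R3 cert7_1_M3 = true := by
  decide +kernel

theorem cert7_1_all : cf_rows cert7_1_rows (List.replicate 45 0) cert7_1_tab cert7_1.rows cert7_1.mul = true :=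
  (cf_rows_append _ _ _ _ _ _ _ cert7_1_c0 (cf_rows_append _ _ _ _ _ _ _ cert7_1_c1 (cf_rows_append _ _ _ _ _ _ _ cert7_1_c2 cert7_1_c3)))

theorem cert7_1_basic : cf_basic 7 cert7_1 = true := by decide +kernel

theorem cert7_1_tabok : cert7_1_tab = (List.range (2 ^ 1)).map fun T => (List.range (7 + 1)).map fun j =>
    cert7_1.types.map (nJ 1 j T) := by decide +kernel

theorem cert7_1_ok : certOK 7 1 cert7_1 = true :=
  certOK_of 7 1 45 cert7_1 cert7_1_tab (by decide +kernel) cert7_1_basic cert7_1_tabok cert7_1_all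

end Pool.Agent.H34R2.U
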