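import Pool.Agent.H34R2.U.CFast

/-! certificate data (generated) -/

set_option autoImplicit false
set_option maxRecDepth 100000

namespace Pool.Agent.H34R2.U

def cert8_0_types : List Ty :=
  [[(0,1),(0,1),(0,1),(0,1),(0,1),(0,1),(0,1),(0,1)],
   [(0,1),(0,1),(0,1),(0,1),(0,1),(0,1),(0,2)],
   [(0,1),(0,1),(0,1),(0,1),(0,1),(0,3)],
   [(0,1),(0,1),(0,1),(0,1),(0,2),(0,2)],
   [(0,1),(0,1),(0,1),(0,1),(0,4)],
   [(0,1),(0,1),(0,1),(0,2),(0,3)],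
   [(0,1),(0,1),(0,2),(0,2),(0,2)],
   [(0,1),(0,1),(0,1),(0,5)],
   [(0,1),(0,1),(0,2),(0,4)],
   [(0,1),(0,1),(0,3),(0,3)],
   [(0,1),(0,2),(0,2),(0,3)],
   [(0,2),(0,2),(0,2),(0,2)],
   [(0,1),(0,1),(0,6)],
   [(0,1),(0,2),(0,5)],
   [(0,1),(0,3),(0,4)],
   [(0,2),(0,2),(0,4)],
   [(0,2),(0,3),(0,3)],
   [(0,1),(0,7)],
   [(0,2),(0,6)],
   [(0,3),(0,5)],
   [(0,4),(0,4)],
   [(0,8)]]

def cert8_0_tab : List (List (List ℕ)) :=
  [[[8,7,6,6,5,5,5,4,4,4,4,4,3,3,3,3,3,2,2,2,2,1],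
    [8,8,8,8,8,8,8,8,8,8,8,8,8,8,8,8,8,8,8,8,8,8],
    [0,1,3,2,6,4,3,10,7,6,5,4,15,11,9,8,7,21,16,13,12,28],
    [0,0,1,0,4,1,0,10,4,2,1,0,20,10,5,4,2,35,20,11,8,56],
    [0,0,0,0,1,0,0,5,1,0,0,0,15,5,1,1,0,35,15,5,2,70],
    [0,0,0,0,0,0,0,1,0,0,0,0,6,1,0,0,0,21,6,1,0,56],
    [0,0,0,0,0,0,0,0,0,0,0,0,1,0,0,0,0,7,1,0,0,28],
    [0,0,0,0,0,0,0,0,0,0,0,0,0,0,0,0,0,1,0,0,0,8],
    [0,0,0,0,0,0,0,0,0,0,0,0,0,0,0,0,0,0,0,0,0,1]]]

def cert8_0_R0 : List (List ℕ) :=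
  [[1,1,1,1,1,1,1,1,1,1,1,1,1,1,1,1,1,1,1,1,1,1],
   [0,1,3,2,6,4,3,10,7,6,5,4,15,11,9,8,7,21,16,13,12,28],
   [0,0,1,0,4,1,0,10,4,2,1,0,20,10,5,4,2,35,20,11,8,56],
   [0,0,0,1,3,3,3,15,9,9,7,6,45,25,21,16,15,105,60,45,42,210],
   [0,0,0,0,1,0,0,5,1,0,0,0,15,5,1,1,0,35,15,5,2,70],
   [0,0,0,0,0,1,0,10,4,6,2,0,60,20,18,8,8,210,80,50,48,560],
   [0,0,0,0,0,0,1,0,3,0,3,4,15,15,9,12,9,105,60,45,36,420],
   [0,0,0,0,0,0,0,1,0,0,0,0,6,1,0,0,0,21,6,1,0,56],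
   [0,0,0,0,0,0,0,0,1,0,0,0,15,5,3,2,0,105,30,15,12,420],
   [0,0,0,0,0,0,0,0,0,1,0,0,10,0,4,0,1,70,10,10,16,280],
   [0,0,0,0,0,0,0,0,0,0,1,0,0,10,3,4,6,105,60,45,24,840]]

def cert8_0_R1 : List (List ℕ) :=
  [[0,0,0,0,0,0,0,0,0,0,0,1,0,0,0,3,0,0,15,0,9,105],
   [0,0,0,0,0,0,0,0,0,0,0,0,1,0,0,0,0,7,1,0,0,28],
   [0,0,0,0,0,0,0,0,0,0,0,0,0,1,0,0,0,21,6,3,0,168],
   [0,0,0,0,0,0,0,0,0,0,0,0,0,0,1,0,0,35,0,5,8,280],
   [0,0,0,0,0,0,0,0,0,0,0,0,0,0,0,1,0,0,15,0,6,210],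
   [0,0,0,0,0,0,0,0,0,0,0,0,0,0,0,0,1,0,10,10,0,280],
   [0,0,0,0,0,0,0,0,0,0,0,0,0,0,0,0,0,1,0,0,0,8],
   [0,0,0,0,0,0,0,0,0,0,0,0,0,0,0,0,0,0,1,0,0,28],
   [0,0,0,0,0,0,0,0,0,0,0,0,0,0,0,0,0,0,0,1,0,56],
   [0,0,0,0,0,0,0,0,0,0,0,0,0,0,0,0,0,0,0,0,1,35],
   [0,0,0,0,0,0,0,0,0,0,0,0,0,0,0,0,0,0,0,0,0,1]]

def cert8_0_m0 : List (List (List (ℕ × ℕ))) :=
  [[[],
    [(0,8)],
    [(1,1)],
    [(2,1)],
    [(4,1)],
    [(7,1)],
    [(12,1)],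
    [(17,1)],
    [(21,1)]]]
def cert8_0_m1 : List (List (List (ℕ × ℕ))) :=
  [[[],
    [(1,8)],
    [(1,1),(2,6),(3,2)],
    [(2,3),(4,12),(5,1)],
    [(4,6),(7,20),(8,1)],
    [(7,10),(12,30),(13,1)],
    [(12,15),(17,42),(18,1)],
    [(17,21),(21,56)],
    [(21,28)]]]
def cert8_0_m2 : List (List (List (ℕ × ℕ))) :=
  [[[],
    [(2,8)],
    [(2,3),(4,12),(5,1)],
    [(2,1),(4,12),(7,30),(9,2)],
    [(4,4),(7,30),(12,60),(14,1)],
    [(7,10),(12,60),(17,105),(19,1)],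
    [(12,20),(17,105),(21,168)],
    [(17,35),(21,168)],
    [(21,56)]]]
def cert8_0_m3 : List (List (List (ℕ × ℕ))) :=
  [[[],
    [(3,8)],
    [(3,2),(4,12),(5,6),(6,3)],
    [(4,12),(5,3),(7,60),(8,12),(10,1)],
    [(4,3),(7,60),(8,6),(12,180),(13,20),(15,1)],
    [(7,15),(12,180),(13,10),(17,420),(18,30)],
    [(12,45),(17,420),(18,15),(21,840)],
    [(17,105),(21,840)],
    [(21,210)]]]
def cert8_0_m4 : List (List (List (ℕ × ℕ))) :=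
  [[[],
    [(4,8)],
    [(4,6),(7,20),(8,1)],
    [(4,4),(7,30),(12,60),(14,1)],
    [(4,1),(7,20),(12,90),(17,140),(20,2)],
    [(7,5),(12,60),(17,210),(21,280)],
    [(12,15),(17,140),(21,420)],
    [(17,35),(21,280)],
    [(21,70)]]]
def cert8_0_m5 : List (List (List (ℕ × ℕ))) :=
  [[[],
    [(5,8)],
    [(5,4),(7,60),(8,12),(9,12),(10,2)],
    [(5,1),(7,90),(8,12),(9,6),(12,360),(13,30),(14,12),(16,2)],
    [(7,50),(8,4),(12,540),(13,30),(14,6),(17,1260),(18,60),(19,20)],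
    [(7,10),(12,300),(13,10),(17,1890),(18,60),(19,10),(21,3360)],
    [(12,60),(17,1050),(18,20),(21,5040)],
    [(17,210),(21,2800)],
    [(21,560)]]]
def cert8_0_m6 : List (List (List (ℕ × ℕ))) :=
  [[[],
    [(6,8)],
    [(6,3),(8,12),(10,6),(11,4)],
    [(8,12),(10,3),(12,120),(13,60),(15,12)],
    [(8,3),(12,180),(13,60),(15,6),(17,840),(18,180)],
    [(12,90),(13,15),(17,1260),(18,180),(21,3360)],
    [(12,15),(17,630),(18,45),(21,5040)],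
    [(17,105),(21,2520)],
    [(21,420)]]]
def cert8_0_m7 : List (List (List (ℕ × ℕ))) :=
  [[[],
    [(7,8)],
    [(7,10),(12,30),(13,1)],
    [(7,10),(12,60),(17,105),(19,1)],
    [(7,5),(12,60),(17,210),(21,280)],
    [(7,1),(12,30),(17,210),(21,560)],
    [(12,6),(17,105),(21,560)],
    [(17,21),(21,280)],
    [(21,56)]]]
def cert8_0_m8 : List (List (List (ℕ × ℕ))) :=
  [[[],
    [(8,8)],
    [(8,7),(12,120),(13,20),(14,6),(15,2)],
    [(8,4),(12,240),(13,30),(14,3),(17,840),(18,60),(20,24)],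
    [(8,1),(12,210),(13,20),(17,1680),(18,90),(20,12),(21,3360)],
    [(12,90),(13,5),(17,1470),(18,60),(21,6720)],
    [(12,15),(17,630),(18,15),(21,5880)],
    [(17,105),(21,2520)],
    [(21,420)]]]
def cert8_0_m9 : List (List (List (ℕ × ℕ))) :=
  [[[],
    [(9,8)],
    [(9,6),(12,90),(14,12),(16,1)],
    [(9,2),(12,180),(14,12),(17,630),(19,30)],
    [(12,150),(14,4),(17,1260),(19,30),(21,2520)],
    [(12,60),(17,1050),(19,10),(21,5040)],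
    [(12,10),(17,420),(21,4200)],
    [(17,70),(21,1680)],
    [(21,280)]]]
def cert8_0_m10 : List (List (List (ℕ × ℕ))) :=
  [[[],
    [(10,8)],
    [(10,5),(13,60),(14,12),(15,12),(16,12)],
    [(10,1),(13,90),(14,12),(15,12),(16,6),(17,1260),(18,360),(19,60)],
    [(13,50),(14,3),(15,4),(17,2520),(18,540),(19,60),(21,10080)],
    [(13,10),(17,1995),(18,300),(19,15),(21,20160)],
    [(17,735),(18,60),(21,15960)],
    [(17,105),(21,5880)],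
    [(21,840)]]]
def cert8_0_m11 : List (List (List (ℕ × ℕ))) :=
  [[[],
    [(11,8)],
    [(11,4),(15,12)],
    [(15,12),(18,120)],
    [(15,3),(18,180),(21,1680)],
    [(18,90),(21,3360)],
    [(18,15),(21,2520)],
    [(21,840)],
    [(21,105)]]]
def cert8_0_m12 : List (List (List (ℕ × ℕ))) :=
  [[[],
    [(12,8)],
    [(12,15),(17,42),(18,1)],
    [(12,20),(17,105),(21,168)],
    [(12,15),(17,140),(21,420)],
    [(12,6),(17,105),(21,560)],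
    [(12,1),(17,42),(21,420)],
    [(17,7),(21,168)],
    [(21,28)]]]
def cert8_0_m13 : List (List (List (ℕ × ℕ))) :=
  [[[],
    [(13,8)],
    [(13,11),(17,210),(18,30),(19,6)],
    [(13,10),(17,525),(18,60),(19,3),(21,1680)],
    [(13,5),(17,630),(18,60),(21,4200)],
    [(13,1),(17,420),(18,30),(21,5040)],
    [(17,147),(18,6),(21,3360)],
    [(17,21),(21,1176)],
    [(21,168)]]]
def cert8_0_m14 : List (List (List (ℕ × ℕ))) :=
  [[[],
    [(14,8)],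
    [(14,9),(17,420),(19,20),(20,24)],
    [(14,5),(17,1050),(19,30),(20,24),(21,3360)],
    [(14,1),(17,1190),(19,20),(20,8),(21,8400)],
    [(17,735),(19,5),(21,9520)],
    [(17,245),(21,5880)],
    [(17,35),(21,1960)],
    [(21,280)]]]
def cert8_0_m15 : List (List (List (ℕ × ℕ))) :=
  [[[],
    [(15,8)],
    [(15,8),(18,120),(20,24)],
    [(15,4),(18,240),(20,24),(21,3360)],
    [(15,1),(18,210),(20,6),(21,8400)],
    [(18,90),(21,9240)],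
    [(18,15),(21,5460)],
    [(21,1680)],
    [(21,210)]]]
def cert8_0_m16 : List (List (List (ℕ × ℕ))) :=
  [[[],
    [(16,8)],
    [(16,7),(18,90),(19,60)],
    [(16,2),(18,180),(19,90),(21,5040)],
    [(18,150),(19,50),(21,12600)],
    [(18,60),(19,10),(21,13440)],
    [(18,10),(21,7560)],
    [(21,2240)],
    [(21,280)]]]
def cert8_0_m17 : List (List (List (ℕ × ℕ))) :=
  [[[],
    [(17,8)],
    [(17,21),(21,56)],
    [(17,35),(21,168)],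
    [(17,35),(21,280)],
    [(17,21),(21,280)],
    [(17,7),(21,168)],
    [(17,1),(21,56)],
    [(21,8)]]]
def cert8_0_m18 : List (List (List (ℕ × ℕ))) :=
  [[[],
    [(18,8)],
    [(18,16),(21,336)],
    [(18,20),(21,1008)],
    [(18,15),(21,1540)],
    [(18,6),(21,1400)],
    [(18,1),(21,756)],
    [(21,224)],
    [(21,28)]]]
def cert8_0_m19 : List (List (List (ℕ × ℕ))) :=
  [[[],
    [(19,8)],
    [(19,13),(21,840)],
    [(19,11),(21,2520)],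
    [(19,5),(21,3640)],
    [(19,1),(21,3080)],
    [(21,1568)],
    [(21,448)],
    [(21,56)]]]
def cert8_0_m20 : List (List (List (ℕ × ℕ))) :=
  [[[],
    [(20,8)],
    [(20,12),(21,560)],
    [(20,8),(21,1680)],
    [(20,2),(21,2380)],
    [(21,1960)],
    [(21,980)],
    [(21,280)],
    [(21,35)]]]
def cert8_0_m21 : List (List (List (ℕ × ℕ))) :=
  [[[],
    [(21,8)],
    [(21,28)],
    [(21,56)],
    [(21,70)],
    [(21,56)],
    [(21,28)],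
    [(21,8)],
    [(21,1)]]]
def cert8_0_M0 : List (List (List (List (ℕ × ℕ)))) :=
  [cert8_0_m0, cert8_0_m1, cert8_0_m2, cert8_0_m3, cert8_0_m4, cert8_0_m5, cert8_0_m6, cert8_0_m7, cert8_0_m8, cert8_0_m9, cert8_0_m10]

def cert8_0_M1 : List (List (List (List (ℕ × ℕ)))) :=
  [cert8_0_m11, cert8_0_m12, cert8_0_m13, cert8_0_m14, cert8_0_m15, cert8_0_m16, cert8_0_m17, cert8_0_m18, cert8_0_m19, cert8_0_m20, cert8_0_m21]

def cert8_0_rows : List (List ℕ) := cert8_0_R0 ++ (cert8_0_R1)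

/-- the certificate -/
def cert8_0 : Cert where
  types := cert8_0_types
  rows := cert8_0_rows
  mul := cert8_0_M0 ++ (cert8_0_M1)

theorem cert8_0_c0 : cf_rows cert8_0_rows (List.replicate 22 0) cert8_0_tab cert8_0_R0 cert8_0_M0 = true := by
  decide +kernel

theorem cert8_0_c1 : cf_rows cert8_0_rows (List.replicate 22 0) cert8_0_tab cert8_0_R1 cert8_0_M1 = true := by
  decide +kernel

theorem cert8_0_all : cf_rows cert8_0_rows (List.replicate 22 0) cert8_0_tab cert8_0.rows cert8_0.mul = true :=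
  (cf_rows_append _ _ _ _ _ _ _ cert8_0_c0 cert8_0_c1)

theorem cert8_0_basic : cf_basic 8 cert8_0 = true := by decide +kernel

theorem cert8_0_tabok : cert8_0_tab = (List.range (2 ^ 0)).map fun T => (List.range (8 + 1)).map fun j =>
    cert8_0.types.map (nJ 0 j T) := by decide +kernel

theorem cert8_0_ok : certOK 8 0 cert8_0 = true :=
  certOK_of 8 0 22 cert8_0 cert8_0_tab (by decide +kernel) cert8_0_basic cert8_0_tabok cert8_0_all

end Pool.Agent.H34R2.U
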