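import Pool.Agent.H34R2.U.CFast

/-! certificate data (generated) -/

set_option autoImplicit false
set_option maxRecDepth 100000

namespace Pool.Agent.H34R2.U

def cert8_1_types : List Ty :=
  [[(0,1),(0,1),(0,1),(0,1),(0,1),(0,1),(0,1),(0,1),(1,0)],
   [(0,1),(0,1),(0,1),(0,1),(0,1),(0,1),(0,1),(1,1)],
   [(0,1),(0,1),(0,1),(0,1),(0,1),(0,1),(0,2),(1,0)],
   [(0,1),(0,1),(0,1),(0,1),(0,1),(0,1),(1,2)],
   [(0,1),(0,1),(0,1),(0,1),(0,1),(0,2),(1,1)],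
   [(0,1),(0,1),(0,1),(0,1),(0,1),(0,3),(1,0)],
   [(0,1),(0,1),(0,1),(0,1),(0,2),(0,2),(1,0)],
   [(0,1),(0,1),(0,1),(0,1),(0,1),(1,3)],
   [(0,1),(0,1),(0,1),(0,1),(0,2),(1,2)],
   [(0,1),(0,1),(0,1),(0,1),(0,3),(1,1)],
   [(0,1),(0,1),(0,1),(0,1),(0,4),(1,0)],
   [(0,1),(0,1),(0,1),(0,2),(0,2),(1,1)],
   [(0,1),(0,1),(0,1),(0,2),(0,3),(1,0)],
   [(0,1),(0,1),(0,2),(0,2),(0,2),(1,0)],
   [(0,1),(0,1),(0,1),(0,1),(1,4)],
   [(0,1),(0,1),(0,1),(0,2),(1,3)],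
   [(0,1),(0,1),(0,1),(0,3),(1,2)],
   [(0,1),(0,1),(0,1),(0,4),(1,1)],
   [(0,1),(0,1),(0,1),(0,5),(1,0)],
   [(0,1),(0,1),(0,2),(0,2),(1,2)],
   [(0,1),(0,1),(0,2),(0,3),(1,1)],
   [(0,1),(0,1),(0,2),(0,4),(1,0)],
   [(0,1),(0,1),(0,3),(0,3),(1,0)],
   [(0,1),(0,2),(0,2),(0,2),(1,1)],
   [(0,1),(0,2),(0,2),(0,3),(1,0)],
   [(0,2),(0,2),(0,2),(0,2),(1,0)],
   [(0,1),(0,1),(0,1),(1,5)],
   [(0,1),(0,1),(0,2),(1,4)],
   [(0,1),(0,1),(0,3),(1,3)],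
   [(0,1),(0,1),(0,4),(1,2)],
   [(0,1),(0,1),(0,5),(1,1)],
   [(0,1),(0,1),(0,6),(1,0)],
   [(0,1),(0,2),(0,2),(1,3)],
   [(0,1),(0,2),(0,3),(1,2)],
   [(0,1),(0,2),(0,4),(1,1)],
   [(0,1),(0,2),(0,5),(1,0)],
   [(0,1),(0,3),(0,3),(1,1)],
   [(0,1),(0,3),(0,4),(1,0)],
   [(0,2),(0,2),(0,2),(1,2)],
   [(0,2),(0,2),(0,3),(1,1)],
   [(0,2),(0,2),(0,4),(1,0)],
   [(0,2),(0,3),(0,3),(1,0)],
   [(0,1),(0,1),(1,6)],
   [(0,1),(0,2),(1,5)],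
   [(0,1),(0,3),(1,4)],
   [(0,1),(0,4),(1,3)],
   [(0,1),(0,5),(1,2)],
   [(0,1),(0,6),(1,1)],
   [(0,1),(0,7),(1,0)],
   [(0,2),(0,2),(1,4)],
   [(0,2),(0,3),(1,3)],
   [(0,2),(0,4),(1,2)],
   [(0,2),(0,5),(1,1)],
   [(0,2),(0,6),(1,0)],
   [(0,3),(0,3),(1,2)],
   [(0,3),(0,4),(1,1)],
   [(0,3),(0,5),(1,0)],
   [(0,4),(0,4),(1,0)],
   [(0,1),(1,7)],
   [(0,2),(1,6)],
   [(0,3),(1,5)],
   [(0,4),(1,4)],
   [(0,5),(1,3)],
   [(0,6),(1,2)],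
   [(0,7),(1,1)],
   [(0,8),(1,0)],
   [(1,8)]]

def cert8_1_tab : List (List (List ℕ)) :=
  [[[9,8,8,7,7,7,7,6,6,6,6,6,6,6,5,5,5,5,5,5,5,5,5,5,5,5,4,4,4,4,4,4,4,4,4,4,4,4,4,4,4,4,3,3,3,3,3,3,3,3,3,3,3,3,3,3,3,3,2,2,2,2,2,2,2,2,1],
    [8,8,8,8,8,8,8,8,8,8,8,8,8,8,8,8,8,8,8,8,8,8,8,8,8,8,8,8,8,8,8,8,8,8,8,8,8,8,8,8,8,8,8,8,8,8,8,8,8,8,8,8,8,8,8,8,8,8,8,8,8,8,8,8,8,8,8],
    [0,0,1,1,1,3,2,3,2,3,6,2,4,3,6,4,4,6,10,3,4,7,6,3,5,4,10,7,6,7,10,15,5,5,7,11,6,9,4,5,8,7,15,11,9,9,11,15,21,8,7,8,11,16,7,9,13,12,21,16,13,12,13,16,21,28,28],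
    [0,0,0,0,0,1,0,1,0,1,4,0,1,0,4,1,1,4,10,0,1,4,2,0,1,0,10,4,2,4,10,20,1,1,4,10,2,5,0,1,4,2,20,10,5,5,10,20,35,4,2,4,10,20,2,5,11,8,35,20,11,8,11,20,35,56,56],
    [0,0,0,0,0,0,0,0,0,0,1,0,0,0,1,0,0,1,5,0,0,1,0,0,0,0,5,1,0,1,5,15,0,0,1,5,0,1,0,0,1,0,15,5,1,1,5,15,35,1,0,1,5,15,0,1,5,2,35,15,5,2,5,15,35,70,70],
    [0,0,0,0,0,0,0,0,0,0,0,0,0,0,0,0,0,0,1,0,0,0,0,0,0,0,1,0,0,0,1,6,0,0,0,1,0,0,0,0,0,0,6,1,0,0,1,6,21,0,0,0,1,6,0,0,1,0,21,6,1,0,1,6,21,56,56],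
    [0,0,0,0,0,0,0,0,0,0,0,0,0,0,0,0,0,0,0,0,0,0,0,0,0,0,0,0,0,0,0,1,0,0,0,0,0,0,0,0,0,0,1,0,0,0,0,1,7,0,0,0,0,1,0,0,0,0,7,1,0,0,0,1,7,28,28],
    [0,0,0,0,0,0,0,0,0,0,0,0,0,0,0,0,0,0,0,0,0,0,0,0,0,0,0,0,0,0,0,0,0,0,0,0,0,0,0,0,0,0,0,0,0,0,0,0,1,0,0,0,0,0,0,0,0,0,1,0,0,0,0,0,1,8,8],
    [0,0,0,0,0,0,0,0,0,0,0,0,0,0,0,0,0,0,0,0,0,0,0,0,0,0,0,0,0,0,0,0,0,0,0,0,0,0,0,0,0,0,0,0,0,0,0,0,0,0,0,0,0,0,0,0,0,0,0,0,0,0,0,0,0,1,1]],
   [[1,1,1,1,1,1,1,1,1,1,1,1,1,1,1,1,1,1,1,1,1,1,1,1,1,1,1,1,1,1,1,1,1,1,1,1,1,1,1,1,1,1,1,1,1,1,1,1,1,1,1,1,1,1,1,1,1,1,1,1,1,1,1,1,1,1,1],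
    [0,1,0,2,1,0,0,3,2,1,0,1,0,0,4,3,2,1,0,2,1,0,0,1,0,0,5,4,3,2,1,0,3,2,1,0,1,0,2,1,0,0,6,5,4,3,2,1,0,4,3,2,1,0,2,1,0,0,7,6,5,4,3,2,1,0,8],
    [0,0,0,1,0,0,0,3,1,0,0,0,0,0,6,3,1,0,0,1,0,0,0,0,0,0,10,6,3,1,0,0,3,1,0,0,0,0,1,0,0,0,15,10,6,3,1,0,0,6,3,1,0,0,1,0,0,0,21,15,10,6,3,1,0,0,28],
    [0,0,0,0,0,0,0,1,0,0,0,0,0,0,4,1,0,0,0,0,0,0,0,0,0,0,10,4,1,0,0,0,1,0,0,0,0,0,0,0,0,0,20,10,4,1,0,0,0,4,1,0,0,0,0,0,0,0,35,20,10,4,1,0,0,0,56],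
    [0,0,0,0,0,0,0,0,0,0,0,0,0,0,1,0,0,0,0,0,0,0,0,0,0,0,5,1,0,0,0,0,0,0,0,0,0,0,0,0,0,0,15,5,1,0,0,0,0,1,0,0,0,0,0,0,0,0,35,15,5,1,0,0,0,0,70],
    [0,0,0,0,0,0,0,0,0,0,0,0,0,0,0,0,0,0,0,0,0,0,0,0,0,0,1,0,0,0,0,0,0,0,0,0,0,0,0,0,0,0,6,1,0,0,0,0,0,0,0,0,0,0,0,0,0,0,21,6,1,0,0,0,0,0,56],
    [0,0,0,0,0,0,0,0,0,0,0,0,0,0,0,0,0,0,0,0,0,0,0,0,0,0,0,0,0,0,0,0,0,0,0,0,0,0,0,0,0,0,1,0,0,0,0,0,0,0,0,0,0,0,0,0,0,0,7,1,0,0,0,0,0,0,28],
    [0,0,0,0,0,0,0,0,0,0,0,0,0,0,0,0,0,0,0,0,0,0,0,0,0,0,0,0,0,0,0,0,0,0,0,0,0,0,0,0,0,0,0,0,0,0,0,0,0,0,0,0,0,0,0,0,0,0,1,0,0,0,0,0,0,0,8],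
    [0,0,0,0,0,0,0,0,0,0,0,0,0,0,0,0,0,0,0,0,0,0,0,0,0,0,0,0,0,0,0,0,0,0,0,0,0,0,0,0,0,0,0,0,0,0,0,0,0,0,0,0,0,0,0,0,0,0,0,0,0,0,0,0,0,0,1]]]

def cert8_1_R0 : List (List ℕ) :=
  [[1,1,1,1,1,1,1,1,1,1,1,1,1,1,1,1,1,1,1,1,1,1,1,1,1,1,1,1,1,1,1,1,1,1,1,1,1,1,1,1,1,1,1,1,1,1,1,1,1,1,1,1,1,1,1,1,1,1,1,1,1,1,1,1,1,1,1],
   [0,1,0,2,1,0,0,3,2,1,0,1,0,0,4,3,2,1,0,2,1,0,0,1,0,0,5,4,3,2,1,0,3,2,1,0,1,0,2,1,0,0,6,5,4,3,2,1,0,4,3,2,1,0,2,1,0,0,7,6,5,4,3,2,1,0,8],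
   [0,0,1,1,1,3,2,3,2,3,6,2,4,3,6,4,4,6,10,3,4,7,6,3,5,4,10,7,6,7,10,15,5,5,7,11,6,9,4,5,8,7,15,11,9,9,11,15,21,8,7,8,11,16,7,9,13,12,21,16,13,12,13,16,21,28,28],
   [0,0,0,1,0,0,0,3,1,0,0,0,0,0,6,3,1,0,0,1,0,0,0,0,0,0,10,6,3,1,0,0,3,1,0,0,0,0,1,0,0,0,15,10,6,3,1,0,0,6,3,1,0,0,1,0,0,0,21,15,10,6,3,1,0,0,28],
   [0,0,0,0,1,0,0,3,2,3,0,2,0,0,12,6,6,6,0,4,4,0,0,3,0,0,30,16,12,12,10,0,9,8,7,0,6,0,6,5,0,0,60,35,24,21,20,15,0,20,15,14,11,0,12,9,0,0,105,66,45,36,33,30,21,0,168],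
   [0,0,0,0,0,1,0,1,0,1,4,0,1,0,4,1,1,4,10,0,1,4,2,0,1,0,10,4,2,4,10,20,1,1,4,10,2,5,0,1,4,2,20,10,5,5,10,20,35,4,2,4,10,20,2,5,11,8,35,20,11,8,11,20,35,56,56],
   [0,0,0,0,0,0,1,0,1,0,3,1,3,3,3,3,3,3,15,3,3,9,9,3,7,6,15,9,9,9,15,45,7,7,9,25,9,21,6,7,16,15,45,25,21,21,25,45,105,16,15,16,25,60,15,21,45,42,105,60,45,42,45,60,105,210,210],
   [0,0,0,0,0,0,0,1,0,0,0,0,0,0,4,1,0,0,0,0,0,0,0,0,0,0,10,4,1,0,0,0,1,0,0,0,0,0,0,0,0,0,20,10,4,1,0,0,0,4,1,0,0,0,0,0,0,0,35,20,10,4,1,0,0,0,56]]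

def cert8_1_R1 : List (List ℕ) :=
  [[0,0,0,0,0,0,0,0,1,0,0,0,0,0,6,3,3,0,0,2,0,0,0,0,0,0,30,12,9,6,0,0,6,4,0,0,0,0,3,0,0,0,90,40,24,18,10,0,0,18,12,7,0,0,6,0,0,0,210,105,60,42,30,15,0,0,420],
   [0,0,0,0,0,0,0,0,0,1,0,0,0,0,4,0,2,4,0,0,1,0,0,0,0,0,20,4,3,8,10,0,0,2,4,0,2,0,0,1,0,0,60,20,8,12,20,20,0,4,3,8,10,0,4,5,0,0,140,60,25,20,30,40,35,0,280],
   [0,0,0,0,0,0,0,0,0,0,1,0,0,0,1,0,0,1,5,0,0,1,0,0,0,0,5,1,0,1,5,15,0,0,1,5,0,1,0,0,1,0,15,5,1,1,5,15,35,1,0,1,5,15,0,1,5,2,35,15,5,2,5,15,35,70,70],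
   [0,0,0,0,0,0,0,0,0,0,0,1,0,0,0,3,0,3,0,2,3,0,0,3,0,0,15,12,9,6,15,0,9,6,9,0,9,0,6,7,0,0,90,45,36,27,30,45,0,28,21,18,25,0,18,21,0,0,315,150,105,84,75,90,105,0,840],
   [0,0,0,0,0,0,0,0,0,0,0,0,1,0,0,1,1,0,10,0,1,4,6,0,2,0,10,4,6,4,10,60,2,2,4,20,6,18,0,2,8,8,60,20,18,18,20,60,210,8,8,8,20,80,8,18,50,48,210,80,50,48,50,80,210,560,560],
   [0,0,0,0,0,0,0,0,0,0,0,0,0,1,0,0,0,0,0,1,0,3,0,1,3,4,0,3,0,3,0,15,3,3,3,15,0,9,4,3,12,9,15,15,9,9,15,15,105,12,9,12,15,60,9,9,45,36,105,60,45,36,45,60,105,420,420],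
   [0,0,0,0,0,0,0,0,0,0,0,0,0,0,1,0,0,0,0,0,0,0,0,0,0,0,5,1,0,0,0,0,0,0,0,0,0,0,0,0,0,0,15,5,1,0,0,0,0,1,0,0,0,0,0,0,0,0,35,15,5,1,0,0,0,0,70],
   [0,0,0,0,0,0,0,0,0,0,0,0,0,0,0,1,0,0,0,0,0,0,0,0,0,0,10,4,3,0,0,0,2,0,0,0,0,0,0,0,0,0,60,20,12,6,0,0,0,8,4,0,0,0,0,0,0,0,210,80,40,24,10,0,0,0,560]]

def cert8_1_R2 : List (List ℕ) :=
  [[0,0,0,0,0,0,0,0,0,0,0,0,0,0,0,0,1,0,0,0,0,0,0,0,0,0,10,0,3,4,0,0,0,1,0,0,0,0,0,0,0,0,60,10,6,12,10,0,0,0,3,4,0,0,2,0,0,0,210,60,20,24,30,20,0,0,560],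
   [0,0,0,0,0,0,0,0,0,0,0,0,0,0,0,0,0,1,0,0,0,0,0,0,0,0,5,0,0,2,5,0,0,0,1,0,0,0,0,0,0,0,30,5,0,3,10,15,0,0,0,2,5,0,0,1,0,0,105,30,5,4,15,30,35,0,280],
   [0,0,0,0,0,0,0,0,0,0,0,0,0,0,0,0,0,0,1,0,0,0,0,0,0,0,1,0,0,0,1,6,0,0,0,1,0,0,0,0,0,0,6,1,0,0,1,6,21,0,0,0,1,6,0,0,1,0,21,6,1,0,1,6,21,56,56],
   [0,0,0,0,0,0,0,0,0,0,0,0,0,0,0,0,0,0,0,1,0,0,0,0,0,0,0,6,0,3,0,0,3,3,0,0,0,0,3,0,0,0,45,30,18,9,15,0,0,18,9,9,0,0,9,0,0,0,315,135,90,54,45,45,0,0,1260],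
   [0,0,0,0,0,0,0,0,0,0,0,0,0,0,0,0,0,0,0,0,1,0,0,0,0,0,0,4,3,0,10,0,0,2,4,0,6,0,0,2,0,0,60,20,24,12,20,60,0,8,6,8,20,0,12,18,0,0,420,120,90,72,60,120,210,0,1680],
   [0,0,0,0,0,0,0,0,0,0,0,0,0,0,0,0,0,0,0,0,0,1,0,0,0,0,0,1,0,1,0,15,0,0,1,5,0,3,0,0,2,0,15,5,3,3,5,15,105,2,0,2,5,30,0,3,15,12,105,30,15,12,15,30,105,420,420],
   [0,0,0,0,0,0,0,0,0,0,0,0,0,0,0,0,0,0,0,0,0,0,1,0,0,0,0,0,1,0,0,10,0,0,0,0,1,4,0,0,0,1,10,0,4,4,0,10,70,0,1,0,0,10,1,4,10,16,70,10,10,16,10,10,70,280,280],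
   [0,0,0,0,0,0,0,0,0,0,0,0,0,0,0,0,0,0,0,0,0,0,0,1,0,0,0,0,0,0,0,0,3,0,3,0,0,0,2,3,0,0,0,15,0,9,0,15,0,12,9,6,15,0,0,9,0,0,105,90,45,36,45,30,105,0,840]]

def cert8_1_R3 : List (List ℕ) :=
  [[0,0,0,0,0,0,0,0,0,0,0,0,0,0,0,0,0,0,0,0,0,0,0,0,1,0,0,0,0,0,0,0,1,1,0,10,0,3,0,1,4,6,0,10,3,3,10,0,105,4,6,4,10,60,6,3,45,24,105,60,45,24,45,60,105,840,840],
   [0,0,0,0,0,0,0,0,0,0,0,0,0,0,0,0,0,0,0,0,0,0,0,0,0,1,0,0,0,0,0,0,0,0,0,0,0,0,1,0,3,0,0,0,0,0,0,0,0,3,0,3,0,15,0,0,0,9,0,15,0,9,0,15,0,105,105],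
   [0,0,0,0,0,0,0,0,0,0,0,0,0,0,0,0,0,0,0,0,0,0,0,0,0,0,1,0,0,0,0,0,0,0,0,0,0,0,0,0,0,0,6,1,0,0,0,0,0,0,0,0,0,0,0,0,0,0,21,6,1,0,0,0,0,0,56],
   [0,0,0,0,0,0,0,0,0,0,0,0,0,0,0,0,0,0,0,0,0,0,0,0,0,0,0,1,0,0,0,0,0,0,0,0,0,0,0,0,0,0,15,5,3,0,0,0,0,2,0,0,0,0,0,0,0,0,105,30,15,6,0,0,0,0,420],
   [0,0,0,0,0,0,0,0,0,0,0,0,0,0,0,0,0,0,0,0,0,0,0,0,0,0,0,0,1,0,0,0,0,0,0,0,0,0,0,0,0,0,20,0,4,4,0,0,0,0,1,0,0,0,0,0,0,0,140,20,10,16,10,0,0,0,560],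
   [0,0,0,0,0,0,0,0,0,0,0,0,0,0,0,0,0,0,0,0,0,0,0,0,0,0,0,0,0,1,0,0,0,0,0,0,0,0,0,0,0,0,15,0,0,3,5,0,0,0,0,1,0,0,0,0,0,0,105,15,0,6,15,15,0,0,420],
   [0,0,0,0,0,0,0,0,0,0,0,0,0,0,0,0,0,0,0,0,0,0,0,0,0,0,0,0,0,0,1,0,0,0,0,0,0,0,0,0,0,0,6,0,0,0,2,6,0,0,0,0,1,0,0,0,0,0,42,6,0,0,3,12,21,0,168],
   [0,0,0,0,0,0,0,0,0,0,0,0,0,0,0,0,0,0,0,0,0,0,0,0,0,0,0,0,0,0,0,1,0,0,0,0,0,0,0,0,0,0,1,0,0,0,0,1,7,0,0,0,0,1,0,0,0,0,7,1,0,0,0,1,7,28,28]]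

def cert8_1_R4 : List (List ℕ) :=
  [[0,0,0,0,0,0,0,0,0,0,0,0,0,0,0,0,0,0,0,0,0,0,0,0,0,0,0,0,0,0,0,0,1,0,0,0,0,0,0,0,0,0,0,10,0,3,0,0,0,4,3,0,0,0,0,0,0,0,105,60,30,12,15,0,0,0,840],
   [0,0,0,0,0,0,0,0,0,0,0,0,0,0,0,0,0,0,0,0,0,0,0,0,0,0,0,0,0,0,0,0,0,1,0,0,0,0,0,0,0,0,0,10,6,0,10,0,0,0,3,4,0,0,6,0,0,0,210,60,60,24,30,60,0,0,1680],
   [0,0,0,0,0,0,0,0,0,0,0,0,0,0,0,0,0,0,0,0,0,0,0,0,0,0,0,0,0,0,0,0,0,0,1,0,0,0,0,0,0,0,0,5,0,3,0,15,0,0,0,2,5,0,0,3,0,0,105,30,15,12,15,30,105,0,840],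
   [0,0,0,0,0,0,0,0,0,0,0,0,0,0,0,0,0,0,0,0,0,0,0,0,0,0,0,0,0,0,0,0,0,0,0,1,0,0,0,0,0,0,0,1,0,0,1,0,21,0,0,0,1,6,0,0,3,0,21,6,3,0,3,6,21,168,168],
   [0,0,0,0,0,0,0,0,0,0,0,0,0,0,0,0,0,0,0,0,0,0,0,0,0,0,0,0,0,0,0,0,0,0,0,0,1,0,0,0,0,0,0,0,4,0,0,10,0,0,0,0,0,0,2,4,0,0,70,0,20,16,0,20,70,0,560],
   [0,0,0,0,0,0,0,0,0,0,0,0,0,0,0,0,0,0,0,0,0,0,0,0,0,0,0,0,0,0,0,0,0,0,0,0,0,1,0,0,0,0,0,0,1,1,0,0,35,0,0,0,0,0,0,1,5,8,35,0,5,8,5,0,35,280,280],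
   [0,0,0,0,0,0,0,0,0,0,0,0,0,0,0,0,0,0,0,0,0,0,0,0,0,0,0,0,0,0,0,0,0,0,0,0,0,0,1,0,0,0,0,0,0,0,0,0,0,6,0,3,0,0,0,0,0,0,0,45,0,18,0,15,0,0,420],
   [0,0,0,0,0,0,0,0,0,0,0,0,0,0,0,0,0,0,0,0,0,0,0,0,0,0,0,0,0,0,0,0,0,0,0,0,0,0,0,1,0,0,0,0,0,0,0,0,0,4,3,0,10,0,0,3,0,0,0,60,15,12,30,0,105,0,840]]

def cert8_1_R5 : List (List ℕ) :=
  [[0,0,0,0,0,0,0,0,0,0,0,0,0,0,0,0,0,0,0,0,0,0,0,0,0,0,0,0,0,0,0,0,0,0,0,0,0,0,0,0,1,0,0,0,0,0,0,0,0,1,0,1,0,15,0,0,0,6,0,15,0,6,0,15,0,210,210],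
   [0,0,0,0,0,0,0,0,0,0,0,0,0,0,0,0,0,0,0,0,0,0,0,0,0,0,0,0,0,0,0,0,0,0,0,0,0,0,0,0,0,1,0,0,0,0,0,0,0,0,1,0,0,10,1,0,10,0,0,10,10,0,10,10,0,280,280],
   [0,0,0,0,0,0,0,0,0,0,0,0,0,0,0,0,0,0,0,0,0,0,0,0,0,0,0,0,0,0,0,0,0,0,0,0,0,0,0,0,0,0,1,0,0,0,0,0,0,0,0,0,0,0,0,0,0,0,7,1,0,0,0,0,0,0,28],
   [0,0,0,0,0,0,0,0,0,0,0,0,0,0,0,0,0,0,0,0,0,0,0,0,0,0,0,0,0,0,0,0,0,0,0,0,0,0,0,0,0,0,0,1,0,0,0,0,0,0,0,0,0,0,0,0,0,0,21,6,3,0,0,0,0,0,168],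
   [0,0,0,0,0,0,0,0,0,0,0,0,0,0,0,0,0,0,0,0,0,0,0,0,0,0,0,0,0,0,0,0,0,0,0,0,0,0,0,0,0,0,0,0,1,0,0,0,0,0,0,0,0,0,0,0,0,0,35,0,5,4,0,0,0,0,280],
   [0,0,0,0,0,0,0,0,0,0,0,0,0,0,0,0,0,0,0,0,0,0,0,0,0,0,0,0,0,0,0,0,0,0,0,0,0,0,0,0,0,0,0,0,0,1,0,0,0,0,0,0,0,0,0,0,0,0,35,0,0,4,5,0,0,0,280],
   [0,0,0,0,0,0,0,0,0,0,0,0,0,0,0,0,0,0,0,0,0,0,0,0,0,0,0,0,0,0,0,0,0,0,0,0,0,0,0,0,0,0,0,0,0,0,1,0,0,0,0,0,0,0,0,0,0,0,21,0,0,0,3,6,0,0,168],
   [0,0,0,0,0,0,0,0,0,0,0,0,0,0,0,0,0,0,0,0,0,0,0,0,0,0,0,0,0,0,0,0,0,0,0,0,0,0,0,0,0,0,0,0,0,0,0,1,0,0,0,0,0,0,0,0,0,0,7,0,0,0,0,2,7,0,56]]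

def cert8_1_R6 : List (List ℕ) :=
  [[0,0,0,0,0,0,0,0,0,0,0,0,0,0,0,0,0,0,0,0,0,0,0,0,0,0,0,0,0,0,0,0,0,0,0,0,0,0,0,0,0,0,0,0,0,0,0,0,1,0,0,0,0,0,0,0,0,0,1,0,0,0,0,0,1,8,8],
   [0,0,0,0,0,0,0,0,0,0,0,0,0,0,0,0,0,0,0,0,0,0,0,0,0,0,0,0,0,0,0,0,0,0,0,0,0,0,0,0,0,0,0,0,0,0,0,0,0,1,0,0,0,0,0,0,0,0,0,15,0,3,0,0,0,0,210],
   [0,0,0,0,0,0,0,0,0,0,0,0,0,0,0,0,0,0,0,0,0,0,0,0,0,0,0,0,0,0,0,0,0,0,0,0,0,0,0,0,0,0,0,0,0,0,0,0,0,0,1,0,0,0,0,0,0,0,0,20,10,0,10,0,0,0,560],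
   [0,0,0,0,0,0,0,0,0,0,0,0,0,0,0,0,0,0,0,0,0,0,0,0,0,0,0,0,0,0,0,0,0,0,0,0,0,0,0,0,0,0,0,0,0,0,0,0,0,0,0,1,0,0,0,0,0,0,0,15,0,6,0,15,0,0,420],
   [0,0,0,0,0,0,0,0,0,0,0,0,0,0,0,0,0,0,0,0,0,0,0,0,0,0,0,0,0,0,0,0,0,0,0,0,0,0,0,0,0,0,0,0,0,0,0,0,0,0,0,0,1,0,0,0,0,0,0,6,0,0,3,0,21,0,168],
   [0,0,0,0,0,0,0,0,0,0,0,0,0,0,0,0,0,0,0,0,0,0,0,0,0,0,0,0,0,0,0,0,0,0,0,0,0,0,0,0,0,0,0,0,0,0,0,0,0,0,0,0,0,1,0,0,0,0,0,1,0,0,0,1,0,28,28],
   [0,0,0,0,0,0,0,0,0,0,0,0,0,0,0,0,0,0,0,0,0,0,0,0,0,0,0,0,0,0,0,0,0,0,0,0,0,0,0,0,0,0,0,0,0,0,0,0,0,0,0,0,0,0,1,0,0,0,0,0,10,0,0,10,0,0,280],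
   [0,0,0,0,0,0,0,0,0,0,0,0,0,0,0,0,0,0,0,0,0,0,0,0,0,0,0,0,0,0,0,0,0,0,0,0,0,0,0,0,0,0,0,0,0,0,0,0,0,0,0,0,0,0,0,1,0,0,0,0,5,4,0,0,35,0,280]]

def cert8_1_R7 : List (List ℕ) :=
  [[0,0,0,0,0,0,0,0,0,0,0,0,0,0,0,0,0,0,0,0,0,0,0,0,0,0,0,0,0,0,0,0,0,0,0,0,0,0,0,0,0,0,0,0,0,0,0,0,0,0,0,0,0,0,0,0,1,0,0,0,1,0,1,0,0,56,56],
   [0,0,0,0,0,0,0,0,0,0,0,0,0,0,0,0,0,0,0,0,0,0,0,0,0,0,0,0,0,0,0,0,0,0,0,0,0,0,0,0,0,0,0,0,0,0,0,0,0,0,0,0,0,0,0,0,0,1,0,0,0,1,0,0,0,35,35],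
   [0,0,0,0,0,0,0,0,0,0,0,0,0,0,0,0,0,0,0,0,0,0,0,0,0,0,0,0,0,0,0,0,0,0,0,0,0,0,0,0,0,0,0,0,0,0,0,0,0,0,0,0,0,0,0,0,0,0,1,0,0,0,0,0,0,0,8],
   [0,0,0,0,0,0,0,0,0,0,0,0,0,0,0,0,0,0,0,0,0,0,0,0,0,0,0,0,0,0,0,0,0,0,0,0,0,0,0,0,0,0,0,0,0,0,0,0,0,0,0,0,0,0,0,0,0,0,0,1,0,0,0,0,0,0,28],
   [0,0,0,0,0,0,0,0,0,0,0,0,0,0,0,0,0,0,0,0,0,0,0,0,0,0,0,0,0,0,0,0,0,0,0,0,0,0,0,0,0,0,0,0,0,0,0,0,0,0,0,0,0,0,0,0,0,0,0,0,1,0,0,0,0,0,56],
   [0,0,0,0,0,0,0,0,0,0,0,0,0,0,0,0,0,0,0,0,0,0,0,0,0,0,0,0,0,0,0,0,0,0,0,0,0,0,0,0,0,0,0,0,0,0,0,0,0,0,0,0,0,0,0,0,0,0,0,0,0,1,0,0,0,0,70],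
   [0,0,0,0,0,0,0,0,0,0,0,0,0,0,0,0,0,0,0,0,0,0,0,0,0,0,0,0,0,0,0,0,0,0,0,0,0,0,0,0,0,0,0,0,0,0,0,0,0,0,0,0,0,0,0,0,0,0,0,0,0,0,1,0,0,0,56],
   [0,0,0,0,0,0,0,0,0,0,0,0,0,0,0,0,0,0,0,0,0,0,0,0,0,0,0,0,0,0,0,0,0,0,0,0,0,0,0,0,0,0,0,0,0,0,0,0,0,0,0,0,0,0,0,0,0,0,0,0,0,0,0,1,0,0,28]]

def cert8_1_R8 : List (List ℕ) :=
  [[0,0,0,0,0,0,0,0,0,0,0,0,0,0,0,0,0,0,0,0,0,0,0,0,0,0,0,0,0,0,0,0,0,0,0,0,0,0,0,0,0,0,0,0,0,0,0,0,0,0,0,0,0,0,0,0,0,0,0,0,0,0,0,0,1,0,8],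
   [0,0,0,0,0,0,0,0,0,0,0,0,0,0,0,0,0,0,0,0,0,0,0,0,0,0,0,0,0,0,0,0,0,0,0,0,0,0,0,0,0,0,0,0,0,0,0,0,0,0,0,0,0,0,0,0,0,0,0,0,0,0,0,0,0,1,1],
   [0,0,0,0,0,0,0,0,0,0,0,0,0,0,0,0,0,0,0,0,0,0,0,0,0,0,0,0,0,0,0,0,0,0,0,0,0,0,0,0,0,0,0,0,0,0,0,0,0,0,0,0,0,0,0,0,0,0,0,0,0,0,0,0,0,0,1]]

def cert8_1_m0 : List (List (List (ℕ × ℕ))) :=
  [[[],
    [(0,8)],
    [(2,1)],
    [(5,1)],
    [(10,1)],
    [(18,1)],
    [(31,1)],
    [(48,1)],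
    [(65,1)]],
   [[(0,1)],
    [(1,1)],
    [(3,1)],
    [(7,1)],
    [(14,1)],
    [(26,1)],
    [(42,1)],
    [(58,1)],
    [(66,1)]]]
def cert8_1_m1 : List (List (List (ℕ × ℕ))) :=
  [[[],
    [(1,8)],
    [(3,2),(4,1)],
    [(7,3),(9,1)],
    [(14,4),(17,1)],
    [(26,5),(30,1)],
    [(42,6),(47,1)],
    [(58,7),(64,1)],
    [(66,8)]],
   [[(1,1)],
    [(1,1),(3,2)],
    [(3,2),(7,3)],
    [(7,3),(14,4)],
    [(14,4),(26,5)],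
    [(26,5),(42,6)],
    [(42,6),(58,7)],
    [(58,7),(66,8)],
    [(66,8)]]]
def cert8_1_m2 : List (List (List (ℕ × ℕ))) :=
  [[[],
    [(2,8)],
    [(2,1),(5,6),(6,2)],
    [(5,3),(10,12),(12,1)],
    [(10,6),(18,20),(21,1)],
    [(18,10),(31,30),(35,1)],
    [(31,15),(48,42),(53,1)],
    [(48,21),(65,56)],
    [(65,28)]],
   [[(2,1)],
    [(3,2),(4,1)],
    [(3,1),(7,6),(8,1)],
    [(7,3),(14,12),(15,1)],
    [(14,6),(26,20),(27,1)],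
    [(26,10),(42,30),(43,1)],
    [(42,15),(58,42),(59,1)],
    [(58,21),(66,56)],
    [(66,28)]]]
def cert8_1_m3 : List (List (List (ℕ × ℕ))) :=
  [[[],
    [(3,8)],
    [(3,1),(7,6),(8,1)],
    [(7,3),(14,12),(16,1)],
    [(14,6),(26,20),(29,1)],
    [(26,10),(42,30),(46,1)],
    [(42,15),(58,42),(63,1)],
    [(58,21),(66,56)],
    [(66,28)]],
   [[(3,1)],
    [(3,2),(7,3)],
    [(3,1),(7,6),(14,6)],
    [(7,3),(14,12),(26,10)],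
    [(14,6),(26,20),(42,15)],
    [(26,10),(42,30),(58,21)],
    [(42,15),(58,42),(66,28)],
    [(58,21),(66,56)],
    [(66,28)]]]
def cert8_1_m4 : List (List (List (ℕ × ℕ))) :=
  [[[],
    [(4,8)],
    [(4,1),(7,6),(8,2),(9,6),(11,2)],
    [(7,3),(9,3),(14,24),(15,3),(17,12),(20,1)],
    [(14,12),(17,6),(26,60),(27,4),(30,20),(34,1)],
    [(26,30),(30,10),(42,120),(43,5),(47,30),(52,1)],
    [(42,60),(47,15),(58,210),(59,6),(64,42)],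
    [(58,105),(64,21),(66,336)],
    [(66,168)]],
   [[(4,1)],
    [(4,1),(7,6),(8,2)],
    [(7,9),(8,2),(14,24),(15,3)],
    [(7,3),(14,36),(15,3),(26,60),(27,4)],
    [(14,12),(26,90),(27,4),(42,120),(43,5)],
    [(26,30),(42,180),(43,5),(58,210),(59,6)],
    [(42,60),(58,315),(59,6),(66,336)],
    [(58,105),(66,504)],
    [(66,168)]]]
def cert8_1_m5 : List (List (List (ℕ × ℕ))) :=
  [[[],
    [(5,8)],
    [(5,3),(10,12),(12,1)],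
    [(5,1),(10,12),(18,30),(22,2)],
    [(10,4),(18,30),(31,60),(37,1)],
    [(18,10),(31,60),(48,105),(56,1)],
    [(31,20),(48,105),(65,168)],
    [(48,35),(65,168)],
    [(65,56)]],
   [[(5,1)],
    [(7,3),(9,1)],
    [(7,3),(14,12),(16,1)],
    [(7,1),(14,12),(26,30),(28,1)],
    [(14,4),(26,30),(42,60),(44,1)],
    [(26,10),(42,60),(58,105),(60,1)],
    [(42,20),(58,105),(66,168)],
    [(58,35),(66,168)],
    [(66,56)]]]
def cert8_1_m6 : List (List (List (ℕ × ℕ))) :=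
  [[[],
    [(6,8)],
    [(6,2),(10,12),(12,6),(13,3)],
    [(10,12),(12,3),(18,60),(21,12),(24,1)],
    [(10,3),(18,60),(21,6),(31,180),(35,20),(40,1)],
    [(18,15),(31,180),(35,10),(48,420),(53,30)],
    [(31,45),(48,420),(53,15),(65,840)],
    [(48,105),(65,840)],
    [(65,210)]],
   [[(6,1)],
    [(8,2),(11,1)],
    [(8,1),(14,12),(15,6),(19,1)],
    [(14,12),(15,3),(26,60),(27,12),(32,1)],
    [(14,3),(26,60),(27,6),(42,180),(43,20),(49,1)],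
    [(26,15),(42,180),(43,10),(58,420),(59,30)],
    [(42,45),(58,420),(59,15),(66,840)],
    [(58,105),(66,840)],
    [(66,210)]]]
def cert8_1_m7 : List (List (List (ℕ × ℕ))) :=
  [[[],
    [(7,8)],
    [(7,3),(14,12),(15,1)],
    [(7,1),(14,12),(26,30),(28,1)],
    [(14,4),(26,30),(42,60),(45,1)],
    [(26,10),(42,60),(58,105),(62,1)],
    [(42,20),(58,105),(66,168)],
    [(58,35),(66,168)],
    [(66,56)]],
   [[(7,1)],
    [(7,3),(14,4)],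
    [(7,3),(14,12),(26,10)],
    [(7,1),(14,12),(26,30),(42,20)],
    [(14,4),(26,30),(42,60),(58,35)],
    [(26,10),(42,60),(58,105),(66,56)],
    [(42,20),(58,105),(66,168)],
    [(58,35),(66,168)],
    [(66,56)]]]
def cert8_1_m8 : List (List (List (ℕ × ℕ))) :=
  [[[],
    [(8,8)],
    [(8,2),(14,24),(15,6),(16,6),(19,2)],
    [(14,24),(15,3),(16,3),(26,120),(27,12),(29,12),(33,1)],
    [(14,6),(26,120),(27,6),(29,6),(42,360),(43,20),(46,20),(51,1)],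
    [(26,30),(42,360),(43,10),(46,10),(58,840),(59,30),(63,30)],
    [(42,90),(58,840),(59,15),(63,15),(66,1680)],
    [(58,210),(66,1680)],
    [(66,420)]],
   [[(8,1)],
    [(8,2),(14,12),(15,3)],
    [(8,1),(14,30),(15,6),(26,60),(27,6)],
    [(14,24),(15,3),(26,150),(27,12),(42,180),(43,10)],
    [(14,6),(26,120),(27,6),(42,450),(43,20),(58,420),(59,15)],
    [(26,30),(42,360),(43,10),(58,1050),(59,30),(66,840)],
    [(42,90),(58,840),(59,15),(66,2100)],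
    [(58,210),(66,1680)],
    [(66,420)]]]
def cert8_1_m9 : List (List (List (ℕ × ℕ))) :=
  [[[],
    [(9,8)],
    [(9,3),(14,12),(16,2),(17,12),(20,1)],
    [(9,1),(14,12),(17,12),(26,60),(28,3),(30,30),(36,2)],
    [(14,4),(17,4),(26,60),(30,30),(42,180),(44,4),(47,60),(55,1)],
    [(26,20),(30,10),(42,180),(47,60),(58,420),(60,5),(64,105)],
    [(42,60),(47,20),(58,420),(64,105),(66,840)],
    [(58,140),(64,35),(66,840)],
    [(66,280)]],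
   [[(9,1)],
    [(9,1),(14,12),(16,2)],
    [(14,24),(16,2),(26,60),(28,3)],
    [(14,16),(26,120),(28,3),(42,180),(44,4)],
    [(14,4),(26,80),(42,360),(44,4),(58,420),(60,5)],
    [(26,20),(42,240),(58,840),(60,5),(66,840)],
    [(42,60),(58,560),(66,1680)],
    [(58,140),(66,1120)],
    [(66,280)]]]
def cert8_1_m10 : List (List (List (ℕ × ℕ))) :=
  [[[],
    [(10,8)],
    [(10,6),(18,20),(21,1)],
    [(10,4),(18,30),(31,60),(37,1)],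
    [(10,1),(18,20),(31,90),(48,140),(57,2)],
    [(18,5),(31,60),(48,210),(65,280)],
    [(31,15),(48,140),(65,420)],
    [(48,35),(65,280)],
    [(65,70)]],
   [[(10,1)],
    [(14,4),(17,1)],
    [(14,6),(26,20),(29,1)],
    [(14,4),(26,30),(42,60),(45,1)],
    [(14,1),(26,20),(42,90),(58,140),(61,1)],
    [(26,5),(42,60),(58,210),(66,280)],
    [(42,15),(58,140),(66,420)],
    [(58,35),(66,280)],
    [(66,70)]]]
def cert8_1_m11 : List (List (List (ℕ × ℕ))) :=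
  [[[],
    [(11,8)],
    [(11,2),(15,6),(17,12),(19,2),(20,6),(23,3)],
    [(15,3),(17,12),(20,3),(26,60),(27,24),(30,60),(32,3),(34,12),(39,1)],
    [(17,3),(26,60),(27,12),(30,60),(34,6),(42,360),(43,60),(47,180),(49,4),(52,20)],
    [(26,15),(30,15),(42,360),(43,30),(47,180),(52,10),(58,1260),(59,120),(64,420)],
    [(42,90),(47,45),(58,1260),(59,60),(64,420),(66,3360)],
    [(58,315),(64,105),(66,3360)],
    [(66,840)]],
   [[(11,1)],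
    [(11,1),(15,6),(19,2)],
    [(15,9),(19,2),(26,60),(27,24),(32,3)],
    [(15,3),(26,120),(27,36),(32,3),(42,360),(43,60),(49,4)],
    [(26,75),(27,12),(42,720),(43,90),(49,4),(58,1260),(59,120)],
    [(26,15),(42,450),(43,30),(58,2520),(59,180),(66,3360)],
    [(42,90),(58,1575),(59,60),(66,6720)],
    [(58,315),(66,4200)],
    [(66,840)]]]
def cert8_1_m12 : List (List (List (ℕ × ℕ))) :=
  [[[],
    [(12,8)],
    [(12,4),(18,60),(21,12),(22,12),(24,2)],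
    [(12,1),(18,90),(21,12),(22,6),(31,360),(35,30),(37,12),(41,2)],
    [(18,50),(21,4),(31,540),(35,30),(37,6),(48,1260),(53,60),(56,20)],
    [(18,10),(31,300),(35,10),(48,1890),(53,60),(56,10),(65,3360)],
    [(31,60),(48,1050),(53,20),(65,5040)],
    [(48,210),(65,2800)],
    [(65,560)]],
   [[(12,1)],
    [(15,3),(16,2),(20,1)],
    [(15,3),(16,1),(26,60),(27,12),(28,6),(33,1)],
    [(15,1),(26,90),(27,12),(28,3),(42,360),(43,30),(44,12),(50,1)],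
    [(26,50),(27,4),(42,540),(43,30),(44,6),(58,1260),(59,60),(60,20)],
    [(26,10),(42,300),(43,10),(58,1890),(59,60),(60,10),(66,3360)],
    [(42,60),(58,1050),(59,20),(66,5040)],
    [(58,210),(66,2800)],
    [(66,560)]]]
def cert8_1_m13 : List (List (List (ℕ × ℕ))) :=
  [[[],
    [(13,8)],
    [(13,3),(21,12),(24,6),(25,4)],
    [(21,12),(24,3),(31,120),(35,60),(40,12)],
    [(21,3),(31,180),(35,60),(40,6),(48,840),(53,180)],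
    [(31,90),(35,15),(48,1260),(53,180),(65,3360)],
    [(31,15),(48,630),(53,45),(65,5040)],
    [(48,105),(65,2520)],
    [(65,420)]],
   [[(13,1)],
    [(19,2),(23,1)],
    [(19,1),(27,12),(32,6),(38,1)],
    [(27,12),(32,3),(42,120),(43,60),(49,12)],
    [(27,3),(42,180),(43,60),(49,6),(58,840),(59,180)],
    [(42,90),(43,15),(58,1260),(59,180),(66,3360)],
    [(42,15),(58,630),(59,45),(66,5040)],
    [(58,105),(66,2520)],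
    [(66,420)]]]
def cert8_1_m14 : List (List (List (ℕ × ℕ))) :=
  [[[],
    [(14,8)],
    [(14,6),(26,20),(27,1)],
    [(14,4),(26,30),(42,60),(44,1)],
    [(14,1),(26,20),(42,90),(58,140),(61,1)],
    [(26,5),(42,60),(58,210),(66,280)],
    [(42,15),(58,140),(66,420)],
    [(58,35),(66,280)],
    [(66,70)]],
   [[(14,1)],
    [(14,4),(26,5)],
    [(14,6),(26,20),(42,15)],
    [(14,4),(26,30),(42,60),(58,35)],
    [(14,1),(26,20),(42,90),(58,140),(66,70)],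
    [(26,5),(42,60),(58,210),(66,280)],
    [(42,15),(58,140),(66,420)],
    [(58,35),(66,280)],
    [(66,70)]]]
def cert8_1_m15 : List (List (List (ℕ × ℕ))) :=
  [[[],
    [(15,8)],
    [(15,4),(26,60),(27,12),(28,6),(32,2)],
    [(15,1),(26,90),(27,12),(28,3),(42,360),(43,30),(45,12),(50,1)],
    [(26,50),(27,4),(42,540),(43,30),(45,6),(58,1260),(59,60),(62,20)],
    [(26,10),(42,300),(43,10),(58,1890),(59,60),(62,10),(66,3360)],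
    [(42,60),(58,1050),(59,20),(66,5040)],
    [(58,210),(66,2800)],
    [(66,560)]],
   [[(15,1)],
    [(15,3),(26,20),(27,4)],
    [(15,3),(26,70),(27,12),(42,120),(43,10)],
    [(15,1),(26,90),(27,12),(42,420),(43,30),(58,420),(59,20)],
    [(26,50),(27,4),(42,540),(43,30),(58,1470),(59,60),(66,1120)],
    [(26,10),(42,300),(43,10),(58,1890),(59,60),(66,3920)],
    [(42,60),(58,1050),(59,20),(66,5040)],
    [(58,210),(66,2800)],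
    [(66,560)]]]
def cert8_1_m16 : List (List (List (ℕ × ℕ))) :=
  [[[],
    [(16,8)],
    [(16,4),(26,60),(28,6),(29,12),(33,1)],
    [(16,1),(26,90),(28,3),(29,12),(42,360),(44,12),(46,30),(54,2)],
    [(26,50),(29,4),(42,540),(44,6),(46,30),(58,1260),(60,20),(63,60)],
    [(26,10),(42,300),(46,10),(58,1890),(60,10),(63,60),(66,3360)],
    [(42,60),(58,1050),(63,20),(66,5040)],
    [(58,210),(66,2800)],
    [(66,560)]],
   [[(16,1)],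
    [(16,2),(26,30),(28,3)],
    [(16,1),(26,90),(28,6),(42,180),(44,6)],
    [(26,100),(28,3),(42,540),(44,12),(58,630),(60,10)],
    [(26,50),(42,600),(44,6),(58,1890),(60,20),(66,1680)],
    [(26,10),(42,300),(58,2100),(60,10),(66,5040)],
    [(42,60),(58,1050),(66,5600)],
    [(58,210),(66,2800)],
    [(66,560)]]]
def cert8_1_m17 : List (List (List (ℕ × ℕ))) :=
  [[[],
    [(17,8)],
    [(17,6),(26,20),(29,2),(30,20),(34,1)],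
    [(17,4),(26,30),(30,30),(42,120),(45,3),(47,60),(55,1)],
    [(17,1),(26,20),(30,20),(42,180),(47,90),(58,420),(61,4),(64,140)],
    [(26,5),(30,5),(42,120),(47,60),(58,630),(64,210),(66,1120)],
    [(42,30),(47,15),(58,420),(64,140),(66,1680)],
    [(58,105),(64,35),(66,1120)],
    [(66,280)]],
   [[(17,1)],
    [(17,1),(26,20),(29,2)],
    [(26,50),(29,2),(42,120),(45,3)],
    [(26,50),(42,300),(45,3),(58,420),(61,4)],
    [(26,25),(42,300),(58,1050),(61,4),(66,1120)],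
    [(26,5),(42,150),(58,1050),(66,2800)],
    [(42,30),(58,525),(66,2800)],
    [(58,105),(66,1400)],
    [(66,280)]]]
def cert8_1_m18 : List (List (List (ℕ × ℕ))) :=
  [[[],
    [(18,8)],
    [(18,10),(31,30),(35,1)],
    [(18,10),(31,60),(48,105),(56,1)],
    [(18,5),(31,60),(48,210),(65,280)],
    [(18,1),(31,30),(48,210),(65,560)],
    [(31,6),(48,105),(65,560)],
    [(48,21),(65,280)],
    [(65,56)]],
   [[(18,1)],
    [(26,5),(30,1)],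
    [(26,10),(42,30),(46,1)],
    [(26,10),(42,60),(58,105),(62,1)],
    [(26,5),(42,60),(58,210),(66,280)],
    [(26,1),(42,30),(58,210),(66,560)],
    [(42,6),(58,105),(66,560)],
    [(58,21),(66,280)],
    [(66,56)]]]
def cert8_1_m19 : List (List (List (ℕ × ℕ))) :=
  [[[],
    [(19,8)],
    [(19,3),(27,24),(29,12),(32,6),(33,6),(38,3)],
    [(27,24),(29,12),(32,3),(33,3),(42,360),(43,120),(46,60),(49,12),(51,12)],
    [(27,6),(29,3),(42,540),(43,120),(46,60),(49,6),(51,6),(58,2520),(59,360),(63,180)],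
    [(42,270),(43,30),(46,15),(58,3780),(59,360),(63,180),(66,10080)],
    [(42,45),(58,1890),(59,90),(63,45),(66,15120)],
    [(58,315),(66,7560)],
    [(66,1260)]],
   [[(19,1)],
    [(19,2),(27,12),(32,3)],
    [(19,1),(27,30),(32,6),(42,180),(43,60),(49,6)],
    [(27,24),(32,3),(42,540),(43,150),(49,12),(58,1260),(59,180)],
    [(27,6),(42,585),(43,120),(49,6),(58,3780),(59,450),(66,5040)],
    [(42,270),(43,30),(58,4095),(59,360),(66,15120)],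
    [(42,45),(58,1890),(59,90),(66,16380)],
    [(58,315),(66,7560)],
    [(66,1260)]]]
def cert8_1_m20 : List (List (List (ℕ × ℕ))) :=
  [[[],
    [(20,8)],
    [(20,4),(27,12),(28,6),(30,60),(33,2),(34,12),(36,12),(39,2)],
    [(20,1),(27,12),(28,3),(30,90),(34,12),(36,6),(42,360),(43,60),(44,24),(47,360),(50,3),(52,30),(55,12)],
    [(27,4),(30,50),(34,4),(42,540),(43,60),(44,12),(47,540),(52,30),(55,6),(58,2520),(59,180),(60,60),(64,1260)],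
    [(30,10),(42,300),(43,20),(47,300),(52,10),(58,3780),(59,180),(60,30),(64,1890),(66,10080)],
    [(42,60),(47,60),(58,2100),(59,60),(64,1050),(66,15120)],
    [(58,420),(64,210),(66,8400)],
    [(66,1680)]],
   [[(20,1)],
    [(20,1),(27,12),(28,6),(33,2)],
    [(27,24),(28,9),(33,2),(42,360),(43,60),(44,24),(50,3)],
    [(27,16),(28,3),(42,900),(43,120),(44,36),(50,3),(58,2520),(59,180),(60,60)],
    [(27,4),(42,840),(43,80),(44,12),(58,6300),(59,360),(60,90),(66,10080)],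
    [(42,360),(43,20),(58,5880),(59,240),(60,30),(66,25200)],
    [(42,60),(58,2520),(59,60),(66,23520)],
    [(58,420),(66,10080)],
    [(66,1680)]]]
def cert8_1_m21 : List (List (List (ℕ × ℕ))) :=
  [[[],
    [(21,8)],
    [(21,7),(31,120),(35,20),(37,6),(40,2)],
    [(21,4),(31,240),(35,30),(37,3),(48,840),(53,60),(57,24)],
    [(21,1),(31,210),(35,20),(48,1680),(53,90),(57,12),(65,3360)],
    [(31,90),(35,5),(48,1470),(53,60),(65,6720)],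
    [(31,15),(48,630),(53,15),(65,5880)],
    [(48,105),(65,2520)],
    [(65,420)]],
   [[(21,1)],
    [(27,4),(29,2),(34,1)],
    [(27,6),(29,1),(42,120),(43,20),(45,6),(51,1)],
    [(27,4),(42,240),(43,30),(45,3),(58,840),(59,60),(61,12)],
    [(27,1),(42,210),(43,20),(58,1680),(59,90),(61,6),(66,3360)],
    [(42,90),(43,5),(58,1470),(59,60),(66,6720)],
    [(42,15),(58,630),(59,15),(66,5880)],
    [(58,105),(66,2520)],
    [(66,420)]]]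
def cert8_1_m22 : List (List (List (ℕ × ℕ))) :=
  [[[],
    [(22,8)],
    [(22,6),(31,90),(37,12),(41,1)],
    [(22,2),(31,180),(37,12),(48,630),(56,30)],
    [(31,150),(37,4),(48,1260),(56,30),(65,2520)],
    [(31,60),(48,1050),(56,10),(65,5040)],
    [(31,10),(48,420),(65,4200)],
    [(48,70),(65,1680)],
    [(65,280)]],
   [[(22,1)],
    [(28,3),(36,1)],
    [(28,3),(42,90),(44,12),(54,1)],
    [(28,1),(42,180),(44,12),(58,630),(60,30)],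
    [(42,150),(44,4),(58,1260),(60,30),(66,2520)],
    [(42,60),(58,1050),(60,10),(66,5040)],
    [(42,10),(58,420),(66,4200)],
    [(58,70),(66,1680)],
    [(66,280)]]]
def cert8_1_m23 : List (List (List (ℕ × ℕ))) :=
  [[[],
    [(23,8)],
    [(23,3),(32,6),(34,12),(38,2),(39,6)],
    [(32,3),(34,12),(39,3),(43,60),(47,120),(49,24),(52,60)],
    [(34,3),(43,60),(47,180),(49,12),(52,60),(58,840),(59,360),(64,840)],
    [(43,15),(47,90),(52,15),(58,1260),(59,360),(64,1260),(66,6720)],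
    [(47,15),(58,630),(59,90),(64,630),(66,10080)],
    [(58,105),(64,105),(66,5040)],
    [(66,840)]],
   [[(23,1)],
    [(23,1),(32,6),(38,2)],
    [(32,9),(38,2),(43,60),(49,24)],
    [(32,3),(43,120),(49,36),(58,840),(59,360)],
    [(43,75),(49,12),(58,2100),(59,720),(66,6720)],
    [(43,15),(58,1890),(59,450),(66,16800)],
    [(58,735),(59,90),(66,15120)],
    [(58,105),(66,5880)],
    [(66,840)]]]
def cert8_1_m24 : List (List (List (ℕ × ℕ))) :=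
  [[[],
    [(24,8)],
    [(24,5),(35,60),(37,12),(40,12),(41,12)],
    [(24,1),(35,90),(37,12),(40,12),(41,6),(48,1260),(53,360),(56,60)],
    [(35,50),(37,3),(40,4),(48,2520),(53,540),(56,60),(65,10080)],
    [(35,10),(48,1995),(53,300),(56,15),(65,20160)],
    [(48,735),(53,60),(65,15960)],
    [(48,105),(65,5880)],
    [(65,840)]],
   [[(24,1)],
    [(32,3),(33,2),(39,1)],
    [(32,3),(33,1),(43,60),(44,12),(49,12),(50,6)],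
    [(32,1),(43,90),(44,12),(49,12),(50,3),(58,1260),(59,360),(60,60)],
    [(43,50),(44,3),(49,4),(58,2520),(59,540),(60,60),(66,10080)],
    [(43,10),(58,1995),(59,300),(60,15),(66,20160)],
    [(58,735),(59,60),(66,15960)],
    [(58,105),(66,5880)],
    [(66,840)]]]
def cert8_1_m25 : List (List (List (ℕ × ℕ))) :=
  [[[],
    [(25,8)],
    [(25,4),(40,12)],
    [(40,12),(53,120)],
    [(40,3),(53,180),(65,1680)],
    [(53,90),(65,3360)],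
    [(53,15),(65,2520)],
    [(65,840)],
    [(65,105)]],
   [[(25,1)],
    [(38,2)],
    [(38,1),(49,12)],
    [(49,12),(59,120)],
    [(49,3),(59,180),(66,1680)],
    [(59,90),(66,3360)],
    [(59,15),(66,2520)],
    [(66,840)],
    [(66,105)]]]
def cert8_1_m26 : List (List (List (ℕ × ℕ))) :=
  [[[],
    [(26,8)],
    [(26,10),(42,30),(43,1)],
    [(26,10),(42,60),(58,105),(60,1)],
    [(26,5),(42,60),(58,210),(66,280)],
    [(26,1),(42,30),(58,210),(66,560)],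
    [(42,6),(58,105),(66,560)],
    [(58,21),(66,280)],
    [(66,56)]],
   [[(26,1)],
    [(26,5),(42,6)],
    [(26,10),(42,30),(58,21)],
    [(26,10),(42,60),(58,105),(66,56)],
    [(26,5),(42,60),(58,210),(66,280)],
    [(26,1),(42,30),(58,210),(66,560)],
    [(42,6),(58,105),(66,560)],
    [(58,21),(66,280)],
    [(66,56)]]]
def cert8_1_m27 : List (List (List (ℕ × ℕ))) :=
  [[[],
    [(27,8)],
    [(27,7),(42,120),(43,20),(44,6),(49,2)],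
    [(27,4),(42,240),(43,30),(44,3),(58,840),(59,60),(61,12)],
    [(27,1),(42,210),(43,20),(58,1680),(59,90),(61,6),(66,3360)],
    [(42,90),(43,5),(58,1470),(59,60),(66,6720)],
    [(42,15),(58,630),(59,15),(66,5880)],
    [(58,105),(66,2520)],
    [(66,420)]],
   [[(27,1)],
    [(27,4),(42,30),(43,5)],
    [(27,6),(42,135),(43,20),(58,210),(59,15)],
    [(27,4),(42,240),(43,30),(58,945),(59,60),(66,840)],
    [(27,1),(42,210),(43,20),(58,1680),(59,90),(66,3780)],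
    [(42,90),(43,5),(58,1470),(59,60),(66,6720)],
    [(42,15),(58,630),(59,15),(66,5880)],
    [(58,105),(66,2520)],
    [(66,420)]]]
def cert8_1_m28 : List (List (List (ℕ × ℕ))) :=
  [[[],
    [(28,8)],
    [(28,6),(42,180),(44,12),(45,12),(50,1)],
    [(28,2),(42,360),(44,12),(45,12),(58,1260),(60,30),(62,30)],
    [(42,300),(44,4),(45,4),(58,2520),(60,30),(62,30),(66,5040)],
    [(42,120),(58,2100),(60,10),(62,10),(66,10080)],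
    [(42,20),(58,840),(66,8400)],
    [(58,140),(66,3360)],
    [(66,560)]],
   [[(28,1)],
    [(28,3),(42,60),(44,4)],
    [(28,3),(42,240),(44,12),(58,420),(60,10)],
    [(28,1),(42,380),(44,12),(58,1680),(60,30),(66,1680)],
    [(42,300),(44,4),(58,2660),(60,30),(66,6720)],
    [(42,120),(58,2100),(60,10),(66,10640)],
    [(42,20),(58,840),(66,8400)],
    [(58,140),(66,3360)],
    [(66,560)]]]
def cert8_1_m29 : List (List (List (ℕ × ℕ))) :=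
  [[[],
    [(29,8)],
    [(29,7),(42,120),(45,6),(46,20),(51,1)],
    [(29,4),(42,240),(45,3),(46,30),(58,840),(61,12),(63,60)],
    [(29,1),(42,210),(46,20),(58,1680),(61,6),(63,90),(66,3360)],
    [(42,90),(46,5),(58,1470),(63,60),(66,6720)],
    [(42,15),(58,630),(63,15),(66,5880)],
    [(58,105),(66,2520)],
    [(66,420)]],
   [[(29,1)],
    [(29,2),(42,60),(45,3)],
    [(29,1),(42,210),(45,6),(58,420),(61,6)],
    [(42,300),(45,3),(58,1470),(61,12),(66,1680)],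
    [(42,225),(58,2100),(61,6),(66,5880)],
    [(42,90),(58,1575),(66,8400)],
    [(42,15),(58,630),(66,6300)],
    [(58,105),(66,2520)],
    [(66,420)]]]
def cert8_1_m30 : List (List (List (ℕ × ℕ))) :=
  [[[],
    [(30,8)],
    [(30,10),(42,30),(46,2),(47,30),(52,1)],
    [(30,10),(42,60),(47,60),(58,210),(62,3),(64,105)],
    [(30,5),(42,60),(47,60),(58,420),(64,210),(66,840)],
    [(30,1),(42,30),(47,30),(58,420),(64,210),(66,1680)],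
    [(42,6),(47,6),(58,210),(64,105),(66,1680)],
    [(58,42),(64,21),(66,840)],
    [(66,168)]],
   [[(30,1)],
    [(30,1),(42,30),(46,2)],
    [(42,90),(46,2),(58,210),(62,3)],
    [(42,120),(58,630),(62,3),(66,840)],
    [(42,90),(58,840),(66,2520)],
    [(42,36),(58,630),(66,3360)],
    [(42,6),(58,252),(66,2520)],
    [(58,42),(66,1008)],
    [(66,168)]]]
def cert8_1_m31 : List (List (List (ℕ × ℕ))) :=
  [[[],
    [(31,8)],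
    [(31,15),(48,42),(53,1)],
    [(31,20),(48,105),(65,168)],
    [(31,15),(48,140),(65,420)],
    [(31,6),(48,105),(65,560)],
    [(31,1),(48,42),(65,420)],
    [(48,7),(65,168)],
    [(65,28)]],
   [[(31,1)],
    [(42,6),(47,1)],
    [(42,15),(58,42),(63,1)],
    [(42,20),(58,105),(66,168)],
    [(42,15),(58,140),(66,420)],
    [(42,6),(58,105),(66,560)],
    [(42,1),(58,42),(66,420)],
    [(58,7),(66,168)],
    [(66,28)]]]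
def cert8_1_m32 : List (List (List (ℕ × ℕ))) :=
  [[[],
    [(32,8)],
    [(32,5),(43,60),(45,12),(49,12),(50,6)],
    [(32,1),(43,90),(45,12),(49,12),(50,3),(58,1260),(59,360),(62,60)],
    [(43,50),(45,3),(49,4),(58,2520),(59,540),(62,60),(66,10080)],
    [(43,10),(58,1995),(59,300),(62,15),(66,20160)],
    [(58,735),(59,60),(66,15960)],
    [(58,105),(66,5880)],
    [(66,840)]],
   [[(32,1)],
    [(32,3),(43,20),(49,4)],
    [(32,3),(43,70),(49,12),(58,420),(59,120)],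
    [(32,1),(43,90),(49,12),(58,1680),(59,420),(66,3360)],
    [(43,50),(49,4),(58,2625),(59,540),(66,13440)],
    [(43,10),(58,1995),(59,300),(66,21000)],
    [(58,735),(59,60),(66,15960)],
    [(58,105),(66,5880)],
    [(66,840)]]]
def cert8_1_m33 : List (List (List (ℕ × ℕ))) :=
  [[[],
    [(33,8)],
    [(33,5),(43,60),(44,24),(46,60),(50,6),(51,12),(54,12)],
    [(33,1),(43,90),(44,24),(46,90),(50,3),(51,12),(54,6),(58,2520),(59,360),(60,120),(63,360)],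
    [(43,50),(44,6),(46,50),(51,4),(58,5040),(59,540),(60,120),(63,540),(66,20160)],
    [(43,10),(46,10),(58,3990),(59,300),(60,30),(63,300),(66,40320)],
    [(58,1470),(59,60),(63,60),(66,31920)],
    [(58,210),(66,11760)],
    [(66,1680)]],
   [[(33,1)],
    [(33,2),(43,30),(44,12),(50,3)],
    [(33,1),(43,90),(44,30),(50,6),(58,1260),(59,180),(60,60)],
    [(43,100),(44,24),(50,3),(58,4410),(59,540),(60,150),(66,10080)],
    [(43,50),(44,6),(58,6090),(59,600),(60,120),(66,35280)],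
    [(43,10),(58,4200),(59,300),(60,30),(66,48720)],
    [(58,1470),(59,60),(66,33600)],
    [(58,210),(66,11760)],
    [(66,1680)]]]
def cert8_1_m34 : List (List (List (ℕ × ℕ))) :=
  [[[],
    [(34,8)],
    [(34,7),(43,20),(45,6),(47,120),(51,2),(52,20),(55,6)],
    [(34,4),(43,30),(45,3),(47,240),(52,30),(55,3),(58,840),(59,120),(61,24),(64,840)],
    [(34,1),(43,20),(47,210),(52,20),(58,1680),(59,180),(61,12),(64,1680),(66,6720)],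
    [(43,5),(47,90),(52,5),(58,1470),(59,120),(64,1470),(66,13440)],
    [(47,15),(58,630),(59,30),(64,630),(66,11760)],
    [(58,105),(64,105),(66,5040)],
    [(66,840)]],
   [[(34,1)],
    [(34,1),(43,20),(45,6),(51,2)],
    [(43,50),(45,9),(51,2),(58,840),(59,120),(61,24)],
    [(43,50),(45,3),(58,2520),(59,300),(61,36),(66,6720)],
    [(43,25),(58,3150),(59,300),(61,12),(66,20160)],
    [(43,5),(58,2100),(59,150),(66,25200)],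
    [(58,735),(59,30),(66,16800)],
    [(58,105),(66,5880)],
    [(66,840)]]]
def cert8_1_m35 : List (List (List (ℕ × ℕ))) :=
  [[[],
    [(35,8)],
    [(35,11),(48,210),(53,30),(56,6)],
    [(35,10),(48,525),(53,60),(56,3),(65,1680)],
    [(35,5),(48,630),(53,60),(65,4200)],
    [(35,1),(48,420),(53,30),(65,5040)],
    [(48,147),(53,6),(65,3360)],
    [(48,21),(65,1176)],
    [(65,168)]],
   [[(35,1)],
    [(43,5),(46,2),(52,1)],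
    [(43,10),(46,1),(58,210),(59,30),(62,6)],
    [(43,10),(58,525),(59,60),(62,3),(66,1680)],
    [(43,5),(58,630),(59,60),(66,4200)],
    [(43,1),(58,420),(59,30),(66,5040)],
    [(58,147),(59,6),(66,3360)],
    [(58,21),(66,1176)],
    [(66,168)]]]
def cert8_1_m36 : List (List (List (ℕ × ℕ))) :=
  [[[],
    [(36,8)],
    [(36,6),(44,12),(47,90),(54,2),(55,12)],
    [(36,2),(44,12),(47,180),(55,12),(58,630),(60,60),(64,630)],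
    [(44,4),(47,150),(55,4),(58,1260),(60,60),(64,1260),(66,5040)],
    [(47,60),(58,1050),(60,20),(64,1050),(66,10080)],
    [(47,10),(58,420),(64,420),(66,8400)],
    [(58,70),(64,70),(66,3360)],
    [(66,560)]],
   [[(36,1)],
    [(36,1),(44,12),(54,2)],
    [(44,24),(54,2),(58,630),(60,60)],
    [(44,16),(58,1890),(60,120),(66,5040)],
    [(44,4),(58,2310),(60,80),(66,15120)],
    [(58,1470),(60,20),(66,18480)],
    [(58,490),(66,11760)],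
    [(58,70),(66,3920)],
    [(66,560)]]]
def cert8_1_m37 : List (List (List (ℕ × ℕ))) :=
  [[[],
    [(37,8)],
    [(37,9),(48,420),(56,20),(57,24)],
    [(37,5),(48,1050),(56,30),(57,24),(65,3360)],
    [(37,1),(48,1190),(56,20),(57,8),(65,8400)],
    [(48,735),(56,5),(65,9520)],
    [(48,245),(65,5880)],
    [(48,35),(65,1960)],
    [(65,280)]],
   [[(37,1)],
    [(44,4),(45,3),(55,1)],
    [(44,6),(45,3),(58,420),(60,20),(61,12)],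
    [(44,4),(45,1),(58,1050),(60,30),(61,12),(66,3360)],
    [(44,1),(58,1190),(60,20),(61,4),(66,8400)],
    [(58,735),(60,5),(66,9520)],
    [(58,245),(66,5880)],
    [(58,35),(66,1960)],
    [(66,280)]]]
def cert8_1_m38 : List (List (List (ℕ × ℕ))) :=
  [[[],
    [(38,8)],
    [(38,4),(49,24),(51,12)],
    [(49,24),(51,12),(59,360),(63,120)],
    [(49,6),(51,3),(59,540),(63,180),(66,6720)],
    [(59,270),(63,90),(66,13440)],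
    [(59,45),(63,15),(66,10080)],
    [(66,3360)],
    [(66,420)]],
   [[(38,1)],
    [(38,2),(49,12)],
    [(38,1),(49,30),(59,180)],
    [(49,24),(59,540),(66,3360)],
    [(49,6),(59,585),(66,11760)],
    [(59,270),(66,15960)],
    [(59,45),(66,10500)],
    [(66,3360)],
    [(66,420)]]]
def cert8_1_m39 : List (List (List (ℕ × ℕ))) :=
  [[[],
    [(39,8)],
    [(39,5),(49,12),(50,6),(52,60),(55,12)],
    [(39,1),(49,12),(50,3),(52,90),(55,12),(59,360),(60,60),(64,1260)],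
    [(49,4),(52,50),(55,3),(59,540),(60,60),(64,2520),(66,10080)],
    [(52,10),(59,300),(60,15),(64,1995),(66,20160)],
    [(59,60),(64,735),(66,15960)],
    [(64,105),(66,5880)],
    [(66,840)]],
   [[(39,1)],
    [(39,1),(49,12),(50,6)],
    [(49,24),(50,9),(59,360),(60,60)],
    [(49,16),(50,3),(59,900),(60,120),(66,10080)],
    [(49,4),(59,840),(60,75),(66,30240)],
    [(59,360),(60,15),(66,36120)],
    [(59,60),(66,21840)],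
    [(66,6720)],
    [(66,840)]]]
def cert8_1_m40 : List (List (List (ℕ × ℕ))) :=
  [[[],
    [(40,8)],
    [(40,8),(53,120),(57,24)],
    [(40,4),(53,240),(57,24),(65,3360)],
    [(40,1),(53,210),(57,6),(65,8400)],
    [(53,90),(65,9240)],
    [(53,15),(65,5460)],
    [(65,1680)],
    [(65,210)]],
   [[(40,1)],
    [(49,4),(51,2)],
    [(49,6),(51,1),(59,120),(61,12)],
    [(49,4),(59,240),(61,12),(66,3360)],
    [(49,1),(59,210),(61,3),(66,8400)],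
    [(59,90),(66,9240)],
    [(59,15),(66,5460)],
    [(66,1680)],
    [(66,210)]]]
def cert8_1_m41 : List (List (List (ℕ × ℕ))) :=
  [[[],
    [(41,8)],
    [(41,7),(53,90),(56,60)],
    [(41,2),(53,180),(56,90),(65,5040)],
    [(53,150),(56,50),(65,12600)],
    [(53,60),(56,10),(65,13440)],
    [(53,10),(65,7560)],
    [(65,2240)],
    [(65,280)]],
   [[(41,1)],
    [(50,3),(54,2)],
    [(50,3),(54,1),(59,90),(60,60)],
    [(50,1),(59,180),(60,90),(66,5040)],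
    [(59,150),(60,50),(66,12600)],
    [(59,60),(60,10),(66,13440)],
    [(59,10),(66,7560)],
    [(66,2240)],
    [(66,280)]]]
def cert8_1_m42 : List (List (List (ℕ × ℕ))) :=
  [[[],
    [(42,8)],
    [(42,15),(58,42),(59,1)],
    [(42,20),(58,105),(66,168)],
    [(42,15),(58,140),(66,420)],
    [(42,6),(58,105),(66,560)],
    [(42,1),(58,42),(66,420)],
    [(58,7),(66,168)],
    [(66,28)]],
   [[(42,1)],
    [(42,6),(58,7)],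
    [(42,15),(58,42),(66,28)],
    [(42,20),(58,105),(66,168)],
    [(42,15),(58,140),(66,420)],
    [(42,6),(58,105),(66,560)],
    [(42,1),(58,42),(66,420)],
    [(58,7),(66,168)],
    [(66,28)]]]
def cert8_1_m43 : List (List (List (ℕ × ℕ))) :=
  [[[],
    [(43,8)],
    [(43,11),(58,210),(59,30),(60,6)],
    [(43,10),(58,525),(59,60),(60,3),(66,1680)],
    [(43,5),(58,630),(59,60),(66,4200)],
    [(43,1),(58,420),(59,30),(66,5040)],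
    [(58,147),(59,6),(66,3360)],
    [(58,21),(66,1176)],
    [(66,168)]],
   [[(43,1)],
    [(43,5),(58,42),(59,6)],
    [(43,10),(58,231),(59,30),(66,336)],
    [(43,10),(58,525),(59,60),(66,1848)],
    [(43,5),(58,630),(59,60),(66,4200)],
    [(43,1),(58,420),(59,30),(66,5040)],
    [(58,147),(59,6),(66,3360)],
    [(58,21),(66,1176)],
    [(66,168)]]]
def cert8_1_m44 : List (List (List (ℕ × ℕ))) :=
  [[[],
    [(44,8)],
    [(44,9),(58,420),(60,20),(61,12)],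
    [(44,5),(58,1050),(60,30),(61,12),(66,3360)],
    [(44,1),(58,1190),(60,20),(61,4),(66,8400)],
    [(58,735),(60,5),(66,9520)],
    [(58,245),(66,5880)],
    [(58,35),(66,1960)],
    [(66,280)]],
   [[(44,1)],
    [(44,4),(58,105),(60,5)],
    [(44,6),(58,525),(60,20),(66,840)],
    [(44,4),(58,1085),(60,30),(66,4200)],
    [(44,1),(58,1190),(60,20),(66,8680)],
    [(58,735),(60,5),(66,9520)],
    [(58,245),(66,5880)],
    [(58,35),(66,1960)],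
    [(66,280)]]]
def cert8_1_m45 : List (List (List (ℕ × ℕ))) :=
  [[[],
    [(45,8)],
    [(45,9),(58,420),(61,12),(62,20)],
    [(45,5),(58,1050),(61,12),(62,30),(66,3360)],
    [(45,1),(58,1190),(61,4),(62,20),(66,8400)],
    [(58,735),(62,5),(66,9520)],
    [(58,245),(66,5880)],
    [(58,35),(66,1960)],
    [(66,280)]],
   [[(45,1)],
    [(45,3),(58,140),(61,4)],
    [(45,3),(58,630),(61,12),(66,1120)],
    [(45,1),(58,1190),(61,12),(66,5040)],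
    [(58,1225),(61,4),(66,9520)],
    [(58,735),(66,9800)],
    [(58,245),(66,5880)],
    [(58,35),(66,1960)],
    [(66,280)]]]
def cert8_1_m46 : List (List (List (ℕ × ℕ))) :=
  [[[],
    [(46,8)],
    [(46,11),(58,210),(62,6),(63,30)],
    [(46,10),(58,525),(62,3),(63,60),(66,1680)],
    [(46,5),(58,630),(63,60),(66,4200)],
    [(46,1),(58,420),(63,30),(66,5040)],
    [(58,147),(63,6),(66,3360)],
    [(58,21),(66,1176)],
    [(66,168)]],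
   [[(46,1)],
    [(46,2),(58,105),(62,3)],
    [(46,1),(58,420),(62,6),(66,840)],
    [(58,735),(62,3),(66,3360)],
    [(58,735),(66,5880)],
    [(58,441),(66,5880)],
    [(58,147),(66,3528)],
    [(58,21),(66,1176)],
    [(66,168)]]]
def cert8_1_m47 : List (List (List (ℕ × ℕ))) :=
  [[[],
    [(47,8)],
    [(47,15),(58,42),(63,2),(64,42)],
    [(47,20),(58,105),(64,105),(66,336)],
    [(47,15),(58,140),(64,140),(66,840)],
    [(47,6),(58,105),(64,105),(66,1120)],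
    [(47,1),(58,42),(64,42),(66,840)],
    [(58,7),(64,7),(66,336)],
    [(66,56)]],
   [[(47,1)],
    [(47,1),(58,42),(63,2)],
    [(58,147),(63,2),(66,336)],
    [(58,245),(66,1176)],
    [(58,245),(66,1960)],
    [(58,147),(66,1960)],
    [(58,49),(66,1176)],
    [(58,7),(66,392)],
    [(66,56)]]]
def cert8_1_m48 : List (List (List (ℕ × ℕ))) :=
  [[[],
    [(48,8)],
    [(48,21),(65,56)],
    [(48,35),(65,168)],
    [(48,35),(65,280)],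
    [(48,21),(65,280)],
    [(48,7),(65,168)],
    [(48,1),(65,56)],
    [(65,8)]],
   [[(48,1)],
    [(58,7),(64,1)],
    [(58,21),(66,56)],
    [(58,35),(66,168)],
    [(58,35),(66,280)],
    [(58,21),(66,280)],
    [(58,7),(66,168)],
    [(58,1),(66,56)],
    [(66,8)]]]
def cert8_1_m49 : List (List (List (ℕ × ℕ))) :=
  [[[],
    [(49,8)],
    [(49,8),(59,120),(61,12)],
    [(49,4),(59,240),(61,12),(66,3360)],
    [(49,1),(59,210),(61,3),(66,8400)],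
    [(59,90),(66,9240)],
    [(59,15),(66,5460)],
    [(66,1680)],
    [(66,210)]],
   [[(49,1)],
    [(49,4),(59,30)],
    [(49,6),(59,135),(66,840)],
    [(49,4),(59,240),(66,4200)],
    [(49,1),(59,210),(66,8610)],
    [(59,90),(66,9240)],
    [(59,15),(66,5460)],
    [(66,1680)],
    [(66,210)]]]
def cert8_1_m50 : List (List (List (ℕ × ℕ))) :=
  [[[],
    [(50,8)],
    [(50,7),(59,180),(60,60),(62,60)],
    [(50,2),(59,360),(60,90),(62,90),(66,10080)],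
    [(59,300),(60,50),(62,50),(66,25200)],
    [(59,120),(60,10),(62,10),(66,26880)],
    [(59,20),(66,15120)],
    [(66,4480)],
    [(66,560)]],
   [[(50,1)],
    [(50,3),(59,60),(60,20)],
    [(50,3),(59,240),(60,70),(66,3360)],
    [(50,1),(59,380),(60,90),(66,15120)],
    [(59,300),(60,50),(66,28000)],
    [(59,120),(60,10),(66,27440)],
    [(59,20),(66,15120)],
    [(66,4480)],
    [(66,560)]]]
def cert8_1_m51 : List (List (List (ℕ × ℕ))) :=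
  [[[],
    [(51,8)],
    [(51,8),(59,120),(61,24),(63,120)],
    [(51,4),(59,240),(61,24),(63,240),(66,6720)],
    [(51,1),(59,210),(61,6),(63,210),(66,16800)],
    [(59,90),(63,90),(66,18480)],
    [(59,15),(63,15),(66,10920)],
    [(66,3360)],
    [(66,420)]],
   [[(51,1)],
    [(51,2),(59,60),(61,12)],
    [(51,1),(59,210),(61,30),(66,3360)],
    [(59,300),(61,24),(66,13440)],
    [(59,225),(61,6),(66,22680)],
    [(59,90),(66,21000)],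
    [(59,15),(66,11340)],
    [(66,3360)],
    [(66,420)]]]
def cert8_1_m52 : List (List (List (ℕ × ℕ))) :=
  [[[],
    [(52,8)],
    [(52,11),(59,30),(62,6),(64,210)],
    [(52,10),(59,60),(62,3),(64,525),(66,1680)],
    [(52,5),(59,60),(64,630),(66,4200)],
    [(52,1),(59,30),(64,420),(66,5040)],
    [(59,6),(64,147),(66,3360)],
    [(64,21),(66,1176)],
    [(66,168)]],
   [[(52,1)],
    [(52,1),(59,30),(62,6)],
    [(59,90),(62,9),(66,1680)],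
    [(59,120),(62,3),(66,5880)],
    [(59,90),(66,9240)],
    [(59,36),(66,8400)],
    [(59,6),(66,4536)],
    [(66,1344)],
    [(66,168)]]]
def cert8_1_m53 : List (List (List (ℕ × ℕ))) :=
  [[[],
    [(53,8)],
    [(53,16),(65,336)],
    [(53,20),(65,1008)],
    [(53,15),(65,1540)],
    [(53,6),(65,1400)],
    [(53,1),(65,756)],
    [(65,224)],
    [(65,28)]],
   [[(53,1)],
    [(59,6),(63,2)],
    [(59,15),(63,1),(66,336)],
    [(59,20),(66,1008)],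
    [(59,15),(66,1540)],
    [(59,6),(66,1400)],
    [(59,1),(66,756)],
    [(66,224)],
    [(66,28)]]]
def cert8_1_m54 : List (List (List (ℕ × ℕ))) :=
  [[[],
    [(54,8)],
    [(54,7),(60,60),(63,90)],
    [(54,2),(60,90),(63,180),(66,5040)],
    [(60,50),(63,150),(66,12600)],
    [(60,10),(63,60),(66,13440)],
    [(63,10),(66,7560)],
    [(66,2240)],
    [(66,280)]],
   [[(54,1)],
    [(54,2),(60,30)],
    [(54,1),(60,90),(66,2520)],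
    [(60,100),(66,10080)],
    [(60,50),(66,16800)],
    [(60,10),(66,15120)],
    [(66,7840)],
    [(66,2240)],
    [(66,280)]]]
def cert8_1_m55 : List (List (List (ℕ × ℕ))) :=
  [[[],
    [(55,8)],
    [(55,9),(60,20),(61,12),(64,420)],
    [(55,5),(60,30),(61,12),(64,1050),(66,3360)],
    [(55,1),(60,20),(61,4),(64,1190),(66,8400)],
    [(60,5),(64,735),(66,9520)],
    [(64,245),(66,5880)],
    [(64,35),(66,1960)],
    [(66,280)]],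
   [[(55,1)],
    [(55,1),(60,20),(61,12)],
    [(60,50),(61,24),(66,3360)],
    [(60,50),(61,16),(66,11760)],
    [(60,25),(61,4),(66,17920)],
    [(60,5),(66,15400)],
    [(66,7840)],
    [(66,2240)],
    [(66,280)]]]
def cert8_1_m56 : List (List (List (ℕ × ℕ))) :=
  [[[],
    [(56,8)],
    [(56,13),(65,840)],
    [(56,11),(65,2520)],
    [(56,5),(65,3640)],
    [(56,1),(65,3080)],
    [(65,1568)],
    [(65,448)],
    [(65,56)]],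
   [[(56,1)],
    [(60,5),(62,3)],
    [(60,10),(62,3),(66,840)],
    [(60,10),(62,1),(66,2520)],
    [(60,5),(66,3640)],
    [(60,1),(66,3080)],
    [(66,1568)],
    [(66,448)],
    [(66,56)]]]
def cert8_1_m57 : List (List (List (ℕ × ℕ))) :=
  [[[],
    [(57,8)],
    [(57,12),(65,560)],
    [(57,8),(65,1680)],
    [(57,2),(65,2380)],
    [(65,1960)],
    [(65,980)],
    [(65,280)],
    [(65,35)]],
   [[(57,1)],
    [(61,4)],
    [(61,6),(66,560)],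
    [(61,4),(66,1680)],
    [(61,1),(66,2380)],
    [(66,1960)],
    [(66,980)],
    [(66,280)],
    [(66,35)]]]
def cert8_1_m58 : List (List (List (ℕ × ℕ))) :=
  [[[],
    [(58,8)],
    [(58,21),(66,56)],
    [(58,35),(66,168)],
    [(58,35),(66,280)],
    [(58,21),(66,280)],
    [(58,7),(66,168)],
    [(58,1),(66,56)],
    [(66,8)]],
   [[(58,1)],
    [(58,7),(66,8)],
    [(58,21),(66,56)],
    [(58,35),(66,168)],
    [(58,35),(66,280)],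
    [(58,21),(66,280)],
    [(58,7),(66,168)],
    [(58,1),(66,56)],
    [(66,8)]]]
def cert8_1_m59 : List (List (List (ℕ × ℕ))) :=
  [[[],
    [(59,8)],
    [(59,16),(66,336)],
    [(59,20),(66,1008)],
    [(59,15),(66,1540)],
    [(59,6),(66,1400)],
    [(59,1),(66,756)],
    [(66,224)],
    [(66,28)]],
   [[(59,1)],
    [(59,6),(66,56)],
    [(59,15),(66,364)],
    [(59,20),(66,1008)],
    [(59,15),(66,1540)],
    [(59,6),(66,1400)],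
    [(59,1),(66,756)],
    [(66,224)],
    [(66,28)]]]
def cert8_1_m60 : List (List (List (ℕ × ℕ))) :=
  [[[],
    [(60,8)],
    [(60,13),(66,840)],
    [(60,11),(66,2520)],
    [(60,5),(66,3640)],
    [(60,1),(66,3080)],
    [(66,1568)],
    [(66,448)],
    [(66,56)]],
   [[(60,1)],
    [(60,5),(66,168)],
    [(60,10),(66,1008)],
    [(60,10),(66,2576)],
    [(60,5),(66,3640)],
    [(60,1),(66,3080)],
    [(66,1568)],
    [(66,448)],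
    [(66,56)]]]
def cert8_1_m61 : List (List (List (ℕ × ℕ))) :=
  [[[],
    [(61,8)],
    [(61,12),(66,1120)],
    [(61,8),(66,3360)],
    [(61,2),(66,4760)],
    [(66,3920)],
    [(66,1960)],
    [(66,560)],
    [(66,70)]],
   [[(61,1)],
    [(61,4),(66,280)],
    [(61,6),(66,1540)],
    [(61,4),(66,3640)],
    [(61,1),(66,4830)],
    [(66,3920)],
    [(66,1960)],
    [(66,560)],
    [(66,70)]]]
def cert8_1_m62 : List (List (List (ℕ × ℕ))) :=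
  [[[],
    [(62,8)],
    [(62,13),(66,840)],
    [(62,11),(66,2520)],
    [(62,5),(66,3640)],
    [(62,1),(66,3080)],
    [(66,1568)],
    [(66,448)],
    [(66,56)]],
   [[(62,1)],
    [(62,3),(66,280)],
    [(62,3),(66,1400)],
    [(62,1),(66,3080)],
    [(66,3920)],
    [(66,3136)],
    [(66,1568)],
    [(66,448)],
    [(66,56)]]]
def cert8_1_m63 : List (List (List (ℕ × ℕ))) :=
  [[[],
    [(63,8)],
    [(63,16),(66,336)],
    [(63,20),(66,1008)],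
    [(63,15),(66,1540)],
    [(63,6),(66,1400)],
    [(63,1),(66,756)],
    [(66,224)],
    [(66,28)]],
   [[(63,1)],
    [(63,2),(66,168)],
    [(63,1),(66,756)],
    [(66,1568)],
    [(66,1960)],
    [(66,1568)],
    [(66,784)],
    [(66,224)],
    [(66,28)]]]
def cert8_1_m64 : List (List (List (ℕ × ℕ))) :=
  [[[],
    [(64,8)],
    [(64,21),(66,56)],
    [(64,35),(66,168)],
    [(64,35),(66,280)],
    [(64,21),(66,280)],
    [(64,7),(66,168)],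
    [(64,1),(66,56)],
    [(66,8)]],
   [[(64,1)],
    [(64,1),(66,56)],
    [(66,224)],
    [(66,448)],
    [(66,560)],
    [(66,448)],
    [(66,224)],
    [(66,64)],
    [(66,8)]]]
def cert8_1_m65 : List (List (List (ℕ × ℕ))) :=
  [[[],
    [(65,8)],
    [(65,28)],
    [(65,56)],
    [(65,70)],
    [(65,56)],
    [(65,28)],
    [(65,8)],
    [(65,1)]],
   [[(65,1)],
    [(66,8)],
    [(66,28)],
    [(66,56)],
    [(66,70)],
    [(66,56)],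
    [(66,28)],
    [(66,8)],
    [(66,1)]]]
def cert8_1_m66 : List (List (List (ℕ × ℕ))) :=
  [[[],
    [(66,8)],
    [(66,28)],
    [(66,56)],
    [(66,70)],
    [(66,56)],
    [(66,28)],
    [(66,8)],
    [(66,1)]],
   [[(66,1)],
    [(66,8)],
    [(66,28)],
    [(66,56)],
    [(66,70)],
    [(66,56)],
    [(66,28)],
    [(66,8)],
    [(66,1)]]]
def cert8_1_M0 : List (List (List (List (ℕ × ℕ)))) :=
  [cert8_1_m0, cert8_1_m1, cert8_1_m2, cert8_1_m3, cert8_1_m4, cert8_1_m5, cert8_1_m6, cert8_1_m7]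

def cert8_1_M1 : List (List (List (List (ℕ × ℕ)))) :=
  [cert8_1_m8, cert8_1_m9, cert8_1_m10, cert8_1_m11, cert8_1_m12, cert8_1_m13, cert8_1_m14, cert8_1_m15]

def cert8_1_M2 : List (List (List (List (ℕ × ℕ)))) :=
  [cert8_1_m16, cert8_1_m17, cert8_1_m18, cert8_1_m19, cert8_1_m20, cert8_1_m21, cert8_1_m22, cert8_1_m23]

def cert8_1_M3 : List (List (List (List (ℕ × ℕ)))) :=
  [cert8_1_m24, cert8_1_m25, cert8_1_m26, cert8_1_m27, cert8_1_m28, cert8_1_m29, cert8_1_m30, cert8_1_m31]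

def cert8_1_M4 : List (List (List (List (ℕ × ℕ)))) :=
  [cert8_1_m32, cert8_1_m33, cert8_1_m34, cert8_1_m35, cert8_1_m36, cert8_1_m37, cert8_1_m38, cert8_1_m39]

def cert8_1_M5 : List (List (List (List (ℕ × ℕ)))) :=
  [cert8_1_m40, cert8_1_m41, cert8_1_m42, cert8_1_m43, cert8_1_m44, cert8_1_m45, cert8_1_m46, cert8_1_m47]

def cert8_1_M6 : List (List (List (List (ℕ × ℕ)))) :=
  [cert8_1_m48, cert8_1_m49, cert8_1_m50, cert8_1_m51, cert8_1_m52, cert8_1_m53, cert8_1_m54, cert8_1_m55]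

def cert8_1_M7 : List (List (List (List (ℕ × ℕ)))) :=
  [cert8_1_m56, cert8_1_m57, cert8_1_m58, cert8_1_m59, cert8_1_m60, cert8_1_m61, cert8_1_m62, cert8_1_m63]

def cert8_1_M8 : List (List (List (List (ℕ × ℕ)))) :=
  [cert8_1_m64, cert8_1_m65, cert8_1_m66]

def cert8_1_rows : List (List ℕ) := cert8_1_R0 ++ (cert8_1_R1 ++ (cert8_1_R2 ++ (cert8_1_R3 ++ (cert8_1_R4 ++ (cert8_1_R5 ++ (cert8_1_R6 ++ (cert8_1_R7 ++ (cert8_1_R8))))))))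

/-- the certificate -/
def cert8_1 : Cert where
  types := cert8_1_types
  rows := cert8_1_rows
  mul := cert8_1_M0 ++ (cert8_1_M1 ++ (cert8_1_M2 ++ (cert8_1_M3 ++ (cert8_1_M4 ++ (cert8_1_M5 ++ (cert8_1_M6 ++ (cert8_1_M7 ++ (cert8_1_M8))))))))

theorem cert8_1_c0 : cf_rows cert8_1_rows (List.replicate 67 0) cert8_1_tab cert8_1_R0 cert8_1_M0 = true := by
  decide +kernel

theorem cert8_1_c1 : cf_rows cert8_1_rows (List.replicate 67 0) cert8_1_tab cert8_1_R1 cert8_1_M1 = true := by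
  decide +kernel

theorem cert8_1_c2 : cf_rows cert8_1_rows (List.replicate 67 0) cert8_1_tab cert8_1_R2 cert8_1_M2 = true := by
  decide +kernel

theorem cert8_1_c3 : cf_rows cert8_1_rows (List.replicate 67 0) cert8_1_tab cert8_1_R3 cert8_1_M3 = true := by
  decide +kernel

theorem cert8_1_c4 : cf_rows cert8_1_rows (List.replicate 67 0) cert8_1_tab cert8_1_R4 cert8_1_M4 = true := by
  decide +kernel

theorem cert8_1_c5 : cf_rows cert8_1_rows (List.replicate 67 0) cert8_1_tab cert8_1_R5 cert8_1_M5 = true := by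
  decide +kernel

theorem cert8_1_c6 : cf_rows cert8_1_rows (List.replicate 67 0) cert8_1_tab cert8_1_R6 cert8_1_M6 = true := by
  decide +kernel

theorem cert8_1_c7 : cf_rows cert8_1_rows (List.replicate 67 0) cert8_1_tab cert8_1_R7 cert8_1_M7 = true := by
  decide +kernel

theorem cert8_1_c8 : cf_rows cert8_1_rows (List.replicate 67 0) cert8_1_tab cert8_1_R8 cert8_1_M8 = true := by
  decide +kernel

theorem cert8_1_all : cf_rows cert8_1_rows (List.replicate 67 0) cert8_1_tab cert8_1.rows cert8_1.mul = true :=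
  (cf_rows_append _ _ _ _ _ _ _ cert8_1_c0 (cf_rows_append _ _ _ _ _ _ _ cert8_1_c1 (cf_rows_append _ _ _ _ _ _ _ cert8_1_c2 (cf_rows_append _ _ _ _ _ _ _ cert8_1_c3 (cf_rows_append _ _ _ _ _ _ _ cert8_1_c4 (cf_rows_append _ _ _ _ _ _ _ cert8_1_c5 (cf_rows_append _ _ _ _ _ _ _ cert8_1_c6 (cf_rows_append _ _ _ _ _ _ _ cert8_1_c7 cert8_1_c8))))))))

theorem cert8_1_basic : cf_basic 8 cert8_1 = true := by decide +kernel

theorem cert8_1_tabok : cert8_1_tab = (List.range (2 ^ 1)).map fun T => (List.range (8 + 1)).map fun j =>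
    cert8_1.types.map (nJ 1 j T) := by decide +kernel

theorem cert8_1_ok : certOK 8 1 cert8_1 = true :=
  certOK_of 8 1 67 cert8_1 cert8_1_tab (by decide +kernel) cert8_1_basic cert8_1_tabok cert8_1_all

end Pool.Agent.H34R2.U
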