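import Pool.Agent.H34R2.U.CFast

/-! certificate data (generated) -/

set_option autoImplicit false
set_option maxRecDepth 100000

namespace Pool.Agent.H34R2.U

def cert9_0_types : List Ty :=
  [[(0,1),(0,1),(0,1),(0,1),(0,1),(0,1),(0,1),(0,1),(0,1)],
   [(0,1),(0,1),(0,1),(0,1),(0,1),(0,1),(0,1),(0,2)],
   [(0,1),(0,1),(0,1),(0,1),(0,1),(0,1),(0,3)],
   [(0,1),(0,1),(0,1),(0,1),(0,1),(0,2),(0,2)],
   [(0,1),(0,1),(0,1),(0,1),(0,1),(0,4)],
   [(0,1),(0,1),(0,1),(0,1),(0,2),(0,3)],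
   [(0,1),(0,1),(0,1),(0,2),(0,2),(0,2)],
   [(0,1),(0,1),(0,1),(0,1),(0,5)],
   [(0,1),(0,1),(0,1),(0,2),(0,4)],
   [(0,1),(0,1),(0,1),(0,3),(0,3)],
   [(0,1),(0,1),(0,2),(0,2),(0,3)],
   [(0,1),(0,2),(0,2),(0,2),(0,2)],
   [(0,1),(0,1),(0,1),(0,6)],
   [(0,1),(0,1),(0,2),(0,5)],
   [(0,1),(0,1),(0,3),(0,4)],
   [(0,1),(0,2),(0,2),(0,4)],
   [(0,1),(0,2),(0,3),(0,3)],
   [(0,2),(0,2),(0,2),(0,3)],
   [(0,1),(0,1),(0,7)],
   [(0,1),(0,2),(0,6)],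
   [(0,1),(0,3),(0,5)],
   [(0,1),(0,4),(0,4)],
   [(0,2),(0,2),(0,5)],
   [(0,2),(0,3),(0,4)],
   [(0,3),(0,3),(0,3)],
   [(0,1),(0,8)],
   [(0,2),(0,7)],
   [(0,3),(0,6)],
   [(0,4),(0,5)],
   [(0,9)]]

def cert9_0_tab : List (List (List ℕ)) :=
  [[[9,8,7,7,6,6,6,5,5,5,5,5,4,4,4,4,4,4,3,3,3,3,3,3,3,2,2,2,2,1],
    [9,9,9,9,9,9,9,9,9,9,9,9,9,9,9,9,9,9,9,9,9,9,9,9,9,9,9,9,9,9],
    [0,1,3,2,6,4,3,10,7,6,5,4,15,11,9,8,7,6,21,16,13,12,12,10,9,28,22,18,16,36],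
    [0,0,1,0,4,1,0,10,4,2,1,0,20,10,5,4,2,1,35,20,11,8,10,5,3,56,35,21,14,84],
    [0,0,0,0,1,0,0,5,1,0,0,0,15,5,1,1,0,0,35,15,5,2,5,1,0,70,35,15,6,126],
    [0,0,0,0,0,0,0,1,0,0,0,0,6,1,0,0,0,0,21,6,1,0,1,0,0,56,21,6,1,126],
    [0,0,0,0,0,0,0,0,0,0,0,0,1,0,0,0,0,0,7,1,0,0,0,0,0,28,7,1,0,84],
    [0,0,0,0,0,0,0,0,0,0,0,0,0,0,0,0,0,0,1,0,0,0,0,0,0,8,1,0,0,36],
    [0,0,0,0,0,0,0,0,0,0,0,0,0,0,0,0,0,0,0,0,0,0,0,0,0,1,0,0,0,9],
    [0,0,0,0,0,0,0,0,0,0,0,0,0,0,0,0,0,0,0,0,0,0,0,0,0,0,0,0,0,1]]]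

def cert9_0_R0 : List (List ℕ) :=
  [[1,1,1,1,1,1,1,1,1,1,1,1,1,1,1,1,1,1,1,1,1,1,1,1,1,1,1,1,1,1],
   [0,1,3,2,6,4,3,10,7,6,5,4,15,11,9,8,7,6,21,16,13,12,12,10,9,28,22,18,16,36],
   [0,0,1,0,4,1,0,10,4,2,1,0,20,10,5,4,2,1,35,20,11,8,10,5,3,56,35,21,14,84],
   [0,0,0,1,3,3,3,15,9,9,7,6,45,25,21,16,15,12,105,60,45,42,36,30,27,210,126,90,78,378],
   [0,0,0,0,1,0,0,5,1,0,0,0,15,5,1,1,0,0,35,15,5,2,5,1,0,70,35,15,6,126],
   [0,0,0,0,0,1,0,10,4,6,2,0,60,20,18,8,8,3,210,80,50,48,30,23,18,560,245,135,110,1260],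
   [0,0,0,0,0,0,1,0,3,0,3,4,15,15,9,12,9,10,105,60,45,36,40,30,27,420,210,150,120,1260],
   [0,0,0,0,0,0,0,1,0,0,0,0,6,1,0,0,0,0,21,6,1,0,1,0,0,56,21,6,1,126],
   [0,0,0,0,0,0,0,0,1,0,0,0,15,5,3,2,0,0,105,30,15,12,10,4,0,420,140,60,40,1260],
   [0,0,0,0,0,0,0,0,0,1,0,0,10,0,4,0,1,0,70,10,10,16,0,4,3,280,70,30,40,840]]

def cert9_0_R1 : List (List ℕ) :=
  [[0,0,0,0,0,0,0,0,0,0,1,0,0,10,3,4,6,3,105,60,45,24,30,21,27,840,315,225,150,3780],
   [0,0,0,0,0,0,0,0,0,0,0,1,0,0,0,3,0,3,0,15,0,9,15,9,0,105,105,45,45,945],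
   [0,0,0,0,0,0,0,0,0,0,0,0,1,0,0,0,0,0,7,1,0,0,0,0,0,28,7,1,0,84],
   [0,0,0,0,0,0,0,0,0,0,0,0,0,1,0,0,0,0,21,6,3,0,2,0,0,168,42,18,6,756],
   [0,0,0,0,0,0,0,0,0,0,0,0,0,0,1,0,0,0,35,0,5,8,0,1,0,280,35,15,30,1260],
   [0,0,0,0,0,0,0,0,0,0,0,0,0,0,0,1,0,0,0,15,0,6,5,3,0,210,105,45,30,1890],
   [0,0,0,0,0,0,0,0,0,0,0,0,0,0,0,0,1,0,0,10,10,0,0,4,9,280,70,90,40,2520],
   [0,0,0,0,0,0,0,0,0,0,0,0,0,0,0,0,0,1,0,0,0,0,10,3,0,0,105,15,30,1260],
   [0,0,0,0,0,0,0,0,0,0,0,0,0,0,0,0,0,0,1,0,0,0,0,0,0,8,1,0,0,36],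
   [0,0,0,0,0,0,0,0,0,0,0,0,0,0,0,0,0,0,0,1,0,0,0,0,0,28,7,3,0,252]]

def cert9_0_R2 : List (List ℕ) :=
  [[0,0,0,0,0,0,0,0,0,0,0,0,0,0,0,0,0,0,0,0,1,0,0,0,0,56,0,6,4,504],
   [0,0,0,0,0,0,0,0,0,0,0,0,0,0,0,0,0,0,0,0,0,1,0,0,0,35,0,0,5,315],
   [0,0,0,0,0,0,0,0,0,0,0,0,0,0,0,0,0,0,0,0,0,0,1,0,0,0,21,0,3,378],
   [0,0,0,0,0,0,0,0,0,0,0,0,0,0,0,0,0,0,0,0,0,0,0,1,0,0,35,15,10,1260],
   [0,0,0,0,0,0,0,0,0,0,0,0,0,0,0,0,0,0,0,0,0,0,0,0,1,0,0,10,0,280],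
   [0,0,0,0,0,0,0,0,0,0,0,0,0,0,0,0,0,0,0,0,0,0,0,0,0,1,0,0,0,9],
   [0,0,0,0,0,0,0,0,0,0,0,0,0,0,0,0,0,0,0,0,0,0,0,0,0,0,1,0,0,36],
   [0,0,0,0,0,0,0,0,0,0,0,0,0,0,0,0,0,0,0,0,0,0,0,0,0,0,0,1,0,84],
   [0,0,0,0,0,0,0,0,0,0,0,0,0,0,0,0,0,0,0,0,0,0,0,0,0,0,0,0,1,126],
   [0,0,0,0,0,0,0,0,0,0,0,0,0,0,0,0,0,0,0,0,0,0,0,0,0,0,0,0,0,1]]

def cert9_0_m0 : List (List (List (ℕ × ℕ))) :=
  [[[],
    [(0,9)],
    [(1,1)],
    [(2,1)],
    [(4,1)],
    [(7,1)],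
    [(12,1)],
    [(18,1)],
    [(25,1)],
    [(29,1)]]]
def cert9_0_m1 : List (List (List (ℕ × ℕ))) :=
  [[[],
    [(1,9)],
    [(1,1),(2,6),(3,2)],
    [(2,3),(4,12),(5,1)],
    [(4,6),(7,20),(8,1)],
    [(7,10),(12,30),(13,1)],
    [(12,15),(18,42),(19,1)],
    [(18,21),(25,56),(26,1)],
    [(25,28),(29,72)],
    [(29,36)]]]
def cert9_0_m2 : List (List (List (ℕ × ℕ))) :=
  [[[],
    [(2,9)],
    [(2,3),(4,12),(5,1)],
    [(2,1),(4,12),(7,30),(9,2)],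
    [(4,4),(7,30),(12,60),(14,1)],
    [(7,10),(12,60),(18,105),(20,1)],
    [(12,20),(18,105),(25,168),(27,1)],
    [(18,35),(25,168),(29,252)],
    [(25,56),(29,252)],
    [(29,84)]]]
def cert9_0_m3 : List (List (List (ℕ × ℕ))) :=
  [[[],
    [(3,9)],
    [(3,2),(4,12),(5,6),(6,3)],
    [(4,12),(5,3),(7,60),(8,12),(10,1)],
    [(4,3),(7,60),(8,6),(12,180),(13,20),(15,1)],
    [(7,15),(12,180),(13,10),(18,420),(19,30),(22,1)],
    [(12,45),(18,420),(19,15),(25,840),(26,42)],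
    [(18,105),(25,840),(26,21),(29,1512)],
    [(25,210),(29,1512)],
    [(29,378)]]]
def cert9_0_m4 : List (List (List (ℕ × ℕ))) :=
  [[[],
    [(4,9)],
    [(4,6),(7,20),(8,1)],
    [(4,4),(7,30),(12,60),(14,1)],
    [(4,1),(7,20),(12,90),(18,140),(21,2)],
    [(7,5),(12,60),(18,210),(25,280),(28,1)],
    [(12,15),(18,140),(25,420),(29,504)],
    [(18,35),(25,280),(29,756)],
    [(25,70),(29,504)],
    [(29,126)]]]
def cert9_0_m5 : List (List (List (ℕ × ℕ))) :=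
  [[[],
    [(5,9)],
    [(5,4),(7,60),(8,12),(9,12),(10,2)],
    [(5,1),(7,90),(8,12),(9,6),(12,360),(13,30),(14,12),(16,2)],
    [(7,50),(8,4),(12,540),(13,30),(14,6),(18,1260),(19,60),(20,20),(23,1)],
    [(7,10),(12,300),(13,10),(18,1890),(19,60),(20,10),(25,3360),(26,105),(27,30)],
    [(12,60),(18,1050),(19,20),(25,5040),(26,105),(27,15),(29,7560)],
    [(18,210),(25,2800),(26,35),(29,11340)],
    [(25,560),(29,6300)],
    [(29,1260)]]]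
def cert9_0_m6 : List (List (List (ℕ × ℕ))) :=
  [[[],
    [(6,9)],
    [(6,3),(8,12),(10,6),(11,4)],
    [(8,12),(10,3),(12,120),(13,60),(15,12),(17,1)],
    [(8,3),(12,180),(13,60),(15,6),(18,840),(19,180),(22,20)],
    [(12,90),(13,15),(18,1260),(19,180),(22,10),(25,3360),(26,420)],
    [(12,15),(18,630),(19,45),(25,5040),(26,420),(29,10080)],
    [(18,105),(25,2520),(26,105),(29,15120)],
    [(25,420),(29,7560)],
    [(29,1260)]]]
def cert9_0_m7 : List (List (List (ℕ × ℕ))) :=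
  [[[],
    [(7,9)],
    [(7,10),(12,30),(13,1)],
    [(7,10),(12,60),(18,105),(20,1)],
    [(7,5),(12,60),(18,210),(25,280),(28,1)],
    [(7,1),(12,30),(18,210),(25,560),(29,630)],
    [(12,6),(18,105),(25,560),(29,1260)],
    [(18,21),(25,280),(29,1260)],
    [(25,56),(29,630)],
    [(29,126)]]]
def cert9_0_m8 : List (List (List (ℕ × ℕ))) :=
  [[[],
    [(8,9)],
    [(8,7),(12,120),(13,20),(14,6),(15,2)],
    [(8,4),(12,240),(13,30),(14,3),(18,840),(19,60),(21,24),(23,1)],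
    [(8,1),(12,210),(13,20),(18,1680),(19,90),(21,12),(25,3360),(26,140),(28,20)],
    [(12,90),(13,5),(18,1470),(19,60),(25,6720),(26,210),(28,10),(29,10080)],
    [(12,15),(18,630),(19,15),(25,5880),(26,140),(29,20160)],
    [(18,105),(25,2520),(26,35),(29,17640)],
    [(25,420),(29,7560)],
    [(29,1260)]]]
def cert9_0_m9 : List (List (List (ℕ × ℕ))) :=
  [[[],
    [(9,9)],
    [(9,6),(12,90),(14,12),(16,1)],
    [(9,2),(12,180),(14,12),(18,630),(20,30),(24,3)],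
    [(12,150),(14,4),(18,1260),(20,30),(25,2520),(27,60)],
    [(12,60),(18,1050),(20,10),(25,5040),(27,60),(29,7560)],
    [(12,10),(18,420),(25,4200),(27,20),(29,15120)],
    [(18,70),(25,1680),(29,12600)],
    [(25,280),(29,5040)],
    [(29,840)]]]
def cert9_0_m10 : List (List (List (ℕ × ℕ))) :=
  [[[],
    [(10,9)],
    [(10,5),(13,60),(14,12),(15,12),(16,12),(17,3)],
    [(10,1),(13,90),(14,12),(15,12),(16,6),(18,1260),(19,360),(20,60),(22,30),(23,12)],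
    [(13,50),(14,3),(15,4),(18,2520),(19,540),(20,60),(22,30),(23,6),(25,10080),(26,1260),(27,180)],
    [(13,10),(18,1995),(19,300),(20,15),(22,10),(25,20160),(26,1890),(27,180),(29,45360)],
    [(18,735),(19,60),(25,15960),(26,1050),(27,45),(29,90720)],
    [(18,105),(25,5880),(26,210),(29,71820)],
    [(25,840),(29,26460)],
    [(29,3780)]]]
def cert9_0_m11 : List (List (List (ℕ × ℕ))) :=
  [[[],
    [(11,9)],
    [(11,4),(15,12),(17,6)],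
    [(15,12),(17,3),(19,120),(22,60)],
    [(15,3),(19,180),(22,60),(25,1680),(26,840)],
    [(19,90),(22,15),(25,3360),(26,1260),(29,15120)],
    [(19,15),(25,2520),(26,630),(29,30240)],
    [(25,840),(26,105),(29,22680)],
    [(25,105),(29,7560)],
    [(29,945)]]]
def cert9_0_m12 : List (List (List (ℕ × ℕ))) :=
  [[[],
    [(12,9)],
    [(12,15),(18,42),(19,1)],
    [(12,20),(18,105),(25,168),(27,1)],
    [(12,15),(18,140),(25,420),(29,504)],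
    [(12,6),(18,105),(25,560),(29,1260)],
    [(12,1),(18,42),(25,420),(29,1680)],
    [(18,7),(25,168),(29,1260)],
    [(25,28),(29,504)],
    [(29,84)]]]
def cert9_0_m13 : List (List (List (ℕ × ℕ))) :=
  [[[],
    [(13,9)],
    [(13,11),(18,210),(19,30),(20,6),(22,2)],
    [(13,10),(18,525),(19,60),(20,3),(25,1680),(26,105),(28,12)],
    [(13,5),(18,630),(19,60),(25,4200),(26,210),(28,6),(29,7560)],
    [(13,1),(18,420),(19,30),(25,5040),(26,210),(29,18900)],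
    [(18,147),(19,6),(25,3360),(26,105),(29,22680)],
    [(18,21),(25,1176),(26,21),(29,15120)],
    [(25,168),(29,5292)],
    [(29,756)]]]
def cert9_0_m14 : List (List (List (ℕ × ℕ))) :=
  [[[],
    [(14,9)],
    [(14,9),(18,420),(20,20),(21,24),(23,1)],
    [(14,5),(18,1050),(20,30),(21,24),(25,3360),(27,60),(28,30)],
    [(14,1),(18,1190),(20,20),(21,8),(25,8400),(27,90),(28,30),(29,15120)],
    [(18,735),(20,5),(25,9520),(27,60),(28,10),(29,37800)],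
    [(18,245),(25,5880),(27,15),(29,42840)],
    [(18,35),(25,1960),(29,26460)],
    [(25,280),(29,8820)],
    [(29,1260)]]]
def cert9_0_m15 : List (List (List (ℕ × ℕ))) :=
  [[[],
    [(15,9)],
    [(15,8),(19,120),(21,24),(22,20),(23,6)],
    [(15,4),(19,240),(21,24),(22,30),(23,3),(25,3360),(26,840),(28,60)],
    [(15,1),(19,210),(21,6),(22,20),(25,8400),(26,1680),(28,60),(29,30240)],
    [(19,90),(22,5),(25,9240),(26,1470),(28,15),(29,75600)],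
    [(19,15),(25,5460),(26,630),(29,83160)],
    [(25,1680),(26,105),(29,49140)],
    [(25,210),(29,15120)],
    [(29,1890)]]]
def cert9_0_m16 : List (List (List (ℕ × ℕ))) :=
  [[[],
    [(16,9)],
    [(16,7),(19,90),(20,60),(23,12),(24,18)],
    [(16,2),(19,180),(20,90),(23,12),(24,9),(25,5040),(26,630),(27,360)],
    [(19,150),(20,50),(23,4),(25,12600),(26,1260),(27,540),(29,45360)],
    [(19,60),(20,10),(25,13440),(26,1050),(27,300),(29,113400)],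
    [(19,10),(25,7560),(26,420),(27,60),(29,120960)],
    [(25,2240),(26,70),(29,68040)],
    [(25,280),(29,20160)],
    [(29,2520)]]]
def cert9_0_m17 : List (List (List (ℕ × ℕ))) :=
  [[[],
    [(17,9)],
    [(17,6),(22,60),(23,12)],
    [(17,1),(22,90),(23,12),(26,1260),(27,120)],
    [(22,50),(23,3),(26,2520),(27,180),(29,30240)],
    [(22,10),(26,1995),(27,90),(29,75600)],
    [(26,735),(27,15),(29,78120)],
    [(26,105),(29,41580)],
    [(29,11340)],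
    [(29,1260)]]]
def cert9_0_m18 : List (List (List (ℕ × ℕ))) :=
  [[[],
    [(18,9)],
    [(18,21),(25,56),(26,1)],
    [(18,35),(25,168),(29,252)],
    [(18,35),(25,280),(29,756)],
    [(18,21),(25,280),(29,1260)],
    [(18,7),(25,168),(29,1260)],
    [(18,1),(25,56),(29,756)],
    [(25,8),(29,252)],
    [(29,36)]]]
def cert9_0_m19 : List (List (List (ℕ × ℕ))) :=
  [[[],
    [(19,9)],
    [(19,16),(25,336),(26,42),(27,6)],
    [(19,20),(25,1008),(26,105),(27,3),(29,3024)],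
    [(19,15),(25,1540),(26,140),(29,9072)],
    [(19,6),(25,1400),(26,105),(29,13860)],
    [(19,1),(25,756),(26,42),(29,12600)],
    [(25,224),(26,7),(29,6804)],
    [(25,28),(29,2016)],
    [(29,252)]]]
def cert9_0_m20 : List (List (List (ℕ × ℕ))) :=
  [[[],
    [(20,9)],
    [(20,13),(25,840),(27,30),(28,12)],
    [(20,11),(25,2520),(27,60),(28,12),(29,7560)],
    [(20,5),(25,3640),(27,60),(28,4),(29,22680)],
    [(20,1),(25,3080),(27,30),(29,32760)],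
    [(25,1568),(27,6),(29,27720)],
    [(25,448),(29,14112)],
    [(25,56),(29,4032)],
    [(29,504)]]]
def cert9_0_m21 : List (List (List (ℕ × ℕ))) :=
  [[[],
    [(21,9)],
    [(21,12),(25,560),(28,20)],
    [(21,8),(25,1680),(28,30),(29,5040)],
    [(21,2),(25,2380),(28,20),(29,15120)],
    [(25,1960),(28,5),(29,21420)],
    [(25,980),(29,17640)],
    [(25,280),(29,8820)],
    [(25,35),(29,2520)],
    [(29,315)]]]
def cert9_0_m22 : List (List (List (ℕ × ℕ))) :=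
  [[[],
    [(22,9)],
    [(22,12),(26,210),(28,12)],
    [(22,10),(26,525),(28,12),(29,7560)],
    [(22,5),(26,630),(28,3),(29,22680)],
    [(22,1),(26,420),(29,32130)],
    [(26,147),(29,26460)],
    [(26,21),(29,12852)],
    [(29,3402)],
    [(29,378)]]]
def cert9_0_m23 : List (List (List (ℕ × ℕ))) :=
  [[[],
    [(23,9)],
    [(23,10),(26,420),(27,120),(28,60)],
    [(23,5),(26,1050),(27,240),(28,90),(29,30240)],
    [(23,1),(26,1190),(27,210),(28,50),(29,90720)],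
    [(26,735),(27,90),(28,10),(29,123480)],
    [(26,245),(27,15),(29,95760)],
    [(26,35),(29,44100)],
    [(29,11340)],
    [(29,1260)]]]
def cert9_0_m24 : List (List (List (ℕ × ℕ))) :=
  [[[],
    [(24,9)],
    [(24,9),(27,90)],
    [(24,3),(27,180),(29,7560)],
    [(27,150),(29,22680)],
    [(27,60),(29,30240)],
    [(27,10),(29,22680)],
    [(29,10080)],
    [(29,2520)],
    [(29,280)]]]
def cert9_0_m25 : List (List (List (ℕ × ℕ))) :=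
  [[[],
    [(25,9)],
    [(25,28),(29,72)],
    [(25,56),(29,252)],
    [(25,70),(29,504)],
    [(25,56),(29,630)],
    [(25,28),(29,504)],
    [(25,8),(29,252)],
    [(25,1),(29,72)],
    [(29,9)]]]
def cert9_0_m26 : List (List (List (ℕ × ℕ))) :=
  [[[],
    [(26,9)],
    [(26,22),(29,504)],
    [(26,35),(29,1764)],
    [(26,35),(29,3276)],
    [(26,21),(29,3780)],
    [(26,7),(29,2772)],
    [(26,1),(29,1260)],
    [(29,324)],
    [(29,36)]]]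
def cert9_0_m27 : List (List (List (ℕ × ℕ))) :=
  [[[],
    [(27,9)],
    [(27,18),(29,1512)],
    [(27,21),(29,5292)],
    [(27,15),(29,9324)],
    [(27,6),(29,10080)],
    [(27,1),(29,6972)],
    [(29,3024)],
    [(29,756)],
    [(29,84)]]]
def cert9_0_m28 : List (List (List (ℕ × ℕ))) :=
  [[[],
    [(28,9)],
    [(28,16),(29,2520)],
    [(28,14),(29,8820)],
    [(28,6),(29,15120)],
    [(28,1),(29,15750)],
    [(29,10584)],
    [(29,4536)],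
    [(29,1134)],
    [(29,126)]]]
def cert9_0_m29 : List (List (List (ℕ × ℕ))) :=
  [[[],
    [(29,9)],
    [(29,36)],
    [(29,84)],
    [(29,126)],
    [(29,126)],
    [(29,84)],
    [(29,36)],
    [(29,9)],
    [(29,1)]]]
def cert9_0_M0 : List (List (List (List (ℕ × ℕ)))) :=
  [cert9_0_m0, cert9_0_m1, cert9_0_m2, cert9_0_m3, cert9_0_m4, cert9_0_m5, cert9_0_m6, cert9_0_m7, cert9_0_m8, cert9_0_m9]

def cert9_0_M1 : List (List (List (List (ℕ × ℕ)))) :=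
  [cert9_0_m10, cert9_0_m11, cert9_0_m12, cert9_0_m13, cert9_0_m14, cert9_0_m15, cert9_0_m16, cert9_0_m17, cert9_0_m18, cert9_0_m19]

def cert9_0_M2 : List (List (List (List (ℕ × ℕ)))) :=
  [cert9_0_m20, cert9_0_m21, cert9_0_m22, cert9_0_m23, cert9_0_m24, cert9_0_m25, cert9_0_m26, cert9_0_m27, cert9_0_m28, cert9_0_m29]

def cert9_0_rows : List (List ℕ) := cert9_0_R0 ++ (cert9_0_R1 ++ (cert9_0_R2))

/-- the certificate -/
def cert9_0 : Cert where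
  types := cert9_0_types
  rows := cert9_0_rows
  mul := cert9_0_M0 ++ (cert9_0_M1 ++ (cert9_0_M2))

theorem cert9_0_c0 : cf_rows cert9_0_rows (List.replicate 30 0) cert9_0_tab cert9_0_R0 cert9_0_M0 = true := by
  decide +kernel

theorem cert9_0_c1 : cf_rows cert9_0_rows (List.replicate 30 0) cert9_0_tab cert9_0_R1 cert9_0_M1 = true := by
  decide +kernel

theorem cert9_0_c2 : cf_rows cert9_0_rows (List.replicate 30 0) cert9_0_tab cert9_0_R2 cert9_0_M2 = true := by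
  decide +kernel

theorem cert9_0_all : cf_rows cert9_0_rows (List.replicate 30 0) cert9_0_tab cert9_0.rows cert9_0.mul = true :=
  (cf_rows_append _ _ _ _ _ _ _ cert9_0_c0 (cf_rows_append _ _ _ _ _ _ _ cert9_0_c1 cert9_0_c2))

theorem cert9_0_basic : cf_basic 9 cert9_0 = true := by decide +kernel

theorem cert9_0_tabok : cert9_0_tab = (List.range (2 ^ 0)).map fun T => (List.range (9 + 1)).map fun j =>
    cert9_0.types.map (nJ 0 j T) := by decide +kernel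

theorem cert9_0_ok : certOK 9 0 cert9_0 = true :=
  certOK_of 9 0 30 cert9_0 cert9_0_tab (by decide +kernel) cert9_0_basic cert9_0_tabok cert9_0_all

end Pool.Agent.H34R2.U
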