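import Mathlib

/-!
# Definitions for the project uniformly most reliable graphs with few missing edges

`H` is always the *complement* of the graph whose reliability we study; `q = 1 - p` is the
probability that an edge fails.  `Qw H q i j = 1` if `i j` is an edge of `H` (so it is *absent* in
the network) and `q` otherwise.  `RR Q A` is the probability that the random graph on `A`, in which
the pair `i j` is joined with probability `1 - Q i j`, is connected; it is defined by the recursion
(the component of the smallest element of `A` is exactly one set).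
-/

set_option autoImplicit false

namespace Pool.Agent.H34R2.U

open Finset

variable {n : ℕ}

/-- product of the failure probabilities over all pairs between `B` and `C`. -/
noncomputable def cut (Q : Fin n → Fin n → ℝ) (B C : Finset (Fin n)) : ℝ :=
  ∏ i ∈ B, ∏ j ∈ C, Q i j

/-- probability that the vertex `w` is joined to no vertex of `B`. -/
noncomputable def tt (Q : Fin n → Fin n → ℝ) (w : Fin n) (B : Finset (Fin n)) : ℝ :=
  ∏ j ∈ B, Q w j

/-- Twisted exponential: `EE Q g A` is the sum over all set partitions `π` of `A` of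
`∏_{B ∈ π} g B` times the product of `Q i j` over all pairs `i j` in different blocks
(defined by recursion on the block of the smallest element). -/
noncomputable def EE (Q : Fin n → Fin n → ℝ) (g : Finset (Fin n) → ℝ) :
    Finset (Fin n) → ℝ
  | A => if h : A.Nonempty then
      ∑ B ∈ (A.erase (A.min' h)).powerset,
        g (insert (A.min' h) B) * cut Q (insert (A.min' h) B) (A \ insert (A.min' h) B) *
          EE Q g (A \ insert (A.min' h) B)
    else 1
termination_by A => A.card
decreasing_by
  apply Finset.card_lt_card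
  rw [Finset.ssubset_iff_of_subset Finset.sdiff_subset]
  exact ⟨A.min' h, A.min'_mem h, fun hh =>
    (Finset.mem_sdiff.1 hh).2 (Finset.mem_insert_self _ _)⟩

/-- Reliability: `RR Q A` is the probability that the random graph on `A` is connected
(`RR Q ∅ = 1` by convention). -/
noncomputable def RR (Q : Fin n → Fin n → ℝ) : Finset (Fin n) → ℝ
  | A => if h : A.Nonempty then
      1 - ∑ B ∈ ((A.erase (A.min' h)).powerset.erase (A.erase (A.min' h))).attach,
        RR Q (insert (A.min' h) B.1) * cut Q (insert (A.min' h) B.1) (A \ insert (A.min' h) B.1)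
    else 1
termination_by A => A.card
decreasing_by
  have h1 := B.2
  rw [Finset.mem_erase, Finset.mem_powerset] at h1
  apply Finset.card_lt_card
  rw [Finset.ssubset_iff_subset_ne]
  refine ⟨?_, ?_⟩
  · intro x hx
    rw [Finset.mem_insert] at hx
    rcases hx with rfl | hx
    · exact A.min'_mem h
    · exact Finset.mem_of_mem_erase (h1.2 hx)
  · intro he
    apply h1.1
    ext x
    constructor
    · intro hx; exact h1.2 hx
    · intro hx
      rw [Finset.mem_erase] at hx
      have : x ∈ insert (A.min' h) B.1 := by rw [he]; exact hx.2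
      rw [Finset.mem_insert] at this
      rcases this with h3 | h3
      · exact absurd h3 hx.1
      · exact h3

/-- `MM Q f A` is the expectation of `∏_{B component} f B` for the random graph on `A`. -/
noncomputable def MM (Q : Fin n → Fin n → ℝ) (f : Finset (Fin n) → ℝ)
    (A : Finset (Fin n)) : ℝ :=
  EE Q (fun B => RR Q B * f B) A

/-- the weights of the network whose complement is `H`. -/
noncomputable def Qw (H : SimpleGraph (Fin n)) (q : ℝ) (i j : Fin n) : ℝ :=
  open Classical in if H.Adj i j then 1 else q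

/-- reliability of the complement of `H` when edges fail with probability `q`. -/
noncomputable def RH (H : SimpleGraph (Fin n)) (q : ℝ) : ℝ := RR (Qw H q) Finset.univ

/-- `Q` is a symmetric matrix of probabilities. -/
def Wt (Q : Fin n → Fin n → ℝ) : Prop :=
  (∀ i j, Q i j = Q j i) ∧ (∀ i j, 0 ≤ Q i j) ∧ (∀ i j, Q i j ≤ 1)

/-- `L` lists the blocks of a set partition of `A`. -/
inductive IsPart : Finset (Fin n) → List (Finset (Fin n)) → Prop
  | nil : IsPart ∅ []
  | cons (A B : Finset (Fin n)) (L : List (Finset (Fin n))) :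
      B.Nonempty → B ⊆ A → IsPart (A \ B) L → IsPart A (B :: L)

/-- Move the edge `u x` of `H` to `v x`. -/
def reloc (H : SimpleGraph (Fin n)) (u v x : Fin n) : SimpleGraph (Fin n) where
  Adj i j := i ≠ j ∧ ((H.Adj i j ∧ ¬ (i = u ∧ j = x) ∧ ¬ (i = x ∧ j = u)) ∨
    (i = v ∧ j = x) ∨ (i = x ∧ j = v))
  symm := by
    constructor
    rintro i j ⟨h1, h2⟩
    refine ⟨h1.symm, ?_⟩
    rcases h2 with ⟨h3, h4, h5⟩ | h2 | h2
    · exact Or.inl ⟨h3.symm, fun h => h5 ⟨h.2, h.1⟩, fun h => h4 ⟨h.2, h.1⟩⟩
    · exact Or.inr (Or.inr ⟨h2.2, h2.1⟩)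
    · exact Or.inr (Or.inl ⟨h2.2, h2.1⟩)
  loopless := ⟨fun i h => h.1 rfl⟩

/-- adjacency on `Fin w` given by a list of edges. -/
def adjL {w : ℕ} (l : List (ℕ × ℕ)) (a b : Fin w) : Bool :=
  l.any fun e => (e.1 == a.val && e.2 == b.val) || (e.1 == b.val && e.2 == a.val)

/-- Replace the subgraph of `H` induced on the image of `φ` by the graph with edge list `l`. -/
def repl (H : SimpleGraph (Fin n)) {w : ℕ} (φ : Fin w ↪ Fin n) (l : List (ℕ × ℕ)) :
    SimpleGraph (Fin n) where
  Adj i j := i ≠ j ∧ ((∃ a b, φ a = i ∧ φ b = j ∧ adjL l a b = true) ∨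
    (¬ ((∃ a, φ a = i) ∧ (∃ b, φ b = j)) ∧ H.Adj i j))
  symm := by
    constructor
    rintro i j ⟨h1, h2⟩
    refine ⟨h1.symm, ?_⟩
    rcases h2 with ⟨a, b, ha, hb, h⟩ | ⟨h3, h4⟩
    · refine Or.inl ⟨b, a, hb, ha, ?_⟩
      rw [← h]
      unfold adjL
      congr 1
      funext e
      rw [Bool.or_comm]
    · exact Or.inr ⟨fun h => h3 ⟨h.2, h.1⟩, h4.symm⟩
  loopless := ⟨fun i h => h.1 rfl⟩

/-- The local configuration: `H` restricted to the image of `φ` is the graph with edge list `l`
and the vertices `a` with `mk a = false` have all their `H`-neighbours in the image of `φ`. -/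
def Conf (H : SimpleGraph (Fin n)) {w : ℕ} (φ : Fin w ↪ Fin n) (l : List (ℕ × ℕ))
    (mk : List ℕ) : Prop :=
  (∀ a b, H.Adj (φ a) (φ b) ↔ adjL l a b = true) ∧
  (∀ a : Fin w, a.val ∉ mk → ∀ j, H.Adj (φ a) j → ∃ b, φ b = j)

/-- The local move `l → l'` for some `l' ∈ ls` does not decrease the reliability on average. -/
def MoveOK (w : ℕ) (l : List (ℕ × ℕ)) (ls : List (List (ℕ × ℕ))) (mk : List ℕ) : Prop :=
  ∀ (n : ℕ) (H : SimpleGraph (Fin n)) (φ : Fin w ↪ Fin n), Conf H φ l mk →
    ∀ q : ℝ, 0 < q → q < 1 →
      0 ≤ (ls.map fun l' => RH (repl H φ l') q - RH H q).sum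

/-- ordered triples spanning a triangle. -/
noncomputable def tri (H : SimpleGraph (Fin n)) : ℕ :=
  open Classical in
  (Finset.univ.filter fun t : Fin n × Fin n × Fin n =>
    H.Adj t.1 t.2.1 ∧ H.Adj t.2.1 t.2.2 ∧ H.Adj t.1 t.2.2).card

/-- degree -/
noncomputable def dg (H : SimpleGraph (Fin n)) (v : Fin n) : ℕ :=
  open Classical in (Finset.univ.filter fun j => H.Adj v j).card

/-- potential: every improving move decreases it. -/
noncomputable def pot (H : SimpleGraph (Fin n)) : ℕ :=
  (∑ v, dg H v ^ 2) * (n ^ 3 + 1) + (n ^ 3 - tri H)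

/-- disjoint union of triangles and single edges. -/
def TE (H : SimpleGraph (Fin n)) : Prop :=
  (∀ v, dg H v = 1 ∨ dg H v = 2) ∧ (∀ u v w, H.Adj u v → H.Adj v w → u ≠ w → H.Adj u w)

/-- `H'` is an admissible improvement of `H`: same number of edges, at least the same
reliability, smaller potential. -/
def Imp (H : SimpleGraph (Fin n)) (q : ℝ) : Prop :=
  ∃ H' : SimpleGraph (Fin n), (∑ v, dg H' v) = (∑ v, dg H v) ∧ RH H q ≤ RH H' q ∧
    pot H' < pot H

end Pool.Agent.H34R2.U
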