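import Pool.Agent.H34R2.U.Defs

/-! TASK G17: the extremal graphs are unique up to isomorphism and exist (helper265). -/

set_option autoImplicit false

namespace Pool.Agent.H34R2.U

open Finset

variable {n : ℕ}

open Classical in
/-- class size -/
noncomputable def g17cs {V : Type} [Fintype V] (r : V → V → Prop) (v : V) : ℕ :=
  (univ.filter fun w => r v w).card

open Classical in
theorem g17cs_congr {V : Type} [Fintype V] (r : V → V → Prop) (hr : Equivalence r) (a b : V)
    (h : r a b) : g17cs r a = g17cs r b := by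
  unfold g17cs
  congr 1
  ext w
  simp only [mem_filter, mem_univ, true_and]
  exact ⟨fun h1 => hr.trans (hr.symm h) h1, fun h1 => hr.trans h h1⟩

open Classical in
theorem g17_count {V : Type} [Fintype V] (r : V → V → Prop) (hr : Equivalence r) (s : ℕ) :
    (univ.filter fun v => g17cs r v = s).card =
      s * (univ.filter fun q : Quotient (Setoid.mk r hr) =>
        Quotient.lift (s := Setoid.mk r hr) (g17cs r) (g17cs_congr r hr) q = s).card := by
  rw [Finset.card_eq_sum_card_fiberwise (f := fun v => (Quotient.mk (Setoid.mk r hr) v))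
    (t := univ.filter fun q : Quotient (Setoid.mk r hr) =>
        Quotient.lift (s := Setoid.mk r hr) (g17cs r) (g17cs_congr r hr) q = s)]
  · rw [Finset.sum_const_nat (m := s), mul_comm]
    intro q hq
    induction q using Quotient.inductionOn with
    | h v =>
      have hv : g17cs r v = s := by simpa using hq
      rw [← hv]
      unfold g17cs
      congr 1
      ext w
      simp only [mem_filter, mem_univ, true_and]
      constructor
      · rintro ⟨-, h2⟩
        exact hr.symm (Quotient.exact h2)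
      · intro h2
        refine ⟨?_, Quotient.sound (hr.symm h2)⟩
        have := g17cs_congr r hr v w h2
        unfold g17cs at this hv
        rw [← this]
  · intro v hv
    simpa using hv

open Classical in
theorem g17_glue {V : Type} [Fintype V] (r r' : V → V → Prop) (hr : Equivalence r)
    (hr' : Equivalence r')
    (h : ∀ s, (univ.filter fun v => g17cs r v = s).card =
      (univ.filter fun v => g17cs r' v = s).card) :
    ∃ σ : Equiv.Perm V, ∀ i j, r i j ↔ r' (σ i) (σ j) := by
  let S : Setoid V := Setoid.mk r hr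
  let S' : Setoid V := Setoid.mk r' hr'
  let sz : Quotient S → ℕ := Quotient.lift (s := S) (g17cs r) (g17cs_congr r hr)
  let sz' : Quotient S' → ℕ := Quotient.lift (s := S') (g17cs r') (g17cs_congr r' hr')
  have hcard : ∀ s, Fintype.card {q : Quotient S // sz q = s} =
      Fintype.card {q : Quotient S' // sz' q = s} := by
    intro s
    rw [Fintype.card_subtype, Fintype.card_subtype]
    rcases Nat.eq_zero_or_pos s with hs | hs
    · subst hs
      have e1 : (univ.filter fun q : Quotient S => sz q = 0) = ∅ := by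
        rw [Finset.filter_eq_empty_iff]
        intro q _ hq
        induction q using Quotient.inductionOn with
        | h v =>
          have hv : g17cs r v = 0 := hq
          unfold g17cs at hv
          rw [Finset.card_eq_zero, Finset.filter_eq_empty_iff] at hv
          exact hv (mem_univ v) (hr.refl v)
      have e2 : (univ.filter fun q : Quotient S' => sz' q = 0) = ∅ := by
        rw [Finset.filter_eq_empty_iff]
        intro q _ hq
        induction q using Quotient.inductionOn with
        | h v =>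
          have hv : g17cs r' v = 0 := hq
          unfold g17cs at hv
          rw [Finset.card_eq_zero, Finset.filter_eq_empty_iff] at hv
          exact hv (mem_univ v) (hr'.refl v)
      rw [e1, e2]
      rfl
    · have h1 := g17_count r hr s
      have h2 := g17_count r' hr' s
      rw [h s, h2] at h1
      exact (Nat.eq_of_mul_eq_mul_left hs h1).symm
  let τ : Quotient S ≃ Quotient S' :=
    Equiv.ofFiberEquiv (f := sz) (g := sz') fun s => Fintype.equivOfCardEq (hcard s)
  have hτ : ∀ q, sz' (τ q) = sz q := fun q =>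
    Equiv.ofFiberEquiv_map (f := sz) (g := sz') (fun s => Fintype.equivOfCardEq (hcard s)) q
  have hfib : ∀ c : Quotient S', Fintype.card {v : V // τ (Quotient.mk S v) = c} =
      Fintype.card {w : V // Quotient.mk S' w = c} := by
    intro c
    obtain ⟨q, rfl⟩ := τ.surjective c
    have h1 : Fintype.card {v : V // τ (Quotient.mk S v) = τ q} = sz q := by
      induction q using Quotient.inductionOn with
      | h v =>
        rw [Fintype.card_subtype]
        show _ = g17cs r v
        unfold g17cs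
        congr 1
        ext w
        simp only [mem_filter, mem_univ, true_and, EmbeddingLike.apply_eq_iff_eq]
        exact ⟨fun h2 => hr.symm (Quotient.exact h2), fun h2 => Quotient.sound (hr.symm h2)⟩
    have h2 : ∀ c : Quotient S', Fintype.card {w : V // Quotient.mk S' w = c} = sz' c := by
      intro c
      induction c using Quotient.inductionOn with
      | h v =>
        rw [Fintype.card_subtype]
        show _ = g17cs r' v
        unfold g17cs
        congr 1
        ext w
        simp only [mem_filter, mem_univ, true_and]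
        exact ⟨fun h2 => hr'.symm (Quotient.exact h2), fun h2 => Quotient.sound (hr'.symm h2)⟩
    rw [h1, h2, hτ]
  let σ : V ≃ V := Equiv.ofFiberEquiv (f := fun v => τ (Quotient.mk S v))
    (g := fun w => Quotient.mk S' w) fun c => Fintype.equivOfCardEq (hfib c)
  have hσ : ∀ v, Quotient.mk S' (σ v) = τ (Quotient.mk S v) := fun v =>
    Equiv.ofFiberEquiv_map (f := fun v => τ (Quotient.mk S v))
      (g := fun w => Quotient.mk S' w) (fun c => Fintype.equivOfCardEq (hfib c)) v
  refine ⟨σ, fun i j => ?_⟩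
  constructor
  · intro h1
    have h2 : Quotient.mk S i = Quotient.mk S j := Quotient.sound h1
    have h3 : Quotient.mk S' (σ i) = Quotient.mk S' (σ j) := by rw [hσ, hσ, h2]
    exact Quotient.exact h3
  · intro h1
    have h2 : Quotient.mk S' (σ i) = Quotient.mk S' (σ j) := Quotient.sound h1
    rw [hσ, hσ] at h2
    exact Quotient.exact (τ.injective h2)

theorem g17_TE_eqv (H : SimpleGraph (Fin n)) (h : TE H) :
    Equivalence fun i j => i = j ∨ H.Adj i j := by
  refine ⟨fun i => Or.inl rfl, ?_, ?_⟩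
  · rintro i j (h1 | h1)
    · exact Or.inl h1.symm
    · exact Or.inr h1.symm
  · rintro i j k (rfl | h1) (rfl | h2)
    · exact Or.inl rfl
    · exact Or.inr h2
    · exact Or.inr h1
    · by_cases hik : i = k
      · exact Or.inl hik
      · exact Or.inr (h.2 i j k h1 h2 hik)

theorem g17_TE_cs (H : SimpleGraph (Fin n)) (v : Fin n) :
    g17cs (fun i j => i = j ∨ H.Adj i j) v = dg H v + 1 := by
  classical
  unfold g17cs dg
  rw [← Finset.card_insert_of_notMem (a := v)
    (s := Finset.univ.filter fun j => H.Adj v j) (by simp)]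
  congr 1
  ext w
  simp [eq_comm]

open Classical in
theorem g17_TE_cnt (H : SimpleGraph (Fin n)) (h : TE H) :
    (univ.filter fun v => dg H v = 1).card + (univ.filter fun v => dg H v = 2).card = n ∧
    (univ.filter fun v => dg H v = 1).card + 2 * (univ.filter fun v => dg H v = 2).card =
      ∑ v, dg H v := by
  constructor
  · have h1 := Finset.card_filter_add_card_filter_not (s := (univ : Finset (Fin n)))
      (fun v => dg H v = 1)
    rw [Finset.card_univ, Fintype.card_fin] at h1
    have e1 : (univ.filter fun v => dg H v = 2) = univ.filter fun v => ¬ dg H v = 1 := by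
      ext v
      simp only [mem_filter, mem_univ, true_and]
      rcases h.1 v with h2 | h2 <;> omega
    rw [e1]
    exact h1
  · rw [Finset.card_filter, Finset.card_filter, Finset.mul_sum, ← Finset.sum_add_distrib]
    refine Finset.sum_congr rfl fun v _ => ?_
    rcases h.1 v with h2 | h2 <;> simp [h2]

theorem TE_iso (H H' : SimpleGraph (Fin n)) (h : TE H) (h' : TE H')
    (hs : ∑ v, dg H v = ∑ v, dg H' v) :
    ∃ σ : Equiv.Perm (Fin n), ∀ i j, H.Adj i j ↔ H'.Adj (σ i) (σ j) := by
  classical
  obtain ⟨σ, hσ⟩ := g17_glue _ _ (g17_TE_eqv H h) (g17_TE_eqv H' h') (by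
    intro s
    simp only [g17_TE_cs]
    obtain ⟨h1, h2⟩ := g17_TE_cnt H h
    obtain ⟨h3, h4⟩ := g17_TE_cnt H' h'
    by_cases hs2 : s = 2
    · subst hs2
      have e1 : ∀ G : SimpleGraph (Fin n), (univ.filter fun v => dg G v + 1 = 2) =
          univ.filter fun v => dg G v = 1 := by
        intro G; ext v; simp
      rw [e1, e1]
      omega
    by_cases hs3 : s = 3
    · subst hs3
      have e1 : ∀ G : SimpleGraph (Fin n), (univ.filter fun v => dg G v + 1 = 3) =
          univ.filter fun v => dg G v = 2 := by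
        intro G; ext v; simp
      rw [e1, e1]
      omega
    · have e1 : ∀ G : SimpleGraph (Fin n), TE G → (univ.filter fun v => dg G v + 1 = s) = ∅ := by
        intro G hG
        rw [Finset.filter_eq_empty_iff]
        intro v _ hv
        rcases hG.1 v with h5 | h5 <;> omega
      rw [e1 H h, e1 H' h'])
  refine ⟨σ, fun i j => ?_⟩
  have h1 := hσ i j
  have e1 : H.Adj i j ↔ i ≠ j ∧ (i = j ∨ H.Adj i j) := by
    constructor
    · exact fun h2 => ⟨h2.ne, Or.inr h2⟩
    · rintro ⟨h2, h3 | h3⟩
      · exact absurd h3 h2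
      · exact h3
  have e2 : H'.Adj (σ i) (σ j) ↔ σ i ≠ σ j ∧ (σ i = σ j ∨ H'.Adj (σ i) (σ j)) := by
    constructor
    · exact fun h2 => ⟨h2.ne, Or.inr h2⟩
    · rintro ⟨h2, h3 | h3⟩
      · exact absurd h3 h2
      · exact h3
  rw [e1, e2, h1]
  simp

/-- the graph on `Fin n` obtained from an irreflexive symmetric relation on a type of size `n`. -/
def g17gr {V : Type} (e : V ≃ Fin n) (R : V → V → Prop) (hs : ∀ a b, R a b → R b a)
    (hi : ∀ a, ¬ R a a) : SimpleGraph (Fin n) where
  Adj i j := R (e.symm i) (e.symm j)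
  symm := ⟨fun _ _ h => hs _ _ h⟩
  loopless := ⟨fun _ h => hi _ h⟩

open Classical in
theorem g17gr_dg {V : Type} [Fintype V] (e : V ≃ Fin n) (R : V → V → Prop)
    (hs : ∀ a b, R a b → R b a) (hi : ∀ a, ¬ R a a) (v : V) :
    dg (g17gr e R hs hi) (e v) = ∑ w : V, if R v w then 1 else 0 := by
  unfold dg
  rw [Finset.card_filter]
  rw [← Equiv.sum_comp e]
  refine Finset.sum_congr rfl fun w _ => ?_
  simp [g17gr]

theorem TE_exists (n k m : ℕ) (hn : n = 3 * k + 2 * m) :
    ∃ H : SimpleGraph (Fin n), TE H ∧ ∑ v, dg H v = n + 3 * k := by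
  classical
  let V := (Fin k × Fin 3) ⊕ (Fin m × Fin 2)
  have hc : Fintype.card V = n := by
    simp [V, hn]
    ring
  let e : V ≃ Fin n := Fintype.equivFinOfCardEq hc
  let cls : V → Fin k ⊕ Fin m := Sum.map Prod.fst Prod.fst
  let R : V → V → Prop := fun a b => a ≠ b ∧ cls a = cls b
  have hs : ∀ a b, R a b → R b a := fun a b h => ⟨h.1.symm, h.2.symm⟩
  have hi : ∀ a, ¬ R a a := fun a h => h.1 rfl
  have hd1 : ∀ p : Fin k × Fin 3, dg (g17gr e R hs hi) (e (Sum.inl p)) = 2 := by
    rintro ⟨a, x⟩
    rw [g17gr_dg, Fintype.sum_sum_type, Fintype.sum_prod_type]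
    have h1 : ∀ (b : Fin k) (y : Fin 3), R (Sum.inl (a, x)) (Sum.inl (b, y)) ↔ a = b ∧ x ≠ y := by
      intro b y
      constructor
      · rintro ⟨h3, h4⟩
        have h5 : a = b := Sum.inl.inj h4
        refine ⟨h5, fun h6 => h3 ?_⟩
        rw [h5, h6]
      · rintro ⟨rfl, h4⟩
        refine ⟨fun h5 => h4 ?_, rfl⟩
        have h6 : (a, x) = (a, y) := Sum.inl.inj h5
        exact (Prod.mk.inj h6).2
    have h2 : ∀ p : Fin m × Fin 2, ¬ R (Sum.inl (a, x)) (Sum.inr p) := by
      intro p
      simp [R, cls]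
    simp only [h1, h2, if_false, Finset.sum_const_zero, add_zero]
    rw [Finset.sum_eq_single a]
    · fin_cases x <;> simp [Fin.sum_univ_three]
    · intro b _ hb
      refine Finset.sum_eq_zero fun y _ => ?_
      rw [if_neg]
      exact fun h => hb h.1.symm
    · intro h; exact absurd (mem_univ a) h
  have hd2 : ∀ p : Fin m × Fin 2, dg (g17gr e R hs hi) (e (Sum.inr p)) = 1 := by
    rintro ⟨a, x⟩
    rw [g17gr_dg, Fintype.sum_sum_type, Fintype.sum_prod_type (f := fun p : Fin m × Fin 2 => _)]
    have h1 : ∀ (b : Fin m) (y : Fin 2), R (Sum.inr (a, x)) (Sum.inr (b, y)) ↔ a = b ∧ x ≠ y := by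
      intro b y
      constructor
      · rintro ⟨h3, h4⟩
        have h5 : a = b := Sum.inr.inj h4
        refine ⟨h5, fun h6 => h3 ?_⟩
        rw [h5, h6]
      · rintro ⟨rfl, h4⟩
        refine ⟨fun h5 => h4 ?_, rfl⟩
        have h6 : (a, x) = (a, y) := Sum.inr.inj h5
        exact (Prod.mk.inj h6).2
    have h2 : ∀ p : Fin k × Fin 3, ¬ R (Sum.inr (a, x)) (Sum.inl p) := by
      intro p
      simp [R, cls]
    simp only [h1, h2, if_false, Finset.sum_const_zero, zero_add]
    rw [Finset.sum_eq_single a]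
    · fin_cases x <;> simp [Fin.sum_univ_two]
    · intro b _ hb
      refine Finset.sum_eq_zero fun y _ => ?_
      rw [if_neg]
      exact fun h => hb h.1.symm
    · intro h; exact absurd (mem_univ a) h
  refine ⟨g17gr e R hs hi, ⟨?_, ?_⟩, ?_⟩
  · intro v
    obtain ⟨w, rfl⟩ := e.surjective v
    rcases w with p | p
    · exact Or.inr (hd1 p)
    · exact Or.inl (hd2 p)
  · rintro u v w ⟨h1, h2⟩ ⟨h3, h4⟩ h5
    exact ⟨fun h => h5 (e.symm.injective h), h2.trans h4⟩
  · rw [← Equiv.sum_comp e, Fintype.sum_sum_type]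
    simp only [hd1, hd2]
    simp
    omega

/-- one vertex of degree two, all others of degree one. -/
def OneP (H : SimpleGraph (Fin n)) : Prop :=
  (∀ v, 1 ≤ dg H v) ∧ ∑ v, dg H v = n + 1

theorem g17_OneP_deg (H : SimpleGraph (Fin n)) (h : OneP H) :
    ∃ c, dg H c = 2 ∧ ∀ v, v ≠ c → dg H v = 1 := by
  obtain ⟨h1, h2⟩ := h
  have h3 : ∑ v, (dg H v - 1) = 1 := by
    have : ∑ v, dg H v = ∑ v, (dg H v - 1) + n := by
      calc ∑ v, dg H v = ∑ v : Fin n, ((dg H v - 1) + 1) :=
            Finset.sum_congr rfl fun v _ => by have := h1 v; omega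
        _ = ∑ v, (dg H v - 1) + n := by rw [Finset.sum_add_distrib]; simp
    omega
  obtain ⟨c, hc⟩ : ∃ c, dg H c - 1 ≠ 0 := by
    by_contra hcon
    push Not at hcon
    simp [hcon] at h3
  have h4 : ∑ v ∈ univ.erase c, (dg H v - 1) + (dg H c - 1) = 1 := by
    rw [Finset.sum_erase_add _ _ (mem_univ c), h3]
  refine ⟨c, by omega, fun v hv => ?_⟩
  have h5 : ∑ v ∈ univ.erase c, (dg H v - 1) = 0 := by omega
  rw [Finset.sum_eq_zero_iff] at h5
  have := h5 v (Finset.mem_erase.2 ⟨hv, mem_univ v⟩)
  have := h1 v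
  omega

theorem g17_uniq (H : SimpleGraph (Fin n)) (v : Fin n) (h : dg H v = 1) (x y : Fin n)
    (hx : H.Adj v x) (hy : H.Adj v y) : x = y := by
  classical
  unfold dg at h
  rw [Finset.card_eq_one] at h
  obtain ⟨a, ha⟩ := h
  have h1 : x ∈ (Finset.univ.filter fun j => H.Adj v j) := by simp [hx]
  have h2 : y ∈ (Finset.univ.filter fun j => H.Adj v j) := by simp [hy]
  rw [ha, Finset.mem_singleton] at h1 h2
  rw [h1, h2]

theorem g17_OneP_eqv (H : SimpleGraph (Fin n)) (c : Fin n) (hc : ∀ v, v ≠ c → dg H v = 1) :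
    Equivalence fun i j => i = j ∨ H.Adj i j ∨ (H.Adj c i ∧ H.Adj c j) := by
  have hu : ∀ v, H.Adj c v → ∀ x, H.Adj v x → x = c := fun v hv x hx =>
    g17_uniq H v (hc v hv.ne.symm) x c hx hv.symm
  refine ⟨fun i => Or.inl rfl, ?_, ?_⟩
  · rintro i j (h1 | h1 | h1)
    · exact Or.inl h1.symm
    · exact Or.inr (Or.inl h1.symm)
    · exact Or.inr (Or.inr ⟨h1.2, h1.1⟩)
  · rintro i j k (rfl | h1 | h1) (rfl | h2 | h2)
    · exact Or.inl rfl
    · exact Or.inr (Or.inl h2)
    · exact Or.inr (Or.inr h2)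
    · exact Or.inr (Or.inl h1)
    · by_cases hj : j = c
      · subst hj
        exact Or.inr (Or.inr ⟨h1.symm, h2⟩)
      · exact Or.inl (g17_uniq H j (hc j hj) i k h1.symm h2)
    · have := hu j h2.1 i h1.symm
      subst this
      exact Or.inr (Or.inl h2.2)
    · exact Or.inr (Or.inr h1)
    · have := hu j h1.2 k h2
      subst this
      exact Or.inr (Or.inl h1.1.symm)
    · exact Or.inr (Or.inr ⟨h1.1, h2.2⟩)

open Classical in
theorem g17_OneP_cs (H : SimpleGraph (Fin n)) (c : Fin n) (h2 : dg H c = 2)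
    (hc : ∀ v, v ≠ c → dg H v = 1) (v : Fin n) :
    g17cs (fun i j => i = j ∨ H.Adj i j ∨ (H.Adj c i ∧ H.Adj c j)) v =
      if v = c ∨ H.Adj c v then 3 else 2 := by
  have hu : ∀ v, H.Adj c v → ∀ x, H.Adj v x → x = c := fun v hv x hx =>
    g17_uniq H v (hc v hv.ne.symm) x c hx hv.symm
  have h3 : (insert c (Finset.univ.filter fun j => H.Adj c j)).card = 3 := by
    rw [Finset.card_insert_of_notMem (by simp)]
    unfold dg at h2
    rw [h2]
  split_ifs with hv
  · rw [← h3]
    unfold g17cs
    congr 1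
    ext w
    simp only [mem_filter, mem_univ, true_and, mem_insert]
    rcases hv with rfl | hv
    · constructor
      · rintro (h | h | h)
        · exact Or.inl h.symm
        · exact Or.inr h
        · exact absurd h.1 (H.irrefl)
      · rintro (h | h)
        · exact Or.inl h.symm
        · exact Or.inr (Or.inl h)
    · constructor
      · rintro (h | h | h)
        · subst h; exact Or.inr hv
        · exact Or.inl (hu v hv w h)
        · exact Or.inr h.2
      · rintro (h | h)
        · subst h; exact Or.inr (Or.inl hv.symm)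
        · exact Or.inr (Or.inr ⟨hv, h⟩)
  · push Not at hv
    have h4 : (insert v (Finset.univ.filter fun j => H.Adj v j)).card = 2 := by
      rw [Finset.card_insert_of_notMem (by simp)]
      have := hc v hv.1
      unfold dg at this
      rw [this]
    rw [← h4]
    unfold g17cs
    congr 1
    ext w
    simp only [mem_filter, mem_univ, true_and, mem_insert]
    constructor
    · rintro (h | h | h)
      · exact Or.inl h.symm
      · exact Or.inr h
      · exact absurd h.1 hv.2
    · rintro (h | h)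
      · exact Or.inl h.symm
      · exact Or.inr (Or.inl h)

open Classical in
theorem g17_OneP_cnt (H : SimpleGraph (Fin n)) (c : Fin n) (h2 : dg H c = 2)
    (hc : ∀ v, v ≠ c → dg H v = 1) (s : ℕ) :
    (univ.filter fun v =>
      g17cs (fun i j => i = j ∨ H.Adj i j ∨ (H.Adj c i ∧ H.Adj c j)) v = s).card =
      if s = 3 then 3 else if s = 2 then n - 3 else 0 := by
  simp only [g17_OneP_cs H c h2 hc]
  have h3 : (Finset.univ.filter fun j => j = c ∨ H.Adj c j).card = 3 := by
    have : (Finset.univ.filter fun j => j = c ∨ H.Adj c j) =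
        insert c (Finset.univ.filter fun j => H.Adj c j) := by
      ext w; simp
    rw [this, Finset.card_insert_of_notMem (by simp)]
    unfold dg at h2
    rw [h2]
  have h4 := Finset.card_filter_add_card_filter_not (s := (univ : Finset (Fin n)))
      (fun j => j = c ∨ H.Adj c j)
  rw [Finset.card_univ, Fintype.card_fin, h3] at h4
  split_ifs with hs3 hs2
  · subst hs3
    refine Eq.trans ?_ h3
    congr 1
    ext v
    simp only [mem_filter, mem_univ, true_and]
    by_cases hv : v = c ∨ H.Adj c v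
    · simp [hv]
    · simp [hv]
  · subst hs2
    have : (univ.filter fun v => (if v = c ∨ H.Adj c v then 3 else 2) = 2) =
        univ.filter fun v => ¬ (v = c ∨ H.Adj c v) := by
      ext v
      simp only [mem_filter, mem_univ, true_and]
      by_cases hv : v = c ∨ H.Adj c v
      · simp [hv]
      · simp [hv]
    rw [this]
    omega
  · rw [Finset.card_eq_zero, Finset.filter_eq_empty_iff]
    intro v _
    split_ifs
    · exact fun h => hs3 h.symm
    · exact fun h => hs2 h.symm

theorem g17_cs_map {V : Type} [Fintype V] (r r' : V → V → Prop) (σ : Equiv.Perm V)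
    (h : ∀ i j, r i j ↔ r' (σ i) (σ j)) (v : V) : g17cs r' (σ v) = g17cs r v := by
  classical
  unfold g17cs
  symm
  apply Finset.card_bij' (fun w _ => σ w) (fun w _ => σ.symm w)
  · intro a ha
    simpa [← h] using ha
  · intro a ha
    simp only [mem_filter, mem_univ, true_and] at ha ⊢
    rw [h]
    simpa using ha
  · intro a _; simp
  · intro a _; simp

theorem OneP_iso (H H' : SimpleGraph (Fin n)) (h : OneP H) (h' : OneP H') :
    ∃ σ : Equiv.Perm (Fin n), ∀ i j, H.Adj i j ↔ H'.Adj (σ i) (σ j) := by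
  classical
  obtain ⟨c, hc2, hc1⟩ := g17_OneP_deg H h
  obtain ⟨c', hc2', hc1'⟩ := g17_OneP_deg H' h'
  have eqv := g17_OneP_eqv H c hc1
  have eqv' := g17_OneP_eqv H' c' hc1'
  have hcs' := g17_OneP_cs H' c' hc2' hc1'
  have hcs := g17_OneP_cs H c hc2 hc1
  obtain ⟨σ, hσ⟩ := g17_glue _ _ eqv eqv' (fun s => by
    rw [g17_OneP_cnt H c hc2 hc1, g17_OneP_cnt H' c' hc2' hc1'])
  set r : Fin n → Fin n → Prop := fun i j => i = j ∨ H.Adj i j ∨ (H.Adj c i ∧ H.Adj c j) with hr
  set r' : Fin n → Fin n → Prop := fun i j => i = j ∨ H'.Adj i j ∨ (H'.Adj c' i ∧ H'.Adj c' j)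
    with hr'
  have hσ' : ∀ i j, r i j ↔ r' (σ i) (σ j) := hσ
  have key : ∀ (G : SimpleGraph (Fin n)) (z : Fin n), (∀ v, v ≠ z → dg G v = 1) → ∀ i j,
      (G.Adj i j ↔ (i ≠ j ∧ (i = j ∨ G.Adj i j ∨ (G.Adj z i ∧ G.Adj z j)) ∧
        ((z = i ∨ G.Adj z i ∨ (G.Adj z z ∧ G.Adj z i)) → (i = z ∨ j = z)))) := by
    intro G z hz i j
    have hu : ∀ v, G.Adj z v → ∀ x, G.Adj v x → x = z := fun v hv x hx =>
      g17_uniq G v (hz v hv.ne.symm) x z hx hv.symm
    constructor
    · intro h1
      refine ⟨h1.ne, Or.inr (Or.inl h1), ?_⟩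
      rintro (h2 | h2 | h2)
      · exact Or.inl h2.symm
      · exact Or.inr (hu i h2 j h1)
      · exact absurd h2.1 (G.irrefl)
    · rintro ⟨h1, h2 | h2 | h2, h3⟩
      · exact absurd h2 h1
      · exact h2
      · rcases h3 (Or.inr (Or.inl h2.1)) with h4 | h4
        · subst h4; exact absurd h2.1 (G.irrefl)
        · subst h4; exact absurd h2.2 (G.irrefl)
  have hcc : r' c' (σ c) := by
    have h1 : g17cs r' (σ c) = g17cs r c := g17_cs_map r r' σ hσ' c
    have h2 : g17cs r c = 3 := by rw [hcs]; simp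
    have h3 := hcs' (σ c)
    rw [h1, h2] at h3
    split_ifs at h3 with h4
    · rcases h4 with h4 | h4
      · exact Or.inl h4.symm
      · exact Or.inr (Or.inl h4)
    · omega
  let τ : Equiv.Perm (Fin n) := Equiv.swap (σ c) c'
  have hτ : ∀ x, r' x (τ x) := by
    intro x
    by_cases h1 : x = σ c
    · subst h1
      simp only [τ, Equiv.swap_apply_left]
      exact eqv'.symm hcc
    · by_cases h2 : x = c'
      · subst h2
        simp only [τ, Equiv.swap_apply_right]
        exact hcc
      · simp only [τ, Equiv.swap_apply_of_ne_of_ne h1 h2]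
        exact eqv'.refl x
  have hτ2 : ∀ x y, r' x y ↔ r' (τ x) (τ y) := fun x y =>
    ⟨fun h1 => eqv'.trans (eqv'.symm (hτ x)) (eqv'.trans h1 (hτ y)),
      fun h1 => eqv'.trans (hτ x) (eqv'.trans h1 (eqv'.symm (hτ y)))⟩
  let ρ : Equiv.Perm (Fin n) := σ.trans τ
  have hρ : ∀ i j, r i j ↔ r' (ρ i) (ρ j) := fun i j => (hσ' i j).trans (hτ2 (σ i) (σ j))
  have hρc : ρ c = c' := by simp [ρ, τ]
  refine ⟨ρ, fun i j => ?_⟩
  rw [key H c hc1 i j, key H' c' hc1' (ρ i) (ρ j)]
  have e1 : (ρ i ≠ ρ j) ↔ i ≠ j := by simp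
  have e2 := hρ i j
  have e3 := hρ c i
  rw [hρc] at e3
  have e4 : ρ i = c' ↔ i = c := by rw [← hρc]; simp
  have e5 : ρ j = c' ↔ j = c := by rw [← hρc]; simp
  show (i ≠ j ∧ r i j ∧ (r c i → (i = c ∨ j = c))) ↔
    (ρ i ≠ ρ j ∧ r' (ρ i) (ρ j) ∧ (r' c' (ρ i) → (ρ i = c' ∨ ρ j = c')))
  rw [e1, e2, e3, e4, e5]

theorem OneP_exists (n m : ℕ) (hn : n = 3 + 2 * m) : ∃ H : SimpleGraph (Fin n), OneP H := by
  classical
  let V := Fin 3 ⊕ (Fin m × Fin 2)
  have hc : Fintype.card V = n := by
    simp [V, hn]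
    ring
  let e : V ≃ Fin n := Fintype.equivFinOfCardEq hc
  let R : V → V → Prop := fun a b => match a, b with
    | Sum.inl x, Sum.inl y => (x = 0 ∧ y ≠ 0) ∨ (x ≠ 0 ∧ y = 0)
    | Sum.inr p, Sum.inr q => p.1 = q.1 ∧ p.2 ≠ q.2
    | _, _ => False
  have hs : ∀ a b, R a b → R b a := by
    rintro (a | a) (b | b) h
    · rcases h with h | h
      · exact Or.inr ⟨h.2, h.1⟩
      · exact Or.inl ⟨h.2, h.1⟩
    · exact h
    · exact h
    · exact ⟨h.1.symm, h.2.symm⟩
  have hi : ∀ a, ¬ R a a := by
    rintro (a | a) h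
    · rcases h with h | h
      · exact h.2 h.1
      · exact h.1 h.2
    · exact h.2 rfl
  have hd1 : ∀ x : Fin 3, dg (g17gr e R hs hi) (e (Sum.inl x)) = if x = 0 then 2 else 1 := by
    intro x
    rw [g17gr_dg, Fintype.sum_sum_type]
    have h2 : ∀ p : Fin m × Fin 2, ¬ R (Sum.inl x) (Sum.inr p) := fun p h => h
    have h1 : ∀ y : Fin 3, R (Sum.inl x) (Sum.inl y) ↔ ((x = 0 ∧ y ≠ 0) ∨ (x ≠ 0 ∧ y = 0)) :=
      fun y => Iff.rfl
    simp only [h1, h2, if_false, Finset.sum_const_zero, add_zero]
    fin_cases x <;> simp [Fin.sum_univ_three]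
  have hd2 : ∀ p : Fin m × Fin 2, dg (g17gr e R hs hi) (e (Sum.inr p)) = 1 := by
    rintro ⟨a, x⟩
    rw [g17gr_dg, Fintype.sum_sum_type, Fintype.sum_prod_type]
    have h1 : ∀ (b : Fin m) (y : Fin 2), R (Sum.inr (a, x)) (Sum.inr (b, y)) ↔ a = b ∧ x ≠ y :=
      fun b y => Iff.rfl
    have h2 : ∀ y : Fin 3, ¬ R (Sum.inr (a, x)) (Sum.inl y) := fun y h => h
    simp only [h1, h2, if_false, Finset.sum_const_zero, zero_add]
    rw [Finset.sum_eq_single a]
    · fin_cases x <;> simp [Fin.sum_univ_two]
    · intro b _ hb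
      refine Finset.sum_eq_zero fun y _ => ?_
      rw [if_neg]
      exact fun h => hb h.1.symm
    · intro h; exact absurd (mem_univ a) h
  refine ⟨g17gr e R hs hi, ?_, ?_⟩
  · intro v
    obtain ⟨w, rfl⟩ := e.surjective v
    rcases w with x | p
    · rw [hd1]; split_ifs <;> omega
    · rw [hd2]
  · rw [← Equiv.sum_comp e, Fintype.sum_sum_type]
    simp only [hd1, hd2]
    simp [Fin.sum_univ_three]
    omega

end Pool.Agent.H34R2.U
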