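import Pool.Agent.H34R2.U.A2
import Pool.Agent.Helper428.UMRBasic

/-! TASK L: link with the probabilistic definition of the reliability (`rel` of the
Starting point library). -/

set_option autoImplicit false

namespace Pool.Agent.H34R2.U

open Finset
open Classical

variable {n : ℕ}

theorem L_sum_union {α M : Type*} [DecidableEq α] [AddCommMonoid M] (X Y : Finset α)
    (h : Disjoint X Y) (g : Finset α → M) :
    ∑ A ∈ (X ∪ Y).powerset, g A = ∑ A ∈ X.powerset, ∑ B ∈ Y.powerset, g (A ∪ B) := by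
  rw [← Finset.sum_product']
  have hd : ∀ x, x ∈ X → x ∉ Y := fun x hx hy => Finset.disjoint_left.1 h hx hy
  refine Finset.sum_nbij' (fun A => (A ∩ X, A ∩ Y)) (fun P => P.1 ∪ P.2) ?_ ?_ ?_ ?_ ?_
  · intro A _
    simp only [mem_product, mem_powerset]
    exact ⟨inter_subset_right, inter_subset_right⟩
  · rintro ⟨A, B⟩ hP
    simp only [mem_product, mem_powerset] at hP ⊢
    exact union_subset_union hP.1 hP.2
  · intro A hA
    rw [mem_powerset] at hA
    simp only
    rw [← inter_union_distrib_left]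
    exact inter_eq_left.2 hA
  · rintro ⟨A, B⟩ hP
    simp only [mem_product, mem_powerset] at hP
    simp only [Prod.mk.injEq]
    constructor
    · ext x
      simp only [mem_inter, mem_union]
      constructor
      · rintro ⟨h1 | h1, h2⟩
        · exact h1
        · exact absurd (hP.2 h1) (hd x h2)
      · intro h1
        exact ⟨Or.inl h1, hP.1 h1⟩
    · ext x
      simp only [mem_inter, mem_union]
      constructor
      · rintro ⟨h1 | h1, h2⟩
        · exact absurd h2 (hd x (hP.1 h1))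
        · exact h1
      · intro h1
        exact ⟨Or.inr h1, hP.2 h1⟩
  · intro A hA
    rw [mem_powerset] at hA
    simp only
    rw [← inter_union_distrib_left, inter_eq_left.2 hA]

theorem L_card_sdiff {α : Type*} [DecidableEq α] (X Y A B : Finset α) (h : Disjoint X Y) (hA : A ⊆ X)
    (hB : B ⊆ Y) : ((X ∪ Y) \ (A ∪ B)).card = (X \ A).card + (Y \ B).card := by
  rw [← card_union_of_disjoint]
  · congr 1
    have hd : ∀ x, x ∈ X → x ∉ Y := fun x hx hy => Finset.disjoint_left.1 h hx hy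
    ext x
    simp only [mem_sdiff, mem_union, not_or]
    constructor
    · rintro ⟨h1 | h1, h2, h3⟩
      · exact Or.inl ⟨h1, h2⟩
      · exact Or.inr ⟨h1, h3⟩
    · rintro (⟨h1, h2⟩ | ⟨h1, h2⟩)
      · exact ⟨Or.inl h1, h2, fun h3 => hd x h1 (hB h3)⟩
      · exact ⟨Or.inr h1, fun h3 => hd x (hA h3) h1, h2⟩
  · exact disjoint_of_subset_left sdiff_subset (disjoint_of_subset_right sdiff_subset h)

/-- edges of `G` inside `S` -/
noncomputable def L_E (G : SimpleGraph (Fin n)) (S : Finset (Fin n)) : Finset (Sym2 (Fin n)) :=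
  G.edgeFinset.filter (fun e => ∀ v ∈ e, v ∈ S)

theorem L_mem_E (G : SimpleGraph (Fin n)) (S : Finset (Fin n)) (x y : Fin n) :
    s(x, y) ∈ L_E G S ↔ G.Adj x y ∧ x ∈ S ∧ y ∈ S := by
  unfold L_E
  simp only [mem_filter, SimpleGraph.mem_edgeFinset, SimpleGraph.mem_edgeSet, Sym2.mem_iff,
    forall_eq_or_imp, forall_eq]

/-- edges of `G` between `T` and `U` -/
noncomputable def L_Z (G : SimpleGraph (Fin n)) (T U : Finset (Fin n)) :
    Finset (Sym2 (Fin n)) :=
  ((T ×ˢ U).filter (fun x => G.Adj x.1 x.2)).image (fun x => s(x.1, x.2))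

theorem L_mem_Z (G : SimpleGraph (Fin n)) (T U : Finset (Fin n)) (x y : Fin n) :
    s(x, y) ∈ L_Z G T U ↔ G.Adj x y ∧ ((x ∈ T ∧ y ∈ U) ∨ (y ∈ T ∧ x ∈ U)) := by
  unfold L_Z
  simp only [mem_image, mem_filter, mem_product, Prod.exists, Sym2.eq_iff]
  constructor
  · rintro ⟨i, j, ⟨⟨hi, hj⟩, hG⟩, ⟨rfl, rfl⟩ | ⟨rfl, rfl⟩⟩
    · exact ⟨hG, Or.inl ⟨hi, hj⟩⟩
    · exact ⟨hG.symm, Or.inr ⟨hi, hj⟩⟩
  · rintro ⟨hG, ⟨h1, h2⟩ | ⟨h1, h2⟩⟩
    · exact ⟨x, y, ⟨⟨h1, h2⟩, hG⟩, Or.inl ⟨rfl, rfl⟩⟩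
    · exact ⟨y, x, ⟨⟨h1, h2⟩, hG.symm⟩, Or.inr ⟨rfl, rfl⟩⟩

theorem L_split (G : SimpleGraph (Fin n)) (S T : Finset (Fin n)) (h : T ⊆ S) :
    L_E G S = (L_E G T ∪ L_E G (S \ T)) ∪ L_Z G T (S \ T) := by
  ext e
  induction e using Sym2.ind with
  | _ x y =>
    simp only [mem_union, L_mem_E, L_mem_Z, mem_sdiff]
    constructor
    · rintro ⟨hG, hx, hy⟩
      by_cases h1 : x ∈ T <;> by_cases h2 : y ∈ T <;> simp [hG, hx, hy, h1, h2]
    · rintro ((⟨hG, hx, hy⟩ | ⟨hG, hx, hy⟩) | ⟨hG, ⟨hx, hy⟩ | ⟨hy, hx⟩⟩)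
      · exact ⟨hG, h hx, h hy⟩
      · exact ⟨hG, hx.1, hy.1⟩
      · exact ⟨hG, h hx, hy.1⟩
      · exact ⟨hG, hx.1, h hy⟩

theorem L_disj1 (G : SimpleGraph (Fin n)) (S T : Finset (Fin n)) :
    Disjoint (L_E G T) (L_E G (S \ T)) := by
  rw [Finset.disjoint_left]
  intro e
  induction e using Sym2.ind with
  | _ x y =>
    simp only [L_mem_E, mem_sdiff]
    rintro ⟨_, hx, _⟩ ⟨_, hx', _⟩
    exact hx'.2 hx

theorem L_disj2 (G : SimpleGraph (Fin n)) (S T : Finset (Fin n)) :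
    Disjoint (L_E G T ∪ L_E G (S \ T)) (L_Z G T (S \ T)) := by
  rw [Finset.disjoint_left]
  intro e
  induction e using Sym2.ind with
  | _ x y =>
    simp only [mem_union, L_mem_E, L_mem_Z, mem_sdiff]
    rintro (⟨_, hx, hy⟩ | ⟨_, hx, hy⟩) ⟨_, ⟨h1, h2⟩ | ⟨h1, h2⟩⟩
    · exact h2.2 hy
    · exact h2.2 hx
    · exact hx.2 h1
    · exact hy.2 h1

/-- any two vertices of `S` are connected by the edges of `A` -/
def L_con (S : Finset (Fin n)) (A : Finset (Sym2 (Fin n))) : Prop :=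
  ∀ x ∈ S, ∀ y ∈ S, (SimpleGraph.fromEdgeSet (A : Set (Sym2 (Fin n)))).Reachable x y

/-- component of `a` in `S` -/
noncomputable def L_comp (S : Finset (Fin n)) (a : Fin n) (A : Finset (Sym2 (Fin n))) :
    Finset (Fin n) :=
  S.filter (fun x => (SimpleGraph.fromEdgeSet (A : Set (Sym2 (Fin n)))).Reachable a x)

theorem L_adj (A : Finset (Sym2 (Fin n))) (x y : Fin n) :
    (SimpleGraph.fromEdgeSet (A : Set (Sym2 (Fin n)))).Adj x y ↔ s(x, y) ∈ A ∧ x ≠ y := by
  rw [SimpleGraph.fromEdgeSet_adj, mem_coe]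

/-- the component of `a` stays inside `T` -/
theorem L_stay (G : SimpleGraph (Fin n)) (S T : Finset (Fin n)) (a : Fin n) (ha : a ∈ T)
    (A1 A2 : Finset (Sym2 (Fin n))) (h1 : A1 ⊆ L_E G T) (h2 : A2 ⊆ L_E G (S \ T)) (x : Fin n)
    (h : (SimpleGraph.fromEdgeSet ((A1 ∪ A2 : Finset (Sym2 (Fin n))) :
      Set (Sym2 (Fin n)))).Reachable a x) :
    x ∈ T ∧ (SimpleGraph.fromEdgeSet (A1 : Set (Sym2 (Fin n)))).Reachable a x := by
  rw [SimpleGraph.reachable_iff_reflTransGen] at h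
  induction h with
  | refl => exact ⟨ha, SimpleGraph.Reachable.refl _⟩
  | tail _ hyz ih =>
    rename_i y z _
    obtain ⟨hy, hr⟩ := ih
    rw [L_adj, mem_union] at hyz
    obtain ⟨h3 | h3, hne⟩ := hyz
    · have h4 := (L_mem_E G T y z).1 (h1 h3)
      refine ⟨h4.2.2, hr.trans (SimpleGraph.Adj.reachable ?_)⟩
      rw [L_adj]
      exact ⟨h3, hne⟩
    · have h4 := (L_mem_E G (S \ T) y z).1 (h2 h3)
      exact absurd hy (mem_sdiff.1 h4.2.1).2

theorem L_comp_iff (G : SimpleGraph (Fin n)) (S T : Finset (Fin n)) (hT : T ⊆ S) (a : Fin n)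
    (ha : a ∈ T) (A1 A2 A3 : Finset (Sym2 (Fin n))) (h1 : A1 ⊆ L_E G T)
    (h2 : A2 ⊆ L_E G (S \ T)) (h3 : A3 ⊆ L_Z G T (S \ T)) :
    L_comp S a (A1 ∪ A2 ∪ A3) = T ↔ (L_con T A1 ∧ A3 = ∅) := by
  constructor
  · intro h
    have hr : ∀ x, x ∈ S → ((SimpleGraph.fromEdgeSet ((A1 ∪ A2 ∪ A3 : Finset (Sym2 (Fin n))) :
        Set (Sym2 (Fin n)))).Reachable a x ↔ x ∈ T) := by
      intro x hx
      rw [← h]
      unfold L_comp
      rw [mem_filter]
      exact ⟨fun h' => ⟨hx, h'⟩, fun h' => h'.2⟩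
    have hA3 : A3 = ∅ := by
      rw [Finset.eq_empty_iff_forall_notMem]
      intro e
      induction e using Sym2.ind with
      | _ x y =>
        intro he
        obtain ⟨hG, hxy⟩ := (L_mem_Z G T (S \ T) x y).1 (h3 he)
        have hadj : (SimpleGraph.fromEdgeSet ((A1 ∪ A2 ∪ A3 : Finset (Sym2 (Fin n))) :
            Set (Sym2 (Fin n)))).Adj x y := by
          rw [L_adj]
          exact ⟨mem_union_right _ he, hG.ne⟩
        rcases hxy with ⟨hx, hy⟩ | ⟨hy, hx⟩
        · have := (hr x (hT hx)).2 hx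
          have := (hr y (mem_sdiff.1 hy).1).1 (this.trans hadj.reachable)
          exact (mem_sdiff.1 hy).2 this
        · have := (hr y (hT hy)).2 hy
          have := (hr x (mem_sdiff.1 hx).1).1 (this.trans hadj.symm.reachable)
          exact (mem_sdiff.1 hx).2 this
    refine ⟨?_, hA3⟩
    subst hA3
    rw [union_empty] at hr
    intro x hx y hy
    have e1 := (L_stay G S T a ha A1 A2 h1 h2 x ((hr x (hT hx)).2 hx)).2
    have e2 := (L_stay G S T a ha A1 A2 h1 h2 y ((hr y (hT hy)).2 hy)).2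
    exact e1.symm.trans e2
  · rintro ⟨hc, rfl⟩
    rw [union_empty]
    unfold L_comp
    ext x
    rw [mem_filter]
    constructor
    · rintro ⟨_, hx⟩
      exact (L_stay G S T a ha A1 A2 h1 h2 x hx).1
    · intro hx
      refine ⟨hT hx, ?_⟩
      apply SimpleGraph.Reachable.mono _ (hc a ha x hx)
      apply SimpleGraph.fromEdgeSet_mono
      rw [coe_subset]
      exact subset_union_left

/-- the reliability inside `S` -/
noncomputable def L_F (G : SimpleGraph (Fin n)) (p q : ℝ) (S : Finset (Fin n)) : ℝ :=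
  ∑ A ∈ (L_E G S).powerset, if L_con S A then p ^ A.card * q ^ (L_E G S \ A).card else 0

theorem L_total (M : Finset (Sym2 (Fin n))) (p q : ℝ) (h : p + q = 1) :
    ∑ A ∈ M.powerset, p ^ A.card * q ^ (M \ A).card = 1 := by
  have h1 := Finset.sum_pow_mul_eq_add_pow p q M
  rw [h, one_pow] at h1
  rw [← h1]
  apply Finset.sum_congr rfl
  intro A hA
  rw [card_sdiff_of_subset (mem_powerset.1 hA)]

theorem L_fiber (G : SimpleGraph (Fin n)) (p q : ℝ) (hpq : p + q = 1) (S T : Finset (Fin n))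
    (hT : T ⊆ S) (a : Fin n) (ha : a ∈ T) :
    ∑ A ∈ (L_E G S).powerset, (if L_comp S a A = T then p ^ A.card * q ^ (L_E G S \ A).card
      else 0) = L_F G p q T * q ^ (L_Z G T (S \ T)).card := by
  rw [L_split G S T hT, L_sum_union _ _ (L_disj2 G S T), L_sum_union _ _ (L_disj1 G S T)]
  have key : ∀ A1 ∈ (L_E G T).powerset, ∀ A2 ∈ (L_E G (S \ T)).powerset,
      ∀ A3 ∈ (L_Z G T (S \ T)).powerset,
      (if L_comp S a (A1 ∪ A2 ∪ A3) = T then p ^ (A1 ∪ A2 ∪ A3).card *
        q ^ ((L_E G T ∪ L_E G (S \ T) ∪ L_Z G T (S \ T)) \ (A1 ∪ A2 ∪ A3)).card else 0) =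
      if A3 = ∅ then (if L_con T A1 then p ^ A1.card * q ^ (L_E G T \ A1).card else 0) *
        (p ^ A2.card * q ^ (L_E G (S \ T) \ A2).card) * q ^ (L_Z G T (S \ T)).card else 0 := by
    intro A1 h1 A2 h2 A3 h3
    rw [mem_powerset] at h1 h2 h3
    rw [if_congr (L_comp_iff G S T hT a ha A1 A2 A3 h1 h2 h3) rfl rfl]
    by_cases hA3 : A3 = ∅
    · subst hA3
      by_cases hc : L_con T A1
      · rw [if_pos ⟨hc, rfl⟩, if_pos rfl, if_pos hc]
        rw [L_card_sdiff _ _ _ _ (L_disj2 G S T) (union_subset_union h1 h2) (empty_subset _),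
          L_card_sdiff _ _ _ _ (L_disj1 G S T) h1 h2, union_empty, sdiff_empty,
          card_union_of_disjoint (disjoint_of_subset_left h1 (disjoint_of_subset_right h2
            (L_disj1 G S T)))]
        rw [pow_add, pow_add, pow_add]
        ring
      · rw [if_neg (fun h => hc h.1), if_pos rfl, if_neg hc, zero_mul, zero_mul]
    · rw [if_neg (fun h => hA3 h.2), if_neg hA3]
  rw [Finset.sum_congr rfl (fun A1 h1 => Finset.sum_congr rfl (fun A2 h2 =>
    Finset.sum_congr rfl (fun A3 h3 => key A1 h1 A2 h2 A3 h3)))]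
  have h4 : ∀ c : ℝ, ∑ A3 ∈ (L_Z G T (S \ T)).powerset, (if A3 = ∅ then c else 0) = c := by
    intro c
    rw [Finset.sum_ite_eq' _ ∅ (fun _ => c)]
    rw [if_pos (empty_mem_powerset _)]
  simp only [h4]
  unfold L_F
  rw [Finset.sum_mul]
  apply Finset.sum_congr rfl
  intro A1 _
  rw [← Finset.sum_mul, ← Finset.mul_sum, L_total _ p q hpq, mul_one]

theorem L_cut (G H : SimpleGraph (Fin n)) (hH : ∀ i j, i ≠ j → (H.Adj i j ↔ ¬ G.Adj i j))
    (q : ℝ) (T U : Finset (Fin n)) (hd : Disjoint T U) :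
    cut (Qw H q) T U = q ^ (L_Z G T U).card := by
  have hd' : ∀ x, x ∈ T → x ∉ U := fun x hx hy => Finset.disjoint_left.1 hd hx hy
  have h1 : (L_Z G T U).card = ((T ×ˢ U).filter (fun x => G.Adj x.1 x.2)).card := by
    unfold L_Z
    apply Finset.card_image_of_injOn
    rintro ⟨i, j⟩ h1 ⟨i', j'⟩ h2 h
    simp only [coe_filter, mem_product, Set.mem_ofPred_eq] at h1 h2
    simp only [Sym2.eq_iff] at h
    rcases h with ⟨rfl, rfl⟩ | ⟨rfl, rfl⟩
    · rfl
    · exact absurd h2.1.2 (hd' _ h1.1.1)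
  rw [h1, ← Finset.prod_const, Finset.prod_filter, Finset.prod_product]
  unfold cut
  apply Finset.prod_congr rfl
  intro i hi
  apply Finset.prod_congr rfl
  intro j hj
  have hij : i ≠ j := by
    rintro rfl
    exact hd' i hi hj
  unfold Qw
  by_cases hG : G.Adj i j
  · rw [if_neg (by rw [hH i j hij]; exact not_not.2 hG), if_pos hG]
  · rw [if_pos ((hH i j hij).2 hG), if_neg hG]

theorem L_rec (G H : SimpleGraph (Fin n)) (hH : ∀ i j, i ≠ j → (H.Adj i j ↔ ¬ G.Adj i j))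
    (p q : ℝ) (hpq : p + q = 1) (S : Finset (Fin n)) (a : Fin n) (ha : a ∈ S) :
    ∑ B ∈ (S.erase a).powerset, L_F G p q (insert a B) *
      cut (Qw H q) (insert a B) (S \ insert a B) = 1 := by
  have h1 := L_total (L_E G S) p q hpq
  have h2 : ∀ A ∈ (L_E G S).powerset, p ^ A.card * q ^ (L_E G S \ A).card =
      ∑ B ∈ (S.erase a).powerset, (if L_comp S a A = insert a B then
        p ^ A.card * q ^ (L_E G S \ A).card else 0) := by
    intro A _
    have hmem : a ∈ L_comp S a A := by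
      unfold L_comp
      rw [mem_filter]
      exact ⟨ha, SimpleGraph.Reachable.refl _⟩
    have hsub : L_comp S a A ⊆ S := filter_subset _ _
    rw [Finset.sum_eq_single ((L_comp S a A).erase a)]
    · rw [insert_erase hmem, if_pos rfl]
    · intro B hB hne
      rw [if_neg]
      intro h
      apply hne
      rw [h, erase_insert]
      intro haB
      exact (mem_erase.1 (mem_powerset.1 hB haB)).1 rfl
    · intro h
      exact absurd (mem_powerset.2 (erase_subset_erase a hsub)) h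
  rw [Finset.sum_congr rfl h2, Finset.sum_comm] at h1
  rw [← h1]
  apply Finset.sum_congr rfl
  intro B hB
  have hBS : insert a B ⊆ S := by
    intro x hx
    rcases mem_insert.1 hx with rfl | hx
    · exact ha
    · exact mem_of_mem_erase (mem_powerset.1 hB hx)
  rw [L_fiber G p q hpq S (insert a B) hBS a (mem_insert_self a B),
    L_cut G H hH q _ _ disjoint_sdiff]

theorem rel_eq_RH (hn : 0 < n) (G H : SimpleGraph (Fin n))
    (hH : ∀ i j, i ≠ j → (H.Adj i j ↔ ¬ G.Adj i j)) (p : ℝ) :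
    Pool.Agent.Helper428.UMR.rel G p = RH H (1 - p) := by
  have : Nonempty (Fin n) := ⟨⟨0, hn⟩⟩
  unfold RH
  rw [← RR_unique (L_F G p (1 - p)) (fun A h => L_rec G H hH p (1 - p) (by ring) A _ (A.min'_mem h))
    univ univ_nonempty]
  have hE : L_E G univ = G.edgeFinset := by
    unfold L_E
    apply filter_true_of_mem
    intro e _ v _
    exact mem_univ v
  unfold L_F Pool.Agent.Helper428.UMR.rel
  rw [hE]
  apply Finset.sum_congr rfl
  intro A hA
  have hc : (SimpleGraph.fromEdgeSet (A : Set (Sym2 (Fin n)))).Connected ↔ L_con univ A := by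
    unfold L_con
    rw [SimpleGraph.connected_iff]
    constructor
    · rintro ⟨h, _⟩ x _ y _
      exact h x y
    · intro h
      exact ⟨fun x y => h x (mem_univ x) y (mem_univ y), inferInstance⟩
  rw [if_congr hc rfl rfl, card_sdiff_of_subset (mem_powerset.1 hA)]

end Pool.Agent.H34R2.U
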