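import Pool.Agent.H34R2.U.G16
import Pool.Agent.H34R2.U.G17
import Pool.Agent.H34R2.U.L
import Pool.Agent.Helper428.UMRMain

/-! final assembly -/

set_option autoImplicit false

namespace Pool.Agent.H34R2.U

open Finset
open Classical
open Pool.Agent.Helper428.UMR

variable {n : ℕ}

lemma dg_eq (H : SimpleGraph (Fin n)) (v : Fin n) :
    dg H v = H.degree v := by
  unfold dg
  rw [← SimpleGraph.card_neighborFinset_eq_degree]
  congr 1
  ext j
  simp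

lemma sum_dg (H : SimpleGraph (Fin n)) :
    ∑ v, dg H v = 2 * H.edgeFinset.card := by
  rw [← SimpleGraph.sum_degrees_eq_twice_card_edges]
  apply Finset.sum_congr rfl
  intro v _
  exact dg_eq H v

/-- every graph is dominated by a graph without improvement. -/
lemma dominated (q : ℝ) (H : SimpleGraph (Fin n)) :
    ∃ H' : SimpleGraph (Fin n), (∑ v, dg H' v) = (∑ v, dg H v) ∧ RH H q ≤ RH H' q ∧
      ¬ Imp H' q := by
  induction' h : pot H using Nat.strong_induction_on with k ih generalizing H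
  by_cases hI : Imp H q
  · obtain ⟨H₁, h1, h2, h3⟩ := hI
    obtain ⟨H₂, h4, h5, h6⟩ := ih (pot H₁) (by omega) H₁ rfl
    exact ⟨H₂, h4.trans h1, h2.trans h5, h6⟩
  · exact ⟨H, rfl, le_rfl, hI⟩

lemma TE_max (M : AllMoves) (a : ℕ) (ha : 1 ≤ a) (han : a + 4 ≤ n) (ha3 : 3 ∣ a)
    (T H : SimpleGraph (Fin n)) (hT : TE T) (hTs : ∑ v, dg T v = n + a)
    (hHs : ∑ v, dg H v = n + a) (q : ℝ) (hq0 : 0 < q) (hq1 : q < 1) : RH H q ≤ RH T q := by
  obtain ⟨H', h1, h2, h3⟩ := dominated q H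
  have h4 := noImp_TE M H' q hq0 hq1 h3 a ha han ha3 (h1.trans hHs)
  obtain ⟨σ, hσ⟩ := TE_iso H' T h4 hT (by rw [h1, hHs, hTs])
  rw [← RH_iso H' T σ hσ q]
  exact h2

lemma OneP_max (T H : SimpleGraph (Fin n)) (hT : OneP T)
    (hHs : ∑ v, dg H v = n + 1) (q : ℝ) (hq0 : 0 < q) (hq1 : q < 1) : RH H q ≤ RH T q := by
  obtain ⟨H', h1, h2, h3⟩ := dominated q H
  have h4 : OneP H' := ⟨fun v => no_isolated H' q hq0 hq1 h3 (by rw [h1, hHs]; omega) v,
    h1.trans hHs⟩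
  obtain ⟨σ, hσ⟩ := OneP_iso H' T h4 hT
  rw [← RH_iso H' T σ hσ q]
  exact h2

lemma rel_cont (G : SimpleGraph (Fin n)) : Continuous (rel G) := by
  unfold rel
  apply continuous_finsetSum
  intro A _
  split_ifs
  · fun_prop
  · fun_prop

lemma umr_of_RH (hn : 0 < n) (T : SimpleGraph (Fin n))
    (h : ∀ H : SimpleGraph (Fin n), (∑ v, dg H v) = (∑ v, dg T v) →
      ∀ q : ℝ, 0 < q → q < 1 → RH H q ≤ RH T q) : IsUMR Tᶜ := by
  intro G hG p hp0 hp1
  have hc1 : ∀ u v, T.Adj u v ↔ u ≠ v ∧ ¬ (Tᶜ).Adj u v := by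
    intro u v
    rw [SimpleGraph.compl_adj]
    constructor
    · intro h1; exact ⟨h1.ne, fun h2 => h2.2 h1⟩
    · rintro ⟨h1, h2⟩
      by_contra h3
      exact h2 ⟨h1, h3⟩
  have hc2 : ∀ u v, (Gᶜ).Adj u v ↔ u ≠ v ∧ ¬ G.Adj u v := fun u v => SimpleGraph.compl_adj _ _ _
  have e1 := edges_add hc1
  have e2 := edges_add hc2
  have hs : (∑ v, dg Gᶜ v) = ∑ v, dg T v := by
    rw [sum_dg, sum_dg]
    omega
  -- on the open interval
  have hopen : ∀ p ∈ Set.Ioo (0 : ℝ) 1, 0 ≤ rel Tᶜ p - rel G p := by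
    intro p hp
    rw [rel_eq_RH hn Tᶜ T (fun i j hij => by rw [hc1 i j]; tauto) p,
      rel_eq_RH hn G Gᶜ (fun i j hij => by rw [hc2 i j]; tauto) p]
    have := h Gᶜ hs (1 - p) (by linarith [hp.2]) (by linarith [hp.1])
    linarith
  have hcl : p ∈ closure (Set.Ioo (0 : ℝ) 1) := by
    rw [closure_Ioo (by norm_num)]
    exact ⟨hp0, hp1⟩
  have hset : IsClosed {p : ℝ | 0 ≤ rel Tᶜ p - rel G p} :=
    isClosed_le continuous_const ((rel_cont _).sub (rel_cont _))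
  have := hset.closure_subset_iff.2 hopen hcl
  simp only [Set.mem_ofPred_eq] at this
  linarith

theorem exists_umr (M : AllMoves) (n m a : ℕ) (hrange : n ^ 2 + 4 ≤ 2 * m + 3 * n)
    (ha : 2 * m + a + 2 * n = n ^ 2) (ha1 : 1 ≤ a) (h3 : a = 1 ∨ 3 ∣ a) :
    ∃ G : SimpleGraph (Fin n), G.edgeFinset.card = m ∧ IsUMR G := by
  have han : a + 4 ≤ n := by nlinarith
  have hpar : 2 ∣ n - a := by
    have h5 : (n ^ 2 - a) % 2 = 0 := by omega
    have h6 : n ^ 2 % 2 = n % 2 := by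
      rcases Nat.mod_two_eq_zero_or_one n with h | h <;> simp [Nat.pow_mod, h]
    have h7 : a ≤ n ^ 2 := by nlinarith
    omega
  obtain ⟨T, hTs, hTmax⟩ : ∃ T : SimpleGraph (Fin n), (∑ v, dg T v = n + a) ∧
      ∀ H : SimpleGraph (Fin n), (∑ v, dg H v) = (∑ v, dg T v) →
      ∀ q : ℝ, 0 < q → q < 1 → RH H q ≤ RH T q := by
    rcases h3 with h3 | h3
    · subst h3
      obtain ⟨k, hk⟩ := hpar
      obtain ⟨T, hT⟩ := OneP_exists n (k - 1) (by omega)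
      exact ⟨T, hT.2, fun H hH q hq0 hq1 => OneP_max T H hT (hH.trans hT.2) q hq0 hq1⟩
    · obtain ⟨k, hk⟩ := h3
      obtain ⟨l, hl⟩ := hpar
      obtain ⟨T, hT, hTs⟩ := TE_exists n k l (by omega)
      refine ⟨T, by rw [hTs, hk], fun H hH q hq0 hq1 => ?_⟩
      exact TE_max M a ha1 han ⟨k, hk⟩ T H hT (by rw [hTs, hk]) (by rw [hH, hTs, hk]) q hq0 hq1
  refine ⟨Tᶜ, ?_, umr_of_RH (by omega) T hTmax⟩
  have hc1 : ∀ u v, T.Adj u v ↔ u ≠ v ∧ ¬ (Tᶜ).Adj u v := by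
    intro u v
    rw [SimpleGraph.compl_adj]
    constructor
    · intro h1; exact ⟨h1.ne, fun h2 => h2.2 h1⟩
    · rintro ⟨h1, h2⟩
      by_contra h3
      exact h2 ⟨h1, h3⟩
  have e1 := edges_add hc1
  rw [sum_dg] at hTs
  nlinarith

end Pool.Agent.H34R2.U
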