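import Pool.Agent.Helper428.UMRMain

/-! Helper file for task N2: there is no uniformly most reliable graph when `a = 2`. -/

set_option autoImplicit false
set_option linter.unusedSimpArgs false

namespace Pool.Agent.H34R2.U.N2Aux

open Finset Matrix
open Classical
open Pool.Agent.Helper428.UMR

variable {n : ℕ}

/-- upper bound for the number of disconnecting edge sets, when the vertices of degree `n - 3` are
pairwise nonadjacent. -/
lemma upper6 {G : SimpleGraph (Fin n)} (hn : 6 ≤ n) (hdeg : ∀ v, n ≤ G.degree v + 3)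
    (hcut : ∀ S : Finset (Fin n), 3 ≤ S.card → S.card + 3 ≤ n → 2 * n ≤ (cut G S).card + 7)
    (hQ : ∀ x y, G.Adj x y → G.degree x + 3 = n → G.degree y + 3 ≠ n)
    (i : ℕ) (hi : i + 8 ≤ 2 * n) :
    dis G i ≤ ∑ v, FF G.edgeFinset.card (G.degree v) i := by
  have hsub : (G.edgeFinset.powersetCard i).filter
    (fun B : Finset (Sym2 (Fin n)) =>
      ¬ (SimpleGraph.fromEdgeSet ((G.edgeFinset \ B : Finset (Sym2 (Fin n))) :
        Set (Sym2 (Fin n)))).Connected) ⊆
      (Finset.univ.biUnion (fun v => Av G i v)) := by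
    intro B hB
    rw [Finset.mem_filter, not_connected_iff (by omega)] at hB
    obtain ⟨hB1, S, hS1, hS2, hS3⟩ := hB
    have hBcard := (Finset.mem_powersetCard.1 hB1).2
    have key : ∀ S' : Finset (Fin n), cut G S' ⊆ B → (S'.card = 1 ∨ S'.card = 2) →
        B ∈ (Finset.univ.biUnion (fun v => Av G i v)) := by
      intro S' hS' hc
      rcases hc with hc | hc
      · obtain ⟨v, rfl⟩ := Finset.card_eq_one.1 hc
        rw [Finset.mem_biUnion]
        exact ⟨v, Finset.mem_univ _, Finset.mem_filter.2 ⟨hB1, hS'⟩⟩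
      · exfalso
        obtain ⟨x, y, hxy, rfl⟩ := Finset.card_eq_two.1 hc
        have h2 := Finset.card_le_card hS'
        have h := cut_pair G hxy
        have h3 := hdeg x
        have h4 := hdeg y
        have h5 := hQ x y
        split_ifs at h with hadj
        · have h6 := h5 hadj
          omega
        · omega
    have hSc := Finset.card_compl S
    rw [Fintype.card_fin] at hSc
    have hp1 := Finset.card_pos.2 hS1
    have hp2 := Finset.card_pos.2 hS2
    by_cases h1 : S.card ≤ 2
    · exact key S hS3 (by omega)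
    · by_cases h2 : Sᶜ.card ≤ 2
      · exact key Sᶜ (by rw [cut_compl]; exact hS3) (by omega)
      · exfalso
        have h3 := hcut S (by omega) (by omega)
        have h4 := Finset.card_le_card hS3
        omega
  refine (Finset.card_le_card hsub).trans ?_
  refine Finset.card_biUnion_le.trans (Finset.sum_le_sum ?_)
  intro v _
  rw [card_Av]

/-- lower bound for the number of disconnecting edge sets. -/
lemma lower6 {G : SimpleGraph (Fin n)} (hn : 6 ≤ n) (hdeg : ∀ v, n ≤ G.degree v + 3)
    (i : ℕ) (hi : i + 8 ≤ 2 * n) (F : Finset (Finset (Sym2 (Fin n))))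
    (hF : ∀ B ∈ F, B ⊆ G.edgeFinset ∧ B.card = i ∧
      (∃ S : Finset (Fin n), S.Nonempty ∧ Sᶜ.Nonempty ∧ cut G S ⊆ B) ∧
      ∀ v, ¬ cut G {v} ⊆ B) :
    ∑ v, FF G.edgeFinset.card (G.degree v) i + F.card ≤ dis G i := by
  have hsub : (Finset.univ.biUnion (fun v => Av G i v)) ∪ F ⊆
    (G.edgeFinset.powersetCard i).filter
    (fun B : Finset (Sym2 (Fin n)) =>
      ¬ (SimpleGraph.fromEdgeSet ((G.edgeFinset \ B : Finset (Sym2 (Fin n))) :
        Set (Sym2 (Fin n)))).Connected) := by
    intro B hB
    rw [Finset.mem_filter, not_connected_iff (by omega)]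
    rw [Finset.mem_union, Finset.mem_biUnion] at hB
    rcases hB with ⟨v, -, hv⟩ | hB
    · unfold Av at hv
      rw [Finset.mem_filter] at hv
      refine ⟨hv.1, {v}, Finset.singleton_nonempty _, ?_, hv.2⟩
      rw [← Finset.card_pos, Finset.card_compl, Fintype.card_fin, Finset.card_singleton]
      omega
    · obtain ⟨h1, h2, h3, h4⟩ := hF B hB
      exact ⟨Finset.mem_powersetCard.2 ⟨h1, h2⟩, h3⟩
  have hdisj1 : ∀ u v : Fin n, u ≠ v → Disjoint (Av G i u) (Av G i v) := by
    intro u v huv
    rw [Finset.disjoint_left]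
    intro B h1 h2
    unfold Av at h1 h2
    rw [Finset.mem_filter, Finset.mem_powersetCard] at h1 h2
    have hun : cut G {u} ∪ cut G {v} ⊆ B := Finset.union_subset h1.2 h2.2
    have h3 := Finset.card_le_card hun
    have h4 := Finset.card_union_add_card_inter (cut G {u}) (cut G {v})
    have h5 : (cut G {u} ∩ cut G {v}).card ≤ 1 := by
      rw [Finset.card_le_one]
      have aux : ∀ e ∈ cut G {u} ∩ cut G {v}, e = s(u, v) := by
        intro e he
        rw [Finset.mem_inter] at he
        obtain ⟨a, ha, b, hb, rfl, -⟩ := exists_of_mem_cut he.1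
        obtain ⟨c, hc, d, hd, h, -⟩ := exists_of_mem_cut he.2
        rw [Finset.mem_singleton] at ha hc
        subst ha hc
        rcases Sym2.eq_iff.1 h with ⟨h3, h4⟩ | ⟨h3, h4⟩
        · exact absurd h3 huv
        · rw [h4]
      intro e he f hf
      rw [aux e he, aux f hf]
    rw [cut_singleton, cut_singleton] at h4
    have := hdeg u
    have := hdeg v
    omega
  have hdisj2 : Disjoint (Finset.univ.biUnion (fun v => Av G i v)) F := by
    rw [Finset.disjoint_left]
    intro B h1 h2
    rw [Finset.mem_biUnion] at h1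
    obtain ⟨v, -, hv⟩ := h1
    unfold Av at hv
    rw [Finset.mem_filter] at hv
    exact (hF B h2).2.2.2 v hv.2
  have hcard := Finset.card_le_card hsub
  rw [Finset.card_union_of_disjoint hdisj2, Finset.card_biUnion (by
    intro u _ v _ huv
    exact hdisj1 u v huv)] at hcard
  unfold dis
  refine le_trans ?_ hcard
  apply Nat.add_le_add _ le_rfl
  apply Finset.sum_le_sum
  intro v _
  rw [card_Av]

/-- the cut of an adjacent pair of vertices of degree `n - 3` contains no star. -/
lemma pair_extra {G : SimpleGraph (Fin n)} (hn : 6 ≤ n) (hdeg : ∀ v, n ≤ G.degree v + 3)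
    {x y : Fin n} (hxy : G.Adj x y) (hx : G.degree x + 3 = n) (hy : G.degree y + 3 = n) :
    ∀ B ∈ ({cut G {x, y}} : Finset (Finset (Sym2 (Fin n)))), B ⊆ G.edgeFinset ∧
      B.card = 2 * n - 8 ∧
      (∃ S : Finset (Fin n), S.Nonempty ∧ Sᶜ.Nonempty ∧ cut G S ⊆ B) ∧
      ∀ v, ¬ cut G {v} ⊆ B := by
  intro B hB
  rw [Finset.mem_singleton] at hB
  subst hB
  refine ⟨cut_subset _ _, ?_, ⟨{x, y}, ⟨x, by simp⟩, ?_, Finset.Subset.refl _⟩, ?_⟩
  · have h0 := cut_pair G hxy.ne
    rw [if_pos hxy] at h0
    omega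
  · rw [← Finset.card_pos, Finset.card_compl, Fintype.card_fin]
    have := Finset.card_le_two (a := x) (b := y)
    omega
  · intro v hv2
    by_cases hvx : v = x
    · subst hvx
      have h3 : s(v, y) ∈ cut G {v} := (mem_cut (by simp) (by simpa using hxy.ne')).2 hxy
      exact not_mem_cut_of_mem (by simp) (by simp) (hv2 h3)
    · by_cases hvy : v = y
      · subst hvy
        have h3 : s(v, x) ∈ cut G {v} :=
          (mem_cut (by simp) (by simpa using hxy.ne)).2 hxy.symm
        exact not_mem_cut_of_mem (by simp) (by simp) (hv2 h3)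
      · obtain ⟨w, hw1, hw2⟩ := exists_nbr_avoid G v {x, y} (by
          have := Finset.card_le_two (a := x) (b := y)
          have := hdeg v
          omega)
        have h3 : s(v, w) ∈ cut G {v} := (mem_cut (by simp) (by simpa using hw1.ne')).2 hw1
        exact not_mem_cut_of_not_mem (by simp [hvx, hvy]) hw2 (hv2 h3)

/-- a path on four vertices together with a perfect matching on the remaining vertices. -/
lemma competitor2 (n : ℕ) (hn : 6 ≤ n) (hpar : 2 ∣ n) :
    ∃ H : SimpleGraph (Fin n), (∀ v : Fin n, v.val < 2 → H.degree v = 2) ∧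
      (∀ v : Fin n, 2 ≤ v.val → H.degree v = 1) ∧
      (∀ u v : Fin n, u.val < 2 → v.val < 2 → u ≠ v → H.Adj u v) := by
  obtain ⟨H, hadj⟩ : ∃ H : SimpleGraph (Fin n), ∀ i j, H.Adj i j ↔ (i ≠ j ∧
      ((i.val < 2 ∧ j.val < 2) ∨ (i.val < 4 ∧ j.val < 4 ∧ i.val % 2 = j.val % 2) ∨
        (4 ≤ i.val ∧ 4 ≤ j.val ∧ i.val / 2 = j.val / 2))) := by
    refine ⟨
    { Adj := fun i j => i ≠ j ∧ ((i.val < 2 ∧ j.val < 2) ∨
        (i.val < 4 ∧ j.val < 4 ∧ i.val % 2 = j.val % 2) ∨
        (4 ≤ i.val ∧ 4 ≤ j.val ∧ i.val / 2 = j.val / 2))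
      symm := ?_
      loopless := ?_ }, fun i j => Iff.rfl⟩
    · constructor
      intro i j h
      refine ⟨h.1.symm, ?_⟩
      rcases h.2 with h | h | h
      · left
        exact ⟨h.2, h.1⟩
      · right; left
        exact ⟨h.2.1, h.1, h.2.2.symm⟩
      · right; right
        exact ⟨h.2.1, h.1, h.2.2.symm⟩
    · constructor
      intro i h
      exact h.1 rfl
  refine ⟨H, ?_, ?_, ?_⟩
  · intro v hv
    obtain ⟨s, hs⟩ : ∃ s : Fin n, s.val = 1 - v.val := ⟨⟨1 - v.val, by omega⟩, rfl⟩
    obtain ⟨p, hp⟩ : ∃ p : Fin n, p.val = v.val + 2 := ⟨⟨v.val + 2, by omega⟩, rfl⟩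
    have hset : H.neighborFinset v = {s, p} := by
      ext w
      rw [SimpleGraph.mem_neighborFinset, hadj, Finset.mem_insert, Finset.mem_singleton,
        Fin.ext_iff, Fin.ext_iff, hs, hp, ne_eq, Fin.ext_iff]
      omega
    have hne : s ≠ p := by
      rw [ne_eq, Fin.ext_iff, hs, hp]
      omega
    rw [← SimpleGraph.card_neighborFinset_eq_degree, hset, Finset.card_pair hne]
  · intro v hv
    obtain ⟨s, hs⟩ : ∃ s : Fin n, s.val = if v.val < 4 then v.val - 2 else
        if v.val % 2 = 0 then v.val + 1 else v.val - 1 :=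
      ⟨⟨if v.val < 4 then v.val - 2 else
        if v.val % 2 = 0 then v.val + 1 else v.val - 1, by split_ifs <;> omega⟩, rfl⟩
    have hset : H.neighborFinset v = {s} := by
      ext w
      rw [SimpleGraph.mem_neighborFinset, hadj, Finset.mem_singleton,
        Fin.ext_iff, hs, ne_eq, Fin.ext_iff]
      split_ifs <;> omega
    rw [← SimpleGraph.card_neighborFinset_eq_degree, hset, Finset.card_singleton]
  · intro u v hu hv huv
    rw [hadj]
    exact ⟨huv, Or.inl ⟨hu, hv⟩⟩

/-- **Structure near `p = 1`**, `a = 2`. -/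
theorem structure_two {G H : SimpleGraph (Fin n)}
    (hH : ∀ u v, H.Adj u v ↔ u ≠ v ∧ ¬ G.Adj u v)
    (hU : IsUMR G) (hedge : 2 * H.edgeFinset.card = n + 2) (hn : 6 ≤ n) :
    (∀ v, H.degree v = 1 ∨ H.degree v = 2) ∧
    (Finset.univ.filter (fun v => H.degree v = 2)).card = 2 ∧
    (∀ u v, H.degree u = 2 → H.degree v = 2 → u ≠ v → H.Adj u v) := by
  have hpar : 2 ∣ n := by omega
  -- the competitor
  obtain ⟨H', hH'1, hH'2, hH'3⟩ := competitor2 n hn hpar
  obtain ⟨G', hG'⟩ : ∃ G' : SimpleGraph (Fin n), G' = H'ᶜ := ⟨_, rfl⟩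
  have hc' : ∀ u v, H'.Adj u v ↔ u ≠ v ∧ ¬ G'.Adj u v := by
    intro u v
    rw [hG', SimpleGraph.compl_adj]
    constructor
    · intro h; exact ⟨h.ne, fun h2 => h2.2 h⟩
    · rintro ⟨h1, h2⟩
      by_contra h3
      exact h2 ⟨h1, h3⟩
  have hd' : ∀ v, H'.degree v ≤ 2 := by
    intro v
    rcases lt_or_ge v.val 2 with h | h
    · rw [hH'1 v h]
    · rw [hH'2 v h]; norm_num
  have hcount : (Finset.univ.filter (fun v : Fin n => v.val < 2)).card = 2 := by
    have : (Finset.univ.filter (fun v : Fin n => v.val < 2)) =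
        (Finset.univ.filter (fun v : Fin n => v < ⟨2, by omega⟩)) := by
      ext v; simp [Fin.lt_def]
    rw [this, Finset.filter_gt_eq_Iio, Fin.card_Iio]
  have hsumv : ∀ f : Fin n → ℕ, ∑ v, f v = ∑ v ∈ Finset.univ.filter (fun v : Fin n => v.val < 2), f v
      + ∑ v ∈ Finset.univ.filter (fun v : Fin n => ¬ v.val < 2), f v := fun f =>
    (Finset.sum_filter_add_sum_filter_not _ _ _).symm
  have hcount2 : (Finset.univ.filter (fun v : Fin n => ¬ v.val < 2)).card = n - 2 := by
    have := Finset.card_filter_add_card_filter_not (s := (Finset.univ : Finset (Fin n)))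
      (fun v : Fin n => v.val < 2)
    rw [hcount, Finset.card_univ, Fintype.card_fin] at this
    omega
  have hsum' : ∀ g : ℕ → ℕ, ∑ v, g (H'.degree v) = 2 * g 2 + (n - 2) * g 1 := by
    intro g
    rw [hsumv]
    have e1 : ∑ v ∈ Finset.univ.filter (fun v : Fin n => v.val < 2), g (H'.degree v) =
        ∑ v ∈ Finset.univ.filter (fun v : Fin n => v.val < 2), g 2 := by
      apply Finset.sum_congr rfl
      intro v hv
      rw [hH'1 v (Finset.mem_filter.1 hv).2]
    have e2 : ∑ v ∈ Finset.univ.filter (fun v : Fin n => ¬ v.val < 2), g (H'.degree v) =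
        ∑ v ∈ Finset.univ.filter (fun v : Fin n => ¬ v.val < 2), g 1 := by
      apply Finset.sum_congr rfl
      intro v hv
      rw [hH'2 v (not_lt.1 (Finset.mem_filter.1 hv).2)]
    rw [e1, e2, Finset.sum_const, Finset.sum_const, hcount, hcount2, smul_eq_mul, smul_eq_mul]
  have hedge' : 2 * H'.edgeFinset.card = n + 2 := by
    rw [← SimpleGraph.sum_degrees_eq_twice_card_edges]
    rw [hsum' (fun x => x)]
    omega
  have hm : G'.edgeFinset.card = G.edgeFinset.card := by
    have h1 := edges_add hH
    have h2 := edges_add hc'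
    omega
  have hdegG' : ∀ v, G'.degree v = n - 1 - H'.degree v := by
    intro v
    have := deg_add hc' v
    omega
  have hdegG : ∀ v, G.degree v = n - 1 - H.degree v := by
    intro v
    have := deg_add hH v
    omega
  have hcut' : ∀ S : Finset (Fin n), 3 ≤ S.card → S.card + 3 ≤ n → 2 * n ≤ (cut G' S).card + 7 := by
    intro S h3 h3'
    have h1 := cut_add hc' S
    have h2 : (cut H' S).card ≤ H'.edgeFinset.card := Finset.card_le_card (cut_subset H' S)
    obtain ⟨s, hs⟩ : ∃ s, s = S.card := ⟨_, rfl⟩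
    rw [← hs] at h1 h3 h3'
    obtain ⟨t, ht⟩ : ∃ t, n = s + t := ⟨n - s, by omega⟩
    have ht2 : n - s = t := by omega
    rw [ht2] at h1
    have ht3 : 3 ≤ t := by omega
    obtain ⟨s', rfl⟩ : ∃ s', s = s' + 3 := ⟨s - 3, by omega⟩
    obtain ⟨t', rfl⟩ : ∃ t', t = t' + 3 := ⟨t - 3, by omega⟩
    have : 3 * s' + 3 * t' + 9 ≤ (s' + 3) * (t' + 3) := by nlinarith [Nat.zero_le (s' * t')]
    omega
  have hQ' : ∀ x y, G'.Adj x y → G'.degree x + 3 = n → G'.degree y + 3 ≠ n := by
    intro x y hxy hx hy
    have hx2 : H'.degree x = 2 := by have := deg_add hc' x; omega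
    have hy2 : H'.degree y = 2 := by have := deg_add hc' y; omega
    have hx3 : x.val < 2 := by
      by_contra hcon
      rw [hH'2 x (by omega)] at hx2
      omega
    have hy3 : y.val < 2 := by
      by_contra hcon
      rw [hH'2 y (by omega)] at hy2
      omega
    exact ((hc' x y).1 (hH'3 x y hx3 hy3 hxy.ne)).2 hxy
  have hdeg' : ∀ v, n ≤ G'.degree v + 3 := by
    intro v
    have := hdegG' v
    have := hd' v
    omega
  obtain ⟨m, hmdef⟩ : ∃ m, m = G.edgeFinset.card := ⟨_, rfl⟩
  have hdis0 : ∀ j < n - 3, dis G' j = 0 := by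
    intro j hj
    have h1 := upper6 hn hdeg' hcut' hQ' j (by omega)
    have h2 : ∑ v, FF G'.edgeFinset.card (G'.degree v) j = 0 := by
      apply Finset.sum_eq_zero
      intro v _
      apply FF_zero
      have := hd' v
      have := hdegG' v
      omega
    omega
  -- Step 1
  have hd : ∀ v, H.degree v ≤ 2 := by
    intro v
    by_contra hcon
    push Not at hcon
    have h1 := hdegG v
    have h2 := umr_dis hU hm (G.degree v) (by
      intro j hj
      rw [hdis0 j (by omega)]
      exact Nat.zero_le _)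
    have hlt := deg_add hH v
    rw [hdis0 (G.degree v) (by omega)] at h2
    have h3 : 0 < dis G (G.degree v) := by
      unfold dis
      rw [Finset.card_pos]
      refine ⟨cut G {v}, ?_⟩
      rw [Finset.mem_filter, not_connected_iff (by omega), Finset.mem_powersetCard]
      refine ⟨⟨cut_subset _ _, cut_singleton _ _⟩, {v}, Finset.singleton_nonempty _, ?_,
        Finset.Subset.refl _⟩
      rw [← Finset.card_pos, Finset.card_compl, Fintype.card_fin, Finset.card_singleton]
      omega
    omega
  have hdeg : ∀ v, n ≤ G.degree v + 3 := by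
    intro v
    have := hdegG v
    have := hd v
    omega
  have hlower : ∀ i, i + 8 ≤ 2 * n → ∑ v, FF G.edgeFinset.card (G.degree v) i ≤ dis G i := by
    intro i hi
    have := lower6 hn hdeg i hi ∅ (by simp)
    simpa using this
  -- Step 2
  have hstep2 : (Finset.univ.filter (fun v => H.degree v = 2)).card ≤ 2 := by
    have h1 := umr_dis hU hm (n - 3) (by
      intro j hj
      rw [hdis0 j hj]
      exact Nat.zero_le _)
    have h2 := hlower (n - 3) (by omega)
    have h3 := upper6 hn hdeg' hcut' hQ' (n - 3) (by omega)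
    have h4 : ∑ v, FF G'.edgeFinset.card (G'.degree v) (n - 3) =
        ∑ v, FF m (n - 1 - H'.degree v) (n - 3) := by
      apply Finset.sum_congr rfl
      intro v _
      rw [hdegG' v, hm, hmdef]
    have h4' := hsum' (fun x => FF m (n - 1 - x) (n - 3))
    rw [h4, h4'] at h3
    have e1 : n - 1 - 2 = n - 3 := by omega
    rw [e1, FF_self, FF_zero (by omega : n - 3 < n - 1 - 1), mul_one, mul_zero, add_zero] at h3
    have h5 : (Finset.univ.filter (fun v => H.degree v = 2)).card ≤
        ∑ v, FF G.edgeFinset.card (G.degree v) (n - 3) := by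
      rw [Finset.card_filter]
      apply Finset.sum_le_sum
      intro v _
      split_ifs with h
      · rw [hdegG v, h, e1, FF_self]
      · exact Nat.zero_le _
    omega
  -- Step 3
  have hpt : ∀ v, H.degree v = 1 + (if H.degree v = 2 then 1 else 0) := by
    have hle : ∀ v ∈ (Finset.univ : Finset (Fin n)),
        H.degree v ≤ 1 + (if H.degree v = 2 then 1 else 0) := by
      intro v _
      have := hd v
      split_ifs <;> omega
    have hsum := Finset.sum_le_sum hle
    rw [SimpleGraph.sum_degrees_eq_twice_card_edges, hedge, Finset.sum_add_distrib,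
      ← Finset.card_filter] at hsum
    have hones : ∑ v : Fin n, 1 = n := by simp
    rw [hones] at hsum
    have heq : ∑ v, H.degree v = ∑ v : Fin n, (1 + (if H.degree v = 2 then 1 else 0)) := by
      rw [SimpleGraph.sum_degrees_eq_twice_card_edges, hedge, Finset.sum_add_distrib,
        ← Finset.card_filter, hones]
      omega
    intro v
    exact (Finset.sum_eq_sum_iff_of_le hle).1 heq v (Finset.mem_univ _)
  have hdeg12 : ∀ v, H.degree v = 1 ∨ H.degree v = 2 := by
    intro v
    have h1 := hpt v
    have h2 := hd v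
    split_ifs at h1 <;> omega
  have hcard2 : (Finset.univ.filter (fun v => H.degree v = 2)).card = 2 := by
    have h1 : ∑ v, H.degree v = ∑ v : Fin n, (1 + (if H.degree v = 2 then 1 else 0)) :=
      Finset.sum_congr rfl (fun v _ => hpt v)
    have hones : ∑ v : Fin n, 1 = n := by simp
    rw [SimpleGraph.sum_degrees_eq_twice_card_edges, hedge, Finset.sum_add_distrib,
        ← Finset.card_filter, hones] at h1
    omega
  have hcard1 : (Finset.univ.filter (fun v => ¬ H.degree v = 2)).card = n - 2 := by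
    have := Finset.card_filter_add_card_filter_not (s := (Finset.univ : Finset (Fin n)))
      (fun v : Fin n => H.degree v = 2)
    rw [hcard2, Finset.card_univ, Fintype.card_fin] at this
    omega
  have hsumH : ∀ g : ℕ → ℕ, ∑ v, g (H.degree v) = 2 * g 2 + (n - 2) * g 1 := by
    intro g
    rw [← Finset.sum_filter_add_sum_filter_not Finset.univ (fun v => H.degree v = 2)]
    have e1 : ∑ v ∈ Finset.univ.filter (fun v : Fin n => H.degree v = 2), g (H.degree v) =
        ∑ v ∈ Finset.univ.filter (fun v : Fin n => H.degree v = 2), g 2 := by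
      apply Finset.sum_congr rfl
      intro v hv
      rw [(Finset.mem_filter.1 hv).2]
    have e2 : ∑ v ∈ Finset.univ.filter (fun v : Fin n => ¬ H.degree v = 2), g (H.degree v) =
        ∑ v ∈ Finset.univ.filter (fun v : Fin n => ¬ H.degree v = 2), g 1 := by
      apply Finset.sum_congr rfl
      intro v hv
      have h1 := (Finset.mem_filter.1 hv).2
      have h2 := hdeg12 v
      have h3 : H.degree v = 1 := by tauto
      rw [h3]
    rw [e1, e2, Finset.sum_const, Finset.sum_const, hcard2, hcard1, smul_eq_mul, smul_eq_mul]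
  refine ⟨hdeg12, hcard2, ?_⟩
  -- Step 4
  have hsums : ∀ i, ∑ v, FF G'.edgeFinset.card (G'.degree v) i =
      ∑ v, FF G.edgeFinset.card (G.degree v) i := by
    intro i
    have h4 : ∑ v, FF G'.edgeFinset.card (G'.degree v) i =
        ∑ v, FF m (n - 1 - H'.degree v) i := by
      apply Finset.sum_congr rfl
      intro v _
      rw [hdegG' v, hm, hmdef]
    have h5 : ∑ v, FF G.edgeFinset.card (G.degree v) i =
        ∑ v, FF m (n - 1 - H.degree v) i := by
      apply Finset.sum_congr rfl
      intro v _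
      rw [hdegG v, hmdef]
    have h6 := hsum' (fun x => FF m (n - 1 - x) i)
    have h7 := hsumH (fun x => FF m (n - 1 - x) i)
    rw [h4, h5, h6, h7]
  intro u v hu hv huv
  by_contra hnot
  have hGuv : G.Adj u v := by
    by_contra hcon
    exact hnot ((hH u v).2 ⟨huv, hcon⟩)
  have hgu : G.degree u + 3 = n := by have := deg_add hH u; omega
  have hgv : G.degree v + 3 = n := by have := deg_add hH v; omega
  have h1 := umr_dis hU hm (2 * n - 8) (by
    intro j hj
    have h2 := hlower j (by omega)
    have h3 := upper6 hn hdeg' hcut' hQ' j (by omega)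
    rw [hsums] at h3
    omega)
  have h2 := lower6 hn hdeg (2 * n - 8) (by omega) {cut G {u, v}}
    (pair_extra hn hdeg hGuv hgu hgv)
  have h3 := upper6 hn hdeg' hcut' hQ' (2 * n - 8) (by omega)
  rw [hsums] at h3
  rw [Finset.card_singleton] at h2
  omega

end Pool.Agent.H34R2.U.N2Aux
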