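import Pool.Agent.H34R2.U.Defs
import Pool.Agent.H34R2.U.N2Aux

/-! Helper file for task N2: the determinant comparison between `P₄ + K₂` and `2 P₃`. -/

set_option autoImplicit false
set_option linter.unusedSimpArgs false

namespace Pool.Agent.H34R2.U.N2Aux

open Finset Matrix
open Classical
open Pool.Agent.Helper428.UMR (KK IsUMR KK_diag KK_row KK_symm KK_pos deg_one_of deg_two_of
  deg_add edges_add umr_eta eta eta_zero eta_tree)

variable {n : ℕ}

/-- the vertices outside the image. -/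
abbrev Out {w : ℕ} (φ : Fin w ↪ Fin n) : Type := {i : Fin n // ¬ ∃ x, φ x = i}

/-- the matrix `x I - L` of a small graph. -/
noncomputable def locK (w : ℕ) (l : List (ℕ × ℕ)) (x : ℝ) : Matrix (Fin w) (Fin w) ℝ := fun i j =>
  if i = j then x - ((Finset.univ.filter fun k => adjL l i k = true).card : ℝ)
  else if adjL l i j = true then 1 else 0

lemma deg_loc {w : ℕ} (H : SimpleGraph (Fin n)) (φ : Fin w ↪ Fin n) (l : List (ℕ × ℕ))
    (h1 : ∀ x y, H.Adj (φ x) (φ y) ↔ adjL l x y = true)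
    (h2 : ∀ x j, H.Adj (φ x) j → ∃ y, φ y = j) (x : Fin w) :
    H.degree (φ x) = (Finset.univ.filter fun k => adjL l x k = true).card := by
  have : H.neighborFinset (φ x) = (univ.filter fun k => adjL l x k = true).map φ := by
    ext j
    rw [SimpleGraph.mem_neighborFinset, Finset.mem_map]
    constructor
    · intro h
      obtain ⟨y, rfl⟩ := h2 x j h
      exact ⟨y, by simpa using (h1 x y).1 h, rfl⟩
    · rintro ⟨y, hy, rfl⟩
      exact (h1 x y).2 (by simpa using hy)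
  rw [← SimpleGraph.card_neighborFinset_eq_degree, this, card_map]

lemma locK_eq {w : ℕ} (H : SimpleGraph (Fin n)) (φ : Fin w ↪ Fin n) (l : List (ℕ × ℕ))
    (h1 : ∀ x y, H.Adj (φ x) (φ y) ↔ adjL l x y = true)
    (h2 : ∀ x j, H.Adj (φ x) j → ∃ y, φ y = j) :
    (KK H).submatrix φ φ = locK w l n := by
  ext i j
  simp only [submatrix_apply, locK]
  by_cases hij : i = j
  · subst hij
    rw [KK_diag, if_pos rfl, deg_loc H φ l h1 h2]
  · rw [KK_row _ _ (φ.injective.ne hij), if_neg hij]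
    simp only [h1]

lemma det_loc {w : ℕ} (H : SimpleGraph (Fin n)) (φ : Fin w ↪ Fin n) (l : List (ℕ × ℕ))
    (h1 : ∀ x y, H.Adj (φ x) (φ y) ↔ adjL l x y = true)
    (h2 : ∀ x j, H.Adj (φ x) j → ∃ y, φ y = j) :
    (KK H).det = (locK w l n).det *
      ((KK H).submatrix (Subtype.val : Out φ → Fin n) (Subtype.val : Out φ → Fin n)).det := by
  have h := Matrix.twoBlockTriangular_det (KK H) (fun i => ∃ x, φ x = i) (by
    rintro i hi j ⟨x, rfl⟩
    rw [KK_row _ _ (by rintro rfl; exact hi ⟨x, rfl⟩), if_neg]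
    intro hadj
    exact hi (h2 x i hadj.symm))
  rw [h]
  congr 1
  let e : Fin w ≃ {i // ∃ x, φ x = i} := Equiv.ofBijective (fun x => ⟨φ x, x, rfl⟩) (by
    constructor
    · intro a b hab
      exact φ.injective (congrArg Subtype.val hab)
    · rintro ⟨_, x, rfl⟩
      exact ⟨x, rfl⟩)
  rw [← locK_eq H φ l h1 h2, ← Matrix.det_submatrix_equiv_self e]
  rfl

lemma locK_one (x : ℝ) : (locK 6 [(0,1),(1,2),(2,3),(4,5)] x).det =
    x^2*(x-2)^2*(x^2-4*x+2) := by
  have hc : ∀ i : Fin 6, (Finset.univ.filter fun k => adjL [(0,1),(1,2),(2,3),(4,5)] i k = true).card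
      = (![1,2,2,1,1,1] : Fin 6 → ℕ) i := by decide
  have : locK 6 [(0,1),(1,2),(2,3),(4,5)] x =
      !![x-1,1,0,0,0,0; 1,x-2,1,0,0,0; 0,1,x-2,1,0,0; 0,0,1,x-1,0,0; 0,0,0,0,x-1,1; 0,0,0,0,1,x-1] := by
    ext i j
    unfold locK
    rw [hc]
    fin_cases i <;> fin_cases j <;> simp [adjL]
  rw [this]
  simp [Matrix.det_succ_row_zero, Fin.sum_univ_succ, Fin.succAbove]
  ring

lemma locK_two (x : ℝ) : (locK 6 [(0,1),(1,4),(2,3),(2,5)] x).det =
    x^2*(x-1)^2*(x-3)^2 := by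
  have hc : ∀ i : Fin 6, (Finset.univ.filter fun k => adjL [(0,1),(1,4),(2,3),(2,5)] i k = true).card
      = (![1,2,2,1,1,1] : Fin 6 → ℕ) i := by decide
  have : locK 6 [(0,1),(1,4),(2,3),(2,5)] x =
      !![x-1,1,0,0,0,0; 1,x-2,0,0,1,0; 0,0,x-2,1,0,1; 0,0,1,x-1,0,0; 0,1,0,0,x-1,0; 0,0,1,0,0,x-1] := by
    ext i j
    unfold locK
    rw [hc]
    fin_cases i <;> fin_cases j <;> simp [adjL]
  rw [this]
  simp [Matrix.det_succ_row_zero, Fin.sum_univ_succ, Fin.succAbove]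
  ring

/-- replacing `P₄ + K₂` by `2 P₃` keeps the number of edges and increases the determinant. -/
lemma swap_two (hn : 6 ≤ n) (H : SimpleGraph (Fin n)) (hd : ∀ v, H.degree v ≤ 2)
    (φ : Fin 6 ↪ Fin n)
    (h1 : ∀ x y, H.Adj (φ x) (φ y) ↔ adjL [(0,1),(1,2),(2,3),(4,5)] x y = true)
    (h2 : ∀ x j, H.Adj (φ x) j → ∃ y, φ y = j) :
    ∃ H₂ : SimpleGraph (Fin n), H₂.edgeFinset.card = H.edgeFinset.card ∧
      (KK H).det < (KK H₂).det := by
  obtain ⟨H₂, hH₂⟩ : ∃ H₂ : SimpleGraph (Fin n), H₂ = repl H φ [(0,1),(1,4),(2,3),(2,5)] :=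
    ⟨_, rfl⟩
  have hadj : ∀ i j, H₂.Adj i j ↔ i ≠ j ∧ ((∃ a b, φ a = i ∧ φ b = j ∧
      adjL [(0,1),(1,4),(2,3),(2,5)] a b = true) ∨
    (¬ ((∃ a, φ a = i) ∧ (∃ b, φ b = j)) ∧ H.Adj i j)) := by
    intro i j
    rw [hH₂]
    exact Iff.rfl
  have hirr : ∀ a : Fin 6, adjL [(0,1),(1,4),(2,3),(2,5)] a a = false := by decide
  have k1 : ∀ x y, H₂.Adj (φ x) (φ y) ↔ adjL [(0,1),(1,4),(2,3),(2,5)] x y = true := by
    intro x y
    rw [hadj]
    constructor
    · rintro ⟨h3, ⟨a, b, ha, hb, h⟩ | ⟨h4, -⟩⟩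
      · rw [← φ.injective ha, ← φ.injective hb]
        exact h
      · exact absurd ⟨⟨x, rfl⟩, ⟨y, rfl⟩⟩ h4
    · intro h
      refine ⟨?_, Or.inl ⟨x, y, rfl, rfl, h⟩⟩
      intro hxy
      rw [φ.injective hxy, hirr] at h
      exact Bool.noConfusion h
  have k2 : ∀ x j, H₂.Adj (φ x) j → ∃ y, φ y = j := by
    intro x j h
    rw [hadj] at h
    rcases h with ⟨-, ⟨a, b, -, hb, -⟩ | ⟨-, h⟩⟩
    · exact ⟨b, hb⟩
    · exact h2 x j h
  -- adjacency outside
  have k3 : ∀ i, (¬ ∃ x, φ x = i) → ∀ j, H₂.Adj i j ↔ H.Adj i j := by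
    intro i hi j
    rw [hadj]
    constructor
    · rintro ⟨-, ⟨a, b, ha, -, -⟩ | ⟨-, h⟩⟩
      · exact absurd ⟨a, ha⟩ hi
      · exact h
    · intro h
      exact ⟨h.ne, Or.inr ⟨fun h' => hi h'.1, h⟩⟩
  have kdeg : ∀ v, H₂.degree v = H.degree v := by
    intro v
    by_cases hv : ∃ x, φ x = v
    · obtain ⟨x, rfl⟩ := hv
      rw [deg_loc H φ _ h1 h2, deg_loc H₂ φ _ k1 k2]
      revert x
      decide
    · rw [← SimpleGraph.card_neighborFinset_eq_degree, ← SimpleGraph.card_neighborFinset_eq_degree]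
      congr 1
      ext j
      rw [SimpleGraph.mem_neighborFinset, SimpleGraph.mem_neighborFinset, k3 v hv]
  have kedge : H₂.edgeFinset.card = H.edgeFinset.card := by
    have e1 := H₂.sum_degrees_eq_twice_card_edges
    have e2 := H.sum_degrees_eq_twice_card_edges
    rw [Finset.sum_congr rfl (fun v _ => kdeg v), e2] at e1
    omega
  refine ⟨H₂, kedge, ?_⟩
  have hrest : ((KK H₂).submatrix (Subtype.val : Out φ → Fin n) (Subtype.val : Out φ → Fin n)) =
      ((KK H).submatrix (Subtype.val : Out φ → Fin n) (Subtype.val : Out φ → Fin n)) := by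
    ext i j
    simp only [submatrix_apply]
    by_cases hij : i.1 = j.1
    · rw [hij, KK_diag, KK_diag, kdeg]
    · rw [KK_row _ _ hij, KK_row _ _ hij]
      simp only [k3 i.1 i.2]
  have hPD : (KK H).PosDef := by
    apply Matrix.PosDef.of_dotProduct_mulVec_pos
    · rw [Matrix.IsHermitian, Matrix.conjTranspose_eq_transpose_of_trivial]
      ext i j
      exact KK_symm H j i
    · intro x hx
      have h1 := KK_pos (H := H) (by omega) hd x
      have h2 : 0 < x ⬝ᵥ x := by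
        have := dotProduct_star_self_pos_iff.2 hx
        simpa using this
      simp only [star_trivial]
      linarith
  have hpos := (hPD.submatrix (e := (Subtype.val : Out φ → Fin n))
    Subtype.val_injective).det_pos
  rw [det_loc H φ _ h1 h2, det_loc H₂ φ _ k1 k2, hrest, locK_one, locK_two]
  apply mul_lt_mul_of_pos_right _ hpos
  have hn0 : (0 : ℝ) < n := by exact_mod_cast (by omega : 0 < n)
  have : (0 : ℝ) < (n : ℝ) ^ 2 := by positivity
  nlinarith [this]

/-- **no uniformly most reliable graph for `a = 2`.** -/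
theorem none_two' (n m : ℕ) (hn : 6 ≤ n)
    (ha : 2 * m + 2 + 2 * n = n ^ 2) (G : SimpleGraph (Fin n)) (hm : G.edgeFinset.card = m) :
    ¬ IsUMR G := by
  intro hU
  obtain ⟨H, hHdef⟩ : ∃ H : SimpleGraph (Fin n), H = Gᶜ := ⟨_, rfl⟩
  have hH : ∀ u v, H.Adj u v ↔ u ≠ v ∧ ¬ G.Adj u v := by
    intro u v
    rw [hHdef]
    exact SimpleGraph.compl_adj _ _ _
  have hedge : 2 * H.edgeFinset.card = n + 2 := by
    have h1 := edges_add hH
    have h2 : n ^ 2 = n * n := by ring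
    omega
  obtain ⟨h12, hcard, hcl⟩ := structure_two hH hU hedge hn
  obtain ⟨b, c, hbc, hset⟩ := Finset.card_eq_two.1 hcard
  have h2iff : ∀ v, H.degree v = 2 ↔ v = b ∨ v = c := by
    intro v
    have := Finset.ext_iff.1 hset v
    simpa using this
  have hb2 : H.degree b = 2 := (h2iff b).2 (Or.inl rfl)
  have hc2 : H.degree c = 2 := (h2iff c).2 (Or.inr rfl)
  have hbcadj := hcl b c hb2 hc2 hbc
  have hone : ∀ v, v ≠ b → v ≠ c → H.degree v = 1 := by
    intro v h1 h2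
    rcases h12 v with h | h
    · exact h
    · exact absurd ((h2iff v).1 h) (by tauto)
  obtain ⟨a, hac, hba⟩ := Pool.Agent.Helper428.UMR.nbr_other hb2 hbcadj
  obtain ⟨d, hdb, hcd⟩ := Pool.Agent.Helper428.UMR.nbr_other hc2 hbcadj.symm
  have hbn := Pool.Agent.Helper428.UMR.nbr_two hb2 hba hbcadj hac
  have hcn := Pool.Agent.Helper428.UMR.nbr_two hc2 hbcadj.symm hcd hdb.symm
  have nbr_one : ∀ p q : Fin n, H.degree p = 1 → H.Adj p q → ∀ z, H.Adj p z ↔ z = q := by
    intro p q hp hpq z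
    have hsub : ({q} : Finset (Fin n)) ⊆ H.neighborFinset p := by
      intro z hz
      rw [Finset.mem_singleton] at hz
      rw [SimpleGraph.mem_neighborFinset, hz]
      exact hpq
    have heq := Finset.eq_of_subset_of_card_le hsub (by
      rw [SimpleGraph.card_neighborFinset_eq_degree, hp, Finset.card_singleton])
    rw [← SimpleGraph.mem_neighborFinset, ← heq, Finset.mem_singleton]
  have hab : a ≠ b := hba.ne'
  have hdc : d ≠ c := hcd.ne'
  have ha1 := nbr_one a b (hone a hab hac) hba.symm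
  have hd1 := nbr_one d c (hone d hdb hdc) hcd.symm
  have had : a ≠ d := by
    rintro rfl
    exact hbc.symm ((ha1 c).1 hcd.symm)
  obtain ⟨e, -, he⟩ := Finset.exists_mem_notMem_of_card_lt_card
    (s := ({a, b, c, d} : Finset (Fin n))) (t := Finset.univ) (by
      have := Finset.card_le_four (a := a) (b := b) (c := c) (d := d)
      rw [Finset.card_univ, Fintype.card_fin]
      omega)
  simp only [Finset.mem_insert, Finset.mem_singleton, not_or] at he
  obtain ⟨hea, heb, hec, hed⟩ := he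
  obtain ⟨f, hef, -⟩ := Pool.Agent.Helper428.UMR.exists_nbr_avoid H e ∅ (by
    rw [hone e heb hec]; simp)
  have he1 := nbr_one e f (hone e heb hec) hef
  have hfb : f ≠ b := by
    rintro rfl
    rcases (hbn e).1 hef.symm with h | h
    · exact hea h
    · exact hec h
  have hfc : f ≠ c := by
    rintro rfl
    rcases (hcn e).1 hef.symm with h | h
    · exact heb h
    · exact hed h
  have hfa : f ≠ a := by
    rintro rfl
    exact heb ((ha1 e).1 hef.symm)
  have hfd : f ≠ d := by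
    rintro rfl
    exact hec ((hd1 e).1 hef.symm)
  have hf1 := nbr_one f e (hone f hfb hfc) hef.symm
  have hfe : f ≠ e := hef.ne'
  -- the embedding
  obtain ⟨φ, hφ⟩ : ∃ φ : Fin 6 ↪ Fin n, ∀ x, φ x = ![a, b, c, d, e, f] x := by
    refine ⟨⟨![a, b, c, d, e, f], ?_⟩, fun _ => rfl⟩
    have hnd : (List.ofFn ![a, b, c, d, e, f]).Nodup := by
      simp only [List.ofFn_succ, List.ofFn_zero, List.nodup_cons, List.mem_cons, List.not_mem_nil,
        Matrix.cons_val_zero, Matrix.cons_val_succ, List.nodup_nil, or_false, not_or,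
        not_false_eq_true, and_true]
      exact ⟨⟨hab, hac, had, Ne.symm hea, hfa.symm⟩, ⟨hbc, hdb.symm, Ne.symm heb, hfb.symm⟩,
        ⟨hdc.symm, Ne.symm hec, hfc.symm⟩, ⟨Ne.symm hed, hfd.symm⟩, hfe.symm⟩
    exact List.nodup_ofFn.1 hnd
  have p0 : φ 0 = a := hφ 0
  have p1 : φ 1 = b := hφ 1
  have p2 : φ 2 = c := hφ 2
  have p3 : φ 3 = d := hφ 3
  have p4 : φ 4 = e := hφ 4
  have p5 : φ 5 = f := hφ 5
  have q1 : ∀ x y, H.Adj (φ x) (φ y) ↔ adjL [(0,1),(1,2),(2,3),(4,5)] x y = true := by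
    intro x y
    fin_cases x
    · show H.Adj (φ 0) (φ y) ↔ _
      rw [p0, ha1]
      fin_cases y <;> simp [p0, p1, p2, p3, p4, p5, adjL, hab, hbc.symm, hdb, heb, hfb]
    · show H.Adj (φ 1) (φ y) ↔ _
      rw [p1, hbn]
      fin_cases y <;> simp [p0, p1, p2, p3, p4, p5, adjL, hab.symm, hbc, had.symm, hdc, hea, hec, hfa,
        hfc, hac.symm]
    · show H.Adj (φ 2) (φ y) ↔ _
      rw [p2, hcn]
      fin_cases y <;> simp [p0, p1, p2, p3, p4, p5, adjL, hab, hbc.symm, had, heb, hed, hfb, hfd,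
        hdc.symm]
    · show H.Adj (φ 3) (φ y) ↔ _
      rw [p3, hd1]
      fin_cases y <;> simp [p0, p1, p2, p3, p4, p5, adjL, hac, hbc, hdc, hec, hfc]
    · show H.Adj (φ 4) (φ y) ↔ _
      rw [p4, he1]
      fin_cases y <;> simp [p0, p1, p2, p3, p4, p5, adjL, hfa.symm, hfb.symm, hfc.symm, hfd.symm,
        hfe.symm]
    · show H.Adj (φ 5) (φ y) ↔ _
      rw [p5, hf1]
      fin_cases y <;> simp [p0, p1, p2, p3, p4, p5, adjL, Ne.symm hea, Ne.symm heb, Ne.symm hec,
        Ne.symm hed, hfe]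
  have q2 : ∀ x j, H.Adj (φ x) j → ∃ y, φ y = j := by
    intro x j hj
    fin_cases x
    · exact ⟨1, by rw [p1]; exact ((ha1 j).1 (p0 ▸ hj)).symm⟩
    · rcases (hbn j).1 (p1 ▸ hj) with h | h
      · exact ⟨0, by rw [p0, h]⟩
      · exact ⟨2, by rw [p2, h]⟩
    · rcases (hcn j).1 (p2 ▸ hj) with h | h
      · exact ⟨1, by rw [p1, h]⟩
      · exact ⟨3, by rw [p3, h]⟩
    · exact ⟨2, by rw [p2]; exact ((hd1 j).1 (p3 ▸ hj)).symm⟩
    · exact ⟨5, by rw [p5]; exact ((he1 j).1 (p4 ▸ hj)).symm⟩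
    · exact ⟨4, by rw [p4]; exact ((hf1 j).1 (p5 ▸ hj)).symm⟩
  obtain ⟨K, hKe, hlt⟩ := swap_two hn H (fun v => by rcases h12 v with h | h <;> omega) φ q1 q2
  obtain ⟨G', hG'⟩ : ∃ G' : SimpleGraph (Fin n), G' = Kᶜ := ⟨_, rfl⟩
  have hc' : ∀ u v, K.Adj u v ↔ u ≠ v ∧ ¬ G'.Adj u v := by
    intro u v
    rw [hG', SimpleGraph.compl_adj]
    constructor
    · intro h; exact ⟨h.ne, fun h2 => h2.2 h⟩
    · rintro ⟨h1, h2⟩
      by_contra h3
      exact h2 ⟨h1, h3⟩
  have hm' : G'.edgeFinset.card = G.edgeFinset.card := by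
    have h1 := edges_add hH
    have h2 := edges_add hc'
    omega
  have heta := umr_eta hU hm' (n - 1) (by
    intro j hj
    exact ⟨eta_zero _ _ (by omega), eta_zero _ _ (by omega)⟩)
  rw [eta_tree hH (by omega), eta_tree hc' (by omega)] at hlt
  have hn0 : (0 : ℝ) < (n : ℝ) ^ 2 := by
    have : (0 : ℝ) < n := by exact_mod_cast (by omega : 0 < n)
    positivity
  have h5 := lt_of_mul_lt_mul_left hlt hn0.le
  have h6 : eta G (n - 1) < eta G' (n - 1) := by exact_mod_cast h5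
  omega

end Pool.Agent.H34R2.U.N2Aux
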