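import Pool.Agent.H34R2.U.M11
import Pool.Agent.H34R2.U.Final
import Pool.Agent.H34R2.U.N2Det

/-! the full answer -/

set_option autoImplicit false

namespace Pool.Agent.H34R2.U

open Finset
open Classical
open Pool.Agent.Helper428.UMR

theorem compl_compl_adj {n : ℕ} (G H : SimpleGraph (Fin n)) (hH : H = Gᶜ) :
    ∀ u v, H.Adj u v ↔ u ≠ v ∧ ¬ G.Adj u v := by
  intro u v
  rw [hH]
  exact SimpleGraph.compl_adj _ _ _

theorem fin1_sum {n m a : ℕ} (ha : 2 * m + a + 2 * n = n ^ 2) (G H : SimpleGraph (Fin n))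
    (hH : H = Gᶜ) (hm : G.edgeFinset.card = m) : 2 * H.edgeFinset.card = n + a := by
  have h1 := edges_add (compl_compl_adj G H hH)
  rw [hm] at h1
  nlinarith

theorem umr_of_compl {n : ℕ} (hn : 0 < n) (G T : SimpleGraph (Fin n)) (hT : T = Gᶜ)
    (h : ∀ H : SimpleGraph (Fin n), (∑ v, dg H v) = (∑ v, dg T v) →
      ∀ q : ℝ, 0 < q → q < 1 → RH H q ≤ RH T q) : IsUMR G := by
  have := umr_of_RH hn T h
  rw [hT, compl_compl] at this
  exact this

theorem full_answer (n m a : ℕ) (hrange : n ^ 2 + 4 ≤ 2 * m + 3 * n)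
    (ha : 2 * m + a + 2 * n = n ^ 2) (ha1 : 1 ≤ a) :
    ((∃ G : SimpleGraph (Fin n), G.edgeFinset.card = m ∧ IsUMR G) ↔ (a = 1 ∨ 3 ∣ a)) ∧
    (a = 1 → ∀ G H : SimpleGraph (Fin n), G.edgeFinset.card = m → H = Gᶜ →
      (∀ v, 1 ≤ H.degree v) → IsUMR G) ∧
    (3 ∣ a → ∀ G H : SimpleGraph (Fin n), G.edgeFinset.card = m → H = Gᶜ →
      (IsUMR G ↔ ((∀ v, H.degree v = 1 ∨ H.degree v = 2) ∧
        ∀ u v w, H.Adj u v → H.Adj v w → u ≠ w → H.Adj u w))) := by
  have han : a + 4 ≤ n := by nlinarith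
  refine ⟨⟨?_, fun h => exists_umr allMoves n m a hrange ha ha1 h⟩, ?_, ?_⟩
  · rintro ⟨G, hm, hG⟩
    by_cases h1 : a = 1
    · left; exact h1
    · by_cases h2 : a = 2
      · exfalso
        subst h2
        exact N2Aux.none_two' n m (by omega) ha G hm hG
      · right
        have hs := fin1_sum ha G _ rfl hm
        obtain ⟨h5, h6, h7⟩ := structure_full (compl_compl_adj G _ rfl) hG a (by omega)
          hs (by omega) (by left; omega)
        have := three_dvd h7
        rwa [h6] at this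
  · rintro rfl G T hm hT hG
    have hs := fin1_sum ha G T hT hm
    have hs' : ∑ v, dg T v = n + 1 := by rw [sum_dg]; exact hs
    refine umr_of_compl (by omega) G T hT ?_
    intro H hH q hq0 hq1
    exact OneP_max T H ⟨fun v => by rw [dg_eq]; exact hG v, hs'⟩ (hH.trans hs') q hq0 hq1
  · intro h3 G T hm hT
    have hs := fin1_sum ha G T hT hm
    have hs' : ∑ v, dg T v = n + a := by rw [sum_dg]; exact hs
    constructor
    · intro hG
      obtain ⟨h5, h6, h7⟩ := structure_full (compl_compl_adj G T hT) hG a (by omega)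
          hs (by omega) (by left; omega)
      exact ⟨h5, h7⟩
    · rintro ⟨h5, h7⟩
      refine umr_of_compl (by omega) G T hT ?_
      intro H hH q hq0 hq1
      have hTE : TE T := ⟨fun v => by rw [dg_eq]; exact h5 v, h7⟩
      exact TE_max allMoves a ha1 han h3 T H hTE hs' (hH.trans hs') q hq0 hq1

end Pool.Agent.H34R2.U
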