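import Pool.Agent.H34R2.U.G13

/-! TASK G15: components of a graph without improvement and with maximum degree two. -/

set_option autoImplicit false
set_option linter.unusedSimpArgs false

namespace Pool.Agent.H34R2.U

open Finset

variable {n : ℕ}

/-- component that is a cycle `a b c d`. -/
def C4 (H : SimpleGraph (Fin n)) (a b c d : Fin n) : Prop :=
  a ≠ c ∧ b ≠ d ∧ (∀ j, H.Adj a j ↔ j = b ∨ j = d) ∧ (∀ j, H.Adj b j ↔ j = a ∨ j = c) ∧
    (∀ j, H.Adj c j ↔ j = b ∨ j = d) ∧ (∀ j, H.Adj d j ↔ j = a ∨ j = c)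

/-- component that is a cycle `a b c d e`. -/
def C5 (H : SimpleGraph (Fin n)) (a b c d e : Fin n) : Prop :=
  a ≠ c ∧ a ≠ d ∧ b ≠ d ∧ b ≠ e ∧ c ≠ e ∧ (∀ j, H.Adj a j ↔ j = b ∨ j = e) ∧
    (∀ j, H.Adj b j ↔ j = a ∨ j = c) ∧ (∀ j, H.Adj c j ↔ j = b ∨ j = d) ∧
    (∀ j, H.Adj d j ↔ j = c ∨ j = e) ∧ (∀ j, H.Adj e j ↔ j = a ∨ j = d)

def mvC6 : Prop := MoveOK 6 [(0,1),(1,2),(2,3),(3,4),(4,5),(0,5)]
  [[(0,1),(1,2),(0,2),(3,4),(4,5),(3,5)]] []
def mvC7 : Prop := MoveOK 7 [(0,1),(1,2),(2,3),(3,4),(4,5),(5,6),(0,6)]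
  [[(0,1),(1,2),(0,2),(3,4),(4,5),(5,6),(3,6)]] []
/-- three ways of cutting off a triangle inside a long path. -/
def mvL7 : Prop := MoveOK 7 [(0,1),(1,2),(2,3),(3,4),(4,5),(5,6)]
  [[(1,2),(2,3),(1,3),(0,4),(4,5),(5,6)],
   [(0,1),(2,3),(3,4),(2,4),(1,5),(5,6)],
   [(0,1),(1,2),(3,4),(4,5),(3,5),(2,6)]] [0, 6]

theorem G15_two (H : SimpleGraph (Fin n)) (x : Fin n) (h : dg H x = 2) :
    ∃ a b, a ≠ b ∧ ∀ j, H.Adj x j ↔ j = a ∨ j = b := by
  classical
  unfold dg at h
  obtain ⟨a, b, hab, he⟩ := Finset.card_eq_two.1 h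
  refine ⟨a, b, hab, fun j => ?_⟩
  have := Finset.ext_iff.1 he j
  simpa using this

theorem G15_other (H : SimpleGraph (Fin n)) (x y : Fin n) (h : dg H x = 2) (hxy : H.Adj x y) :
    ∃ z, z ≠ y ∧ ∀ j, H.Adj x j ↔ j = y ∨ j = z := by
  obtain ⟨a, b, hab, he⟩ := G15_two H x h
  rcases (he y).1 hxy with rfl | rfl
  · exact ⟨b, hab.symm, he⟩
  · exact ⟨a, hab, fun j => by rw [he j, or_comm]⟩

theorem G15_not_single (H : SimpleGraph (Fin n)) (x y : Fin n) (h : dg H x = 2)
    (hs : ∀ j, H.Adj x j ↔ j = y) : False := by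
  obtain ⟨a, b, hab, he⟩ := G15_two H x h
  have h1 := (hs a).1 ((he a).2 (Or.inl rfl))
  have h2 := (hs b).1 ((he b).2 (Or.inr rfl))
  exact hab (h1.trans h2.symm)

theorem G15_stepA (m5 : mvP5) (m6 : mvP6) (H : SimpleGraph (Fin n)) (q : ℝ) (hq0 : 0 < q)
    (hq1 : q < 1) (hI : ¬ Imp H q) (h2 : ∀ v, dg H v ≤ 2) (v x : Fin n) (hv : dg H v = 2)
    (hvx : H.Adj v x) (hx : dg H x = 1) :
    (∃ a b, P3 H a v b) ∨ (∃ a b c, P4 H a v b c) := by
  rcases leaf_cases m5 m6 H q hq0 hq1 hI x hx with ⟨y, h⟩ | ⟨y, z, h⟩ | ⟨y, z, w, h⟩ |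
    ⟨y, z, w, t, h⟩
  · have e : v = y := (h.1 v).1 hvx.symm
    subst e
    exact (G15_not_single H v x hv h.2).elim
  · have e : v = y := (h.2.1 v).1 hvx.symm
    subst e
    exact Or.inl ⟨x, z, h⟩
  · have e : v = y := (h.2.2.2.1 v).1 hvx.symm
    subst e
    exact Or.inr ⟨x, z, w, h⟩
  · have := h.2.2.2.2.2.2.2.2.2.2
    have := h2 t
    omega

theorem G15_stepB (m5 : mvP5) (m6 : mvP6) (H : SimpleGraph (Fin n)) (q : ℝ) (hq0 : 0 < q)
    (hq1 : q < 1) (hI : ¬ Imp H q) (h2 : ∀ v, dg H v ≤ 2) (v b a : Fin n) (hv : dg H v = 2)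
    (hb : ∀ j, H.Adj b j ↔ j = v ∨ j = a) (hav : a ≠ v) (ha : dg H a = 1) :
    ∃ x y z, P4 H x v y z := by
  have hba : H.Adj b a := (hb a).2 (Or.inr rfl)
  have hbv : H.Adj b v := (hb v).2 (Or.inl rfl)
  rcases leaf_cases m5 m6 H q hq0 hq1 hI a ha with ⟨y, h⟩ | ⟨y, z, h⟩ | ⟨y, z, w, h⟩ |
    ⟨y, z, w, t, h⟩
  · have e : b = y := (h.1 b).1 hba.symm
    subst e
    exact (hav ((h.2 v).1 hbv).symm).elim
  · have e : b = y := (h.2.1 b).1 hba.symm
    subst e
    rcases (h.2.2.1 v).1 hbv with e | e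
    · exact (hav e.symm).elim
    · subst e
      exact (G15_not_single H v b hv h.2.2.2).elim
  · have e : b = y := (h.2.2.2.1 b).1 hba.symm
    subst e
    obtain ⟨h3, h4, h5, h6, h7, h8, h9⟩ := h
    rcases (h7 v).1 hbv with e | e
    · exact (hav e.symm).elim
    · subst e
      exact ⟨w, b, a, h4.symm, h3.symm, h5.symm, h9, fun j => by rw [h8 j, or_comm],
        fun j => by rw [h7 j, or_comm], h6⟩
  · have := h.2.2.2.2.2.2.2.2.2.2
    have := h2 t
    omega

theorem two_cases (m5 : mvP5) (m6 : mvP6) (c6 : mvC6) (c7 : mvC7) (l7 : mvL7)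
    (H : SimpleGraph (Fin n)) (q : ℝ) (hq0 : 0 < q) (hq1 : q < 1) (hI : ¬ Imp H q)
    (h1 : ∀ v, 1 ≤ dg H v) (h2 : ∀ v, dg H v ≤ 2) (v : Fin n) (hv : dg H v = 2) :
    (∃ a b, a ≠ b ∧ H.Adj v a ∧ H.Adj v b ∧ H.Adj a b) ∨ (∃ a b, P3 H a v b) ∨
      (∃ a b c, P4 H a v b c) ∨ (∃ a b c, C4 H v a b c) ∨ (∃ a b c d, C5 H v a b c d) := by
  have h12 : ∀ x, dg H x = 1 ∨ dg H x = 2 := fun x => by
    have := h1 x; have := h2 x; omega
  obtain ⟨b, c, hbc, nv⟩ := G15_two H v hv
  have vb : H.Adj v b := (nv b).2 (Or.inl rfl)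
  have vc : H.Adj v c := (nv c).2 (Or.inr rfl)
  rcases h12 b with hb | hb
  · rcases G15_stepA m5 m6 H q hq0 hq1 hI h2 v b hv vb hb with h | h
    · exact Or.inr (Or.inl h)
    · exact Or.inr (Or.inr (Or.inl h))
  rcases h12 c with hc | hc
  · rcases G15_stepA m5 m6 H q hq0 hq1 hI h2 v c hv vc hc with h | h
    · exact Or.inr (Or.inl h)
    · exact Or.inr (Or.inr (Or.inl h))
  obtain ⟨a, hav, nb⟩ := G15_other H b v hb vb.symm
  obtain ⟨d, hdv, nc⟩ := G15_other H c v hc vc.symm
  have ba : H.Adj b a := (nb a).2 (Or.inr rfl)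
  have cd : H.Adj c d := (nc d).2 (Or.inr rfl)
  by_cases hac : a = c
  · subst hac
    exact Or.inl ⟨b, a, hbc, vb, vc, ba⟩
  have hdb : d ≠ b := by
    rintro rfl
    rcases (nb c).1 cd.symm with h | h
    · exact vc.ne h.symm
    · exact hac h.symm
  rcases h12 a with ha | ha
  · exact Or.inr (Or.inr (Or.inl (G15_stepB m5 m6 H q hq0 hq1 hI h2 v b a hv nb hav ha)))
  rcases h12 d with hd | hd
  · exact Or.inr (Or.inr (Or.inl (G15_stepB m5 m6 H q hq0 hq1 hI h2 v c d hv nc hdv hd)))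
  have hvb : v ≠ b := vb.ne
  have hvc : v ≠ c := vc.ne
  have hba : b ≠ a := ba.ne
  have hcd : c ≠ d := cd.ne
  obtain ⟨e, heb, na⟩ := G15_other H a b ha ba.symm
  obtain ⟨f, hfc, nd⟩ := G15_other H d c hd cd.symm
  have ae : H.Adj a e := (na e).2 (Or.inr rfl)
  have df : H.Adj d f := (nd f).2 (Or.inr rfl)
  by_cases had : a = d
  · subst had
    have hec : e = c := by
      rcases (na c).1 cd.symm with h | h
      · exact (hbc h.symm).elim
      · exact h.symm
    subst hec
    exact Or.inr (Or.inr (Or.inr (Or.inl ⟨b, a, e, hav.symm, hbc, nv, nb, na, nc⟩)))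
  have hae : a ≠ e := ae.ne
  have hdf : d ≠ f := df.ne
  by_cases hed : e = d
  · subst hed
    have hfa : f = a := by
      rcases (nd a).1 ae.symm with h | h
      · exact (hac h).elim
      · exact h.symm
    subst hfa
    exact Or.inr (Or.inr (Or.inr (Or.inr ⟨b, f, e, c, hav.symm, hdv.symm, hdb.symm, hbc, hac,
      nv, nb, na, fun j => by rw [nd j, or_comm], nc⟩)))
  have hfa : f ≠ a := by
    rintro rfl
    rcases (na d).1 df.symm with h | h
    · exact hdb h
    · exact hed h.symm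
  have hev : e ≠ v := by
    rintro rfl
    rcases (nv a).1 ae.symm with h | h
    · exact hba h.symm
    · exact hac h
  have hec : e ≠ c := by
    rintro rfl
    rcases (nc a).1 ae.symm with h | h
    · exact hav h
    · exact had h
  have hfv : f ≠ v := by
    rintro rfl
    rcases (nv d).1 df.symm with h | h
    · exact hdb h
    · exact hcd h.symm
  have hfb : f ≠ b := by
    rintro rfl
    rcases (nb d).1 df.symm with h | h
    · exact hdv h
    · exact had h.symm
  exfalso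
  apply hI
  by_cases hef : e = f
  · -- cycle of length six
    subst hef
    have ne : ∀ j, H.Adj e j ↔ j = a ∨ j = d := by
      have he : dg H e = 2 := by
        rcases h12 e with he | he
        · exfalso
          rcases leaf_cases m5 m6 H q hq0 hq1 hI e he with ⟨y, h⟩ | ⟨y, z, h⟩ | ⟨y, z, w, h⟩ |
            ⟨y, z, w, t, h⟩
          · exact had (((h.1 a).1 ae.symm).trans ((h.1 d).1 df.symm).symm)
          · exact had (((h.2.1 a).1 ae.symm).trans ((h.2.1 d).1 df.symm).symm)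
          · exact had (((h.2.2.2.1 a).1 ae.symm).trans ((h.2.2.2.1 d).1 df.symm).symm)
          · have := h.2.2.2.2.2.2.2.2.2.2
            have := h2 t
            omega
        · exact he
      obtain ⟨z, hz, ne⟩ := G15_other H e a he ae.symm
      have : d = z := by
        rcases (ne d).1 df.symm with h | h
        · exact (had h.symm).elim
        · exact h
      subst this
      exact ne
    have hinj : Function.Injective ![v, b, a, e, d, c] := by
      intro i j hij
      fin_cases i <;> fin_cases j <;> first | rfl | exact absurd hij (by simp [hbc, hbc.symm, hav, hav.symm, hdv, hdv.symm, hac, Ne.symm hac, hdb, hdb.symm, hvb, hvb.symm, hvc, hvc.symm, hba, hba.symm, hcd, hcd.symm, heb, heb.symm, hfc, hfc.symm, had, Ne.symm had, hae, hae.symm, hdf, hdf.symm, hed, Ne.symm hed, hev, hev.symm, hec, hec.symm])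
    refine machine_improve 6 _ _ [] c6 (by simp) (by decide +kernel) H ⟨_, hinj⟩ ⟨?_, ?_⟩ q hq0 hq1
    · intro i j
      fin_cases i <;> fin_cases j <;> simp [nv, nb, na, ne, nd, nc, adjL, hbc, hbc.symm, hav, hav.symm, hdv, hdv.symm, hac, Ne.symm hac, hdb, hdb.symm, hvb, hvb.symm, hvc, hvc.symm, hba, hba.symm, hcd, hcd.symm, heb, heb.symm, hfc, hfc.symm, had, Ne.symm had, hae, hae.symm, hdf, hdf.symm, hed, Ne.symm hed, hev, hev.symm, hec, hec.symm]
    · intro i _ j hj
      fin_cases i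
      · rcases (nv j).1 hj with h | h
        · exact ⟨1, h.symm⟩
        · exact ⟨5, h.symm⟩
      · rcases (nb j).1 hj with h | h
        · exact ⟨0, h.symm⟩
        · exact ⟨2, h.symm⟩
      · rcases (na j).1 hj with h | h
        · exact ⟨1, h.symm⟩
        · exact ⟨3, h.symm⟩
      · rcases (ne j).1 hj with h | h
        · exact ⟨2, h.symm⟩
        · exact ⟨4, h.symm⟩
      · rcases (nd j).1 hj with h | h
        · exact ⟨5, h.symm⟩
        · exact ⟨3, h.symm⟩
      · rcases (nc j).1 hj with h | h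
        · exact ⟨0, h.symm⟩
        · exact ⟨4, h.symm⟩
  by_cases aef : H.Adj e f
  · -- cycle of length seven
    have key : ∀ x y z : Fin n, H.Adj x y → H.Adj x z → y ≠ z → ∀ j, H.Adj x j ↔ j = y ∨ j = z := by
      intro x y z hy hz hyz
      have hx : dg H x = 2 := by
        rcases h12 x with hx | hx
        · exfalso
          rcases leaf_cases m5 m6 H q hq0 hq1 hI x hx with ⟨y', h⟩ | ⟨y', z', h⟩ | ⟨y', z', w, h⟩ |
            ⟨y', z', w, t, h⟩
          · exact hyz (((h.1 y).1 hy).trans ((h.1 z).1 hz).symm)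
          · exact hyz (((h.2.1 y).1 hy).trans ((h.2.1 z).1 hz).symm)
          · exact hyz (((h.2.2.2.1 y).1 hy).trans ((h.2.2.2.1 z).1 hz).symm)
          · have := h.2.2.2.2.2.2.2.2.2.2
            have := h2 t
            omega
        · exact hx
      obtain ⟨w, hw, nx⟩ := G15_other H x y hx hy
      have : z = w := by
        rcases (nx z).1 hz with h | h
        · exact (hyz h.symm).elim
        · exact h
      subst this
      exact nx
    have ne := key e a f ae.symm aef hfa.symm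
    have nf := key f e d aef.symm df.symm hed
    have hinj : Function.Injective ![v, b, a, e, f, d, c] := by
      intro i j hij
      fin_cases i <;> fin_cases j <;> first | rfl | exact absurd hij (by simp [hbc, hbc.symm, hav, hav.symm, hdv, hdv.symm, hac, Ne.symm hac, hdb, hdb.symm, hvb, hvb.symm, hvc, hvc.symm, hba, hba.symm, hcd, hcd.symm, heb, heb.symm, hfc, hfc.symm, had, Ne.symm had, hae, hae.symm, hdf, hdf.symm, hed, Ne.symm hed, hev, hev.symm, hec, hec.symm, hfa, hfa.symm, hfv, hfv.symm, hfb, hfb.symm, hef, Ne.symm hef])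
    refine machine_improve 7 _ _ [] c7 (by simp) (by decide +kernel) H ⟨_, hinj⟩ ⟨?_, ?_⟩ q hq0 hq1
    · intro i j
      fin_cases i <;> fin_cases j <;> simp [nv, nb, na, ne, nf, nd, nc, adjL, hbc, hbc.symm, hav, hav.symm, hdv, hdv.symm, hac, Ne.symm hac, hdb, hdb.symm, hvb, hvb.symm, hvc, hvc.symm, hba, hba.symm, hcd, hcd.symm, heb, heb.symm, hfc, hfc.symm, had, Ne.symm had, hae, hae.symm, hdf, hdf.symm, hed, Ne.symm hed, hfa, hfa.symm, hev, hev.symm, hec, hec.symm, hfv, hfv.symm, hfb, hfb.symm, hef, Ne.symm hef]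
    · intro i _ j hj
      fin_cases i
      · rcases (nv j).1 hj with h | h
        · exact ⟨1, h.symm⟩
        · exact ⟨6, h.symm⟩
      · rcases (nb j).1 hj with h | h
        · exact ⟨0, h.symm⟩
        · exact ⟨2, h.symm⟩
      · rcases (na j).1 hj with h | h
        · exact ⟨1, h.symm⟩
        · exact ⟨3, h.symm⟩
      · rcases (ne j).1 hj with h | h
        · exact ⟨2, h.symm⟩
        · exact ⟨4, h.symm⟩
      · rcases (nf j).1 hj with h | h
        · exact ⟨3, h.symm⟩
        · exact ⟨5, h.symm⟩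
      · rcases (nd j).1 hj with h | h
        · exact ⟨6, h.symm⟩
        · exact ⟨4, h.symm⟩
      · rcases (nc j).1 hj with h | h
        · exact ⟨0, h.symm⟩
        · exact ⟨5, h.symm⟩
  -- path of length seven
  have afe : ¬ H.Adj f e := fun h => aef h.symm
  have aea : H.Adj e a := ae.symm
  have afd : H.Adj f d := df.symm
  have eb' : ¬ H.Adj e b := fun h => by
    rcases (nb e).1 h.symm with h | h
    · exact hev h
    · exact hae h.symm
  have ev' : ¬ H.Adj e v := fun h => by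
    rcases (nv e).1 h.symm with h | h
    · exact heb h
    · exact hec h
  have ec' : ¬ H.Adj e c := fun h => by
    rcases (nc e).1 h.symm with h | h
    · exact hev h
    · exact hed h
  have ed' : ¬ H.Adj e d := fun h => by
    rcases (nd e).1 h.symm with h | h
    · exact hec h
    · exact hef h
  have fa' : ¬ H.Adj f a := fun h => by
    rcases (na f).1 h.symm with h | h
    · exact hfb h
    · exact hef h.symm
  have fb' : ¬ H.Adj f b := fun h => by
    rcases (nb f).1 h.symm with h | h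
    · exact hfv h
    · exact hfa h
  have fv' : ¬ H.Adj f v := fun h => by
    rcases (nv f).1 h.symm with h | h
    · exact hfb h
    · exact hfc h
  have fc' : ¬ H.Adj f c := fun h => by
    rcases (nc f).1 h.symm with h | h
    · exact hfv h
    · exact hdf h.symm
  have hinj : Function.Injective ![e, a, b, v, c, d, f] := by
    intro i j hij
    fin_cases i <;> fin_cases j <;> first | rfl | exact absurd hij (by simp [hbc, hbc.symm, hav, hav.symm, hdv, hdv.symm, hac, Ne.symm hac, hdb, hdb.symm, hvb, hvb.symm, hvc, hvc.symm, hba, hba.symm, hcd, hcd.symm, heb, heb.symm, hfc, hfc.symm, had, Ne.symm had, hae, hae.symm, hdf, hdf.symm, hed, Ne.symm hed, hev, hev.symm, hec, hec.symm, hfa, hfa.symm, hfv, hfv.symm, hfb, hfb.symm, hef, Ne.symm hef])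
  refine machine_improve 7 _ _ [0, 6] l7 (by simp) (by decide +kernel) H ⟨_, hinj⟩ ⟨?_, ?_⟩ q hq0 hq1
  · intro i j
    fin_cases i <;> fin_cases j <;> simp [nv, nb, na, nd, nc, aef, afe, aea, afd, eb', ev', ec', ed', fa', fb', fv', fc', adjL, hbc, hbc.symm, hav, hav.symm, hdv, hdv.symm, hac, Ne.symm hac, hdb, hdb.symm, hvb, hvb.symm, hvc, hvc.symm, hba, hba.symm, hcd, hcd.symm, heb, heb.symm, hfc, hfc.symm, had, Ne.symm had, hae, hae.symm, hdf, hdf.symm, hed, Ne.symm hed, hfa, hfa.symm, hev, hev.symm, hec, hec.symm, hfv, hfv.symm, hfb, hfb.symm, hef, Ne.symm hef]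
  · intro i hi j hj
    fin_cases i
    · exact absurd (by simp) hi
    · rcases (na j).1 hj with h | h
      · exact ⟨2, h.symm⟩
      · exact ⟨0, h.symm⟩
    · rcases (nb j).1 hj with h | h
      · exact ⟨3, h.symm⟩
      · exact ⟨1, h.symm⟩
    · rcases (nv j).1 hj with h | h
      · exact ⟨2, h.symm⟩
      · exact ⟨4, h.symm⟩
    · rcases (nc j).1 hj with h | h
      · exact ⟨3, h.symm⟩
      · exact ⟨5, h.symm⟩
    · rcases (nd j).1 hj with h | h
      · exact ⟨4, h.symm⟩
      · exact ⟨6, h.symm⟩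
    · exact absurd (by simp) hi

end Pool.Agent.H34R2.U
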