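import Pool.Agent.H34R2.U.G14
import Pool.Agent.H34R2.U.G15

/-! TASK G16: a graph without improvement is a disjoint union of triangles and edges. -/

set_option autoImplicit false

namespace Pool.Agent.H34R2.U

open Finset

variable {n : ℕ}

def mvC4P3 : Prop := MoveOK 7 [(0,1),(1,2),(2,3),(0,3),(4,5),(5,6)]
  [[(0,1),(1,2),(0,2),(3,4),(4,5),(5,6)]] []
def mvC4P4 : Prop := MoveOK 8 [(0,1),(1,2),(2,3),(0,3),(4,5),(5,6),(6,7)]
  [[(0,1),(1,2),(0,2),(4,5),(5,6),(4,6),(3,7)]] []
def mvC4C4 : Prop := MoveOK 8 [(0,1),(1,2),(2,3),(0,3),(4,5),(5,6),(6,7),(4,7)]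
  [[(0,1),(1,2),(0,2),(3,4),(4,5),(5,6),(6,7),(3,7)]] []
def mvC4C5 : Prop := MoveOK 9 [(0,1),(1,2),(2,3),(0,3),(4,5),(5,6),(6,7),(7,8),(4,8)]
  [[(0,1),(1,2),(0,2),(3,4),(4,5),(3,5),(6,7),(7,8),(6,8)]] []
def mvC5P3 : Prop := MoveOK 8 [(0,1),(1,2),(2,3),(3,4),(0,4),(5,6),(6,7)]
  [[(0,1),(1,2),(0,2),(3,4),(4,5),(3,5),(6,7)]] []
def mvC5C5 : Prop := MoveOK 10 [(0,1),(1,2),(2,3),(3,4),(0,4),(5,6),(6,7),(7,8),(8,9),(5,9)]
  [[(0,1),(1,2),(0,2),(3,4),(4,5),(3,5),(6,7),(7,8),(8,9),(6,9)]] []

/-- all moves together. -/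
structure AllMoves : Prop where
  m5 : mvP5
  m6 : mvP6
  m34 : mvP3P4
  m3T : mvP3T
  m44 : mvP4P4
  m4T : mvP4T
  mTT : mvTT
  m333 : mv3P3
  c6 : mvC6
  c7 : mvC7
  l7 : mvL7
  c43 : mvC4P3
  c44 : mvC4P4
  cc44 : mvC4C4
  cc45 : mvC4C5
  c53 : mvC5P3
  cc55 : mvC5C5

/-- embedding from a nodup list -/
def g16_embL (L : List (Fin n)) (h : L.Nodup) : Fin L.length ↪ Fin n :=
  ⟨L.get, List.nodup_iff_injective_get.1 h⟩

theorem g16_conf_embL (H : SimpleGraph (Fin n)) (L : List (Fin n)) (h : L.Nodup) (l : List (ℕ × ℕ))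
    (hN : ∀ a : Fin L.length, ∀ j, H.Adj (L.get a) j ↔ ∃ b, adjL l a b = true ∧ L.get b = j) :
    Conf H (g16_embL L h) l [] := by
  refine ⟨fun a b => ?_, fun a _ j hj => ?_⟩
  · show H.Adj (L.get a) (L.get b) ↔ _
    rw [hN a]
    constructor
    · rintro ⟨c, hc, hcb⟩
      have := List.nodup_iff_injective_get.1 h hcb
      rw [← this]; exact hc
    · intro hc; exact ⟨b, hc, rfl⟩
  · obtain ⟨b, _, hb⟩ := (hN a j).1 hj
    exact ⟨b, hb⟩

theorem g16_closed_out {H : SimpleGraph (Fin n)} {S : Finset (Fin n)}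
    (hS : ∀ s ∈ S, ∀ j, H.Adj s j → j ∈ S) {x y : Fin n} (hxy : H.Adj x y) (hy : y ∉ S) :
    x ∉ S := fun hx => hy (hS x hx y hxy)

theorem g16_leaf_two {H : SimpleGraph (Fin n)} {v y b d : Fin n} (h1 : ∀ j, H.Adj v j ↔ j = y)
    (h2 : ∀ j, H.Adj v j ↔ j = b ∨ j = d) (hbd : b ≠ d) : False := by
  have e1 := (h1 b).1 ((h2 b).2 (Or.inl rfl))
  have e2 := (h1 d).1 ((h2 d).2 (Or.inr rfl))
  exact hbd (e1.trans e2.symm)

/-- C4 vertices are closed under adjacency -/
theorem g16_C4_closed {H : SimpleGraph (Fin n)} {a b c d : Fin n} (h : C4 H a b c d) :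
    ∀ s ∈ ({a, b, c, d} : Finset (Fin n)), ∀ j, H.Adj s j → j ∈ ({a, b, c, d} : Finset (Fin n)) := by
  obtain ⟨hac, hbd, ha, hb, hc, hd⟩ := h
  intro s hs j hj
  simp only [Finset.mem_insert, Finset.mem_singleton] at hs ⊢
  rcases hs with rfl | rfl | rfl | rfl
  · rcases (ha j).1 hj with h | h <;> simp [h]
  · rcases (hb j).1 hj with h | h <;> simp [h]
  · rcases (hc j).1 hj with h | h <;> simp [h]
  · rcases (hd j).1 hj with h | h <;> simp [h]

theorem g16_C5_closed {H : SimpleGraph (Fin n)} {a b c d e : Fin n} (h : C5 H a b c d e) :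
    ∀ s ∈ ({a, b, c, d, e} : Finset (Fin n)), ∀ j, H.Adj s j →
      j ∈ ({a, b, c, d, e} : Finset (Fin n)) := by
  obtain ⟨_, _, _, _, _, ha, hb, hc, hd, he⟩ := h
  intro s hs j hj
  simp only [Finset.mem_insert, Finset.mem_singleton] at hs ⊢
  rcases hs with rfl | rfl | rfl | rfl | rfl
  · rcases (ha j).1 hj with h | h <;> simp [h]
  · rcases (hb j).1 hj with h | h <;> simp [h]
  · rcases (hc j).1 hj with h | h <;> simp [h]
  · rcases (hd j).1 hj with h | h <;> simp [h]
  · rcases (he j).1 hj with h | h <;> simp [h]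

theorem g16_adj_ne {H : SimpleGraph (Fin n)} {a b : Fin n} (h : H.Adj a b) : a ≠ b := h.ne

theorem g16_C4_nodup {H : SimpleGraph (Fin n)} {a b c d : Fin n} (h : C4 H a b c d) :
    [a, b, c, d].Nodup := by
  obtain ⟨hac, hbd, ha, hb, hc, hd⟩ := h
  have h1 : a ≠ b := ((ha b).2 (Or.inl rfl)).ne
  have h2 : a ≠ d := ((ha d).2 (Or.inr rfl)).ne
  have h3 : b ≠ c := ((hb c).2 (Or.inr rfl)).ne
  have h4 : c ≠ d := ((hc d).2 (Or.inr rfl)).ne
  simp [*]

theorem g16_C5_nodup {H : SimpleGraph (Fin n)} {a b c d e : Fin n} (h : C5 H a b c d e) :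
    [a, b, c, d, e].Nodup := by
  obtain ⟨h1, h2, h3, h4, h5, ha, hb, hc, hd, he⟩ := h
  have h6 : a ≠ b := ((ha b).2 (Or.inl rfl)).ne
  have h7 : a ≠ e := ((ha e).2 (Or.inr rfl)).ne
  have h8 : b ≠ c := ((hb c).2 (Or.inr rfl)).ne
  have h9 : c ≠ d := ((hc d).2 (Or.inr rfl)).ne
  have h10 : d ≠ e := ((hd e).2 (Or.inr rfl)).ne
  simp [*]

theorem g16_P3_nodup {H : SimpleGraph (Fin n)} {v y z : Fin n} (h : P3 H v y z) :
    [v, y, z].Nodup := by
  obtain ⟨h1, hv, hy, hz⟩ := h
  have h6 : v ≠ y := ((hv y).2 rfl).ne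
  have h7 : y ≠ z := ((hy z).2 (Or.inr rfl)).ne
  simp [*]

theorem g16_P4_nodup {H : SimpleGraph (Fin n)} {v y z w : Fin n} (h : P4 H v y z w) :
    [v, y, z, w].Nodup := by
  obtain ⟨h1, h2, h3, hv, hy, hz, hw⟩ := h
  have h6 : v ≠ y := ((hv y).2 rfl).ne
  have h7 : y ≠ z := ((hy z).2 (Or.inr rfl)).ne
  have h8 : z ≠ w := ((hz w).2 (Or.inr rfl)).ne
  simp [*]

/-- a leaf is not in a C4 -/
theorem g16_leaf_notC4 {H : SimpleGraph (Fin n)} {a b c d v y : Fin n} (h : C4 H a b c d)
    (hv : ∀ j, H.Adj v j ↔ j = y) : v ∉ ({a, b, c, d} : Finset (Fin n)) := by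
  obtain ⟨hac, hbd, ha, hb, hc, hd⟩ := h
  intro hs
  simp only [Finset.mem_insert, Finset.mem_singleton] at hs
  rcases hs with rfl | rfl | rfl | rfl
  · exact g16_leaf_two hv ha hbd
  · exact g16_leaf_two hv hb hac
  · exact g16_leaf_two hv hc hbd
  · exact g16_leaf_two hv hd hac

theorem g16_leaf_notC5 {H : SimpleGraph (Fin n)} {a b c d e v y : Fin n} (h : C5 H a b c d e)
    (hv : ∀ j, H.Adj v j ↔ j = y) : v ∉ ({a, b, c, d, e} : Finset (Fin n)) := by
  obtain ⟨h1, h2, h3, h4, h5, ha, hb, hc, hd, he⟩ := h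
  intro hs
  simp only [Finset.mem_insert, Finset.mem_singleton] at hs
  rcases hs with rfl | rfl | rfl | rfl | rfl
  · exact g16_leaf_two hv ha h4
  · exact g16_leaf_two hv hb h1
  · exact g16_leaf_two hv hc h3
  · exact g16_leaf_two hv hd h5
  · exact g16_leaf_two hv he h2


theorem g16_nodup_app {L M : List (Fin n)} (hL : L.Nodup) (hM : M.Nodup)
    (hd : ∀ x ∈ M, x ∉ L) : (L ++ M).Nodup := by
  rw [List.nodup_append]
  refine ⟨hL, hM, fun a ha b hb hab => ?_⟩
  subst hab
  exact hd a hb ha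

theorem no_C4_P3 (m : mvC4P3) (H : SimpleGraph (Fin n)) (q : ℝ) (hq0 : 0 < q) (hq1 : q < 1)
    (hI : ¬ Imp H q) (a b c d v y z : Fin n) (h1 : C4 H a b c d) (h2 : P3 H v y z) : False := by
  have hcl := g16_C4_closed h1
  have nd : ([a, b, c, d] ++ [v, y, z]).Nodup := by
    apply g16_nodup_app (g16_C4_nodup h1) (g16_P3_nodup h2)
    have hv := g16_leaf_notC4 h1 h2.2.1
    have hz := g16_leaf_notC4 h1 h2.2.2.2
    have hy := g16_closed_out hcl ((h2.2.2.1 v).2 (Or.inl rfl)) hv
    intro x hx hx'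
    simp only [List.mem_cons, List.not_mem_nil, or_false] at hx
    rcases hx with rfl | rfl | rfl
    · exact hv (by simpa using hx')
    · exact hy (by simpa using hx')
    · exact hz (by simpa using hx')
  obtain ⟨hac, hbd, ha, hb, hc, hd⟩ := h1
  obtain ⟨hvz, hv, hy, hz⟩ := h2
  apply hI
  refine machine_improve 7 _ _ [] m (by simp) (by decide) H (g16_embL _ nd) ?_ q hq0 hq1
  refine g16_conf_embL H _ nd _ ?_
  intro i j
  fin_cases i <;> simp [Fin.exists_fin_succ, adjL, ha, hb, hc, hd, hv, hy, hz, @eq_comm _ j]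

theorem no_C4_P4 (m : mvC4P4) (H : SimpleGraph (Fin n)) (q : ℝ) (hq0 : 0 < q) (hq1 : q < 1)
    (hI : ¬ Imp H q) (a b c d v y z w : Fin n) (h1 : C4 H a b c d) (h2 : P4 H v y z w) :
    False := by
  have hcl := g16_C4_closed h1
  have nd : ([a, b, c, d] ++ [v, y, z, w]).Nodup := by
    apply g16_nodup_app (g16_C4_nodup h1) (g16_P4_nodup h2)
    have hv := g16_leaf_notC4 h1 h2.2.2.2.1
    have hw := g16_leaf_notC4 h1 h2.2.2.2.2.2.2
    have hy := g16_closed_out hcl ((h2.2.2.2.2.1 v).2 (Or.inl rfl)) hv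
    have hz := g16_closed_out hcl ((h2.2.2.2.2.2.1 w).2 (Or.inr rfl)) hw
    intro x hx hx'
    simp only [List.mem_cons, List.not_mem_nil, or_false] at hx
    rcases hx with rfl | rfl | rfl | rfl
    · exact hv (by simpa using hx')
    · exact hy (by simpa using hx')
    · exact hz (by simpa using hx')
    · exact hw (by simpa using hx')
  obtain ⟨hac, hbd, ha, hb, hc, hd⟩ := h1
  obtain ⟨h1', h2', h3', hv, hy, hz, hw⟩ := h2
  apply hI
  refine machine_improve 8 _ _ [] m (by simp) (by decide) H (g16_embL _ nd) ?_ q hq0 hq1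
  refine g16_conf_embL H _ nd _ ?_
  intro i j
  fin_cases i <;> simp [Fin.exists_fin_succ, adjL, ha, hb, hc, hd, hv, hy, hz, hw, @eq_comm _ j]

theorem no_C4_C4 (m : mvC4C4) (H : SimpleGraph (Fin n)) (q : ℝ) (hq0 : 0 < q) (hq1 : q < 1)
    (hI : ¬ Imp H q) (a b c d v y z w : Fin n) (h1 : C4 H a b c d) (h2 : C4 H v y z w)
    (hne : v ≠ a ∧ v ≠ b ∧ v ≠ c ∧ v ≠ d) : False := by
  have hcl := g16_C4_closed h1
  have nd : ([a, b, c, d] ++ [v, y, z, w]).Nodup := by
    apply g16_nodup_app (g16_C4_nodup h1) (g16_C4_nodup h2)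
    have hv : v ∉ ({a, b, c, d} : Finset (Fin n)) := by simp [hne]
    have hy := g16_closed_out hcl ((h2.2.2.2.1 v).2 (Or.inl rfl)) hv
    have hw := g16_closed_out hcl ((h2.2.2.2.2.2 v).2 (Or.inl rfl)) hv
    have hz := g16_closed_out hcl ((h2.2.2.2.2.1 y).2 (Or.inl rfl)) hy
    intro x hx hx'
    simp only [List.mem_cons, List.not_mem_nil, or_false] at hx
    rcases hx with rfl | rfl | rfl | rfl
    · exact hv (by simpa using hx')
    · exact hy (by simpa using hx')
    · exact hz (by simpa using hx')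
    · exact hw (by simpa using hx')
  obtain ⟨hac, hbd, ha, hb, hc, hd⟩ := h1
  obtain ⟨h1', h2', hv, hy, hz, hw⟩ := h2
  apply hI
  refine machine_improve 8 _ _ [] m (by simp) (by decide) H (g16_embL _ nd) ?_ q hq0 hq1
  refine g16_conf_embL H _ nd _ ?_
  intro i j
  fin_cases i <;> simp [Fin.exists_fin_succ, adjL, ha, hb, hc, hd, hv, hy, hz, hw, @eq_comm _ j]
  all_goals exact or_comm

theorem no_C4_C5 (m : mvC4C5) (H : SimpleGraph (Fin n)) (q : ℝ) (hq0 : 0 < q) (hq1 : q < 1)
    (hI : ¬ Imp H q) (a b c d v y z w t : Fin n) (h1 : C4 H a b c d) (h2 : C5 H v y z w t) :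
    False := by
  have hcl := g16_C4_closed h1
  have nd : ([a, b, c, d] ++ [v, y, z, w, t]).Nodup := by
    apply g16_nodup_app (g16_C4_nodup h1) (g16_C5_nodup h2)
    have nd5 := g16_C5_nodup h2
    obtain ⟨h1', h2', h3', h4', h5', hv, hy, hz, hw, ht⟩ := h2
    have hvS : v ∉ ({a, b, c, d} : Finset (Fin n)) := by
      intro h
      have hy' := hcl v h y ((hv y).2 (Or.inl rfl))
      have ht' := hcl v h t ((hv t).2 (Or.inr rfl))
      have hz' := hcl y hy' z ((hy z).2 (Or.inr rfl))
      have hw' := hcl z hz' w ((hz w).2 (Or.inr rfl))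
      have hsub : [v, y, z, w, t].toFinset ⊆ ({a, b, c, d} : Finset (Fin n)) := by
        intro x hx
        simp only [List.mem_toFinset, List.mem_cons, List.not_mem_nil, or_false] at hx
        rcases hx with rfl | rfl | rfl | rfl | rfl <;> assumption
      have h5 := Finset.card_le_card hsub
      rw [List.toFinset_card_of_nodup nd5] at h5
      have h6 := Finset.card_le_four (a := a) (b := b) (c := c) (d := d)
      simp only [List.length_cons, List.length_nil] at h5
      omega
    have hyS := g16_closed_out hcl ((hy v).2 (Or.inl rfl)) hvS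
    have htS := g16_closed_out hcl ((ht v).2 (Or.inl rfl)) hvS
    have hzS := g16_closed_out hcl ((hz y).2 (Or.inl rfl)) hyS
    have hwS := g16_closed_out hcl ((hw z).2 (Or.inl rfl)) hzS
    intro x hx hx'
    simp only [List.mem_cons, List.not_mem_nil, or_false] at hx
    rcases hx with rfl | rfl | rfl | rfl | rfl
    · exact hvS (by simpa using hx')
    · exact hyS (by simpa using hx')
    · exact hzS (by simpa using hx')
    · exact hwS (by simpa using hx')
    · exact htS (by simpa using hx')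
  obtain ⟨hac, hbd, ha, hb, hc, hd⟩ := h1
  obtain ⟨h1', h2', h3', h4', h5', hv, hy, hz, hw, ht⟩ := h2
  apply hI
  refine machine_improve 9 _ _ [] m (by simp) (by decide) H (g16_embL _ nd) ?_ q hq0 hq1
  refine g16_conf_embL H _ nd _ ?_
  intro i j
  fin_cases i <;> simp [Fin.exists_fin_succ, adjL, ha, hb, hc, hd, hv, hy, hz, hw, ht,
    @eq_comm _ j]
  all_goals exact or_comm

theorem no_C5_P3 (m : mvC5P3) (H : SimpleGraph (Fin n)) (q : ℝ) (hq0 : 0 < q) (hq1 : q < 1)
    (hI : ¬ Imp H q) (a b c d e v y z : Fin n) (h1 : C5 H a b c d e) (h2 : P3 H v y z) :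
    False := by
  have hcl := g16_C5_closed h1
  have nd : ([a, b, c, d, e] ++ [v, y, z]).Nodup := by
    apply g16_nodup_app (g16_C5_nodup h1) (g16_P3_nodup h2)
    have hv := g16_leaf_notC5 h1 h2.2.1
    have hz := g16_leaf_notC5 h1 h2.2.2.2
    have hy := g16_closed_out hcl ((h2.2.2.1 v).2 (Or.inl rfl)) hv
    intro x hx hx'
    simp only [List.mem_cons, List.not_mem_nil, or_false] at hx
    rcases hx with rfl | rfl | rfl
    · exact hv (by simpa using hx')
    · exact hy (by simpa using hx')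
    · exact hz (by simpa using hx')
  obtain ⟨_, _, _, _, _, ha, hb, hc, hd, he⟩ := h1
  obtain ⟨hvz, hv, hy, hz⟩ := h2
  apply hI
  refine machine_improve 8 _ _ [] m (by simp) (by decide) H (g16_embL _ nd) ?_ q hq0 hq1
  refine g16_conf_embL H _ nd _ ?_
  intro i j
  fin_cases i <;> simp [Fin.exists_fin_succ, adjL, ha, hb, hc, hd, he, hv, hy, hz, @eq_comm _ j]

theorem no_C5_C5 (m : mvC5C5) (H : SimpleGraph (Fin n)) (q : ℝ) (hq0 : 0 < q) (hq1 : q < 1)
    (hI : ¬ Imp H q) (a b c d e v y z w t : Fin n) (h1 : C5 H a b c d e)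
    (h2 : C5 H v y z w t) (hne : v ≠ a ∧ v ≠ b ∧ v ≠ c ∧ v ≠ d ∧ v ≠ e) : False := by
  have hcl := g16_C5_closed h1
  have nd : ([a, b, c, d, e] ++ [v, y, z, w, t]).Nodup := by
    apply g16_nodup_app (g16_C5_nodup h1) (g16_C5_nodup h2)
    obtain ⟨h1', h2', h3', h4', h5', hv, hy, hz, hw, ht⟩ := h2
    have hvS : v ∉ ({a, b, c, d, e} : Finset (Fin n)) := by simp [hne]
    have hyS := g16_closed_out hcl ((hy v).2 (Or.inl rfl)) hvS
    have htS := g16_closed_out hcl ((ht v).2 (Or.inl rfl)) hvS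
    have hzS := g16_closed_out hcl ((hz y).2 (Or.inl rfl)) hyS
    have hwS := g16_closed_out hcl ((hw z).2 (Or.inl rfl)) hzS
    intro x hx hx'
    simp only [List.mem_cons, List.not_mem_nil, or_false] at hx
    rcases hx with rfl | rfl | rfl | rfl | rfl
    · exact hvS (by simpa using hx')
    · exact hyS (by simpa using hx')
    · exact hzS (by simpa using hx')
    · exact hwS (by simpa using hx')
    · exact htS (by simpa using hx')
  obtain ⟨_, _, _, _, _, ha, hb, hc, hd, he⟩ := h1
  obtain ⟨h1', h2', h3', h4', h5', hv, hy, hz, hw, ht⟩ := h2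
  apply hI
  refine machine_improve 10 _ _ [] m (by simp) (by decide) H (g16_embL _ nd) ?_ q hq0 hq1
  refine g16_conf_embL H _ nd _ ?_
  intro i j
  fin_cases i <;> simp [Fin.exists_fin_succ, adjL, ha, hb, hc, hd, he, hv, hy, hz, hw, ht,
    @eq_comm _ j]
  all_goals exact or_comm


theorem g16_two_nbrs {H : SimpleGraph (Fin n)} {v a b : Fin n} (h2 : dg H v ≤ 2) (hab : a ≠ b)
    (ha : H.Adj v a) (hb : H.Adj v b) : ∀ j, H.Adj v j ↔ j = a ∨ j = b := by
  classical
  have hsub : ({a, b} : Finset (Fin n)) ⊆ Finset.univ.filter fun j => H.Adj v j := by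
    intro x hx
    simp only [Finset.mem_insert, Finset.mem_singleton] at hx
    rcases hx with rfl | rfl <;> simp [ha, hb]
  have hc : ({a, b} : Finset (Fin n)).card = 2 := Finset.card_pair hab
  have heq : ({a, b} : Finset (Fin n)) = Finset.univ.filter fun j => H.Adj v j := by
    apply Finset.eq_of_subset_of_card_le hsub
    rw [hc]
    have : dg H v = (Finset.univ.filter fun j => H.Adj v j).card := by
      unfold dg; congr
    omega
  intro j
  constructor
  · intro hj
    have : j ∈ (Finset.univ.filter fun j => H.Adj v j) := by simp [hj]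
    rw [← heq] at this
    simpa using this
  · rintro (rfl | rfl)
    · exact ha
    · exact hb

theorem g16_dg_two_of {H : SimpleGraph (Fin n)} {v a b : Fin n} (hab : a ≠ b)
    (h : ∀ j, H.Adj v j ↔ j = a ∨ j = b) : dg H v = 2 := by
  classical
  have : (Finset.univ.filter fun j => H.Adj v j) = {a, b} := by
    ext j; simp [h]
  have h2 : dg H v = (Finset.univ.filter fun j => H.Adj v j).card := by
    unfold dg; congr
  rw [h2, this, Finset.card_pair hab]

/-- number of degree two vertices in triangles is divisible by three. -/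
theorem tri_dvd (H : SimpleGraph (Fin n)) (h2 : ∀ v, dg H v ≤ 2) (D : Finset (Fin n))
    (hD : ∀ v, v ∈ D ↔ ∃ a b, a ≠ b ∧ H.Adj v a ∧ H.Adj v b ∧ H.Adj a b) : 3 ∣ D.card := by
  classical
  let T : Fin n → Finset (Fin n) := fun v => insert v (Finset.univ.filter fun j => H.Adj v j)
  have hT : ∀ v a b, a ≠ b → H.Adj v a → H.Adj v b → T v = {v, a, b} := by
    intro v a b hab ha hb
    have := g16_two_nbrs (h2 v) hab ha hb
    ext j
    simp [T, this]
  rw [Finset.card_eq_sum_card_image T]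
  apply Finset.dvd_sum
  intro c hc
  rw [Finset.mem_image] at hc
  obtain ⟨v, hv, rfl⟩ := hc
  obtain ⟨a, b, hab, hva, hvb, hadj⟩ := (hD v).1 hv
  have hTv := hT v a b hab hva hvb
  have hTa := hT a v b hvb.ne hva.symm hadj
  have hTb := hT b v a hva.ne hvb.symm hadj.symm
  have hcard : (T v).card = 3 := by
    rw [hTv]
    exact Finset.card_eq_three.2 ⟨v, a, b, hva.ne, hvb.ne, hab, rfl⟩
  have : D.filter (fun z => T z = T v) = T v := by
    ext z
    rw [Finset.mem_filter]
    constructor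
    · rintro ⟨-, h⟩
      rw [← h]
      exact Finset.mem_insert_self _ _
    · intro h
      rw [hTv] at h
      simp only [Finset.mem_insert, Finset.mem_singleton] at h
      rcases h with rfl | rfl | rfl
      · exact ⟨hv, rfl⟩
      · refine ⟨(hD z).2 ⟨v, b, hvb.ne, hva.symm, hadj, hvb⟩, ?_⟩
        rw [hTa, hTv]
        ext j; simp only [Finset.mem_insert, Finset.mem_singleton]; tauto
      · refine ⟨(hD z).2 ⟨v, a, hva.ne, hvb.symm, hadj.symm, hva⟩, ?_⟩
        rw [hTb, hTv]
        ext j; simp only [Finset.mem_insert, Finset.mem_singleton]; tauto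
  rw [this, hcard]

/-- **main structure theorem**. -/
theorem noImp_TE (M : AllMoves) (H : SimpleGraph (Fin n)) (q : ℝ) (hq0 : 0 < q) (hq1 : q < 1)
    (hI : ¬ Imp H q) (a : ℕ) (ha : 1 ≤ a) (han : a + 4 ≤ n) (ha3 : 3 ∣ a)
    (hsum : ∑ v, dg H v = n + a) : TE H := by
  classical
  have hle : ∀ v, dg H v ≤ 2 := fun v =>
    maxdeg_two M.m5 M.m6 M.m34 M.m3T M.m44 M.m4T M.mTT M.m333 H q hq0 hq1 hI a ha han hsum v
  have hge : ∀ v, 1 ≤ dg H v := fun v => no_isolated H q hq0 hq1 hI (by omega) v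
  have h12 : ∀ v, dg H v = 1 ∨ dg H v = 2 := fun v => by
    have := hle v; have := hge v; omega
  have hcases := two_cases M.m5 M.m6 M.c6 M.c7 M.l7 H q hq0 hq1 hI hge hle
  let D2 : Finset (Fin n) := Finset.univ.filter fun v => dg H v = 2
  let D : Finset (Fin n) := Finset.univ.filter fun v =>
    ∃ a b, a ≠ b ∧ H.Adj v a ∧ H.Adj v b ∧ H.Adj a b
  have hD : ∀ v, v ∈ D ↔ ∃ a b, a ≠ b ∧ H.Adj v a ∧ H.Adj v b ∧ H.Adj a b := by
    intro v; simp [D]
  have hDD : D ⊆ D2 := by
    intro v hv
    obtain ⟨x, y, hxy, hx, hy, _⟩ := (hD v).1 hv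
    have := g16_dg_two_of hxy (g16_two_nbrs (hle v) hxy hx hy)
    simp [D2, this]
  have hcard2 : D2.card = a := by
    have h1 : ∑ v, dg H v = ∑ v : Fin n, (1 + if dg H v = 2 then 1 else 0) := by
      apply Finset.sum_congr rfl
      intro v _
      rcases h12 v with h | h <;> simp [h]
    rw [h1, Finset.sum_add_distrib, Finset.sum_const, Finset.card_univ, Fintype.card_fin,
      smul_eq_mul, mul_one, Finset.sum_boole] at hsum
    simp only [Nat.cast_id] at hsum
    show (Finset.univ.filter fun v => dg H v = 2).card = a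
    omega
  have hdv := tri_dvd H hle D hD
  let E : Finset (Fin n) := D2 \ D
  have hEc : E.card + D.card = a := by
    rw [← hcard2]; exact Finset.card_sdiff_add_card_eq_card hDD
  have hE3 : 3 ∣ E.card := (Nat.dvd_add_left hdv).1 (hEc ▸ ha3)
  have hEmem : ∀ v, v ∈ E ↔ dg H v = 2 ∧ ¬ ∃ a b, a ≠ b ∧ H.Adj v a ∧ H.Adj v b ∧ H.Adj a b := by
    intro v
    simp only [E, Finset.mem_sdiff, hD]
    simp [D2]
  have hEcase : ∀ v ∈ E, (∃ a b, P3 H a v b) ∨ (∃ a b c, P4 H a v b c) ∨
      (∃ a b c, C4 H v a b c) ∨ (∃ a b c d, C5 H v a b c d) := by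
    intro v hv
    obtain ⟨h1, h2⟩ := (hEmem v).1 hv
    rcases hcases v h1 with h | h
    · exact absurd h h2
    · exact h
  -- membership criterion
  have hEin : ∀ v x y, x ≠ y → (∀ j, H.Adj v j ↔ j = x ∨ j = y) → ¬ H.Adj x y → v ∈ E := by
    intro v x y hxy h hn
    rw [hEmem]
    refine ⟨g16_dg_two_of hxy h, ?_⟩
    rintro ⟨s, t, hst, hs, ht, hadj⟩
    rcases (h s).1 hs with rfl | rfl <;> rcases (h t).1 ht with rfl | rfl
    · exact hst rfl
    · exact hn hadj
    · exact hn hadj.symm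
    · exact hst rfl
  have hEempty : E = ∅ := by
    by_contra hEne
    by_cases hC4 : ∃ a b c d, C4 H a b c d
    · obtain ⟨x, y, z, w, h⟩ := hC4
      have hEeq : E = [x, y, z, w].toFinset := by
        ext v
        simp only [List.mem_toFinset, List.mem_cons, List.not_mem_nil, or_false]
        constructor
        · intro hv
          rcases hEcase v hv with ⟨r, s, h'⟩ | ⟨r, s, t, h'⟩ | ⟨r, s, t, h'⟩ | ⟨r, s, t, u, h'⟩
          · exact (no_C4_P3 M.c43 H q hq0 hq1 hI _ _ _ _ _ _ _ h h').elim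
          · exact (no_C4_P4 M.c44 H q hq0 hq1 hI _ _ _ _ _ _ _ _ h h').elim
          · by_contra hcon
            push Not at hcon
            exact no_C4_C4 M.cc44 H q hq0 hq1 hI _ _ _ _ _ _ _ _ h h' hcon
          · exact (no_C4_C5 M.cc45 H q hq0 hq1 hI _ _ _ _ _ _ _ _ _ h h').elim
        · have nd := g16_C4_nodup h
          obtain ⟨hac, hbd, hx, hy, hz, hw⟩ := h
          simp only [List.nodup_cons, List.mem_cons, List.not_mem_nil, or_false, not_or] at nd
          rintro (rfl | rfl | rfl | rfl)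
          · exact hEin _ y w hbd hx (by rw [hy]; tauto)
          · exact hEin _ x z hac hy (by rw [hx]; tauto)
          · exact hEin _ y w hbd hz (by rw [hy]; tauto)
          · exact hEin _ x z hac hw (by rw [hx]; tauto)
      rw [hEeq, List.toFinset_card_of_nodup (g16_C4_nodup h)] at hE3
      revert hE3; simp; try decide
    by_cases hC5 : ∃ a b c d e, C5 H a b c d e
    · obtain ⟨x, y, z, w, t, h⟩ := hC5
      have h5E : ∀ v ∈ [x, y, z, w, t].toFinset, v ∈ E := by
        intro v hv
        simp only [List.mem_toFinset, List.mem_cons, List.not_mem_nil, or_false] at hv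
        have nd := g16_C5_nodup h
        obtain ⟨h1, h2, h3, h4, h5, hx, hy, hz, hw, ht⟩ := h
        simp only [List.nodup_cons, List.mem_cons, List.not_mem_nil, or_false, not_or] at nd
        rcases hv with rfl | rfl | rfl | rfl | rfl
        · exact hEin _ y t h4 hx (by rw [hy]; tauto)
        · exact hEin _ x z h1 hy (by rw [hx]; tauto)
        · exact hEin _ y w h3 hz (by rw [hy]; tauto)
        · exact hEin _ z t h5 hw (by rw [hz]; tauto)
        · exact hEin _ x w h2 ht (by rw [hx]; tauto)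
      have hEcase' : ∀ v ∈ E, v ∈ [x, y, z, w, t].toFinset ∨ (∃ a b c, P4 H a v b c) := by
        intro v hv
        rcases hEcase v hv with ⟨r, s, h'⟩ | h' | ⟨r, s, u, h'⟩ | ⟨r, s, u, u', h'⟩
        · exact (no_C5_P3 M.c53 H q hq0 hq1 hI _ _ _ _ _ _ _ _ h h').elim
        · exact Or.inr h'
        · exact absurd ⟨_, _, _, _, h'⟩ hC4
        · left
          simp only [List.mem_toFinset, List.mem_cons, List.not_mem_nil, or_false]
          by_contra hcon
          push Not at hcon
          exact no_C5_C5 M.cc55 H q hq0 hq1 hI _ _ _ _ _ _ _ _ _ _ h h' hcon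
      by_cases hP4 : ∃ a b c d, P4 H a b c d
      · obtain ⟨p, r, s, u, h'⟩ := hP4
        have hEeq : E = ([x, y, z, w, t] ++ [r, s]).toFinset := by
          ext v
          rw [List.toFinset_append, Finset.mem_union]
          constructor
          · intro hv
            rcases hEcase' v hv with h1 | ⟨p', s', u', h2⟩
            · exact Or.inl h1
            · right
              simp only [List.mem_toFinset, List.mem_cons, List.not_mem_nil, or_false]
              by_cases e1 : p' = p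
              · subst e1
                left
                exact (h'.2.2.2.1 v).1 ((h2.2.2.2.1 v).2 rfl)
              · by_cases e2 : p' = u
                · subst e2
                  right
                  exact (h'.2.2.2.2.2.2 v).1 ((h2.2.2.2.1 v).2 rfl)
                · exact (no_P4_P4 M.m44 H q hq0 hq1 hI _ _ _ _ _ _ _ _ h' h2 e1 e2).elim
          · rintro (hv | hv)
            · exact h5E v hv
            · simp only [List.mem_toFinset, List.mem_cons, List.not_mem_nil, or_false] at hv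
              have nd := g16_P4_nodup h'
              obtain ⟨h1, h2, h3, hp, hr, hs, hu⟩ := h'
              simp only [List.nodup_cons, List.mem_cons, List.not_mem_nil, or_false,
                not_or] at nd
              rcases hv with rfl | rfl
              · exact hEin _ p s h1 hr (by rw [hp]; tauto)
              · exact hEin _ r u h2 hs (by rw [hr]; tauto)
        have nd7 : ([x, y, z, w, t] ++ [r, s]).Nodup := by
          apply g16_nodup_app (g16_C5_nodup h)
          · have := g16_P4_nodup h'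
            simp only [List.nodup_cons, List.mem_cons, List.not_mem_nil, or_false, not_or] at this ⊢
            tauto
          · have hcl := g16_C5_closed h
            have hp := g16_leaf_notC5 h h'.2.2.2.1
            have hu := g16_leaf_notC5 h h'.2.2.2.2.2.2
            have hr := g16_closed_out hcl ((h'.2.2.2.2.1 p).2 (Or.inl rfl)) hp
            have hs := g16_closed_out hcl ((h'.2.2.2.2.2.1 u).2 (Or.inr rfl)) hu
            intro k hk hk'
            simp only [List.mem_cons, List.not_mem_nil, or_false] at hk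
            rcases hk with rfl | rfl
            · exact hr (by simpa using hk')
            · exact hs (by simpa using hk')
        rw [hEeq, List.toFinset_card_of_nodup nd7] at hE3
        revert hE3; simp; try decide
      · have hEeq : E = [x, y, z, w, t].toFinset := by
          ext v
          constructor
          · intro hv
            rcases hEcase' v hv with h1 | ⟨p', s', u', h2⟩
            · exact h1
            · exact absurd ⟨_, _, _, _, h2⟩ hP4
          · exact h5E v
        rw [hEeq, List.toFinset_card_of_nodup (g16_C5_nodup h)] at hE3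
        revert hE3; simp; try decide
    by_cases hP4 : ∃ a b c d, P4 H a b c d
    · obtain ⟨p, r, s, u, h'⟩ := hP4
      have hEeq : E = [r, s].toFinset := by
        ext v
        simp only [List.mem_toFinset, List.mem_cons, List.not_mem_nil, or_false]
        constructor
        · intro hv
          rcases hEcase v hv with ⟨r', s', h2⟩ | ⟨p', s', u', h2⟩ | ⟨r', s', t', h2⟩ |
            ⟨r', s', t', u', h2⟩
          · exact (no_P3_P4 M.m34 H q hq0 hq1 hI _ _ _ _ _ _ _ h2 h').elim
          · by_cases e1 : p' = p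
            · subst e1
              left
              exact (h'.2.2.2.1 v).1 ((h2.2.2.2.1 v).2 rfl)
            · by_cases e2 : p' = u
              · subst e2
                right
                exact (h'.2.2.2.2.2.2 v).1 ((h2.2.2.2.1 v).2 rfl)
              · exact (no_P4_P4 M.m44 H q hq0 hq1 hI _ _ _ _ _ _ _ _ h' h2 e1 e2).elim
          · exact absurd ⟨_, _, _, _, h2⟩ hC4
          · exact absurd ⟨_, _, _, _, _, h2⟩ hC5
        · intro hv
          have nd := g16_P4_nodup h'
          obtain ⟨h1, h2, h3, hp, hr, hs, hu⟩ := h'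
          simp only [List.nodup_cons, List.mem_cons, List.not_mem_nil, or_false,
            not_or] at nd
          rcases hv with rfl | rfl
          · exact hEin _ p s h1 hr (by rw [hp]; tauto)
          · exact hEin _ r u h2 hs (by rw [hr]; tauto)
      have nd2 : [r, s].Nodup := by
        have := g16_P4_nodup h'
        simp only [List.nodup_cons, List.mem_cons, List.not_mem_nil, or_false, not_or] at this ⊢
        tauto
      rw [hEeq, List.toFinset_card_of_nodup nd2] at hE3
      revert hE3; simp; try decide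
    · -- only P3's
      have hEP3 : ∀ v ∈ E, ∃ a b, P3 H a v b := by
        intro v hv
        rcases hEcase v hv with h | ⟨p', s', u', h2⟩ | ⟨r', s', t', h2⟩ | ⟨r', s', t', u', h2⟩
        · exact h
        · exact absurd ⟨_, _, _, _, h2⟩ hP4
        · exact absurd ⟨_, _, _, _, h2⟩ hC4
        · exact absurd ⟨_, _, _, _, _, h2⟩ hC5
      have hEle : E.card ≤ 2 := by
        by_contra hcon
        push Not at hcon
        obtain ⟨v1, hv1, v2, hv2, v3, hv3, h12', h13', h23'⟩ := Finset.two_lt_card.1 hcon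
        obtain ⟨a1, b1, k1⟩ := hEP3 v1 hv1
        obtain ⟨a2, b2, k2⟩ := hEP3 v2 hv2
        obtain ⟨a3, b3, k3⟩ := hEP3 v3 hv3
        exact no_3P3 M.m333 H q hq0 hq1 hI _ _ _ _ _ _ _ _ _ k1 k2 k3 h12' h13' h23'
      have hEpos : 0 < E.card := Finset.card_pos.2 (Finset.nonempty_iff_ne_empty.2 hEne)
      omega
  refine ⟨h12, ?_⟩
  intro u v w huv hvw huw
  have hv2 := g16_two_nbrs (hle v) huw huv.symm hvw
  have hd2 := g16_dg_two_of huw hv2
  have hvE : v ∉ E := by rw [hEempty]; simp
  rw [hEmem] at hvE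
  push Not at hvE
  obtain ⟨s, t, hst, hs, ht, hadj⟩ := hvE hd2
  rcases (hv2 s).1 hs with rfl | rfl <;> rcases (hv2 t).1 ht with rfl | rfl
  · exact absurd rfl hst
  · exact hadj
  · exact hadj.symm
  · exact absurd rfl hst

end Pool.Agent.H34R2.U
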