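import Pool.Agent.H34R2.U.G20
import Pool.Agent.H34R2.U.G16

/-! TASK G22: maximum degree two when `n - 2` or `n` extra half edges are present. -/

set_option autoImplicit false

namespace Pool.Agent.H34R2.U

open Finset

variable {n : ℕ}

/-- all moves with slots together -/
structure SlotMoves : Prop where
  p3a : svP3a
  p3b : svP3b
  p4 : svP4
  tail : svTail

/-- lower bound for the total excess by the neighbourhood of a big vertex -/
theorem g22_nbr (H : SimpleGraph (Fin n)) (u : Fin n)
    (h : ∀ x, H.Adj u x → 3 ≤ dg H x) : (dg H u - 2) + dg H u ≤ ∑ v, (dg H v - 2) := by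
  classical
  set N : Finset (Fin n) := univ.filter fun j => H.Adj u j with hN
  have h1 : N.card = dg H u := by
    unfold dg
    rw [hN]
  have h2 : u ∉ N := by
    rw [hN, Finset.mem_filter]
    exact fun h => H.loopless.irrefl u h.2
  have h3 : N.card ≤ ∑ v ∈ N, (dg H v - 2) := by
    have : ∑ _v ∈ N, 1 ≤ ∑ v ∈ N, (dg H v - 2) := by
      refine Finset.sum_le_sum fun v hv => ?_
      have := h v (Finset.mem_filter.1 hv).2
      omega
    simpa using this
  have h4 : ∑ v ∈ insert u N, (dg H v - 2) ≤ ∑ v, (dg H v - 2) :=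
    Finset.sum_le_sum_of_subset (Finset.subset_univ _)
  rw [Finset.sum_insert h2] at h4
  omega

/-- `d = 0`: `n` edges; `d = 2`: `n - 1` edges. -/
theorem maxdeg_two' (M : AllMoves) (S : SlotMoves) (H : SimpleGraph (Fin n)) (q : ℝ)
    (hq0 : 0 < q) (hq1 : q < 1) (hI : ¬ Imp H q) (d : ℕ) (hd : d = 0 ∨ d = 2) (hn : 3 ≤ n)
    (hsum : (∑ v, dg H v) + d = 2 * n) (u : Fin n) : dg H u ≤ 2 := by
  classical
  by_contra hu
  have hu3 : 3 ≤ dg H u := by omega
  have hK : ∀ v y, ¬ K2 H v y := fun v y h => hu (K2_maxdeg H q hq0 hq1 hI v y h u)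
  have hno : ∀ v, 1 ≤ dg H v := fun v => no_isolated H q hq0 hq1 hI (by omega) v
  set Lf : Finset (Fin n) := univ.filter fun v => dg H v = 1 with hLf
  set Sx : ℕ := ∑ v, (dg H v - 2) with hSx
  have hcount : Lf.card = d + Sx := by
    have h1 : ∀ v : Fin n, dg H v + (if dg H v = 1 then 1 else 0) = 2 + (dg H v - 2) := by
      intro v
      have := hno v
      split_ifs <;> omega
    have h2 := Finset.sum_congr (rfl : (univ : Finset (Fin n)) = univ) (fun v _ => h1 v)
    rw [Finset.sum_add_distrib, Finset.sum_add_distrib, Finset.sum_const, Finset.card_univ,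
      Fintype.card_fin, smul_eq_mul] at h2
    have h3 : Lf.card = ∑ v : Fin n, if dg H v = 1 then 1 else 0 := by
      rw [hLf, Finset.card_filter]
    omega
  have hcases : ∀ v ∈ Lf, (∃ y z, P3 H v y z) ∨ (∃ y z w, P4 H v y z w) ∨
      (∃ y z w t, Tail H v y z w t) := by
    intro v hv
    rw [hLf, Finset.mem_filter] at hv
    rcases leaf_cases M.m5 M.m6 H q hq0 hq1 hI v hv.2 with ⟨y, h⟩ | h
    · exact absurd h (hK v y)
    · exact h
  by_cases hP3 : ∃ a0 b0 c0, P3 H a0 b0 c0
  · obtain ⟨a0, b0, c0, h0⟩ := hP3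
    have hall : ∀ v ∈ Lf, ∃ y z, P3 H v y z := by
      intro v hv
      rcases hcases v hv with h | ⟨y, z, w, h⟩ | ⟨y, z, w, t, h⟩
      · exact h
      · exact (no_P3_P4 M.m34 H q hq0 hq1 hI a0 b0 c0 v y z w h0 h).elim
      · exact (no_P3_Tail M.m3T H q hq0 hq1 hI a0 b0 c0 v y z w t h0 h).elim
    have hL4 : Lf.card ≤ 4 := by
      by_cases h2 : ∃ d e f, P3 H d e f ∧ b0 ≠ e
      · obtain ⟨d, e, f, h1, hne⟩ := h2
        have hsub : Lf ⊆ {a0, c0, d, f} := by
          intro v hv
          obtain ⟨y, z, h⟩ := hall v hv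
          simp only [Finset.mem_insert, Finset.mem_singleton]
          by_cases hy : b0 = y
          · subst hy
            rcases (h0.2.2.1 v).1 h.g14facts.2.1 with h3 | h3
            · exact Or.inl h3
            · exact Or.inr (Or.inl h3)
          · by_cases hy2 : e = y
            · subst hy2
              rcases (h1.2.2.1 v).1 h.g14facts.2.1 with h3 | h3
              · exact Or.inr (Or.inr (Or.inl h3))
              · exact Or.inr (Or.inr (Or.inr h3))
            · exact (no_3P3 M.m333 H q hq0 hq1 hI a0 b0 c0 d e f v y z h0 h1 h hne hy hy2).elim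
        exact (Finset.card_le_card hsub).trans Finset.card_le_four
      · have hsub : Lf ⊆ {a0, c0} := by
          intro v hv
          obtain ⟨y, z, h⟩ := hall v hv
          have hy : b0 = y := by
            by_contra hy
            exact h2 ⟨v, y, z, h, hy⟩
          subst hy
          simp only [Finset.mem_insert, Finset.mem_singleton]
          exact (h0.2.2.1 v).1 h.g14facts.2.1
        have := (Finset.card_le_card hsub).trans Finset.card_le_two
        omega
    have key : ∀ s : Fin n, 4 ≤ dg H s → False := by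
      intro s hs
      have h1 := g22_nbr H s (fun x hx =>
        (P3_nbr S.p3a S.p3b H q hq0 hq1 hI a0 b0 c0 h0 s x (by omega) hx).1)
      rw [← hSx] at h1
      omega
    rcases (show dg H u = 3 ∨ 4 ≤ dg H u by omega) with h3 | h4
    · obtain ⟨x, hx, _⟩ := G13Aux.exists_nb (show 2 ≤ dg H u by omega) u
      exact key x ((P3_nbr S.p3a S.p3b H q hq0 hq1 hI a0 b0 c0 h0 u x hu3 hx).2 h3)
    · exact key u h4
  · by_cases hP4 : ∃ a0 b0 c0 d0, P4 H a0 b0 c0 d0
    · obtain ⟨a0, b0, c0, d0, h0⟩ := hP4
      have hsub : Lf ⊆ {a0, d0} := by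
        intro v hv
        simp only [Finset.mem_insert, Finset.mem_singleton]
        rcases hcases v hv with ⟨y, z, h⟩ | ⟨y, z, w, h⟩ | ⟨y, z, w, t, h⟩
        · exact absurd ⟨v, y, z, h⟩ hP3
        · by_contra hne
          push Not at hne
          exact no_P4_P4 M.m44 H q hq0 hq1 hI a0 b0 c0 d0 v y z w h0 h hne.1 hne.2
        · exact (no_P4_Tail M.m4T H q hq0 hq1 hI a0 b0 c0 d0 v y z w t h0 h).elim
      have h4 := (Finset.card_le_card hsub).trans Finset.card_le_two
      have h1 := g22_nbr H u (fun x hx =>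
        P4_nbr S.p4 H q hq0 hq1 hI a0 b0 c0 d0 h0 u x hu3 hx)
      rw [← hSx] at h1
      omega
    · have hall : ∀ v ∈ Lf, ∃ t y z w, Tail H v y z w t := by
        intro v hv
        rcases hcases v hv with ⟨y, z, h⟩ | ⟨y, z, w, h⟩ | ⟨y, z, w, t, h⟩
        · exact absurd ⟨v, y, z, h⟩ hP3
        · exact absurd ⟨v, y, z, w, h⟩ hP4
        · exact ⟨t, y, z, w, h⟩
      choose! T hT using hall
      have hinj : Set.InjOn T (Lf : Set (Fin n)) := by
        intro v hv v' hv' heq
        obtain ⟨y, z, w, h⟩ := hT v hv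
        obtain ⟨y', z', w', h'⟩ := hT v' hv'
        rw [heq] at h
        exact no_Tail_Tail M.mTT H q hq0 hq1 hI v y z w v' y' z' w' (T v') h h'
      have h1 : ∑ v ∈ Lf.image T, (dg H v - 2) ≤ Sx :=
        Finset.sum_le_sum_of_subset (Finset.subset_univ _)
      rw [Finset.sum_image hinj] at h1
      have h2 : 2 * Lf.card ≤ ∑ v ∈ Lf, (dg H (T v) - 2) := by
        have : ∑ _v ∈ Lf, 2 ≤ ∑ v ∈ Lf, (dg H (T v) - 2) := by
          refine Finset.sum_le_sum fun v hv => ?_
          obtain ⟨y, z, w, h⟩ := hT v hv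
          have := Tail_host S.tail H q hq0 hq1 hI v y z w (T v) h
          omega
        rw [Finset.sum_const, smul_eq_mul] at this
        omega
      have h3 : dg H u - 2 ≤ Sx :=
        Finset.single_le_sum (f := fun v => dg H v - 2) (fun _ _ => Nat.zero_le _)
          (Finset.mem_univ u)
      omega

end Pool.Agent.H34R2.U
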