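import Pool.Agent.H34R2.U.G24

/-! TASK G25: short description of the extremal graphs for `n` missing edges. -/

set_option autoImplicit false

namespace Pool.Agent.H34R2.U

open Finset
open Classical

variable {n : ℕ}

theorem g25_nb2 (H : SimpleGraph (Fin n)) (a v : Fin n) (h2 : dg H a = 2) (h : H.Adj a v) :
    ∃ c, c ≠ v ∧ ∀ j, H.Adj a j ↔ j = v ∨ j = c := by
  unfold dg at h2
  obtain ⟨s, t, hst, hE⟩ := Finset.card_eq_two.1 h2
  have hm : ∀ j, H.Adj a j ↔ j = s ∨ j = t := by
    intro j
    have : j ∈ (univ.filter fun j => H.Adj a j) ↔ j ∈ ({s, t} : Finset (Fin n)) := by rw [hE]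
    simpa using this
  rcases (hm v).1 h with rfl | rfl
  · exact ⟨t, hst.symm, hm⟩
  · exact ⟨s, hst, fun j => (hm j).trans or_comm⟩

theorem g25_two (H : SimpleGraph (Fin n)) (a v w : Fin n) (h2 : dg H a = 2) (h : H.Adj a v)
    (h' : H.Adj a w) (hvw : v ≠ w) : ∀ j, H.Adj a j ↔ j = v ∨ j = w := by
  obtain ⟨c, hc, hj⟩ := g25_nb2 H a v h2 h
  rcases (hj w).1 h' with h3 | h3
  · exact absurd h3.symm hvw
  · rw [h3]; exact hj

/-- a graph is of type `TC` iff it is 2-regular and at most five vertices lie in no triangle. -/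
theorem TC_iff (H : SimpleGraph (Fin n)) :
    TC H ↔ ((∀ v, dg H v = 2) ∧
      (univ.filter fun v => ¬ ∃ a b, H.Adj v a ∧ H.Adj v b ∧ H.Adj a b).card ≤ 5) := by
  constructor
  · rintro ⟨h2, h⟩
    refine ⟨h2, ?_⟩
    rcases h with h | ⟨a, b, c, d, -, h⟩ | ⟨a, b, c, d, e, -, h⟩
    · rw [Finset.filter_false_of_mem]
      · simp
      · intro v _ hv
        obtain ⟨x, y, -, h3⟩ := h v
        exact hv ⟨x, y, h3⟩
    · have hs : (univ.filter fun v => ¬ ∃ a b, H.Adj v a ∧ H.Adj v b ∧ H.Adj a b) ⊆
          {a, b, c, d} := by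
        intro v hv
        rw [mem_filter] at hv
        by_contra hn
        simp only [mem_insert, mem_singleton, not_or] at hn
        obtain ⟨x, y, -, h3⟩ := h v hn.1 hn.2.1 hn.2.2.1 hn.2.2.2
        exact hv.2 ⟨x, y, h3⟩
      exact (card_le_card hs).trans (card_le_four.trans (by norm_num))
    · have hs : (univ.filter fun v => ¬ ∃ a b, H.Adj v a ∧ H.Adj v b ∧ H.Adj a b) ⊆
          {a, b, c, d, e} := by
        intro v hv
        rw [mem_filter] at hv
        by_contra hn
        simp only [mem_insert, mem_singleton, not_or] at hn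
        obtain ⟨x, y, -, h3⟩ := h v hn.1 hn.2.1 hn.2.2.1 hn.2.2.2.1 hn.2.2.2.2
        exact hv.2 ⟨x, y, h3⟩
      exact (card_le_card hs).trans card_le_five
  · rintro ⟨h2, hcard⟩
    refine ⟨h2, ?_⟩
    set E : Finset (Fin n) :=
      univ.filter fun v => ¬ ∃ a b, H.Adj v a ∧ H.Adj v b ∧ H.Adj a b with hE
    have hmem : ∀ v, v ∈ E ↔ ¬ ∃ a b, H.Adj v a ∧ H.Adj v b ∧ H.Adj a b := by
      intro v; rw [hE, mem_filter]; simp
    have hne : ∀ v, v ∉ E → ∃ x y, x ≠ y ∧ H.Adj v x ∧ H.Adj v y ∧ H.Adj x y := by
      intro v hv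
      rw [hmem, not_not] at hv
      obtain ⟨x, y, h3, h4, h5⟩ := hv
      exact ⟨x, y, h5.ne, h3, h4, h5⟩
    have hcl : ∀ v ∈ E, ∀ w, H.Adj v w → w ∈ E := by
      intro v hv w hvw
      rw [hmem] at hv ⊢
      rintro ⟨s, t, h3, h4, h5⟩
      have h6 := g25_two H w s t (h2 w) h3 h4 h5.ne
      rcases (h6 v).1 hvw.symm with rfl | rfl
      · exact hv ⟨w, t, hvw, h5, h4⟩
      · exact hv ⟨w, s, hvw, h5.symm, h3⟩
    by_cases hemp : E = ∅
    · left
      intro v
      exact hne v (by rw [hemp]; simp)
    right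
    obtain ⟨v, hv⟩ := Finset.nonempty_iff_ne_empty.2 hemp
    obtain ⟨a, b, hab, hvab⟩ : ∃ a b, a ≠ b ∧ ∀ j, H.Adj v j ↔ j = a ∨ j = b := by
      have h3 := h2 v
      unfold dg at h3
      obtain ⟨s, t, hst, hE⟩ := Finset.card_eq_two.1 h3
      refine ⟨s, t, hst, fun j => ?_⟩
      have : j ∈ (univ.filter fun j => H.Adj v j) ↔ j ∈ ({s, t} : Finset (Fin n)) := by rw [hE]
      simpa using this
    have hva : H.Adj v a := (hvab a).2 (Or.inl rfl)
    have hvb : H.Adj v b := (hvab b).2 (Or.inr rfl)
    have haE := hcl v hv a hva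
    have hbE := hcl v hv b hvb
    have hnab : ¬ H.Adj a b := fun h => (hmem v).1 hv ⟨a, b, hva, hvb, h⟩
    obtain ⟨c, hcv, hac⟩ := g25_nb2 H a v (h2 a) hva.symm
    obtain ⟨d, hdv, hbd⟩ := g25_nb2 H b v (h2 b) hvb.symm
    have hac' : H.Adj a c := (hac c).2 (Or.inr rfl)
    have hbd' : H.Adj b d := (hbd d).2 (Or.inr rfl)
    have hcE := hcl a haE c hac'
    have hdE := hcl b hbE d hbd'
    have hca : c ≠ a := hac'.ne'
    have hdb : d ≠ b := hbd'.ne'
    have hcb : c ≠ b := by rintro rfl; exact hnab hac'
    have hda : d ≠ a := by rintro rfl; exact hnab hbd'.symm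
    have hva' : v ≠ a := hva.ne
    have hvb' : v ≠ b := hvb.ne
    by_cases hcd : c = d
    · left
      rw [← hcd] at hbd hbd' hdE
      have hNc := g25_two H c a b (h2 c) hac'.symm hbd'.symm hab
      refine ⟨v, a, c, b, ⟨hcv.symm, hab, hvab, hac, hNc, hbd⟩, ?_⟩
      intro w hwv hwa hwc hwb
      apply hne
      intro hwE
      obtain ⟨s, t, hst, hws⟩ : ∃ a b, a ≠ b ∧ ∀ j, H.Adj w j ↔ j = a ∨ j = b := by
        have h3 := h2 w
        unfold dg at h3
        obtain ⟨s, t, hst, hE⟩ := Finset.card_eq_two.1 h3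
        refine ⟨s, t, hst, fun j => ?_⟩
        have : j ∈ (univ.filter fun j => H.Adj w j) ↔ j ∈ ({s, t} : Finset (Fin n)) := by rw [hE]
        simpa using this
      have hs : H.Adj w s := (hws s).2 (Or.inl rfl)
      have hsE := hcl w hwE s hs
      have hsv : s ≠ v := by
        rintro rfl
        rcases (hvab w).1 hs.symm with h | h
        · exact hwa h
        · exact hwb h
      have hsa : s ≠ a := by
        rintro rfl
        rcases (hac w).1 hs.symm with h | h
        · exact hwv h
        · exact hwc h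
      have hsb : s ≠ b := by
        rintro rfl
        rcases (hbd w).1 hs.symm with h | h
        · exact hwv h
        · exact hwc h
      have hsc : s ≠ c := by
        rintro rfl
        rcases (hNc w).1 hs.symm with h | h
        · exact hwa h
        · exact hwb h
      have hsw : s ≠ w := hs.ne'
      have hsub : ({v, a, c, b, w, s} : Finset (Fin n)) ⊆ E := by
        intro x hx
        simp only [mem_insert, mem_singleton] at hx
        rcases hx with rfl | rfl | rfl | rfl | rfl | rfl <;> assumption
      have h6 : ({v, a, c, b, w, s} : Finset (Fin n)).card = 6 := by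
        rw [card_insert_of_notMem, card_insert_of_notMem, card_insert_of_notMem,
          card_insert_of_notMem, card_insert_of_notMem, card_singleton]
        · simp only [mem_singleton]; exact hsw.symm
        · simp only [mem_insert, mem_singleton, not_or]; exact ⟨hwb.symm, hsb.symm⟩
        · simp only [mem_insert, mem_singleton, not_or]; exact ⟨hcb, hwc.symm, hsc.symm⟩
        · simp only [mem_insert, mem_singleton, not_or]
          exact ⟨hca.symm, hab, hwa.symm, hsa.symm⟩
        · simp only [mem_insert, mem_singleton, not_or]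
          exact ⟨hva', hcv.symm, hvb', hwv.symm, hsv.symm⟩
      have := card_le_card hsub
      omega
    · right
      have hsub : ({v, a, c, d, b} : Finset (Fin n)) ⊆ E := by
        intro x hx
        simp only [mem_insert, mem_singleton] at hx
        rcases hx with rfl | rfl | rfl | rfl | rfl <;> assumption
      have h5 : ({v, a, c, d, b} : Finset (Fin n)).card = 5 := by
        rw [card_insert_of_notMem, card_insert_of_notMem, card_insert_of_notMem,
          card_insert_of_notMem, card_singleton]
        · simp only [mem_singleton]; exact hdb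
        · simp only [mem_insert, mem_singleton, not_or]; exact ⟨hcd, hcb⟩
        · simp only [mem_insert, mem_singleton, not_or]; exact ⟨hca.symm, hda.symm, hab⟩
        · simp only [mem_insert, mem_singleton, not_or]
          exact ⟨hva', hcv.symm, hdv.symm, hvb'⟩
      have hEq : ({v, a, c, d, b} : Finset (Fin n)) = E :=
        Finset.eq_of_subset_of_card_le hsub (by rw [h5]; exact hcard)
      obtain ⟨x, hxa, hcx⟩ := g25_nb2 H c a (h2 c) hac'.symm
      have hcx' : H.Adj c x := (hcx x).2 (Or.inr rfl)
      have hxE := hcl c hcE x hcx'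
      have hxd : x = d := by
        rw [← hEq] at hxE
        simp only [mem_insert, mem_singleton] at hxE
        rcases hxE with rfl | h | h | h | rfl
        · exfalso
          rcases (hvab c).1 hcx'.symm with h | h
          · exact hca h
          · exact hcb h
        · exact absurd h hxa
        · rw [h] at hcx'; exact absurd hcx' H.irrefl
        · exact h
        · exfalso
          rcases (hbd c).1 hcx'.symm with h | h
          · exact hcv h
          · exact hcd h
      rw [hxd] at hcx hcx'
      have hNd := g25_two H d c b (h2 d) hcx'.symm hbd'.symm hcb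
      refine ⟨v, a, c, d, b, ⟨hcv.symm, hdv.symm, hda.symm, hab, hcb, hvab, hac, hcx, hNd, hbd⟩, ?_⟩
      intro w hwv hwa hwc hwd hwb
      apply hne
      rw [← hEq]
      simp only [mem_insert, mem_singleton, not_or]
      exact ⟨hwv, hwa, hwc, hwd, hwb⟩

end Pool.Agent.H34R2.U
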