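import Pool.Agent.H34R2.U.Defs

/-! Definitions for the machine-checked local moves (M-tasks). -/

set_option autoImplicit false

namespace Pool.Agent.H34R2.U

open Finset

/-- type of a set partition of `w` vertices, `r` of which are marked: one entry `(m, k)` for each
block, where the bits of `m` tell which marked vertices are in the block and `k` is the number of
unmarked vertices in the block. Canonical form: sorted in increasing lexicographic order. -/
abbrev Ty := List (ℕ × ℕ)

/-- weight of a type on an outer block: `K` unmarked vertices, each with failure probability `z`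
towards the outer block, `r` marked ones with failure probabilities `wt i`. It is the probability
that the outer block is joined to exactly one of the blocks of the type. -/
noncomputable def Fty (K r : ℕ) (z : ℝ) (wt : ℕ → ℝ) (τ : Ty) : ℝ :=
  (τ.map fun b => z ^ (K - b.2) *
    ∏ i ∈ (range r).filter (fun i => b.1.testBit i = false), wt i).sum -
      (τ.length : ℝ) * (z ^ K * ∏ i ∈ range r, wt i)

/-- number of vertices in a block. -/
def bsz (r : ℕ) (b : ℕ × ℕ) : ℕ := b.2 + ((List.range r).filter fun i => b.1.testBit i).length

/-- number of pairs of vertices in different blocks. -/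
def eK (r : ℕ) : Ty → ℕ
  | [] => 0
  | b :: t => bsz r b * (t.map (bsz r)).sum + eK r t

/-- `(-1)^(ℓ-1) (ℓ-1)!` -/
def sgn (τ : Ty) : ℤ := (-1) ^ (τ.length - 1) * ((τ.length - 1).factorial : ℤ)

/-- value of a polynomial with natural coefficients (constant term first). -/
noncomputable def evalN (c : List ℕ) (x : ℝ) : ℝ :=
  c.foldr (fun a s => (a : ℝ) + x * s) 0

noncomputable def evalZ (c : List ℤ) (x : ℝ) : ℝ :=
  c.foldr (fun a s => (a : ℝ) + x * s) 0

/-- number of ways to choose the set `T` of marked vertices and `j` unmarked vertices inside
one block. -/
def nJ (r : ℕ) (j T : ℕ) (τ : Ty) : ℕ :=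
  (τ.map fun b => if (List.range r).all (fun i => !T.testBit i || b.1.testBit i)
    then b.2.choose j else 0).sum

/-- certificate: list of types, rows (vectors indexed by the types), and for every row, every
`T < 2^r` and every `j ≤ K` (outer list over rows, then over `T`, then over `j`) the expansion of
`row * nJ r j T` in the rows as a sparse list `(index of row, coefficient)`. -/
structure Cert where
  types : List Ty
  rows : List (List ℕ)
  mul : List (List (List (List (ℕ × ℕ))))

/-- sparse combination of rows. -/
def combo (rows : List (List ℕ)) (len : ℕ) (c : List (ℕ × ℕ)) : List ℕ :=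
  c.foldr (fun e acc => List.zipWith (fun x y => e.2 * x + y) (rows.getD e.1 []) acc)
    (List.replicate len 0)

def mulRow (r j T : ℕ) (types : List Ty) (row : List ℕ) : List ℕ :=
  List.zipWith (fun τ x => nJ r j T τ * x) types row

def certOK (K r : ℕ) (C : Cert) : Bool :=
  (C.rows.all fun row => row.length == C.types.length) &&
  (C.rows.any fun row => row.all fun x => x == 1) &&
  (C.types.all fun τ => τ.all fun b => b.2 ≤ K) &&
  (C.types.all fun τ => (τ.map fun b => b.2).sum == K) &&
  (C.mul.length == C.rows.length) &&
  ((List.zip C.rows C.mul).all fun e =>
    (e.2.length == 2 ^ r) &&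
    ((List.zip (List.range (2 ^ r)) e.2).all fun f =>
      (f.2.length == K + 1) &&
      ((List.zip (List.range (K + 1)) f.2).all fun g =>
        (g.1 == 0 && f.1 == 0) ||
          combo C.rows C.types.length g.2 == mulRow r g.1 f.1 C.types e.1)))

end Pool.Agent.H34R2.U
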