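import Pool.Agent.H34R2.U.A2
import Pool.Agent.H34R2.U.MDefs

/-! TASK M8: the expansion of the reliability over the set partitions of a local configuration,
computed by a kernel-friendly program `dp`.

The program processes the vertices `0, 1, ..., w - 1` of the configuration one after the other. A
*shape* is a sorted list of blocks `(m, k)`: the bits of `m` are the *active* vertices of the block
(marked, or with a neighbour that is not yet processed), `k` is the number of its inactive vertices.
Equal shapes are merged with the help of a search tree. -/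

set_option autoImplicit false

namespace Pool.Agent.H34R2.U

open Finset

variable {n : ℕ}

/-- admissible input. -/
def inOK (w : ℕ) (l : List (ℕ × ℕ)) (mk : List ℕ) : Bool :=
  decide (1 ≤ w) && (l.all fun e => decide (e.1 < w) && decide (e.2 < w) && decide (e.1 ≠ e.2)) &&
  (mk.all fun a => decide (a < w)) && decide mk.Nodup

namespace M8

/-- addition of coefficient lists -/
def addN : List ℕ → List ℕ → List ℕ
  | [], b => b
  | x :: a, [] => x :: a
  | x :: a, y :: b => (x + y) :: addN a b

inductive Tr where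
  | leaf : Tr
  | node : Tr → ℕ → Ty → List ℕ → Tr → Tr

def Tr.ins (k : ℕ) (s : Ty) (p : List ℕ) : Tr → Tr
  | .leaf => .node .leaf k s p .leaf
  | .node l k' s' p' r =>
    match Nat.blt k k' with
    | true => .node (Tr.ins k s p l) k' s' p' r
    | false => match Nat.blt k' k with
      | true => .node l k' s' p' (Tr.ins k s p r)
      | false => match s == s' with
        | true => .node l k' s' (addN p p') r
        | false => .node l k' s' p' (Tr.ins k s p r)

def Tr.app : Tr → List (Ty × List ℕ) → List (Ty × List ℕ)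
  | .leaf, acc => acc
  | .node l _ s p r, acc => Tr.app l ((s, p) :: Tr.app r acc)

def enc (s : Ty) : ℕ := s.foldl (fun acc b => acc * 1048576 + (b.1 * 64 + b.2)) 0

def insB (b : ℕ × ℕ) : Ty → Ty
  | [] => [b]
  | c :: t => match Nat.blt c.1 b.1 || (Nat.beq c.1 b.1 && Nat.blt c.2 b.2) with
    | true => c :: insB b t
    | false => b :: c :: t

def sortS (s : Ty) : Ty := s.foldr insB []

def merge (L : List (Ty × List ℕ)) : List (Ty × List ℕ) :=
  (L.foldl (fun t e => t.ins (enc e.1) e.1 e.2) Tr.leaf).app []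

def isAct (l : List (ℕ × ℕ)) (mk : List ℕ) (i a : ℕ) : Bool :=
  mk.contains a || l.any fun e => (e.1 == a && Nat.ble i e.2) || (e.2 == a && Nat.ble i e.1)

def daL (l : List (ℕ × ℕ)) (mk : List ℕ) (v : ℕ) : List ℕ :=
  (List.range (v + 1)).filter fun a => (a == v || isAct l mk v a) && !isAct l mk (v + 1) a

def da1 (a : ℕ) (b : ℕ × ℕ) : ℕ × ℕ :=
  match b.1.testBit a with
  | true => (b.1 ^^^ 2 ^ a, b.2 + 1)
  | false => b

def norm (da : List ℕ) (s : Ty) : Ty :=
  match da with
  | [] => s
  | a :: d => sortS ((a :: d).foldl (fun s a => s.map (da1 a)) s)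

def adjs (l : List (ℕ × ℕ)) (v : ℕ) : List ℕ :=
  (List.range v).filter fun a => l.any fun e => (e.1 == a && e.2 == v) || (e.1 == v && e.2 == a)

def cnt (ad : List ℕ) (m : ℕ) : ℕ := (ad.filter fun a => !m.testBit a).length

def exps (v : ℕ) : Ty → List ((ℕ × ℕ) × Ty)
  | [] => []
  | b :: t => (b, t ++ [(b.1 ||| 2 ^ v, b.2)]) :: (exps v t).map fun e => (e.1, b :: e.2)

def stepItem (v : ℕ) (ad da : List ℕ) (e : Ty × List ℕ) : List (Ty × List ℕ) :=
  (norm da (e.1 ++ [(2 ^ v, 0)]), List.replicate ad.length 0 ++ e.2) ::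
    (exps v e.1).map fun x => (norm da x.2, List.replicate (cnt ad x.1.1) 0 ++ e.2)

def dpst (l : List (ℕ × ℕ)) (mk : List ℕ) : ℕ → List (Ty × List ℕ)
  | 0 => [(norm (daL l mk 0) [(1, 0)], [1])]
  | v + 1 => merge ((dpst l mk v).flatMap (stepItem (v + 1) (adjs l (v + 1)) (daL l mk (v + 1))))

def cv (mk : List ℕ) (m : ℕ) : ℕ := mk.foldr (fun a acc => Nat.bit (m.testBit a) acc) 0


/-! ### the program: elementary properties -/

section prog

lemma evalN_nil (x : ℝ) : evalN [] x = 0 := rfl

lemma evalN_cons (a : ℕ) (c : List ℕ) (x : ℝ) : evalN (a :: c) x = (a : ℝ) + x * evalN c x := rfl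

lemma evalN_addN (x : ℝ) : ∀ a b : List ℕ, evalN (addN a b) x = evalN a x + evalN b x
  | [], b => by rw [addN, evalN_nil, zero_add]
  | y :: a, [] => by rw [addN, evalN_nil, add_zero]
  | y :: a, z :: b => by
    rw [addN, evalN_cons, evalN_cons, evalN_cons, evalN_addN x a b]
    push_cast
    ring

lemma evalN_shift (x : ℝ) (p : List ℕ) : ∀ c : ℕ, evalN (List.replicate c 0 ++ p) x = x ^ c * evalN p x
  | 0 => by simp
  | c + 1 => by
    rw [List.replicate_succ, List.cons_append, evalN_cons, evalN_shift x p c, pow_succ]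
    push_cast
    ring

/-- sum over the entries of a tree -/
noncomputable def Tr.tot (x : ℝ) (g : Ty → ℝ) : Tr → ℝ
  | .leaf => 0
  | .node l _ s p r => Tr.tot x g l + evalN p x * g s + Tr.tot x g r

def Tr.Mem (s : Ty) : Tr → Prop
  | .leaf => False
  | .node l _ s' _ r => Tr.Mem s l ∨ s = s' ∨ Tr.Mem s r

lemma Tr.ins_tot (x : ℝ) (g : Ty → ℝ) (k : ℕ) (s : Ty) (p : List ℕ) :
    ∀ t : Tr, (Tr.ins k s p t).tot x g = t.tot x g + evalN p x * g s
  | .leaf => by simp [Tr.ins, Tr.tot]
  | .node l k' s' p' r => by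
    unfold Tr.ins
    split
    · rw [Tr.tot, Tr.ins_tot x g k s p l, Tr.tot]; ring
    · split
      · rw [Tr.tot, Tr.ins_tot x g k s p r, Tr.tot]; ring
      · split
        · rename_i h
          have hs : s = s' := by simpa using h
          rw [Tr.tot, evalN_addN, Tr.tot, hs]; ring
        · rw [Tr.tot, Tr.ins_tot x g k s p r, Tr.tot]; ring

lemma Tr.ins_mem (k : ℕ) (s : Ty) (p : List ℕ) (u : Ty) :
    ∀ t : Tr, (Tr.ins k s p t).Mem u → u = s ∨ t.Mem u
  | .leaf => by
    intro h
    simp [Tr.ins, Tr.Mem] at h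
    exact Or.inl h
  | .node l k' s' p' r => by
    intro h
    unfold Tr.ins at h
    split at h
    · rcases h with h | h | h
      · rcases Tr.ins_mem k s p u l h with h | h
        · exact Or.inl h
        · exact Or.inr (Or.inl h)
      · exact Or.inr (Or.inr (Or.inl h))
      · exact Or.inr (Or.inr (Or.inr h))
    · split at h
      · rcases h with h | h | h
        · exact Or.inr (Or.inl h)
        · exact Or.inr (Or.inr (Or.inl h))
        · rcases Tr.ins_mem k s p u r h with h | h
          · exact Or.inl h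
          · exact Or.inr (Or.inr (Or.inr h))
      · split at h
        · exact Or.inr h
        · rcases h with h | h | h
          · exact Or.inr (Or.inl h)
          · exact Or.inr (Or.inr (Or.inl h))
          · rcases Tr.ins_mem k s p u r h with h | h
            · exact Or.inl h
            · exact Or.inr (Or.inr (Or.inr h))

lemma Tr.app_sum (x : ℝ) (g : Ty → ℝ) : ∀ (t : Tr) (acc : List (Ty × List ℕ)),
    ((t.app acc).map fun e => evalN e.2 x * g e.1).sum =
      t.tot x g + (acc.map fun e => evalN e.2 x * g e.1).sum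
  | .leaf, acc => by simp [Tr.app, Tr.tot]
  | .node l k s p r, acc => by
    rw [Tr.app, Tr.app_sum x g l, List.map_cons, List.sum_cons, Tr.app_sum x g r, Tr.tot]
    ring

lemma Tr.app_mem : ∀ (t : Tr) (acc : List (Ty × List ℕ)) (e : Ty × List ℕ),
    e ∈ t.app acc → t.Mem e.1 ∨ e ∈ acc
  | .leaf, acc, e => by
    intro h
    exact Or.inr h
  | .node l k s p r, acc, e => by
    intro h
    rw [Tr.app] at h
    rcases Tr.app_mem l _ e h with h | h
    · exact Or.inl (Or.inl h)
    · rw [List.mem_cons] at h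
      rcases h with h | h
      · exact Or.inl (Or.inr (Or.inl (by rw [h])))
      · rcases Tr.app_mem r _ e h with h | h
        · exact Or.inl (Or.inr (Or.inr h))
        · exact Or.inr h

lemma foldl_tot (x : ℝ) (g : Ty → ℝ) : ∀ (L : List (Ty × List ℕ)) (t : Tr),
    (L.foldl (fun t e => t.ins (enc e.1) e.1 e.2) t).tot x g =
      t.tot x g + (L.map fun e => evalN e.2 x * g e.1).sum
  | [], t => by simp
  | e :: L, t => by
    rw [List.foldl_cons, foldl_tot x g L, Tr.ins_tot, List.map_cons, List.sum_cons]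
    ring

lemma foldl_mem : ∀ (L : List (Ty × List ℕ)) (t : Tr) (u : Ty),
    (L.foldl (fun t e => t.ins (enc e.1) e.1 e.2) t).Mem u → t.Mem u ∨ ∃ e ∈ L, e.1 = u
  | [], t, u => fun h => Or.inl h
  | e :: L, t, u => by
    intro h
    rw [List.foldl_cons] at h
    rcases foldl_mem L _ u h with h | ⟨e', he', h⟩
    · rcases Tr.ins_mem _ _ _ _ _ h with h | h
      · exact Or.inr ⟨e, List.mem_cons_self, h.symm⟩
      · exact Or.inl h
    · exact Or.inr ⟨e', List.mem_cons_of_mem _ he', h⟩

lemma merge_sum (x : ℝ) (g : Ty → ℝ) (L : List (Ty × List ℕ)) :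
    ((merge L).map fun e => evalN e.2 x * g e.1).sum = (L.map fun e => evalN e.2 x * g e.1).sum := by
  unfold merge
  rw [Tr.app_sum, foldl_tot]
  simp [Tr.tot]

lemma merge_mem (L : List (Ty × List ℕ)) (e : Ty × List ℕ) (h : e ∈ merge L) : ∃ e' ∈ L, e'.1 = e.1 := by
  unfold merge at h
  rcases Tr.app_mem _ _ _ h with h | h
  · rcases foldl_mem _ _ _ h with h | h
    · exact absurd h (by simp [Tr.Mem])
    · exact h
  · simp at h

lemma insB_perm (b : ℕ × ℕ) : ∀ s : Ty, (insB b s).Perm (b :: s)
  | [] => List.Perm.refl _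
  | c :: t => by
    unfold insB
    split
    · exact ((insB_perm b t).cons c).trans (List.Perm.swap b c t)
    · exact List.Perm.refl _

lemma sortS_perm : ∀ s : Ty, (sortS s).Perm s
  | [] => List.Perm.refl _
  | b :: s => (insB_perm b (sortS s)).trans ((sortS_perm s).cons b)

lemma norm_perm (da : List ℕ) (s : Ty) : (norm da s).Perm (da.foldl (fun s a => s.map (da1 a)) s) := by
  unfold norm
  split
  · exact List.Perm.refl _
  · exact sortS_perm _

lemma exps_fst (v : ℕ) : ∀ s : Ty, (exps v s).map Prod.fst = s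
  | [] => rfl
  | b :: t => by
    rw [exps, List.map_cons, List.map_map]
    congr 1
    exact exps_fst v t

lemma exps_spec (v : ℕ) : ∀ (s : Ty) (e : (ℕ × ℕ) × Ty), e ∈ exps v s →
    ∃ rest : Ty, e.2.Perm ((e.1.1 ||| 2 ^ v, e.1.2) :: rest) ∧ (e.1 :: rest).Perm s
  | [], e => by simp [exps]
  | b :: t, e => by
    intro h
    rw [exps, List.mem_cons] at h
    rcases h with h | h
    · subst h
      exact ⟨t, List.perm_append_comm.trans (List.Perm.refl _), List.Perm.refl _⟩
    · rw [List.mem_map] at h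
      obtain ⟨e', he', rfl⟩ := h
      obtain ⟨rest, h1, h2⟩ := exps_spec v t e' he'
      refine ⟨b :: rest, ?_, ?_⟩
      · exact (h1.cons b).trans (List.Perm.swap _ _ _)
      · exact (List.Perm.swap b e'.1 rest).trans (h2.cons b)

end prog

/-! ### shapes -/

section shape

/-- number of pairs in different blocks, for a general size function -/
def eKg (f : ℕ × ℕ → ℕ) : Ty → ℕ
  | [] => 0
  | b :: t => f b * (t.map f).sum + eKg f t

lemma eK_eq (r : ℕ) (s : Ty) : eK r s = eKg (bsz r) s := by
  induction s with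
  | nil => rfl
  | cons b t ih => rw [eK, eKg, ih]

lemma eKg_perm (f : ℕ × ℕ → ℕ) {s t : Ty} (h : s.Perm t) : eKg f s = eKg f t := by
  induction h with
  | nil => rfl
  | cons x h ih => rw [eKg, eKg, ih, (h.map f).sum_eq]
  | swap x y l => simp only [eKg, List.map_cons, List.sum_cons]; ring
  | trans _ _ h1 h2 => exact h1.trans h2

lemma eKg_congr {f g : ℕ × ℕ → ℕ} : ∀ {s : Ty}, (∀ b ∈ s, f b = g b) → eKg f s = eKg g s
  | [], _ => rfl
  | b :: t, h => by
    rw [eKg, eKg, h b List.mem_cons_self, eKg_congr fun c hc => h c (List.mem_cons_of_mem _ hc)]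
    congr 3
    exact List.map_congr_left fun c hc => h c (List.mem_cons_of_mem _ hc)

lemma eKg_map (f : ℕ × ℕ → ℕ) (k : ℕ × ℕ → ℕ × ℕ) : ∀ s : Ty, eKg f (s.map k) = eKg (fun b => f (k b)) s
  | [] => rfl
  | b :: t => by
    rw [List.map_cons, eKg, eKg, eKg_map f k t, List.map_map]
    rfl

/-- number of vertices of a block -/
def sz (act : Finset ℕ) (b : ℕ × ℕ) : ℕ := b.2 + (act.filter fun a => b.1.testBit a = true).card

/-- well-formed shapes -/
structure WF (v : ℕ) (act : Finset ℕ) (I : ℕ) (s : Ty) : Prop where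
  ne : s ≠ []
  one : ∀ a ∈ act, s.countP (fun b => b.1.testBit a) = 1
  sum : (s.map Prod.snd).sum = I
  bit : ∀ b ∈ s, ∀ a, b.1.testBit a = true → a < v

lemma WF.perm {v : ℕ} {act : Finset ℕ} {I : ℕ} {s t : Ty} (h : WF v act I s) (hp : s.Perm t) :
    WF v act I t where
  ne := by
    intro ht
    rw [ht] at hp
    exact h.ne hp.eq_nil
  one a ha := by rw [← hp.countP_eq]; exact h.one a ha
  sum := by rw [← (hp.map Prod.snd).sum_eq]; exact h.sum
  bit b hb := h.bit b (hp.mem_iff.2 hb)

lemma sum_filter_card (act : Finset ℕ) : ∀ s : Ty,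
    (s.map fun b => (act.filter fun a => b.1.testBit a = true).card).sum =
      ∑ a ∈ act, s.countP fun b => b.1.testBit a
  | [] => by simp
  | b :: t => by
    rw [List.map_cons, List.sum_cons, sum_filter_card act t, Finset.card_filter, ← Finset.sum_add_distrib]
    apply Finset.sum_congr rfl
    intro a _
    rw [List.countP_cons]
    ring

lemma sz_sum {v : ℕ} {act : Finset ℕ} {I : ℕ} {s : Ty} (h : WF v act I s) :
    (s.map (sz act)).sum = I + act.card := by
  have h1 : (s.map (sz act)).sum = (s.map Prod.snd).sum +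
      (s.map fun b => (act.filter fun a => b.1.testBit a = true).card).sum := by
    rw [← List.sum_map_add]
    rfl
  rw [h1, h.sum, sum_filter_card, Finset.sum_congr rfl h.one]
  simp

/-- the functional of a shape -/
noncomputable def Phi (z : ℝ) (T : ℕ → ℝ) (act : Finset ℕ) (I : ℕ) (s : Ty) : ℝ :=
  (s.map fun b => z ^ (I - b.2) * ∏ a ∈ act.filter (fun a => b.1.testBit a = false), T a).sum -
    (s.length : ℝ) * (z ^ I * ∏ a ∈ act, T a)

lemma Phi_perm (z : ℝ) (T : ℕ → ℝ) (act : Finset ℕ) (I : ℕ) {s t : Ty} (h : s.Perm t) :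
    Phi z T act I s = Phi z T act I t := by
  unfold Phi
  rw [(h.map _).sum_eq, h.length_eq]

lemma testBit_or_two_pow (m v a : ℕ) (h : a ≠ v) : (m ||| 2 ^ v).testBit a = m.testBit a := by
  rw [Nat.testBit_or, Nat.testBit_two_pow_of_ne h.symm, Bool.or_false]

lemma testBit_or_two_pow_self (m v : ℕ) : (m ||| 2 ^ v).testBit v = true := by
  rw [Nat.testBit_or, Nat.testBit_two_pow_self, Bool.or_true]

lemma testBit_xor_two_pow (m v a : ℕ) (h : a ≠ v) : (m ^^^ 2 ^ v).testBit a = m.testBit a := by
  rw [Nat.testBit_xor, Nat.testBit_two_pow_of_ne h.symm, Bool.xor_false]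

lemma prod_insert_term {T : ℕ → ℝ} {act : Finset ℕ} {v : ℕ} (hv : v ∉ act) (c : ℕ × ℕ)
    (hc : c.1.testBit v = false) :
    ∏ a ∈ (insert v act).filter (fun a => c.1.testBit a = false), T a =
      T v * ∏ a ∈ act.filter (fun a => c.1.testBit a = false), T a := by
  rw [Finset.filter_insert, if_pos hc, Finset.prod_insert]
  simp [hv]

lemma Phi_add (z : ℝ) (T : ℕ → ℝ) (act : Finset ℕ) (I v : ℕ) (hv : v ∉ act) (b : ℕ × ℕ) (rest : Ty)
    (hr : ∀ c ∈ rest, c.1.testBit v = false) :
    Phi z T (insert v act) I ((b.1 ||| 2 ^ v, b.2) :: rest) =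
      (1 - T v) * (z ^ (I - b.2) * ∏ a ∈ act.filter (fun a => b.1.testBit a = false), T a) +
        T v * Phi z T act I (b :: rest) := by
  have h1 : (rest.map fun c => z ^ (I - c.2) *
      ∏ a ∈ (insert v act).filter (fun a => c.1.testBit a = false), T a).sum =
      T v * (rest.map fun c => z ^ (I - c.2) *
        ∏ a ∈ act.filter (fun a => c.1.testBit a = false), T a).sum := by
    rw [← List.sum_map_mul_left]
    congr 1
    apply List.map_congr_left
    intro c hc
    rw [prod_insert_term hv c (hr c hc)]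
    ring
  have h2 : (insert v act).filter (fun a => (b.1 ||| 2 ^ v).testBit a = false) =
      act.filter (fun a => b.1.testBit a = false) := by
    rw [Finset.filter_insert, if_neg (by rw [testBit_or_two_pow_self]; simp)]
    apply Finset.filter_congr
    intro a ha
    rw [testBit_or_two_pow _ v a (by rintro rfl; exact hv ha)]
  unfold Phi
  rw [List.map_cons, List.sum_cons, List.map_cons, List.sum_cons, h1, h2, Finset.prod_insert hv,
    List.length_cons, List.length_cons]
  ring

lemma Phi_new (z : ℝ) (T : ℕ → ℝ) (act : Finset ℕ) (I v : ℕ) (hv : v ∉ act) (s : Ty)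
    (hr : ∀ c ∈ s, c.1.testBit v = false) :
    Phi z T (insert v act) I ((2 ^ v, 0) :: s) =
      (1 - T v) * (z ^ I * ∏ a ∈ act, T a) + T v * Phi z T act I s := by
  have h1 : (s.map fun c => z ^ (I - c.2) *
      ∏ a ∈ (insert v act).filter (fun a => c.1.testBit a = false), T a).sum =
      T v * (s.map fun c => z ^ (I - c.2) *
        ∏ a ∈ act.filter (fun a => c.1.testBit a = false), T a).sum := by
    rw [← List.sum_map_mul_left]
    congr 1
    apply List.map_congr_left
    intro c hc
    rw [prod_insert_term hv c (hr c hc)]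
    ring
  have h2 : (insert v act).filter (fun a => (2 ^ v).testBit a = false) = act := by
    rw [Finset.filter_insert, if_neg (by rw [Nat.testBit_two_pow_self]; simp)]
    apply Finset.filter_true_of_mem
    intro a ha
    exact Nat.testBit_two_pow_of_ne (by rintro rfl; exact hv ha)
  unfold Phi
  rw [List.map_cons, List.sum_cons, h1]
  simp only [h2]
  rw [Finset.prod_insert hv, List.length_cons, Nat.sub_zero]
  push_cast
  ring

lemma Phi_da {z : ℝ} {T : ℕ → ℝ} {act : Finset ℕ} {I a v : ℕ} {s : Ty} (h : WF v act I s)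
    (ha : a ∈ act) (hT : T a = z) :
    Phi z T (act.erase a) (I + 1) (s.map (da1 a)) = Phi z T act I s := by
  have hle : ∀ b ∈ s, b.2 ≤ I := by
    intro b hb
    rw [← h.sum]
    exact List.single_le_sum (by simp) _ (List.mem_map_of_mem hb)
  have hterm : ∀ b ∈ s, z ^ (I + 1 - (da1 a b).2) *
      ∏ x ∈ (act.erase a).filter (fun x => (da1 a b).1.testBit x = false), T x =
      z ^ (I - b.2) * ∏ x ∈ act.filter (fun x => b.1.testBit x = false), T x := by
    intro b hb
    unfold da1
    split
    · rename_i hbit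
      have e1 : (act.erase a).filter (fun x => (b.1 ^^^ 2 ^ a).testBit x = false) =
          act.filter (fun x => b.1.testBit x = false) := by
        ext x
        simp only [Finset.mem_filter, Finset.mem_erase]
        constructor
        · rintro ⟨⟨h1, h2⟩, h3⟩
          rw [testBit_xor_two_pow _ _ _ h1] at h3
          exact ⟨h2, h3⟩
        · rintro ⟨h2, h3⟩
          have h1 : x ≠ a := by
            rintro rfl
            rw [hbit] at h3
            exact absurd h3 (by simp)
          refine ⟨⟨h1, h2⟩, ?_⟩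
          rw [testBit_xor_two_pow _ _ _ h1]
          exact h3
      simp only [e1, Nat.add_sub_add_right]
    · rename_i hbit
      have e1 : act.filter (fun x => b.1.testBit x = false) =
          insert a ((act.erase a).filter (fun x => b.1.testBit x = false)) := by
        ext x
        simp only [Finset.mem_filter, Finset.mem_erase, Finset.mem_insert]
        constructor
        · rintro ⟨h2, h3⟩
          by_cases hx : x = a
          · exact Or.inl hx
          · exact Or.inr ⟨⟨hx, h2⟩, h3⟩
        · rintro (rfl | ⟨⟨h1, h2⟩, h3⟩)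
          · exact ⟨ha, hbit⟩
          · exact ⟨h2, h3⟩
      rw [e1, Finset.prod_insert (by simp), hT, Nat.succ_sub (hle b hb), pow_succ]
      ring
  unfold Phi
  rw [List.map_map, List.length_map]
  have e2 : (s.map ((fun b => z ^ (I + 1 - b.2) *
      ∏ a ∈ (act.erase a).filter (fun a => b.1.testBit a = false), T a) ∘ da1 a)) =
      s.map fun b => z ^ (I - b.2) * ∏ x ∈ act.filter (fun x => b.1.testBit x = false), T x :=
    List.map_congr_left fun b hb => hterm b hb
  rw [e2, ← Finset.mul_prod_erase act T ha, hT, pow_succ]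
  ring

lemma sz_da {act : Finset ℕ} {a : ℕ} (ha : a ∈ act) (b : ℕ × ℕ) :
    sz (act.erase a) (da1 a b) = sz act b := by
  unfold sz da1
  split
  · rename_i hbit
    have e1 : act.filter (fun x => b.1.testBit x = true) =
        insert a ((act.erase a).filter (fun x => (b.1 ^^^ 2 ^ a).testBit x = true)) := by
      ext x
      simp only [Finset.mem_filter, Finset.mem_erase, Finset.mem_insert]
      constructor
      · rintro ⟨h2, h3⟩
        by_cases hx : x = a
        · exact Or.inl hx
        · exact Or.inr ⟨⟨hx, h2⟩, by rw [testBit_xor_two_pow _ _ _ hx]; exact h3⟩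
      · rintro (rfl | ⟨⟨h1, h2⟩, h3⟩)
        · exact ⟨ha, hbit⟩
        · rw [testBit_xor_two_pow _ _ _ h1] at h3
          exact ⟨h2, h3⟩
    rw [e1, Finset.card_insert_of_notMem (by simp)]
    simp only
    ring
  · rename_i hbit
    congr 2
    ext x
    simp only [Finset.mem_filter, Finset.mem_erase]
    constructor
    · rintro ⟨⟨h1, h2⟩, h3⟩
      exact ⟨h2, h3⟩
    · rintro ⟨h2, h3⟩
      refine ⟨⟨?_, h2⟩, h3⟩
      rintro rfl
      rw [hbit] at h3
      exact absurd h3 (by simp)

lemma da1_bit (a : ℕ) (b : ℕ × ℕ) (x : ℕ) (h : x ≠ a) : (da1 a b).1.testBit x = b.1.testBit x := by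
  unfold da1
  split
  · exact testBit_xor_two_pow _ _ _ h
  · rfl

lemma da1_bit_le (a : ℕ) (b : ℕ × ℕ) (x : ℕ) (h : (da1 a b).1.testBit x = true) :
    b.1.testBit x = true := by
  by_cases hx : x = a
  · subst hx
    unfold da1 at h
    split at h
    · assumption
    · exact h
  · rw [da1_bit a b x hx] at h
    exact h

lemma sum_da (a : ℕ) : ∀ s : Ty, ((s.map (da1 a)).map Prod.snd).sum =
    (s.map Prod.snd).sum + s.countP fun b => b.1.testBit a
  | [] => by simp
  | b :: t => by
    rw [List.map_cons, List.map_cons, List.sum_cons, sum_da a t, List.map_cons, List.sum_cons,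
      List.countP_cons]
    unfold da1
    split
    · rename_i h
      simp only [h, if_true]
      ring
    · rename_i h
      simp only [h]
      simp
      ring

lemma WF.da {v : ℕ} {act : Finset ℕ} {I : ℕ} {s : Ty} (h : WF v act I s) {a : ℕ} (ha : a ∈ act) :
    WF v (act.erase a) (I + 1) (s.map (da1 a)) where
  ne := by simpa using h.ne
  one x hx := by
    rw [Finset.mem_erase] at hx
    rw [List.countP_map, ← h.one x hx.2]
    apply List.countP_congr
    intro b _
    simp only [Function.comp_apply]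
    rw [da1_bit a b x hx.1]
  sum := by rw [sum_da, h.sum, h.one a ha]
  bit b hb x hx := by
    rw [List.mem_map] at hb
    obtain ⟨c, hc, rfl⟩ := hb
    exact h.bit c hc x (da1_bit_le a c x hx)

lemma WF.no {v : ℕ} {act : Finset ℕ} {I : ℕ} {s : Ty} (h : WF v act I s) {b : ℕ × ℕ} (hb : b ∈ s) :
    b.1.testBit v = false := by
  by_contra hcon
  rw [Bool.not_eq_false] at hcon
  exact lt_irrefl _ (h.bit b hb v hcon)

/-- WF after adding the vertex `v` to a block -/
lemma WF.add {v : ℕ} {act : Finset ℕ} {I : ℕ} {b : ℕ × ℕ} {rest : Ty} (h : WF v act I (b :: rest))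
    (hact : ∀ a ∈ act, a < v) :
    WF (v + 1) (insert v act) I ((b.1 ||| 2 ^ v, b.2) :: rest) where
  ne := by simp
  one x hx := by
    rw [Finset.mem_insert] at hx
    rcases hx with rfl | hx
    · rw [List.countP_cons]
      simp only [testBit_or_two_pow_self, if_true]
      have : rest.countP (fun b => b.1.testBit x) = 0 := by
        rw [List.countP_eq_zero]
        intro c hc
        rw [h.no (List.mem_cons_of_mem _ hc)]
        simp
      rw [this]
    · have h1 := h.one x hx
      rw [List.countP_cons] at h1 ⊢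
      simp only [testBit_or_two_pow _ _ _ (hact x hx).ne]
      exact h1
  sum := by
    have := h.sum
    simpa using this
  bit c hc x hx := by
    rw [List.mem_cons] at hc
    rcases hc with rfl | hc
    · by_cases hxv : x = v
      · omega
      · rw [testBit_or_two_pow _ _ _ hxv] at hx
        have := h.bit b List.mem_cons_self x hx
        omega
    · have := h.bit c (List.mem_cons_of_mem _ hc) x hx
      omega

lemma WF.new {v : ℕ} {act : Finset ℕ} {I : ℕ} {s : Ty} (h : WF v act I s)
    (hact : ∀ a ∈ act, a < v) :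
    WF (v + 1) (insert v act) I ((2 ^ v, 0) :: s) where
  ne := by simp
  one x hx := by
    rw [Finset.mem_insert] at hx
    rcases hx with rfl | hx
    · rw [List.countP_cons]
      simp only [Nat.testBit_two_pow_self, if_true]
      have : s.countP (fun b => b.1.testBit x) = 0 := by
        rw [List.countP_eq_zero]
        intro c hc
        rw [h.no hc]
        simp
      rw [this]
    · have h1 := h.one x hx
      rw [List.countP_cons]
      simp only [Nat.testBit_two_pow_of_ne (hact x hx).ne']
      simpa using h1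
  sum := by
    have := h.sum
    simpa using this
  bit c hc x hx := by
    rw [List.mem_cons] at hc
    rcases hc with rfl | hc
    · by_cases hxv : x = v
      · omega
      · rw [Nat.testBit_two_pow_of_ne (Ne.symm hxv)] at hx
        exact absurd hx (by simp)
    · have := h.bit c hc x hx
      omega

lemma sz_insert {act : Finset ℕ} {v : ℕ} (c : ℕ × ℕ) (hc : c.1.testBit v = false) :
    sz (insert v act) c = sz act c := by
  unfold sz
  rw [Finset.filter_insert, if_neg (by rw [hc]; simp)]

lemma sz_insert_or {act : Finset ℕ} {v : ℕ} (hv : v ∉ act) (b : ℕ × ℕ) :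
    sz (insert v act) (b.1 ||| 2 ^ v, b.2) = sz act b + 1 := by
  unfold sz
  rw [Finset.filter_insert, if_pos (testBit_or_two_pow_self _ _), Finset.card_insert_of_notMem (by simp [hv])]
  have : act.filter (fun a => (b.1 ||| 2 ^ v).testBit a = true) = act.filter (fun a => b.1.testBit a = true) := by
    apply Finset.filter_congr
    intro a ha
    rw [testBit_or_two_pow _ v a (by rintro rfl; exact hv ha)]
  simp only [this]
  ring

lemma sz_new {act : Finset ℕ} {v : ℕ} (hv : v ∉ act) : sz (insert v act) (2 ^ v, 0) = 1 := by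
  unfold sz
  rw [Finset.filter_insert, if_pos (Nat.testBit_two_pow_self), Finset.card_insert_of_notMem (by simp [hv])]
  have : act.filter (fun a => (2 ^ v).testBit a = true) = ∅ := by
    apply Finset.filter_false_of_mem
    intro a ha
    rw [Nat.testBit_two_pow_of_ne (n := v) (m := a) (by rintro rfl; exact hv ha)]
    simp
  simp only [this]
  simp

/-- exponent of `q` when adding a vertex to a block -/
lemma eK_add {v : ℕ} {act : Finset ℕ} {I : ℕ} {b : ℕ × ℕ} {rest : Ty} (h : WF v act I (b :: rest))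
    (hv : v ∉ act) :
    eKg (sz (insert v act)) ((b.1 ||| 2 ^ v, b.2) :: rest) = eKg (sz act) (b :: rest) +
      ((I - b.2) + (act.filter fun a => b.1.testBit a = false).card) := by
  have h0 := sz_sum h
  rw [List.map_cons, List.sum_cons] at h0
  have h1 : (act.filter fun a => b.1.testBit a = true).card +
      (act.filter fun a => b.1.testBit a = false).card = act.card := by
    rw [← Finset.card_filter_add_card_filter_not (s := act) (fun a => b.1.testBit a = true)]
    congr 2
    apply Finset.filter_congr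
    intro a _
    simp
  have h2 : b.2 ≤ I := by
    have := h.sum
    rw [List.map_cons, List.sum_cons] at this
    omega
  have h3 : (rest.map (sz act)).sum = (I - b.2) + (act.filter fun a => b.1.testBit a = false).card := by
    unfold sz at h0 ⊢
    omega
  have h4 : ∀ c ∈ rest, sz (insert v act) c = sz act c := fun c hc =>
    sz_insert c (h.no (List.mem_cons_of_mem _ hc))
  rw [eKg, eKg, sz_insert_or hv, eKg_congr h4, List.map_congr_left h4, h3]
  ring

lemma eK_new {v : ℕ} {act : Finset ℕ} {I : ℕ} {s : Ty} (h : WF v act I s) (hv : v ∉ act) :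
    eKg (sz (insert v act)) ((2 ^ v, 0) :: s) = eKg (sz act) s + (I + act.card) := by
  have h4 : ∀ c ∈ s, sz (insert v act) c = sz act c := fun c hc => sz_insert c (h.no hc)
  rw [eKg, sz_new hv, eKg_congr h4, List.map_congr_left h4, sz_sum h]
  ring

lemma sgn_congr {s t : Ty} (h : s.length = t.length) : sgn s = sgn t := by
  unfold sgn
  rw [h]

lemma sgn_new (b : ℕ × ℕ) {s : Ty} (h : s ≠ []) : (sgn (b :: s) : ℝ) = -(s.length : ℝ) * sgn s := by
  unfold sgn
  have h1 : 0 < s.length := List.length_pos_of_ne_nil h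
  obtain ⟨m, hm⟩ := Nat.exists_eq_succ_of_ne_zero h1.ne'
  rw [List.length_cons, hm]
  simp only [Nat.succ_eq_add_one, Nat.add_sub_cancel]
  rw [pow_succ, Nat.factorial_succ]
  push_cast
  ring

end shape

/-! ### the semantic step -/

section sem

variable {w : ℕ}

/-- failure probability between the processed vertex `a` and `j` -/
noncomputable def Qa (Q : Fin n → Fin n → ℝ) (φ : Fin w ↪ Fin n) (a : ℕ) (j : Fin n) : ℝ :=
  if h : a < w then Q (φ ⟨a, h⟩) j else 1

noncomputable def Ta (Q : Fin n → Fin n → ℝ) (φ : Fin w ↪ Fin n) (a : ℕ) (B : Finset (Fin n)) : ℝ :=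
  ∏ j ∈ B, Qa Q φ a j

/-- value of a shape -/
noncomputable def val (Q : Fin n → Fin n → ℝ) (φ : Fin w ↪ Fin n) (q : ℝ) (act : Finset ℕ) (I : ℕ)
    (A : Finset (Fin n)) (s : Ty) : ℝ :=
  (sgn s : ℝ) * q ^ eKg (sz act) s *
    MM Q (fun B => Phi (q ^ B.card) (fun a => Ta Q φ a B) act I s) A

lemma val_perm (Q : Fin n → Fin n → ℝ) (φ : Fin w ↪ Fin n) (q : ℝ) (act : Finset ℕ) (I : ℕ)
    (A : Finset (Fin n)) {s t : Ty} (h : s.Perm t) : val Q φ q act I A s = val Q φ q act I A t := by
  unfold val
  rw [sgn_congr h.length_eq, eKg_perm _ h]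
  simp only [Phi_perm _ _ _ _ h]

lemma val_da (Q : Fin n → Fin n → ℝ) (φ : Fin w ↪ Fin n) (q : ℝ) {v : ℕ} {act : Finset ℕ} {I : ℕ}
    (A : Finset (Fin n)) {s : Ty} (h : WF v act I s) {a : ℕ} (ha : a ∈ act)
    (hT : ∀ B ⊆ A, Ta Q φ a B = q ^ B.card) :
    val Q φ q (act.erase a) (I + 1) A (s.map (da1 a)) = val Q φ q act I A s := by
  unfold val
  rw [sgn_congr (List.length_map _), eKg_map]
  congr 1
  · congr 2
    exact eKg_congr fun b _ => sz_da ha b
  · apply MM_congr (fun i _ j _ _ => rfl)
    intro B hB _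
    exact Phi_da h ha (hT B hB)

lemma val_das (Q : Fin n → Fin n → ℝ) (φ : Fin w ↪ Fin n) (q : ℝ) {v : ℕ} (A : Finset (Fin n)) :
    ∀ (da : List ℕ) (act : Finset ℕ) (I : ℕ) (s : Ty), WF v act I s → da.Nodup →
      (∀ a ∈ da, a ∈ act) → (∀ a ∈ da, ∀ B ⊆ A, Ta Q φ a B = q ^ B.card) →
      WF v (act \ da.toFinset) (I + da.length) (da.foldl (fun s a => s.map (da1 a)) s) ∧
      val Q φ q (act \ da.toFinset) (I + da.length) A (da.foldl (fun s a => s.map (da1 a)) s) =
        val Q φ q act I A s
  | [], act, I, s, h, _, _, _ => by simpa using h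
  | a :: da, act, I, s, h, hn, hm, hT => by
    have ha := hm a List.mem_cons_self
    have hn' := List.nodup_cons.1 hn
    have ih := val_das Q φ q A da (act.erase a) (I + 1) (s.map (da1 a)) (h.da ha) hn'.2
      (fun b hb => Finset.mem_erase.2 ⟨fun hba => hn'.1 (hba ▸ hb), hm b (List.mem_cons_of_mem _ hb)⟩)
      (fun b hb => hT b (List.mem_cons_of_mem _ hb))
    have e1 : (act.erase a) \ da.toFinset = act \ (a :: da).toFinset := by
      ext x
      simp only [Finset.mem_sdiff, Finset.mem_erase, List.mem_toFinset, List.mem_cons]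
      tauto
    have e2 : I + 1 + da.length = I + (a :: da).length := by
      rw [List.length_cons]; ring
    rw [e1, e2] at ih
    rw [List.foldl_cons]
    exact ⟨ih.1, ih.2.trans (val_da Q φ q A h ha (hT a List.mem_cons_self))⟩

lemma val_norm (Q : Fin n → Fin n → ℝ) (φ : Fin w ↪ Fin n) (q : ℝ) {v : ℕ} (A : Finset (Fin n))
    (da : List ℕ) (act : Finset ℕ) (I : ℕ) (s : Ty) (h : WF v act I s) (hn : da.Nodup)
    (hm : ∀ a ∈ da, a ∈ act) (hT : ∀ a ∈ da, ∀ B ⊆ A, Ta Q φ a B = q ^ B.card) :
    WF v (act \ da.toFinset) (I + da.length) (norm da s) ∧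
      val Q φ q (act \ da.toFinset) (I + da.length) A (norm da s) = val Q φ q act I A s := by
  obtain ⟨h1, h2⟩ := val_das Q φ q A da act I s h hn hm hT
  refine ⟨h1.perm (norm_perm da s).symm, ?_⟩
  rw [val_perm Q φ q _ _ A (norm_perm da s)]
  exact h2

lemma MM_insert_list {Q : Fin n → Fin n → ℝ} (hs : ∀ i j, Q i j = Q j i) (u : Fin n)
    (A : Finset (Fin n)) (hu : u ∉ A) (f : Finset (Fin n) → ℝ) (L : List (ℝ × (Fin n → ℝ)))
    (hf : ∀ B ⊆ A, f (insert u B) = (L.map fun e => e.1 * ∏ i ∈ B, e.2 i).sum) :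
    MM Q f (insert u A) = (L.map fun e => e.1 *
      MM Q (fun B => (1 - tt Q u B) * (∏ i ∈ B, e.2 i) + tt Q u B * f B) A).sum := by
  have h := MM_insert (Finset.univ : Finset (Fin L.length)) hs u A hu f (fun j => (L[j.1]).1)
    (fun j => (L[j.1]).2) (fun B hB => by
      rw [hf B hB, ← Fin.sum_univ_fun_getElem L fun e => e.1 * ∏ i ∈ B, e.2 i])
  rw [h, ← Fin.sum_univ_fun_getElem L fun e => e.1 *
      MM Q (fun B => (1 - tt Q u B) * (∏ i ∈ B, e.2 i) + tt Q u B * f B) A]

lemma prodQ (q : ℝ) (hq : q ≠ 0) (ad : List ℕ) (S : Finset ℕ) :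
    ∏ a ∈ S, (if a ∈ ad then 1 else q) = q ^ S.card * q⁻¹ ^ (S.filter fun a => a ∈ ad).card := by
  have h1 : ∀ a, (if a ∈ ad then (1 : ℝ) else q) = q * (if a ∈ ad then q⁻¹ else 1) := by
    intro a
    split
    · rw [mul_inv_cancel₀ hq]
    · rw [mul_one]
  simp only [h1]
  rw [Finset.prod_mul_distrib, Finset.prod_const, ← Finset.prod_filter, Finset.prod_const]

lemma cnt_eq (ad : List ℕ) (hn : ad.Nodup) (act : Finset ℕ) (hs : ∀ a ∈ ad, a ∈ act) (m : ℕ) :
    ((act.filter fun a => m.testBit a = false).filter fun a => a ∈ ad).card = cnt ad m := by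
  unfold cnt
  rw [← List.toFinset_card_of_nodup (hn.filter _)]
  congr 1
  ext a
  simp only [Finset.mem_filter, List.mem_toFinset, List.mem_filter, Bool.not_eq_true']
  constructor
  · rintro ⟨⟨_, h2⟩, h3⟩
    exact ⟨h3, h2⟩
  · rintro ⟨h3, h2⟩
    exact ⟨⟨hs a h3, h2⟩, h3⟩

lemma cnt_eq' (ad : List ℕ) (hn : ad.Nodup) (act : Finset ℕ) (hs : ∀ a ∈ ad, a ∈ act) :
    (act.filter fun a => a ∈ ad).card = ad.length := by
  rw [← List.toFinset_card_of_nodup hn]
  congr 1
  ext a
  simp only [Finset.mem_filter, List.mem_toFinset]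
  exact ⟨fun h => h.2, fun h => ⟨hs a h, h⟩⟩

lemma Ta_insert (Q : Fin n → Fin n → ℝ) (φ : Fin w ↪ Fin n) (a : ℕ) {u : Fin n}
    {B : Finset (Fin n)} (h : u ∉ B) : Ta Q φ a (insert u B) = Qa Q φ a u * Ta Q φ a B := by
  unfold Ta
  rw [Finset.prod_insert h]

lemma prod_m (Q : Fin n → Fin n → ℝ) (φ : Fin w ↪ Fin n) (q : ℝ) (k : ℕ) (S : Finset ℕ)
    (B : Finset (Fin n)) :
    ∏ j ∈ B, (q ^ k * ∏ a ∈ S, Qa Q φ a j) = (q ^ B.card) ^ k * ∏ a ∈ S, Ta Q φ a B := by
  rw [Finset.prod_mul_distrib, Finset.prod_const, Finset.prod_comm, ← pow_mul, ← pow_mul, mul_comm k]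
  rfl

lemma val_add {Q : Fin n → Fin n → ℝ} (hs : ∀ i j, Q i j = Q j i) (φ : Fin w ↪ Fin n) {q : ℝ}
    (hq : q ≠ 0) {v : ℕ} (hvw : v < w) {A : Finset (Fin n)} (hA : φ ⟨v, hvw⟩ ∉ A) {act : Finset ℕ}
    {I : ℕ} {s : Ty} (hW : WF v act I s) (hact : ∀ a ∈ act, a < v) {ad : List ℕ} (hadn : ad.Nodup)
    (hads : ∀ a ∈ ad, a ∈ act)
    (hQ : ∀ a ∈ act, Qa Q φ a (φ ⟨v, hvw⟩) = if a ∈ ad then 1 else q) :
    val Q φ q act I (insert (φ ⟨v, hvw⟩) A) s =
      q⁻¹ ^ ad.length * val Q φ q (insert v act) I A (s ++ [(2 ^ v, 0)]) +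
        ((exps v s).map fun x => q⁻¹ ^ cnt ad x.1.1 * val Q φ q (insert v act) I A x.2).sum := by
  have hv : v ∉ act := fun h => lt_irrefl _ (hact v h)
  set u : Fin n := φ ⟨v, hvw⟩ with hu
  have hTv : ∀ B, Ta Q φ v B = tt Q u B := by
    intro B
    unfold Ta Qa tt
    simp only [dif_pos hvw, hu]
  set f : Finset (Fin n) → ℝ := fun B => Phi (q ^ B.card) (fun a => Ta Q φ a B) act I s with hf
  set X : (ℕ × ℕ) → ℝ × (Fin n → ℝ) := fun b =>
    (q ^ (I - b.2) * ∏ a ∈ act.filter (fun a => b.1.testBit a = false), Qa Q φ a u,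
      fun j => q ^ (I - b.2) * ∏ a ∈ act.filter (fun a => b.1.testBit a = false), Qa Q φ a j) with hX
  set X0 : ℝ × (Fin n → ℝ) := (-(s.length : ℝ) * (q ^ I * ∏ a ∈ act, Qa Q φ a u),
      fun j => q ^ I * ∏ a ∈ act, Qa Q φ a j) with hX0
  have hexp : ∀ g : (ℕ × ℕ) → ℝ, (s.map g).sum = ((exps v s).map fun x => g x.1).sum := by
    intro g
    conv_lhs => rw [← exps_fst v s]
    rw [List.map_map]
    rfl
  have key := MM_insert_list hs u A hA f (X0 :: (exps v s).map fun x => X x.1) (by
    intro B hB
    have huB : u ∉ B := fun h => hA (hB h)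
    rw [List.map_cons, List.sum_cons, List.map_map]
    have e1 : f (insert u B) = (s.map fun b => (X b).1 * ∏ j ∈ B, (X b).2 j).sum +
        X0.1 * ∏ j ∈ B, X0.2 j := by
      simp only [hf, hX, hX0, Phi, prod_m]
      rw [Finset.card_insert_of_notMem huB]
      simp only [Ta_insert Q φ _ huB, Finset.prod_mul_distrib, pow_succ, mul_pow]
      have e2 : (s.map fun b => (q ^ B.card) ^ (I - b.2) * q ^ (I - b.2) *
          ((∏ a ∈ act.filter (fun a => b.1.testBit a = false), Qa Q φ a u) *
            ∏ a ∈ act.filter (fun a => b.1.testBit a = false), Ta Q φ a B)).sum =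
          (s.map fun b => q ^ (I - b.2) *
          (∏ a ∈ act.filter (fun a => b.1.testBit a = false), Qa Q φ a u) *
          ((q ^ B.card) ^ (I - b.2) *
            ∏ a ∈ act.filter (fun a => b.1.testBit a = false), Ta Q φ a B)).sum := by
        congr 1
        apply List.map_congr_left
        intro b _
        ring
      rw [e2]
      ring
    rw [e1, hexp]
    simp only [Function.comp_def]
    ring)
  unfold val
  rw [key, List.map_cons, List.sum_cons, List.map_map, mul_add]
  congr 1
  · -- the new block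
    have hp : (s ++ [(2 ^ v, 0)]).Perm ((2 ^ v, 0) :: s) := List.perm_append_comm
    rw [sgn_congr hp.length_eq, eKg_perm _ hp, sgn_new _ hW.ne, eK_new hW hv, pow_add]
    have e1 : ∀ B, Phi (q ^ B.card) (fun a => Ta Q φ a B) (insert v act) I (s ++ [(2 ^ v, 0)]) =
        (1 - tt Q u B) * (∏ i ∈ B, X0.2 i) + tt Q u B * f B := by
      intro B
      rw [Phi_perm _ _ _ _ hp, Phi_new _ _ _ _ _ hv _ (fun c hc => hW.no hc)]
      simp only [hTv, hX0, prod_m, hf]
    simp only [e1]
    have e2 : X0.1 = -(s.length : ℝ) * (q ^ (I + act.card) * q⁻¹ ^ ad.length) := by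
      simp only [hX0]
      rw [Finset.prod_congr rfl hQ, prodQ q hq, cnt_eq' ad hadn act hads, pow_add]
      ring
    rw [e2]
    rw [pow_add]
    ring
  · rw [← List.sum_map_mul_left]
    congr 1
    apply List.map_congr_left
    intro x hx
    obtain ⟨rest, h1, h2⟩ := exps_spec v s x hx
    have hW' : WF v act I (x.1 :: rest) := hW.perm h2.symm
    simp only [Function.comp_apply]
    have hlen : x.2.length = s.length := by
      rw [h1.length_eq, ← h2.length_eq]
      rfl
    rw [sgn_congr hlen, eKg_perm _ h1, eK_add hW' hv, eKg_perm _ h2]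
    have e1 : ∀ B, Phi (q ^ B.card) (fun a => Ta Q φ a B) (insert v act) I x.2 =
        (1 - tt Q u B) * (∏ i ∈ B, (X x.1).2 i) + tt Q u B * f B := by
      intro B
      rw [Phi_perm _ _ _ _ h1, Phi_add _ _ _ _ _ hv _ _ (fun c hc => hW'.no (List.mem_cons_of_mem _ hc)),
        Phi_perm _ _ _ _ h2]
      simp only [hTv, hX, prod_m, hf]
    simp only [e1]
    have e2 : (X x.1).1 = q ^ ((I - x.1.2) + (act.filter fun a => x.1.1.testBit a = false).card) *
        q⁻¹ ^ cnt ad x.1.1 := by
      simp only [hX]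
      rw [Finset.prod_congr rfl (fun a ha => hQ a (Finset.mem_filter.1 ha).1), prodQ q hq,
        cnt_eq ad hadn act hads, pow_add]
      ring
    rw [e2, pow_add]
    ring

end sem

/-! ### the induction over the vertices -/

section main

variable {w : ℕ}

/-- the active vertices before processing vertex `i` -/
def actF (l : List (ℕ × ℕ)) (mk : List ℕ) (i : ℕ) : Finset ℕ :=
  (range i).filter fun a => isAct l mk i a = true

/-- the remaining vertices -/
noncomputable def Arem (φ : Fin w ↪ Fin n) (i : ℕ) : Finset (Fin n) :=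
  univ.filter fun j => ∀ a : Fin w, a.val < i → φ a ≠ j

lemma isAct_mono (l : List (ℕ × ℕ)) (mk : List ℕ) (i a : ℕ) (h : isAct l mk (i + 1) a = true) :
    isAct l mk i a = true := by
  unfold isAct at h ⊢
  rw [Bool.or_eq_true] at h ⊢
  rcases h with h | h
  · exact Or.inl h
  · right
    rw [List.any_eq_true] at h ⊢
    obtain ⟨e, he, h⟩ := h
    refine ⟨e, he, ?_⟩
    simp only [Bool.or_eq_true, Bool.and_eq_true, Nat.ble_eq] at h ⊢
    rcases h with h | h
    · exact Or.inl ⟨h.1, by omega⟩
    · exact Or.inr ⟨h.1, by omega⟩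

lemma act_step (l : List (ℕ × ℕ)) (mk : List ℕ) (v : ℕ) :
    (insert v (actF l mk v)) \ (daL l mk v).toFinset = actF l mk (v + 1) := by
  ext x
  unfold actF daL
  simp only [Finset.mem_sdiff, Finset.mem_insert, Finset.mem_filter, Finset.mem_range,
    List.mem_toFinset, List.mem_filter, List.mem_range, Bool.and_eq_true, Bool.or_eq_true,
    beq_iff_eq, Bool.not_eq_true']
  constructor
  · rintro ⟨h1, h2⟩
    have h3 : x < v + 1 := by
      rcases h1 with rfl | h1
      · omega
      · omega
    refine ⟨h3, ?_⟩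
    by_contra hcon
    rw [Bool.not_eq_true] at hcon
    exact h2 ⟨h3, h1.imp id fun h => h.2, hcon⟩
  · rintro ⟨h1, h2⟩
    refine ⟨?_, ?_⟩
    · by_cases hx : x = v
      · exact Or.inl hx
      · exact Or.inr ⟨by omega, isAct_mono l mk v x h2⟩
    · rintro ⟨_, _, h3⟩
      rw [h2] at h3
      exact absurd h3 (by simp)

lemma daL_nodup (l : List (ℕ × ℕ)) (mk : List ℕ) (v : ℕ) : (daL l mk v).Nodup :=
  List.nodup_range.filter _

lemma daL_mem (l : List (ℕ × ℕ)) (mk : List ℕ) (v a : ℕ) (h : a ∈ daL l mk v) :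
    a ∈ insert v (actF l mk v) ∧ a < v + 1 ∧ isAct l mk (v + 1) a = false := by
  unfold daL at h
  simp only [List.mem_filter, List.mem_range, Bool.and_eq_true, Bool.or_eq_true,
    beq_iff_eq, Bool.not_eq_true'] at h
  refine ⟨?_, h.1, h.2.2⟩
  rw [Finset.mem_insert]
  by_cases hx : a = v
  · exact Or.inl hx
  · right
    unfold actF
    rw [Finset.mem_filter, Finset.mem_range]
    exact ⟨by omega, h.2.1.resolve_left hx⟩

lemma actF_lt (l : List (ℕ × ℕ)) (mk : List ℕ) (v a : ℕ) (h : a ∈ actF l mk v) : a < v := by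
  unfold actF at h
  rw [Finset.mem_filter, Finset.mem_range] at h
  exact h.1

lemma card_step (l : List (ℕ × ℕ)) (mk : List ℕ) (v : ℕ) :
    (v - (actF l mk v).card) + (daL l mk v).length = v + 1 - (actF l mk (v + 1)).card := by
  have h1 := act_step l mk v
  have h2 : (daL l mk v).toFinset ⊆ insert v (actF l mk v) := fun a ha =>
    (daL_mem l mk v a (List.mem_toFinset.1 ha)).1
  have h3 := Finset.card_sdiff_of_subset h2
  rw [h1, List.toFinset_card_of_nodup (daL_nodup l mk v),
    Finset.card_insert_of_notMem (fun h => lt_irrefl _ (actF_lt l mk v v h))] at h3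
  have h4 : (actF l mk v).card ≤ v := by
    have := Finset.card_le_card (Finset.filter_subset (fun a => isAct l mk v a = true) (range v))
    rw [Finset.card_range] at this
    exact this
  have h5 := Finset.card_le_card h2
  rw [List.toFinset_card_of_nodup (daL_nodup l mk v),
    Finset.card_insert_of_notMem (fun h => lt_irrefl _ (actF_lt l mk v v h))] at h5
  omega

lemma Arem_insert (φ : Fin w ↪ Fin n) {v : ℕ} (hv : v < w) :
    Arem φ v = insert (φ ⟨v, hv⟩) (Arem φ (v + 1)) ∧ φ ⟨v, hv⟩ ∉ Arem φ (v + 1) := by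
  constructor
  · ext j
    unfold Arem
    simp only [Finset.mem_insert, Finset.mem_filter, Finset.mem_univ, true_and]
    constructor
    · intro h
      by_cases hj : j = φ ⟨v, hv⟩
      · exact Or.inl hj
      · right
        intro a ha
        by_cases hav : a.val = v
        · have : a = ⟨v, hv⟩ := Fin.ext hav
          rw [this]
          exact fun h' => hj h'.symm
        · exact h a (by omega)
    · rintro (rfl | h)
      · intro a ha h'
        have := φ.injective h'
        rw [this] at ha
        exact lt_irrefl _ ha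
      · intro a ha
        exact h a (by omega)
  · unfold Arem
    simp only [Finset.mem_filter, Finset.mem_univ, true_and, not_forall, not_not]
    exact ⟨⟨v, hv⟩, Nat.lt_succ_self v, rfl⟩

variable {H : SimpleGraph (Fin n)} {l : List (ℕ × ℕ)} {mk : List ℕ} {φ : Fin w ↪ Fin n}

lemma Ta_inactive (hc : Conf H φ l mk) (q : ℝ) {v : ℕ} (hv : v < w) {a : ℕ} (ha : a < v + 1)
    (hi : isAct l mk (v + 1) a = false) (B : Finset (Fin n)) (hB : B ⊆ Arem φ (v + 1)) :
    Ta (Qw H q) φ a B = q ^ B.card := by
  have haw : a < w := by omega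
  unfold Ta
  rw [← Finset.prod_const]
  apply Finset.prod_congr rfl
  intro j hj
  unfold Qa
  rw [dif_pos haw]
  unfold Qw
  rw [if_neg]
  intro hadj
  unfold isAct at hi
  rw [Bool.or_eq_false_iff] at hi
  have hmk : a ∉ mk := by
    intro h
    have := hi.1
    rw [List.contains_iff_mem.2 h] at this
    exact absurd this (by simp)
  obtain ⟨b, hb⟩ := hc.2 ⟨a, haw⟩ hmk j hadj
  have hbv : v + 1 ≤ b.val := by
    by_contra hcon
    have := hB hj
    unfold Arem at this
    rw [Finset.mem_filter] at this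
    exact this.2 b (by omega) hb
  rw [← hb, hc.1] at hadj
  unfold adjL at hadj
  rw [List.any_eq_true] at hadj
  obtain ⟨e, he, h⟩ := hadj
  have h2 := List.any_eq_false.1 hi.2 e he
  apply h2
  simp only [Bool.or_eq_true, Bool.and_eq_true, beq_iff_eq, Nat.ble_eq] at h ⊢
  rcases h with h | h
  · exact Or.inl ⟨h.1, by omega⟩
  · exact Or.inr ⟨h.2, by omega⟩

lemma adjs_spec (v a : ℕ) : a ∈ adjs l v ↔ a < v ∧
    (l.any fun e => (e.1 == a && e.2 == v) || (e.1 == v && e.2 == a)) = true := by
  unfold adjs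
  rw [List.mem_filter, List.mem_range]

lemma adjs_act (mk : List ℕ) (v a : ℕ) (h : a ∈ adjs l v) : a ∈ actF l mk v := by
  rw [adjs_spec] at h
  unfold actF
  rw [Finset.mem_filter, Finset.mem_range]
  refine ⟨h.1, ?_⟩
  unfold isAct
  rw [Bool.or_eq_true]
  right
  have h2 := h.2
  rw [List.any_eq_true] at h2 ⊢
  obtain ⟨e, he, h3⟩ := h2
  refine ⟨e, he, ?_⟩
  simp only [Bool.or_eq_true, Bool.and_eq_true, beq_iff_eq, Nat.ble_eq] at h3 ⊢
  rcases h3 with h3 | h3
  · exact Or.inl ⟨h3.1, by omega⟩
  · exact Or.inr ⟨h3.2, by omega⟩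

lemma Qa_adjs (hc : Conf H φ l mk) (q : ℝ) {v : ℕ} (hv : v < w) (a : ℕ) (ha : a ∈ actF l mk v) :
    Qa (Qw H q) φ a (φ ⟨v, hv⟩) = if a ∈ adjs l v then 1 else q := by
  have hav := actF_lt l mk v a ha
  have haw : a < w := by omega
  unfold Qa
  rw [dif_pos haw]
  unfold Qw
  have : H.Adj (φ ⟨a, haw⟩) (φ ⟨v, hv⟩) ↔ a ∈ adjs l v := by
    rw [hc.1, adjs_spec]
    unfold adjL
    simp only [hav, true_and]
  simp only [this]

/-- one step of the program for one entry -/
lemma step_entry (hc : Conf H φ l mk) {q : ℝ} (hq : q ≠ 0) {v : ℕ} (hv : v < w)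
    (e : Ty × List ℕ) (hW : WF v (actF l mk v) (v - (actF l mk v).card) e.1) :
    (∀ e' ∈ stepItem v (adjs l v) (daL l mk v) e,
      WF (v + 1) (actF l mk (v + 1)) (v + 1 - (actF l mk (v + 1)).card) e'.1) ∧
    evalN e.2 q⁻¹ * val (Qw H q) φ q (actF l mk v) (v - (actF l mk v).card) (Arem φ v) e.1 =
      ((stepItem v (adjs l v) (daL l mk v) e).map fun e' => evalN e'.2 q⁻¹ *
        val (Qw H q) φ q (actF l mk (v + 1)) (v + 1 - (actF l mk (v + 1)).card) (Arem φ (v + 1))
          e'.1).sum := by
  have hact : ∀ a ∈ actF l mk v, a < v := fun a ha => actF_lt l mk v a ha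
  obtain ⟨hA1, hA2⟩ := Arem_insert φ hv
  have hnorm : ∀ s : Ty, WF (v + 1) (insert v (actF l mk v)) (v - (actF l mk v).card) s →
      WF (v + 1) (actF l mk (v + 1)) (v + 1 - (actF l mk (v + 1)).card) (norm (daL l mk v) s) ∧
      val (Qw H q) φ q (actF l mk (v + 1)) (v + 1 - (actF l mk (v + 1)).card) (Arem φ (v + 1))
        (norm (daL l mk v) s) =
      val (Qw H q) φ q (insert v (actF l mk v)) (v - (actF l mk v).card) (Arem φ (v + 1)) s := by
    intro s hs
    have := val_norm (Qw H q) φ q (Arem φ (v + 1)) (daL l mk v) _ _ s hs (daL_nodup l mk v)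
      (fun a ha => (daL_mem l mk v a ha).1)
      (fun a ha B hB => Ta_inactive hc q hv (daL_mem l mk v a ha).2.1 (daL_mem l mk v a ha).2.2 B hB)
    rw [act_step, card_step] at this
    exact this
  have hWnew : WF (v + 1) (insert v (actF l mk v)) (v - (actF l mk v).card) (e.1 ++ [(2 ^ v, 0)]) :=
    (hW.new hact).perm (List.perm_append_singleton _ _).symm
  have hWx : ∀ x ∈ exps v e.1,
      WF (v + 1) (insert v (actF l mk v)) (v - (actF l mk v).card) x.2 := by
    intro x hx
    obtain ⟨rest, h1, h2⟩ := exps_spec v e.1 x hx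
    exact ((hW.perm h2.symm).add hact).perm h1.symm
  constructor
  · intro e' he'
    unfold stepItem at he'
    rw [List.mem_cons, List.mem_map] at he'
    rcases he' with rfl | ⟨x, hx, rfl⟩
    · exact (hnorm _ hWnew).1
    · exact (hnorm _ (hWx x hx)).1
  · have hadn : (adjs l v).Nodup := List.nodup_range.filter _
    rw [hA1, val_add (Qw_symm H q) φ hq hv hA2 hW hact hadn (fun a ha => adjs_act mk v a ha)
      (Qa_adjs hc q hv)]
    unfold stepItem
    rw [List.map_cons, List.sum_cons, List.map_map, mul_add]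
    congr 1
    · simp only
      rw [evalN_shift, (hnorm _ hWnew).2]
      ring
    · rw [← List.sum_map_mul_left]
      congr 1
      apply List.map_congr_left
      intro x hx
      simp only [Function.comp_apply]
      rw [evalN_shift, (hnorm _ (hWx x hx)).2]
      ring

lemma sum_flatMap {α β : Type*} (g : β → ℝ) (F : α → List β) : ∀ L : List α,
    ((L.flatMap F).map g).sum = (L.map fun a => ((F a).map g).sum).sum
  | [] => by simp
  | a :: L => by
    rw [List.flatMap_cons, List.map_append, List.sum_append, sum_flatMap g F L, List.map_cons,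
      List.sum_cons]

lemma actF_zero : actF l mk 0 = ∅ := by
  unfold actF
  simp

lemma WF_zero : WF 1 (insert 0 (actF l mk 0)) (0 - (actF l mk 0).card) [(1, 0)] where
  ne := by simp
  one a ha := by
    rw [actF_zero] at ha
    have : a = 0 := by simpa using ha
    subst this
    rfl
  sum := by
    rw [actF_zero]
    rfl
  bit b hb a ha := by
    rw [List.mem_singleton] at hb
    subst hb
    by_contra hcon
    have h1 : a ≠ 0 := by omega
    have h2 : (2 ^ 0).testBit a = false := Nat.testBit_two_pow_of_ne h1.symm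
    rw [pow_zero] at h2
    simp only at ha
    rw [h2] at ha
    exact absurd ha (by simp)

/-- the invariant -/
lemma dpst_spec (hc : Conf H φ l mk) {q : ℝ} (hq : q ≠ 0) : ∀ v : ℕ, v < w →
    (∀ e ∈ dpst l mk v, WF (v + 1) (actF l mk (v + 1)) (v + 1 - (actF l mk (v + 1)).card) e.1) ∧
    RH H q = ((dpst l mk v).map fun e => evalN e.2 q⁻¹ *
      val (Qw H q) φ q (actF l mk (v + 1)) (v + 1 - (actF l mk (v + 1)).card) (Arem φ (v + 1))
        e.1).sum
  | 0, hv => by
    have hnorm := val_norm (Qw H q) φ q (Arem φ 1) (daL l mk 0) _ _ [(1, 0)] (WF_zero (l := l) (mk := mk))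
      (daL_nodup l mk 0) (fun a ha => (daL_mem l mk 0 a ha).1)
      (fun a ha B hB => Ta_inactive hc q hv (daL_mem l mk 0 a ha).2.1 (daL_mem l mk 0 a ha).2.2 B hB)
    rw [act_step, card_step] at hnorm
    constructor
    · intro e he
      unfold dpst at he
      rw [List.mem_singleton] at he
      subst he
      exact hnorm.1
    · unfold dpst
      rw [List.map_singleton, List.sum_singleton]
      simp only
      rw [hnorm.2, evalN_cons, evalN_nil, mul_zero, add_zero, Nat.cast_one, one_mul]
      obtain ⟨hA1, hA2⟩ := Arem_insert φ hv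
      have hA0 : Arem φ 0 = univ := by
        unfold Arem
        simp
      unfold RH
      rw [← hA0, hA1, RR_insert (Qw_symm H q) _ _ hA2]
      unfold val
      have h1 : eKg (sz (insert 0 (actF l mk 0))) [(1, 0)] = 0 := by
        simp [eKg]
      have h2 : sgn [(1, 0)] = 1 := by
        unfold sgn
        simp
      rw [h1, h2, pow_zero, Int.cast_one, one_mul, one_mul]
      congr 1
      funext C
      unfold Phi
      rw [actF_zero]
      have h3 : ({0} : Finset ℕ).filter (fun a => (1 : ℕ).testBit a = false) = ∅ := by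
        decide
      have h4 : Ta (Qw H q) φ 0 C = tt (Qw H q) (φ ⟨0, hv⟩) C := by
        unfold Ta Qa tt
        simp only [dif_pos hv]
      simp only [List.map_cons, List.map_nil, List.sum_cons, List.sum_nil, h3, Finset.prod_empty,
        List.length_cons, List.length_nil, insert_empty_eq, Finset.prod_singleton, h4,
        Finset.card_empty, Nat.sub_zero, pow_zero]
      norm_num
  | v + 1, hv => by
    obtain ⟨ih1, ih2⟩ := dpst_spec hc hq v (by omega)
    have hstep : ∀ e ∈ dpst l mk v, _ := fun e he => step_entry hc hq hv e (ih1 e he)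
    constructor
    · intro e he
      unfold dpst at he
      obtain ⟨e', he', h⟩ := merge_mem _ _ he
      rw [List.mem_flatMap] at he'
      obtain ⟨e0, he0, he'⟩ := he'
      rw [← h]
      exact (hstep e0 he0).1 e' he'
    · rw [ih2]
      conv_rhs => unfold dpst
      rw [merge_sum, sum_flatMap]
      congr 1
      apply List.map_congr_left
      intro e he
      exact (hstep e he).2

end main

/-! ### the final conversion -/

section fin

lemma cv_testBit (m : ℕ) : ∀ (mk : List ℕ) (i : ℕ) (w : ℕ), i < mk.length →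
    (cv mk m).testBit i = m.testBit (mk.getD i w)
  | [], i, w, h => absurd h (by simp)
  | a :: t, 0, w, h => by
    change (Nat.bit (m.testBit a) (cv t m)).testBit 0 = _
    rw [Nat.testBit_bit_zero]
    rfl
  | a :: t, i + 1, w, h => by
    change (Nat.bit (m.testBit a) (cv t m)).testBit (i + 1) = _
    rw [Nat.testBit_bit_succ, cv_testBit m t i w (by simpa using h)]
    rfl

lemma mk_image (mk : List ℕ) (w : ℕ) : mk.toFinset = (range mk.length).image fun i => mk.getD i w := by
  ext a
  rw [List.mem_toFinset, Finset.mem_image]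
  constructor
  · intro h
    obtain ⟨i, hi, rfl⟩ := List.getElem_of_mem h
    exact ⟨i, Finset.mem_range.2 hi, by simp [hi]⟩
  · rintro ⟨i, hi, rfl⟩
    rw [Finset.mem_range] at hi
    rw [List.getD_eq_getElem _ _ hi]
    exact List.getElem_mem hi

lemma getD_inj (mk : List ℕ) (hn : mk.Nodup) (w : ℕ) :
    Set.InjOn (fun i => mk.getD i w) (range mk.length : Finset ℕ) := by
  intro i hi j hj h
  rw [Finset.mem_coe, Finset.mem_range] at hi hj
  simp only at h
  rw [List.getD_eq_getElem _ _ hi, List.getD_eq_getElem _ _ hj] at h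
  exact (List.Nodup.getElem_inj_iff hn).1 h

lemma prod_mk (mk : List ℕ) (hn : mk.Nodup) (w m : ℕ) (F : ℕ → ℝ) :
    ∏ i ∈ (range mk.length).filter (fun i => (cv mk m).testBit i = false), F (mk.getD i w) =
      ∏ a ∈ mk.toFinset.filter (fun a => m.testBit a = false), F a := by
  rw [mk_image mk w, Finset.filter_image, Finset.prod_image]
  · apply Finset.prod_congr _ (fun _ _ => rfl)
    apply Finset.filter_congr
    intro i hi
    rw [cv_testBit m mk i w (Finset.mem_range.1 hi)]
  · intro i hi j hj h
    exact getD_inj mk hn w (Finset.mem_filter.1 hi).1 (Finset.mem_filter.1 hj).1 h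

lemma prod_mk' (mk : List ℕ) (hn : mk.Nodup) (w : ℕ) (F : ℕ → ℝ) :
    ∏ i ∈ range mk.length, F (mk.getD i w) = ∏ a ∈ mk.toFinset, F a := by
  rw [mk_image mk w, Finset.prod_image (getD_inj mk hn w)]

lemma bsz_cv (mk : List ℕ) (hn : mk.Nodup) (w : ℕ) (b : ℕ × ℕ) :
    bsz mk.length (cv mk b.1, b.2) = sz mk.toFinset b := by
  unfold bsz sz
  simp only
  congr 1
  rw [mk_image mk w, Finset.filter_image, Finset.card_image_of_injOn,
    ← List.toFinset_card_of_nodup (List.nodup_range.filter _)]
  · congr 1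
    ext i
    simp only [List.mem_toFinset, List.mem_filter, List.mem_range, Finset.mem_filter, Finset.mem_range]
    constructor
    · rintro ⟨h1, h2⟩
      rw [cv_testBit b.1 mk i w h1] at h2
      exact ⟨h1, h2⟩
    · rintro ⟨h1, h2⟩
      rw [cv_testBit b.1 mk i w h1]
      exact ⟨h1, h2⟩
  · intro i hi j hj h
    exact getD_inj mk hn w (Finset.mem_filter.1 hi).1 (Finset.mem_filter.1 hj).1 h

lemma Fty_perm (K r : ℕ) (z : ℝ) (wt : ℕ → ℝ) {s t : Ty} (h : s.Perm t) :
    Fty K r z wt s = Fty K r z wt t := by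
  unfold Fty
  rw [(h.map _).sum_eq, h.length_eq]

lemma Fty_cv (K : ℕ) (mk : List ℕ) (hn : mk.Nodup) (w : ℕ) (z : ℝ) (F : ℕ → ℝ) (s : Ty) :
    Fty K mk.length z (fun i => F (mk.getD i w)) (s.map fun b => (cv mk b.1, b.2)) =
      Phi z F mk.toFinset K s := by
  unfold Fty Phi
  rw [List.map_map, List.length_map, prod_mk' mk hn w F]
  congr 2
  apply List.map_congr_left
  intro b _
  simp only [Function.comp_apply]
  rw [prod_mk mk hn w b.1 F]

lemma actF_final {w : ℕ} {l : List (ℕ × ℕ)} {mk : List ℕ} (hin : inOK w l mk = true) :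
    actF l mk w = mk.toFinset := by
  unfold inOK at hin
  simp only [Bool.and_eq_true, List.all_eq_true, decide_eq_true_eq] at hin
  obtain ⟨⟨⟨_, hl⟩, hm⟩, _⟩ := hin
  ext a
  unfold actF
  rw [Finset.mem_filter, Finset.mem_range, List.mem_toFinset]
  constructor
  · rintro ⟨h1, h2⟩
    unfold isAct at h2
    rw [Bool.or_eq_true] at h2
    rcases h2 with h2 | h2
    · exact List.contains_iff_mem.1 h2
    · rw [List.any_eq_true] at h2
      obtain ⟨e, he, h3⟩ := h2
      simp only [Bool.or_eq_true, Bool.and_eq_true, beq_iff_eq, Nat.ble_eq] at h3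
      have := hl e he
      omega
  · intro h
    refine ⟨hm a h, ?_⟩
    unfold isAct
    rw [Bool.or_eq_true]
    exact Or.inl (List.contains_iff_mem.2 h)

end fin


end M8

open M8 in
/-- list of pairs `(canonical type, polynomial)`; the coefficient of `r^j` counts the set partitions
of the `w` vertices with that type that separate exactly `j` edges of `l`. -/
def dp (w : ℕ) (l : List (ℕ × ℕ)) (mk : List ℕ) : List (Ty × List ℕ) :=
  merge ((dpst l mk (w - 1)).map fun e => (sortS (e.1.map fun b => (cv mk b.1, b.2)), e.2))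


open M8 in
theorem dp_sound (w : ℕ) (l : List (ℕ × ℕ)) (mk : List ℕ) (hin : inOK w l mk = true)
    (H : SimpleGraph (Fin n)) (φ : Fin w ↪ Fin n) (hc : Conf H φ l mk)
    (q : ℝ) (hq0 : 0 < q) :
    RH H q = ((dp w l mk).map fun e =>
      evalN e.2 q⁻¹ * (sgn e.1 : ℝ) * q ^ eK mk.length e.1 *
        MM (Qw H q) (fun B => Fty (w - mk.length) mk.length (q ^ B.card)
          (fun i => if h : mk.getD i w < w then tt (Qw H q) (φ ⟨mk.getD i w, h⟩) B else 1) e.1)
          (univ.filter fun j => ∀ a, φ a ≠ j)).sum := by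
  have hin' := hin
  unfold inOK at hin'
  simp only [Bool.and_eq_true, List.all_eq_true, decide_eq_true_eq] at hin'
  obtain ⟨⟨⟨hw, _⟩, _⟩, hn⟩ := hin'
  obtain ⟨v, rfl⟩ : ∃ v, w = v + 1 := ⟨w - 1, by omega⟩
  obtain ⟨_, h2⟩ := dpst_spec hc hq0.ne' v (Nat.lt_succ_self v)
  rw [h2]
  have hA : Arem φ (v + 1) = univ.filter fun j => ∀ a, φ a ≠ j := by
    unfold Arem
    apply Finset.filter_congr
    intro j _
    exact ⟨fun h a => h a a.2, fun h a _ => h a⟩
  have hcard : mk.toFinset.card = mk.length := List.toFinset_card_of_nodup hn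
  rw [actF_final hin, hA, hcard]
  set g : Ty → ℝ := fun s => (sgn s : ℝ) * q ^ eK mk.length s *
        MM (Qw H q) (fun B => Fty (v + 1 - mk.length) mk.length (q ^ B.card)
          (fun i => if h : mk.getD i (v + 1) < v + 1 then
            tt (Qw H q) (φ ⟨mk.getD i (v + 1), h⟩) B else 1) s)
          (univ.filter fun j => ∀ a, φ a ≠ j) with hg
  have e1 : ∀ e : Ty × List ℕ, evalN e.2 q⁻¹ * (sgn e.1 : ℝ) * q ^ eK mk.length e.1 *
        MM (Qw H q) (fun B => Fty (v + 1 - mk.length) mk.length (q ^ B.card)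
          (fun i => if h : mk.getD i (v + 1) < v + 1 then
            tt (Qw H q) (φ ⟨mk.getD i (v + 1), h⟩) B else 1) e.1)
          (univ.filter fun j => ∀ a, φ a ≠ j) = evalN e.2 q⁻¹ * g e.1 := by
    intro e
    simp only [hg]
    ring
  simp only [e1]
  unfold dp
  rw [merge_sum, List.map_map]
  congr 1
  apply List.map_congr_left
  intro e _
  simp only [Function.comp_apply]
  congr 1
  have hp := sortS_perm (e.1.map fun b => (cv mk b.1, b.2))
  simp only [hg]
  unfold M8.val
  have s1 : sgn (sortS (e.1.map fun b => (cv mk b.1, b.2))) = sgn e.1 := by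
    apply sgn_congr
    rw [hp.length_eq, List.length_map]
  have s2 : eK mk.length (sortS (e.1.map fun b => (cv mk b.1, b.2))) = eKg (sz mk.toFinset) e.1 := by
    rw [eK_eq, eKg_perm _ hp, eKg_map]
    exact eKg_congr fun b _ => bsz_cv mk hn (v + 1) b
  rw [s1, s2]
  congr 1
  congr 1
  funext B
  rw [Fty_perm _ _ _ _ hp]
  have s3 : ∀ i, (if h : mk.getD i (v + 1) < v + 1 then
            tt (Qw H q) (φ ⟨mk.getD i (v + 1), h⟩) B else 1) = Ta (Qw H q) φ (mk.getD i (v + 1)) B := by
    intro i
    unfold Ta Qa tt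
    by_cases h : mk.getD i (v + 1) < v + 1
    · simp only [dif_pos h]
    · simp only [dif_neg h, Finset.prod_const_one]
  simp only [s3]
  exact (Fty_cv (v + 1 - mk.length) mk hn (v + 1) (q ^ B.card) (fun a => Ta (Qw H q) φ a B) e.1).symm

end Pool.Agent.H34R2.U
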