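import Pool.Agent.H34R2.U.G23
import Pool.Agent.H34R2.U.M8

/-! TASK R6: six vertices and five missing edges: `P3 ∪ C3` is at least as good as `K2 ∪ C4`. -/

set_option autoImplicit false

namespace Pool.Agent.H34R2.U

open Finset

/-- `P3 ∪ C3` on six vertices -/
def PC (H : SimpleGraph (Fin 6)) : Prop :=
  ∃ a b c x y z, P3 H a b c ∧ x ≠ y ∧ y ≠ z ∧ x ≠ z ∧ H.Adj x y ∧ H.Adj y z ∧ H.Adj x z

lemma r6_EE_empty {n : ℕ} (Q : Fin n → Fin n → ℝ) (g : Finset (Fin n) → ℝ) : EE Q g ∅ = 1 := by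
  unfold EE
  simp

/-- the value of the reliability of a configuration that contains all vertices. -/
theorem RH_closed (w : ℕ) (l : List (ℕ × ℕ)) (hin : inOK w l [] = true)
    (H : SimpleGraph (Fin w)) (φ : Fin w ↪ Fin w)
    (hc : ∀ a b, H.Adj (φ a) (φ b) ↔ adjL l a b = true) (q : ℝ) (hq0 : 0 < q) :
    RH H q = ((dp w l []).map fun e =>
      evalN e.2 q⁻¹ * (sgn e.1 : ℝ) * q ^ eK 0 e.1).sum := by
  have hsurj : Function.Surjective φ := Finite.injective_iff_surjective.1 φ.injective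
  have hconf : Conf H φ l [] := ⟨hc, fun a _ j _ => hsurj j⟩
  have h := dp_sound w l [] hin H φ hconf q hq0
  have hempty : (univ.filter fun j => ∀ a, φ a ≠ j) = (∅ : Finset (Fin w)) := by
    apply Finset.filter_eq_empty_iff.2
    intro j _ hj
    obtain ⟨a, ha⟩ := hsurj j
    exact hj a ha
  rw [h, hempty]
  congr 1
  apply List.map_congr_left
  intro e _
  rw [MM, r6_EE_empty, mul_one]
  rfl

/-- edge list of `K2 ∪ C4` -/
def r6_lH : List (ℕ × ℕ) := [(0,1),(2,3),(3,4),(4,5),(2,5)]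

/-- edge list of `P3 ∪ C3` -/
def r6_lT : List (ℕ × ℕ) := [(0,1),(1,2),(3,4),(4,5),(3,5)]

def r6_dH : List (Ty × List ℕ) :=
  [([(0, 6)], [1]), ([(0, 1), (0, 5)], [0, 2, 4]), ([(0, 2), (0, 4)], [1, 0, 4, 8, 2]),
  ([(0, 3), (0, 3)], [0, 0, 4, 4, 0, 2]), ([(0, 1), (0, 1), (0, 4)], [0, 1, 0, 12, 2]),
  ([(0, 1), (0, 2), (0, 3)], [0, 0, 4, 24, 20, 12]), ([(0, 2), (0, 2), (0, 2)], [0, 0, 2, 0, 9, 4]),
  ([(0, 1), (0, 1), (0, 1), (0, 3)], [0, 0, 0, 4, 12, 4]), ([(0, 1), (0, 1), (0, 2), (0, 2)], [0, 0, 0, 6, 18, 21]),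
  ([(0, 1), (0, 1), (0, 1), (0, 1), (0, 2)], [0, 0, 0, 0, 5, 10]),
  ([(0, 1), (0, 1), (0, 1), (0, 1), (0, 1), (0, 1)], [0, 0, 0, 0, 0, 1])]

def r6_dT : List (Ty × List ℕ) :=
  [([(0, 6)], [1]), ([(0, 1), (0, 5)], [0, 2, 4]), ([(0, 2), (0, 4)], [0, 2, 4, 6, 3]),
  ([(0, 3), (0, 3)], [1, 0, 0, 6, 3]), ([(0, 1), (0, 1), (0, 4)], [0, 0, 3, 9, 3]),
  ([(0, 1), (0, 2), (0, 3)], [0, 2, 4, 12, 36, 6]), ([(0, 2), (0, 2), (0, 2)], [0, 0, 0, 6, 3, 6]),
  ([(0, 1), (0, 1), (0, 1), (0, 3)], [0, 0, 1, 1, 15, 3]), ([(0, 1), (0, 1), (0, 2), (0, 2)], [0, 0, 0, 6, 18, 21]),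
  ([(0, 1), (0, 1), (0, 1), (0, 1), (0, 2)], [0, 0, 0, 0, 5, 10]),
  ([(0, 1), (0, 1), (0, 1), (0, 1), (0, 1), (0, 1)], [0, 0, 0, 0, 0, 1])]

lemma r6_dpH : dp 6 r6_lH [] = r6_dH := by decide +kernel

lemma r6_dpT : dp 6 r6_lT [] = r6_dT := by decide +kernel

lemma r6_valH (q : ℝ) (hq : 0 < q) :
    (r6_dH.map fun e => evalN e.2 q⁻¹ * (sgn e.1 : ℝ) * q ^ eK 0 e.1).sum =
      1 - 4 * q ^ 3 - 6 * q ^ 4 - 4 * q ^ 5 + 40 * q ^ 6 + 20 * q ^ 7 - 131 * q ^ 8 +
        116 * q ^ 9 - 32 * q ^ 10 := by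
  simp [r6_dH, evalN, sgn, eK, bsz, Nat.factorial]
  field_simp
  ring

lemma r6_valT (q : ℝ) (hq : 0 < q) :
    (r6_dT.map fun e => evalN e.2 q⁻¹ * (sgn e.1 : ℝ) * q ^ eK 0 e.1).sum =
      1 - 4 * q ^ 3 - 5 * q ^ 4 - 3 * q ^ 5 + 20 * q ^ 6 + 70 * q ^ 7 - 186 * q ^ 8 +
        145 * q ^ 9 - 38 * q ^ 10 := by
  simp [r6_dT, evalN, sgn, eK, bsz, Nat.factorial]
  field_simp
  ring

/-! ### coordinates -/

lemma r6_emb (f : Fin 6 → Fin 6) (h : ∀ i j : Fin 6, i < j → f i ≠ f j) :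
    Function.Injective f := by
  intro i j hij
  rcases lt_trichotomy i j with h1 | h1 | h1
  · exact absurd hij (h i j h1)
  · exact h1
  · exact absurd hij.symm (h j i h1)

lemma r6_H (H : SimpleGraph (Fin 6)) (v y a b c d : Fin 6) (hK : K2 H v y)
    (hC : C4 H a b c d) :
    ∃ φ : Fin 6 ↪ Fin 6, ∀ i j, H.Adj (φ i) (φ j) ↔ adjL r6_lH i j = true := by
  obtain ⟨hv, hy⟩ := hK
  obtain ⟨hac, hbd, ha, hb, hc, hd⟩ := hC
  have hvy : v ≠ y := ((hv y).2 rfl).ne
  have hab : a ≠ b := ((ha b).2 (Or.inl rfl)).ne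
  have had : a ≠ d := ((ha d).2 (Or.inr rfl)).ne
  have hbc : b ≠ c := ((hb c).2 (Or.inr rfl)).ne
  have hcd : c ≠ d := ((hc d).2 (Or.inr rfl)).ne
  -- `v` and `y` have one neighbour only
  have hne : ∀ p s t : Fin 6, s ≠ t → H.Adj p s → H.Adj p t → v ≠ p ∧ y ≠ p := by
    intro p s t hst hs ht
    constructor
    · rintro rfl
      exact hst (((hv s).1 hs).trans ((hv t).1 ht).symm)
    · rintro rfl
      exact hst (((hy s).1 hs).trans ((hy t).1 ht).symm)
  have h1 := hne a b d hbd ((ha b).2 (Or.inl rfl)) ((ha d).2 (Or.inr rfl))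
  have h2 := hne b a c hac ((hb a).2 (Or.inl rfl)) ((hb c).2 (Or.inr rfl))
  have h3 := hne c b d hbd ((hc b).2 (Or.inl rfl)) ((hc d).2 (Or.inr rfl))
  have h4 := hne d a c hac ((hd a).2 (Or.inl rfl)) ((hd c).2 (Or.inr rfl))
  have hinj : Function.Injective ![v, y, a, b, c, d] := by
    apply r6_emb
    intro i j hij
    fin_cases i <;> fin_cases j <;> first | exact absurd hij (by decide) | (simp; tauto)
  refine ⟨⟨![v, y, a, b, c, d], hinj⟩, ?_⟩
  intro i j
  show H.Adj (![v, y, a, b, c, d] i) (![v, y, a, b, c, d] j) ↔ _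
  have hin : ∀ s t : Fin 6, (![v, y, a, b, c, d] s = ![v, y, a, b, c, d] t) ↔ s = t :=
    fun s t => hinj.eq_iff
  fin_cases i
  · exact (hv _).trans ((hin j 1).trans (by fin_cases j <;> decide))
  · exact (hy _).trans ((hin j 0).trans (by fin_cases j <;> decide))
  · exact (ha _).trans ((or_congr (hin j 3) (hin j 5)).trans (by fin_cases j <;> decide))
  · exact (hb _).trans ((or_congr (hin j 2) (hin j 4)).trans (by fin_cases j <;> decide))
  · exact (hc _).trans ((or_congr (hin j 3) (hin j 5)).trans (by fin_cases j <;> decide))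
  · exact (hd _).trans ((or_congr (hin j 2) (hin j 4)).trans (by fin_cases j <;> decide))

lemma r6_T (T : SimpleGraph (Fin 6)) (hT : PC T) :
    ∃ φ : Fin 6 ↪ Fin 6, ∀ i j, T.Adj (φ i) (φ j) ↔ adjL r6_lT i j = true := by
  obtain ⟨a, b, c, x, y, z, ⟨hac, ha, hb, hc⟩, hxy, hyz, hxz, axy, ayz, axz⟩ := hT
  have hab : a ≠ b := ((ha b).2 rfl).ne
  have hbc : b ≠ c := ((hb c).2 (Or.inr rfl)).ne
  have hne : ∀ p s t : Fin 6, s ≠ t → T.Adj p s → T.Adj p t → T.Adj s t →
      a ≠ p ∧ b ≠ p ∧ c ≠ p := by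
    intro p s t hst hs ht hst'
    refine ⟨?_, ?_, ?_⟩
    · rintro rfl
      exact hst (((ha s).1 hs).trans ((ha t).1 ht).symm)
    · rintro rfl
      rcases (hb s).1 hs with rfl | rfl
      · exact ht.ne ((ha t).1 hst').symm
      · exact ht.ne ((hc t).1 hst').symm
    · rintro rfl
      exact hst (((hc s).1 hs).trans ((hc t).1 ht).symm)
  have h1 := hne x y z hyz axy axz ayz
  have h2 := hne y x z hxz axy.symm ayz axz
  have h3 := hne z x y hxy axz.symm ayz.symm axy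
  have hinj : Function.Injective ![a, b, c, x, y, z] := by
    apply r6_emb
    intro i j hij
    fin_cases i <;> fin_cases j <;> first | exact absurd hij (by decide) | (simp; tauto)
  have hsurj : Function.Surjective ![a, b, c, x, y, z] := Finite.injective_iff_surjective.1 hinj
  have hin : ∀ s t : Fin 6, (![a, b, c, x, y, z] s = ![a, b, c, x, y, z] t) ↔ s = t :=
    fun s t => hinj.eq_iff
  have hx : ∀ j, T.Adj x j ↔ j = y ∨ j = z := by
    intro j
    constructor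
    · intro h
      obtain ⟨i, rfl⟩ := hsurj j
      fin_cases i
      · exact absurd ((ha x).1 h.symm).symm h1.2.1
      · rcases (hb x).1 h.symm with h5 | h5
        · exact absurd h5.symm h1.1
        · exact absurd h5.symm h1.2.2
      · exact absurd ((hc x).1 h.symm).symm h1.2.1
      · exact absurd rfl h.ne
      · exact Or.inl rfl
      · exact Or.inr rfl
    · rintro (rfl | rfl)
      · exact axy
      · exact axz
  have hy : ∀ j, T.Adj y j ↔ j = x ∨ j = z := by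
    intro j
    constructor
    · intro h
      obtain ⟨i, rfl⟩ := hsurj j
      fin_cases i
      · exact absurd ((ha y).1 h.symm).symm h2.2.1
      · rcases (hb y).1 h.symm with h5 | h5
        · exact absurd h5.symm h2.1
        · exact absurd h5.symm h2.2.2
      · exact absurd ((hc y).1 h.symm).symm h2.2.1
      · exact Or.inl rfl
      · exact absurd rfl h.ne
      · exact Or.inr rfl
    · rintro (rfl | rfl)
      · exact axy.symm
      · exact ayz
  have hz : ∀ j, T.Adj z j ↔ j = x ∨ j = y := by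
    intro j
    constructor
    · intro h
      obtain ⟨i, rfl⟩ := hsurj j
      fin_cases i
      · exact absurd ((ha z).1 h.symm).symm h3.2.1
      · rcases (hb z).1 h.symm with h5 | h5
        · exact absurd h5.symm h3.1
        · exact absurd h5.symm h3.2.2
      · exact absurd ((hc z).1 h.symm).symm h3.2.1
      · exact Or.inl rfl
      · exact Or.inr rfl
      · exact absurd rfl h.ne
    · rintro (rfl | rfl)
      · exact axz.symm
      · exact ayz.symm
  refine ⟨⟨![a, b, c, x, y, z], hinj⟩, ?_⟩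
  intro i j
  show T.Adj (![a, b, c, x, y, z] i) (![a, b, c, x, y, z] j) ↔ _
  fin_cases i
  · exact (ha _).trans ((hin j 1).trans (by fin_cases j <;> decide))
  · exact (hb _).trans ((or_congr (hin j 0) (hin j 2)).trans (by fin_cases j <;> decide))
  · exact (hc _).trans ((hin j 1).trans (by fin_cases j <;> decide))
  · exact (hx _).trans ((or_congr (hin j 4) (hin j 5)).trans (by fin_cases j <;> decide))
  · exact (hy _).trans ((or_congr (hin j 3) (hin j 5)).trans (by fin_cases j <;> decide))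
  · exact (hz _).trans ((or_congr (hin j 3) (hin j 4)).trans (by fin_cases j <;> decide))

theorem six_compare (H T : SimpleGraph (Fin 6)) (v y a b c d : Fin 6) (hK : K2 H v y)
    (hC : C4 H a b c d) (hT : PC T) (hs : ∑ v, dg T v = 10) (q : ℝ) (hq0 : 0 < q)
    (hq1 : q < 1) : RH H q ≤ RH T q := by
  obtain ⟨φ, hφ⟩ := r6_H H v y a b c d hK hC
  obtain ⟨ψ, hψ⟩ := r6_T T hT
  rw [RH_closed 6 r6_lH (by decide) H φ hφ q hq0, RH_closed 6 r6_lT (by decide) T ψ hψ q hq0,
    r6_dpH, r6_dpT, r6_valH q hq0, r6_valT q hq0]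
  have h1 : 0 ≤ q ^ 4 * (1 - q) ^ 5 * (1 + 6 * q) := by
    have : 0 < 1 - q := by linarith
    positivity
  nlinarith [h1]

theorem PC_iso (H T : SimpleGraph (Fin 6)) (hH : PC H) (hT : PC T) (hs : ∑ v, dg H v = 10)
    (hs' : ∑ v, dg T v = 10) :
    ∃ σ : Equiv.Perm (Fin 6), ∀ i j, H.Adj i j ↔ T.Adj (σ i) (σ j) := by
  obtain ⟨φ, hφ⟩ := r6_T H hH
  obtain ⟨ψ, hψ⟩ := r6_T T hT
  have hφb : Function.Bijective φ := Finite.injective_iff_bijective.1 φ.injective
  have hψb : Function.Bijective ψ := Finite.injective_iff_bijective.1 ψ.injective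
  refine ⟨(Equiv.ofBijective φ hφb).symm.trans (Equiv.ofBijective ψ hψb), ?_⟩
  intro i j
  obtain ⟨s, rfl⟩ := hφb.2 i
  obtain ⟨t, rfl⟩ := hφb.2 j
  have h1 : ∀ s, (Equiv.ofBijective φ hφb).symm (φ s) = s := fun s =>
    (Equiv.ofBijective φ hφb).symm_apply_apply s
  rw [Equiv.trans_apply, Equiv.trans_apply, h1, h1]
  exact (hφ s t).trans (hψ s t).symm

/-- the graph `P3 ∪ C3` -/
def r6_G : SimpleGraph (Fin 6) where
  Adj i j := adjL r6_lT i j = true
  symm := by
    constructor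
    intro i j
    revert i j
    decide
  loopless := by
    constructor
    intro i
    revert i
    decide

lemma r6_dg (v : Fin 6) : dg r6_G v = (univ.filter fun j => adjL r6_lT v j = true).card := by
  unfold dg
  congr

theorem PC_exists : ∃ T : SimpleGraph (Fin 6), PC T ∧ ∑ v, dg T v = 10 := by
  refine ⟨r6_G, ⟨0, 1, 2, 3, 4, 5, ⟨by decide, ?_, ?_, ?_⟩, by decide, by decide, by decide,
    ?_, ?_, ?_⟩, ?_⟩
  · intro j
    show adjL r6_lT 0 j = true ↔ _
    revert j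
    decide
  · intro j
    show adjL r6_lT 1 j = true ↔ _
    revert j
    decide
  · intro j
    show adjL r6_lT 2 j = true ↔ _
    revert j
    decide
  · show adjL r6_lT 3 4 = true
    decide
  · show adjL r6_lT 4 5 = true
    decide
  · show adjL r6_lT 3 5 = true
    decide
  · simp only [r6_dg]
    decide

end Pool.Agent.H34R2.U
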