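import Pool.Agent.H34R2.U.M10

/-! TASK U1: strict versions of the certificate soundness (M9) and of the check (M10). -/

set_option autoImplicit false

namespace Pool.Agent.H34R2.U

open Finset

variable {n : ℕ}

/-- strict local move -/
def MoveStrict (w : ℕ) (l : List (ℕ × ℕ)) (ls : List (List (ℕ × ℕ))) (mk : List ℕ) : Prop :=
  ∀ (n : ℕ) (H : SimpleGraph (Fin n)) (φ : Fin w ↪ Fin n), Conf H φ l mk →
    ∀ q : ℝ, 0 < q → q < 1 →
      0 < (ls.map fun l' => RH (repl H φ l') q - RH H q).sum

namespace U1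

open M9

/-- dual cone of the rows -/
def dual (C : Cert) (c : Ty → ℝ) : Prop := ∀ row ∈ C.rows, 0 ≤ pr C.types c row

theorem dual_key {K r : ℕ} {C : Cert} (hC : certOK K r C = true) {c : Ty → ℝ} (hc : dual C c)
    {T : ℕ} (hT : T < 2 ^ r) {j : ℕ} (hj : j ≤ K) (hTj : ¬ (T = 0 ∧ j = 0)) :
    dual C (fun τ => c τ * (nJ r j T τ : ℝ)) := by
  unfold certOK at hC
  simp only [Bool.and_eq_true, List.all_eq_true, List.any_eq_true, beq_iff_eq,
    decide_eq_true_eq, Bool.or_eq_true] at hC
  obtain ⟨⟨⟨⟨⟨hlen, hone⟩, hle⟩, -⟩, hml⟩, hmul⟩ := hC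
  intro row hrow
  rw [pr_mulRow]
  obtain ⟨e, he⟩ := exists_zip C.rows C.mul hml.symm row hrow
  obtain ⟨h1, h2⟩ := hmul _ he
  obtain ⟨f, hf⟩ := exists_zip (List.range (2 ^ r)) e (by simpa using h1.symm) T
    (List.mem_range.2 hT)
  obtain ⟨h3, h4⟩ := h2 _ hf
  obtain ⟨g, hg⟩ := exists_zip (List.range (K + 1)) f (by simpa using h3.symm) j
    (List.mem_range.2 (by omega))
  rcases h4 _ hg with h5 | h5
  · exact absurd ⟨h5.2, h5.1⟩ hTj
  · rw [← h5]
    exact combo_nonneg' _ _ _ hlen hc _

theorem dual_congr {C : Cert} {c d : Ty → ℝ} (h : ∀ τ ∈ C.types, c τ = d τ) (hc : dual C c) :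
    dual C d := by
  intro row hrow
  rw [← pr_congr C.types c d row h]
  exact hc row hrow

theorem dual_add {C : Cert} {c d : Ty → ℝ} (hc : dual C c) (hd : dual C d) :
    dual C (fun τ => c τ + d τ) := by
  intro row hrow
  rw [pr_add]
  exact add_nonneg (hc row hrow) (hd row hrow)

theorem dual_smul {C : Cert} {c : Ty → ℝ} (hc : dual C c) {a : ℝ} (ha : 0 ≤ a) :
    dual C (fun τ => a * c τ) := by
  intro row hrow
  rw [pr_smul]
  exact mul_nonneg ha (hc row hrow)

/-- nonnegative combinations of the functions `nJ` -/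
theorem dual_sum {K r : ℕ} {C : Cert} (hC : certOK K r C = true) {c : Ty → ℝ} (hc : dual C c)
    (p : ℕ → ℕ → ℝ) (hp : ∀ T j, 0 ≤ p T j) (hp0 : p 0 0 = 0) :
    dual C (fun τ => ∑ T ∈ range (2 ^ r), ∑ j ∈ range (K + 1),
      p T j * (c τ * (nJ r j T τ : ℝ))) := by
  intro row hrow
  rw [pr_sum]
  apply Finset.sum_nonneg
  intro T hT
  rw [pr_sum]
  apply Finset.sum_nonneg
  intro j hj
  rw [pr_smul]
  by_cases hTj : T = 0 ∧ j = 0
  · rw [hTj.1, hTj.2, hp0, zero_mul]
  · exact mul_nonneg (hp T j) (dual_key hC hc (Finset.mem_range.1 hT)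
      (by have := Finset.mem_range.1 hj; omega) hTj row hrow)

/-- the constant -/
noncomputable def ce (K r : ℕ) (e : ℝ × (ℕ → ℝ)) : ℝ :=
  (K : ℝ) * (1 - e.1) * e.1 ^ (K - 1) * ∏ i ∈ range r, e.2 i

theorem ce_nonneg (K r : ℕ) {e : ℝ × (ℕ → ℝ)} (he : 0 ≤ e.1 ∧ e.1 ≤ 1 ∧
    ∀ i, 0 ≤ e.2 i ∧ e.2 i ≤ 1) : 0 ≤ ce K r e := by
  unfold ce
  have h1 : 0 ≤ 1 - e.1 := by linarith [he.2.1]
  have h2 : 0 ≤ ∏ i ∈ range r, e.2 i := Finset.prod_nonneg fun i _ => (he.2.2 i).1
  have := he.1
  positivity

theorem nJ_one (r K : ℕ) (τ : Ty) (h : (τ.map fun b => b.2).sum = K) : nJ r 1 0 τ = K := by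
  rw [← h]
  unfold nJ
  congr 1
  apply List.map_congr_left
  intro b _
  have : ((List.range r).all fun i => !Nat.testBit 0 i || b.1.testBit i) = true := by
    rw [List.all_eq_true]
    intro i _
    simp
  rw [if_pos this, Nat.choose_one_right]

theorem dual_F {K r : ℕ} {C : Cert} (hC : certOK K r C = true) {c : Ty → ℝ} (hc : dual C c)
    {e : ℝ × (ℕ → ℝ)} (he : 0 ≤ e.1 ∧ e.1 ≤ 1 ∧ ∀ i, 0 ≤ e.2 i ∧ e.2 i ≤ 1) :
    dual C (fun τ => c τ * Fty K r e.1 e.2 τ) := by
  have hle : ∀ τ ∈ C.types, ∀ b ∈ τ, b.2 ≤ K := by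
    unfold certOK at hC
    simp only [Bool.and_eq_true, List.all_eq_true, decide_eq_true_eq] at hC
    exact hC.1.1.1.2
  refine dual_congr ?_ (dual_sum hC hc
    (fun T j => if T = 0 ∧ j = 0 then 0 else prob K r e.1 e.2 T j) (fun T j => ?_) (by simp))
  · intro τ hτ
    rw [Fty_eq K r e.1 e.2 τ (hle τ hτ), Finset.mul_sum]
    refine Finset.sum_congr rfl fun T _ => ?_
    rw [Finset.mul_sum]
    refine Finset.sum_congr rfl fun j _ => ?_
    ring
  · split_ifs
    · exact le_refl _
    · exact prob_nonneg K r e.1 e.2 T j he.1 he.2.1 he.2.2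

theorem dual_F_sub {K r : ℕ} (hK : 1 ≤ K) {C : Cert} (hC : certOK K r C = true) {c : Ty → ℝ}
    (hc : dual C c) {e : ℝ × (ℕ → ℝ)} (he : 0 ≤ e.1 ∧ e.1 ≤ 1 ∧ ∀ i, 0 ≤ e.2 i ∧ e.2 i ≤ 1) :
    dual C (fun τ => c τ * (Fty K r e.1 e.2 τ - ce K r e)) := by
  have hle : ∀ τ ∈ C.types, ∀ b ∈ τ, b.2 ≤ K := by
    unfold certOK at hC
    simp only [Bool.and_eq_true, List.all_eq_true, decide_eq_true_eq] at hC
    exact hC.1.1.1.2
  have hsm : ∀ τ ∈ C.types, (τ.map fun b => b.2).sum = K := by
    unfold certOK at hC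
    simp only [Bool.and_eq_true, List.all_eq_true, beq_iff_eq] at hC
    exact hC.1.1.2
  refine dual_congr ?_ (dual_sum hC hc
    (fun T j => if T = 0 ∧ j ≤ 1 then 0 else prob K r e.1 e.2 T j) (fun T j => ?_) (by simp))
  · intro τ hτ
    have h1 : ce K r e = ∑ T ∈ range (2 ^ r), ∑ j ∈ range (K + 1),
        (if T = 0 ∧ j = 1 then prob K r e.1 e.2 T j * (nJ r j T τ : ℝ) else 0) := by
      rw [Finset.sum_eq_single 0, Finset.sum_eq_single 1]
      · rw [if_pos ⟨rfl, rfl⟩, nJ_one r K τ (hsm τ hτ)]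
        unfold ce prob
        have h2 : ∏ i ∈ range r, (if Nat.testBit 0 i then 1 - e.2 i else e.2 i) =
            ∏ i ∈ range r, e.2 i := by
          refine Finset.prod_congr rfl fun i _ => ?_
          simp
        rw [h2]
        ring
      · intro j _ hj
        rw [if_neg fun h => hj h.2]
      · intro h
        exact absurd (Finset.mem_range.2 (by omega)) h
      · intro T _ hT
        refine Finset.sum_eq_zero fun j _ => ?_
        rw [if_neg fun h => hT h.1]
      · intro h
        exact absurd (Finset.mem_range.2 (by positivity)) h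
    rw [Fty_eq K r e.1 e.2 τ (hle τ hτ), h1, ← Finset.sum_sub_distrib, Finset.mul_sum]
    refine Finset.sum_congr rfl fun T _ => ?_
    rw [← Finset.sum_sub_distrib, Finset.mul_sum]
    refine Finset.sum_congr rfl fun j _ => ?_
    by_cases hT : T = 0
    · by_cases hj0 : j = 0
      · subst hT hj0
        simp
      · by_cases hj1 : j = 1
        · subst hT hj1
          simp
        · rw [if_neg (by omega), if_neg (by omega), if_neg (by omega)]
          ring
    · rw [if_neg (by tauto), if_neg (by tauto), if_neg (by tauto)]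
      ring
  · split_ifs
    · exact le_refl _
    · exact prob_nonneg K r e.1 e.2 T j he.1 he.2.1 he.2.2

theorem dual_prod {K r : ℕ} (hK : 1 ≤ K) {C : Cert} (hC : certOK K r C = true) {c : Ty → ℝ}
    (hc : dual C c) (L : List (ℝ × (ℕ → ℝ)))
    (hL : ∀ e ∈ L, 0 ≤ e.1 ∧ e.1 ≤ 1 ∧ ∀ i, 0 ≤ e.2 i ∧ e.2 i ≤ 1) :
    dual C (fun τ => c τ * ((L.map fun e => Fty K r e.1 e.2 τ).prod - (L.map (ce K r)).prod)) := by
  induction L with
  | nil =>
    intro row hrow
    simp only [List.map_nil, List.prod_nil, sub_self, mul_zero]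
    rw [pr_zero]
  | cons e L ih =>
    have ih' := ih (fun x hx => hL x (List.mem_cons_of_mem _ hx))
    have he := hL e List.mem_cons_self
    have h1 := dual_F hC ih' he
    have h0 : 0 ≤ (L.map (ce K r)).prod := by
      apply List.prod_nonneg
      intro a ha
      obtain ⟨x, hx, rfl⟩ := List.mem_map.1 ha
      exact ce_nonneg K r (hL x (List.mem_cons_of_mem _ hx))
    have h2 := dual_smul (dual_F_sub hK hC hc he) h0
    refine dual_congr ?_ (dual_add h1 h2)
    intro τ _
    rw [List.map_cons, List.map_cons, List.prod_cons, List.prod_cons]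
    ring

end U1

/-- lower bound for the termwise value: the certificate cone contains the constant vector, and
`Fty` contains the constant vector `K (1 - z) z^(K-1) ∏ wt` (one unmarked vertex attached). -/
theorem cert_strict (K r : ℕ) (hK : 1 ≤ K) (C : Cert) (hC : certOK K r C = true)
    (coef : Ty → ℝ)
    (hpos : ∀ row ∈ C.rows,
      0 ≤ (List.zipWith (fun τ (x : ℕ) => coef τ * (x : ℝ)) C.types row).sum)
    (L : List (ℝ × (ℕ → ℝ)))
    (hL : ∀ e ∈ L, 0 ≤ e.1 ∧ e.1 ≤ 1 ∧ ∀ i, 0 ≤ e.2 i ∧ e.2 i ≤ 1) :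
    (C.types.map coef).sum *
        (L.map fun e => (K : ℝ) * (1 - e.1) * e.1 ^ (K - 1) * ∏ i ∈ range r, e.2 i).prod ≤
      (C.types.map fun τ => coef τ * (L.map fun e => Fty K r e.1 e.2 τ).prod).sum := by
  have h1 := U1.dual_prod hK hC (c := coef) hpos L hL
  unfold certOK at hC
  simp only [Bool.and_eq_true, List.all_eq_true, List.any_eq_true, beq_iff_eq] at hC
  obtain ⟨⟨⟨⟨⟨hlen, hone⟩, -⟩, -⟩, -⟩, -⟩ := hC
  obtain ⟨row, hrow, hone⟩ := hone
  have h2 := h1 row hrow
  rw [M9.pr_ones _ _ _ (hlen row hrow) hone] at h2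
  have h3 : (C.types.map fun τ => coef τ * ((L.map fun e => Fty K r e.1 e.2 τ).prod -
      (L.map (U1.ce K r)).prod)).sum =
      (C.types.map fun τ => coef τ * (L.map fun e => Fty K r e.1 e.2 τ).prod).sum -
        (C.types.map coef).sum * (L.map (U1.ce K r)).prod := by
    generalize C.types = ts
    induction ts with
    | nil => simp
    | cons a ts ih =>
      simp only [List.map_cons, List.sum_cons] at ih ⊢
      rw [ih]
      ring
  rw [h3] at h2
  have h4 : (L.map fun e => (K : ℝ) * (1 - e.1) * e.1 ^ (K - 1) * ∏ i ∈ range r, e.2 i).prod =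
      (L.map (U1.ce K r)).prod := rfl
  rw [h4]
  linarith

theorem U1.Qw_pos (H : SimpleGraph (Fin n)) {q : ℝ} (hq0 : 0 < q) (i j : Fin n) :
    0 < Qw H q i j := by
  unfold Qw
  split_ifs
  · exact zero_lt_one
  · exact hq0

theorem U1.RR_single {Q : Fin n → Fin n → ℝ} (hQ : Wt Q) (w : Fin n) : RR Q {w} = 1 := by
  have h := RR_insert hQ.1 w ∅ (Finset.notMem_empty w)
  rw [MM_empty] at h
  exact h

/-- positivity of the expectation of a product of positive weights. -/
theorem MM_pos (H : SimpleGraph (Fin n)) (q : ℝ) (hq0 : 0 < q) (hq1 : q < 1)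
    (g : Finset (Fin n) → ℝ) (A : Finset (Fin n)) (hg : ∀ B ⊆ A, B.Nonempty → 0 < g B) :
    0 < MM (Qw H q) g A := by
  have hQ : Wt (Qw H q) := Qw_wt H hq0.le hq1.le
  induction hk : A.card using Nat.strong_induction_on generalizing A with
  | _ k ih =>
    subst hk
    rcases A.eq_empty_or_nonempty with rfl | hne
    · rw [MM_empty]
      exact zero_lt_one
    · unfold MM
      rw [a2_EE_eq _ _ _ hne]
      refine Finset.sum_pos' (fun B hB => ?_) ⟨∅, Finset.empty_mem_powerset _, ?_⟩
      · have hs := a2_insert_subset (A.min'_mem hne) hB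
        refine mul_nonneg (mul_nonneg (mul_nonneg (RR_nonneg hQ _)
          (hg _ hs (Finset.insert_nonempty _ _)).le) (a2_cut_nonneg hQ _ _)) ?_
        exact MM_nonneg hQ fun D hD hDn => (hg D (hD.trans Finset.sdiff_subset) hDn).le
      · have hs : insert (A.min' hne) (∅ : Finset (Fin n)) ⊆ A :=
          a2_insert_subset (A.min'_mem hne) (Finset.empty_mem_powerset _)
        have h1 : RR (Qw H q) (insert (A.min' hne) ∅) = 1 := U1.RR_single hQ _
        rw [h1, one_mul]
        refine mul_pos (mul_pos (hg _ hs (Finset.insert_nonempty _ _)) ?_) ?_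
        · exact Finset.prod_pos fun i _ => Finset.prod_pos fun j _ => U1.Qw_pos H hq0 i j
        · exact ih _ (a2_card_lt (A.min'_mem hne) ∅) _
            (fun D hD hDn => hg D (hD.trans Finset.sdiff_subset) hDn) rfl

/-- the additional check for strictness: the sum of all coefficient polynomials is nonzero. -/
def chkOne (w : ℕ) (l : List (ℕ × ℕ)) (ls : List (List (ℕ × ℕ))) (mk : List ℕ) (C : Cert) :
    Bool :=
  Nat.ble (mk.length + 1) w &&
  !leN (combN (C.types.map fun _ => 1)
      ((C.types.map (prOf mk.length (w * (w - 1) / 2) (dp w l mk)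
        (ls.map fun l' => dp w l' mk))).map Prod.fst))
    (combN (C.types.map fun _ => 1)
      ((C.types.map (prOf mk.length (w * (w - 1) / 2) (dp w l mk)
        (ls.map fun l' => dp w l' mk))).map Prod.snd))

namespace U1

theorem leN_nil_pos {b : List ℕ} (h : leN b [] = false) {s : ℝ} (hs : 0 < s) :
    0 < evalN b s := by
  induction b with
  | nil => simp [leN] at h
  | cons x b ih =>
    rw [m10_evalN_cons]
    simp only [leN, Bool.and_eq_false_iff] at h
    rcases h with h | h
    · have hx : x ≠ 0 := by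
        intro h0
        rw [h0] at h
        exact absurd h (by decide)
      have hx' : (0 : ℝ) < x := by exact_mod_cast Nat.pos_of_ne_zero hx
      have := mul_nonneg hs.le (m10_evalN_nonneg b hs.le)
      linarith
    · have h1 := mul_pos hs (ih h)
      have h2 : (0 : ℝ) ≤ x := Nat.cast_nonneg x
      linarith

theorem leN_strict {a b : List ℕ} (h1 : leN a b = true) (h2 : leN b a = false) {s : ℝ}
    (hs : 0 < s) : evalN a s < evalN b s := by
  induction a generalizing b with
  | nil =>
    rw [m10_evalN_nil]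
    exact leN_nil_pos h2 hs
  | cons x a ih =>
    cases b with
    | nil => simp [leN] at h2
    | cons y b =>
      simp only [leN, Bool.and_eq_true, Nat.ble_eq] at h1
      simp only [leN, Bool.and_eq_false_iff] at h2
      have hxy : (x : ℝ) ≤ y := by exact_mod_cast h1.1
      rw [m10_evalN_cons, m10_evalN_cons]
      rcases h2 with h2 | h2
      · have hlt : x < y := by
          by_contra hcon
          have : Nat.ble y x = true := by rw [Nat.ble_eq]; exact not_lt.1 hcon
          rw [this] at h2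
          exact absurd h2 (by decide)
        have hlt' : (x : ℝ) < y := by exact_mod_cast hlt
        have := mul_le_mul_of_nonneg_left (m10_leN h1.2 hs.le) hs.le
        linarith
      · have := mul_lt_mul_of_pos_left (ih h1.2 h2) hs
        linarith

end U1

attribute [local irreducible] dp

theorem chk_strict (w : ℕ) (l : List (ℕ × ℕ)) (ls : List (List (ℕ × ℕ))) (mk : List ℕ) (C : Cert)
    (h : chk w l ls mk C = true) (h1 : chkOne w l ls mk C = true) : MoveStrict w l ls mk := by
  unfold chk at h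
  simp only [Bool.and_eq_true, List.all_eq_true, m10_nodupTy, m10_memTy, Nat.ble_eq] at h
  obtain ⟨⟨⟨⟨⟨⟨⟨hin, hins⟩, hC⟩, hnd⟩, heK⟩, hd0⟩, hds⟩, hcore⟩ := h
  unfold chkOne at h1
  simp only [Bool.and_eq_true, Nat.ble_eq, Bool.not_eq_true'] at h1
  obtain ⟨hw, hone1⟩ := h1
  intro n H φ hc q hq0 hq1
  set r := mk.length with hr
  set M := w * (w - 1) / 2 with hM
  set A : Finset (Fin n) := univ.filter fun j => ∀ a, φ a ≠ j with hA
  set ψ : Finset (Fin n) → ℕ → ℝ := fun B i =>
    if h : mk.getD i w < w then tt (Qw H q) (φ ⟨mk.getD i w, h⟩) B else 1 with hψ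
  set G : Ty → ℝ := fun τ => MM (Qw H q) (fun B => Fty (w - r) r (q ^ B.card) (ψ B) τ) A with hG
  -- the reliabilities
  have h0 : RH H q = ∑ τ ∈ C.types.toFinset, (sgn τ : ℝ) * q ^ eK r τ *
      evalN (collect τ (dp w l mk)) q⁻¹ * G τ := by
    rw [dp_sound w l mk hin H φ hc q hq0, ← m10_group r q q⁻¹ C.types G _ hd0]
  have h1 : ∀ l' ∈ ls, RH (repl H φ l') q = ∑ τ ∈ C.types.toFinset, (sgn τ : ℝ) * q ^ eK r τ *
      evalN (collect τ (dp w l' mk)) q⁻¹ * G τ := by
    intro l' hl'
    rw [dp_sound w l' mk (hins l' hl') (repl H φ l') φ (m10_conf_repl hc (hins l' hl')) q hq0,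
      ← m10_group r q q⁻¹ C.types G _ (hds l' hl')]
    congr 1
    refine List.map_congr_left fun e _ => ?_
    congr 1
    rw [hG]
    refine MM_congr ?_ ?_
    · intro i hi j hj _
      exact m10_Qw_repl H φ l' q i j (Finset.mem_filter.1 hj).2
    · intro B hB _
      have : (fun i => if h : mk.getD i w < w then
          tt (Qw (repl H φ l') q) (φ ⟨mk.getD i w, h⟩) B else 1) = ψ B := by
        funext i
        rw [hψ]
        simp only
        split_ifs with hi
        · unfold tt
          refine Finset.prod_congr rfl fun j hj => ?_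
          exact m10_Qw_repl H φ l' q _ j (Finset.mem_filter.1 (hB hj)).2
        · rfl
      rw [this]
  -- the coefficients
  set coef : Ty → ℝ := fun τ => (sgn τ : ℝ) * q ^ eK r τ *
    (evalN (collects τ (ls.map fun l' => dp w l' mk)) q⁻¹ -
      (ls.map fun l' => dp w l' mk).length * evalN (collect τ (dp w l mk)) q⁻¹) with hcoef
  have htot : (ls.map fun l' => RH (repl H φ l') q - RH H q).sum =
      ∑ τ ∈ C.types.toFinset, coef τ * G τ := by
    have key : ∀ ls' : List (List (ℕ × ℕ)), (∀ l' ∈ ls', l' ∈ ls) →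
        (ls'.map fun l' => RH (repl H φ l') q - RH H q).sum =
        ∑ τ ∈ C.types.toFinset, (sgn τ : ℝ) * q ^ eK r τ *
          (evalN (collects τ (ls'.map fun l' => dp w l' mk)) q⁻¹ -
          (ls'.map fun l' => dp w l' mk).length * evalN (collect τ (dp w l mk)) q⁻¹) * G τ := by
      intro ls'
      induction ls' with
      | nil => intro _; simp [collects, m10_evalN_nil]
      | cons l' ls' ih =>
        intro hls'
        rw [List.map_cons, List.sum_cons, ih fun l'' h => hls' l'' (List.mem_cons_of_mem _ h),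
          h1 l' (hls' l' List.mem_cons_self), h0, ← Finset.sum_sub_distrib,
          ← Finset.sum_add_distrib]
        refine Finset.sum_congr rfl fun τ _ => ?_
        rw [List.map_cons, collects, m10_addN, List.length_cons]
        push_cast
        ring
    exact key ls fun _ h => h
  rw [htot]
  have hQ : Wt (Qw H q) := Qw_wt H hq0.le hq1.le
  -- positivity of the rows
  have hx : q⁻¹ = 1 + (q⁻¹ - 1) := by ring
  have hs0 : 0 < q⁻¹ - 1 := by
    rw [sub_pos]
    exact (one_lt_inv₀ hq0).2 hq1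
  have hs : 0 ≤ q⁻¹ - 1 := hs0.le
  have hzip : ∀ row : List ℕ,
      (List.zipWith (fun τ (x : ℕ) => coef τ * (x : ℝ)) C.types row).sum =
        q ^ M * (evalN (combN row ((C.types.map (prOf r M (dp w l mk)
          (ls.map fun l' => dp w l' mk))).map Prod.fst)) (q⁻¹ - 1) -
          evalN (combN row ((C.types.map (prOf r M (dp w l mk)
          (ls.map fun l' => dp w l' mk))).map Prod.snd)) (q⁻¹ - 1)) := by
    intro row
    rw [List.map_map, List.map_map, m10_combN, m10_combN]
    rw [m10_zip_sub C.types row (fun τ => evalN ((Prod.fst ∘ prOf r M (dp w l mk)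
      (ls.map fun l' => dp w l' mk)) τ) (q⁻¹ - 1)) (fun τ => evalN ((Prod.snd ∘ prOf r M
      (dp w l mk) (ls.map fun l' => dp w l' mk)) τ) (q⁻¹ - 1)) coef (q ^ M) ?_]
    intro τ hτ
    simp only [Function.comp]
    rw [m10_prOf, ← hx, hcoef]
    have h3 : q ^ M * q⁻¹ ^ (M - eK r τ) = q ^ eK r τ := by
      have h4 : M = eK r τ + (M - eK r τ) := by
        have := heK τ hτ
        omega
      conv_lhs => rw [h4, Nat.add_sub_cancel_left]
      rw [pow_add, mul_assoc, ← mul_pow, mul_inv_cancel₀ hq0.ne', one_pow, mul_one]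
    rw [← mul_assoc, h3]
    ring
  have hpos : ∀ row ∈ C.rows,
      0 ≤ (List.zipWith (fun τ (x : ℕ) => coef τ * (x : ℝ)) C.types row).sum := by
    intro row hrow
    unfold chkCore at hcore
    rw [List.all_eq_true] at hcore
    have h2 := m10_leN (hcore row hrow) hs
    rw [hzip]
    exact mul_nonneg (by positivity) (sub_nonneg.2 h2)
  -- the row of ones
  have hsum : 0 < (C.types.map coef).sum := by
    have hC' := hC
    unfold certOK at hC'
    simp only [Bool.and_eq_true, List.all_eq_true, List.any_eq_true, beq_iff_eq] at hC'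
    obtain ⟨⟨⟨⟨⟨hlen, hone⟩, -⟩, -⟩, -⟩, -⟩ := hC'
    obtain ⟨row, hrow, hone⟩ := hone
    have hrow1 : row = C.types.map fun _ => 1 := by
      rw [List.map_const', List.eq_replicate_iff]
      exact ⟨hlen row hrow, hone⟩
    unfold chkCore at hcore
    rw [List.all_eq_true] at hcore
    have h2 := hcore row hrow
    rw [hrow1] at h2
    have h3 := U1.leN_strict h2 hone1 hs0
    have h4 := M9.pr_ones C.types coef row (hlen row hrow) hone
    rw [← h4, hrow1]
    unfold M9.pr
    rw [hzip]
    exact mul_pos (by positivity) (sub_pos.2 h3)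
  -- the comparison weight
  have hψ01 : ∀ (B : Finset (Fin n)) (i : ℕ), 0 < ψ B i ∧ ψ B i ≤ 1 := by
    intro B i
    rw [hψ]
    simp only
    split_ifs with hi
    · unfold tt
      exact ⟨Finset.prod_pos fun j _ => U1.Qw_pos H hq0 _ _,
        Finset.prod_le_one (fun j _ => hQ.2.1 _ _) fun j _ => hQ.2.2 _ _⟩
    · exact ⟨zero_lt_one, le_refl _⟩
  have hKpos : 1 ≤ w - r := by omega
  obtain ⟨g0, hg0⟩ : ∃ g0 : Finset (Fin n) → ℝ, ∀ B, g0 B = ((w - r : ℕ) : ℝ) * (1 - q ^ B.card) *
      (q ^ B.card) ^ (w - r - 1) * ∏ i ∈ range r, ψ B i := ⟨_, fun _ => rfl⟩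
  have hg0pos : ∀ B ⊆ A, B.Nonempty → 0 < g0 B := by
    intro B _ hB
    rw [hg0]
    have h2 : q ^ B.card < 1 := pow_lt_one₀ hq0.le hq1 (Finset.card_pos.2 hB).ne'
    have h3 : 0 < 1 - q ^ B.card := sub_pos.2 h2
    have h4 : (0 : ℝ) < ((w - r : ℕ) : ℝ) := by exact_mod_cast hKpos
    have h5 : 0 < ∏ i ∈ range r, ψ B i := Finset.prod_pos fun i _ => (hψ01 B i).1
    positivity
  have hMM := MM_pos H q hq0 hq1 g0 A hg0pos
  -- termwise comparison, with one additional index
  have hterm := MM_termwise (ι := Option Ty) (insert none (C.types.toFinset.image some)) hQ A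
    (fun o => match o with
      | none => - (C.types.map coef).sum
      | some τ => coef τ)
    (fun o B => match o with
      | none => g0 B
      | some τ => Fty (w - r) r (q ^ B.card) (ψ B) τ) (fun L _ => by
      rw [Finset.sum_insert (by simp), Finset.sum_image (by simp)]
      simp only
      rw [List.sum_toFinset _ hnd]
      have h2 := cert_strict (w - r) r hKpos C hC coef hpos
        (L.map fun B => (q ^ B.card, ψ B)) (by
          intro e he
          obtain ⟨B, _, rfl⟩ := List.mem_map.1 he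
          exact ⟨by positivity, pow_le_one₀ hq0.le hq1.le, fun i =>
            ⟨(hψ01 B i).1.le, (hψ01 B i).2⟩⟩)
      rw [List.map_map] at h2
      have h3 : (L.map ((fun e : ℝ × (ℕ → ℝ) => ((w - r : ℕ) : ℝ) * (1 - e.1) *
          e.1 ^ (w - r - 1) * ∏ i ∈ range r, e.2 i) ∘ fun B => (q ^ B.card, ψ B))) =
          L.map g0 := by
        refine List.map_congr_left fun B _ => ?_
        rw [hg0]
        rfl
      rw [h3] at h2
      have h4 : (C.types.map fun τ => coef τ * ((L.map fun B => (q ^ B.card, ψ B)).map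
          fun e => Fty (w - r) r e.1 e.2 τ).prod).sum =
          (C.types.map fun τ => coef τ * (L.map fun B =>
            Fty (w - r) r (q ^ B.card) (ψ B) τ).prod).sum := by
        congr 1
        refine List.map_congr_left fun τ _ => ?_
        rw [List.map_map]
        rfl
      rw [h4] at h2
      linarith)
  rw [Finset.sum_insert (by simp), Finset.sum_image (by simp)] at hterm
  simp only at hterm
  have hfin : (C.types.map coef).sum * MM (Qw H q) g0 A ≤ ∑ τ ∈ C.types.toFinset, coef τ * G τ := by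
    rw [hG]
    simp only
    linarith
  exact lt_of_lt_of_le (mul_pos hsum hMM) hfin

end Pool.Agent.H34R2.U
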