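import Pool.Agent.H34R2.U.G23
import Pool.Agent.H34R2.U.U1

/-! TASK U3: a graph with all degrees two that is not of type `TC` can be improved strictly. -/

set_option autoImplicit false
set_option linter.unusedSimpArgs false

namespace Pool.Agent.H34R2.U

open Finset

variable {n : ℕ}

/-- the strict moves for cycles -/
structure StrictMoves : Prop where
  c6 : MoveStrict 6 [(0,1),(1,2),(2,3),(3,4),(4,5),(0,5)]
    [[(0,1),(1,2),(0,2),(3,4),(4,5),(3,5)]] []
  c7 : MoveStrict 7 [(0,1),(1,2),(2,3),(3,4),(4,5),(5,6),(0,6)]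
    [[(0,1),(1,2),(0,2),(3,4),(4,5),(5,6),(3,6)]] []
  l7 : MoveStrict 7 [(0,1),(1,2),(2,3),(3,4),(4,5),(5,6)]
    [[(1,2),(2,3),(1,3),(0,4),(4,5),(5,6)],
     [(0,1),(2,3),(3,4),(2,4),(1,5),(5,6)],
     [(0,1),(1,2),(3,4),(4,5),(3,5),(2,6)]] [0, 6]
  cc44 : MoveStrict 8 [(0,1),(1,2),(2,3),(0,3),(4,5),(5,6),(6,7),(4,7)]
    [[(0,1),(1,2),(0,2),(3,4),(4,5),(5,6),(6,7),(3,7)]] []
  cc45 : MoveStrict 9 [(0,1),(1,2),(2,3),(0,3),(4,5),(5,6),(6,7),(7,8),(4,8)]
    [[(0,1),(1,2),(0,2),(3,4),(4,5),(3,5),(6,7),(7,8),(6,8)]] []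
  cc55 : MoveStrict 10 [(0,1),(1,2),(2,3),(3,4),(0,4),(5,6),(6,7),(7,8),(8,9),(5,9)]
    [[(0,1),(1,2),(0,2),(3,4),(4,5),(3,5),(6,7),(7,8),(8,9),(6,9)]] []


/-- strict improvement -/
def SImp (H : SimpleGraph (Fin n)) (q : ℝ) : Prop :=
  ∃ H' : SimpleGraph (Fin n), (∑ v, dg H' v) = (∑ v, dg H v) ∧ RH H q < RH H' q

theorem u3_improve (w : ℕ) (l : List (ℕ × ℕ)) (ls : List (List (ℕ × ℕ))) (mk : List ℕ)
    (hm : MoveStrict w l ls mk) (_hne : ls ≠ []) (hs : ∀ l' ∈ ls, sideOK w l l' mk = true)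
    (H : SimpleGraph (Fin n)) (φ : Fin w ↪ Fin n) (hc : Conf H φ l mk)
    (q : ℝ) (hq0 : 0 < q) (hq1 : q < 1) : SImp H q := by
  classical
  have hm1 := hm n H φ hc q hq0 hq1
  have hex : ∃ l' ∈ ls, RH H q < RH (repl H φ l') q := by
    by_contra hcon
    push Not at hcon
    have : (ls.map fun l' => RH (repl H φ l') q - RH H q).sum ≤ 0 := by
      have key : ∀ ls' : List (List (ℕ × ℕ)), (∀ l' ∈ ls', RH (repl H φ l') q ≤ RH H q) →
          (ls'.map fun l' => RH (repl H φ l') q - RH H q).sum ≤ 0 := by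
        intro ls'
        induction ls' with
        | nil => intro _; simp
        | cons x xs ih =>
          intro h
          rw [List.map_cons, List.sum_cons]
          have h1 := ih fun l' hl' => h l' (List.mem_cons_of_mem _ hl')
          have h2 := h x List.mem_cons_self
          linarith
      exact key ls hcon
    linarith
  obtain ⟨l', hl', hR⟩ := hex
  have hS := h873_side w l l' mk (hs l' hl')
  have hc' := Conf_repl H φ l l' mk hc hS.el'
  have hin : ∀ a, dg H (φ a) = dW w l a + h873ext H φ a := h873_dg_in H φ l hc.1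
  have hin' : ∀ a, dg (repl H φ l') (φ a) = dW w l' a + h873ext H φ a := by
    intro a
    rw [h873_dg_in (repl H φ l') φ l' hc'.1 a, h873_ext_repl]
  have hout : ∀ v ∈ Finset.univ.filter (fun v => ¬ ∃ a, φ a = v),
      dg (repl H φ l') v = dg H v := by
    intro v hv
    exact h873_dg_out H φ l' v (Finset.mem_filter.1 hv).2
  refine ⟨repl H φ l', ?_, hR⟩
  rw [h873_sum_split φ, h873_sum_split φ (fun v => dg H v)]
  congr 1
  · exact Finset.sum_congr rfl hout
  · simp only [hin, hin', Finset.sum_add_distrib, hS.ds]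

theorem u3_two_cases (M : StrictMoves) (H : SimpleGraph (Fin n)) (q : ℝ) (hq0 : 0 < q) (hq1 : q < 1)
    (hI : ¬ SImp H q) (h2 : ∀ v, dg H v = 2) (v : Fin n) :
    (∃ a b, a ≠ b ∧ H.Adj v a ∧ H.Adj v b ∧ H.Adj a b) ∨
      (∃ a b c, C4 H v a b c) ∨ (∃ a b c d, C5 H v a b c d) := by
  have c6 := M.c6
  have c7 := M.c7
  have l7 := M.l7
  have hv := h2 v
  obtain ⟨b, c, hbc, nv⟩ := G15_two H v hv
  have vb : H.Adj v b := (nv b).2 (Or.inl rfl)
  have vc : H.Adj v c := (nv c).2 (Or.inr rfl)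
  obtain ⟨a, hav, nb⟩ := G15_other H b v (h2 b) vb.symm
  obtain ⟨d, hdv, nc⟩ := G15_other H c v (h2 c) vc.symm
  have ba : H.Adj b a := (nb a).2 (Or.inr rfl)
  have cd : H.Adj c d := (nc d).2 (Or.inr rfl)
  by_cases hac : a = c
  · subst hac
    exact Or.inl ⟨b, a, hbc, vb, vc, ba⟩
  have hdb : d ≠ b := by
    rintro rfl
    rcases (nb c).1 cd.symm with h | h
    · exact vc.ne h.symm
    · exact hac h.symm
  have hvb : v ≠ b := vb.ne
  have hvc : v ≠ c := vc.ne
  have hba : b ≠ a := ba.ne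
  have hcd : c ≠ d := cd.ne
  obtain ⟨e, heb, na⟩ := G15_other H a b (h2 a) ba.symm
  obtain ⟨f, hfc, nd⟩ := G15_other H d c (h2 d) cd.symm
  have ae : H.Adj a e := (na e).2 (Or.inr rfl)
  have df : H.Adj d f := (nd f).2 (Or.inr rfl)
  by_cases had : a = d
  · subst had
    have hec : e = c := by
      rcases (na c).1 cd.symm with h | h
      · exact (hbc h.symm).elim
      · exact h.symm
    subst hec
    exact Or.inr (Or.inl ⟨b, a, e, hav.symm, hbc, nv, nb, na, nc⟩)
  have hae : a ≠ e := ae.ne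
  have hdf : d ≠ f := df.ne
  by_cases hed : e = d
  · subst hed
    have hfa : f = a := by
      rcases (nd a).1 ae.symm with h | h
      · exact (hac h).elim
      · exact h.symm
    subst hfa
    exact Or.inr (Or.inr ⟨b, f, e, c, hav.symm, hdv.symm, hdb.symm, hbc, hac,
      nv, nb, na, fun j => by rw [nd j, or_comm], nc⟩)
  have hfa : f ≠ a := by
    rintro rfl
    rcases (na d).1 df.symm with h | h
    · exact hdb h
    · exact hed h.symm
  have hev : e ≠ v := by
    rintro rfl
    rcases (nv a).1 ae.symm with h | h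
    · exact hba h.symm
    · exact hac h
  have hec : e ≠ c := by
    rintro rfl
    rcases (nc a).1 ae.symm with h | h
    · exact hav h
    · exact had h
  have hfv : f ≠ v := by
    rintro rfl
    rcases (nv d).1 df.symm with h | h
    · exact hdb h
    · exact hcd h.symm
  have hfb : f ≠ b := by
    rintro rfl
    rcases (nb d).1 df.symm with h | h
    · exact hdv h
    · exact had h.symm
  exfalso
  apply hI
  by_cases hef : e = f
  · -- cycle of length six
    subst hef
    have ne : ∀ j, H.Adj e j ↔ j = a ∨ j = d := by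
      have he : dg H e = 2 := h2 e
      obtain ⟨z, hz, ne⟩ := G15_other H e a he ae.symm
      have : d = z := by
        rcases (ne d).1 df.symm with h | h
        · exact (had h.symm).elim
        · exact h
      subst this
      exact ne
    have hinj : Function.Injective ![v, b, a, e, d, c] := by
      intro i j hij
      fin_cases i <;> fin_cases j <;> first | rfl | exact absurd hij (by simp [hbc, hbc.symm, hav, hav.symm, hdv, hdv.symm, hac, Ne.symm hac, hdb, hdb.symm, hvb, hvb.symm, hvc, hvc.symm, hba, hba.symm, hcd, hcd.symm, heb, heb.symm, hfc, hfc.symm, had, Ne.symm had, hae, hae.symm, hdf, hdf.symm, hed, Ne.symm hed, hev, hev.symm, hec, hec.symm])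
    refine u3_improve 6 _ _ [] c6 (by simp) (by decide +kernel) H ⟨_, hinj⟩ ⟨?_, ?_⟩ q hq0 hq1
    · intro i j
      fin_cases i <;> fin_cases j <;> simp [nv, nb, na, ne, nd, nc, adjL, hbc, hbc.symm, hav, hav.symm, hdv, hdv.symm, hac, Ne.symm hac, hdb, hdb.symm, hvb, hvb.symm, hvc, hvc.symm, hba, hba.symm, hcd, hcd.symm, heb, heb.symm, hfc, hfc.symm, had, Ne.symm had, hae, hae.symm, hdf, hdf.symm, hed, Ne.symm hed, hev, hev.symm, hec, hec.symm]
    · intro i _ j hj
      fin_cases i
      · rcases (nv j).1 hj with h | h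
        · exact ⟨1, h.symm⟩
        · exact ⟨5, h.symm⟩
      · rcases (nb j).1 hj with h | h
        · exact ⟨0, h.symm⟩
        · exact ⟨2, h.symm⟩
      · rcases (na j).1 hj with h | h
        · exact ⟨1, h.symm⟩
        · exact ⟨3, h.symm⟩
      · rcases (ne j).1 hj with h | h
        · exact ⟨2, h.symm⟩
        · exact ⟨4, h.symm⟩
      · rcases (nd j).1 hj with h | h
        · exact ⟨5, h.symm⟩
        · exact ⟨3, h.symm⟩
      · rcases (nc j).1 hj with h | h
        · exact ⟨0, h.symm⟩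
        · exact ⟨4, h.symm⟩
  by_cases aef : H.Adj e f
  · -- cycle of length seven
    have key : ∀ x y z : Fin n, H.Adj x y → H.Adj x z → y ≠ z → ∀ j, H.Adj x j ↔ j = y ∨ j = z := by
      intro x y z hy hz hyz
      have hx : dg H x = 2 := h2 x
      obtain ⟨w, hw, nx⟩ := G15_other H x y hx hy
      have : z = w := by
        rcases (nx z).1 hz with h | h
        · exact (hyz h.symm).elim
        · exact h
      subst this
      exact nx
    have ne := key e a f ae.symm aef hfa.symm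
    have nf := key f e d aef.symm df.symm hed
    have hinj : Function.Injective ![v, b, a, e, f, d, c] := by
      intro i j hij
      fin_cases i <;> fin_cases j <;> first | rfl | exact absurd hij (by simp [hbc, hbc.symm, hav, hav.symm, hdv, hdv.symm, hac, Ne.symm hac, hdb, hdb.symm, hvb, hvb.symm, hvc, hvc.symm, hba, hba.symm, hcd, hcd.symm, heb, heb.symm, hfc, hfc.symm, had, Ne.symm had, hae, hae.symm, hdf, hdf.symm, hed, Ne.symm hed, hev, hev.symm, hec, hec.symm, hfa, hfa.symm, hfv, hfv.symm, hfb, hfb.symm, hef, Ne.symm hef])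
    refine u3_improve 7 _ _ [] c7 (by simp) (by decide +kernel) H ⟨_, hinj⟩ ⟨?_, ?_⟩ q hq0 hq1
    · intro i j
      fin_cases i <;> fin_cases j <;> simp [nv, nb, na, ne, nf, nd, nc, adjL, hbc, hbc.symm, hav, hav.symm, hdv, hdv.symm, hac, Ne.symm hac, hdb, hdb.symm, hvb, hvb.symm, hvc, hvc.symm, hba, hba.symm, hcd, hcd.symm, heb, heb.symm, hfc, hfc.symm, had, Ne.symm had, hae, hae.symm, hdf, hdf.symm, hed, Ne.symm hed, hfa, hfa.symm, hev, hev.symm, hec, hec.symm, hfv, hfv.symm, hfb, hfb.symm, hef, Ne.symm hef]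
    · intro i _ j hj
      fin_cases i
      · rcases (nv j).1 hj with h | h
        · exact ⟨1, h.symm⟩
        · exact ⟨6, h.symm⟩
      · rcases (nb j).1 hj with h | h
        · exact ⟨0, h.symm⟩
        · exact ⟨2, h.symm⟩
      · rcases (na j).1 hj with h | h
        · exact ⟨1, h.symm⟩
        · exact ⟨3, h.symm⟩
      · rcases (ne j).1 hj with h | h
        · exact ⟨2, h.symm⟩
        · exact ⟨4, h.symm⟩
      · rcases (nf j).1 hj with h | h
        · exact ⟨3, h.symm⟩
        · exact ⟨5, h.symm⟩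
      · rcases (nd j).1 hj with h | h
        · exact ⟨6, h.symm⟩
        · exact ⟨4, h.symm⟩
      · rcases (nc j).1 hj with h | h
        · exact ⟨0, h.symm⟩
        · exact ⟨5, h.symm⟩
  -- path of length seven
  have afe : ¬ H.Adj f e := fun h => aef h.symm
  have aea : H.Adj e a := ae.symm
  have afd : H.Adj f d := df.symm
  have eb' : ¬ H.Adj e b := fun h => by
    rcases (nb e).1 h.symm with h | h
    · exact hev h
    · exact hae h.symm
  have ev' : ¬ H.Adj e v := fun h => by
    rcases (nv e).1 h.symm with h | h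
    · exact heb h
    · exact hec h
  have ec' : ¬ H.Adj e c := fun h => by
    rcases (nc e).1 h.symm with h | h
    · exact hev h
    · exact hed h
  have ed' : ¬ H.Adj e d := fun h => by
    rcases (nd e).1 h.symm with h | h
    · exact hec h
    · exact hef h
  have fa' : ¬ H.Adj f a := fun h => by
    rcases (na f).1 h.symm with h | h
    · exact hfb h
    · exact hef h.symm
  have fb' : ¬ H.Adj f b := fun h => by
    rcases (nb f).1 h.symm with h | h
    · exact hfv h
    · exact hfa h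
  have fv' : ¬ H.Adj f v := fun h => by
    rcases (nv f).1 h.symm with h | h
    · exact hfb h
    · exact hfc h
  have fc' : ¬ H.Adj f c := fun h => by
    rcases (nc f).1 h.symm with h | h
    · exact hfv h
    · exact hdf h.symm
  have hinj : Function.Injective ![e, a, b, v, c, d, f] := by
    intro i j hij
    fin_cases i <;> fin_cases j <;> first | rfl | exact absurd hij (by simp [hbc, hbc.symm, hav, hav.symm, hdv, hdv.symm, hac, Ne.symm hac, hdb, hdb.symm, hvb, hvb.symm, hvc, hvc.symm, hba, hba.symm, hcd, hcd.symm, heb, heb.symm, hfc, hfc.symm, had, Ne.symm had, hae, hae.symm, hdf, hdf.symm, hed, Ne.symm hed, hev, hev.symm, hec, hec.symm, hfa, hfa.symm, hfv, hfv.symm, hfb, hfb.symm, hef, Ne.symm hef])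
  refine u3_improve 7 _ _ [0, 6] l7 (by simp) (by decide +kernel) H ⟨_, hinj⟩ ⟨?_, ?_⟩ q hq0 hq1
  · intro i j
    fin_cases i <;> fin_cases j <;> simp [nv, nb, na, nd, nc, aef, afe, aea, afd, eb', ev', ec', ed', fa', fb', fv', fc', adjL, hbc, hbc.symm, hav, hav.symm, hdv, hdv.symm, hac, Ne.symm hac, hdb, hdb.symm, hvb, hvb.symm, hvc, hvc.symm, hba, hba.symm, hcd, hcd.symm, heb, heb.symm, hfc, hfc.symm, had, Ne.symm had, hae, hae.symm, hdf, hdf.symm, hed, Ne.symm hed, hfa, hfa.symm, hev, hev.symm, hec, hec.symm, hfv, hfv.symm, hfb, hfb.symm, hef, Ne.symm hef]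
  · intro i hi j hj
    fin_cases i
    · exact absurd (by simp) hi
    · rcases (na j).1 hj with h | h
      · exact ⟨2, h.symm⟩
      · exact ⟨0, h.symm⟩
    · rcases (nb j).1 hj with h | h
      · exact ⟨3, h.symm⟩
      · exact ⟨1, h.symm⟩
    · rcases (nv j).1 hj with h | h
      · exact ⟨2, h.symm⟩
      · exact ⟨4, h.symm⟩
    · rcases (nc j).1 hj with h | h
      · exact ⟨3, h.symm⟩
      · exact ⟨5, h.symm⟩
    · rcases (nd j).1 hj with h | h
      · exact ⟨4, h.symm⟩
      · exact ⟨6, h.symm⟩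
    · exact absurd (by simp) hi

theorem u3_no_C4_C4 (m : StrictMoves) (H : SimpleGraph (Fin n)) (q : ℝ) (hq0 : 0 < q) (hq1 : q < 1)
    (hI : ¬ SImp H q) (a b c d v y z w : Fin n) (h1 : C4 H a b c d) (h2 : C4 H v y z w)
    (hne : v ≠ a ∧ v ≠ b ∧ v ≠ c ∧ v ≠ d) : False := by
  have hcl := g16_C4_closed h1
  have nd : ([a, b, c, d] ++ [v, y, z, w]).Nodup := by
    apply g16_nodup_app (g16_C4_nodup h1) (g16_C4_nodup h2)
    have hv : v ∉ ({a, b, c, d} : Finset (Fin n)) := by simp [hne]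
    have hy := g16_closed_out hcl ((h2.2.2.2.1 v).2 (Or.inl rfl)) hv
    have hw := g16_closed_out hcl ((h2.2.2.2.2.2 v).2 (Or.inl rfl)) hv
    have hz := g16_closed_out hcl ((h2.2.2.2.2.1 y).2 (Or.inl rfl)) hy
    intro x hx hx'
    simp only [List.mem_cons, List.not_mem_nil, or_false] at hx
    rcases hx with rfl | rfl | rfl | rfl
    · exact hv (by simpa using hx')
    · exact hy (by simpa using hx')
    · exact hz (by simpa using hx')
    · exact hw (by simpa using hx')
  obtain ⟨hac, hbd, ha, hb, hc, hd⟩ := h1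
  obtain ⟨h1', h2', hv, hy, hz, hw⟩ := h2
  apply hI
  refine u3_improve 8 _ _ [] m.cc44 (by simp) (by decide) H (g16_embL _ nd) ?_ q hq0 hq1
  refine g16_conf_embL H _ nd _ ?_
  intro i j
  fin_cases i <;> simp [Fin.exists_fin_succ, adjL, ha, hb, hc, hd, hv, hy, hz, hw, @eq_comm _ j]
  all_goals exact or_comm

theorem u3_no_C4_C5 (m : StrictMoves) (H : SimpleGraph (Fin n)) (q : ℝ) (hq0 : 0 < q) (hq1 : q < 1)
    (hI : ¬ SImp H q) (a b c d v y z w t : Fin n) (h1 : C4 H a b c d) (h2 : C5 H v y z w t) :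
    False := by
  have hcl := g16_C4_closed h1
  have nd : ([a, b, c, d] ++ [v, y, z, w, t]).Nodup := by
    apply g16_nodup_app (g16_C4_nodup h1) (g16_C5_nodup h2)
    have nd5 := g16_C5_nodup h2
    obtain ⟨h1', h2', h3', h4', h5', hv, hy, hz, hw, ht⟩ := h2
    have hvS : v ∉ ({a, b, c, d} : Finset (Fin n)) := by
      intro h
      have hy' := hcl v h y ((hv y).2 (Or.inl rfl))
      have ht' := hcl v h t ((hv t).2 (Or.inr rfl))
      have hz' := hcl y hy' z ((hy z).2 (Or.inr rfl))
      have hw' := hcl z hz' w ((hz w).2 (Or.inr rfl))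
      have hsub : [v, y, z, w, t].toFinset ⊆ ({a, b, c, d} : Finset (Fin n)) := by
        intro x hx
        simp only [List.mem_toFinset, List.mem_cons, List.not_mem_nil, or_false] at hx
        rcases hx with rfl | rfl | rfl | rfl | rfl <;> assumption
      have h5 := Finset.card_le_card hsub
      rw [List.toFinset_card_of_nodup nd5] at h5
      have h6 := Finset.card_le_four (a := a) (b := b) (c := c) (d := d)
      simp only [List.length_cons, List.length_nil] at h5
      omega
    have hyS := g16_closed_out hcl ((hy v).2 (Or.inl rfl)) hvS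
    have htS := g16_closed_out hcl ((ht v).2 (Or.inl rfl)) hvS
    have hzS := g16_closed_out hcl ((hz y).2 (Or.inl rfl)) hyS
    have hwS := g16_closed_out hcl ((hw z).2 (Or.inl rfl)) hzS
    intro x hx hx'
    simp only [List.mem_cons, List.not_mem_nil, or_false] at hx
    rcases hx with rfl | rfl | rfl | rfl | rfl
    · exact hvS (by simpa using hx')
    · exact hyS (by simpa using hx')
    · exact hzS (by simpa using hx')
    · exact hwS (by simpa using hx')
    · exact htS (by simpa using hx')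
  obtain ⟨hac, hbd, ha, hb, hc, hd⟩ := h1
  obtain ⟨h1', h2', h3', h4', h5', hv, hy, hz, hw, ht⟩ := h2
  apply hI
  refine u3_improve 9 _ _ [] m.cc45 (by simp) (by decide) H (g16_embL _ nd) ?_ q hq0 hq1
  refine g16_conf_embL H _ nd _ ?_
  intro i j
  fin_cases i <;> simp [Fin.exists_fin_succ, adjL, ha, hb, hc, hd, hv, hy, hz, hw, ht,
    @eq_comm _ j]
  all_goals exact or_comm

theorem u3_no_C5_C5 (m : StrictMoves) (H : SimpleGraph (Fin n)) (q : ℝ) (hq0 : 0 < q) (hq1 : q < 1)
    (hI : ¬ SImp H q) (a b c d e v y z w t : Fin n) (h1 : C5 H a b c d e)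
    (h2 : C5 H v y z w t) (hne : v ≠ a ∧ v ≠ b ∧ v ≠ c ∧ v ≠ d ∧ v ≠ e) : False := by
  have hcl := g16_C5_closed h1
  have nd : ([a, b, c, d, e] ++ [v, y, z, w, t]).Nodup := by
    apply g16_nodup_app (g16_C5_nodup h1) (g16_C5_nodup h2)
    obtain ⟨h1', h2', h3', h4', h5', hv, hy, hz, hw, ht⟩ := h2
    have hvS : v ∉ ({a, b, c, d, e} : Finset (Fin n)) := by simp [hne]
    have hyS := g16_closed_out hcl ((hy v).2 (Or.inl rfl)) hvS
    have htS := g16_closed_out hcl ((ht v).2 (Or.inl rfl)) hvS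
    have hzS := g16_closed_out hcl ((hz y).2 (Or.inl rfl)) hyS
    have hwS := g16_closed_out hcl ((hw z).2 (Or.inl rfl)) hzS
    intro x hx hx'
    simp only [List.mem_cons, List.not_mem_nil, or_false] at hx
    rcases hx with rfl | rfl | rfl | rfl | rfl
    · exact hvS (by simpa using hx')
    · exact hyS (by simpa using hx')
    · exact hzS (by simpa using hx')
    · exact hwS (by simpa using hx')
    · exact htS (by simpa using hx')
  obtain ⟨_, _, _, _, _, ha, hb, hc, hd, he⟩ := h1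
  obtain ⟨h1', h2', h3', h4', h5', hv, hy, hz, hw, ht⟩ := h2
  apply hI
  refine u3_improve 10 _ _ [] m.cc55 (by simp) (by decide) H (g16_embL _ nd) ?_ q hq0 hq1
  refine g16_conf_embL H _ nd _ ?_
  intro i j
  fin_cases i <;> simp [Fin.exists_fin_succ, adjL, ha, hb, hc, hd, he, hv, hy, hz, hw, ht,
    @eq_comm _ j]
  all_goals exact or_comm



theorem strict_improve (M : StrictMoves) (H : SimpleGraph (Fin n)) (h2 : ∀ v, dg H v = 2)
    (hT : ¬ TC H) (q : ℝ) (hq0 : 0 < q) (hq1 : q < 1) :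
    ∃ H' : SimpleGraph (Fin n), (∑ v, dg H' v) = (∑ v, dg H v) ∧ RH H q < RH H' q := by
  by_contra hI0
  have hI : ¬ SImp H q := hI0
  apply hT
  refine ⟨h2, ?_⟩
  by_cases hall : ∀ v, ∃ a b, a ≠ b ∧ H.Adj v a ∧ H.Adj v b ∧ H.Adj a b
  · exact Or.inl hall
  push Not at hall
  obtain ⟨v, hv⟩ := hall
  rcases u3_two_cases M H q hq0 hq1 hI h2 v with ⟨a, b, h1, h3, h4, h5⟩ | ⟨a, b, c, h4⟩ |
    ⟨a, b, c, d, h5⟩
  · exact absurd h5 (hv a b h1 h3 h4)
  · refine Or.inr (Or.inl ⟨v, a, b, c, h4, fun x hx1 hx2 hx3 hx4 => ?_⟩)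
    rcases u3_two_cases M H q hq0 hq1 hI h2 x with h | ⟨a', b', c', h⟩ | ⟨a', b', c', d', h⟩
    · exact h
    · exact (u3_no_C4_C4 M H q hq0 hq1 hI v a b c x a' b' c' h4 h ⟨hx1, hx2, hx3, hx4⟩).elim
    · exact (u3_no_C4_C5 M H q hq0 hq1 hI v a b c x a' b' c' d' h4 h).elim
  · refine Or.inr (Or.inr ⟨v, a, b, c, d, h5, fun x hx1 hx2 hx3 hx4 hx5 => ?_⟩)
    rcases u3_two_cases M H q hq0 hq1 hI h2 x with h | ⟨a', b', c', h⟩ | ⟨a', b', c', d', h⟩
    · exact h
    · exact (u3_no_C4_C5 M H q hq0 hq1 hI x a' b' c' v a b c d h h5).elim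
    · exact (u3_no_C5_C5 M H q hq0 hq1 hI v a b c d x a' b' c' d' h5 h
        ⟨hx1, hx2, hx3, hx4, hx5⟩).elim

end Pool.Agent.H34R2.U
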