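import Pool.Agent.H34R2.U.Defs
import Pool.Agent.H34R2.U.L
import Pool.Agent.Helper428.UMRMain

/-! TASK U4: the complement of a uniformly most reliable graph with `n` missing edges is
2-regular. -/

set_option autoImplicit false

namespace Pool.Agent.H34R2.U

open Finset
open Classical
open Pool.Agent.Helper428.UMR

theorem U4_dg {n : ℕ} (H : SimpleGraph (Fin n)) (v : Fin n) : dg H v = H.degree v := by
  unfold dg
  rw [← SimpleGraph.card_neighborFinset_eq_degree, SimpleGraph.neighborFinset_eq_filter]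

theorem U4_cycle (n : ℕ) (hn : 3 ≤ n) : ∃ H : SimpleGraph (Fin n), ∀ v, H.degree v = 2 := by
  obtain ⟨m, rfl⟩ : ∃ m, n = m + 3 := ⟨n - 3, by omega⟩
  refine ⟨SimpleGraph.cycleGraph (m + 3), fun v => ?_⟩
  have h := SimpleGraph.cycleGraph_degree_three_le (n := m) (v := v)
  have key : ∀ i1 i2 : Fintype ((SimpleGraph.cycleGraph (m + 3)).neighborSet v),
      @SimpleGraph.degree _ (SimpleGraph.cycleGraph (m + 3)) v i1 =
        @SimpleGraph.degree _ (SimpleGraph.cycleGraph (m + 3)) v i2 := by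
    intro i1 i2
    rw [Subsingleton.elim i1 i2]
  exact (key _ _).trans h

theorem U4_cut {n : ℕ} (hn : 5 ≤ n) {G H : SimpleGraph (Fin n)}
    (hH : ∀ u v, H.Adj u v ↔ u ≠ v ∧ ¬ G.Adj u v) (hd : ∀ v, H.degree v = 2)
    (S : Finset (Fin n)) (hS : S.Nonempty) (hS' : Sᶜ.Nonempty) :
    n ≤ (Pool.Agent.Helper428.UMR.cut G S).card + 3 := by
  have h1 := cut_add hH S
  have h2 : (Pool.Agent.Helper428.UMR.cut H S).card ≤ 2 * S.card := by
    refine (cut_le_deg H S).trans ?_
    rw [Finset.sum_congr rfl (fun v _ => hd v)]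
    simp [mul_comm]
  have h3 : (Pool.Agent.Helper428.UMR.cut H S).card ≤ 2 * (n - S.card) := by
    rw [← cut_compl]
    refine (cut_le_deg H Sᶜ).trans ?_
    rw [Finset.sum_congr rfl (fun v _ => hd v)]
    simp [mul_comm, Finset.card_compl]
  have h4 : 0 < S.card := Finset.card_pos.2 hS
  have h5 : 0 < Sᶜ.card := Finset.card_pos.2 hS'
  rw [Finset.card_compl, Fintype.card_fin] at h5
  obtain ⟨s, hs⟩ : ∃ s, s = S.card := ⟨_, rfl⟩
  rw [← hs] at h1 h2 h3 h4 h5
  obtain ⟨t, ht⟩ : ∃ t, n = s + t := ⟨n - s, by omega⟩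
  have ht2 : n - s = t := by omega
  rw [ht2] at h1 h3 h5
  obtain ⟨s', rfl⟩ : ∃ s', s = s' + 1 := ⟨s - 1, by omega⟩
  obtain ⟨t', rfl⟩ : ∃ t', t = t' + 1 := ⟨t - 1, by omega⟩
  have e1 : (s' + 1) * (t' + 1) = s' * t' + s' + t' + 1 := by ring
  rw [e1] at h1
  rcases le_total s' t' with h | h
  · -- `t ≥ 3`
    obtain ⟨t'', rfl⟩ : ∃ t'', t' = t'' + 2 := ⟨t' - 2, by omega⟩
    have e2 : s' * (t'' + 2) = s' * t'' + 2 * s' := by ring
    rw [e2] at h1
    have := Nat.zero_le (s' * t'')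
    omega
  · obtain ⟨s'', rfl⟩ : ∃ s'', s' = s'' + 2 := ⟨s' - 2, by omega⟩
    have e2 : (s'' + 2) * t' = s'' * t' + 2 * t' := by ring
    rw [e2] at h1
    have := Nat.zero_le (s'' * t')
    omega

theorem umr_two_regular {n : ℕ} (hn : 5 ≤ n) (G H : SimpleGraph (Fin n)) (hH : H = Gᶜ)
    (hU : IsUMR G) (hsum : ∑ v, dg H v = 2 * n) (v : Fin n) : dg H v = 2 := by
  have hc : ∀ u v, H.Adj u v ↔ u ≠ v ∧ ¬ G.Adj u v := by
    intro u v
    rw [hH, SimpleGraph.compl_adj]
  simp only [U4_dg] at hsum ⊢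
  -- the competitor
  obtain ⟨H', hH'⟩ := U4_cycle n (by omega)
  obtain ⟨G', hG'⟩ : ∃ G' : SimpleGraph (Fin n), G' = H'ᶜ := ⟨_, rfl⟩
  have hc' : ∀ u v, H'.Adj u v ↔ u ≠ v ∧ ¬ G'.Adj u v := by
    intro u v
    rw [hG', SimpleGraph.compl_adj]
    constructor
    · intro h; exact ⟨h.ne, fun h2 => h2.2 h⟩
    · rintro ⟨h1, h2⟩
      by_contra h3
      exact h2 ⟨h1, h3⟩
  have hm : G'.edgeFinset.card = G.edgeFinset.card := by
    have h1 := edges_add hc
    have h2 := edges_add hc'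
    have h3 := SimpleGraph.sum_degrees_eq_twice_card_edges H
    have h4 := SimpleGraph.sum_degrees_eq_twice_card_edges H'
    rw [Finset.sum_congr rfl (fun v _ => hH' v)] at h4
    simp at h4
    rw [hsum] at h3
    omega
  have hdis0 : ∀ j < n - 3, dis G' j = 0 := by
    intro j hj
    unfold dis
    rw [Finset.card_eq_zero, Finset.filter_eq_empty_iff]
    intro B hB hB'
    rw [Finset.mem_powersetCard] at hB
    rw [not_connected_iff (by omega)] at hB'
    obtain ⟨S, hS, hS', hSB⟩ := hB'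
    have h1 := U4_cut hn hc' hH' S hS hS'
    have h2 := Finset.card_le_card hSB
    omega
  have hle : ∀ v, H.degree v ≤ 2 := by
    intro v
    by_contra hcon
    push Not at hcon
    have h1 := deg_add hc v
    have h2 := umr_dis hU hm (G.degree v) (by
      intro j hj
      rw [hdis0 j (by omega)]
      exact Nat.zero_le _)
    rw [hdis0 (G.degree v) (by omega)] at h2
    have h3 : 0 < dis G (G.degree v) := by
      unfold dis
      rw [Finset.card_pos]
      refine ⟨Pool.Agent.Helper428.UMR.cut G {v}, ?_⟩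
      rw [Finset.mem_filter, not_connected_iff (by omega), Finset.mem_powersetCard]
      refine ⟨⟨cut_subset _ _, cut_singleton _ _⟩, {v}, Finset.singleton_nonempty _, ?_,
        Finset.Subset.refl _⟩
      rw [← Finset.card_pos, Finset.card_compl, Fintype.card_fin, Finset.card_singleton]
      omega
    omega
  -- all degrees are two
  by_contra hne
  have hlt : H.degree v < 2 := lt_of_le_of_ne (hle v) hne
  have : ∑ v : Fin n, H.degree v < ∑ v : Fin n, 2 :=
    Finset.sum_lt_sum (fun v _ => hle v) ⟨v, Finset.mem_univ _, hlt⟩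
  simp at this
  omega

end Pool.Agent.H34R2.U
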