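import Pool.Agent.H34R2.U.Fin1
import Pool.Agent.H34R2.U.G22
import Pool.Agent.H34R2.U.G25
import Pool.Agent.H34R2.U.R6
import Pool.Agent.H34R2.U.U3
import Pool.Agent.H34R2.U.U4

/-! final assembly of stage 2 -/

set_option autoImplicit false

namespace Pool.Agent.H34R2.U

open Finset
open Classical
open Pool.Agent.Helper428.UMR

variable {n : ℕ}

theorem TC_max (M : AllMoves) (S : SlotMoves) (hn : 3 ≤ n) (T H : SimpleGraph (Fin n))
    (hT : TC T) (hs : ∑ v, dg H v = 2 * n) (q : ℝ) (hq0 : 0 < q) (hq1 : q < 1) :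
    RH H q ≤ RH T q := by
  obtain ⟨H', h1, h2, h3⟩ := dominated q H
  have hle := maxdeg_two' M S H' q hq0 hq1 h3 0 (Or.inl rfl) hn (by rw [h1, hs]; rfl)
  have h22 : ∀ v, dg H' v = 2 := by
    have h4 : ∑ v : Fin n, dg H' v = ∑ _v : Fin n, 2 := by
      rw [h1, hs]
      simp [mul_comm]
    have h5 := (Finset.sum_eq_sum_iff_of_le (fun v _ => hle v)).1 h4
    exact fun v => h5 v (Finset.mem_univ v)
  have h4 := noImp_TC M H' q hq0 hq1 h3 h22
  obtain ⟨σ, hσ⟩ := TC_iso H' T h4 hT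
  rw [← RH_iso H' T σ hσ q]
  exact h2

theorem TE_max' (M : AllMoves) (S : SlotMoves) (hn : 3 ≤ n) (h3n : n % 3 = 2)
    (T H : SimpleGraph (Fin n)) (hT : TE T) (hTs : ∑ v, dg T v = n + (n - 2))
    (hs : ∑ v, dg H v = n + (n - 2)) (q : ℝ) (hq0 : 0 < q) (hq1 : q < 1) : RH H q ≤ RH T q := by
  obtain ⟨H', h1, h2, h3⟩ := dominated q H
  have hle := maxdeg_two' M S H' q hq0 hq1 h3 2 (Or.inr rfl) hn (by rw [h1, hs]; omega)
  have h4 := noImp_TE' M H' q hq0 hq1 h3 hle (n - 2) (by omega) (by omega) (h1.trans hs)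
  obtain ⟨σ, hσ⟩ := TE_iso H' T h4 hT (by rw [h1, hs, hTs])
  rw [← RH_iso H' T σ hσ q]
  exact h2

theorem PC_max (M : AllMoves) (S : SlotMoves) (T H : SimpleGraph (Fin 6)) (hT : PC T)
    (hTs : ∑ v, dg T v = 10) (hs : ∑ v, dg H v = 10) (q : ℝ) (hq0 : 0 < q) (hq1 : q < 1) :
    RH H q ≤ RH T q := by
  obtain ⟨H', h1, h2, h3⟩ := dominated q H
  have hle := maxdeg_two' M S H' q hq0 hq1 h3 2 (Or.inr rfl) (by norm_num) (by rw [h1, hs])
  rcases noImp_six M H' q hq0 hq1 h3 hle (h1.trans hs) with ⟨v, y, a, b, c, d, h4, h5⟩ | h4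
  · exact h2.trans (six_compare H' T v y a b c d h4 h5 hT hTs q hq0 hq1)
  · obtain ⟨σ, hσ⟩ := PC_iso H' T h4 hT (h1.trans hs) hTs
    rw [← RH_iso H' T σ hσ q]
    exact h2

/-- number of edges of the complement -/
theorem fin2_sum1 {m : ℕ} (hm : 2 * m + 3 * n = n ^ 2) (G H : SimpleGraph (Fin n))
    (hH : H = Gᶜ) (hG : G.edgeFinset.card = m) : ∑ v, dg H v = 2 * n := by
  have h1 := edges_add (compl_compl_adj G H hH)
  rw [hG] at h1
  rw [sum_dg]
  nlinarith

theorem fin2_sum2 {m : ℕ} (hn : 2 ≤ n) (hm : 2 * m + 3 * n = n ^ 2 + 2)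
    (G H : SimpleGraph (Fin n))
    (hH : H = Gᶜ) (hG : G.edgeFinset.card = m) : ∑ v, dg H v = n + (n - 2) := by
  have h1 := edges_add (compl_compl_adj G H hH)
  rw [hG] at h1
  rw [sum_dg]
  have h3 : 2 * H.edgeFinset.card + 2 = n + n := by nlinarith
  omega

/-- conversely: the number of edges of the complement of `T` -/
theorem fin2_card {m : ℕ} (T G : SimpleGraph (Fin n)) (hG : G = Tᶜ) (s : ℕ)
    (hs : ∑ v, dg T v = s) (hm : 2 * m + s + n = n ^ 2) : G.edgeFinset.card = m := by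
  have h1 := edges_add (compl_compl_adj G T (by rw [hG, compl_compl]))
  rw [sum_dg] at hs
  nlinarith

theorem few_edges (G : SimpleGraph (Fin n)) (h : G.edgeFinset.card + 1 < n) : IsUMR G := by
  intro H hH p _ _
  have h0 : ∀ K : SimpleGraph (Fin n), K.edgeFinset.card = G.edgeFinset.card → rel K p = 0 := by
    intro K hK
    rw [rel_eq_eta]
    apply Finset.sum_eq_zero
    intro i hi
    rw [Finset.mem_range] at hi
    rw [eta_zero K i (by omega)]
    simp
  rw [h0 H hH, h0 G rfl]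

theorem tree_umr (G : SimpleGraph (Fin n)) (h : G.edgeFinset.card + 1 = n)
    (hG : G.Connected) : IsUMR G := by
  intro H hH p hp0 _
  have h0 : ∀ K : SimpleGraph (Fin n), K.edgeFinset.card = G.edgeFinset.card →
      rel K p = (eta K (n - 1) : ℝ) * p ^ (n - 1) := by
    intro K hK
    rw [rel_eq_eta, hK, Finset.sum_range_succ, Finset.sum_eq_zero]
    · have : G.edgeFinset.card = n - 1 := by omega
      rw [this]
      simp
    · intro i hi
      rw [Finset.mem_range] at hi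
      rw [eta_zero K i (by omega)]
      simp
  have h1 : ∀ K : SimpleGraph (Fin n), K.edgeFinset.card = G.edgeFinset.card →
      eta K (n - 1) ≤ 1 := by
    intro K hK
    have h2 : K.edgeFinset.card = n - 1 := by omega
    unfold eta
    refine (Finset.card_filter_le _ _).trans ?_
    rw [← h2, Finset.card_powersetCard, Nat.choose_self]
  have h2 : eta G (n - 1) = 1 := by
    have h3 : G.edgeFinset.card = n - 1 := by omega
    unfold eta
    rw [← h3, Finset.powersetCard_self, Finset.filter_singleton, if_pos, Finset.card_singleton]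
    have h4 : (SimpleGraph.fromEdgeSet ((G.edgeFinset : Finset (Sym2 (Fin n))) :
        Set (Sym2 (Fin n)))) = G := by
      rw [SimpleGraph.coe_edgeFinset, SimpleGraph.fromEdgeSet_edgeSet]
    rw [h4]
    exact hG
  rw [h0 H hH, h0 G rfl, h2]
  have h3 : (eta H (n - 1) : ℝ) ≤ 1 := by exact_mod_cast h1 H hH
  have h4 : 0 ≤ p ^ (n - 1) := pow_nonneg hp0 _
  push_cast
  nlinarith

end Pool.Agent.H34R2.U
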