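import Pool.Agent.H34R2.U.R6
import Pool.Agent.H34R2.U.Final

/-! small facts for the final assembly -/

set_option autoImplicit false

namespace Pool.Agent.H34R2.U

open Finset
open Classical

theorem three_edge : ∃ G : SimpleGraph (Fin 3), G.edgeFinset.card = 1 := by
  refine ⟨SimpleGraph.fromEdgeSet {s(0, 1)}, ?_⟩
  rw [← Set.ncard_coe_finset, SimpleGraph.coe_edgeFinset, SimpleGraph.edgeSet_fromEdgeSet]
  have : ({s(0, 1)} : Set (Sym2 (Fin 3))) \ {e | e.IsDiag} = {s(0, 1)} := by
    ext e
    constructor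
    · rintro ⟨h, _⟩; exact h
    · intro h
      refine ⟨h, ?_⟩
      rw [Set.mem_singleton_iff] at h
      subst h
      simp
  rw [show (Sym2.diagSet : Set (Sym2 (Fin 3))) = {e | e.IsDiag} from rfl, this]
  exact Set.ncard_singleton _

theorem four_tree : ∃ G : SimpleGraph (Fin 4), G.edgeFinset.card = 3 ∧ G.Connected := by
  refine ⟨SimpleGraph.fromEdgeSet (({s(0, 1), s(0, 2), s(0, 3)} : Finset (Sym2 (Fin 4))) :
    Set (Sym2 (Fin 4))), ?_, ?_⟩
  · rw [← Set.ncard_coe_finset, SimpleGraph.coe_edgeFinset, SimpleGraph.edgeSet_fromEdgeSet]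
    have : ((({s(0, 1), s(0, 2), s(0, 3)} : Finset (Sym2 (Fin 4))) : Set (Sym2 (Fin 4)))) \
        {e | e.IsDiag} = (({s(0, 1), s(0, 2), s(0, 3)} : Finset (Sym2 (Fin 4))) :
          Set (Sym2 (Fin 4))) := by
      ext e
      constructor
      · rintro ⟨h, _⟩; exact h
      · intro h
        refine ⟨h, ?_⟩
        simp only [coe_insert, coe_singleton, Set.mem_insert_iff, Set.mem_singleton_iff] at h
        rcases h with rfl | rfl | rfl <;> simp
    rw [show (Sym2.diagSet : Set (Sym2 (Fin 4))) = {e | e.IsDiag} from rfl, this,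
      Set.ncard_coe_finset]
    decide
  · have hadj : ∀ w : Fin 4, w ≠ 0 → (SimpleGraph.fromEdgeSet
        (({s(0, 1), s(0, 2), s(0, 3)} : Finset (Sym2 (Fin 4))) : Set (Sym2 (Fin 4)))).Adj 0 w := by
      intro w hw
      rw [SimpleGraph.fromEdgeSet_adj]
      refine ⟨?_, hw.symm⟩
      fin_cases w
      · exact absurd rfl hw
      · simp
      · simp
      · simp
    rw [SimpleGraph.connected_iff_exists_forall_reachable]
    refine ⟨0, fun w => ?_⟩
    by_cases hw : w = 0
    · subst hw; exact SimpleGraph.Reachable.refl _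
    · exact (hadj w hw).reachable

theorem six_PC (T : SimpleGraph (Fin 6)) (hs : ∑ v, dg T v = 10) (a b c x y z : Fin 6)
    (hnd : [a, b, c, x, y, z].Nodup) (h1 : T.Adj a b) (h2 : T.Adj b c) (h3 : T.Adj x y)
    (h4 : T.Adj y z) (h5 : T.Adj x z) : PC T := by
  have hset : ∀ v : Fin 6, v = a ∨ v = b ∨ v = c ∨ v = x ∨ v = y ∨ v = z := by
    have hcard : ([a, b, c, x, y, z].toFinset).card = Fintype.card (Fin 6) := by
      rw [List.toFinset_card_of_nodup hnd]; simp
    have huniv := Finset.eq_univ_of_card _ hcard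
    intro v
    have : v ∈ [a, b, c, x, y, z].toFinset := by rw [huniv]; exact Finset.mem_univ v
    simpa using this
  have hsum : ∑ v, dg T v = dg T a + (dg T b + (dg T c + (dg T x + (dg T y + dg T z)))) := by
    have hcard : ([a, b, c, x, y, z].toFinset).card = Fintype.card (Fin 6) := by
      rw [List.toFinset_card_of_nodup hnd]; simp
    have huniv := Finset.eq_univ_of_card _ hcard
    rw [← huniv, List.sum_toFinset _ hnd]
    simp
  simp only [List.nodup_cons, List.mem_cons, List.not_mem_nil, or_false, not_or,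
    List.nodup_nil, and_true, not_false_eq_true] at hnd
  obtain ⟨⟨n1, n2, n3, n4, n5⟩, ⟨n6, n7, n8, n9⟩, ⟨n10, n11, n12⟩, ⟨n13, n14⟩, n15⟩ := hnd
  have low1 : ∀ u v : Fin 6, T.Adj u v → 1 ≤ dg T u := by
    intro u v h
    unfold dg
    exact Finset.card_pos.2 ⟨v, by simpa using h⟩
  have low2 : ∀ u v w : Fin 6, v ≠ w → T.Adj u v → T.Adj u w → 2 ≤ dg T u := by
    intro u v w hvw h h'
    unfold dg
    rw [← Finset.card_pair hvw]
    apply Finset.card_le_card
    intro t ht
    rw [Finset.mem_insert, Finset.mem_singleton] at ht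
    rcases ht with rfl | rfl
    · simpa using h
    · simpa using h'
  have da := low1 a b h1
  have db := low2 b a c n2 h1.symm h2
  have dc := low1 c b h2.symm
  have dx := low2 x y z n15 h3 h5
  have dy := low2 y x z n14 h3.symm h4
  have dz := low2 z x y n13 h5.symm h4.symm
  have ea : dg T a = 1 := by omega
  have eb : dg T b = 2 := by omega
  have ec : dg T c = 1 := by omega
  refine ⟨a, b, c, x, y, z, ⟨n2, ?_, ?_, ?_⟩, n13, n15, n14, h3, h4, h5⟩
  · exact fun j => G13Aux.dg_one' ea h1 j
  · intro j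
    obtain ⟨w, hw1, hw2⟩ := G13Aux.dg_two eb h1.symm
    have hc : c = w := by
      rcases (hw2 c).1 h2 with h | h
      · exact absurd h.symm n2
      · exact h
    rw [hw2 j, hc]
  · exact fun j => G13Aux.dg_one' ec h2.symm j

end Pool.Agent.H34R2.U
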