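import Pool.Agent.H34R2.U.MJBase
import Pool.Agent.H34R2.U.Cert10_0

/-! instances of the strict machine-checked moves -/

set_option autoImplicit false
set_option maxRecDepth 100000

namespace Pool.Agent.H34R2.U

theorem st_C5C5 : MoveStrict 10 [(0,1),(1,2),(2,3),(3,4),(0,4),(5,6),(6,7),(7,8),(8,9),(5,9)]
  [[(0,1),(1,2),(0,2),(3,4),(4,5),(3,5),(6,7),(7,8),(8,9),(6,9)]] [] :=
  strict_of _ _ _ _ cert10_0 _ _ cert10_0_ok rfl rfl (by decide +kernel) (by decide +kernel)

end Pool.Agent.H34R2.U
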