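import Pool.Agent.H34R2.U.MJBase
import Pool.Agent.H34R2.U.Cert5_2

/-! instances of the strict machine-checked moves -/

set_option autoImplicit false
set_option maxRecDepth 100000

namespace Pool.Agent.H34R2.U

theorem st_L7 : MoveStrict 7 [(0,1),(1,2),(2,3),(3,4),(4,5),(5,6)]
  [[(1,2),(2,3),(1,3),(0,4),(4,5),(5,6)],[(0,1),(2,3),(3,4),(2,4),(1,5),(5,6)],[(0,1),(1,2),(3,4),(4,5),(3,5),(2,6)]] [0,6] :=
  strict_of _ _ _ _ cert5_2 _ _ cert5_2_ok rfl rfl (by decide +kernel) (by decide +kernel)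

end Pool.Agent.H34R2.U
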