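import Pool.Agent.H34R2.U.SLF
import Pool.Agent.H34R2.U.Cert5_0

/-! instance of a move with slots (generated) -/

set_option autoImplicit false
set_option maxRecDepth 100000

namespace Pool.Agent.H34R2.U

def sP3a_T : List Ty :=
  [[(3, 3)], [(0, 1), (3, 2)], [(0, 2), (3, 1)], [(0, 3), (3, 0)], [(1, 0), (2, 3)], [(1, 1), (2, 2)], [(1, 2), (2, 1)], [(1, 3), (2, 0)], [(0, 1), (0, 1), (3, 1)], [(0, 1), (0, 2), (3, 0)], [(0, 1), (1, 0), (2, 2)], [(0, 1), (1, 1), (2, 1)], [(0, 1), (1, 2), (2, 0)], [(0, 2), (1, 0), (2, 1)], [(0, 2), (1, 1), (2, 0)], [(0, 3), (1, 0), (2, 0)], [(0, 1), (0, 1), (0, 1), (3, 0)], [(0, 1), (0, 1), (1, 0), (2, 1)], [(0, 1), (0, 1), (1, 1), (2, 0)], [(0, 1), (0, 2), (1, 0), (2, 0)], [(0, 1), (0, 1), (0, 1), (1, 0), (2, 0)]]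

def sP3a_T2 : List Ty :=
  [[(0, 1), (3, 2)], [(0, 2), (3, 1)], [(0, 3), (3, 0)], [(1, 0), (2, 3)], [(1, 1), (2, 2)], [(1, 2), (2, 1)], [(0, 1), (0, 1), (3, 1)], [(0, 1), (0, 2), (3, 0)], [(0, 1), (1, 0), (2, 2)], [(0, 1), (1, 1), (2, 1)], [(0, 2), (1, 0), (2, 1)], [(0, 1), (0, 1), (0, 1), (3, 0)], [(0, 1), (0, 1), (1, 0), (2, 1)]]

def sP3a_V : List (List ℕ × List ℕ) :=
  [([], [0, 1, 7, 21, 35, 35, 21, 7, 1]),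
   ([], [0, 2, 11, 25, 30, 20, 7, 1]),
   ([], [0, 1, 4, 6, 4, 1]),
   ([0, 1, 6, 15, 20, 15, 6, 1], []),
   ([0, 2, 11, 25, 30, 20, 7, 1], []),
   ([0, 1, 5, 10, 10, 5, 1], []),
   ([0, 4, 20, 40, 40, 20, 4], []),
   ([0, 6, 20, 24, 12, 2], []),
   ([], [0, 4, 18, 32, 28, 12, 2]),
   ([], [0, 4, 16, 24, 16, 4]),
   ([], [0, 2, 6, 6, 2]),
   ([], [0, 6, 18, 18, 6]),
   ([0, 6, 18, 18, 6], [])]

def sP3a_R : List (List ℕ) :=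
  [[1, 1, 1, 1, 1, 1, 1, 1, 1, 1, 1, 1, 1],
   [6, 4, 4, 6, 4, 4, 3, 2, 3, 2, 2, 1, 1],
   [4, 1, 1, 4, 1, 1, 1, 0, 1, 0, 0, 0, 0],
   [3, 3, 3, 3, 3, 3, 0, 1, 0, 1, 1, 0, 0],
   [1, 0, 0, 1, 0, 0, 0, 0, 0, 0, 0, 0, 0],
   [0, 1, 1, 0, 1, 1, 0, 0, 0, 0, 0, 0, 0],
   [0, 0, 0, 0, 0, 0, 0, 0, 0, 0, 0, 0, 0]]

def sP3a_VB : List (ℕ × ℕ) := sP3a_V.map fun e => (evB (2 ^ 96) e.1, evB (2 ^ 96) e.2)

def sP3a_V1 : List (ℕ × ℕ) := sP3a_V.map fun e => (evB 1 e.1, evB 1 e.2)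

theorem sP3a_k0 : slotKa (2 ^ 96) 5 2 sP3a_T2 sP3a_R 3 0 [2, 1] sP3a_VB sP3a_V1 [0, 0] = true := by
  decide +kernel

theorem sP3a_k1 : slotKa (2 ^ 96) 5 2 sP3a_T2 sP3a_R 3 0 [2, 1] sP3a_VB sP3a_V1 [0, 1] = true := by
  decide +kernel

theorem sP3a_k2 : slotKa (2 ^ 96) 5 2 sP3a_T2 sP3a_R 3 0 [2, 1] sP3a_VB sP3a_V1 [1, 0] = true := by
  decide +kernel

theorem sP3a_k3 : slotKa (2 ^ 96) 5 2 sP3a_T2 sP3a_R 3 0 [2, 1] sP3a_VB sP3a_V1 [1, 1] = true := by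
  decide +kernel

theorem sP3a_k4 : slotKa (2 ^ 96) 5 2 sP3a_T2 sP3a_R 3 0 [2, 1] sP3a_VB sP3a_V1 [2, 0] = true := by
  decide +kernel

theorem sP3a_k5 : slotKa (2 ^ 96) 5 2 sP3a_T2 sP3a_R 3 0 [2, 1] sP3a_VB sP3a_V1 [2, 1] = true := by
  decide +kernel

theorem sP3a_k : slotK (2 ^ 96) 5 2 sP3a_T2 sP3a_R (3 + 1) 0 [2, 1] sP3a_VB sP3a_V1 = true := by
  refine slotK_of _ _ _ _ _ _ _ _ _ _ (by decide) ?_
  intro a ha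
  have hp : pats [2, 1] = [[0, 0], [0, 1], [1, 0], [1, 1], [2, 0], [2, 1]] := by decide
  rw [hp] at ha
  simp only [List.mem_cons, List.not_mem_nil, or_false] at ha
  rcases ha with rfl | rfl | rfl | rfl | rfl | rfl
  · exact sP3a_k0
  · exact sP3a_k1
  · exact sP3a_k2
  · exact sP3a_k3
  · exact sP3a_k4
  · exact sP3a_k5

theorem sP3a_side : slSide 5 [(0, 1), (1, 2), (3, 4)] [(0, 1), (1, 2), (0, 4)] [3, 4] [2, 1] sP3a_T sP3a_T2 cert5_0 = true := by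
  decide +kernel

theorem sP3a_hV : sP3a_T2.map (slPoly 5 [(0, 1), (1, 2), (3, 4)] [(0, 1), (1, 2), (0, 4)] [3, 4]) = sP3a_V := by
  decide +kernel

theorem sP3a_hR : slRows 2 sP3a_T2 cert5_0 = sP3a_R := by decide +kernel

theorem i_sP3a : SlotOK 5 [(0, 1), (1, 2), (3, 4)] [(0, 1), (1, 2), (0, 4)] [3, 4] [2, 1] :=
  slot_move 5 _ _ _ _ sP3a_T sP3a_T2 cert5_0 (3 + 1) (2 ^ 96) 2 sP3a_R sP3a_V cert5_0_ok rfl sP3a_side sP3a_hV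
    sP3a_hR sP3a_k

end Pool.Agent.H34R2.U
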