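import Pool.Agent.H34R2.U.SLF
import Pool.Agent.H34R2.U.Cert5_0

/-! instance of a move with slots (generated) -/

set_option autoImplicit false
set_option maxRecDepth 100000

namespace Pool.Agent.H34R2.U

def sP3b_T : List Ty :=
  [[(3, 3)], [(0, 1), (3, 2)], [(0, 2), (3, 1)], [(0, 3), (3, 0)], [(1, 0), (2, 3)], [(1, 1), (2, 2)], [(1, 2), (2, 1)], [(1, 3), (2, 0)], [(0, 1), (0, 1), (3, 1)], [(0, 1), (0, 2), (3, 0)], [(0, 1), (1, 0), (2, 2)], [(0, 1), (1, 1), (2, 1)], [(0, 1), (1, 2), (2, 0)], [(0, 2), (1, 0), (2, 1)], [(0, 2), (1, 1), (2, 0)], [(0, 3), (1, 0), (2, 0)], [(0, 1), (0, 1), (0, 1), (3, 0)], [(0, 1), (0, 1), (1, 0), (2, 1)], [(0, 1), (0, 1), (1, 1), (2, 0)], [(0, 1), (0, 2), (1, 0), (2, 0)], [(0, 1), (0, 1), (0, 1), (1, 0), (2, 0)]]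

def sP3b_T2 : List Ty :=
  [[(0, 1), (3, 2)], [(0, 2), (3, 1)], [(1, 0), (2, 3)], [(1, 1), (2, 2)], [(1, 2), (2, 1)], [(1, 3), (2, 0)], [(0, 1), (0, 1), (3, 1)], [(0, 1), (0, 2), (3, 0)], [(0, 1), (1, 0), (2, 2)], [(0, 1), (1, 2), (2, 0)], [(0, 2), (1, 0), (2, 1)], [(0, 2), (1, 1), (2, 0)], [(0, 3), (1, 0), (2, 0)], [(0, 1), (0, 1), (0, 1), (3, 0)], [(0, 1), (0, 2), (1, 0), (2, 0)]]

def sP3b_V : List (List ℕ × List ℕ) :=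
  [([], [0, 2, 14, 42, 70, 70, 42, 14, 2]),
   ([], [0, 2, 10, 20, 20, 10, 2]),
   ([0, 1, 6, 15, 20, 15, 6, 1], []),
   ([0, 1, 6, 15, 20, 15, 6, 1], []),
   ([0, 1, 6, 15, 20, 15, 6, 1], []),
   ([0, 1, 6, 15, 20, 15, 6, 1], []),
   ([0, 6, 30, 60, 60, 30, 6], []),
   ([0, 4, 12, 12, 4], []),
   ([], [0, 2, 10, 20, 20, 10, 2]),
   ([], [0, 2, 10, 20, 20, 10, 2]),
   ([], [0, 2, 8, 12, 8, 2]),
   ([], [0, 2, 8, 12, 8, 2]),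
   ([], [0, 2, 6, 6, 2]),
   ([], [0, 6, 18, 18, 6]),
   ([0, 6, 18, 18, 6], [])]

def sP3b_R : List (List ℕ) :=
  [[1, 1, 1, 1, 1, 1, 1, 1, 1, 1, 1, 1, 1, 1, 1],
   [6, 4, 6, 4, 4, 6, 3, 2, 3, 3, 2, 2, 3, 1, 1],
   [4, 1, 4, 1, 1, 4, 1, 0, 1, 1, 0, 0, 1, 0, 0],
   [3, 3, 3, 3, 3, 3, 0, 1, 0, 0, 1, 1, 0, 0, 0],
   [1, 0, 1, 0, 0, 1, 0, 0, 0, 0, 0, 0, 0, 0, 0],
   [0, 1, 0, 1, 1, 0, 0, 0, 0, 0, 0, 0, 0, 0, 0],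
   [0, 0, 0, 0, 0, 0, 0, 0, 0, 0, 0, 0, 0, 0, 0]]

def sP3b_VB : List (ℕ × ℕ) := sP3b_V.map fun e => (evB (2 ^ 96) e.1, evB (2 ^ 96) e.2)

def sP3b_V1 : List (ℕ × ℕ) := sP3b_V.map fun e => (evB 1 e.1, evB 1 e.2)

theorem sP3b_k0 : slotKa (2 ^ 96) 5 2 sP3b_T2 sP3b_R 4 0 [2, 2] sP3b_VB sP3b_V1 [0, 0] = true := by
  decide +kernel

theorem sP3b_k1_0 : slotK (2 ^ 96) 5 2 sP3b_T2 sP3b_R 4 (keyL [0, 1]) (subL [2, 2] [0, 1])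
    (stepK (sP3b_T2.map (gVal (2 ^ 96) 2 [0, 1] 0)) sP3b_VB) (stepK (sP3b_T2.map (gVal 1 2 [0, 1] 0)) sP3b_V1) = true := by
  decide +kernel

theorem sP3b_k1_1 : slotK (2 ^ 96) 5 2 sP3b_T2 sP3b_R 4 (keyL [0, 1]) (subL [2, 2] [0, 1])
    (stepK (sP3b_T2.map (gVal (2 ^ 96) 2 [0, 1] 1)) sP3b_VB) (stepK (sP3b_T2.map (gVal 1 2 [0, 1] 1)) sP3b_V1) = true := by
  decide +kernel

theorem sP3b_k1_2 : slotK (2 ^ 96) 5 2 sP3b_T2 sP3b_R 4 (keyL [0, 1]) (subL [2, 2] [0, 1])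
    (stepK (sP3b_T2.map (gVal (2 ^ 96) 2 [0, 1] 2)) sP3b_VB) (stepK (sP3b_T2.map (gVal 1 2 [0, 1] 2)) sP3b_V1) = true := by
  decide +kernel

theorem sP3b_k1_3 : slotK (2 ^ 96) 5 2 sP3b_T2 sP3b_R 4 (keyL [0, 1]) (subL [2, 2] [0, 1])
    (stepK (sP3b_T2.map (gVal (2 ^ 96) 2 [0, 1] 3)) sP3b_VB) (stepK (sP3b_T2.map (gVal 1 2 [0, 1] 3)) sP3b_V1) = true := by
  decide +kernel

theorem sP3b_k1_4 : slotK (2 ^ 96) 5 2 sP3b_T2 sP3b_R 4 (keyL [0, 1]) (subL [2, 2] [0, 1])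
    (stepK (sP3b_T2.map (gVal (2 ^ 96) 2 [0, 1] 4)) sP3b_VB) (stepK (sP3b_T2.map (gVal 1 2 [0, 1] 4)) sP3b_V1) = true := by
  decide +kernel

theorem sP3b_k1_5 : slotK (2 ^ 96) 5 2 sP3b_T2 sP3b_R 4 (keyL [0, 1]) (subL [2, 2] [0, 1])
    (stepK (sP3b_T2.map (gVal (2 ^ 96) 2 [0, 1] 5)) sP3b_VB) (stepK (sP3b_T2.map (gVal 1 2 [0, 1] 5)) sP3b_V1) = true := by
  decide +kernel

theorem sP3b_k1 : slotKa (2 ^ 96) 5 2 sP3b_T2 sP3b_R 4 0 [2, 2] sP3b_VB sP3b_V1 [0, 1] = true := by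
  refine slotKa_of _ _ _ _ _ _ _ _ _ _ _ ?_
  intro j hj
  rw [List.mem_range] at hj
  interval_cases j
  · exact sP3b_k1_0
  · exact sP3b_k1_1
  · exact sP3b_k1_2
  · exact sP3b_k1_3
  · exact sP3b_k1_4
  · exact sP3b_k1_5

theorem sP3b_k2_0 : slotK (2 ^ 96) 5 2 sP3b_T2 sP3b_R 4 (keyL [0, 2]) (subL [2, 2] [0, 2])
    (stepK (sP3b_T2.map (gVal (2 ^ 96) 2 [0, 2] 0)) sP3b_VB) (stepK (sP3b_T2.map (gVal 1 2 [0, 2] 0)) sP3b_V1) = true := by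
  decide +kernel

theorem sP3b_k2_1 : slotK (2 ^ 96) 5 2 sP3b_T2 sP3b_R 4 (keyL [0, 2]) (subL [2, 2] [0, 2])
    (stepK (sP3b_T2.map (gVal (2 ^ 96) 2 [0, 2] 1)) sP3b_VB) (stepK (sP3b_T2.map (gVal 1 2 [0, 2] 1)) sP3b_V1) = true := by
  decide +kernel

theorem sP3b_k2_2 : slotK (2 ^ 96) 5 2 sP3b_T2 sP3b_R 4 (keyL [0, 2]) (subL [2, 2] [0, 2])
    (stepK (sP3b_T2.map (gVal (2 ^ 96) 2 [0, 2] 2)) sP3b_VB) (stepK (sP3b_T2.map (gVal 1 2 [0, 2] 2)) sP3b_V1) = true := by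
  decide +kernel

theorem sP3b_k2_3 : slotK (2 ^ 96) 5 2 sP3b_T2 sP3b_R 4 (keyL [0, 2]) (subL [2, 2] [0, 2])
    (stepK (sP3b_T2.map (gVal (2 ^ 96) 2 [0, 2] 3)) sP3b_VB) (stepK (sP3b_T2.map (gVal 1 2 [0, 2] 3)) sP3b_V1) = true := by
  decide +kernel

theorem sP3b_k2_4 : slotK (2 ^ 96) 5 2 sP3b_T2 sP3b_R 4 (keyL [0, 2]) (subL [2, 2] [0, 2])
    (stepK (sP3b_T2.map (gVal (2 ^ 96) 2 [0, 2] 4)) sP3b_VB) (stepK (sP3b_T2.map (gVal 1 2 [0, 2] 4)) sP3b_V1) = true := by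
  decide +kernel

theorem sP3b_k2_5 : slotK (2 ^ 96) 5 2 sP3b_T2 sP3b_R 4 (keyL [0, 2]) (subL [2, 2] [0, 2])
    (stepK (sP3b_T2.map (gVal (2 ^ 96) 2 [0, 2] 5)) sP3b_VB) (stepK (sP3b_T2.map (gVal 1 2 [0, 2] 5)) sP3b_V1) = true := by
  decide +kernel

theorem sP3b_k2 : slotKa (2 ^ 96) 5 2 sP3b_T2 sP3b_R 4 0 [2, 2] sP3b_VB sP3b_V1 [0, 2] = true := by
  refine slotKa_of _ _ _ _ _ _ _ _ _ _ _ ?_
  intro j hj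
  rw [List.mem_range] at hj
  interval_cases j
  · exact sP3b_k2_0
  · exact sP3b_k2_1
  · exact sP3b_k2_2
  · exact sP3b_k2_3
  · exact sP3b_k2_4
  · exact sP3b_k2_5

theorem sP3b_k3_0 : slotK (2 ^ 96) 5 2 sP3b_T2 sP3b_R 4 (keyL [1, 0]) (subL [2, 2] [1, 0])
    (stepK (sP3b_T2.map (gVal (2 ^ 96) 2 [1, 0] 0)) sP3b_VB) (stepK (sP3b_T2.map (gVal 1 2 [1, 0] 0)) sP3b_V1) = true := by
  decide +kernel

theorem sP3b_k3_1 : slotK (2 ^ 96) 5 2 sP3b_T2 sP3b_R 4 (keyL [1, 0]) (subL [2, 2] [1, 0])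
    (stepK (sP3b_T2.map (gVal (2 ^ 96) 2 [1, 0] 1)) sP3b_VB) (stepK (sP3b_T2.map (gVal 1 2 [1, 0] 1)) sP3b_V1) = true := by
  decide +kernel

theorem sP3b_k3_2 : slotK (2 ^ 96) 5 2 sP3b_T2 sP3b_R 4 (keyL [1, 0]) (subL [2, 2] [1, 0])
    (stepK (sP3b_T2.map (gVal (2 ^ 96) 2 [1, 0] 2)) sP3b_VB) (stepK (sP3b_T2.map (gVal 1 2 [1, 0] 2)) sP3b_V1) = true := by
  decide +kernel

theorem sP3b_k3_3 : slotK (2 ^ 96) 5 2 sP3b_T2 sP3b_R 4 (keyL [1, 0]) (subL [2, 2] [1, 0])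
    (stepK (sP3b_T2.map (gVal (2 ^ 96) 2 [1, 0] 3)) sP3b_VB) (stepK (sP3b_T2.map (gVal 1 2 [1, 0] 3)) sP3b_V1) = true := by
  decide +kernel

theorem sP3b_k3_4 : slotK (2 ^ 96) 5 2 sP3b_T2 sP3b_R 4 (keyL [1, 0]) (subL [2, 2] [1, 0])
    (stepK (sP3b_T2.map (gVal (2 ^ 96) 2 [1, 0] 4)) sP3b_VB) (stepK (sP3b_T2.map (gVal 1 2 [1, 0] 4)) sP3b_V1) = true := by
  decide +kernel

theorem sP3b_k3_5 : slotK (2 ^ 96) 5 2 sP3b_T2 sP3b_R 4 (keyL [1, 0]) (subL [2, 2] [1, 0])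
    (stepK (sP3b_T2.map (gVal (2 ^ 96) 2 [1, 0] 5)) sP3b_VB) (stepK (sP3b_T2.map (gVal 1 2 [1, 0] 5)) sP3b_V1) = true := by
  decide +kernel

theorem sP3b_k3 : slotKa (2 ^ 96) 5 2 sP3b_T2 sP3b_R 4 0 [2, 2] sP3b_VB sP3b_V1 [1, 0] = true := by
  refine slotKa_of _ _ _ _ _ _ _ _ _ _ _ ?_
  intro j hj
  rw [List.mem_range] at hj
  interval_cases j
  · exact sP3b_k3_0
  · exact sP3b_k3_1
  · exact sP3b_k3_2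
  · exact sP3b_k3_3
  · exact sP3b_k3_4
  · exact sP3b_k3_5

theorem sP3b_k4_0 : slotK (2 ^ 96) 5 2 sP3b_T2 sP3b_R 4 (keyL [1, 1]) (subL [2, 2] [1, 1])
    (stepK (sP3b_T2.map (gVal (2 ^ 96) 2 [1, 1] 0)) sP3b_VB) (stepK (sP3b_T2.map (gVal 1 2 [1, 1] 0)) sP3b_V1) = true := by
  decide +kernel

theorem sP3b_k4_1 : slotK (2 ^ 96) 5 2 sP3b_T2 sP3b_R 4 (keyL [1, 1]) (subL [2, 2] [1, 1])
    (stepK (sP3b_T2.map (gVal (2 ^ 96) 2 [1, 1] 1)) sP3b_VB) (stepK (sP3b_T2.map (gVal 1 2 [1, 1] 1)) sP3b_V1) = true := by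
  decide +kernel

theorem sP3b_k4_2 : slotK (2 ^ 96) 5 2 sP3b_T2 sP3b_R 4 (keyL [1, 1]) (subL [2, 2] [1, 1])
    (stepK (sP3b_T2.map (gVal (2 ^ 96) 2 [1, 1] 2)) sP3b_VB) (stepK (sP3b_T2.map (gVal 1 2 [1, 1] 2)) sP3b_V1) = true := by
  decide +kernel

theorem sP3b_k4_3 : slotK (2 ^ 96) 5 2 sP3b_T2 sP3b_R 4 (keyL [1, 1]) (subL [2, 2] [1, 1])
    (stepK (sP3b_T2.map (gVal (2 ^ 96) 2 [1, 1] 3)) sP3b_VB) (stepK (sP3b_T2.map (gVal 1 2 [1, 1] 3)) sP3b_V1) = true := by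
  decide +kernel

theorem sP3b_k4_4 : slotK (2 ^ 96) 5 2 sP3b_T2 sP3b_R 4 (keyL [1, 1]) (subL [2, 2] [1, 1])
    (stepK (sP3b_T2.map (gVal (2 ^ 96) 2 [1, 1] 4)) sP3b_VB) (stepK (sP3b_T2.map (gVal 1 2 [1, 1] 4)) sP3b_V1) = true := by
  decide +kernel

theorem sP3b_k4_5 : slotK (2 ^ 96) 5 2 sP3b_T2 sP3b_R 4 (keyL [1, 1]) (subL [2, 2] [1, 1])
    (stepK (sP3b_T2.map (gVal (2 ^ 96) 2 [1, 1] 5)) sP3b_VB) (stepK (sP3b_T2.map (gVal 1 2 [1, 1] 5)) sP3b_V1) = true := by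
  decide +kernel

theorem sP3b_k4 : slotKa (2 ^ 96) 5 2 sP3b_T2 sP3b_R 4 0 [2, 2] sP3b_VB sP3b_V1 [1, 1] = true := by
  refine slotKa_of _ _ _ _ _ _ _ _ _ _ _ ?_
  intro j hj
  rw [List.mem_range] at hj
  interval_cases j
  · exact sP3b_k4_0
  · exact sP3b_k4_1
  · exact sP3b_k4_2
  · exact sP3b_k4_3
  · exact sP3b_k4_4
  · exact sP3b_k4_5

theorem sP3b_k5 : slotKa (2 ^ 96) 5 2 sP3b_T2 sP3b_R 4 0 [2, 2] sP3b_VB sP3b_V1 [1, 2] = true := by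
  decide +kernel

theorem sP3b_k6 : slotKa (2 ^ 96) 5 2 sP3b_T2 sP3b_R 4 0 [2, 2] sP3b_VB sP3b_V1 [2, 0] = true := by
  decide +kernel

theorem sP3b_k7 : slotKa (2 ^ 96) 5 2 sP3b_T2 sP3b_R 4 0 [2, 2] sP3b_VB sP3b_V1 [2, 1] = true := by
  decide +kernel

theorem sP3b_k8 : slotKa (2 ^ 96) 5 2 sP3b_T2 sP3b_R 4 0 [2, 2] sP3b_VB sP3b_V1 [2, 2] = true := by
  decide +kernel

theorem sP3b_k : slotK (2 ^ 96) 5 2 sP3b_T2 sP3b_R (4 + 1) 0 [2, 2] sP3b_VB sP3b_V1 = true := by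
  refine slotK_of _ _ _ _ _ _ _ _ _ _ (by decide) ?_
  intro a ha
  have hp : pats [2, 2] = [[0, 0], [0, 1], [0, 2], [1, 0], [1, 1], [1, 2], [2, 0], [2, 1], [2, 2]] := by decide
  rw [hp] at ha
  simp only [List.mem_cons, List.not_mem_nil, or_false] at ha
  rcases ha with rfl | rfl | rfl | rfl | rfl | rfl | rfl | rfl | rfl
  · exact sP3b_k0
  · exact sP3b_k1
  · exact sP3b_k2
  · exact sP3b_k3
  · exact sP3b_k4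
  · exact sP3b_k5
  · exact sP3b_k6
  · exact sP3b_k7
  · exact sP3b_k8

theorem sP3b_side : slSide 5 [(0, 1), (1, 2), (3, 4)] [(0, 1), (1, 2), (0, 2)] [3, 4] [2, 2] sP3b_T sP3b_T2 cert5_0 = true := by
  decide +kernel

theorem sP3b_hV : sP3b_T2.map (slPoly 5 [(0, 1), (1, 2), (3, 4)] [(0, 1), (1, 2), (0, 2)] [3, 4]) = sP3b_V := by
  decide +kernel

theorem sP3b_hR : slRows 2 sP3b_T2 cert5_0 = sP3b_R := by decide +kernel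

theorem i_sP3b : SlotOK 5 [(0, 1), (1, 2), (3, 4)] [(0, 1), (1, 2), (0, 2)] [3, 4] [2, 2] :=
  slot_move 5 _ _ _ _ sP3b_T sP3b_T2 cert5_0 (4 + 1) (2 ^ 96) 2 sP3b_R sP3b_V cert5_0_ok rfl sP3b_side sP3b_hV
    sP3b_hR sP3b_k

end Pool.Agent.H34R2.U
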