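import Pool.Agent.H34R2.U.SLF
import Pool.Agent.H34R2.U.Cert6_0

/-! instance of a move with slots (generated) -/

set_option autoImplicit false
set_option maxRecDepth 100000

namespace Pool.Agent.H34R2.U

def sP4_T : List Ty :=
  [[(3, 4)], [(0, 1), (3, 3)], [(0, 2), (3, 2)], [(0, 3), (3, 1)], [(0, 4), (3, 0)], [(1, 0), (2, 4)], [(1, 1), (2, 3)], [(1, 2), (2, 2)], [(1, 3), (2, 1)], [(1, 4), (2, 0)], [(0, 1), (0, 1), (3, 2)], [(0, 1), (0, 2), (3, 1)], [(0, 1), (0, 3), (3, 0)], [(0, 1), (1, 0), (2, 3)], [(0, 1), (1, 1), (2, 2)], [(0, 1), (1, 2), (2, 1)], [(0, 1), (1, 3), (2, 0)], [(0, 2), (0, 2), (3, 0)], [(0, 2), (1, 0), (2, 2)], [(0, 2), (1, 1), (2, 1)], [(0, 2), (1, 2), (2, 0)], [(0, 3), (1, 0), (2, 1)], [(0, 3), (1, 1), (2, 0)], [(0, 4), (1, 0), (2, 0)], [(0, 1), (0, 1), (0, 1), (3, 1)],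 [(0, 1), (0, 1), (0, 2), (3, 0)], [(0, 1), (0, 1), (1, 0), (2, 2)], [(0, 1), (0, 1), (1, 1), (2, 1)], [(0, 1), (0, 1), (1, 2), (2, 0)], [(0, 1), (0, 2), (1, 0), (2, 1)], [(0, 1), (0, 2), (1, 1), (2, 0)], [(0, 1), (0, 3), (1, 0), (2, 0)], [(0, 2), (0, 2), (1, 0), (2, 0)], [(0, 1), (0, 1), (0, 1), (0, 1), (3, 0)], [(0, 1), (0, 1), (0, 1), (1, 0), (2, 1)], [(0, 1), (0, 1), (0, 1), (1, 1), (2, 0)], [(0, 1), (0, 1), (0, 2), (1, 0), (2, 0)], [(0, 1), (0, 1), (0, 1), (0, 1), (1, 0), (2, 0)]]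

def sP4_T2 : List Ty :=
  [[(0, 1), (3, 3)], [(0, 2), (3, 2)], [(0, 3), (3, 1)], [(1, 0), (2, 4)], [(1, 1), (2, 3)], [(1, 2), (2, 2)], [(1, 3), (2, 1)], [(1, 4), (2, 0)], [(0, 1), (0, 1), (3, 2)], [(0, 1), (0, 2), (3, 1)], [(0, 1), (0, 3), (3, 0)], [(0, 1), (1, 0), (2, 3)], [(0, 1), (1, 1), (2, 2)], [(0, 1), (1, 2), (2, 1)], [(0, 1), (1, 3), (2, 0)], [(0, 2), (0, 2), (3, 0)], [(0, 2), (1, 0), (2, 2)], [(0, 2), (1, 1), (2, 1)], [(0, 2), (1, 2), (2, 0)], [(0, 3), (1, 0), (2, 1)], [(0, 3), (1, 1), (2, 0)], [(0, 4), (1, 0), (2, 0)], [(0, 1), (0, 1), (0, 1), (3, 1)], [(0, 1), (0, 1), (0, 2), (3, 0)], [(0, 1), (0, 1), (1, 0), (2, 2)], [(0, 1), (0, 1), (1, 2), (2, 0)], [(0, 1), (0, 2), (1, 0), (2, 1)], [(0, 1), (0, 2), (1, 1), (2, 0)], [(0, 1), (0, 3), (1, 0), (2, 0)], [(0, 2), (0, 2), (1, 0),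 (2, 0)], [(0, 1), (0, 1), (0, 1), (0, 1), (3, 0)], [(0, 1), (0, 1), (0, 2), (1, 0), (2, 0)]]

def sP4_V : List (List ℕ × List ℕ) :=
  [([], [0, 2, 22, 110, 330, 660, 924, 924, 660, 330, 110, 22, 2]),
   ([], [0, 4, 36, 146, 352, 560, 616, 476, 256, 92, 20, 2]),
   ([], [0, 2, 14, 42, 70, 70, 42, 14, 2]),
   ([0, 1, 10, 45, 120, 210, 252, 210, 120, 45, 10, 1], []),
   ([0, 2, 18, 72, 168, 252, 252, 168, 72, 18, 2], []),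
   ([0, 2, 16, 56, 112, 140, 112, 56, 16, 2], []),
   ([0, 2, 18, 72, 168, 252, 252, 168, 72, 18, 2], []),
   ([0, 1, 10, 45, 120, 210, 252, 210, 120, 45, 10, 1], []),
   ([0, 10, 84, 312, 672, 924, 840, 504, 192, 42, 4], []),
   ([0, 20, 128, 348, 520, 460, 240, 68, 8], []),
   ([0, 4, 20, 40, 40, 20, 4], []),
   ([], [0, 4, 32, 112, 224, 280, 224, 112, 32, 4]),
   ([], [0, 4, 28, 84, 140, 140, 84, 28, 4]),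
   ([], [0, 4, 28, 84, 140, 140, 84, 28, 4]),
   ([], [0, 4, 32, 112, 224, 280, 224, 112, 32, 4]),
   ([0, 4, 20, 42, 48, 32, 12, 2], []),
   ([], [0, 4, 24, 60, 80, 60, 24, 4]),
   ([], [0, 4, 24, 60, 80, 60, 24, 4]),
   ([], [0, 4, 24, 60, 80, 60, 24, 4]),
   ([], [0, 4, 24, 60, 80, 60, 24, 4]),
   ([], [0, 4, 24, 60, 80, 60, 24, 4]),
   ([], [0, 2, 12, 30, 40, 30, 12, 2]),
   ([], [0, 24, 144, 360, 480, 360, 144, 24]),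
   ([], [0, 30, 132, 228, 192, 78, 12]),
   ([0, 6, 36, 90, 120, 90, 36, 6], []),
   ([0, 6, 36, 90, 120, 90, 36, 6], []),
   ([0, 12, 60, 120, 120, 60, 12], []),
   ([0, 12, 60, 120, 120, 60, 12], []),
   ([0, 12, 60, 120, 120, 60, 12], []),
   ([0, 6, 24, 36, 24, 6], []),
   ([0, 24, 96, 144, 96, 24], []),
   ([], [0, 24, 96, 144, 96, 24])]

def sP4_R : List (List ℕ) :=
  [[1, 1, 1, 1, 1, 1, 1, 1, 1, 1, 1, 1, 1, 1, 1, 1, 1, 1, 1, 1, 1, 1, 1, 1, 1, 1, 1, 1, 1, 1, 1, 1],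
   [10, 7, 6, 10, 7, 6, 7, 10, 6, 4, 4, 6, 4, 4, 6, 3, 4, 3, 4, 4, 4, 6, 3, 2, 3, 3, 2, 2, 3, 2, 1, 1],
   [10, 4, 2, 10, 4, 2, 4, 10, 4, 1, 1, 4, 1, 1, 4, 0, 1, 0, 1, 1, 1, 4, 1, 0, 1, 1, 0, 0, 1, 0, 0, 0],
   [15, 9, 9, 15, 9, 9, 9, 15, 3, 3, 3, 3, 3, 3, 3, 3, 3, 3, 3, 3, 3, 3, 0, 1, 0, 0, 1, 1, 0, 1, 0, 0],
   [5, 1, 0, 5, 1, 0, 1, 5, 1, 0, 0, 1, 0, 0, 1, 0, 0, 0, 0, 0, 0, 1, 0, 0, 0, 0, 0, 0, 0, 0, 0, 0],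
   [10, 4, 6, 10, 4, 6, 4, 10, 0, 1, 1, 0, 1, 1, 0, 0, 1, 0, 1, 1, 1, 0, 0, 0, 0, 0, 0, 0, 0, 0, 0, 0],
   [0, 3, 0, 0, 3, 0, 3, 0, 0, 0, 0, 0, 0, 0, 0, 1, 0, 1, 0, 0, 0, 0, 0, 0, 0, 0, 0, 0, 0, 0, 0, 0],
   [1, 0, 0, 1, 0, 0, 0, 1, 0, 0, 0, 0, 0, 0, 0, 0, 0, 0, 0, 0, 0, 0, 0, 0, 0, 0, 0, 0, 0, 0, 0, 0],
   [0, 1, 0, 0, 1, 0, 1, 0, 0, 0, 0, 0, 0, 0, 0, 0, 0, 0, 0, 0, 0, 0, 0, 0, 0, 0, 0, 0, 0, 0, 0, 0],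
   [0, 0, 1, 0, 0, 1, 0, 0, 0, 0, 0, 0, 0, 0, 0, 0, 0, 0, 0, 0, 0, 0, 0, 0, 0, 0, 0, 0, 0, 0, 0, 0],
   [0, 0, 0, 0, 0, 0, 0, 0, 0, 0, 0, 0, 0, 0, 0, 0, 0, 0, 0, 0, 0, 0, 0, 0, 0, 0, 0, 0, 0, 0, 0, 0]]

def sP4_VB : List (ℕ × ℕ) := sP4_V.map fun e => (evB (2 ^ 96) e.1, evB (2 ^ 96) e.2)

def sP4_V1 : List (ℕ × ℕ) := sP4_V.map fun e => (evB 1 e.1, evB 1 e.2)

theorem sP4_k0 : slotKa (2 ^ 96) 6 2 sP4_T2 sP4_R 3 0 [2, 1] sP4_VB sP4_V1 [0, 0] = true := by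
  decide +kernel

theorem sP4_k1_0 : slotK (2 ^ 96) 6 2 sP4_T2 sP4_R 3 (keyL [0, 1]) (subL [2, 1] [0, 1])
    (stepK (sP4_T2.map (gVal (2 ^ 96) 2 [0, 1] 0)) sP4_VB) (stepK (sP4_T2.map (gVal 1 2 [0, 1] 0)) sP4_V1) = true := by
  decide +kernel

theorem sP4_k1_1 : slotK (2 ^ 96) 6 2 sP4_T2 sP4_R 3 (keyL [0, 1]) (subL [2, 1] [0, 1])
    (stepK (sP4_T2.map (gVal (2 ^ 96) 2 [0, 1] 1)) sP4_VB) (stepK (sP4_T2.map (gVal 1 2 [0, 1] 1)) sP4_V1) = true := by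
  decide +kernel

theorem sP4_k1_2 : slotK (2 ^ 96) 6 2 sP4_T2 sP4_R 3 (keyL [0, 1]) (subL [2, 1] [0, 1])
    (stepK (sP4_T2.map (gVal (2 ^ 96) 2 [0, 1] 2)) sP4_VB) (stepK (sP4_T2.map (gVal 1 2 [0, 1] 2)) sP4_V1) = true := by
  decide +kernel

theorem sP4_k1_3 : slotK (2 ^ 96) 6 2 sP4_T2 sP4_R 3 (keyL [0, 1]) (subL [2, 1] [0, 1])
    (stepK (sP4_T2.map (gVal (2 ^ 96) 2 [0, 1] 3)) sP4_VB) (stepK (sP4_T2.map (gVal 1 2 [0, 1] 3)) sP4_V1) = true := by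
  decide +kernel

theorem sP4_k1_4 : slotK (2 ^ 96) 6 2 sP4_T2 sP4_R 3 (keyL [0, 1]) (subL [2, 1] [0, 1])
    (stepK (sP4_T2.map (gVal (2 ^ 96) 2 [0, 1] 4)) sP4_VB) (stepK (sP4_T2.map (gVal 1 2 [0, 1] 4)) sP4_V1) = true := by
  decide +kernel

theorem sP4_k1_5 : slotK (2 ^ 96) 6 2 sP4_T2 sP4_R 3 (keyL [0, 1]) (subL [2, 1] [0, 1])
    (stepK (sP4_T2.map (gVal (2 ^ 96) 2 [0, 1] 5)) sP4_VB) (stepK (sP4_T2.map (gVal 1 2 [0, 1] 5)) sP4_V1) = true := by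
  decide +kernel

theorem sP4_k1_6 : slotK (2 ^ 96) 6 2 sP4_T2 sP4_R 3 (keyL [0, 1]) (subL [2, 1] [0, 1])
    (stepK (sP4_T2.map (gVal (2 ^ 96) 2 [0, 1] 6)) sP4_VB) (stepK (sP4_T2.map (gVal 1 2 [0, 1] 6)) sP4_V1) = true := by
  decide +kernel

theorem sP4_k1 : slotKa (2 ^ 96) 6 2 sP4_T2 sP4_R 3 0 [2, 1] sP4_VB sP4_V1 [0, 1] = true := by
  refine slotKa_of _ _ _ _ _ _ _ _ _ _ _ ?_
  intro j hj
  rw [List.mem_range] at hj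
  interval_cases j
  · exact sP4_k1_0
  · exact sP4_k1_1
  · exact sP4_k1_2
  · exact sP4_k1_3
  · exact sP4_k1_4
  · exact sP4_k1_5
  · exact sP4_k1_6

theorem sP4_k2_0 : slotK (2 ^ 96) 6 2 sP4_T2 sP4_R 3 (keyL [1, 0]) (subL [2, 1] [1, 0])
    (stepK (sP4_T2.map (gVal (2 ^ 96) 2 [1, 0] 0)) sP4_VB) (stepK (sP4_T2.map (gVal 1 2 [1, 0] 0)) sP4_V1) = true := by
  decide +kernel

theorem sP4_k2_1 : slotK (2 ^ 96) 6 2 sP4_T2 sP4_R 3 (keyL [1, 0]) (subL [2, 1] [1, 0])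
    (stepK (sP4_T2.map (gVal (2 ^ 96) 2 [1, 0] 1)) sP4_VB) (stepK (sP4_T2.map (gVal 1 2 [1, 0] 1)) sP4_V1) = true := by
  decide +kernel

theorem sP4_k2_2 : slotK (2 ^ 96) 6 2 sP4_T2 sP4_R 3 (keyL [1, 0]) (subL [2, 1] [1, 0])
    (stepK (sP4_T2.map (gVal (2 ^ 96) 2 [1, 0] 2)) sP4_VB) (stepK (sP4_T2.map (gVal 1 2 [1, 0] 2)) sP4_V1) = true := by
  decide +kernel

theorem sP4_k2_3 : slotK (2 ^ 96) 6 2 sP4_T2 sP4_R 3 (keyL [1, 0]) (subL [2, 1] [1, 0])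
    (stepK (sP4_T2.map (gVal (2 ^ 96) 2 [1, 0] 3)) sP4_VB) (stepK (sP4_T2.map (gVal 1 2 [1, 0] 3)) sP4_V1) = true := by
  decide +kernel

theorem sP4_k2_4 : slotK (2 ^ 96) 6 2 sP4_T2 sP4_R 3 (keyL [1, 0]) (subL [2, 1] [1, 0])
    (stepK (sP4_T2.map (gVal (2 ^ 96) 2 [1, 0] 4)) sP4_VB) (stepK (sP4_T2.map (gVal 1 2 [1, 0] 4)) sP4_V1) = true := by
  decide +kernel

theorem sP4_k2_5 : slotK (2 ^ 96) 6 2 sP4_T2 sP4_R 3 (keyL [1, 0]) (subL [2, 1] [1, 0])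
    (stepK (sP4_T2.map (gVal (2 ^ 96) 2 [1, 0] 5)) sP4_VB) (stepK (sP4_T2.map (gVal 1 2 [1, 0] 5)) sP4_V1) = true := by
  decide +kernel

theorem sP4_k2_6 : slotK (2 ^ 96) 6 2 sP4_T2 sP4_R 3 (keyL [1, 0]) (subL [2, 1] [1, 0])
    (stepK (sP4_T2.map (gVal (2 ^ 96) 2 [1, 0] 6)) sP4_VB) (stepK (sP4_T2.map (gVal 1 2 [1, 0] 6)) sP4_V1) = true := by
  decide +kernel

theorem sP4_k2 : slotKa (2 ^ 96) 6 2 sP4_T2 sP4_R 3 0 [2, 1] sP4_VB sP4_V1 [1, 0] = true := by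
  refine slotKa_of _ _ _ _ _ _ _ _ _ _ _ ?_
  intro j hj
  rw [List.mem_range] at hj
  interval_cases j
  · exact sP4_k2_0
  · exact sP4_k2_1
  · exact sP4_k2_2
  · exact sP4_k2_3
  · exact sP4_k2_4
  · exact sP4_k2_5
  · exact sP4_k2_6

theorem sP4_k3_0 : slotK (2 ^ 96) 6 2 sP4_T2 sP4_R 3 (keyL [1, 1]) (subL [2, 1] [1, 1])
    (stepK (sP4_T2.map (gVal (2 ^ 96) 2 [1, 1] 0)) sP4_VB) (stepK (sP4_T2.map (gVal 1 2 [1, 1] 0)) sP4_V1) = true := by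
  decide +kernel

theorem sP4_k3_1 : slotK (2 ^ 96) 6 2 sP4_T2 sP4_R 3 (keyL [1, 1]) (subL [2, 1] [1, 1])
    (stepK (sP4_T2.map (gVal (2 ^ 96) 2 [1, 1] 1)) sP4_VB) (stepK (sP4_T2.map (gVal 1 2 [1, 1] 1)) sP4_V1) = true := by
  decide +kernel

theorem sP4_k3_2 : slotK (2 ^ 96) 6 2 sP4_T2 sP4_R 3 (keyL [1, 1]) (subL [2, 1] [1, 1])
    (stepK (sP4_T2.map (gVal (2 ^ 96) 2 [1, 1] 2)) sP4_VB) (stepK (sP4_T2.map (gVal 1 2 [1, 1] 2)) sP4_V1) = true := by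
  decide +kernel

theorem sP4_k3_3 : slotK (2 ^ 96) 6 2 sP4_T2 sP4_R 3 (keyL [1, 1]) (subL [2, 1] [1, 1])
    (stepK (sP4_T2.map (gVal (2 ^ 96) 2 [1, 1] 3)) sP4_VB) (stepK (sP4_T2.map (gVal 1 2 [1, 1] 3)) sP4_V1) = true := by
  decide +kernel

theorem sP4_k3_4 : slotK (2 ^ 96) 6 2 sP4_T2 sP4_R 3 (keyL [1, 1]) (subL [2, 1] [1, 1])
    (stepK (sP4_T2.map (gVal (2 ^ 96) 2 [1, 1] 4)) sP4_VB) (stepK (sP4_T2.map (gVal 1 2 [1, 1] 4)) sP4_V1) = true := by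
  decide +kernel

theorem sP4_k3_5 : slotK (2 ^ 96) 6 2 sP4_T2 sP4_R 3 (keyL [1, 1]) (subL [2, 1] [1, 1])
    (stepK (sP4_T2.map (gVal (2 ^ 96) 2 [1, 1] 5)) sP4_VB) (stepK (sP4_T2.map (gVal 1 2 [1, 1] 5)) sP4_V1) = true := by
  decide +kernel

theorem sP4_k3_6 : slotK (2 ^ 96) 6 2 sP4_T2 sP4_R 3 (keyL [1, 1]) (subL [2, 1] [1, 1])
    (stepK (sP4_T2.map (gVal (2 ^ 96) 2 [1, 1] 6)) sP4_VB) (stepK (sP4_T2.map (gVal 1 2 [1, 1] 6)) sP4_V1) = true := by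
  decide +kernel

theorem sP4_k3 : slotKa (2 ^ 96) 6 2 sP4_T2 sP4_R 3 0 [2, 1] sP4_VB sP4_V1 [1, 1] = true := by
  refine slotKa_of _ _ _ _ _ _ _ _ _ _ _ ?_
  intro j hj
  rw [List.mem_range] at hj
  interval_cases j
  · exact sP4_k3_0
  · exact sP4_k3_1
  · exact sP4_k3_2
  · exact sP4_k3_3
  · exact sP4_k3_4
  · exact sP4_k3_5
  · exact sP4_k3_6

theorem sP4_k4 : slotKa (2 ^ 96) 6 2 sP4_T2 sP4_R 3 0 [2, 1] sP4_VB sP4_V1 [2, 0] = true := by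
  decide +kernel

theorem sP4_k5 : slotKa (2 ^ 96) 6 2 sP4_T2 sP4_R 3 0 [2, 1] sP4_VB sP4_V1 [2, 1] = true := by
  decide +kernel

theorem sP4_k : slotK (2 ^ 96) 6 2 sP4_T2 sP4_R (3 + 1) 0 [2, 1] sP4_VB sP4_V1 = true := by
  refine slotK_of _ _ _ _ _ _ _ _ _ _ (by decide) ?_
  intro a ha
  have hp : pats [2, 1] = [[0, 0], [0, 1], [1, 0], [1, 1], [2, 0], [2, 1]] := by decide
  rw [hp] at ha
  simp only [List.mem_cons, List.not_mem_nil, or_false] at ha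
  rcases ha with rfl | rfl | rfl | rfl | rfl | rfl
  · exact sP4_k0
  · exact sP4_k1
  · exact sP4_k2
  · exact sP4_k3
  · exact sP4_k4
  · exact sP4_k5

theorem sP4_side : slSide 6 [(0, 1), (1, 2), (2, 3), (4, 5)] [(0, 1), (1, 2), (2, 3), (0, 3)] [4, 5] [2, 1] sP4_T sP4_T2 cert6_0 = true := by
  decide +kernel

theorem sP4_hV : sP4_T2.map (slPoly 6 [(0, 1), (1, 2), (2, 3), (4, 5)] [(0, 1), (1, 2), (2, 3), (0, 3)] [4, 5]) = sP4_V := by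
  decide +kernel

theorem sP4_hR : slRows 2 sP4_T2 cert6_0 = sP4_R := by decide +kernel

theorem i_sP4 : SlotOK 6 [(0, 1), (1, 2), (2, 3), (4, 5)] [(0, 1), (1, 2), (2, 3), (0, 3)] [4, 5] [2, 1] :=
  slot_move 6 _ _ _ _ sP4_T sP4_T2 cert6_0 (3 + 1) (2 ^ 96) 2 sP4_R sP4_V cert6_0_ok rfl sP4_side sP4_hV
    sP4_hR sP4_k

end Pool.Agent.H34R2.U
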