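import Pool.Agent.H34R2.U.SLF
import Pool.Agent.H34R2.U.Cert5_0

/-! instance of a move with slots (generated) -/

set_option autoImplicit false
set_option maxRecDepth 100000

namespace Pool.Agent.H34R2.U

def sTail_T : List Ty :=
  [[(1, 4)], [(0, 1), (1, 3)], [(0, 2), (1, 2)], [(0, 3), (1, 1)], [(0, 4), (1, 0)], [(0, 1), (0, 1), (1, 2)], [(0, 1), (0, 2), (1, 1)], [(0, 1), (0, 3), (1, 0)], [(0, 2), (0, 2), (1, 0)], [(0, 1), (0, 1), (0, 1), (1, 1)], [(0, 1), (0, 1), (0, 2), (1, 0)], [(0, 1), (0, 1), (0, 1), (0, 1), (1, 0)]]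

def sTail_T2 : List Ty :=
  [[(0, 1), (1, 3)], [(0, 2), (1, 2)], [(0, 3), (1, 1)], [(0, 4), (1, 0)], [(0, 1), (0, 1), (1, 2)], [(0, 1), (0, 2), (1, 1)], [(0, 1), (0, 3), (1, 0)], [(0, 2), (0, 2), (1, 0)], [(0, 1), (0, 1), (0, 1), (1, 1)], [(0, 1), (0, 1), (0, 2), (1, 0)]]

def sTail_V : List (List ℕ × List ℕ) :=
  [([], [0, 1, 7, 21, 35, 35, 21, 7, 1]),
   ([], [0, 1, 6, 16, 25, 25, 16, 6, 1]),
   ([0, 1, 7, 20, 30, 25, 11, 2], []),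
   ([0, 1, 6, 15, 20, 15, 6, 1], []),
   ([0, 4, 22, 50, 60, 40, 14, 2], []),
   ([0, 2, 6, 4], [0, 0, 0, 0, 4, 6, 2]),
   ([], [0, 4, 20, 40, 40, 20, 4]),
   ([], [0, 2, 8, 12, 8, 2]),
   ([], [0, 6, 24, 36, 24, 6]),
   ([0, 6, 24, 36, 24, 6], [])]

def sTail_R : List (List ℕ) :=
  [[1, 1, 1, 1, 1, 1, 1, 1, 1, 1],
   [6, 4, 4, 6, 3, 2, 3, 2, 1, 1],
   [4, 1, 1, 4, 1, 0, 1, 0, 0, 0],
   [3, 3, 3, 3, 0, 1, 0, 1, 0, 0],
   [1, 0, 0, 1, 0, 0, 0, 0, 0, 0],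
   [0, 1, 1, 0, 0, 0, 0, 0, 0, 0],
   [0, 0, 0, 0, 0, 0, 0, 0, 0, 0]]

def sTail_VB : List (ℕ × ℕ) := sTail_V.map fun e => (evB (2 ^ 96) e.1, evB (2 ^ 96) e.2)

def sTail_V1 : List (ℕ × ℕ) := sTail_V.map fun e => (evB 1 e.1, evB 1 e.2)

theorem sTail_k0 : slotKa (2 ^ 96) 5 1 sTail_T2 sTail_R 2 0 [2] sTail_VB sTail_V1 [0] = true := by
  decide +kernel

theorem sTail_k1 : slotKa (2 ^ 96) 5 1 sTail_T2 sTail_R 2 0 [2] sTail_VB sTail_V1 [1] = true := by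
  decide +kernel

theorem sTail_k2 : slotKa (2 ^ 96) 5 1 sTail_T2 sTail_R 2 0 [2] sTail_VB sTail_V1 [2] = true := by
  decide +kernel

theorem sTail_k : slotK (2 ^ 96) 5 1 sTail_T2 sTail_R (2 + 1) 0 [2] sTail_VB sTail_V1 = true := by
  refine slotK_of _ _ _ _ _ _ _ _ _ _ (by decide) ?_
  intro a ha
  have hp : pats [2] = [[0], [1], [2]] := by decide
  rw [hp] at ha
  simp only [List.mem_cons, List.not_mem_nil, or_false] at ha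
  rcases ha with rfl | rfl | rfl
  · exact sTail_k0
  · exact sTail_k1
  · exact sTail_k2

theorem sTail_side : slSide 5 [(0, 1), (1, 2), (2, 3), (3, 4)] [(0, 1), (1, 2), (2, 3), (0, 3)] [4] [2] sTail_T sTail_T2 cert5_0 = true := by
  decide +kernel

theorem sTail_hV : sTail_T2.map (slPoly 5 [(0, 1), (1, 2), (2, 3), (3, 4)] [(0, 1), (1, 2), (2, 3), (0, 3)] [4]) = sTail_V := by
  decide +kernel

theorem sTail_hR : slRows 1 sTail_T2 cert5_0 = sTail_R := by decide +kernel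

theorem i_sTail : SlotOK 5 [(0, 1), (1, 2), (2, 3), (3, 4)] [(0, 1), (1, 2), (2, 3), (0, 3)] [4] [2] :=
  slot_move 5 _ _ _ _ sTail_T sTail_T2 cert5_0 (2 + 1) (2 ^ 96) 1 sTail_R sTail_V cert5_0_ok rfl sTail_side sTail_hV
    sTail_hR sTail_k

end Pool.Agent.H34R2.U
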