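import Pool.Agent.H34R2.U.G22
import Pool.Agent.H34R2.U.U3
import Pool.Agent.H34R2.U.MS1
import Pool.Agent.H34R2.U.MS2
import Pool.Agent.H34R2.U.MS3
import Pool.Agent.H34R2.U.MS4
import Pool.Agent.H34R2.U.MJ1
import Pool.Agent.H34R2.U.MJ2
import Pool.Agent.H34R2.U.MJ3

/-! all moves with slots, all strict moves -/

set_option autoImplicit false

namespace Pool.Agent.H34R2.U

theorem slotMoves : SlotMoves where
  p3a := i_sP3a
  p3b := i_sP3b
  p4 := i_sP4
  tail := i_sTail

theorem strictMoves : StrictMoves where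
  c6 := st_C6
  c7 := st_C7
  l7 := st_L7
  cc44 := st_C4C4
  cc45 := st_C4C5
  cc55 := st_C5C5

end Pool.Agent.H34R2.U
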