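import Pool.Agent.H34R2.U.Fin2
import Pool.Agent.H34R2.U.MU
import Pool.Agent.H34R2.U.Fin2b

/-! the full answer for `n` and `n - 1` missing edges -/

set_option autoImplicit false

namespace Pool.Agent.H34R2.U

open Finset
open Classical
open Pool.Agent.Helper428.UMR

/-- `n` missing edges -/
theorem answer_m1 (n m : ℕ) (hn : 3 ≤ n) (hm : 2 * m + 3 * n = n ^ 2) :
    (∃ G : SimpleGraph (Fin n), G.edgeFinset.card = m ∧ IsUMR G) ∧
    (∀ G H : SimpleGraph (Fin n), G.edgeFinset.card = m → H = Gᶜ →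
      ((∀ v, H.degree v = 2) ∧
        (univ.filter fun v => ¬ ∃ a b, H.Adj v a ∧ H.Adj v b ∧ H.Adj a b).card ≤ 5) →
      IsUMR G) ∧
    (5 ≤ n → ∀ G H : SimpleGraph (Fin n), G.edgeFinset.card = m → H = Gᶜ → IsUMR G →
      ((∀ v, H.degree v = 2) ∧
        (univ.filter fun v => ¬ ∃ a b, H.Adj v a ∧ H.Adj v b ∧ H.Adj a b).card ≤ 5)) := by
  have key : ∀ G H : SimpleGraph (Fin n), G.edgeFinset.card = m → H = Gᶜ → TC H → IsUMR G := by
    intro G T hG hT hTC
    refine umr_of_compl (by omega) G T hT ?_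
    intro H hH q hq0 hq1
    exact TC_max allMoves slotMoves hn T H hTC
      (hH.trans (fin2_sum1 hm G T hT hG)) q hq0 hq1
  refine ⟨?_, ?_, ?_⟩
  · obtain ⟨T, hT⟩ := TC_exists n hn
    have hs : ∑ v, dg T v = 2 * n := by
      rw [Finset.sum_congr rfl (fun v _ => hT.1 v)]
      simp [mul_comm]
    obtain ⟨G, hG⟩ : ∃ G : SimpleGraph (Fin n), G = Tᶜ := ⟨_, rfl⟩
    have hc := fin2_card (m := m) T G hG (2 * n) hs (by nlinarith)
    exact ⟨G, hc, key G T hc (by rw [hG, compl_compl]) hT⟩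
  · rintro G H hG hH ⟨h1, h2⟩
    exact key G H hG hH ((TC_iff H).2 ⟨fun v => by rw [dg_eq]; exact h1 v, h2⟩)
  · intro hn5 G H hG hH hU
    have hs := fin2_sum1 hm G H hH hG
    have h2 := umr_two_regular hn5 G H hH hU hs
    have hTC : TC H := by
      by_contra hcon
      obtain ⟨H', h3, h4⟩ := strict_improve strictMoves H h2 hcon (1 / 2) (by norm_num)
        (by norm_num)
      obtain ⟨G', hG'⟩ : ∃ G' : SimpleGraph (Fin n), G' = H'ᶜ := ⟨_, rfl⟩
      have hc := fin2_card (m := m) H' G' hG' (2 * n) (h3.trans hs) (by nlinarith)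
      have h5 := hU G' (by rw [hc, hG]) (1 / 2) (by norm_num) (by norm_num)
      have hn0 : 0 < n := by omega
      have hadj : ∀ (K L : SimpleGraph (Fin n)), K = Lᶜ → ∀ i j, i ≠ j →
          (K.Adj i j ↔ ¬ L.Adj i j) := by
        intro K L hKL i j hij
        rw [hKL, SimpleGraph.compl_adj]
        tauto
      rw [rel_eq_RH hn0 G' H' (fun i j hij => hadj H' G' (by rw [hG', compl_compl]) i j hij)
        (1 / 2), rel_eq_RH hn0 G H (fun i j hij => hadj H G hH i j hij) (1 / 2)] at h5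
      norm_num at h5 h4
      linarith
    obtain ⟨h6, h7⟩ := (TC_iff H).1 hTC
    exact ⟨fun v => by rw [← dg_eq]; exact h6 v, h7⟩

/-- `n - 1` missing edges -/
theorem answer_m2 (n m : ℕ) (hn : 1 ≤ n) (hm : 2 * m + 3 * n = n ^ 2 + 2) :
    ((∃ G : SimpleGraph (Fin n), G.edgeFinset.card = m ∧ IsUMR G) ↔
      (n % 3 = 2 ∨ n = 1 ∨ n = 3 ∨ n = 4 ∨ n = 6)) ∧
    (n % 3 = 2 → ∀ G H : SimpleGraph (Fin n), G.edgeFinset.card = m → H = Gᶜ →
      ((∀ v, H.degree v = 1 ∨ H.degree v = 2) ∧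
        ∀ u v w, H.Adj u v → H.Adj v w → u ≠ w → H.Adj u w) → IsUMR G) ∧
    (7 ≤ n → ∀ G H : SimpleGraph (Fin n), G.edgeFinset.card = m → H = Gᶜ → IsUMR G →
      n % 3 = 2 ∧ ((∀ v, H.degree v = 1 ∨ H.degree v = 2) ∧
        ∀ u v w, H.Adj u v → H.Adj v w → u ≠ w → H.Adj u w)) ∧
    (n ≤ 3 → ∀ G : SimpleGraph (Fin n), G.edgeFinset.card = m → IsUMR G) ∧
    (n = 4 → ∀ G : SimpleGraph (Fin n), G.edgeFinset.card = m → G.Connected → IsUMR G) ∧
    (n = 6 → ∀ G H : SimpleGraph (Fin n), G.edgeFinset.card = m → H = Gᶜ →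
      (∃ a b c x y z, [a, b, c, x, y, z].Nodup ∧ H.Adj a b ∧ H.Adj b c ∧ H.Adj x y ∧
        H.Adj y z ∧ H.Adj x z) → IsUMR G) := by
  have hstr : 7 ≤ n → ∀ G H : SimpleGraph (Fin n), G.edgeFinset.card = m → H = Gᶜ → IsUMR G →
      n % 3 = 2 ∧ ((∀ v, H.degree v = 1 ∨ H.degree v = 2) ∧
        ∀ u v w, H.Adj u v → H.Adj v w → u ≠ w → H.Adj u w) := by
    intro h7 G H hG hH hU
    have hc := compl_compl_adj G H hH
    have h1 := edges_add hc
    rw [hG] at h1
    have hedge : 2 * H.edgeFinset.card = n + (n - 2) := by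
      have : 2 * H.edgeFinset.card + 2 = n + n := by nlinarith
      omega
    obtain ⟨h5, h6, h7⟩ := structure_full hc hU (n - 2) (by omega) hedge (by omega) (by omega)
    have h8 := three_dvd h7
    rw [h6] at h8
    exact ⟨by omega, h5, h7⟩
  have hTE : n % 3 = 2 → ∀ G H : SimpleGraph (Fin n), G.edgeFinset.card = m → H = Gᶜ →
      ((∀ v, H.degree v = 1 ∨ H.degree v = 2) ∧
        ∀ u v w, H.Adj u v → H.Adj v w → u ≠ w → H.Adj u w) → IsUMR G := by
    rintro h3 G T hG hT ⟨h5, h6⟩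
    by_cases h2 : n = 2
    · subst h2
      apply few_edges
      rw [hG]
      omega
    · have hn5 : 5 ≤ n := by omega
      have hs := fin2_sum2 (by omega) hm G T hT hG
      refine umr_of_compl (by omega) G T hT ?_
      intro H hH q hq0 hq1
      have hTET : TE T := ⟨fun v => by rw [dg_eq]; exact h5 v, h6⟩
      exact TE_max' allMoves slotMoves (by omega) h3 T H hTET hs (hH.trans hs) q hq0 hq1
  have hsmall : n ≤ 3 → ∀ G : SimpleGraph (Fin n), G.edgeFinset.card = m → IsUMR G := by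
    intro h3 G hG
    by_cases h1 : n = 1
    · subst h1
      intro H _ p _ _
      have : H = G := by
        ext i j
        have : i = j := Subsingleton.elim _ _
        subst this
        simp
      rw [this]
    · apply few_edges
      rw [hG]
      have : n = 2 ∨ n = 3 := by omega
      rcases this with rfl | rfl <;> omega
  have h4 : n = 4 → ∀ G : SimpleGraph (Fin n), G.edgeFinset.card = m → G.Connected →
      IsUMR G := by
    rintro rfl G hG hc
    exact tree_umr G (by omega) hc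
  have h6 : n = 6 → ∀ G H : SimpleGraph (Fin n), G.edgeFinset.card = m → H = Gᶜ →
      (∃ a b c x y z, [a, b, c, x, y, z].Nodup ∧ H.Adj a b ∧ H.Adj b c ∧ H.Adj x y ∧
        H.Adj y z ∧ H.Adj x z) → IsUMR G := by
    rintro rfl G T hG hT ⟨a, b, c, x, y, z, hnd, h1, h2, h3, h4, h5⟩
    have hs : ∑ v, dg T v = 10 := fin2_sum2 (by omega) hm G T hT hG
    have hPC : PC T := six_PC T hs a b c x y z hnd h1 h2 h3 h4 h5
    refine umr_of_compl (by omega) G T hT ?_
    intro H hH q hq0 hq1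
    exact PC_max allMoves slotMoves T H hPC hs (hH.trans hs) q hq0 hq1
  refine ⟨⟨?_, ?_⟩, hTE, hstr, hsmall, h4, h6⟩
  · rintro ⟨G, hG, hU⟩
    by_cases h7 : 7 ≤ n
    · exact Or.inl (hstr h7 G _ hG rfl hU).1
    · omega
  · intro h
    rcases h with h | rfl | rfl | rfl | rfl
    · by_cases h2 : n = 2
      · subst h2
        have hm0 : m = 0 := by omega
        subst hm0
        refine ⟨⊥, by simp, hsmall (by norm_num) _ (by simp)⟩
      · obtain ⟨T, hT, hTs⟩ := TE_exists n ((n - 2) / 3) 1 (by omega)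
        obtain ⟨G, hG⟩ : ∃ G : SimpleGraph (Fin n), G = Tᶜ := ⟨_, rfl⟩
        have hs : ∑ v, dg T v = n + (n - 2) := by rw [hTs]; omega
        have hc := fin2_card (m := m) T G hG (n + (n - 2)) hs (by
          obtain ⟨k, rfl⟩ : ∃ k, n = k + 2 := ⟨n - 2, by omega⟩
          have : k + 2 + (k + 2 - 2) = 2 * k + 2 := by omega
          rw [this]
          nlinarith)
        exact ⟨G, hc, hTE h G T hc (by rw [hG, compl_compl])
          ⟨fun v => by rw [← dg_eq]; exact hT.1 v, hT.2⟩⟩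
    · have hm0 : m = 0 := by omega
      subst hm0
      exact ⟨⊥, by simp, hsmall (by norm_num) _ (by simp)⟩
    · have hm0 : m = 1 := by omega
      subst hm0
      obtain ⟨G, hG⟩ : ∃ G : SimpleGraph (Fin 3), G.edgeFinset.card = 1 := three_edge
      exact ⟨G, hG, hsmall (by norm_num) _ hG⟩
    · have hm0 : m = 3 := by omega
      subst hm0
      obtain ⟨G, hG, hc⟩ : ∃ G : SimpleGraph (Fin 4), G.edgeFinset.card = 3 ∧ G.Connected :=
        four_tree
      exact ⟨G, hG, h4 rfl _ hG hc⟩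
    · have hm0 : m = 10 := by omega
      subst hm0
      obtain ⟨T, hT, hs⟩ := PC_exists
      obtain ⟨G, hG⟩ : ∃ G : SimpleGraph (Fin 6), G = Tᶜ := ⟨_, rfl⟩
      have hc := fin2_card (m := 10) T G hG 10 hs (by norm_num)
      refine ⟨G, hc, ?_⟩
      refine umr_of_compl (by omega) G T (by rw [hG, compl_compl]) ?_
      intro H hH q hq0 hq1
      exact PC_max allMoves slotMoves T H hT hs (hH.trans hs) q hq0 hq1

end Pool.Agent.H34R2.U
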