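import Pool.Agent.H34R2.U.Defs

/-! TASK G11: combinatorics of `repl` and `reloc`: number of edges, degrees, triangles, potential. -/

set_option autoImplicit false

namespace Pool.Agent.H34R2.U

open Finset

variable {n : ℕ}

/-- degree inside the local configuration. -/
def dW (w : ℕ) (l : List (ℕ × ℕ)) (a : Fin w) : ℕ :=
  ((List.finRange w).filter fun b => adjL l a b).length

/-- the local side conditions of a move: edge lists are admissible, marked vertices keep their
degree, the sum of the squares of the degrees is kept, all triangles survive, a new triangle is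
created, and every removed edge has an unmarked end. -/
def sideOK (w : ℕ) (l l' : List (ℕ × ℕ)) (mk : List ℕ) : Bool :=
  (l.all fun e => decide (e.1 < w) && decide (e.2 < w) && decide (e.1 ≠ e.2)) &&
  (l'.all fun e => decide (e.1 < w) && decide (e.2 < w) && decide (e.1 ≠ e.2)) &&
  ((List.finRange w).all fun a => !(mk.contains a.val) || dW w l a == dW w l' a) &&
  (((List.finRange w).map fun a => dW w l a).sum == ((List.finRange w).map fun a => dW w l' a).sum) &&
  (((List.finRange w).map fun a => dW w l a ^ 2).sum ==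
    ((List.finRange w).map fun a => dW w l' a ^ 2).sum) &&
  ((List.finRange w).all fun a => (List.finRange w).all fun b => (List.finRange w).all fun c =>
    !(adjL l a b && adjL l b c && adjL l a c) || (adjL l' a b && adjL l' b c && adjL l' a c)) &&
  ((List.finRange w).any fun a => (List.finRange w).any fun b => (List.finRange w).any fun c =>
    (adjL l' a b && adjL l' b c && adjL l' a c) && !(adjL l a b && adjL l b c && adjL l a c)) &&
  ((List.finRange w).all fun a => (List.finRange w).all fun b =>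
    !(adjL l a b && !(adjL l' a b)) || !(mk.contains a.val) || !(mk.contains b.val))

theorem h873_dW_card (w : ℕ) (l : List (ℕ × ℕ)) (a : Fin w) :
    dW w l a = (Finset.univ.filter fun b : Fin w => adjL l a b = true).card := by
  unfold dW
  rw [← List.toFinset_card_of_nodup ((List.nodup_finRange w).filter _), List.toFinset_filter,
    List.toFinset_finRange]

theorem h873_sum_list (w : ℕ) (f : Fin w → ℕ) :
    ((List.finRange w).map f).sum = ∑ a, f a := (Fin.sum_univ_def f).symm

/-- the unpacked side conditions -/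
structure H873Side (w : ℕ) (l l' : List (ℕ × ℕ)) (mk : List ℕ) : Prop where
  el : ∀ e ∈ l, e.1 < w ∧ e.2 < w ∧ e.1 ≠ e.2
  el' : ∀ e ∈ l', e.1 < w ∧ e.2 < w ∧ e.1 ≠ e.2
  dmk : ∀ a : Fin w, a.val ∈ mk → dW w l a = dW w l' a
  ds : (∑ a, dW w l a) = ∑ a, dW w l' a
  dsq : (∑ a, dW w l a ^ 2) = ∑ a, dW w l' a ^ 2
  tri : ∀ a b c : Fin w, adjL l a b = true → adjL l b c = true → adjL l a c = true →
    adjL l' a b = true ∧ adjL l' b c = true ∧ adjL l' a c = true
  new : ∃ a b c : Fin w, (adjL l' a b = true ∧ adjL l' b c = true ∧ adjL l' a c = true) ∧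
    ¬ (adjL l a b = true ∧ adjL l b c = true ∧ adjL l a c = true)
  rem : ∀ a b : Fin w, adjL l a b = true → ¬ adjL l' a b = true → a.val ∉ mk ∨ b.val ∉ mk

theorem h873_side (w : ℕ) (l l' : List (ℕ × ℕ)) (mk : List ℕ) (h : sideOK w l l' mk = true) :
    H873Side w l l' mk := by
  unfold sideOK at h
  simp only [Bool.and_eq_true] at h
  obtain ⟨⟨⟨⟨⟨⟨⟨h1, h2⟩, h3⟩, h4⟩, h5⟩, h6⟩, h7⟩, h8⟩ := h
  refine ⟨?_, ?_, ?_, ?_, ?_, ?_, ?_, ?_⟩
  · intro e he
    have := List.all_eq_true.1 h1 e he
    simp only [Bool.and_eq_true, decide_eq_true_eq] at this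
    exact ⟨this.1.1, this.1.2, this.2⟩
  · intro e he
    have := List.all_eq_true.1 h2 e he
    simp only [Bool.and_eq_true, decide_eq_true_eq] at this
    exact ⟨this.1.1, this.1.2, this.2⟩
  · intro a ha
    have := List.all_eq_true.1 h3 a (List.mem_finRange a)
    simp only [Bool.or_eq_true, Bool.not_eq_true', beq_iff_eq] at this
    rcases this with h | h
    · have : mk.contains a.val = true := List.contains_iff_mem.2 ha
      rw [this] at h
      exact absurd h (by simp)
    · exact h
  · rw [beq_iff_eq, h873_sum_list, h873_sum_list] at h4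
    exact h4
  · rw [beq_iff_eq, h873_sum_list, h873_sum_list] at h5
    exact h5
  · intro a b c hab hbc hac
    have := List.all_eq_true.1 h6 a (List.mem_finRange a)
    have := List.all_eq_true.1 this b (List.mem_finRange b)
    have := List.all_eq_true.1 this c (List.mem_finRange c)
    rw [hab, hbc, hac] at this
    simpa [Bool.and_eq_true, and_assoc] using this
  · obtain ⟨a, _, h⟩ := List.any_eq_true.1 h7
    obtain ⟨b, _, h⟩ := List.any_eq_true.1 h
    obtain ⟨c, _, h⟩ := List.any_eq_true.1 h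
    rw [Bool.and_eq_true, Bool.not_eq_true'] at h
    refine ⟨a, b, c, ?_, ?_⟩
    · simpa [Bool.and_eq_true, and_assoc] using h.1
    · rintro ⟨g1, g2, g3⟩
      rw [g1, g2, g3] at h
      exact absurd h.2 (by simp)
  · intro a b hab hab'
    have := List.all_eq_true.1 h8 a (List.mem_finRange a)
    have := List.all_eq_true.1 this b (List.mem_finRange b)
    have hf : adjL l' a b = false := by simpa using hab'
    rw [hab, hf] at this
    simpa [imp_iff_not_or] using this

theorem h873_adjL_ne {w : ℕ} {l : List (ℕ × ℕ)} (hl : ∀ e ∈ l, e.1 < w ∧ e.2 < w ∧ e.1 ≠ e.2)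
    {a b : Fin w} (h : adjL l a b = true) : a ≠ b := by
  rintro rfl
  unfold adjL at h
  obtain ⟨e, he, h⟩ := List.any_eq_true.1 h
  have h3 := (hl e he).2.2
  simp only [Bool.or_eq_true, Bool.and_eq_true, beq_iff_eq] at h
  rcases h with h | h
  · exact h3 (h.1.trans h.2.symm)
  · exact h3 (h.1.trans h.2.symm)

theorem Conf_repl {w : ℕ} (H : SimpleGraph (Fin n)) (φ : Fin w ↪ Fin n) (l l' : List (ℕ × ℕ))
    (mk : List ℕ) (hc : Conf H φ l mk)
    (hl' : ∀ e ∈ l', e.1 < w ∧ e.2 < w ∧ e.1 ≠ e.2) : Conf (repl H φ l') φ l' mk := by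
  refine ⟨?_, ?_⟩
  · intro a b
    constructor
    · rintro ⟨_, h | h⟩
      · obtain ⟨a', b', ha, hb, h⟩ := h
        rw [φ.injective ha, φ.injective hb] at h
        exact h
      · exact absurd ⟨⟨a, rfl⟩, ⟨b, rfl⟩⟩ h.1
    · intro h
      exact ⟨fun he => h873_adjL_ne hl' h (φ.injective he), Or.inl ⟨a, b, rfl, rfl, h⟩⟩
  · rintro a ha j ⟨_, h | h⟩
    · obtain ⟨a', b', _, hb, _⟩ := h
      exact ⟨b', hb⟩
    · exact hc.2 a ha j h.2

/-- number of neighbours outside the image -/
noncomputable def h873ext (H : SimpleGraph (Fin n)) {w : ℕ} (φ : Fin w ↪ Fin n) (a : Fin w) : ℕ :=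
  open Classical in (Finset.univ.filter fun j => H.Adj (φ a) j ∧ ¬ ∃ b, φ b = j).card

theorem h873_dg_in (K : SimpleGraph (Fin n)) {w : ℕ} (φ : Fin w ↪ Fin n) (l : List (ℕ × ℕ))
    (h : ∀ a b, K.Adj (φ a) (φ b) ↔ adjL l a b = true) (a : Fin w) :
    dg K (φ a) = dW w l a + h873ext K φ a := by
  classical
  rw [h873_dW_card]
  unfold dg h873ext
  have h1 : (Finset.univ.filter fun b : Fin w => adjL l a b = true).card =
      (Finset.univ.filter fun j => K.Adj (φ a) j ∧ ∃ b, φ b = j).card := by
    rw [← Finset.card_map φ]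
    congr 1
    ext j
    simp only [Finset.mem_map, Finset.mem_filter, Finset.mem_univ, true_and]
    constructor
    · rintro ⟨b, hb, rfl⟩
      exact ⟨(h a b).2 hb, b, rfl⟩
    · rintro ⟨h2, b, rfl⟩
      exact ⟨b, (h a b).1 h2, rfl⟩
  rw [h1, ← Finset.card_union_of_disjoint]
  · congr 1
    ext j
    simp only [Finset.mem_union, Finset.mem_filter, Finset.mem_univ, true_and]
    tauto
  · rw [Finset.disjoint_left]
    intro j h2 h3
    simp only [Finset.mem_filter, Finset.mem_univ, true_and] at h2 h3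
    exact h3.2 h2.2

theorem h873_ext_repl (H : SimpleGraph (Fin n)) {w : ℕ} (φ : Fin w ↪ Fin n) (l' : List (ℕ × ℕ))
    (a : Fin w) : h873ext (repl H φ l') φ a = h873ext H φ a := by
  classical
  unfold h873ext
  congr 1
  ext j
  simp only [Finset.mem_filter, Finset.mem_univ, true_and]
  constructor
  · rintro ⟨⟨_, h | h⟩, h2⟩
    · obtain ⟨_, b', _, hb, _⟩ := h
      exact absurd ⟨b', hb⟩ h2
    · exact ⟨h.2, h2⟩
  · rintro ⟨h1, h2⟩
    exact ⟨⟨h1.ne, Or.inr ⟨fun h => h2 h.2, h1⟩⟩, h2⟩

theorem h873_ext_zero (H : SimpleGraph (Fin n)) {w : ℕ} (φ : Fin w ↪ Fin n) (l : List (ℕ × ℕ))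
    (mk : List ℕ) (hc : Conf H φ l mk) (a : Fin w) (ha : a.val ∉ mk) : h873ext H φ a = 0 := by
  classical
  unfold h873ext
  rw [Finset.card_eq_zero, Finset.filter_eq_empty_iff]
  rintro j _ ⟨h1, h2⟩
  exact h2 (hc.2 a ha j h1)

theorem h873_dg_out (H : SimpleGraph (Fin n)) {w : ℕ} (φ : Fin w ↪ Fin n) (l' : List (ℕ × ℕ))
    (v : Fin n) (hv : ¬ ∃ a, φ a = v) : dg (repl H φ l') v = dg H v := by
  classical
  unfold dg
  congr 1
  ext j
  simp only [Finset.mem_filter, Finset.mem_univ, true_and]
  constructor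
  · rintro ⟨_, h | h⟩
    · obtain ⟨a', _, ha, _, _⟩ := h
      exact absurd ⟨a', ha⟩ hv
    · exact h.2
  · intro h1
    exact ⟨h1.ne, Or.inr ⟨fun h => hv h.1, h1⟩⟩

theorem h873_sum_split {w : ℕ} (φ : Fin w ↪ Fin n) (f : Fin n → ℕ) :
    open Classical in
    ∑ v, f v = (∑ v ∈ Finset.univ.filter (fun v => ¬ ∃ a, φ a = v), f v) + ∑ a, f (φ a) := by
  classical
  rw [← Finset.sum_filter_add_sum_filter_not Finset.univ (fun v => ¬ ∃ a, φ a = v)]
  congr 1
  have : (Finset.univ.filter fun v => ¬ ¬ ∃ a, φ a = v) = Finset.univ.map φ := by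
    ext v
    simp
  rw [this, Finset.sum_map]

theorem h873_tri_le (H : SimpleGraph (Fin n)) : tri H ≤ n ^ 3 := by
  classical
  unfold tri
  refine (Finset.card_le_univ _).trans ?_
  simp only [Fintype.card_prod, Fintype.card_fin]
  exact le_of_eq (by ring)

theorem h873_pot_lt (H H' : SimpleGraph (Fin n)) (h1 : (∑ v, dg H' v ^ 2) = ∑ v, dg H v ^ 2)
    (h2 : tri H < tri H') : pot H' < pot H := by
  unfold pot
  rw [h1]
  have := h873_tri_le H'
  omega

theorem h873_tri_lt (H : SimpleGraph (Fin n)) {w : ℕ} (φ : Fin w ↪ Fin n) (l l' : List (ℕ × ℕ))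
    (mk : List ℕ) (hc : Conf H φ l mk) (hs : H873Side w l l' mk) :
    tri H < tri (repl H φ l') := by
  classical
  have hc' := Conf_repl H φ l l' mk hc hs.el'
  -- every edge of a triangle survives
  have keep : ∀ i j k : Fin n, H.Adj i j → H.Adj j k → H.Adj i k → (repl H φ l').Adj i j := by
    intro i j k hij hjk hik
    by_cases hi : ∃ a, φ a = i
    · by_cases hj : ∃ b, φ b = j
      · obtain ⟨a, rfl⟩ := hi
        obtain ⟨b, rfl⟩ := hj
        have hab := (hc.1 a b).1 hij
        by_cases hk : ∃ c, φ c = k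
        · obtain ⟨c, rfl⟩ := hk
          have hbc := (hc.1 b c).1 hjk
          have hac := (hc.1 a c).1 hik
          exact (hc'.1 a b).2 (hs.tri a b c hab hbc hac).1
        · by_cases hab' : adjL l' a b = true
          · exact (hc'.1 a b).2 hab'
          · rcases hs.rem a b hab hab' with h | h
            · exact absurd (hc.2 a h k hik) hk
            · exact absurd (hc.2 b h k hjk) hk
      · exact ⟨hij.ne, Or.inr ⟨fun h => hj h.2, hij⟩⟩
    · exact ⟨hij.ne, Or.inr ⟨fun h => hi h.1, hij⟩⟩
  obtain ⟨a, b, c, hn, hn'⟩ := hs.new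
  unfold tri
  apply Finset.card_lt_card
  rw [Finset.ssubset_iff_of_subset]
  · refine ⟨(φ a, φ b, φ c), ?_, ?_⟩
    · simp only [Finset.mem_filter, Finset.mem_univ, true_and]
      exact ⟨(hc'.1 a b).2 hn.1, (hc'.1 b c).2 hn.2.1, (hc'.1 a c).2 hn.2.2⟩
    · simp only [Finset.mem_filter, Finset.mem_univ, true_and]
      rintro ⟨g1, g2, g3⟩
      exact hn' ⟨(hc.1 a b).1 g1, (hc.1 b c).1 g2, (hc.1 a c).1 g3⟩
  · rintro ⟨i, j, k⟩ ht
    simp only [Finset.mem_filter, Finset.mem_univ, true_and] at ht ⊢
    obtain ⟨hij, hjk, hik⟩ := ht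
    exact ⟨keep i j k hij hjk hik, keep j k i hjk hik.symm hij.symm,
      keep i k j hik hjk.symm hij⟩

theorem h873_sum_neg : ∀ (l : List ℝ), l ≠ [] → (∀ x ∈ l, x < 0) → l.sum < 0
  | [], h, _ => absurd rfl h
  | [x], _, h => by simpa using h x (by simp)
  | x :: y :: t, _, h => by
    have h1 : x < 0 := h x (by simp)
    have h2 := h873_sum_neg (y :: t) (by simp) (fun z hz => h z (List.mem_cons_of_mem _ hz))
    rw [List.sum_cons]
    linarith

/-- a machine-checked move that creates a triangle is an improvement. -/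
theorem machine_improve (w : ℕ) (l : List (ℕ × ℕ)) (ls : List (List (ℕ × ℕ))) (mk : List ℕ)
    (hm : MoveOK w l ls mk) (hne : ls ≠ []) (hs : ∀ l' ∈ ls, sideOK w l l' mk = true)
    (H : SimpleGraph (Fin n)) (φ : Fin w ↪ Fin n) (hc : Conf H φ l mk)
    (q : ℝ) (hq0 : 0 < q) (hq1 : q < 1) : Imp H q := by
  classical
  have hm1 := hm n H φ hc q hq0 hq1
  have hex : ∃ l' ∈ ls, RH H q ≤ RH (repl H φ l') q := by
    by_contra hcon
    push Not at hcon
    have : (ls.map fun l' => RH (repl H φ l') q - RH H q).sum < 0 := by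
      apply h873_sum_neg
      · simpa using hne
      · intro x hx
        obtain ⟨l', hl', rfl⟩ := List.mem_map.1 hx
        have := hcon l' hl'
        linarith
    linarith
  obtain ⟨l', hl', hR⟩ := hex
  have hS := h873_side w l l' mk (hs l' hl')
  have hc' := Conf_repl H φ l l' mk hc hS.el'
  have hin : ∀ a, dg H (φ a) = dW w l a + h873ext H φ a := h873_dg_in H φ l hc.1
  have hin' : ∀ a, dg (repl H φ l') (φ a) = dW w l' a + h873ext H φ a := by
    intro a
    rw [h873_dg_in (repl H φ l') φ l' hc'.1 a, h873_ext_repl]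
  have hout : ∀ v ∈ Finset.univ.filter (fun v => ¬ ∃ a, φ a = v),
      dg (repl H φ l') v = dg H v := by
    intro v hv
    exact h873_dg_out H φ l' v (Finset.mem_filter.1 hv).2
  refine ⟨repl H φ l', ?_, hR, ?_⟩
  · rw [h873_sum_split φ, h873_sum_split φ (fun v => dg H v)]
    congr 1
    · exact Finset.sum_congr rfl hout
    · simp only [hin, hin', Finset.sum_add_distrib, hS.ds]
  · apply h873_pot_lt
    · rw [h873_sum_split φ, h873_sum_split φ (fun v => dg H v ^ 2)]
      congr 1
      · exact Finset.sum_congr rfl (fun v hv => by rw [hout v hv])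
      · have h3 : ∀ a, dg (repl H φ l') (φ a) ^ 2 + dW w l a ^ 2 =
            dg H (φ a) ^ 2 + dW w l' a ^ 2 := by
          intro a
          rw [hin, hin']
          by_cases ha : a.val ∈ mk
          · rw [hS.dmk a ha]
          · rw [h873_ext_zero H φ l mk hc a ha, add_zero, add_zero, add_comm]
        have h4 : (∑ a, dg (repl H φ l') (φ a) ^ 2) + ∑ a, dW w l a ^ 2 =
            (∑ a, dg H (φ a) ^ 2) + ∑ a, dW w l' a ^ 2 := by
          rw [← Finset.sum_add_distrib, ← Finset.sum_add_distrib]
          exact Finset.sum_congr rfl (fun a _ => h3 a)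
        rw [hS.dsq] at h4
        exact Nat.add_right_cancel h4
    · exact h873_tri_lt H φ l l' mk hc hS

/-- relocation of an edge from a vertex of degree `≥ d + 2` to one of degree `d`. -/
theorem reloc_imp (H : SimpleGraph (Fin n)) (q : ℝ) (u v x : Fin n) (huv : u ≠ v) (hxv : x ≠ v)
    (hux : H.Adj u x) (hvx : ¬ H.Adj v x) (hd : dg H v + 2 ≤ dg H u)
    (hR : RH H q ≤ RH (reloc H u v x) q) : Imp H q := by
  classical
  have hnux : u ≠ x := hux.ne
  have hu : dg (reloc H u v x) u + 1 = dg H u := by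
    unfold dg
    have : (Finset.univ.filter fun j => (reloc H u v x).Adj u j) =
        (Finset.univ.filter fun j => H.Adj u j).erase x := by
      ext j
      simp only [Finset.mem_filter, Finset.mem_univ, true_and, Finset.mem_erase]
      constructor
      · rintro ⟨h1, h2 | h2 | h2⟩
        · exact ⟨fun h => h2.2.1 ⟨rfl, h⟩, h2.1⟩
        · exact absurd h2.1 huv
        · exact absurd h2.1 hnux
      · rintro ⟨h1, h2⟩
        exact ⟨h2.ne, Or.inl ⟨h2, fun h => h1 h.2, fun h => hnux h.1⟩⟩
    rw [this]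
    apply Finset.card_erase_add_one
    simp [hux]
  have hv : dg (reloc H u v x) v = dg H v + 1 := by
    unfold dg
    have : (Finset.univ.filter fun j => (reloc H u v x).Adj v j) =
        insert x (Finset.univ.filter fun j => H.Adj v j) := by
      ext j
      simp only [Finset.mem_filter, Finset.mem_univ, true_and, Finset.mem_insert]
      constructor
      · rintro ⟨h1, h2 | h2 | h2⟩
        · exact Or.inr h2.1
        · exact Or.inl h2.2
        · exact absurd h2.1.symm hxv
      · rintro (rfl | h2)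
        · exact ⟨hxv.symm, Or.inr (Or.inl ⟨rfl, rfl⟩)⟩
        · exact ⟨h2.ne, Or.inl ⟨h2, fun h => huv h.1.symm, fun h => hxv h.1.symm⟩⟩
    rw [this]
    apply Finset.card_insert_of_notMem
    simp [hvx]
  have hx : dg (reloc H u v x) x = dg H x := by
    unfold dg
    have : (Finset.univ.filter fun j => (reloc H u v x).Adj x j) =
        insert v ((Finset.univ.filter fun j => H.Adj x j).erase u) := by
      ext j
      simp only [Finset.mem_filter, Finset.mem_univ, true_and, Finset.mem_insert,
        Finset.mem_erase]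
      constructor
      · rintro ⟨h1, h2 | h2 | h2⟩
        · exact Or.inr ⟨fun h => h2.2.2 ⟨rfl, h⟩, h2.1⟩
        · exact absurd h2.1 hxv
        · exact Or.inl h2.2
      · rintro (rfl | h2)
        · exact ⟨hxv, Or.inr (Or.inr ⟨rfl, rfl⟩)⟩
        · exact ⟨h2.2.ne, Or.inl ⟨h2.2, fun h => hnux h.1.symm, fun h => h2.1 h.2⟩⟩
    rw [this, Finset.card_insert_of_notMem, Finset.card_erase_add_one]
    · simp [hux.symm]
    · simp only [Finset.mem_erase, Finset.mem_filter, Finset.mem_univ, true_and, not_and]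
      intro _ h
      exact hvx h.symm
  have ho : ∀ i, i ≠ u → i ≠ v → i ≠ x → dg (reloc H u v x) i = dg H i := by
    intro i h1 h2 h3
    unfold dg
    congr 1
    ext j
    simp only [Finset.mem_filter, Finset.mem_univ, true_and]
    constructor
    · rintro ⟨_, h | h | h⟩
      · exact h.1
      · exact absurd h.1 h2
      · exact absurd h.1 h3
    · intro h
      exact ⟨h.ne, Or.inl ⟨h, fun g => h1 g.1, fun g => h3 g.1⟩⟩
  have hall : ∀ i, dg (reloc H u v x) i + (if i = u then 1 else 0) =
      dg H i + (if i = v then 1 else 0) := by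
    intro i
    by_cases h1 : i = u
    · subst h1
      rw [if_pos rfl, if_neg huv, hu, add_zero]
    · by_cases h2 : i = v
      · subst h2
        rw [if_neg h1, if_pos rfl, hv, add_zero]
      · rw [if_neg h1, if_neg h2]
        by_cases h3 : i = x
        · rw [h3, hx]
        · rw [ho i h1 h2 h3]
  have hall2 : ∀ i, dg (reloc H u v x) i ^ 2 + (if i = u then 2 * dg H u - 1 else 0) =
      dg H i ^ 2 + (if i = v then 2 * dg H v + 1 else 0) := by
    intro i
    by_cases h1 : i = u
    · subst h1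
      rw [if_pos rfl, if_neg huv, ← hu]
      have : 2 * (dg (reloc H i v x) i + 1) - 1 = 2 * dg (reloc H i v x) i + 1 := by omega
      rw [this]
      ring
    · by_cases h2 : i = v
      · subst h2
        rw [if_neg h1, if_pos rfl, hv]
        ring
      · rw [if_neg h1, if_neg h2]
        by_cases h3 : i = x
        · rw [h3, hx]
        · rw [ho i h1 h2 h3]
  have hs1 : (∑ i, dg (reloc H u v x) i) = ∑ i, dg H i := by
    have := Finset.sum_congr (rfl : (Finset.univ : Finset (Fin n)) = Finset.univ)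
      (fun i _ => hall i)
    rw [Finset.sum_add_distrib, Finset.sum_add_distrib, Finset.sum_ite_eq' Finset.univ u,
      Finset.sum_ite_eq' Finset.univ v] at this
    simp only [Finset.mem_univ, if_true] at this
    exact Nat.add_right_cancel this
  have hs2 : (∑ i, dg (reloc H u v x) i ^ 2) + 2 ≤ ∑ i, dg H i ^ 2 := by
    have := Finset.sum_congr (rfl : (Finset.univ : Finset (Fin n)) = Finset.univ)
      (fun i _ => hall2 i)
    rw [Finset.sum_add_distrib, Finset.sum_add_distrib, Finset.sum_ite_eq' Finset.univ u,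
      Finset.sum_ite_eq' Finset.univ v] at this
    simp only [Finset.mem_univ, if_true] at this
    omega
  refine ⟨reloc H u v x, hs1, hR, ?_⟩
  unfold pot
  have h3 : n ^ 3 - tri (reloc H u v x) ≤ n ^ 3 := Nat.sub_le _ _
  have h4 : ((∑ i, dg (reloc H u v x) i ^ 2) + 2) * (n ^ 3 + 1) ≤
      (∑ i, dg H i ^ 2) * (n ^ 3 + 1) := Nat.mul_le_mul_right _ hs2
  rw [add_mul] at h4
  omega

end Pool.Agent.H34R2.U
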