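import Pool.Agent.H34R2.U.A2

/-! TASK K: two-vertex formula, relocation formula, Kelmans shift. -/

set_option autoImplicit false

namespace Pool.Agent.H34R2.U

open Finset

variable {n : ℕ}

theorem RR_two {Q : Fin n → Fin n → ℝ} (hs : ∀ i j, Q i j = Q j i) (u v : Fin n) (huv : u ≠ v)
    (A : Finset (Fin n)) (hu : u ∉ A) (hv : v ∉ A) :
    RR Q (insert u (insert v A)) =
      MM Q (fun B => 1 - tt Q u B * tt Q v B) A -
        Q u v * MM Q (fun B => tt Q u B + tt Q v B - 2 * (tt Q u B * tt Q v B)) A := by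
  have hu' : u ∉ insert v A := by
    rw [mem_insert]; rintro (h | h)
    · exact huv h
    · exact hu h
  rw [RR_insert hs u (insert v A) hu']
  have h := MM_insert (Finset.univ : Finset (Fin 2)) hs v A hv (fun C => 1 - tt Q u C)
    ![1, -Q u v] ![fun _ => 1, fun i => Q u i] (by
      intro B hB
      have hvB : v ∉ B := fun h => hv (hB h)
      simp only [Fin.sum_univ_two, Matrix.cons_val_zero, Matrix.cons_val_one, tt,
        prod_insert hvB, prod_const_one]
      ring)
  rw [h, Fin.sum_univ_two]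
  simp only [Matrix.cons_val_zero, Matrix.cons_val_one, prod_const_one]
  have e1 : MM Q (fun B => (1 - tt Q v B) * 1 + tt Q v B * (1 - tt Q u B)) A =
      MM Q (fun B => 1 - tt Q u B * tt Q v B) A :=
    MM_congr (fun _ _ _ _ _ => rfl) (fun B _ _ => by ring)
  have e2 : MM Q (fun B => (1 - tt Q v B) * ∏ i ∈ B, Q u i + tt Q v B * (1 - tt Q u B)) A =
      MM Q (fun B => tt Q u B + tt Q v B - 2 * (tt Q u B * tt Q v B)) A :=
    MM_congr (fun _ _ _ _ _ => rfl) (fun B _ _ => by
      show (1 - tt Q v B) * tt Q u B + tt Q v B * (1 - tt Q u B) = _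
      ring)
  rw [e1, e2]
  ring

theorem univ_two (u v : Fin n) (huv : u ≠ v) :
    (univ : Finset (Fin n)) = insert u (insert v ((univ.erase u).erase v)) := by
  ext j
  simp only [mem_univ, mem_insert, mem_erase, ne_eq, and_true, true_iff]
  tauto

/-- moving the edge `u x` of `H` to `v x`. -/
theorem reloc_diff (H : SimpleGraph (Fin n)) (q : ℝ) (hq0 : 0 < q) (u v x : Fin n)
    (huv : u ≠ v) (hux : H.Adj u x) (hvx : ¬ H.Adj v x) (hxv : x ≠ v) :
    RH (reloc H u v x) q - RH H q =
      Qw H q u v * (1 - q) *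
        MM (Qw H q) (fun B => if x ∈ B then tt (Qw H q) u B - q⁻¹ * tt (Qw H q) v B
          else tt (Qw H q) u B + tt (Qw H q) v B - 2 * (tt (Qw H q) u B * tt (Qw H q) v B))
          ((univ.erase u).erase v) := by
  classical
  have hxu : x ≠ u := fun h => by rw [h] at hux; exact H.loopless.irrefl u hux
  set A : Finset (Fin n) := (univ.erase u).erase v with hA
  have huA : u ∉ A := by simp [hA]
  have hvA : v ∉ A := by simp [hA]
  have hxA : x ∈ A := by simp [hA, hxu, hxv]
  have hs : ∀ i j, Qw H q i j = Qw H q j i := Qw_symm H q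
  have hs' : ∀ i j, Qw (reloc H u v x) q i j = Qw (reloc H u v x) q j i :=
    Qw_symm (reloc H u v x) q
  have hne : ∀ j ∈ A, j ≠ u ∧ j ≠ v := fun j hj => by
    simp only [hA, mem_erase, mem_univ, and_true] at hj
    exact ⟨hj.2, hj.1⟩
  -- adjacency of the new graph
  have adjA : ∀ i ∈ A, ∀ j ∈ A, Qw (reloc H u v x) q i j = Qw H q i j := by
    intro i hi j hj
    obtain ⟨hi1, hi2⟩ := hne i hi
    obtain ⟨hj1, hj2⟩ := hne j hj
    have : (reloc H u v x).Adj i j ↔ H.Adj i j := by
      show (i ≠ j ∧ _) ↔ _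
      constructor
      · rintro ⟨_, h | h | h⟩
        · exact h.1
        · exact absurd h.1 hi2
        · exact absurd h.2 hj2
      · intro h
        exact ⟨h.ne, Or.inl ⟨h, fun h' => hi1 h'.1, fun h' => hj1 h'.2⟩⟩
    unfold Qw
    simp only [this]
  have adjuv : Qw (reloc H u v x) q u v = Qw H q u v := by
    have : (reloc H u v x).Adj u v ↔ H.Adj u v := by
      show (u ≠ v ∧ _) ↔ _
      constructor
      · rintro ⟨_, h | h | h⟩
        · exact h.1
        · exact absurd h.1 huv
        · exact absurd h.1.symm hxu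
      · intro h
        exact ⟨h.ne, Or.inl ⟨h, fun h' => hxv h'.2.symm, fun h' => hxu h'.1.symm⟩⟩
    unfold Qw
    simp only [this]
  have adju : ∀ j ∈ A, j ≠ x → Qw (reloc H u v x) q u j = Qw H q u j := by
    intro j hj hjx
    obtain ⟨hj1, hj2⟩ := hne j hj
    have : (reloc H u v x).Adj u j ↔ H.Adj u j := by
      show (u ≠ j ∧ _) ↔ _
      constructor
      · rintro ⟨_, h | h | h⟩
        · exact h.1
        · exact absurd h.1 huv
        · exact absurd h.2 hj2
      · intro h
        exact ⟨h.ne, Or.inl ⟨h, fun h' => hjx h'.2, fun h' => hj1 h'.2⟩⟩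
    unfold Qw
    simp only [this]
  have adjux : Qw (reloc H u v x) q u x = q := by
    have : ¬ (reloc H u v x).Adj u x := by
      rintro ⟨_, h | h | h⟩
      · exact h.2.1 ⟨rfl, rfl⟩
      · exact huv h.1
      · exact hxv h.2
    unfold Qw
    simp only [this, if_false]
  have adjv : ∀ j ∈ A, j ≠ x → Qw (reloc H u v x) q v j = Qw H q v j := by
    intro j hj hjx
    obtain ⟨hj1, hj2⟩ := hne j hj
    have : (reloc H u v x).Adj v j ↔ H.Adj v j := by
      show (v ≠ j ∧ _) ↔ _
      constructor
      · rintro ⟨_, h | h | h⟩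
        · exact h.1
        · exact absurd h.2 hjx
        · exact absurd h.2 hj2
      · intro h
        exact ⟨h.ne, Or.inl ⟨h, fun h' => huv h'.1.symm, fun h' => hj1 h'.2⟩⟩
    unfold Qw
    simp only [this]
  have adjvx : Qw (reloc H u v x) q v x = 1 := by
    have : (reloc H u v x).Adj v x := ⟨hxv.symm, Or.inr (Or.inl ⟨rfl, rfl⟩)⟩
    unfold Qw
    simp only [this, if_true]
  have Qux : Qw H q u x = 1 := by unfold Qw; simp only [hux, if_true]
  have Qvx : Qw H q v x = q := by unfold Qw; simp only [hvx, if_false]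
  have ttu : ∀ B ⊆ A, tt (Qw (reloc H u v x) q) u B =
      if x ∈ B then q * tt (Qw H q) u B else tt (Qw H q) u B := by
    intro B hB
    by_cases hx : x ∈ B
    · rw [if_pos hx]
      unfold tt
      rw [← mul_prod_erase B _ hx, ← mul_prod_erase B _ hx, adjux, Qux, one_mul]
      congr 1
      exact prod_congr rfl fun j hj => adju j (hB (mem_of_mem_erase hj)) (ne_of_mem_erase hj)
    · rw [if_neg hx]
      unfold tt
      exact prod_congr rfl fun j hj => adju j (hB hj) (fun h => hx (h ▸ hj))
  have ttv : ∀ B ⊆ A, tt (Qw (reloc H u v x) q) v B =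
      if x ∈ B then q⁻¹ * tt (Qw H q) v B else tt (Qw H q) v B := by
    intro B hB
    by_cases hx : x ∈ B
    · rw [if_pos hx]
      unfold tt
      rw [← mul_prod_erase B _ hx, ← mul_prod_erase B (fun j => Qw H q v j) hx, adjvx, Qvx,
        one_mul, ← mul_assoc, inv_mul_cancel₀ hq0.ne', one_mul]
      exact prod_congr rfl fun j hj => adjv j (hB (mem_of_mem_erase hj)) (ne_of_mem_erase hj)
    · rw [if_neg hx]
      unfold tt
      exact prod_congr rfl fun j hj => adjv j (hB hj) (fun h => hx (h ▸ hj))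
  have hH : RH H q = MM (Qw H q) (fun B => 1 - tt (Qw H q) u B * tt (Qw H q) v B) A -
      Qw H q u v * MM (Qw H q) (fun B => tt (Qw H q) u B + tt (Qw H q) v B -
        2 * (tt (Qw H q) u B * tt (Qw H q) v B)) A := by
    unfold RH
    rw [univ_two u v huv]
    exact RR_two hs u v huv A huA hvA
  have hH' : RH (reloc H u v x) q =
      MM (Qw H q) (fun B => 1 - tt (Qw H q) u B * tt (Qw H q) v B) A -
      Qw H q u v * MM (Qw H q) (fun B => if x ∈ B then
        q * tt (Qw H q) u B + q⁻¹ * tt (Qw H q) v B - 2 * (tt (Qw H q) u B * tt (Qw H q) v B)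
        else tt (Qw H q) u B + tt (Qw H q) v B -
        2 * (tt (Qw H q) u B * tt (Qw H q) v B)) A := by
    unfold RH
    rw [univ_two u v huv, RR_two hs' u v huv A huA hvA, adjuv]
    congr 1
    · refine MM_congr (fun i hi j hj _ => adjA i hi j hj) (fun B hB _ => ?_)
      rw [ttu B hB, ttv B hB]
      by_cases hx : x ∈ B
      · simp only [hx, if_true]
        field_simp
      · simp only [hx, if_false]
    · congr 1
      refine MM_congr (fun i hi j hj _ => adjA i hi j hj) (fun B hB _ => ?_)
      rw [ttu B hB, ttv B hB]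
      by_cases hx : x ∈ B
      · simp only [hx, if_true]
        field_simp
      · simp only [hx, if_false]
  have h1 := MM_sub_at hs hxA (fun B => tt (Qw H q) u B + tt (Qw H q) v B -
        2 * (tt (Qw H q) u B * tt (Qw H q) v B))
      (fun B => if x ∈ B then
        q * tt (Qw H q) u B + q⁻¹ * tt (Qw H q) v B - 2 * (tt (Qw H q) u B * tt (Qw H q) v B)
        else tt (Qw H q) u B + tt (Qw H q) v B -
        2 * (tt (Qw H q) u B * tt (Qw H q) v B))
      (fun B _ hx => by simp only [hx, if_false])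
  have h2 := MM_smul_at hs hxA (fun B => if x ∈ B then tt (Qw H q) u B - q⁻¹ * tt (Qw H q) v B
          else tt (Qw H q) u B + tt (Qw H q) v B - 2 * (tt (Qw H q) u B * tt (Qw H q) v B))
          (1 - q)
  have h3 : MM (Qw H q) (fun B => if x ∈ B then
        (tt (Qw H q) u B + tt (Qw H q) v B - 2 * (tt (Qw H q) u B * tt (Qw H q) v B)) -
        (if x ∈ B then
        q * tt (Qw H q) u B + q⁻¹ * tt (Qw H q) v B - 2 * (tt (Qw H q) u B * tt (Qw H q) v B)
        else tt (Qw H q) u B + tt (Qw H q) v B -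
        2 * (tt (Qw H q) u B * tt (Qw H q) v B))
        else tt (Qw H q) u B + tt (Qw H q) v B -
        2 * (tt (Qw H q) u B * tt (Qw H q) v B)) A =
      MM (Qw H q) (fun B => if x ∈ B then (1 - q) *
        (if x ∈ B then tt (Qw H q) u B - q⁻¹ * tt (Qw H q) v B
          else tt (Qw H q) u B + tt (Qw H q) v B - 2 * (tt (Qw H q) u B * tt (Qw H q) v B))
        else (if x ∈ B then tt (Qw H q) u B - q⁻¹ * tt (Qw H q) v B
          else tt (Qw H q) u B + tt (Qw H q) v B - 2 * (tt (Qw H q) u B * tt (Qw H q) v B)))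
        A := by
    refine MM_congr (fun _ _ _ _ _ => rfl) (fun B _ _ => ?_)
    by_cases hx : x ∈ B
    · simp only [hx, if_true]
      field_simp
      ring
    · simp only [hx, if_false]
  rw [hH, hH', mul_assoc, ← h2, ← h3, ← h1]
  ring

/-- Kelmans shift: if `N(v) ⊆ N[u]` then moving an edge `u x` to `v x` does not decrease the
reliability of the complement. -/
theorem kelmans (H : SimpleGraph (Fin n)) (q : ℝ) (hq0 : 0 < q) (hq1 : q < 1) (u v x : Fin n)
    (huv : u ≠ v) (hux : H.Adj u x) (hvx : ¬ H.Adj v x) (hxv : x ≠ v)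
    (hN : ∀ j, H.Adj v j → j = u ∨ H.Adj u j) :
    RH H q ≤ RH (reloc H u v x) q := by
  classical
  rw [← sub_nonneg, reloc_diff H q hq0 u v x huv hux hvx hxv]
  have hW : Wt (Qw H q) := Qw_wt H hq0.le hq1.le
  have h01 : ∀ w (B : Finset (Fin n)), 0 ≤ tt (Qw H q) w B ∧ tt (Qw H q) w B ≤ 1 := fun w B =>
    ⟨prod_nonneg fun j _ => hW.2.1 w j, prod_le_one (fun j _ => hW.2.1 w j)
      (fun j _ => hW.2.2 w j)⟩
  refine mul_nonneg (mul_nonneg (hW.2.1 u v) (by linarith)) (MM_nonneg hW fun B hB _ => ?_)
  by_cases hx : x ∈ B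
  · simp only [hx, if_true]
    have hle : ∀ j ∈ B.erase x, Qw H q v j ≤ Qw H q u j := by
      intro j hj
      have hjA := hB (mem_of_mem_erase hj)
      simp only [mem_erase, mem_univ, and_true] at hjA
      by_cases h : H.Adj v j
      · rcases hN j h with h' | h'
        · exact absurd h' hjA.2
        · unfold Qw
          simp only [h, h', if_true]
          exact le_refl _
      · have : Qw H q v j = q := by unfold Qw; simp only [h, if_false]
        rw [this]
        unfold Qw
        split_ifs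
        · exact hq1.le
        · exact le_refl _
    have h1 : tt (Qw H q) v B = q * ∏ j ∈ B.erase x, Qw H q v j := by
      unfold tt
      rw [← mul_prod_erase B _ hx]
      congr 1
      unfold Qw; simp only [hvx, if_false]
    have h2 : tt (Qw H q) u B = ∏ j ∈ B.erase x, Qw H q u j := by
      unfold tt
      rw [← mul_prod_erase B _ hx]
      have : Qw H q u x = 1 := by unfold Qw; simp only [hux, if_true]
      rw [this, one_mul]
    have h3 : ∏ j ∈ B.erase x, Qw H q v j ≤ ∏ j ∈ B.erase x, Qw H q u j :=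
      prod_le_prod (fun j _ => hW.2.1 v j) hle
    rw [h1, h2, ← mul_assoc, inv_mul_cancel₀ hq0.ne', one_mul]
    linarith
  · simp only [hx, if_false]
    obtain ⟨a0, a1⟩ := h01 u B
    obtain ⟨b0, b1⟩ := h01 v B
    nlinarith [mul_nonneg a0 (sub_nonneg.2 b1), mul_nonneg b0 (sub_nonneg.2 a1)]

end Pool.Agent.H34R2.U
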