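import Pool.Agent.H34R2.U.S5

/-! TASK S6: real inequality for the two-sided degree-reducing move (both degrees are three). -/

set_option autoImplicit false

namespace Pool.Agent.H34R2.U

/-- the core of the symmetric bound -/
theorem S6_core {s w : ℝ} (hw : 0 < w) (hws : w ≤ s) (hs : s ≤ 1) :
    w * (1 + s ^ 4 - 2 * (s ^ 4 * w ^ 2)) ≤ s * (1 + w ^ 4 - 2 * (s ^ 2 * w ^ 4)) := by
  have hs0 : 0 < s := lt_of_lt_of_le hw hws
  have hw1 : w ≤ 1 := hws.trans hs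
  have key : s * (1 + w ^ 4 - 2 * (s ^ 2 * w ^ 4)) - w * (1 + s ^ 4 - 2 * (s ^ 4 * w ^ 2)) =
      (s - w) * (s * w * ((1 - s ^ 2) * (1 - w ^ 2)) + (1 - s * w) ^ 2 * (1 + s * w)) := by
    ring
  have h1 : 0 ≤ s - w := by linarith
  have h4 : 0 ≤ 1 - s ^ 2 := by nlinarith
  have h5 : 0 ≤ 1 - w ^ 2 := by nlinarith
  have h6 : 0 ≤ (s - w) * (s * w * ((1 - s ^ 2) * (1 - w ^ 2)) +
      (1 - s * w) ^ 2 * (1 + s * w)) := by positivity
  linarith

theorem S6_sym {U X z : ℝ} (hz : 0 < z) (hzU : z ≤ U) (hU : U ≤ 1) (hzX : z ≤ X) (hX : X ≤ 1) :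
    Real.sqrt (U * X) * F2 U X z ^ 2 ≤ z * (F1 U X z * F1 X U z) := by
  have hU0 : 0 < U := lt_of_lt_of_le hz hzU
  have hX0 : 0 < X := lt_of_lt_of_le hz hzX
  have hz1 : z ≤ 1 := hzX.trans hX
  set p := Real.sqrt (U * X) with hp
  have hp2 : p ^ 2 = U * X := Real.sq_sqrt (by positivity)
  have hp0 : 0 ≤ p := Real.sqrt_nonneg _
  have hzp : z ≤ p := by
    apply Real.le_sqrt_of_sq_le
    nlinarith
  have hp1 : p ≤ 1 := by
    rw [hp, Real.sqrt_le_one]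
    nlinarith
  have hS : 2 * p ≤ U + X := by
    apply abs_le_of_sq_le_sq' _ (by positivity) |>.2
    nlinarith [sq_nonneg (U - X)]
  have hpp : 0 < p := lt_of_lt_of_le hz hzp
  -- lower bound for the product
  have hA : p ^ 2 * (1 + z ^ 2 - 2 * (p * z ^ 2)) ^ 2 ≤ F1 U X z * F1 X U z := by
    have key : F1 U X z * F1 X U z - p ^ 2 * (1 + z ^ 2 - 2 * (p * z ^ 2)) ^ 2 =
        z ^ 2 * ((U + X - 2 * p) * ((U + X + 2 * p) - 2 * (p ^ 2 * (1 + z ^ 2)))) +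
          ((U * X - p ^ 2) * (1 + z ^ 4 - 2 * z ^ 2 - 2 * (z ^ 2 * (1 + z ^ 2) * (U + X)) +
            4 * (z ^ 4 * (U * X + p ^ 2)))) := by
      unfold F1; ring
    rw [← hp2, sub_self, zero_mul, add_zero] at key
    have h1 : 0 ≤ U + X - 2 * p := by linarith
    have h2 : 0 ≤ (U + X + 2 * p) - 2 * (p ^ 2 * (1 + z ^ 2)) := by
      have h3 : p ^ 2 ≤ p := by nlinarith
      have h4 : z ^ 2 ≤ 1 := by nlinarith
      have h5 : p ^ 2 * (1 + z ^ 2) ≤ 2 * p ^ 2 := by nlinarith [sq_nonneg p]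
      linarith
    have h3 : 0 ≤ z ^ 2 * ((U + X - 2 * p) * ((U + X + 2 * p) - 2 * (p ^ 2 * (1 + z ^ 2)))) := by
      positivity
    linarith
  -- the core
  have hs : Real.sqrt p ^ 2 = p := Real.sq_sqrt hp0
  have hw : Real.sqrt z ^ 2 = z := Real.sq_sqrt hz.le
  have hs4 : Real.sqrt p ^ 4 = p ^ 2 := by
    rw [show (4 : ℕ) = 2 * 2 by norm_num, pow_mul, hs]
  have hw4 : Real.sqrt z ^ 4 = z ^ 2 := by
    rw [show (4 : ℕ) = 2 * 2 by norm_num, pow_mul, hw]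
  have h := S6_core (s := Real.sqrt p) (w := Real.sqrt z) (Real.sqrt_pos.2 hz)
    (Real.sqrt_le_sqrt hzp) (by rw [Real.sqrt_le_one]; exact hp1)
  rw [hs4, hw4, hs, hw] at h
  have h0 : 0 ≤ Real.sqrt z * (1 + p ^ 2 - 2 * (p ^ 2 * z)) := by
    apply mul_nonneg (Real.sqrt_nonneg _)
    have h3 : p ^ 2 ≤ 1 := by nlinarith
    have h4 : p ^ 2 * z ≤ p ^ 2 := by nlinarith [sq_nonneg p]
    nlinarith [sq_nonneg p]
  have hB := pow_le_pow_left₀ h0 h 2
  rw [mul_pow, mul_pow, hs, hw] at hB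
  have e2 : F2 U X z = z * (1 + p ^ 2 - 2 * (p ^ 2 * z)) := by
    rw [hp2]; unfold F2; ring
  rw [e2]
  calc p * (z * (1 + p ^ 2 - 2 * (p ^ 2 * z))) ^ 2
      = (p * z) * (z * (1 + p ^ 2 - 2 * (p ^ 2 * z)) ^ 2) := by ring
    _ ≤ (p * z) * (p * (1 + z ^ 2 - 2 * (p * z ^ 2)) ^ 2) :=
        mul_le_mul_of_nonneg_left hB (by positivity)
    _ = z * (p ^ 2 * (1 + z ^ 2 - 2 * (p * z ^ 2)) ^ 2) := by ring
    _ ≤ _ := mul_le_mul_of_nonneg_left hA hz.le

/-- the symmetric bound. -/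
theorem F_sym {U X z : ℝ} (hz : 0 < z) (hzU : z ≤ U) (hU : U ≤ 1) (hzX : z ≤ X) (hX : X ≤ 1) :
    U * X * F2 U X z ^ 4 ≤ z ^ 2 * (F1 U X z * F1 X U z) ^ 2 := by
  have hU0 : 0 < U := lt_of_lt_of_le hz hzU
  have hX0 : 0 < X := lt_of_lt_of_le hz hzX
  have h := S6_sym hz hzU hU hzX hX
  have h0 : 0 ≤ Real.sqrt (U * X) * F2 U X z ^ 2 := by positivity
  have h1 := pow_le_pow_left₀ h0 h 2
  rw [mul_pow, mul_pow, Real.sq_sqrt (by positivity)] at h1
  calc U * X * F2 U X z ^ 4 = U * X * (F2 U X z ^ 2) ^ 2 := by ring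
    _ ≤ _ := h1

/-- swap the two kinds of marks. -/
def swp (t : ℕ × ℕ × ℕ) : ℕ × ℕ × ℕ := (t.2.1, t.1, t.2.2)

/-- the part of the invariant which belongs to the marked blocks -/
def S6Inv (q : ℝ) (m1 m2 m3 m4 m5 m6 : ℝ) : Prop :=
    0 ≤ m6 ∧ m6 ≤ m5 ∧
    (∀ u t y A B D : ℝ, 0 ≤ u → 0 ≤ t → 0 ≤ y → 0 ≤ A → 0 ≤ B → 0 ≤ D →
      t ≤ q * u → y ≤ 1 → B ≤ A → D ≤ B →
      0 ≤ q * u * A * m1 - t * B * m2 + y * (u * B * m3 - q * t * A * m4 - 2 * q * u * D * m5 +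
        2 * q * t * D * m6)) ∧
    (∀ A B D : ℝ, 0 ≤ A → 0 ≤ B → 0 ≤ D → B ≤ A → D ≤ B →
      0 ≤ q * A * m1 - B * m2 + B * m3 - q * A * m4 - 2 * q * D * m5 + 2 * q * D * m6)

theorem S6_nil (q : ℝ) (hq0 : 0 < q) (hq1 : q < 1) : S6Inv q 1 1 1 1 1 1 := by
  refine ⟨zero_le_one, le_rfl, ?_, ?_⟩
  · intro u t y A B D hu ht hy hA hB hD htu hy1 hBA hDB
    have e : q * u * A * 1 - t * B * 1 + y * (u * B * 1 - q * t * A * 1 - 2 * q * u * D * 1 +
        2 * q * t * D * 1) = (1 - y) * ((q * u - t) * A + t * (A - B)) +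
          y * ((u - t) * (q * (A - D) + (B - D) + D * (1 - q))) := by ring
    rw [e]
    have h1 : 0 ≤ 1 - y := by linarith
    have h2 : 0 ≤ q * u - t := by linarith
    have h3 : 0 ≤ A - B := by linarith
    have h4 : 0 ≤ u - t := by nlinarith
    have h5 : 0 ≤ A - D := by linarith
    have h6 : 0 ≤ B - D := by linarith
    have h7 : 0 ≤ 1 - q := by linarith
    positivity
  · intro A B D _ _ _ _ _
    apply le_of_eq; ring

theorem S6_marked (q : ℝ) (hq0 : 0 < q) (U X z : ℝ) (hz : 0 < z) (hz1 : z < 1)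
    (hzU : z ≤ U) (hU1 : U ≤ 1) (hzX : z ≤ X) (hX1 : X ≤ 1) (hm : z ≤ q * U)
    (m1 m2 m3 m4 m5 m6 : ℝ) (h : S6Inv q m1 m2 m3 m4 m5 m6) :
    S6Inv q (F1 U X z * m1) (F2 U X z * m2) (F3 U X z * m3) (F4 U X z * m4) (F5 U X z * m5)
      (F6 U X z * m6) := by
  obtain ⟨hm6, hm5, hi, hii⟩ := h
  have hX0 : 0 < X := lt_of_lt_of_le hz hzX
  have hU0 : 0 < U := lt_of_lt_of_le hz hzU
  have k6 : 0 ≤ F6 U X z := by
    have : F6 U X z = z ^ 2 * (1 - U * X) + 2 * (U * X * z * (1 - z)) := by unfold F6; ring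
    rw [this]
    have h1 : U * X ≤ 1 := by nlinarith
    have h2 : 0 ≤ 1 - U * X := by linarith
    have h3 : 0 ≤ 1 - z := by linarith
    positivity
  have k56 : F6 U X z ≤ F5 U X z := by
    have : F5 U X z - F6 U X z = z * (U - z) * (1 - X) := by unfold F5 F6; ring
    have h1 : 0 ≤ 1 - X := by linarith
    have h3 : 0 ≤ U - z := by linarith
    have h2 : 0 ≤ z * (U - z) * (1 - X) := by positivity
    linarith
  set A' := U + z ^ 2 - 2 * U * z ^ 2 with hA'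
  set B' := z + z * U - 2 * U * z ^ 2 with hB'
  set D' := 2 * U * z + z ^ 2 - 3 * U * z ^ 2 with hD'
  have f1 : F1 U X z = (1 - X) * U + X * A' := by rw [hA']; unfold F1; ring
  have f2 : F2 U X z = (1 - X) * z + X * B' := by rw [hB']; unfold F2; ring
  have f3 : F3 U X z = (1 - X) * (z * U) + X * B' := by rw [hB']; unfold F3; ring
  have f4 : F4 U X z = (1 - X) * z ^ 2 + X * A' := by rw [hA']; unfold F4; ring
  have f5 : F5 U X z = (1 - X) * (U * z) + X * D' := by rw [hD']; unfold F5; ring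
  have f6 : F6 U X z = (1 - X) * z ^ 2 + X * D' := by rw [hD']; unfold F6; ring
  have hX' : 0 ≤ 1 - X := by linarith
  have hD0 : 0 ≤ D' := by
    have : D' = z * (2 * U * (1 - z) + z * (1 - U)) := by rw [hD']; ring
    rw [this]
    have h3 : 0 ≤ 1 - z := by linarith
    have h4 : 0 ≤ 1 - U := by linarith
    positivity
  have hDB' : D' ≤ B' := by
    have : B' - D' = z * (1 - U) * (1 - z) := by rw [hB', hD']; ring
    have h3 : 0 ≤ 1 - z := by linarith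
    have h4 : 0 ≤ 1 - U := by linarith
    have : 0 ≤ z * (1 - U) * (1 - z) := by positivity
    linarith
  have hBA' : B' ≤ A' := by
    have : A' - B' = (U - z) * (1 - z) := by rw [hB', hA']; ring
    have h3 : 0 ≤ 1 - z := by linarith
    have h4 : 0 ≤ U - z := by linarith
    have : 0 ≤ (U - z) * (1 - z) := by positivity
    linarith
  have hB0 : 0 ≤ B' := hD0.trans hDB'
  have hA0 : 0 ≤ A' := hB0.trans hBA'
  refine ⟨mul_nonneg k6 hm6, mul_le_mul k56 hm5 hm6 (k6.trans k56), ?_, ?_⟩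
  · intro u t y A B D hu ht hy hA hB hD htu hy1 hBA hDB
    have i1 := hi (u * U) (t * z) (y * z) A B D (by positivity) (by positivity) (by positivity)
      hA hB hD (by nlinarith) (by nlinarith) hBA hDB
    have i2 := hi u t y (A * A') (B * B') (D * D') hu ht hy (by positivity) (by positivity)
      (by positivity) htu hy1 (mul_le_mul hBA hBA' hB0 hA) (mul_le_mul hDB hDB' hD0 hB)
    have j1 := mul_nonneg hX' i1
    have j2 := mul_nonneg hX0.le i2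
    have := add_nonneg j1 j2
    rw [f1, f2, f3, f4, f5, f6]
    refine this.trans (le_of_eq ?_)
    ring
  · intro A B D hA hB hD hBA hDB
    have i1 := hi U z z A B D hU0.le hz.le hz.le hA hB hD hm hz1.le hBA hDB
    have i2 := hii (A * A') (B * B') (D * D') (by positivity) (by positivity)
      (by positivity) (mul_le_mul hBA hBA' hB0 hA) (mul_le_mul hDB hDB' hD0 hB)
    have j1 := mul_nonneg hX' i1
    have j2 := mul_nonneg hX0.le i2
    have := add_nonneg j1 j2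
    rw [f1, f2, f3, f4, f5, f6]
    refine this.trans (le_of_eq ?_)
    ring

theorem S6_list (q : ℝ) (hq0 : 0 < q) (hq1 : q < 1) (L : List (ℝ × ℝ × ℝ))
    (hL : ∀ t ∈ L, 0 < t.2.2 ∧ t.2.2 < 1 ∧ t.2.2 ≤ t.1 ∧ t.1 ≤ 1 ∧ t.2.2 ≤ t.2.1 ∧ t.2.1 ≤ 1 ∧
      t.2.2 ≤ q * t.1) :
    S6Inv q (pr F1 L) (pr F2 L) (pr F3 L) (pr F4 L) (pr F5 L) (pr F6 L) := by
  induction L with
  | nil => simpa [pr] using S6_nil q hq0 hq1
  | cons t L ih =>
    have ih' := ih (fun s hs => hL s (List.mem_cons_of_mem _ hs))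
    obtain ⟨h1, h2, h3, h4, h5, h6, h7⟩ := hL t List.mem_cons_self
    simp only [pr_cons]
    exact S6_marked q hq0 _ _ _ h1 h2 h3 h4 h5 h6 h7 _ _ _ _ _ _ ih'

theorem S6_unmarked (L : List (ℝ × ℝ × ℝ))
    (hL : ∀ t ∈ L, 0 < t.2.2 ∧ t.2.2 < 1 ∧ t.1 = t.2.2 ∧ t.2.2 ≤ t.2.1 ∧ t.2.1 ≤ 1) :
    pr F2 L = pr F1 L ∧ pr F4 L = pr F3 L ∧ pr F6 L = pr F5 L ∧ 0 ≤ pr F5 L ∧
      pr F5 L ≤ pr F3 L ∧ pr F3 L ≤ pr F1 L := by
  induction L with
  | nil => simp [pr]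
  | cons t L ih =>
    obtain ⟨i1, i2, i3, i4, i5, i6⟩ := ih (fun s hs => hL s (List.mem_cons_of_mem _ hs))
    obtain ⟨hz, hz1, hU, hzX, hX1⟩ := hL t List.mem_cons_self
    simp only [pr_cons]
    rw [hU]
    generalize t.2.2 = z at *
    generalize t.2.1 = X at *
    have hX0 : 0 < X := lt_of_lt_of_le hz hzX
    have f2 : F2 z X z = F1 z X z := by unfold F2 F1; ring
    have f4 : F4 z X z = F3 z X z := by unfold F3 F4; ring
    have f6 : F6 z X z = F5 z X z := by unfold F5 F6; ring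
    have k5 : 0 ≤ F5 z X z := by
      have : F5 z X z = z ^ 2 * (1 - X * z + 2 * X * (1 - z)) := by unfold F5; ring
      rw [this]
      have h1 : 0 ≤ 1 - X * z := by nlinarith
      have h2 : 0 ≤ 1 - z := by linarith
      positivity
    have k35 : F5 z X z ≤ F3 z X z := by
      have : F3 z X z - F5 z X z = z * X * (1 - z) ^ 2 := by unfold F5 F3; ring
      have h2 : 0 ≤ z * X * (1 - z) ^ 2 := by positivity
      linarith
    have k13 : F3 z X z ≤ F1 z X z := by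
      have : F1 z X z - F3 z X z = z * (1 - X) * (1 - z) := by unfold F1 F3; ring
      have h1 : 0 ≤ 1 - X := by linarith
      have h3 : 0 ≤ 1 - z := by linarith
      have h2 : 0 ≤ z * (1 - X) * (1 - z) := by positivity
      linarith
    rw [i1, i2, i3, f2, f4, f6]
    refine ⟨rfl, rfl, rfl, mul_nonneg k5 i4, mul_le_mul k35 i5 i4 (k5.trans k35),
      mul_le_mul k13 i6 (i4.trans i5) (k5.trans (k35.trans k13))⟩

theorem S6_append (F : ℝ → ℝ → ℝ → ℝ) (L M : List (ℝ × ℝ × ℝ)) :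
    pr F (L ++ M) = pr F L * pr F M := by
  unfold pr; simp

/-- the explicit lower bound -/
theorem S6_lower (q : ℝ) (hq0 : 0 < q) (hq1 : q < 1) (e : ℝ) (he0 : 0 ≤ e)
    (M L : List (ℝ × ℝ × ℝ))
    (hM : ∀ t ∈ M, 0 < t.2.2 ∧ t.2.2 < 1 ∧ t.2.2 ≤ t.1 ∧ t.1 ≤ 1 ∧ t.2.2 ≤ t.2.1 ∧ t.2.1 ≤ 1 ∧
      t.2.2 ≤ q * t.1)
    (hL : ∀ t ∈ L, 0 < t.2.2 ∧ t.2.2 < 1 ∧ t.1 = t.2.2 ∧ t.2.2 ≤ t.2.1 ∧ t.2.1 ≤ 1) :
    (pr F1 L - e * pr F3 L) * (q * pr F1 M - pr F2 M) ≤ DD q e (M ++ L) := by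
  obtain ⟨hm6, hm5, -, hii⟩ := S6_list q hq0 hq1 M hM
  obtain ⟨i1, i2, i3, i4, i5, i6⟩ := S6_unmarked L hL
  have h2 := hii 1 1 1 zero_le_one zero_le_one zero_le_one le_rfl le_rfl
  unfold DD
  simp only [S6_append]
  rw [i1, i2, i3]
  generalize pr F1 L = G1 at *
  generalize pr F3 L = G3 at *
  generalize pr F5 L = G5 at *
  generalize pr F1 M = m1 at *
  generalize pr F2 M = m2 at *
  generalize pr F3 M = m3 at *
  generalize pr F4 M = m4 at *
  generalize pr F5 M = m5 at *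
  generalize pr F6 M = m6 at *
  have hG3 : 0 ≤ G3 := i4.trans i5
  have a2 : 0 ≤ e * G3 * ((m3 - q * m4 - 2 * q * (m5 - m6)) + (q * m1 - m2)) := by
    apply mul_nonneg (mul_nonneg he0 hG3)
    linarith
  have a3 : 0 ≤ e * (2 * q * ((G3 - G5) * (m5 - m6))) := by
    have : 0 ≤ G3 - G5 := by linarith
    have : 0 ≤ m5 - m6 := by linarith
    positivity
  have key : q * (m1 * G1) - m2 * G1 +
      e * (m3 * G3 - q * (m4 * G3) - 2 * q * (m5 * G5) + 2 * q * (m6 * G5)) =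
      (G1 - e * G3) * (q * m1 - m2) +
      e * G3 * ((m3 - q * m4 - 2 * q * (m5 - m6)) + (q * m1 - m2)) +
      e * (2 * q * ((G3 - G5) * (m5 - m6))) := by ring
  rw [key]
  linarith

theorem S6_perm (q e : ℝ) {L L' : List (ℝ × ℝ × ℝ)} (h : L.Perm L') : DD q e L = DD q e L' := by
  have hp : ∀ F : ℝ → ℝ → ℝ → ℝ, pr F L = pr F L' := fun F => by
    unfold pr
    exact (h.map _).prod_eq
  unfold DD
  simp only [hp]

/-- the exchange of the two kinds of marks exchanges `U` and `X` -/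
theorem S6_blk_swp (q : ℝ) (t : ℕ × ℕ × ℕ) :
    blk q (swp t) = ((blk q t).2.1, (blk q t).1, (blk q t).2.2) := rfl

theorem F2_comm' (U X z : ℝ) : F2 U X z = F2 X U z := by
  unfold F2; ring

/-- the final inequality of the bad case -/
theorem S6_num {q f f' g h k κ : ℝ} (hq0 : 0 < q) (hf : 0 ≤ f) (hf' : 0 ≤ f') (hg : 0 ≤ g)
    (hh : 0 ≤ h) (hk : 0 ≤ k) (hκ : 0 ≤ κ) (h1 : k ^ 4 ≤ q ^ 3 * (f * f') ^ 2)
    (h2 : h ^ 2 ≤ q * g ^ 2) :
    0 ≤ κ * (q * (f * g) - k * h) + κ * h * (q * f' - k) := by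
  have h3 : k ^ 2 * h ≤ q ^ 2 * (f * f') * g := by
    have h4 : (k ^ 2 * h) ^ 2 ≤ (q ^ 2 * (f * f') * g) ^ 2 := by
      calc (k ^ 2 * h) ^ 2 = k ^ 4 * h ^ 2 := by ring
        _ ≤ (q ^ 3 * (f * f') ^ 2) * (q * g ^ 2) :=
            mul_le_mul h1 h2 (by positivity) (by positivity)
        _ = (q ^ 2 * (f * f') * g) ^ 2 := by ring
    exact abs_le_of_sq_le_sq' h4 (by positivity) |>.2
  have h5 : 2 * (k * h) ≤ q * (f * g + f' * h) := by
    have h6 : (2 * (k * h)) ^ 2 ≤ (q * (f * g + f' * h)) ^ 2 := by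
      have h7 : (q * (f * g + f' * h)) ^ 2 - (2 * (k * h)) ^ 2 =
          q ^ 2 * (f * g - f' * h) ^ 2 + 4 * h * (q ^ 2 * (f * f') * g - k ^ 2 * h) := by ring
      have h8 : 0 ≤ q ^ 2 * (f * f') * g - k ^ 2 * h := by linarith
      have h9 : 0 ≤ q ^ 2 * (f * g - f' * h) ^ 2 + 4 * h * (q ^ 2 * (f * f') * g - k ^ 2 * h) := by
        positivity
      linarith
    exact abs_le_of_sq_le_sq' h6 (by positivity) |>.2
  have h10 : κ * (q * (f * g) - k * h) + κ * h * (q * f' - k) =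
      κ * (q * (f * g + f' * h) - 2 * (k * h)) := by ring
  rw [h10]
  exact mul_nonneg hκ (by linarith)

/-- the case with a bad block, after a permutation -/
theorem S6_bad (q : ℝ) (hq0 : 0 < q) (hq1 : q < 1) (d1 d2 : ℕ) (hd1 : 2 ≤ d1) (hd2 : 1 ≤ d2)
    (R : List (ℕ × ℕ × ℕ)) (hR : ∀ t ∈ R, t.1 = 0 ∧ t.2.1 = 0 ∧ 1 ≤ t.2.2) :
    0 ≤ DD q q (((1, 2, d1) :: (1, 0, d2) :: R).map (blk q)) +
      DD q q ((((1, 2, d1) :: (1, 0, d2) :: R).map swp).map (blk q)) := by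
  -- the rest
  have hRswp : R.map swp = R := by
    conv_rhs => rw [← List.map_id R]
    refine List.map_congr_left fun t ht => ?_
    obtain ⟨a, b, d⟩ := t
    obtain ⟨h1, h2, -⟩ := hR _ ht
    simp only at h1 h2
    subst h1 h2
    rfl
  have hRL : ∀ t ∈ R.map (blk q), 0 < t.2.2 ∧ t.2.2 < 1 ∧ t.1 = t.2.2 ∧ t.2.2 ≤ t.2.1 ∧
      t.2.1 ≤ 1 := by
    intro t ht
    rw [List.mem_map] at ht
    obtain ⟨s, hs, rfl⟩ := ht
    obtain ⟨h1, h2, h3⟩ := hR s hs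
    obtain ⟨k1, k2, k3, k4, k5, k6, -⟩ := blk_facts q hq0 hq1 s (by omega)
    refine ⟨k1, k2, ?_, k5, k6⟩
    unfold blk
    simp [h1]
  obtain ⟨-, -, -, e4, e5, e6⟩ := S6_unmarked _ hRL
  -- the two marked blocks
  obtain ⟨a1, a2, a3, a4, a5, a6, a7⟩ := blk_facts q hq0 hq1 (1, 2, d1) (by simp; omega)
  obtain ⟨b1, b2, b3, b4, b5, b6, b7⟩ := blk_facts q hq0 hq1 (1, 0, d2) (by simp; omega)
  obtain ⟨c1, c2, c3, c4, c5, c6, c7⟩ := blk_facts q hq0 hq1 (2, 1, d1) (by simp; omega)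
  have ez1 : q ^ d1 = q * q ^ (d1 - 1) := by rw [← pow_succ']; congr 1; omega
  have ez2 : q ^ d2 = q * q ^ (d2 - 1) := by rw [← pow_succ']; congr 1; omega
  have ex1 : q ^ d1 = q ^ 2 * q ^ (d1 - 2) := by rw [← pow_add]; congr 1; omega
  simp only [blk, Nat.sub_zero] at a1 a2 a3 a4 a5 a6 b1 b2 b3 b4 b5 b6
  set U1 := q ^ (d1 - 1) with hU1
  set X1 := q ^ (d1 - 2) with hX1
  set z1 := q ^ d1 with hz1
  set U2 := q ^ (d2 - 1) with hU2
  set z2 := q ^ d2 with hz2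
  have hU1p : 0 < U1 := pow_pos hq0 _
  have hX1p : 0 < X1 := pow_pos hq0 _
  have hU2p : 0 < U2 := pow_pos hq0 _
  -- first side
  have low1 := S6_lower q hq0 hq1 q hq0.le [(U1, X1, z1), (U2, z2, z2)] (R.map (blk q))
    (by
      intro t ht
      simp only [List.mem_cons, List.not_mem_nil, or_false] at ht
      rcases ht with rfl | rfl
      · exact ⟨a1, a2, a3, a4, a5, a6, ez1.le⟩
      · exact ⟨b1, b2, b3, b4, b5, b6, ez2.le⟩) hRL
  -- second side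
  have low2 := S6_lower q hq0 hq1 q hq0.le [(X1, U1, z1)] ((z2, U2, z2) :: R.map (blk q))
    (by
      intro t ht
      simp only [List.mem_cons, List.not_mem_nil, or_false] at ht
      subst ht
      refine ⟨a1, a2, a5, a6, a3, a4, ?_⟩
      change z1 ≤ q * X1
      rw [ex1]
      have : q ^ 2 ≤ q := by nlinarith
      nlinarith)
    (by
      intro t ht
      rw [List.mem_cons] at ht
      rcases ht with rfl | ht
      · exact ⟨b1, b2, rfl, b3, b4⟩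
      · exact hRL t ht)
  have eq1 : ((1, 2, d1) :: (1, 0, d2) :: R).map (blk q) =
      [(U1, X1, z1), (U2, z2, z2)] ++ R.map (blk q) := by
    simp [blk, hU1, hX1, hz1, hU2, hz2]
  have eq2 : (((1, 2, d1) :: (1, 0, d2) :: R).map swp).map (blk q) =
      [(X1, U1, z1)] ++ ((z2, U2, z2) :: R.map (blk q)) := by
    simp only [List.map_cons, hRswp]
    simp [blk, swp, hU1, hX1, hz1, hU2, hz2]
  rw [eq1, eq2]
  refine le_trans ?_ (add_le_add low1 low2)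
  simp only [pr_cons]
  have hnil : ∀ F : ℝ → ℝ → ℝ → ℝ, pr F [] = 1 := fun F => by simp [pr]
  simp only [hnil, mul_one]
  set E1 := pr F1 (R.map (blk q)) with hE1
  set E3 := pr F3 (R.map (blk q)) with hE3
  have hE3 : 0 ≤ E3 := e4.trans e5
  have hκ : 0 ≤ E1 - q * E3 := by nlinarith
  have hg : F1 z2 U2 z2 = F2 U2 z2 z2 := by unfold F1 F2; ring
  have hg3 : F3 z2 U2 z2 ≤ F2 U2 z2 z2 := by
    have : F2 U2 z2 z2 - F3 z2 U2 z2 = z2 * ((1 - z2) * (1 - U2)) := by unfold F2 F3; ring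
    have h1 : 0 ≤ 1 - z2 := by linarith
    have h2 : 0 ≤ 1 - U2 := by linarith
    have h3 : 0 ≤ z2 * ((1 - z2) * (1 - U2)) := by positivity
    linarith
  have nf := F1_nn a1.le a2.le hU1p.le a4 hX1p.le a6
  have nf' := F1_nn a1.le a2.le hX1p.le a6 hU1p.le a4
  have nk := F2_nn a1.le a2.le hU1p.le a4 hX1p.le a6
  have ng := F1_nn b1.le b2.le hU2p.le b4 b1.le b6
  have nh := F2_nn b1.le b2.le hU2p.le b4 b1.le b6
  have hsym := F_sym a1 a3 a4 a5 a6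
  have hk4 : F2 U1 X1 z1 ^ 4 ≤ q ^ 3 * (F1 U1 X1 z1 * F1 X1 U1 z1) ^ 2 := by
    have e : z1 ^ 2 = U1 * X1 * q ^ 3 := by
      calc z1 ^ 2 = z1 * z1 := sq z1
        _ = (q * U1) * (q ^ 2 * X1) := by rw [← ez1, ← ex1]
        _ = U1 * X1 * q ^ 3 := by ring
    rw [e, mul_assoc (U1 * X1)] at hsym
    exact le_of_mul_le_mul_left hsym (by positivity)
  have hsq2 := F_sq b1 (le_refl z2) b3 b4
  have hh2 : F2 U2 z2 z2 ^ 2 ≤ q * F1 U2 z2 z2 ^ 2 := by
    have e : z2 * F1 U2 z2 z2 ^ 2 = U2 * (q * F1 U2 z2 z2 ^ 2) := by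
      rw [← mul_assoc, mul_comm U2 q, ← ez2]
    rw [e] at hsq2
    exact le_of_mul_le_mul_left hsq2 hU2p
  have hUX : U1 ≤ X1 := by
    rw [hU1, hX1]
    exact pow_le_pow_of_le_one hq0.le hq1.le (by omega)
  have hsq1 := F_sq a1 a3 hUX a6
  have hq' : F2 X1 U1 z1 ≤ q * F1 X1 U1 z1 := by
    have e : z1 * F1 X1 U1 z1 ^ 2 = X1 * (q * F1 X1 U1 z1) ^ 2 := by
      rw [mul_pow, ← mul_assoc, mul_comm X1, ← ex1]
    rw [e] at hsq1
    have h1 := le_of_mul_le_mul_left hsq1 hX1p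
    exact abs_le_of_sq_le_sq' h1 (by positivity) |>.2
  have hfin := S6_num hq0 nf nf' ng nh nk hκ hk4 hh2
  rw [hg, F2_comm' X1 U1 z1] at *
  have hlast : (E1 - q * E3) * F2 U2 z2 z2 * (q * F1 X1 U1 z1 - F2 U1 X1 z1) ≤
      (F2 U2 z2 z2 * E1 - q * (F3 z2 U2 z2 * E3)) * (q * F1 X1 U1 z1 - F2 U1 X1 z1) := by
    apply mul_le_mul_of_nonneg_right _ (by linarith)
    have h1 : F3 z2 U2 z2 * E3 ≤ F2 U2 z2 z2 * E3 := mul_le_mul_of_nonneg_right hg3 hE3
    have h2 : q * (F3 z2 U2 z2 * E3) ≤ q * (F2 U2 z2 z2 * E3) :=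
      mul_le_mul_of_nonneg_left h1 hq0.le
    linarith
  linarith

/-- the case with a bad block -/
theorem S6_bad_list (q : ℝ) (hq0 : 0 < q) (hq1 : q < 1) (L : List (ℕ × ℕ × ℕ)) (hL : Legal L)
    (ha : (L.map fun t => t.1).sum = 2) (hb : (L.map fun t => t.2.1).sum = 2)
    (hbad : ∃ t ∈ L, t.1 ≠ 0 ∧ t.1 < t.2.1) :
    0 ≤ DD q q (L.map (blk q)) + DD q q ((L.map swp).map (blk q)) := by
  obtain ⟨C1, hC1, hC1a, hC1b⟩ := hbad
  have p1 := List.perm_cons_erase hC1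
  have sa : C1.1 + ((L.erase C1).map fun t => t.1).sum = 2 := by
    rw [← ha, (p1.map fun t => t.1).sum_eq]; simp
  have sb : C1.2.1 + ((L.erase C1).map fun t => t.2.1).sum = 2 := by
    rw [← hb, (p1.map fun t => t.2.1).sum_eq]; simp
  have c1 : C1.1 = 1 := by omega
  have c2 : C1.2.1 = 2 := by omega
  have sa' : ((L.erase C1).map fun t => t.1).sum = 1 := by omega
  have sb' : ((L.erase C1).map fun t => t.2.1).sum = 0 := by omega
  obtain ⟨C2, hC2, hC2a⟩ : ∃ t ∈ L.erase C1, t.1 ≠ 0 := by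
    by_contra hcon
    push Not at hcon
    have : ((L.erase C1).map fun t => t.1).sum = 0 := by
      apply List.sum_eq_zero
      intro x hx
      obtain ⟨t, ht, rfl⟩ := List.mem_map.mp hx
      exact hcon t ht
    omega
  have p2 := List.perm_cons_erase hC2
  set R := (L.erase C1).erase C2 with hR
  have ra : C2.1 + (R.map fun t => t.1).sum = 1 := by
    rw [← sa', (p2.map fun t => t.1).sum_eq]; simp
  have rb : C2.2.1 + (R.map fun t => t.2.1).sum = 0 := by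
    rw [← sb', (p2.map fun t => t.2.1).sum_eq]; simp
  have pL : L.Perm (C1 :: C2 :: R) := p1.trans (p2.cons C1)
  have hRL : ∀ t ∈ R, t.1 = 0 ∧ t.2.1 = 0 ∧ 1 ≤ t.2.2 := by
    intro t ht
    have h1 : t.1 ≤ (R.map fun t => t.1).sum :=
      List.single_le_sum (fun _ _ => Nat.zero_le _) _ (List.mem_map_of_mem (f := fun t => t.1) ht)
    have h2 : t.2.1 ≤ (R.map fun t => t.2.1).sum :=
      List.single_le_sum (fun _ _ => Nat.zero_le _) _
        (List.mem_map_of_mem (f := fun t => t.2.1) ht)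
    have h3 := (hL t (pL.mem_iff.mpr (by simp [ht]))).2.2
    omega
  obtain ⟨a1, b1, d1⟩ := C1
  obtain ⟨a2, b2, d2⟩ := C2
  simp only at c1 c2 ra rb hC2a
  subst c1 c2
  have e1 : a2 = 1 := by omega
  have e2 : b2 = 0 := by omega
  subst e1 e2
  have l1 := hL _ (pL.mem_iff.mpr (by simp : ((1, 2, d1) : ℕ × ℕ × ℕ) ∈
    (1, 2, d1) :: (1, 0, d2) :: R))
  have l2 := hL _ (pL.mem_iff.mpr (by simp : ((1, 0, d2) : ℕ × ℕ × ℕ) ∈
    (1, 2, d1) :: (1, 0, d2) :: R))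
  have h := S6_bad q hq0 hq1 d1 d2 l1.2.1 l2.2.2 R hRL
  rw [S6_perm q q (pL.map (blk q)), S6_perm q q ((pL.map swp).map (blk q))]
  exact h

theorem DD_sym (q : ℝ) (hq0 : 0 < q) (hq1 : q < 1) (L : List (ℕ × ℕ × ℕ)) (hL : Legal L)
    (ha : (L.map fun t => t.1).sum = 2) (hb : (L.map fun t => t.2.1).sum = 2) :
    0 ≤ DD q q (L.map (blk q)) + DD q q ((L.map swp).map (blk q)) := by
  have hLs : Legal (L.map swp) := by
    intro t ht
    obtain ⟨s, hs, rfl⟩ := List.mem_map.mp ht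
    obtain ⟨h1, h2, h3⟩ := hL s hs
    exact ⟨h2, h1, h3⟩
  have hsa : ((L.map swp).map fun t => t.1).sum = 2 := by
    rw [List.map_map, ← hb]; rfl
  have hsb : ((L.map swp).map fun t => t.2.1).sum = 2 := by
    rw [List.map_map, ← ha]; rfl
  by_cases h1 : ∃ t ∈ L, t.1 ≠ 0 ∧ t.1 < t.2.1
  · exact S6_bad_list q hq0 hq1 L hL ha hb h1
  · by_cases h2 : ∃ t ∈ L.map swp, t.1 ≠ 0 ∧ t.1 < t.2.1
    · have h3 := S6_bad_list q hq0 hq1 (L.map swp) hLs hsa hsb h2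
      have h4 : (L.map swp).map swp = L := by
        rw [List.map_map]
        conv_rhs => rw [← List.map_id L]
        rfl
      rw [h4, add_comm] at h3
      exact h3
    · push Not at h1 h2
      have g1 := DD_two q hq0 hq1 q hq0.le hq1.le L hL (fun t ht => by
        by_cases h : t.1 = 0
        · exact Or.inl h
        · exact Or.inr (h1 t ht h)) ha.ge
      have g2 := DD_two q hq0 hq1 q hq0.le hq1.le (L.map swp) hLs (fun t ht => by
        by_cases h : t.1 = 0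
        · exact Or.inl h
        · exact Or.inr (h2 t ht h)) hsa.ge
      exact add_nonneg g1 g2

end Pool.Agent.H34R2.U
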