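import Pool.Agent.H34R2.U.S4
import Pool.Agent.H34R2.U.S6

/-! TASK S7: the degree-reducing moves. -/

set_option autoImplicit false

namespace Pool.Agent.H34R2.U

open Finset

variable {n : ℕ}

/-- number of `H`-neighbours of `w` in `B`. -/
noncomputable def s7_cnt (H : SimpleGraph (Fin n)) (w : Fin n) (B : Finset (Fin n)) : ℕ :=
  open Classical in (B.filter fun j => H.Adj w j).card

theorem s7_cnt_le (H : SimpleGraph (Fin n)) (w : Fin n) (B : Finset (Fin n)) :
    s7_cnt H w B ≤ B.card := by
  classical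
  unfold s7_cnt
  exact Finset.card_filter_le _ _

theorem s7_tt (H : SimpleGraph (Fin n)) (q : ℝ) (w : Fin n) (B : Finset (Fin n)) :
    tt (Qw H q) w B = q ^ (B.card - s7_cnt H w B) := by
  classical
  have h1 : (B.filter fun j => H.Adj w j).card + (B.filter fun j => ¬ H.Adj w j).card = B.card :=
    Finset.card_filter_add_card_filter_not _
  have h2 : B.card - s7_cnt H w B = (B.filter fun j => ¬ H.Adj w j).card := by
    unfold s7_cnt
    have h3 : (B.filter fun j => H.Adj w j).card = (@Finset.filter _ (fun j => H.Adj w j)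
      (fun a => Classical.propDecidable _) B).card := by congr
    omega
  rw [h2]
  unfold tt
  have h4 : ∀ j ∈ B, Qw H q w j = if ¬ H.Adj w j then q else 1 := by
    intro j _
    unfold Qw
    by_cases h : H.Adj w j <;> simp [h]
  rw [Finset.prod_congr rfl h4, ← Finset.prod_filter, Finset.prod_const]

/-- marks of a block -/
noncomputable def s7_mk (H : SimpleGraph (Fin n)) (u x : Fin n) (B : Finset (Fin n)) :
    ℕ × ℕ × ℕ := (s7_cnt H u B, s7_cnt H x B, B.card)

theorem s7_FF (F : ℝ → ℝ → ℝ → ℝ) (H : SimpleGraph (Fin n)) (q : ℝ) (u x : Fin n)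
    (L : List (Finset (Fin n))) :
    (L.map (FF F H q u x)).prod = pr F ((L.map (s7_mk H u x)).map (blk q)) := by
  unfold pr
  rw [List.map_map, List.map_map]
  congr 1
  apply List.map_congr_left
  intro B _
  simp only [Function.comp, FF, s7_mk, blk, s7_tt]

theorem s7_swp (H : SimpleGraph (Fin n)) (u x : Fin n) (L : List (Finset (Fin n))) :
    L.map (s7_mk H x u) = (L.map (s7_mk H u x)).map swp := by
  rw [List.map_map]
  rfl

theorem s7_sum (H : SimpleGraph (Fin n)) (w : Fin n) (A : Finset (Fin n))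
    (L : List (Finset (Fin n))) (h : IsPart A L) :
    (L.map (s7_cnt H w)).sum = s7_cnt H w A := by
  classical
  induction h with
  | nil => simp [s7_cnt]
  | cons A B L hB hBA hL ih =>
    rw [List.map_cons, List.sum_cons, ih]
    unfold s7_cnt
    rw [← Finset.card_union_of_disjoint]
    · congr 1
      ext j
      simp only [Finset.mem_union, Finset.mem_filter, Finset.mem_sdiff]
      constructor
      · rintro (h | h)
        · exact ⟨hBA h.1, h.2⟩
        · exact ⟨h.1.1, h.2⟩
      · rintro ⟨h1, h2⟩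
        by_cases h : j ∈ B
        · exact Or.inl ⟨h, h2⟩
        · exact Or.inr ⟨⟨h1, h⟩, h2⟩
    · rw [Finset.disjoint_left]
      intro j hj hj'
      simp only [Finset.mem_filter, Finset.mem_sdiff] at hj hj'
      exact hj'.1.2 hj.1

theorem s7_ne (A : Finset (Fin n)) (L : List (Finset (Fin n))) (h : IsPart A L) :
    ∀ B ∈ L, B.Nonempty := by
  induction h with
  | nil => intro B hB; simp at hB
  | cons A B L hB hBA hL ih =>
    intro C hC
    rw [List.mem_cons] at hC
    rcases hC with rfl | hC
    · exact hB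
    · exact ih C hC

theorem s7_legal (H : SimpleGraph (Fin n)) (u x : Fin n) (A : Finset (Fin n))
    (L : List (Finset (Fin n))) (h : IsPart A L) : Legal (L.map (s7_mk H u x)) := by
  intro t ht
  rw [List.mem_map] at ht
  obtain ⟨B, hB, rfl⟩ := ht
  refine ⟨s7_cnt_le _ _ _, s7_cnt_le _ _ _, ?_⟩
  exact Finset.card_pos.mpr (s7_ne A L h B hB)

theorem s7_sum1 (H : SimpleGraph (Fin n)) (u x : Fin n) (A : Finset (Fin n))
    (L : List (Finset (Fin n))) (h : IsPart A L) :
    ((L.map (s7_mk H u x)).map fun t => t.1).sum = s7_cnt H u A := by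
  rw [List.map_map]
  exact s7_sum H u A L h

theorem s7_sum2 (H : SimpleGraph (Fin n)) (u x : Fin n) (A : Finset (Fin n))
    (L : List (Finset (Fin n))) (h : IsPart A L) :
    ((L.map (s7_mk H u x)).map fun t => t.2.1).sum = s7_cnt H x A := by
  rw [List.map_map]
  exact s7_sum H x A L h

theorem s7_dg_eq (H : SimpleGraph (Fin n)) (w z : Fin n) (K : Finset (Fin n)) (hz : z ∉ K)
    (hwz : H.Adj w z) (h : ∀ j, H.Adj w j → j = z ∨ j ∈ K) : dg H w = s7_cnt H w K + 1 := by
  classical
  unfold dg s7_cnt
  rw [← Finset.card_insert_of_notMem (a := z)]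
  · congr 1
    ext j
    simp only [Finset.mem_filter, Finset.mem_univ, true_and, Finset.mem_insert]
    constructor
    · intro hj
      rcases h j hj with h1 | h1
      · exact Or.inl h1
      · exact Or.inr ⟨h1, hj⟩
    · rintro (h1 | h1)
      · rw [h1]; exact hwz
      · exact h1.2
  · intro h1
    exact hz (Finset.mem_filter.mp h1).1

theorem s7_dg_le (H : SimpleGraph (Fin n)) (w z : Fin n) (K : Finset (Fin n)) (hz : z ∉ K)
    (hwz : H.Adj w z) : s7_cnt H w K + 1 ≤ dg H w := by
  classical
  unfold dg s7_cnt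
  rw [← Finset.card_insert_of_notMem (a := z)]
  · apply Finset.card_le_card
    intro j hj
    simp only [Finset.mem_filter, Finset.mem_univ, true_and, Finset.mem_insert] at hj ⊢
    rcases hj with h1 | h1
    · rw [h1]; exact hwz
    · exact h1.2
  · intro h1
    exact hz (Finset.mem_filter.mp h1).1

/-- one-sided move. -/
theorem s1_one (H : SimpleGraph (Fin n)) (q : ℝ) (hq0 : 0 < q) (hq1 : q < 1) (u v x y : Fin n)
    (huv : u ≠ v) (huy : u ≠ y) (hxv : x ≠ v) (hxy : x ≠ y) (hux : H.Adj u x)
    (hv : ∀ j, H.Adj v j ↔ j = y) (hy : ∀ j, H.Adj y j → j = v ∨ j = x)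
    (hd : 3 ≤ dg H u) (hd' : 4 ≤ dg H u ∨ dg H x ≤ 2) :
    RH H q ≤ RH (reloc H u v x) q := by
  classical
  have hdiff := s1_diff H q hq0 u v x y huv huy hxv hxy hux hv hy
  obtain ⟨K, hK⟩ : ∃ K, K = ((((univ.erase u).erase v).erase x).erase y) := ⟨_, rfl⟩
  rw [← hK] at hdiff
  have hmem : ∀ j, j ∈ K ↔ j ≠ u ∧ j ≠ v ∧ j ≠ x ∧ j ≠ y := by
    intro j
    rw [hK]
    simp only [mem_erase, mem_univ, and_true]
    tauto
  have hQ := Qw_wt H hq0.le hq1.le
  have he0 : 0 ≤ Qw H q x y := hQ.2.1 x y
  have he1 : Qw H q x y ≤ 1 := hQ.2.2 x y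
  have hdu : dg H u = s7_cnt H u K + 1 := by
    apply s7_dg_eq H u x K _ hux
    · intro j hj
      by_cases hjx : j = x
      · exact Or.inl hjx
      · right
        rw [hmem]
        refine ⟨hj.ne', ?_, hjx, ?_⟩
        · intro h
          rw [h] at hj
          exact huy ((hv u).mp hj.symm)
        · intro h
          rw [h] at hj
          rcases hy u hj.symm with h1 | h1
          · exact huv h1
          · exact hux.ne h1
    · intro h
      exact ((hmem x).mp h).2.2.1 rfl
  have hdx : s7_cnt H x K + 1 ≤ dg H x := by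
    apply s7_dg_le H x u K _ hux.symm
    intro h
    exact ((hmem u).mp h).1 rfl
  have key := MM_termwise (Finset.univ : Finset (Fin 6)) hQ K
    ![q, -1, Qw H q x y, -(Qw H q x y * q), -(Qw H q x y * (2 * q)), Qw H q x y * (2 * q)]
    ![FF F1 H q u x, FF F2 H q u x, FF F3 H q u x, FF F4 H q u x, FF F5 H q u x,
      FF F6 H q u x] (by
    intro L hL
    have hDD : 0 ≤ DD q (Qw H q x y) ((L.map (s7_mk H u x)).map (blk q)) := by
      have hleg := s7_legal H u x K L hL
      have hsum := s7_sum1 H u x K L hL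
      by_cases h4 : 4 ≤ dg H u
      · apply DD_three q hq0 hq1 _ he0 he1 _ hleg
        rw [hsum]; omega
      · have hx2 : dg H x ≤ 2 := by
          rcases hd' with h | h
          · exact absurd h h4
          · exact h
        apply DD_two q hq0 hq1 _ he0 he1 _ hleg
        · intro t ht
          have h5 : t.2.1 ≤ ((L.map (s7_mk H u x)).map fun t => t.2.1).sum := by
            apply List.single_le_sum
            · intro _ _; exact Nat.zero_le _
            · exact List.mem_map_of_mem ht
          rw [s7_sum2 H u x K L hL] at h5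
          omega
        · rw [hsum]; omega
    simp only [Fin.sum_univ_six, Matrix.cons_val_zero, Matrix.cons_val_one, Matrix.cons_val]
    rw [s7_FF, s7_FF, s7_FF, s7_FF, s7_FF, s7_FF]
    unfold DD at hDD
    linarith)
  simp only [Fin.sum_univ_six, Matrix.cons_val_zero, Matrix.cons_val_one, Matrix.cons_val] at key
  have h2 : 0 ≤ RH (reloc H u v x) q - RH H q := by
    rw [hdiff]
    apply mul_nonneg (mul_nonneg hq0.le (by linarith))
    linarith
  linarith

/-- two-sided move: `v y` is an isolated edge of `H` and `u x` is an edge between two vertices of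
degree three. -/
theorem s1_two (H : SimpleGraph (Fin n)) (q : ℝ) (hq0 : 0 < q) (hq1 : q < 1) (u v x y : Fin n)
    (huv : u ≠ v) (huy : u ≠ y) (hxv : x ≠ v) (hxy : x ≠ y) (hux : H.Adj u x)
    (hv : ∀ j, H.Adj v j ↔ j = y) (hy : ∀ j, H.Adj y j ↔ j = v)
    (hdu : dg H u = 3) (hdx : dg H x = 3) :
    2 * RH H q ≤ RH (reloc H u v x) q + RH (reloc H x v u) q := by
  classical
  have hdiff := s1_diff H q hq0 u v x y huv huy hxv hxy hux hv (fun j hj => Or.inl ((hy j).mp hj))
  have hdiff2 := s1_diff H q hq0 x v u y hxv hxy huv huy hux.symm hv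
    (fun j hj => Or.inl ((hy j).mp hj))
  obtain ⟨K, hK⟩ : ∃ K, K = ((((univ.erase u).erase v).erase x).erase y) := ⟨_, rfl⟩
  have hK2 : ((((univ.erase x).erase v).erase u).erase y) = K := by
    rw [hK]
    ext j
    simp only [mem_erase, mem_univ, and_true]
    tauto
  rw [← hK] at hdiff
  rw [hK2] at hdiff2
  have hmem : ∀ j, j ∈ K ↔ j ≠ u ∧ j ≠ v ∧ j ≠ x ∧ j ≠ y := by
    intro j
    rw [hK]
    simp only [mem_erase, mem_univ, and_true]
    tauto
  have hQ := Qw_wt H hq0.le hq1.le
  have hxy' : ¬ H.Adj x y := fun h => hxv ((hy x).mp h.symm)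
  have huy' : ¬ H.Adj u y := fun h => huv ((hy u).mp h.symm)
  have hxv' : ¬ H.Adj x v := fun h => hxy ((hv x).mp h.symm)
  have huv' : ¬ H.Adj u v := fun h => huy ((hv u).mp h.symm)
  have e1 : Qw H q x y = q := by simp [Qw, hxy']
  have e2 : Qw H q u y = q := by simp [Qw, huy']
  rw [e1] at hdiff
  rw [e2] at hdiff2
  have hcu : dg H u = s7_cnt H u K + 1 := by
    apply s7_dg_eq H u x K _ hux
    · intro j hj
      by_cases hjx : j = x
      · exact Or.inl hjx
      · right
        rw [hmem]
        refine ⟨hj.ne', ?_, hjx, ?_⟩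
        · rintro rfl; exact huv' hj
        · rintro rfl; exact huy' hj
    · intro h
      exact ((hmem x).mp h).2.2.1 rfl
  have hcx : dg H x = s7_cnt H x K + 1 := by
    apply s7_dg_eq H x u K _ hux.symm
    · intro j hj
      by_cases hju : j = u
      · exact Or.inl hju
      · right
        rw [hmem]
        refine ⟨hju, ?_, hj.ne', ?_⟩
        · rintro rfl; exact hxv' hj
        · rintro rfl; exact hxy' hj
    · intro h
      exact ((hmem u).mp h).1 rfl
  have key := MM_termwise (Finset.univ : Finset (Fin 6 ⊕ Fin 6)) hQ K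
    (Sum.elim ![q, -1, q, -(q * q), -(q * (2 * q)), q * (2 * q)]
      ![q, -1, q, -(q * q), -(q * (2 * q)), q * (2 * q)])
    (Sum.elim ![FF F1 H q u x, FF F2 H q u x, FF F3 H q u x, FF F4 H q u x, FF F5 H q u x,
      FF F6 H q u x] ![FF F1 H q x u, FF F2 H q x u, FF F3 H q x u, FF F4 H q x u, FF F5 H q x u,
      FF F6 H q x u]) (by
    intro L hL
    have hDD : 0 ≤ DD q q ((L.map (s7_mk H u x)).map (blk q)) +
        DD q q (((L.map (s7_mk H u x)).map swp).map (blk q)) := by
      apply DD_sym q hq0 hq1 _ (s7_legal H u x K L hL)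
      · rw [s7_sum1 H u x K L hL]; omega
      · rw [s7_sum2 H u x K L hL]; omega
    simp only [Fintype.sum_sum_type, Sum.elim_inl, Sum.elim_inr,
      Fin.sum_univ_six, Matrix.cons_val_zero, Matrix.cons_val_one, Matrix.cons_val]
    simp only [s7_FF]
    rw [s7_swp H u x L]
    unfold DD at hDD
    linarith)
  simp only [Fintype.sum_sum_type, Sum.elim_inl, Sum.elim_inr,
    Fin.sum_univ_six, Matrix.cons_val_zero, Matrix.cons_val_one, Matrix.cons_val] at key
  have h2 : 0 ≤ (RH (reloc H u v x) q - RH H q) + (RH (reloc H x v u) q - RH H q) := by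
    rw [hdiff, hdiff2, ← mul_add]
    apply mul_nonneg (mul_nonneg hq0.le (by linarith))
    linarith
  linarith

end Pool.Agent.H34R2.U
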