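import Pool.Agent.H34R2.U.G11
import Pool.Agent.H34R2.U.K
import Pool.Agent.H34R2.U.S7

/-! TASK G13: structure near the leaves of a graph without improvement. -/

set_option autoImplicit false
set_option linter.unusedSimpArgs false

namespace Pool.Agent.H34R2.U

open Finset

variable {n : ℕ}

/-- isolated edge `v y`. -/
def K2 (H : SimpleGraph (Fin n)) (v y : Fin n) : Prop :=
  (∀ j, H.Adj v j ↔ j = y) ∧ (∀ j, H.Adj y j ↔ j = v)

/-- component that is the path `v y z`. -/
def P3 (H : SimpleGraph (Fin n)) (v y z : Fin n) : Prop :=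
  v ≠ z ∧ (∀ j, H.Adj v j ↔ j = y) ∧ (∀ j, H.Adj y j ↔ j = v ∨ j = z) ∧ (∀ j, H.Adj z j ↔ j = y)

/-- component that is the path `v y z w`. -/
def P4 (H : SimpleGraph (Fin n)) (v y z w : Fin n) : Prop :=
  v ≠ z ∧ y ≠ w ∧ v ≠ w ∧ (∀ j, H.Adj v j ↔ j = y) ∧ (∀ j, H.Adj y j ↔ j = v ∨ j = z) ∧
    (∀ j, H.Adj z j ↔ j = y ∨ j = w) ∧ (∀ j, H.Adj w j ↔ j = z)

/-- pendant path `v y z w` attached at the vertex `t` of degree at least three. -/
def Tail (H : SimpleGraph (Fin n)) (v y z w t : Fin n) : Prop :=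
  v ≠ z ∧ y ≠ w ∧ v ≠ w ∧ z ≠ t ∧ y ≠ t ∧ v ≠ t ∧ (∀ j, H.Adj v j ↔ j = y) ∧
    (∀ j, H.Adj y j ↔ j = v ∨ j = z) ∧ (∀ j, H.Adj z j ↔ j = y ∨ j = w) ∧
    (∀ j, H.Adj w j ↔ j = z ∨ j = t) ∧ 3 ≤ dg H t

/-- the moves used here: P5 (closed), and a pendant path with five inner vertices. -/
def mvP5 : Prop := MoveOK 5 [(0,1),(1,2),(2,3),(3,4)] [[(0,1),(1,2),(0,2),(3,4)]] []
def mvP6 : Prop :=
  MoveOK 6 [(0,1),(1,2),(2,3),(3,4),(4,5)] [[(0,1),(1,2),(0,2),(3,4),(4,5)]] [5]

namespace G13Aux

theorem dg_one {H : SimpleGraph (Fin n)} {v : Fin n} (h : dg H v = 1) :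
    ∃ y, ∀ j, H.Adj v j ↔ j = y := by
  classical
  unfold dg at h
  obtain ⟨y, hy⟩ := card_eq_one.1 h
  refine ⟨y, fun j => ?_⟩
  have := Finset.ext_iff.1 hy j
  simpa using this

theorem dg_one' {H : SimpleGraph (Fin n)} {v y : Fin n} (h : dg H v = 1) (hy : H.Adj v y) (j) :
    H.Adj v j ↔ j = y := by
  obtain ⟨y', hy'⟩ := dg_one h
  rw [hy' j, (hy' y).1 hy]

theorem dg_two {H : SimpleGraph (Fin n)} {y v : Fin n} (h : dg H y = 2) (hv : H.Adj y v) :
    ∃ z, z ≠ v ∧ ∀ j, H.Adj y j ↔ j = v ∨ j = z := by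
  classical
  unfold dg at h
  obtain ⟨a, b, hab, hS⟩ := card_eq_two.1 h
  have hS' : ∀ j, H.Adj y j ↔ j = a ∨ j = b := fun j => by
    have := Finset.ext_iff.1 hS j
    simpa using this
  rcases (hS' v).1 hv with rfl | rfl
  · exact ⟨b, hab.symm, hS'⟩
  · exact ⟨a, hab, fun j => by rw [hS' j, or_comm]⟩

theorem dg_pos {H : SimpleGraph (Fin n)} {y v : Fin n} (hv : H.Adj y v) : 1 ≤ dg H y := by
  classical
  unfold dg
  exact card_pos.2 ⟨v, by simpa using hv⟩

theorem exists_nb {H : SimpleGraph (Fin n)} {y : Fin n} (h : 2 ≤ dg H y) (v : Fin n) :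
    ∃ x, H.Adj y x ∧ x ≠ v := by
  classical
  unfold dg at h
  obtain ⟨x, hx, hxv⟩ := exists_mem_ne (s := univ.filter fun j => H.Adj y j) (by omega) v
  exact ⟨x, by simpa using hx, hxv⟩

end G13Aux

open G13Aux

/-- no isolated vertices. -/
theorem no_isolated (H : SimpleGraph (Fin n)) (q : ℝ) (hq0 : 0 < q) (hq1 : q < 1)
    (hI : ¬ Imp H q) (hsum : n < ∑ v, dg H v) (v : Fin n) : 1 ≤ dg H v := by
  by_contra hv
  have hv0 : dg H v = 0 := by omega
  have hN : ∀ j, ¬ H.Adj v j := fun j h => by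
    have := dg_pos h
    omega
  obtain ⟨u, hu⟩ : ∃ u, 2 ≤ dg H u := by
    by_contra hcon
    push Not at hcon
    have : ∑ v, dg H v ≤ ∑ _v : Fin n, 1 := sum_le_sum fun v _ => by
      have := hcon v
      omega
    simp at this
    omega
  obtain ⟨x, hx, -⟩ := exists_nb hu v
  have huv : u ≠ v := by rintro rfl; omega
  have hxv : x ≠ v := by rintro rfl; exact hN u hx.symm
  exact hI (reloc_imp H q u v x huv hxv hx (hN x) (by omega)
    (kelmans H q hq0 hq1 u v x huv hx (hN x) hxv fun j h => absurd h (hN j)))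

theorem leaf_cases (m5 : mvP5) (m6 : mvP6) (H : SimpleGraph (Fin n)) (q : ℝ) (hq0 : 0 < q)
    (hq1 : q < 1) (hI : ¬ Imp H q) (v : Fin n) (hv : dg H v = 1) :
    (∃ y, K2 H v y) ∨ (∃ y z, P3 H v y z) ∨ (∃ y z w, P4 H v y z w) ∨
      (∃ y z w t, Tail H v y z w t) := by
  obtain ⟨y, hvy⟩ := dg_one hv
  have avy : H.Adj v y := (hvy y).2 rfl
  have nvy : v ≠ y := avy.ne
  rcases (show dg H y = 1 ∨ dg H y = 2 ∨ 3 ≤ dg H y by have := dg_pos avy.symm; omega) with
    h1 | h1 | h1
  · exact Or.inl ⟨y, hvy, dg_one' h1 avy.symm⟩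
  · obtain ⟨z, nzv, hyz⟩ := dg_two h1 avy.symm
    have ayz : H.Adj y z := (hyz z).2 (Or.inr rfl)
    have nyz : y ≠ z := ayz.ne
    rcases (show dg H z = 1 ∨ dg H z = 2 ∨ 3 ≤ dg H z by have := dg_pos ayz.symm; omega) with
      h2 | h2 | h2
    · exact Or.inr (Or.inl ⟨y, z, nzv.symm, hvy, hyz, dg_one' h2 ayz.symm⟩)
    · obtain ⟨w, nwy, hzw⟩ := dg_two h2 ayz.symm
      have azw : H.Adj z w := (hzw w).2 (Or.inr rfl)
      have nzw : z ≠ w := azw.ne
      have nvw : v ≠ w := by
        rintro rfl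
        exact nyz.symm ((hvy z).1 azw.symm)
      rcases (show dg H w = 1 ∨ dg H w = 2 ∨ 3 ≤ dg H w by have := dg_pos azw.symm; omega) with
        h3 | h3 | h3
      · exact Or.inr (Or.inr (Or.inl ⟨y, z, w, nzv.symm, nwy.symm, nvw, hvy, hyz, hzw,
          dg_one' h3 azw.symm⟩))
      · obtain ⟨t, ntz, hwt⟩ := dg_two h3 azw.symm
        have awt : H.Adj w t := (hwt t).2 (Or.inr rfl)
        have nwt : w ≠ t := awt.ne
        have nvt : v ≠ t := by
          rintro rfl
          exact nwy ((hvy w).1 awt.symm)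
        have nyt : y ≠ t := by
          rintro rfl
          exact ((hyz w).1 awt.symm).elim nvw.symm nzw.symm
        rcases (show dg H t = 1 ∨ dg H t = 2 ∨ 3 ≤ dg H t by have := dg_pos awt.symm; omega) with
          h4 | h4 | h4
        · exfalso
          have htw := dg_one' h4 awt.symm
          have hinj : Function.Injective ![v, y, z, w, t] := by
            intro a b hab
            fin_cases a <;> fin_cases b <;>
              simp_all
          refine hI (machine_improve 5 _ _ _ m5 (by simp) ?_ H ⟨![v, y, z, w, t], hinj⟩ ?_ q hq0 hq1)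
          · intro l' hl'
            rw [List.mem_singleton] at hl'
            subst hl'
            decide
          · refine ⟨?_, ?_⟩
            · intro a b
              fin_cases a <;> fin_cases b <;>
                simp [adjL, hvy, hyz, hzw, hwt, htw, nvy, nvy.symm, nyz, nyz.symm, nzv, nzv.symm,
                  nzw, nzw.symm, nwy, nwy.symm, nvw, nvw.symm, nwt, nwt.symm, ntz, ntz.symm,
                  nvt, nvt.symm, nyt, nyt.symm]
            · intro a _ j hj
              fin_cases a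
              · exact ⟨1, ((hvy j).1 hj).symm⟩
              · exact ((hyz j).1 hj).elim (fun h => ⟨0, h.symm⟩) fun h => ⟨2, h.symm⟩
              · exact ((hzw j).1 hj).elim (fun h => ⟨1, h.symm⟩) fun h => ⟨3, h.symm⟩
              · exact ((hwt j).1 hj).elim (fun h => ⟨2, h.symm⟩) fun h => ⟨4, h.symm⟩
              · exact ⟨3, ((htw j).1 hj).symm⟩
        · exfalso
          obtain ⟨s, nsw, hts⟩ := dg_two h4 awt.symm
          have ats : H.Adj t s := (hts s).2 (Or.inr rfl)
          have nts : t ≠ s := ats.ne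
          have nvs : v ≠ s := by
            rintro rfl
            exact nyt.symm ((hvy t).1 ats.symm)
          have nys : y ≠ s := by
            rintro rfl
            exact ((hyz t).1 ats.symm).elim nvt.symm ntz
          have nzs : z ≠ s := by
            rintro rfl
            exact ((hzw t).1 ats.symm).elim nyt.symm nwt.symm
          have hinj : Function.Injective ![v, y, z, w, t, s] := by
            intro a b hab
            fin_cases a <;> fin_cases b <;>
              simp_all
          have as1 : ¬ H.Adj s v := fun h => nys.symm ((hvy s).1 h.symm)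
          have as2 : ¬ H.Adj s y := fun h => ((hyz s).1 h.symm).elim nvs.symm nzs.symm
          have as3 : ¬ H.Adj s z := fun h => ((hzw s).1 h.symm).elim nys.symm nsw
          have as4 : ¬ H.Adj s w := fun h => ((hwt s).1 h.symm).elim nzs.symm nts.symm
          have as5 : H.Adj s t := ats.symm
          refine hI (machine_improve 6 _ _ _ m6 (by simp) ?_ H ⟨![v, y, z, w, t, s], hinj⟩ ?_ q
            hq0 hq1)
          · intro l' hl'
            rw [List.mem_singleton] at hl'
            subst hl'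
            decide
          · refine ⟨?_, ?_⟩
            · intro a b
              fin_cases a <;> fin_cases b <;>
                simp [adjL, hvy, hyz, hzw, hwt, hts, as1, as2, as3, as4, as5, nvy, nvy.symm, nyz,
                  nyz.symm, nzv, nzv.symm,
                  nzw, nzw.symm, nwy, nwy.symm, nvw, nvw.symm, nwt, nwt.symm, ntz, ntz.symm,
                  nvt, nvt.symm, nyt, nyt.symm, nts, nts.symm, nvs, nvs.symm, nys, nys.symm,
                  nzs, nzs.symm, nsw, nsw.symm]
            · intro a ha j hj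
              fin_cases a
              · exact ⟨1, ((hvy j).1 hj).symm⟩
              · exact ((hyz j).1 hj).elim (fun h => ⟨0, h.symm⟩) fun h => ⟨2, h.symm⟩
              · exact ((hzw j).1 hj).elim (fun h => ⟨1, h.symm⟩) fun h => ⟨3, h.symm⟩
              · exact ((hwt j).1 hj).elim (fun h => ⟨2, h.symm⟩) fun h => ⟨4, h.symm⟩
              · exact ((hts j).1 hj).elim (fun h => ⟨3, h.symm⟩) fun h => ⟨5, h.symm⟩
              · exact absurd (List.mem_singleton.2 rfl) ha
        · exact Or.inr (Or.inr (Or.inr ⟨y, z, w, t, nzv.symm, nwy.symm, nvw, ntz.symm, nyt, nvt,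
            hvy, hyz, hzw, hwt, h4⟩))
      · exfalso
        have nvz : ¬ H.Adj v z := fun h => nyz.symm ((hvy z).1 h)
        refine hI (reloc_imp H q w v z nvw.symm nzv azw.symm nvz (by omega)
          (s1_one H q hq0 hq1 w v z y nvw.symm nwy nzv nyz.symm azw.symm hvy
            (fun j h => (hyz j).1 h) h3 (Or.inr h2.le)))
    · exfalso
      obtain ⟨x, hx, nxy⟩ := exists_nb (le_trans (by norm_num) h2) y
      have nxv : x ≠ v := by
        rintro rfl
        exact nyz.symm ((hvy z).1 hx.symm)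
      have nvx : ¬ H.Adj v x := fun h => nxy ((hvy x).1 h)
      exact hI (reloc_imp H q z v x nzv nxv hx nvx (by omega)
        (kelmans H q hq0 hq1 z v x nzv hx nvx nxv fun j h => Or.inr (by
          rw [(hvy j).1 h]; exact ayz.symm)))
  · exfalso
    obtain ⟨x, hx, nxv⟩ := exists_nb (le_trans (by norm_num) h1) v
    have nvx : ¬ H.Adj v x := fun h => hx.ne ((hvy x).1 h).symm
    exact hI (reloc_imp H q y v x nvy.symm nxv hx nvx (by omega)
      (kelmans H q hq0 hq1 y v x nvy.symm hx nvx nxv fun j h => Or.inl ((hvy j).1 h)))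

end Pool.Agent.H34R2.U
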