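import Pool.Agent.H34R2.U.G13

/-! TASK G14: a graph without improvement has maximum degree at most two. -/

set_option autoImplicit false

namespace Pool.Agent.H34R2.U

open Finset

variable {n : ℕ}

def mvP3P4 : Prop := MoveOK 7 [(0,1),(1,2),(3,4),(4,5),(5,6)]
  [[(0,1),(1,2),(0,2),(3,4),(5,6)]] []
def mvP3T : Prop := MoveOK 8 [(0,1),(1,2),(3,4),(4,5),(5,6),(6,7)]
  [[(0,1),(1,2),(0,2),(3,4),(5,6),(6,7)]] [7]
def mvP4P4 : Prop := MoveOK 8 [(0,1),(1,2),(2,3),(4,5),(5,6),(6,7)]
  [[(0,1),(1,2),(0,2),(4,5),(3,6),(6,7)]] []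
def mvP4T : Prop := MoveOK 9 [(0,1),(1,2),(2,3),(4,5),(5,6),(6,7),(7,8)]
  [[(0,1),(1,2),(0,2),(4,5),(3,6),(6,7),(7,8)]] [8]
def mvTT : Prop := MoveOK 9 [(0,1),(1,2),(2,3),(3,8),(4,5),(5,6),(6,7),(7,8)]
  [[(0,1),(1,2),(0,2),(3,8),(4,5),(5,6),(3,7),(7,8)]] [8]
def mv3P3 : Prop := MoveOK 9 [(0,1),(1,2),(3,4),(4,5),(6,7),(7,8)]
  [[(0,1),(1,2),(0,2),(3,4),(5,6),(7,8)]] []

theorem g14_adjL_comm {w : ℕ} (l : List (ℕ × ℕ)) (a b : Fin w) : adjL l a b = adjL l b a := by
  unfold adjL
  congr 1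
  funext e
  rw [Bool.or_comm]

/-- convenient form of `machine_improve`: `L` lists the vertices, `nb` the neighbour lists. -/
theorem g14_improve_of {w : ℕ} (l : List (ℕ × ℕ)) (ls : List (List (ℕ × ℕ))) (mk : List ℕ)
    (hm : MoveOK w l ls mk) (hne : ls ≠ []) (hs : ∀ l' ∈ ls, sideOK w l l' mk = true)
    (H : SimpleGraph (Fin n)) (q : ℝ) (hq0 : 0 < q) (hq1 : q < 1)
    (L : Fin w → Fin n) (hinj : Function.Injective L) (nb : Fin w → List (Fin w))
    (hnb : ∀ a b, adjL l a b = true ↔ b ∈ nb a)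
    (hirr : ∀ a : Fin w, adjL l a a = false)
    (hmk : ∀ a b : Fin w, a.val ∈ mk → b.val ∈ mk → a = b)
    (hcl : ∀ a : Fin w, a.val ∉ mk → ∀ j, H.Adj (L a) j ↔ j ∈ (nb a).map L) : Imp H q := by
  have hcl' : ∀ a : Fin w, a.val ∉ mk → ∀ b, H.Adj (L a) (L b) ↔ adjL l a b = true := by
    intro a ha b
    rw [hcl a ha, hnb, List.mem_map]
    constructor
    · rintro ⟨c, hc, hc2⟩
      rwa [hinj hc2] at hc
    · intro h
      exact ⟨b, h, rfl⟩
  have hconf : Conf H ⟨L, hinj⟩ l mk := by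
    refine ⟨?_, ?_⟩
    · intro a b
      show H.Adj (L a) (L b) ↔ _
      by_cases ha : a.val ∈ mk
      · by_cases hb : b.val ∈ mk
        · rw [hmk a b ha hb, hirr b]
          simp
        · rw [H.adj_comm, hcl' b hb, g14_adjL_comm l a b]
      · exact hcl' a ha b
    · intro a ha j hj
      obtain ⟨b, _, hb⟩ := List.mem_map.1 ((hcl a ha j).1 hj)
      exact ⟨b, hb⟩
  exact machine_improve w l ls mk hm hne hs H ⟨L, hinj⟩ hconf q hq0 hq1

theorem P3.g14facts {H : SimpleGraph (Fin n)} {a b c : Fin n} (h : P3 H a b c) :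
    H.Adj a b ∧ H.Adj b a ∧ H.Adj b c ∧ H.Adj c b := by
  obtain ⟨h11, h12, h13, h14⟩ := h
  exact ⟨(h12 b).2 rfl, (h13 a).2 (Or.inl rfl), (h13 c).2 (Or.inr rfl), (h14 b).2 rfl⟩

theorem P4.g14facts {H : SimpleGraph (Fin n)} {v y z w : Fin n} (h : P4 H v y z w) :
    H.Adj v y ∧ H.Adj y v ∧ H.Adj y z ∧ H.Adj z y ∧ H.Adj z w ∧ H.Adj w z := by
  obtain ⟨h21, h22, h23, h24, h25, h26, h27⟩ := h
  exact ⟨(h24 y).2 rfl, (h25 v).2 (Or.inl rfl), (h25 z).2 (Or.inr rfl), (h26 y).2 (Or.inl rfl),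
    (h26 w).2 (Or.inr rfl), (h27 z).2 rfl⟩

theorem Tail.g14facts {H : SimpleGraph (Fin n)} {v y z w t : Fin n} (h : Tail H v y z w t) :
    H.Adj v y ∧ H.Adj y v ∧ H.Adj y z ∧ H.Adj z y ∧ H.Adj z w ∧ H.Adj w z ∧ H.Adj w t ∧
      H.Adj t w := by
  obtain ⟨-, -, -, -, -, -, h24, h25, h26, h27, _⟩ := h
  exact ⟨(h24 y).2 rfl, (h25 v).2 (Or.inl rfl), (h25 z).2 (Or.inr rfl), (h26 y).2 (Or.inl rfl),
    (h26 w).2 (Or.inr rfl), (h27 z).2 (Or.inl rfl), (h27 t).2 (Or.inr rfl),
    ((h27 t).2 (Or.inr rfl)).symm⟩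

theorem g14_dg_one {H : SimpleGraph (Fin n)} {v y : Fin n} (h : ∀ j, H.Adj v j ↔ j = y) :
    dg H v = 1 := by
  classical
  unfold dg
  rw [Finset.card_eq_one]
  refine ⟨y, ?_⟩
  ext j
  simp [h j]

theorem g14_dg_two {H : SimpleGraph (Fin n)} {v y z : Fin n} (hyz : y ≠ z)
    (h : ∀ j, H.Adj v j ↔ j = y ∨ j = z) : dg H v = 2 := by
  classical
  unfold dg
  rw [Finset.card_eq_two]
  refine ⟨y, z, hyz, ?_⟩
  ext j
  simp [h j]

theorem g14_inj {w : ℕ} (f : Fin w → Fin n) (h : (List.ofFn f).Nodup) :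
    Function.Injective f := List.nodup_ofFn.1 h


theorem no_P3_P4 (m : mvP3P4) (H : SimpleGraph (Fin n)) (q : ℝ) (hq0 : 0 < q) (hq1 : q < 1)
    (hI : ¬ Imp H q) (a b c v y z w : Fin n) (h1 : P3 H a b c) (h2 : P4 H v y z w) : False := by
  apply hI
  obtain ⟨f1, f2, f3, f4⟩ := h1.g14facts
  obtain ⟨g1, g2, g3, g4, g5, g6⟩ := h2.g14facts
  obtain ⟨h11, h12, h13, h14⟩ := h1
  obtain ⟨h21, h22, h23, h24, h25, h26, h27⟩ := h2
  have hne1 := f1.ne
  have hne2 := f3.ne
  have hne3 := g1.ne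
  have hne4 := g3.ne
  have hne5 := g5.ne
  have hac : ∀ x, x = a ∨ x = b ∨ x = c → x ≠ v ∧ x ≠ y ∧ x ≠ z ∧ x ≠ w := by
    intro x hx
    refine ⟨?_, ?_, ?_, ?_⟩ <;> grind
  have ea := hac a (Or.inl rfl)
  have eb := hac b (Or.inr (Or.inl rfl))
  have ec := hac c (Or.inr (Or.inr rfl))
  refine g14_improve_of _ _ _ m (by simp) (by decide +kernel) H q hq0 hq1 ![a,b,c,v,y,z,w]
    (g14_inj _ ?_) ![[1],[0,2],[1],[4],[3,5],[4,6],[5]] (by decide +kernel)
    (by decide +kernel) (by decide +kernel) ?_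
  · show [a,b,c,v,y,z,w].Nodup
    simp only [List.nodup_cons, List.mem_cons, List.not_mem_nil, or_false, not_or, not_false_iff,
      List.nodup_nil, and_true]
    tauto
  · intro i hi j
    fin_cases i
    · show H.Adj a j ↔ j ∈ [b]
      simp only [List.mem_cons, List.not_mem_nil, or_false]; exact h12 j
    · show H.Adj b j ↔ j ∈ [a, c]
      simp only [List.mem_cons, List.not_mem_nil, or_false]; exact h13 j
    · show H.Adj c j ↔ j ∈ [b]
      simp only [List.mem_cons, List.not_mem_nil, or_false]; exact h14 j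
    · show H.Adj v j ↔ j ∈ [y]
      simp only [List.mem_cons, List.not_mem_nil, or_false]; exact h24 j
    · show H.Adj y j ↔ j ∈ [v, z]
      simp only [List.mem_cons, List.not_mem_nil, or_false]; exact h25 j
    · show H.Adj z j ↔ j ∈ [y, w]
      simp only [List.mem_cons, List.not_mem_nil, or_false]; exact h26 j
    · show H.Adj w j ↔ j ∈ [z]
      simp only [List.mem_cons, List.not_mem_nil, or_false]; exact h27 j


theorem no_P3_Tail (m : mvP3T) (H : SimpleGraph (Fin n)) (q : ℝ) (hq0 : 0 < q) (hq1 : q < 1)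
    (hI : ¬ Imp H q) (a b c v y z w t : Fin n) (h1 : P3 H a b c) (h2 : Tail H v y z w t) :
    False := by
  apply hI
  obtain ⟨f1, f2, f3, f4⟩ := h1.g14facts
  obtain ⟨g1, g2, g3, g4, g5, g6, g7, g8⟩ := h2.g14facts
  obtain ⟨h11, h12, h13, h14⟩ := h1
  obtain ⟨h21, h22, h23, h21', h22', h23', h24, h25, h26, h27, hdt⟩ := h2
  have da := g14_dg_one h12
  have db := g14_dg_two h11 h13
  have dc := g14_dg_one h14
  have hne1 := f1.ne
  have hne2 := f3.ne
  have hne3 := g1.ne
  have hne4 := g3.ne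
  have hne5 := g5.ne
  have hne6 := g7.ne
  have hat : a ≠ t := by rintro rfl; omega
  have hbt : b ≠ t := by rintro rfl; omega
  have hct : c ≠ t := by rintro rfl; omega
  have hac : ∀ x, x = a ∨ x = b ∨ x = c → x ≠ v ∧ x ≠ y ∧ x ≠ z ∧ x ≠ w := by
    intro x hx
    refine ⟨?_, ?_, ?_, ?_⟩ <;> grind
  have ea := hac a (Or.inl rfl)
  have eb := hac b (Or.inr (Or.inl rfl))
  have ec := hac c (Or.inr (Or.inr rfl))
  refine g14_improve_of _ _ _ m (by simp) (by decide +kernel) H q hq0 hq1 ![a,b,c,v,y,z,w,t]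
    (g14_inj _ ?_) ![[1],[0,2],[1],[4],[3,5],[4,6],[5,7],[6]] (by decide +kernel)
    (by decide +kernel) (by decide +kernel) ?_
  · show [a,b,c,v,y,z,w,t].Nodup
    simp only [List.nodup_cons, List.mem_cons, List.not_mem_nil, or_false, not_or, not_false_iff,
      List.nodup_nil, and_true]
    tauto
  · intro i hi j
    fin_cases i
    · show H.Adj a j ↔ j ∈ [b]
      simp only [List.mem_cons, List.not_mem_nil, or_false]; exact h12 j
    · show H.Adj b j ↔ j ∈ [a, c]
      simp only [List.mem_cons, List.not_mem_nil, or_false]; exact h13 j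
    · show H.Adj c j ↔ j ∈ [b]
      simp only [List.mem_cons, List.not_mem_nil, or_false]; exact h14 j
    · show H.Adj v j ↔ j ∈ [y]
      simp only [List.mem_cons, List.not_mem_nil, or_false]; exact h24 j
    · show H.Adj y j ↔ j ∈ [v, z]
      simp only [List.mem_cons, List.not_mem_nil, or_false]; exact h25 j
    · show H.Adj z j ↔ j ∈ [y, w]
      simp only [List.mem_cons, List.not_mem_nil, or_false]; exact h26 j
    · show H.Adj w j ↔ j ∈ [z, t]
      simp only [List.mem_cons, List.not_mem_nil, or_false]; exact h27 j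
    · exact absurd hi (by simp)

theorem no_P4_P4 (m : mvP4P4) (H : SimpleGraph (Fin n)) (q : ℝ) (hq0 : 0 < q) (hq1 : q < 1)
    (hI : ¬ Imp H q) (a b c d v y z w : Fin n) (h1 : P4 H a b c d) (h2 : P4 H v y z w)
    (hne : v ≠ a) (hne' : v ≠ d) : False := by
  apply hI
  obtain ⟨f1, f2, f3, f4, f5, f6⟩ := h1.g14facts
  obtain ⟨g1, g2, g3, g4, g5, g6⟩ := h2.g14facts
  obtain ⟨h11, h12, h13, h14, h15, h16, h17⟩ := h1
  obtain ⟨h21, h22, h23, h24, h25, h26, h27⟩ := h2
  have da := g14_dg_one h14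
  have db := g14_dg_two h11 h15
  have dc := g14_dg_two h12 h16
  have dd := g14_dg_one h17
  have dv := g14_dg_one h24
  have dy := g14_dg_two h21 h25
  have dz := g14_dg_two h22 h26
  have dw := g14_dg_one h27
  have hne1 := f1.ne
  have hne2 := f3.ne
  have hne6 := f5.ne
  have hne3 := g1.ne
  have hne4 := g3.ne
  have hne5 := g5.ne
  have k1 : b ≠ v := by rintro rfl; omega
  have k2 : c ≠ v := by rintro rfl; omega
  have k3 : a ≠ y := by rintro rfl; omega
  have k4 : d ≠ y := by rintro rfl; omega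
  have k5 : a ≠ z := by rintro rfl; omega
  have k6 : d ≠ z := by rintro rfl; omega
  have k7 : b ≠ w := by rintro rfl; omega
  have k8 : c ≠ w := by rintro rfl; omega
  have hby : b ≠ y := by grind
  have hcy : c ≠ y := by grind
  have hbz : b ≠ z := by grind
  have hcz : c ≠ z := by grind
  have haw : a ≠ w := by grind
  have hdw : d ≠ w := by grind
  refine g14_improve_of _ _ _ m (by simp) (by decide +kernel) H q hq0 hq1 ![a,b,c,d,v,y,z,w]
    (g14_inj _ ?_) ![[1],[0,2],[1,3],[2],[5],[4,6],[5,7],[6]] (by decide +kernel)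
    (by decide +kernel) (by decide +kernel) ?_
  · show [a,b,c,d,v,y,z,w].Nodup
    simp only [List.nodup_cons, List.mem_cons, List.not_mem_nil, or_false, not_or, not_false_iff,
      List.nodup_nil, and_true]
    tauto
  · intro i hi j
    fin_cases i
    · show H.Adj a j ↔ j ∈ [b]
      simp only [List.mem_cons, List.not_mem_nil, or_false]; exact h14 j
    · show H.Adj b j ↔ j ∈ [a, c]
      simp only [List.mem_cons, List.not_mem_nil, or_false]; exact h15 j
    · show H.Adj c j ↔ j ∈ [b, d]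
      simp only [List.mem_cons, List.not_mem_nil, or_false]; exact h16 j
    · show H.Adj d j ↔ j ∈ [c]
      simp only [List.mem_cons, List.not_mem_nil, or_false]; exact h17 j
    · show H.Adj v j ↔ j ∈ [y]
      simp only [List.mem_cons, List.not_mem_nil, or_false]; exact h24 j
    · show H.Adj y j ↔ j ∈ [v, z]
      simp only [List.mem_cons, List.not_mem_nil, or_false]; exact h25 j
    · show H.Adj z j ↔ j ∈ [y, w]
      simp only [List.mem_cons, List.not_mem_nil, or_false]; exact h26 j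
    · show H.Adj w j ↔ j ∈ [z]
      simp only [List.mem_cons, List.not_mem_nil, or_false]; exact h27 j

theorem no_P4_Tail (m : mvP4T) (H : SimpleGraph (Fin n)) (q : ℝ) (hq0 : 0 < q) (hq1 : q < 1)
    (hI : ¬ Imp H q) (a b c d v y z w t : Fin n) (h1 : P4 H a b c d) (h2 : Tail H v y z w t) :
    False := by
  apply hI
  obtain ⟨f1, f2, f3, f4, f5, f6⟩ := h1.g14facts
  obtain ⟨g1, g2, g3, g4, g5, g6, g7, g8⟩ := h2.g14facts
  obtain ⟨h11, h12, h13, h14, h15, h16, h17⟩ := h1
  obtain ⟨h21, h22, h23, h21', h22', h23', h24, h25, h26, h27, hdt⟩ := h2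
  have da := g14_dg_one h14
  have db := g14_dg_two h11 h15
  have dc := g14_dg_two h12 h16
  have dd := g14_dg_one h17
  have dv := g14_dg_one h24
  have dy := g14_dg_two h21 h25
  have dz := g14_dg_two h22 h26
  have dw := g14_dg_two h21' h27
  have hne1 := f1.ne
  have hne2 := f3.ne
  have hne6 := f5.ne
  have hne3 := g1.ne
  have hne4 := g3.ne
  have hne5 := g5.ne
  have hne7 := g7.ne
  have hat : a ≠ t := by rintro rfl; omega
  have hbt : b ≠ t := by rintro rfl; omega
  have hct : c ≠ t := by rintro rfl; omega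
  have hddt : d ≠ t := by rintro rfl; omega
  have k1 : b ≠ v := by rintro rfl; omega
  have k2 : c ≠ v := by rintro rfl; omega
  have k3 : a ≠ y := by rintro rfl; omega
  have k4 : d ≠ y := by rintro rfl; omega
  have k5 : a ≠ z := by rintro rfl; omega
  have k6 : d ≠ z := by rintro rfl; omega
  have k7 : a ≠ w := by rintro rfl; omega
  have k8 : d ≠ w := by rintro rfl; omega
  have hbw : b ≠ w := by grind
  have hcw : c ≠ w := by grind
  have hbz : b ≠ z := by grind
  have hcz : c ≠ z := by grind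
  have hby : b ≠ y := by grind
  have hcy : c ≠ y := by grind
  have hav : a ≠ v := by grind
  have hdv : d ≠ v := by grind
  refine g14_improve_of _ _ _ m (by simp) (by decide +kernel) H q hq0 hq1 ![a,b,c,d,v,y,z,w,t]
    (g14_inj _ ?_) ![[1],[0,2],[1,3],[2],[5],[4,6],[5,7],[6,8],[7]] (by decide +kernel)
    (by decide +kernel) (by decide +kernel) ?_
  · show [a,b,c,d,v,y,z,w,t].Nodup
    simp only [List.nodup_cons, List.mem_cons, List.not_mem_nil, or_false, not_or, not_false_iff,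
      List.nodup_nil, and_true]
    tauto
  · intro i hi j
    fin_cases i
    · show H.Adj a j ↔ j ∈ [b]
      simp only [List.mem_cons, List.not_mem_nil, or_false]; exact h14 j
    · show H.Adj b j ↔ j ∈ [a, c]
      simp only [List.mem_cons, List.not_mem_nil, or_false]; exact h15 j
    · show H.Adj c j ↔ j ∈ [b, d]
      simp only [List.mem_cons, List.not_mem_nil, or_false]; exact h16 j
    · show H.Adj d j ↔ j ∈ [c]
      simp only [List.mem_cons, List.not_mem_nil, or_false]; exact h17 j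
    · show H.Adj v j ↔ j ∈ [y]
      simp only [List.mem_cons, List.not_mem_nil, or_false]; exact h24 j
    · show H.Adj y j ↔ j ∈ [v, z]
      simp only [List.mem_cons, List.not_mem_nil, or_false]; exact h25 j
    · show H.Adj z j ↔ j ∈ [y, w]
      simp only [List.mem_cons, List.not_mem_nil, or_false]; exact h26 j
    · show H.Adj w j ↔ j ∈ [z, t]
      simp only [List.mem_cons, List.not_mem_nil, or_false]; exact h27 j
    · exact absurd hi (by simp)

/-- two tails at the same host coincide. -/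
theorem no_Tail_Tail (m : mvTT) (H : SimpleGraph (Fin n)) (q : ℝ) (hq0 : 0 < q) (hq1 : q < 1)
    (hI : ¬ Imp H q) (a b c d v y z w t : Fin n) (h1 : Tail H a b c d t)
    (h2 : Tail H v y z w t) : a = v := by
  by_contra hav
  apply hI
  obtain ⟨f1, f2, f3, f4, f5, f6, f7, f8⟩ := h1.g14facts
  obtain ⟨g1, g2, g3, g4, g5, g6, g7, g8⟩ := h2.g14facts
  obtain ⟨h11, h12, h13, h11', h12', h13', h14, h15, h16, h17, -⟩ := h1
  obtain ⟨h21, h22, h23, h21', h22', h23', h24, h25, h26, h27, hdt⟩ := h2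
  have da := g14_dg_one h14
  have db := g14_dg_two h11 h15
  have dc := g14_dg_two h12 h16
  have dd := g14_dg_two h11' h17
  have dv := g14_dg_one h24
  have dy := g14_dg_two h21 h25
  have dz := g14_dg_two h22 h26
  have dw := g14_dg_two h21' h27
  have hne1 := f1.ne
  have hne2 := f3.ne
  have hne6 := f5.ne
  have hne8 := f7.ne
  have hne3 := g1.ne
  have hne4 := g3.ne
  have hne5 := g5.ne
  have hne7 := g7.ne
  have k1 : b ≠ v := by rintro rfl; omega
  have k2 : c ≠ v := by rintro rfl; omega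
  have k2' : d ≠ v := by rintro rfl; omega
  have k3 : a ≠ y := by rintro rfl; omega
  have k5 : a ≠ z := by rintro rfl; omega
  have k7 : a ≠ w := by rintro rfl; omega
  have hby : b ≠ y := by grind
  have hbz : b ≠ z := by grind
  have hbw : b ≠ w := by grind
  have hcy : c ≠ y := by grind
  have hcz : c ≠ z := by grind
  have hcw : c ≠ w := by grind
  have hdy : d ≠ y := by grind
  have hdz : d ≠ z := by grind
  have hdw : d ≠ w := by grind
  refine g14_improve_of _ _ _ m (by simp) (by decide +kernel) H q hq0 hq1 ![a,b,c,d,v,y,z,w,t]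
    (g14_inj _ ?_) ![[1],[0,2],[1,3],[2,8],[5],[4,6],[5,7],[6,8],[3,7]] (by decide +kernel)
    (by decide +kernel) (by decide +kernel) ?_
  · show [a,b,c,d,v,y,z,w,t].Nodup
    simp only [List.nodup_cons, List.mem_cons, List.not_mem_nil, or_false, not_or, not_false_iff,
      List.nodup_nil, and_true]
    tauto
  · intro i hi j
    fin_cases i
    · show H.Adj a j ↔ j ∈ [b]
      simp only [List.mem_cons, List.not_mem_nil, or_false]; exact h14 j
    · show H.Adj b j ↔ j ∈ [a, c]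
      simp only [List.mem_cons, List.not_mem_nil, or_false]; exact h15 j
    · show H.Adj c j ↔ j ∈ [b, d]
      simp only [List.mem_cons, List.not_mem_nil, or_false]; exact h16 j
    · show H.Adj d j ↔ j ∈ [c, t]
      simp only [List.mem_cons, List.not_mem_nil, or_false]; exact h17 j
    · show H.Adj v j ↔ j ∈ [y]
      simp only [List.mem_cons, List.not_mem_nil, or_false]; exact h24 j
    · show H.Adj y j ↔ j ∈ [v, z]
      simp only [List.mem_cons, List.not_mem_nil, or_false]; exact h25 j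
    · show H.Adj z j ↔ j ∈ [y, w]
      simp only [List.mem_cons, List.not_mem_nil, or_false]; exact h26 j
    · show H.Adj w j ↔ j ∈ [z, t]
      simp only [List.mem_cons, List.not_mem_nil, or_false]; exact h27 j
    · exact absurd hi (by simp)

theorem g14_P3_disj {H : SimpleGraph (Fin n)} {a b c d e f : Fin n} (h1 : P3 H a b c)
    (h2 : P3 H d e f) (hbe : b ≠ e) : ∀ x, x = a ∨ x = b ∨ x = c → x ≠ d ∧ x ≠ e ∧ x ≠ f := by
  obtain ⟨f1, f2, f3, f4⟩ := h1.g14facts
  obtain ⟨g1, g2, g3, g4⟩ := h2.g14facts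
  obtain ⟨h11, h12, h13, h14⟩ := h1
  obtain ⟨h21, h22, h23, h24⟩ := h2
  intro x hx
  refine ⟨?_, ?_, ?_⟩ <;> grind

/-- three path components with three vertices. -/
theorem no_3P3 (m : mv3P3) (H : SimpleGraph (Fin n)) (q : ℝ) (hq0 : 0 < q) (hq1 : q < 1)
    (hI : ¬ Imp H q) (a b c d e f g h i : Fin n) (h1 : P3 H a b c) (h2 : P3 H d e f)
    (h3 : P3 H g h i) (h12 : b ≠ e) (h13 : b ≠ h) (h23 : e ≠ h) : False := by
  apply hI
  have d12 := g14_P3_disj h1 h2 h12
  have d13 := g14_P3_disj h1 h3 h13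
  have d23 := g14_P3_disj h2 h3 h23
  have e1 := d12 a (Or.inl rfl)
  have e2 := d12 b (Or.inr (Or.inl rfl))
  have e3 := d12 c (Or.inr (Or.inr rfl))
  have e4 := d13 a (Or.inl rfl)
  have e5 := d13 b (Or.inr (Or.inl rfl))
  have e6 := d13 c (Or.inr (Or.inr rfl))
  have e7 := d23 d (Or.inl rfl)
  have e8 := d23 e (Or.inr (Or.inl rfl))
  have e9 := d23 f (Or.inr (Or.inr rfl))
  have hne1 := h1.g14facts.1.ne
  have hne2 := h1.g14facts.2.2.1.ne
  have hne3 := h2.g14facts.1.ne
  have hne4 := h2.g14facts.2.2.1.ne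
  have hne5 := h3.g14facts.1.ne
  have hne6 := h3.g14facts.2.2.1.ne
  obtain ⟨h11, h12, h13, h14⟩ := h1
  obtain ⟨h21, h22, h23, h24⟩ := h2
  obtain ⟨h31, h32, h33, h34⟩ := h3
  refine g14_improve_of _ _ _ m (by simp) (by decide +kernel) H q hq0 hq1 ![a,b,c,d,e,f,g,h,i]
    (g14_inj _ ?_) ![[1],[0,2],[1],[4],[3,5],[4],[7],[6,8],[7]] (by decide +kernel)
    (by decide +kernel) (by decide +kernel) ?_
  · show [a,b,c,d,e,f,g,h,i].Nodup
    simp only [List.nodup_cons, List.mem_cons, List.not_mem_nil, or_false, not_or, not_false_iff,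
      List.nodup_nil, and_true]
    tauto
  · intro k hk j
    fin_cases k
    · show H.Adj a j ↔ j ∈ [b]
      simp only [List.mem_cons, List.not_mem_nil, or_false]; exact h12 j
    · show H.Adj b j ↔ j ∈ [a, c]
      simp only [List.mem_cons, List.not_mem_nil, or_false]; exact h13 j
    · show H.Adj c j ↔ j ∈ [b]
      simp only [List.mem_cons, List.not_mem_nil, or_false]; exact h14 j
    · show H.Adj d j ↔ j ∈ [e]
      simp only [List.mem_cons, List.not_mem_nil, or_false]; exact h22 j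
    · show H.Adj e j ↔ j ∈ [d, f]
      simp only [List.mem_cons, List.not_mem_nil, or_false]; exact h23 j
    · show H.Adj f j ↔ j ∈ [e]
      simp only [List.mem_cons, List.not_mem_nil, or_false]; exact h24 j
    · show H.Adj g j ↔ j ∈ [h]
      simp only [List.mem_cons, List.not_mem_nil, or_false]; exact h32 j
    · show H.Adj h j ↔ j ∈ [g, i]
      simp only [List.mem_cons, List.not_mem_nil, or_false]; exact h33 j
    · show H.Adj i j ↔ j ∈ [h]
      simp only [List.mem_cons, List.not_mem_nil, or_false]; exact h34 j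


/-- if some vertex has degree at least three there is an isolated edge. -/
theorem exists_K2 (m5 : mvP5) (m6 : mvP6) (m34 : mvP3P4) (m3T : mvP3T) (m44 : mvP4P4)
    (m4T : mvP4T) (mTT : mvTT) (m333 : mv3P3) (H : SimpleGraph (Fin n)) (q : ℝ) (hq0 : 0 < q)
    (hq1 : q < 1) (hI : ¬ Imp H q) (a : ℕ) (ha : 1 ≤ a) (han : a + 4 ≤ n)
    (hsum : ∑ v, dg H v = n + a) (u : Fin n) (hu : 3 ≤ dg H u) : ∃ v y, K2 H v y := by
  classical
  by_contra hK
  have hno : ∀ v, 1 ≤ dg H v := fun v => no_isolated H q hq0 hq1 hI (by omega) v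
  set Lf : Finset (Fin n) := univ.filter fun v => dg H v = 1 with hLf
  set Bg : Finset (Fin n) := univ.filter fun v => 3 ≤ dg H v with hBg
  have hB1 : 1 ≤ Bg.card := Finset.card_pos.2 ⟨u, by simp [hBg, hu]⟩
  have hcount : n + Bg.card ≤ a + Lf.card := by
    have h1 : ∀ v : Fin n, 2 + (if 3 ≤ dg H v then 1 else 0) ≤
        dg H v + (if dg H v = 1 then 1 else 0) := by
      intro v
      have := hno v
      split_ifs <;> omega
    have h2 := Finset.sum_le_sum (fun v (_ : v ∈ (univ : Finset (Fin n))) => h1 v)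
    rw [Finset.sum_add_distrib, Finset.sum_add_distrib, hsum, Finset.sum_const, Finset.card_univ,
      Fintype.card_fin, smul_eq_mul] at h2
    have h3 : Lf.card = ∑ v : Fin n, if dg H v = 1 then 1 else 0 := by
      rw [hLf, Finset.card_filter]
    have h4 : Bg.card = ∑ v : Fin n, if 3 ≤ dg H v then 1 else 0 := by
      rw [hBg, Finset.card_filter]
    omega
  have hL5 : Bg.card + 4 ≤ Lf.card := by omega
  have hcases : ∀ v ∈ Lf, (∃ y z, P3 H v y z) ∨ (∃ y z w, P4 H v y z w) ∨
      (∃ y z w t, Tail H v y z w t) := by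
    intro v hv
    rw [hLf, Finset.mem_filter] at hv
    rcases leaf_cases m5 m6 H q hq0 hq1 hI v hv.2 with ⟨y, h⟩ | h
    · exact absurd ⟨v, y, h⟩ hK
    · exact h
  by_cases hP3 : ∃ a0 b0 c0, P3 H a0 b0 c0
  · obtain ⟨a0, b0, c0, h0⟩ := hP3
    have hall : ∀ v ∈ Lf, ∃ y z, P3 H v y z := by
      intro v hv
      rcases hcases v hv with h | ⟨y, z, w, h⟩ | ⟨y, z, w, t, h⟩
      · exact h
      · exact (no_P3_P4 m34 H q hq0 hq1 hI a0 b0 c0 v y z w h0 h).elim
      · exact (no_P3_Tail m3T H q hq0 hq1 hI a0 b0 c0 v y z w t h0 h).elim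
    by_cases h2 : ∃ d e f, P3 H d e f ∧ b0 ≠ e
    · obtain ⟨d, e, f, h1, hne⟩ := h2
      have hsub : Lf ⊆ {a0, c0, d, f} := by
        intro v hv
        obtain ⟨y, z, h⟩ := hall v hv
        simp only [Finset.mem_insert, Finset.mem_singleton]
        by_cases hy : b0 = y
        · subst hy
          rcases (h0.2.2.1 v).1 h.g14facts.2.1 with h3 | h3
          · exact Or.inl h3
          · exact Or.inr (Or.inl h3)
        · by_cases hy2 : e = y
          · subst hy2
            rcases (h1.2.2.1 v).1 h.g14facts.2.1 with h3 | h3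
            · exact Or.inr (Or.inr (Or.inl h3))
            · exact Or.inr (Or.inr (Or.inr h3))
          · exact (no_3P3 m333 H q hq0 hq1 hI a0 b0 c0 d e f v y z h0 h1 h hne hy hy2).elim
      have := Finset.card_le_card hsub
      have h4 : ({a0, c0, d, f} : Finset (Fin n)).card ≤ 4 := Finset.card_le_four
      omega
    · have hsub : Lf ⊆ {a0, c0} := by
        intro v hv
        obtain ⟨y, z, h⟩ := hall v hv
        have hy : b0 = y := by
          by_contra hy
          exact h2 ⟨v, y, z, h, hy⟩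
        subst hy
        simp only [Finset.mem_insert, Finset.mem_singleton]
        exact (h0.2.2.1 v).1 h.g14facts.2.1
      have := Finset.card_le_card hsub
      have h4 : ({a0, c0} : Finset (Fin n)).card ≤ 2 := Finset.card_le_two
      omega
  · by_cases hP4 : ∃ a0 b0 c0 d0, P4 H a0 b0 c0 d0
    · obtain ⟨a0, b0, c0, d0, h0⟩ := hP4
      have hsub : Lf ⊆ {a0, d0} := by
        intro v hv
        simp only [Finset.mem_insert, Finset.mem_singleton]
        rcases hcases v hv with ⟨y, z, h⟩ | ⟨y, z, w, h⟩ | ⟨y, z, w, t, h⟩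
        · exact absurd ⟨v, y, z, h⟩ hP3
        · by_contra hne
          push Not at hne
          exact no_P4_P4 m44 H q hq0 hq1 hI a0 b0 c0 d0 v y z w h0 h hne.1 hne.2
        · exact (no_P4_Tail m4T H q hq0 hq1 hI a0 b0 c0 d0 v y z w t h0 h).elim
      have := Finset.card_le_card hsub
      have h4 : ({a0, d0} : Finset (Fin n)).card ≤ 2 := Finset.card_le_two
      omega
    · have hall : ∀ v ∈ Lf, ∃ t y z w, Tail H v y z w t := by
        intro v hv
        rcases hcases v hv with ⟨y, z, h⟩ | ⟨y, z, w, h⟩ | ⟨y, z, w, t, h⟩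
        · exact absurd ⟨v, y, z, h⟩ hP3
        · exact absurd ⟨v, y, z, w, h⟩ hP4
        · exact ⟨t, y, z, w, h⟩
      choose! T hT using hall
      have hle : Lf.card ≤ Bg.card := by
        refine Finset.card_le_card_of_injOn T ?_ ?_
        · intro v hv
          obtain ⟨y, z, w, h⟩ := hT v hv
          have h3 : 3 ≤ dg H (T v) := h.2.2.2.2.2.2.2.2.2.2
          simp [hBg, h3]
        · intro v hv v' hv' heq
          obtain ⟨y, z, w, h⟩ := hT v hv
          obtain ⟨y', z', w', h'⟩ := hT v' hv'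
          rw [heq] at h
          exact no_Tail_Tail mTT H q hq0 hq1 hI v y z w v' y' z' w' (T v') h h'
      omega

theorem maxdeg_two (m5 : mvP5) (m6 : mvP6) (m34 : mvP3P4) (m3T : mvP3T) (m44 : mvP4P4)
    (m4T : mvP4T) (mTT : mvTT) (m333 : mv3P3) (H : SimpleGraph (Fin n)) (q : ℝ) (hq0 : 0 < q)
    (hq1 : q < 1) (hI : ¬ Imp H q) (a : ℕ) (ha : 1 ≤ a) (han : a + 4 ≤ n)
    (hsum : ∑ v, dg H v = n + a) (u : Fin n) : dg H u ≤ 2 := by
  classical
  by_contra hu
  have hu3 : 3 ≤ dg H u := by omega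
  obtain ⟨v, y, hv, hy⟩ := exists_K2 m5 m6 m34 m3T m44 m4T mTT m333 H q hq0 hq1 hI a ha han hsum u
    hu3
  have dv := g14_dg_one hv
  have dy := g14_dg_one hy
  have hnb : ∀ s : Fin n, 3 ≤ dg H s → s ≠ v ∧ s ≠ y ∧ ∀ x, H.Adj s x → x ≠ v ∧ x ≠ y ∧
      ¬ H.Adj v x ∧ ¬ H.Adj x v := by
    intro s hs
    have h1 : s ≠ v := by rintro rfl; omega
    have h2 : s ≠ y := by rintro rfl; omega
    have h3 : ∀ x, H.Adj s x → x ≠ v ∧ x ≠ y := by
      intro x hx
      constructor
      · rintro rfl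
        exact h2 ((hv s).1 hx.symm)
      · rintro rfl
        exact h1 ((hy s).1 hx.symm)
    refine ⟨h1, h2, fun x hx => ⟨(h3 x hx).1, (h3 x hx).2, ?_, ?_⟩⟩
    · intro h
      exact (h3 x hx).2 ((hv x).1 h)
    · intro h
      exact (h3 x hx).2 ((hv x).1 h.symm)
  have key1 : ∀ s x : Fin n, 3 ≤ dg H s → H.Adj s x → (4 ≤ dg H s ∨ dg H x ≤ 2) → False := by
    intro s x hs hx hd
    obtain ⟨h1, h2, h3⟩ := hnb s hs
    obtain ⟨h4, h5, h6, h7⟩ := h3 x hx
    exact hI (reloc_imp H q s v x h1 h4 hx h6 (by omega)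
      (s1_one H q hq0 hq1 s v x y h1 h2 h4 h5 hx hv (fun j hj => Or.inl ((hy j).1 hj)) hs hd))
  have hex : ∃ x, H.Adj u x := by
    by_contra hne
    push Not at hne
    have : dg H u = 0 := by
      unfold dg
      rw [Finset.card_eq_zero, Finset.filter_eq_empty_iff]
      intro j _
      exact hne j
    omega
  obtain ⟨x, hx⟩ := hex
  have hdu : dg H u = 3 := by
    by_contra h
    exact key1 u x hu3 hx (Or.inl (by omega))
  have hdx3 : 3 ≤ dg H x := by
    by_contra h
    exact key1 u x hu3 hx (Or.inr (by omega))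
  have hdx : dg H x = 3 := by
    by_contra h
    exact key1 x u hdx3 hx.symm (Or.inl (by omega))
  obtain ⟨h1, h2, h3⟩ := hnb u hu3
  obtain ⟨h4, h5, h6, h7⟩ := h3 x hx
  obtain ⟨g1, g2, g3⟩ := hnb x hdx3
  obtain ⟨g4, g5, g6, g7⟩ := g3 u hx.symm
  have h := s1_two H q hq0 hq1 u v x y h1 h2 h4 h5 hx hv hy hdu hdx
  rcases le_total (RH H q) (RH (reloc H u v x) q) with hR | hR
  · exact hI (reloc_imp H q u v x h1 h4 hx h6 (by omega) hR)
  · exact hI (reloc_imp H q x v u g1 g4 hx.symm g6 (by omega) (by linarith))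

end Pool.Agent.H34R2.U
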