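import Pool.Agent.H34R2.U.M11Base

/-! Definitions for local moves in which every marked vertex has a prescribed number of
`H`-neighbours outside the local configuration (slots). Polynomials are lists of natural
coefficients (constant term first) in the variable `t = 1 / q - 1 ≥ 0`. -/

set_option autoImplicit false

namespace Pool.Agent.H34R2.U

open Finset

/-- number of `H`-neighbours outside the image of `φ` of the local vertex `i`. -/
noncomputable def outdeg {n w : ℕ} (H : SimpleGraph (Fin n)) (φ : Fin w ↪ Fin n) (i : ℕ) : ℕ :=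
  open Classical in
  if h : i < w then (univ.filter fun j => (∀ a, φ a ≠ j) ∧ H.Adj (φ ⟨i, h⟩) j).card else 0

/-- the local move `l → l'` does not decrease the reliability, provided the `i`-th marked vertex
has exactly `sl i` neighbours outside. -/
def SlotOK (w : ℕ) (l l' : List (ℕ × ℕ)) (mk sl : List ℕ) : Prop :=
  ∀ (n : ℕ) (H : SimpleGraph (Fin n)) (φ : Fin w ↪ Fin n), Conf H φ l mk →
    (∀ i < mk.length, outdeg H φ (mk.getD i w) = sl.getD i 0) →
    ∀ q : ℝ, 0 < q → q < 1 → RH H q ≤ RH (repl H φ l') q

/-! ### polynomials -/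

def mulP' : List ℕ → List ℕ → List ℕ
  | [], _ => []
  | x :: a, b => addN (scaleN x b) (0 :: mulP' a b)

/-- coefficientwise truncated difference -/
def subN : List ℕ → List ℕ → List ℕ
  | [], _ => []
  | a, [] => a
  | x :: a, y :: b => Nat.sub x y :: subN a b

/-- `(1 + t) ^ e` -/
def powT : ℕ → List ℕ
  | 0 => [1]
  | e + 1 => stepN 0 (powT e)

/-- remove zeros at the end -/
def trimN : List ℕ → List ℕ
  | [] => []
  | x :: a => match trimN a with
    | [] => if Nat.beq x 0 then [] else [x]
    | y :: b => x :: y :: b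

/-- reduce a difference of polynomials -/
def redP (e : List ℕ × List ℕ) : List ℕ × List ℕ := (trimN (subN e.1 e.2), trimN (subN e.2 e.1))

/-- value of a coefficient list at a natural number -/
def evB (B : ℕ) : List ℕ → ℕ
  | [] => 0
  | x :: a => Nat.add x (Nat.mul B (evB B a))

/-! ### one marked outer block -/

/-- maximum of a list -/
def maxL : List ℕ → ℕ
  | [] => 0
  | x :: a => Nat.max x (maxL a)

/-- exponent of the block `b` of a type: `m` for every unmarked vertex of `b` and `m - a i` for
every marked vertex `i` of `b`, where `m` is the maximum of `a`. -/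
def exB (r : ℕ) (a : List ℕ) (b : ℕ × ℕ) : ℕ :=
  maxL a * b.2 + (((List.range r).filter fun i => b.1.testBit i).map
    fun i => maxL a - a.getD i 0).sum

/-- `C(k, j) (1 + t)^e`, minus one if `j = 0` -/
def gTerm (j k e : ℕ) : List ℕ :=
  match j with
  | 0 => 0 :: (powT e).tail
  | j + 1 => scaleN (k.choose (j + 1)) (powT e)

/-- `∑_b C(|b|, j) (1 + t)^(exB b)`, minus the number of blocks if `j = 0` -/
def gPoly (r : ℕ) (a : List ℕ) (j : ℕ) (τ : Ty) : List ℕ :=
  τ.foldr (fun b acc => addN (gTerm j (bsz r b) (exB r a b)) acc) []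

/-- value of `gTerm` at `x` -/
def gTermV (x j k e : ℕ) : ℕ :=
  match j with
  | 0 => Nat.sub (Nat.pow (Nat.succ x) e) 1
  | j + 1 => Nat.mul (k.choose (j + 1)) (Nat.pow (Nat.succ x) e)

/-- value of `gPoly` at `x` -/
def gVal (x r : ℕ) (a : List ℕ) (j : ℕ) (τ : Ty) : ℕ :=
  τ.foldr (fun b s => Nat.add (gTermV x j (bsz r b) (exB r a b)) s) 0

/-- multiply the state by the polynomials of a marked block -/
def sl_step : List (List ℕ) → List (List ℕ × List ℕ) → List (List ℕ × List ℕ)
  | g :: gs, e :: es => (mulP' g e.1, mulP' g e.2) :: sl_step gs es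
  | _, _ => []

/-- the same for values -/
def stepK : List ℕ → List (ℕ × ℕ) → List (ℕ × ℕ)
  | g :: gs, e :: es => (Nat.mul g e.1, Nat.mul g e.2) :: stepK gs es
  | _, _ => []

/-! ### unmarked outer blocks -/

def insN (x : ℕ) : List ℕ → List ℕ
  | [] => [x]
  | y :: t => if Nat.ble x y then x :: y :: t else y :: insN x t

def sortN : List ℕ → List ℕ
  | [] => []
  | x :: t => insN x (sortN t)

/-- forget the marks -/
def projTy (r : ℕ) (τ : Ty) : Ty := (sortN (τ.map (bsz r))).map fun k => (0, k)

/-- entry of a row at a type -/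
def valAt (σ : Ty) : List Ty → List ℕ → ℕ
  | τ :: ts, x :: xs => if eqTy σ τ then x else valAt σ ts xs
  | _, _ => 0

/-- the rows of the certificate `C` pulled back to the list `types` -/
def slRows (r : ℕ) (types : List Ty) (C : Cert) : List (List ℕ) :=
  C.rows.map fun row => types.map fun τ => valAt (projTy r τ) C.types row

def dotP : List ℕ → List (ℕ × ℕ) → ℕ
  | x :: xs, e :: es => Nat.add (Nat.mul x e.1) (dotP xs es)
  | _, _ => 0

def dotM : List ℕ → List (ℕ × ℕ) → ℕ
  | x :: xs, e :: es => Nat.add (Nat.mul x e.2) (dotM xs es)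
  | _, _ => 0

/-- the base `B` digits of `M` are at most those of `N` -/
def digLe (B : ℕ) : ℕ → ℕ → ℕ → Bool
  | 0, _, M => Nat.beq M 0
  | f + 1, N, M => Nat.ble (Nat.mod M B) (Nat.mod N B) &&
      (Nat.beq M 0 || digLe B f (Nat.div N B) (Nat.div M B))

/-- final check: all rows are nonnegative on the state (`VB`: values at `B`, `V1`: values at `1`,
i.e. sums of coefficients). -/
def leafK (B : ℕ) (R : List (List ℕ)) (VB V1 : List (ℕ × ℕ)) : Bool :=
  R.all fun vals => Nat.blt (dotP vals V1) B && (Nat.blt (dotM vals V1) B &&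
    digLe B 64 (dotP vals VB) (dotM vals VB))

/-! ### the recursion -/

/-- all vectors `≤ rem` -/
def pats : List ℕ → List (List ℕ)
  | [] => [[]]
  | x :: t => (List.range (x + 1)).flatMap fun y => (pats t).map fun a => y :: a

/-- key of a vector with entries at most seven -/
def keyL : List ℕ → ℕ
  | [] => 0
  | x :: a => x + 8 * keyL a

def subL : List ℕ → List ℕ → List ℕ
  | x :: a, y :: b => Nat.sub x y :: subL a b
  | _, _ => []

/-- `VB`, `V1`: values of the state; `rem`: remaining slots; the next marked block has key at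
least `last`. -/
def slotK (B w r : ℕ) (types : List Ty) (R : List (List ℕ)) :
    ℕ → ℕ → List ℕ → List (ℕ × ℕ) → List (ℕ × ℕ) → Bool
  | 0, _, _, _, _ => false
  | f + 1, last, rem, VB, V1 =>
    if rem.all (fun x => Nat.beq x 0) then leafK B R VB V1
    else (pats rem).all fun a => Nat.blt (keyL a) (Nat.max 1 last) ||
      (List.range (w + 1)).all fun j =>
        slotK B w r types R f (keyL a) (subL rem a) (stepK (types.map (gVal B r a j)) VB)
          (stepK (types.map (gVal 1 r a j)) V1)

/-- meaning of the recursion -/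
def slotProp (w r : ℕ) (types : List Ty) (R : List (List ℕ)) :
    ℕ → ℕ → List ℕ → List (List ℕ × List ℕ) → Prop
  | 0, _, _, _ => False
  | f + 1, last, rem, V =>
    if rem.all (fun x => Nat.beq x 0) then
      ∀ vals ∈ R, ∀ t : ℝ, 0 ≤ t →
        0 ≤ (List.zipWith (fun (x : ℕ) (e : List ℕ × List ℕ) =>
          (x : ℝ) * (evalN e.1 t - evalN e.2 t)) vals V).sum
    else ∀ a ∈ pats rem, max 1 last ≤ keyL a → ∀ j ≤ w,
        slotProp w r types R f (keyL a) (subL rem a) (sl_step (types.map (gPoly r a j)) V)

/-- the polynomial of a type in the initial state -/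
def slPoly (w : ℕ) (l l' : List (ℕ × ℕ)) (mk : List ℕ) (τ : Ty) : List ℕ × List ℕ :=
  redP (prOf mk.length (w * (w - 1) / 2) (dp w l mk) [dp w l' mk] τ)

/-- conditions for one type: the blocks are nonempty, there are `w - r` unmarked vertices, and
every marked vertex is in exactly one block. -/
def tyOK (w r : ℕ) (τ : Ty) : Bool :=
  Nat.ble r w && (τ.all fun b => Nat.ble 1 (bsz r b)) &&
  Nat.beq ((τ.map Prod.snd).sum) (w - r) &&
  ((List.range r).all fun i => Nat.beq ((τ.filter fun b => b.1.testBit i).length) 1)

/-- side conditions; `types'` contains all types of `types` with nonzero polynomial -/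
def slSide (w : ℕ) (l l' : List (ℕ × ℕ)) (mk sl : List ℕ) (types types' : List Ty) (C : Cert) :
    Bool :=
  inOK w l mk && inOK w l' mk && Nat.beq sl.length mk.length && sl.all (fun x => Nat.ble x 7) &&
  nodupTy types && nodupTy types' && nodupTy C.types &&
  (types.all (tyOK w mk.length)) && (types.all fun τ => memTy (projTy mk.length τ) C.types) &&
  (types.all fun τ => Nat.ble (eK mk.length τ) (w * (w - 1) / 2)) &&
  ((dp w l mk).all fun e => memTy e.1 types) && ((dp w l' mk).all fun e => memTy e.1 types) &&
  (types'.all fun τ => memTy τ types) &&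
  (types.all fun τ => memTy τ types' ||
    (match slPoly w l l' mk τ with
      | ([], []) => true
      | _ => false))

end Pool.Agent.H34R2.U
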