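import Pool.Agent.H34R2.U.SDefs

/-! Definitions for the degree-reducing move with a general neighbour `y` of the leaf. -/

set_option autoImplicit false

namespace Pool.Agent.H34R2.U

open Finset

/-- the six block weights; arguments `U X Y Z`. For `Y = Z` they are `F1 .. F6`. -/
def P1 (U X Y Z : ℝ) : ℝ := U + X * Y * Z - 2 * (U * X * Y * Z)
def P2 (U X Y Z : ℝ) : ℝ := Z + U * X * Y - 2 * (U * X * Y * Z)
def P3' (U X Y Z : ℝ) : ℝ := X * Z + U * Y - 2 * (U * X * Y * Z)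
def P4' (U X Y Z : ℝ) : ℝ := U * X + Y * Z - 2 * (U * X * Y * Z)
def P5 (U X Y Z : ℝ) : ℝ := U * X * Z + U * Y + X * Y * Z - 3 * (U * X * Y * Z)
def P6 (U X Y Z : ℝ) : ℝ := U * X * Z + Y * Z + U * X * Y - 3 * (U * X * Y * Z)

/-- product of a weight over a list of blocks, each block given by `(U, X, Y, Z)`. -/
noncomputable def prY (F : ℝ → ℝ → ℝ → ℝ → ℝ) (L : List (ℝ × ℝ × ℝ × ℝ)) : ℝ :=
  (L.map fun t => F t.1 t.2.1 t.2.2.1 t.2.2.2).prod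

/-- the termwise value. -/
noncomputable def DDY (q e : ℝ) (L : List (ℝ × ℝ × ℝ × ℝ)) : ℝ :=
  q * prY P1 L - prY P2 L +
    e * (prY P3' L - q * prY P4' L - 2 * q * prY P5 L + 2 * q * prY P6 L)

/-- the block with `d` vertices, of which `a`, `b`, `c` are `H`-neighbours of `u`, `x`, `y`. -/
noncomputable def blkY (q : ℝ) (t : ℕ × ℕ × ℕ × ℕ) : ℝ × ℝ × ℝ × ℝ :=
  (q ^ (t.2.2.2 - t.1), q ^ (t.2.2.2 - t.2.1), q ^ (t.2.2.2 - t.2.2.1), q ^ t.2.2.2)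

/-- a legal list of blocks `(a, b, c, d)`. -/
def LegalY (L : List (ℕ × ℕ × ℕ × ℕ)) : Prop :=
  ∀ t ∈ L, t.1 ≤ t.2.2.2 ∧ t.2.1 ≤ t.2.2.2 ∧ t.2.2.1 ≤ t.2.2.2 ∧ 1 ≤ t.2.2.2

end Pool.Agent.H34R2.U
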