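import Pool.Agent.H34R2.U.S5
import Pool.Agent.H34R2.U.YDefs

/-! TASK Y5: real inequalities for the one-sided degree-reducing move with a general neighbour
of the leaf (generalises S5). -/

set_option autoImplicit false

namespace Pool.Agent.H34R2.U

theorem P1_nn {U X Y Z : ℝ} (hZ0 : 0 ≤ Z) (hZ : Z ≤ 1) (hU0 : 0 ≤ U) (hU : U ≤ 1) (hX0 : 0 ≤ X)
    (hX : X ≤ 1) (hY0 : 0 ≤ Y) (hY : Y ≤ 1) : 0 ≤ P1 U X Y Z := by
  have h1 : 0 ≤ X * Y * Z := by positivity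
  have h2 : X * Y * Z ≤ 1 := by
    have : X * Y ≤ 1 := mul_le_one₀ hX hY0 hY
    exact mul_le_one₀ this hZ0 hZ
  have : P1 U X Y Z = U * (1 - X * Y * Z) + X * Y * Z * (1 - U) := by unfold P1; ring
  rw [this]
  exact add_nonneg (mul_nonneg hU0 (by linarith)) (mul_nonneg h1 (by linarith))

theorem P2_nn {U X Y Z : ℝ} (hZ0 : 0 ≤ Z) (hZ : Z ≤ 1) (hU0 : 0 ≤ U) (hU : U ≤ 1) (hX0 : 0 ≤ X)
    (hX : X ≤ 1) (hY0 : 0 ≤ Y) (hY : Y ≤ 1) : 0 ≤ P2 U X Y Z := by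
  have h1 : 0 ≤ U * X * Y := by positivity
  have h2 : U * X * Y ≤ 1 := by
    have : U * X ≤ 1 := mul_le_one₀ hU hX0 hX
    exact mul_le_one₀ this hY0 hY
  have : P2 U X Y Z = Z * (1 - U * X * Y) + U * X * Y * (1 - Z) := by unfold P2; ring
  rw [this]
  exact add_nonneg (mul_nonneg hZ0 (by linarith)) (mul_nonneg h1 (by linarith))

theorem invY_unmarked (q : ℝ) (X Y z : ℝ) (hz : 0 < z) (hz1 : z < 1) (hzX : z ≤ X) (hX1 : X ≤ 1)
    (hzY : z ≤ Y) (hY1 : Y ≤ 1)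
    (p1 p2 p3 p4 p5 p6 : ℝ) (h : Inv q p1 p2 p3 p4 p5 p6) :
    Inv q (P1 z X Y z * p1) (P2 z X Y z * p2) (P3' z X Y z * p3) (P4' z X Y z * p4)
      (P5 z X Y z * p5) (P6 z X Y z * p6) := by
  obtain ⟨G1, G3, G5, m1, m2, m3, m4, m5, m6, hG1, hG3, hG5, hG50, e1, e2, e3, e4, e5, e6,
    hm6, hm5, hi, hii⟩ := h
  have hX0 : 0 < X := lt_of_lt_of_le hz hzX
  have hY0 : 0 < Y := lt_of_lt_of_le hz hzY
  have f2 : P2 z X Y z = P1 z X Y z := by unfold P2 P1; ring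
  have f4 : P4' z X Y z = P3' z X Y z := by unfold P3' P4'; ring
  have f6 : P6 z X Y z = P5 z X Y z := by unfold P5 P6; ring
  have hXz : X * z ≤ 1 := mul_le_one₀ hX1 hz.le hz1.le
  have hXY : X * Y ≤ 1 := mul_le_one₀ hX1 hY0.le hY1
  have g1 : 0 ≤ 1 - X := by linarith
  have g2 : 0 ≤ 1 - Y := by linarith
  have g3 : 0 ≤ 1 - z := by linarith
  have g4 : 0 ≤ 1 - X * z := by linarith
  have k5 : 0 ≤ P5 z X Y z := by
    have : P5 z X Y z = X * z ^ 2 * (1 - Y) + Y * z * (1 - X * z) + X * Y * z * (1 - z) := by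
      unfold P5; ring
    rw [this]
    positivity
  have k35 : P5 z X Y z ≤ P3' z X Y z := by
    have : P3' z X Y z - P5 z X Y z = X * z * (1 - z) * (1 - Y) := by unfold P5 P3'; ring
    have h2 : 0 ≤ X * z * (1 - z) * (1 - Y) := by positivity
    linarith
  have k13 : P3' z X Y z ≤ P1 z X Y z := by
    have : P1 z X Y z - P3' z X Y z = z * (1 - X) * (1 - Y) := by unfold P1 P3'; ring
    have h2 : 0 ≤ z * (1 - X) * (1 - Y) := by positivity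
    linarith
  have k1 : 0 < P1 z X Y z := by
    have : P1 z X Y z = z * (1 - X * Y * z) + X * Y * z * (1 - z) := by unfold P1; ring
    rw [this]
    have h1 : X * Y * z < 1 := by nlinarith [mul_pos (mul_pos hX0 hY0) hz]
    have h2 : 0 < 1 - X * Y * z := by linarith
    positivity
  refine ⟨P1 z X Y z * G1, P3' z X Y z * G3, P5 z X Y z * G5, m1, m2, m3, m4, m5, m6,
    by positivity, ?_, ?_, by positivity, ?_, ?_, ?_, ?_, ?_, ?_, hm6, hm5, hi, hii⟩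
  · exact mul_le_mul k13 hG3 (hG50.trans hG5) k1.le
  · exact mul_le_mul k35 hG5 hG50 (k5.trans k35)
  · rw [e1]; ring
  · rw [e2, f2]; ring
  · rw [e3]; ring
  · rw [e4, f4]; ring
  · rw [e5]; ring
  · rw [e6, f6]; ring

theorem invY_marked (q : ℝ) (hq0 : 0 < q) (hq1 : q < 1) (U X Y z : ℝ) (hz : 0 < z) (hz1 : z < 1)
    (hzU : z ≤ U) (hU1 : U ≤ 1) (hzX : z ≤ X) (hX1 : X ≤ 1) (hzY : z ≤ Y) (hY1 : Y ≤ 1)
    (hm : z ≤ q * U)
    (p1 p2 p3 p4 p5 p6 : ℝ) (h : Inv q p1 p2 p3 p4 p5 p6) :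
    Inv q (P1 U X Y z * p1) (P2 U X Y z * p2) (P3' U X Y z * p3) (P4' U X Y z * p4)
      (P5 U X Y z * p5) (P6 U X Y z * p6) := by
  obtain ⟨G1, G3, G5, m1, m2, m3, m4, m5, m6, hG1, hG3, hG5, hG50, e1, e2, e3, e4, e5, e6,
    hm6, hm5, hi, hii⟩ := h
  have hX0 : 0 < X := lt_of_lt_of_le hz hzX
  have hY0 : 0 < Y := lt_of_lt_of_le hz hzY
  have hU0 : 0 < U := lt_of_lt_of_le hz hzU
  have g1 : 0 ≤ 1 - X := by linarith
  have g2 : 0 ≤ 1 - Y := by linarith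
  have g3 : 0 ≤ 1 - z := by linarith
  have g4 : 0 ≤ 1 - U := by linarith
  have g5 : 0 ≤ U - z := by linarith
  have hUX : U * X ≤ 1 := mul_le_one₀ hU1 hX0.le hX1
  have hUz : U * z ≤ 1 := mul_le_one₀ hU1 hz.le hz1.le
  have g6 : 0 ≤ 1 - U * X := by linarith
  have k6 : 0 ≤ P6 U X Y z := by
    have : P6 U X Y z = U * X * z * (1 - Y) + Y * z * (1 - U * X) + U * X * Y * (1 - z) := by
      unfold P6; ring
    rw [this]
    positivity
  have k56 : P6 U X Y z ≤ P5 U X Y z := by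
    have : P5 U X Y z - P6 U X Y z = Y * (U - z) * (1 - X) := by unfold P5 P6; ring
    have h2 : 0 ≤ Y * (U - z) * (1 - X) := by positivity
    linarith
  set A' := U + Y * z - 2 * U * Y * z with hA'
  set B' := z + U * Y - 2 * U * Y * z with hB'
  set D' := U * z + U * Y + Y * z - 3 * U * Y * z with hD'
  have f1 : P1 U X Y z = (1 - X) * U + X * A' := by rw [hA']; unfold P1; ring
  have f2 : P2 U X Y z = (1 - X) * z + X * B' := by rw [hB']; unfold P2; ring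
  have f3 : P3' U X Y z = (1 - X) * (Y * U) + X * B' := by rw [hB']; unfold P3'; ring
  have f4 : P4' U X Y z = (1 - X) * (Y * z) + X * A' := by rw [hA']; unfold P4'; ring
  have f5 : P5 U X Y z = (1 - X) * (U * Y) + X * D' := by rw [hD']; unfold P5; ring
  have f6 : P6 U X Y z = (1 - X) * (Y * z) + X * D' := by rw [hD']; unfold P6; ring
  have hD0 : 0 ≤ D' := by
    have : D' = U * z * (1 - Y) + U * Y * (1 - z) + Y * z * (1 - U) := by rw [hD']; ring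
    rw [this]
    positivity
  have hDB' : D' ≤ B' := by
    have : B' - D' = z * (1 - U) * (1 - Y) := by rw [hB', hD']; ring
    have : 0 ≤ z * (1 - U) * (1 - Y) := by positivity
    linarith
  have hBA' : B' ≤ A' := by
    have : A' - B' = (U - z) * (1 - Y) := by rw [hB', hA']; ring
    have : 0 ≤ (U - z) * (1 - Y) := by positivity
    linarith
  have hB0 : 0 ≤ B' := hD0.trans hDB'
  have hA0 : 0 ≤ A' := hB0.trans hBA'
  refine ⟨G1, G3, G5, P1 U X Y z * m1, P2 U X Y z * m2, P3' U X Y z * m3, P4' U X Y z * m4,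
    P5 U X Y z * m5, P6 U X Y z * m6, hG1, hG3, hG5, hG50, by rw [e1]; ring, by rw [e2]; ring,
    by rw [e3]; ring, by rw [e4]; ring, by rw [e5]; ring, by rw [e6]; ring, mul_nonneg k6 hm6,
    mul_le_mul k56 hm5 hm6 (k6.trans k56), ?_, ?_⟩
  · intro u t y A B D hu ht hy hA hB hD htu hy1 hBA hDB
    have i1 := hi (u * U) (t * z) (y * Y) A B D (by positivity) (by positivity) (by positivity)
      hA hB hD (by nlinarith [mul_nonneg ht g5, mul_nonneg (sub_nonneg.2 htu) hU0.le])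
      (mul_le_one₀ hy1 hY0.le hY1) hBA hDB
    have i2 := hi u t y (A * A') (B * B') (D * D') hu ht hy (by positivity) (by positivity)
      (by positivity) htu hy1 (mul_le_mul hBA hBA' hB0 hA) (mul_le_mul hDB hDB' hD0 hB)
    have j1 := mul_nonneg g1 i1
    have j2 := mul_nonneg hX0.le i2
    have := add_nonneg j1 j2
    rw [f1, f2, f3, f4, f5, f6]
    refine this.trans (le_of_eq ?_)
    ring
  · intro A B D hA hB hD hBA hDB
    have i1 := hi U z Y A B D hU0.le hz.le hY0.le hA hB hD hm hY1 hBA hDB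
    have i2 := hii (A * A') (B * B') (D * D') (by positivity) (by positivity)
      (by positivity) (mul_le_mul hBA hBA' hB0 hA) (mul_le_mul hDB hDB' hD0 hB)
    have j1 := mul_nonneg g1 i1
    have j2 := mul_nonneg hX0.le i2
    have := add_nonneg j1 j2
    rw [f1, f2, f3, f4, f5, f6]
    refine this.trans (le_of_eq ?_)
    ring

theorem prY_cons (F : ℝ → ℝ → ℝ → ℝ → ℝ) (t : ℝ × ℝ × ℝ × ℝ) (L : List (ℝ × ℝ × ℝ × ℝ)) :
    prY F (t :: L) = F t.1 t.2.1 t.2.2.1 t.2.2.2 * prY F L := by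
  unfold prY; simp

theorem invY_list (q : ℝ) (hq0 : 0 < q) (hq1 : q < 1) (L : List (ℝ × ℝ × ℝ × ℝ))
    (hL : ∀ t ∈ L, 0 < t.2.2.2 ∧ t.2.2.2 < 1 ∧ t.2.2.2 ≤ t.1 ∧ t.1 ≤ 1 ∧ t.2.2.2 ≤ t.2.1 ∧
      t.2.1 ≤ 1 ∧ t.2.2.2 ≤ t.2.2.1 ∧ t.2.2.1 ≤ 1 ∧ (t.1 = t.2.2.2 ∨ t.2.2.2 ≤ q * t.1)) :
    Inv q (prY P1 L) (prY P2 L) (prY P3' L) (prY P4' L) (prY P5 L) (prY P6 L) := by
  induction L with
  | nil => simpa [prY] using inv_nil q hq0 hq1
  | cons t L ih =>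
    have ih' := ih (fun s hs => hL s (List.mem_cons_of_mem _ hs))
    obtain ⟨h1, h2, h3, h4, h5, h6, h7, h8, h9⟩ := hL t List.mem_cons_self
    simp only [prY_cons]
    rcases h9 with h9 | h9
    · rw [h9]
      exact invY_unmarked q _ _ _ h1 h2 h5 h6 h7 h8 _ _ _ _ _ _ ih'
    · exact invY_marked q hq0 hq1 _ _ _ _ h1 h2 h3 h4 h5 h6 h7 h8 h9 _ _ _ _ _ _ ih'

/-- one-sided termwise inequality. -/
theorem DDY_nonneg (q : ℝ) (hq0 : 0 < q) (hq1 : q < 1) (e : ℝ) (he0 : 0 ≤ e) (he1 : e ≤ 1)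
    (L : List (ℝ × ℝ × ℝ × ℝ))
    (hL : ∀ t ∈ L, 0 < t.2.2.2 ∧ t.2.2.2 < 1 ∧ t.2.2.2 ≤ t.1 ∧ t.1 ≤ 1 ∧ t.2.2.2 ≤ t.2.1 ∧
      t.2.1 ≤ 1 ∧ t.2.2.2 ≤ t.2.2.1 ∧ t.2.2.1 ≤ 1 ∧ (t.1 = t.2.2.2 ∨ t.2.2.2 ≤ q * t.1))
    (hI : prY P2 L ≤ q * prY P1 L) : 0 ≤ DDY q e L := by
  obtain ⟨G1, G3, G5, m1, m2, m3, m4, m5, m6, hG1, hG3, hG5, hG50, e1, e2, e3, e4, e5, e6,
    hm6, hm5, hi, hii⟩ := invY_list q hq0 hq1 L hL
  unfold DDY
  rw [e1, e2] at hI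
  rw [e1, e2, e3, e4, e5, e6]
  have h2 := hii 1 1 1 zero_le_one zero_le_one zero_le_one le_rfl le_rfl
  have hG30 : 0 ≤ G3 := hG50.trans hG5
  have hq : 0 ≤ q * m1 - m2 := by
    by_contra hc
    push Not at hc
    have := mul_neg_of_pos_of_neg hG1 hc
    nlinarith
  have a1 : 0 ≤ (G1 - e * G3) * (q * m1 - m2) := by
    apply mul_nonneg _ hq
    nlinarith
  have a2 : 0 ≤ e * G3 * ((m3 - q * m4 - 2 * q * (m5 - m6)) + (q * m1 - m2)) := by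
    apply mul_nonneg (mul_nonneg he0 hG30)
    linarith
  have a3 : 0 ≤ e * (2 * q * ((G3 - G5) * (m5 - m6))) := by
    have : 0 ≤ G3 - G5 := by linarith
    have : 0 ≤ m5 - m6 := by linarith
    positivity
  have := add_nonneg (add_nonneg a1 a2) a3
  refine this.trans (le_of_eq ?_)
  ring

theorem blkY_facts (q : ℝ) (hq0 : 0 < q) (hq1 : q < 1) (t : ℕ × ℕ × ℕ × ℕ)
    (ht : t.1 ≤ t.2.2.2 ∧ t.2.1 ≤ t.2.2.2 ∧ t.2.2.1 ≤ t.2.2.2 ∧ 1 ≤ t.2.2.2) :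
    0 < (blkY q t).2.2.2 ∧ (blkY q t).2.2.2 < 1 ∧ (blkY q t).2.2.2 ≤ (blkY q t).1 ∧
      (blkY q t).1 ≤ 1 ∧ (blkY q t).2.2.2 ≤ (blkY q t).2.1 ∧ (blkY q t).2.1 ≤ 1 ∧
      (blkY q t).2.2.2 ≤ (blkY q t).2.2.1 ∧ (blkY q t).2.2.1 ≤ 1 ∧
      ((blkY q t).1 = (blkY q t).2.2.2 ∨ (blkY q t).2.2.2 ≤ q * (blkY q t).1) := by
  obtain ⟨a, b, c, d⟩ := t
  obtain ⟨h1, h2, h3, h4⟩ := ht
  simp only at h1 h2 h3 h4
  unfold blkY
  simp only
  refine ⟨pow_pos hq0 _, pow_lt_one₀ hq0.le hq1 (by omega),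
    pow_le_pow_of_le_one hq0.le hq1.le (by omega), pow_le_one₀ hq0.le hq1.le,
    pow_le_pow_of_le_one hq0.le hq1.le (by omega), pow_le_one₀ hq0.le hq1.le,
    pow_le_pow_of_le_one hq0.le hq1.le (by omega), pow_le_one₀ hq0.le hq1.le, ?_⟩
  rcases Nat.eq_zero_or_pos a with h | h
  · left; rw [h]; simp
  · right
    calc q ^ d ≤ q ^ (d - a + 1) := pow_le_pow_of_le_one hq0.le hq1.le (by omega)
      _ = q * q ^ (d - a) := by rw [pow_succ]; ring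

theorem prY_nn (F : ℝ → ℝ → ℝ → ℝ → ℝ) (L : List (ℝ × ℝ × ℝ × ℝ))
    (h : ∀ t ∈ L, 0 ≤ F t.1 t.2.1 t.2.2.1 t.2.2.2) : 0 ≤ prY F L := by
  unfold prY
  apply List.prod_nonneg
  intro a ha
  rw [List.mem_map] at ha
  obtain ⟨t, ht, rfl⟩ := ha
  exact h t ht

theorem blkY_P1_nn (q : ℝ) (hq0 : 0 < q) (hq1 : q < 1) (t : ℕ × ℕ × ℕ × ℕ)
    (ht : t.1 ≤ t.2.2.2 ∧ t.2.1 ≤ t.2.2.2 ∧ t.2.2.1 ≤ t.2.2.2 ∧ 1 ≤ t.2.2.2) :
    0 ≤ P1 (blkY q t).1 (blkY q t).2.1 (blkY q t).2.2.1 (blkY q t).2.2.2 := by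
  obtain ⟨h1, h2, h3, h4, h5, h6, h7, h8, _⟩ := blkY_facts q hq0 hq1 t ht
  exact P1_nn h1.le h2.le (h1.le.trans h3) h4 (h1.le.trans h5) h6 (h1.le.trans h7) h8

theorem blkY_P2_nn (q : ℝ) (hq0 : 0 < q) (hq1 : q < 1) (t : ℕ × ℕ × ℕ × ℕ)
    (ht : t.1 ≤ t.2.2.2 ∧ t.2.1 ≤ t.2.2.2 ∧ t.2.2.1 ≤ t.2.2.2 ∧ 1 ≤ t.2.2.2) :
    0 ≤ P2 (blkY q t).1 (blkY q t).2.1 (blkY q t).2.2.1 (blkY q t).2.2.2 := by
  obtain ⟨h1, h2, h3, h4, h5, h6, h7, h8, _⟩ := blkY_facts q hq0 hq1 t ht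
  exact P2_nn h1.le h2.le (h1.le.trans h3) h4 (h1.le.trans h5) h6 (h1.le.trans h7) h8

theorem prY_pow_le (e : ℕ × ℕ × ℕ × ℕ → ℕ) (q : ℝ) (hq0 : 0 < q) (hq1 : q < 1)
    (L : List (ℕ × ℕ × ℕ × ℕ)) (hL : LegalY L)
    (h : ∀ t ∈ L, P2 (blkY q t).1 (blkY q t).2.1 (blkY q t).2.2.1 (blkY q t).2.2.2 ^ 2 ≤
      q ^ e t * P1 (blkY q t).1 (blkY q t).2.1 (blkY q t).2.2.1 (blkY q t).2.2.2 ^ 2) :
    prY P2 (L.map (blkY q)) ^ 2 ≤
      q ^ (L.map e).sum * prY P1 (L.map (blkY q)) ^ 2 := by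
  induction L with
  | nil => simp [prY]
  | cons t L ih =>
    have ih' := ih (fun s hs => hL s (List.mem_cons_of_mem _ hs))
      (fun s hs => h s (List.mem_cons_of_mem _ hs))
    have ht := h t List.mem_cons_self
    have n1 := blkY_P1_nn q hq0 hq1 t (hL t List.mem_cons_self)
    have n2 := blkY_P2_nn q hq0 hq1 t (hL t List.mem_cons_self)
    have m2 : 0 ≤ prY P2 (L.map (blkY q)) := by
      apply prY_nn
      intro s hs
      rw [List.mem_map] at hs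
      obtain ⟨s, hs, rfl⟩ := hs
      exact blkY_P2_nn q hq0 hq1 s (hL s (List.mem_cons_of_mem _ hs))
    simp only [List.map_cons, List.sum_cons, prY_cons, mul_pow, pow_add]
    calc _ ≤ (q ^ e t * P1 (blkY q t).1 (blkY q t).2.1 (blkY q t).2.2.1 (blkY q t).2.2.2 ^ 2) *
          (q ^ (L.map e).sum * prY P1 (L.map (blkY q)) ^ 2) :=
          mul_le_mul ht ih' (pow_nonneg m2 _) (by positivity)
      _ = _ := by ring

/-- one block, `b + c ≤ a` or `a = 0`. -/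
theorem blkY_good (q : ℝ) (hq0 : 0 < q) (hq1 : q < 1) (a b c d : ℕ) (had : a ≤ d) (hbd : b ≤ d)
    (hcd : c ≤ d) (hd : 1 ≤ d) (h : a = 0 ∨ b + c ≤ a) :
    P2 (q ^ (d - a)) (q ^ (d - b)) (q ^ (d - c)) (q ^ d) ^ 2 ≤
      q ^ a * P1 (q ^ (d - a)) (q ^ (d - b)) (q ^ (d - c)) (q ^ d) ^ 2 := by
  rcases h with h | h
  · subst h
    rw [pow_zero, one_mul, Nat.sub_zero]
    apply le_of_eq
    unfold P1 P2; ring
  · have hW : q ^ (d - b) * q ^ (d - c) = q ^ (d - (b + c)) * q ^ d := by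
      rw [← pow_add, ← pow_add]; congr 1; omega
    have e1 : P1 (q ^ (d - a)) (q ^ (d - b)) (q ^ (d - c)) (q ^ d) =
        F1 (q ^ (d - a)) (q ^ (d - (b + c))) (q ^ d) := by
      unfold P1 F1
      rw [show q ^ (d - a) * q ^ (d - b) * q ^ (d - c) * q ^ d =
        q ^ (d - a) * (q ^ (d - b) * q ^ (d - c)) * q ^ d by ring, hW]
      ring
    have e2 : P2 (q ^ (d - a)) (q ^ (d - b)) (q ^ (d - c)) (q ^ d) =
        F2 (q ^ (d - a)) (q ^ (d - (b + c))) (q ^ d) := by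
      unfold P2 F2
      rw [show q ^ (d - a) * q ^ (d - b) * q ^ (d - c) * q ^ d =
        q ^ (d - a) * (q ^ (d - b) * q ^ (d - c)) * q ^ d by ring,
        show q ^ (d - a) * q ^ (d - b) * q ^ (d - c) =
        q ^ (d - a) * (q ^ (d - b) * q ^ (d - c)) by ring, hW]
      ring
    rw [e1, e2]
    have := F_sq (U := q ^ (d - a)) (X := q ^ (d - (b + c))) (z := q ^ d) (pow_pos hq0 _)
      (pow_le_pow_of_le_one hq0.le hq1.le (by omega))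
      (pow_le_pow_of_le_one hq0.le hq1.le (by omega)) (pow_le_one₀ hq0.le hq1.le)
    have hU0 : 0 < q ^ (d - a) := pow_pos hq0 _
    have e3 : q ^ d = q ^ (d - a) * q ^ a := by rw [← pow_add]; congr 1; omega
    have e4 : q ^ d * F1 (q ^ (d - a)) (q ^ (d - (b + c))) (q ^ d) ^ 2 =
        q ^ (d - a) * (q ^ a * F1 (q ^ (d - a)) (q ^ (d - (b + c))) (q ^ d) ^ 2) := by
      rw [← mul_assoc, ← e3]
    rw [e4] at this
    exact le_of_mul_le_mul_left this hU0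

/-- `k ≥ 3`, `∑ b ≤ 1`, `∑ c ≤ 1`. -/
theorem IY (q : ℝ) (hq0 : 0 < q) (hq1 : q < 1) (L : List (ℕ × ℕ × ℕ × ℕ)) (hL : LegalY L)
    (hk : 3 ≤ (L.map fun t => t.1).sum) (hb : (L.map fun t => t.2.1).sum ≤ 1)
    (hc : (L.map fun t => t.2.2.1).sum ≤ 1) :
    prY P2 (L.map (blkY q)) ≤ q * prY P1 (L.map (blkY q)) := by
  set e : ℕ × ℕ × ℕ × ℕ → ℕ := fun t => if t.1 = 0 ∨ t.2.1 + t.2.2.1 ≤ t.1 then t.1 else 0
    with he
  have hbs : ∀ t ∈ L, t.2.1 ≤ 1 := fun t ht =>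
    (List.single_le_sum (by simp) _ (List.mem_map_of_mem (f := fun t => t.2.1) ht)).trans hb
  have hcs : ∀ t ∈ L, t.2.2.1 ≤ 1 := fun t ht =>
    (List.single_le_sum (by simp) _ (List.mem_map_of_mem (f := fun t => t.2.2.1) ht)).trans hc
  have hsum : (L.map fun t => t.1).sum ≤ (L.map fun t => e t + t.2.1).sum := by
    apply List.sum_le_sum
    intro t ht
    have h1 := hbs t ht
    have h2 := hcs t ht
    simp only [he]
    split_ifs with h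
    · omega
    · push Not at h
      omega
  rw [List.sum_map_add] at hsum
  have he2 : 2 ≤ (L.map e).sum := by omega
  have h1 := prY_pow_le e q hq0 hq1 L hL (by
    intro t ht
    obtain ⟨l1, l2, l3, l4⟩ := hL t ht
    by_cases h : t.1 = 0 ∨ t.2.1 + t.2.2.1 ≤ t.1
    · have : e t = t.1 := by simp only [he]; rw [if_pos h]
      rw [this]
      exact blkY_good q hq0 hq1 t.1 t.2.1 t.2.2.1 t.2.2.2 l1 l2 l3 l4 h
    · have : e t = 0 := by simp only [he]; rw [if_neg h]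
      rw [this, pow_zero, one_mul]
      obtain ⟨k1, k2, k3, k4, k5, k6, k7, k8, _⟩ := blkY_facts q hq0 hq1 t (hL t ht)
      apply pow_le_pow_left₀ (blkY_P2_nn q hq0 hq1 t (hL t ht))
      have hd : P1 (blkY q t).1 (blkY q t).2.1 (blkY q t).2.2.1 (blkY q t).2.2.2 -
          P2 (blkY q t).1 (blkY q t).2.1 (blkY q t).2.2.1 (blkY q t).2.2.2 =
          ((blkY q t).1 - (blkY q t).2.2.2) * (1 - (blkY q t).2.1 * (blkY q t).2.2.1) := by
        unfold P1 P2; ring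
      have hXY : (blkY q t).2.1 * (blkY q t).2.2.1 ≤ 1 :=
        mul_le_one₀ k6 (k1.le.trans k7) k8
      have := mul_nonneg (sub_nonneg.2 k3) (sub_nonneg.2 hXY)
      linarith)
  have m1 : 0 ≤ prY P1 (L.map (blkY q)) := by
    apply prY_nn
    intro s hs
    rw [List.mem_map] at hs
    obtain ⟨s, hs, rfl⟩ := hs
    exact blkY_P1_nn q hq0 hq1 s (hL s hs)
  have h2 : prY P2 (L.map (blkY q)) ^ 2 ≤ (q * prY P1 (L.map (blkY q))) ^ 2 := by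
    rw [mul_pow]
    exact h1.trans (mul_le_mul_of_nonneg_right (pow_le_pow_of_le_one hq0.le hq1.le he2)
      (pow_nonneg m1 _))
  exact le_of_pow_le_pow_left₀ two_ne_zero (by positivity) h2

theorem DDY_three (q : ℝ) (hq0 : 0 < q) (hq1 : q < 1) (e : ℝ) (he0 : 0 ≤ e) (he1 : e ≤ 1)
    (L : List (ℕ × ℕ × ℕ × ℕ)) (hL : LegalY L)
    (hk : 3 ≤ (L.map fun t => t.1).sum) (hb : (L.map fun t => t.2.1).sum ≤ 1)
    (hc : (L.map fun t => t.2.2.1).sum ≤ 1) :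
    0 ≤ DDY q e (L.map (blkY q)) := by
  refine DDY_nonneg q hq0 hq1 e he0 he1 _ ?_ (IY q hq0 hq1 L hL hk hb hc)
  intro t ht
  rw [List.mem_map] at ht
  obtain ⟨s, hs, rfl⟩ := ht
  exact blkY_facts q hq0 hq1 s (hL s hs)

end Pool.Agent.H34R2.U
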