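import Pool.Agent.H34R2.U.Y4
import Pool.Agent.H34R2.U.Y5
import Pool.Agent.H34R2.U.S7

/-! TASK Y7: the one-sided move for a leaf whose neighbour has degree two, at a vertex of degree
at least four. -/

set_option autoImplicit false

namespace Pool.Agent.H34R2.U

open Finset

variable {n : ℕ}

/-- marks of a block -/
noncomputable def y7_mk (H : SimpleGraph (Fin n)) (u x y : Fin n) (B : Finset (Fin n)) :
    ℕ × ℕ × ℕ × ℕ := (s7_cnt H u B, s7_cnt H x B, s7_cnt H y B, B.card)

theorem y7_FF (F : ℝ → ℝ → ℝ → ℝ → ℝ) (H : SimpleGraph (Fin n)) (q : ℝ) (u x y : Fin n)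
    (L : List (Finset (Fin n))) :
    (L.map (FFY F H q u x y)).prod = prY F ((L.map (y7_mk H u x y)).map (blkY q)) := by
  unfold prY
  rw [List.map_map, List.map_map]
  congr 1
  apply List.map_congr_left
  intro B _
  simp only [Function.comp, FFY, y7_mk, blkY, s7_tt]

theorem y7_legal (H : SimpleGraph (Fin n)) (u x y : Fin n) (A : Finset (Fin n))
    (L : List (Finset (Fin n))) (h : IsPart A L) : LegalY (L.map (y7_mk H u x y)) := by
  intro t ht
  rw [List.mem_map] at ht
  obtain ⟨B, hB, rfl⟩ := ht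
  refine ⟨s7_cnt_le _ _ _, s7_cnt_le _ _ _, s7_cnt_le _ _ _, ?_⟩
  exact Finset.card_pos.mpr (s7_ne A L h B hB)

theorem y7_sum1 (H : SimpleGraph (Fin n)) (u x y : Fin n) (A : Finset (Fin n))
    (L : List (Finset (Fin n))) (h : IsPart A L) :
    ((L.map (y7_mk H u x y)).map fun t => t.1).sum = s7_cnt H u A := by
  rw [List.map_map]
  exact s7_sum H u A L h

theorem y7_sum2 (H : SimpleGraph (Fin n)) (u x y : Fin n) (A : Finset (Fin n))
    (L : List (Finset (Fin n))) (h : IsPart A L) :
    ((L.map (y7_mk H u x y)).map fun t => t.2.1).sum = s7_cnt H x A := by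
  rw [List.map_map]
  exact s7_sum H x A L h

theorem y7_sum3 (H : SimpleGraph (Fin n)) (u x y : Fin n) (A : Finset (Fin n))
    (L : List (Finset (Fin n))) (h : IsPart A L) :
    ((L.map (y7_mk H u x y)).map fun t => t.2.2.1).sum = s7_cnt H y A := by
  rw [List.map_map]
  exact s7_sum H y A L h

theorem y7_cnt_one (H : SimpleGraph (Fin n)) (y v z : Fin n) (K : Finset (Fin n)) (hv : v ∉ K)
    (hy : ∀ j, H.Adj y j → j = v ∨ j = z) : s7_cnt H y K ≤ 1 := by
  classical
  have h1 : s7_cnt H y K ≤ ({z} : Finset (Fin n)).card := by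
    unfold s7_cnt
    apply Finset.card_le_card
    intro j hj
    simp only [Finset.mem_filter, Finset.mem_singleton] at hj ⊢
    rcases hy j hj.2 with h | h
    · exact absurd (h ▸ hj.1) hv
    · exact h
  simpa using h1

/-- `v` is a leaf with neighbour `y`, `y` has at most one further neighbour `z`, `u` has degree at
least four and `x` is a neighbour of `u` of degree at most two. -/
theorem s1_Y (H : SimpleGraph (Fin n)) (q : ℝ) (hq0 : 0 < q) (hq1 : q < 1) (u v x y z : Fin n)
    (huv : u ≠ v) (huy : u ≠ y) (hxv : x ≠ v) (hxy : x ≠ y) (hux : H.Adj u x)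
    (hv : ∀ j, H.Adj v j ↔ j = y) (hy : ∀ j, H.Adj y j → j = v ∨ j = z) (hyu : ¬ H.Adj y u)
    (hd : 4 ≤ dg H u) (hd' : dg H x ≤ 2) :
    RH H q ≤ RH (reloc H u v x) q := by
  classical
  have hdiff := s1_diffY H q hq0 u v x y huv huy hxv hxy hux hv hyu
  obtain ⟨K, hK⟩ : ∃ K, K = ((((univ.erase u).erase v).erase x).erase y) := ⟨_, rfl⟩
  rw [← hK] at hdiff
  have hmem : ∀ j, j ∈ K ↔ j ≠ u ∧ j ≠ v ∧ j ≠ x ∧ j ≠ y := by
    intro j
    rw [hK]
    simp only [mem_erase, mem_univ, and_true]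
    tauto
  have hQ := Qw_wt H hq0.le hq1.le
  have he0 : 0 ≤ Qw H q x y := hQ.2.1 x y
  have he1 : Qw H q x y ≤ 1 := hQ.2.2 x y
  have hdu : dg H u = s7_cnt H u K + 1 := by
    apply s7_dg_eq H u x K _ hux
    · intro j hj
      by_cases hjx : j = x
      · exact Or.inl hjx
      · right
        rw [hmem]
        refine ⟨hj.ne', ?_, hjx, ?_⟩
        · intro h
          rw [h] at hj
          exact huy ((hv u).mp hj.symm)
        · intro h
          rw [h] at hj
          exact hyu hj.symm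
    · intro h
      exact ((hmem x).mp h).2.2.1 rfl
  have hdx : s7_cnt H x K + 1 ≤ dg H x := by
    apply s7_dg_le H x u K _ hux.symm
    intro h
    exact ((hmem u).mp h).1 rfl
  have hcy : s7_cnt H y K ≤ 1 :=
    y7_cnt_one H y v z K (fun h => ((hmem v).mp h).2.1 rfl) hy
  have key := MM_termwise (Finset.univ : Finset (Fin 6)) hQ K
    ![q, -1, Qw H q x y, -(Qw H q x y * q), -(Qw H q x y * (2 * q)), Qw H q x y * (2 * q)]
    ![FFY P1 H q u x y, FFY P2 H q u x y, FFY P3' H q u x y, FFY P4' H q u x y,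
      FFY P5 H q u x y, FFY P6 H q u x y] (by
    intro L hL
    have hDD : 0 ≤ DDY q (Qw H q x y) ((L.map (y7_mk H u x y)).map (blkY q)) := by
      apply DDY_three q hq0 hq1 _ he0 he1 _ (y7_legal H u x y K L hL)
      · rw [y7_sum1 H u x y K L hL]; omega
      · rw [y7_sum2 H u x y K L hL]; omega
      · rw [y7_sum3 H u x y K L hL]; exact hcy
    simp only [Fin.sum_univ_six, Matrix.cons_val_zero, Matrix.cons_val_one, Matrix.cons_val]
    rw [y7_FF, y7_FF, y7_FF, y7_FF, y7_FF, y7_FF]
    unfold DDY at hDD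
    linarith)
  simp only [Fin.sum_univ_six, Matrix.cons_val_zero, Matrix.cons_val_one, Matrix.cons_val] at key
  have h2 : 0 ≤ RH (reloc H u v x) q - RH H q := by
    rw [hdiff]
    apply mul_nonneg (mul_nonneg hq0.le (by linarith))
    linarith
  linarith

end Pool.Agent.H34R2.U
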