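import Pool.Agent.H34R2.U.G14
import Pool.Agent.H34R2.U.SLDefs
import Pool.Agent.H34R2.U.Y7

/-! TASK G20: the moves with slots and `s1_Y` as improvements; consequences for graphs without
improvement. -/

set_option autoImplicit false
set_option linter.unusedSimpArgs false

namespace Pool.Agent.H34R2.U

open Finset G13Aux

variable {n : ℕ}

/-- outside degree of the local vertex `a` according to the slots -/
def oW (mk sl : List ℕ) (a : ℕ) : ℕ :=
  if mk.contains a then sl.getD (mk.idxOf a) 0 else 0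

/-- local side conditions for a move with slots: the number of edges is kept and the sum of the
squares of the degrees decreases. -/
def slotSide (w : ℕ) (l l' : List (ℕ × ℕ)) (mk sl : List ℕ) : Bool :=
  (l.all fun e => decide (e.1 < w) && decide (e.2 < w) && decide (e.1 ≠ e.2)) &&
  (l'.all fun e => decide (e.1 < w) && decide (e.2 < w) && decide (e.1 ≠ e.2)) &&
  decide mk.Nodup && (mk.all fun a => decide (a < w)) &&
  (((List.finRange w).map fun a => dW w l a).sum == ((List.finRange w).map fun a => dW w l' a).sum) &&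
  decide (((List.finRange w).map fun a => (dW w l' a + oW mk sl a.val) ^ 2).sum <
    ((List.finRange w).map fun a => (dW w l a + oW mk sl a.val) ^ 2).sum)

theorem g20_side (w : ℕ) (l l' : List (ℕ × ℕ)) (mk sl : List ℕ)
    (h : slotSide w l l' mk sl = true) :
    (∀ e ∈ l', e.1 < w ∧ e.2 < w ∧ e.1 ≠ e.2) ∧ (∀ a ∈ mk, a < w) ∧
    (∑ a, dW w l a) = (∑ a, dW w l' a) ∧
    (∑ a : Fin w, (dW w l' a + oW mk sl a.val) ^ 2) <
      ∑ a : Fin w, (dW w l a + oW mk sl a.val) ^ 2 := by
  unfold slotSide at h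
  simp only [Bool.and_eq_true] at h
  obtain ⟨⟨⟨⟨⟨h1, h2⟩, h3⟩, h4⟩, h5⟩, h6⟩ := h
  refine ⟨?_, ?_, ?_, ?_⟩
  · intro e he
    have := List.all_eq_true.1 h2 e he
    simp only [Bool.and_eq_true, decide_eq_true_eq] at this
    exact ⟨this.1.1, this.1.2, this.2⟩
  · intro a ha
    have := List.all_eq_true.1 h4 a ha
    exact of_decide_eq_true this
  · rw [beq_iff_eq, h873_sum_list, h873_sum_list] at h5
    exact h5
  · have h7 := of_decide_eq_true h6
    rw [h873_sum_list, h873_sum_list] at h7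
    exact h7

theorem g20_outdeg {w : ℕ} (H : SimpleGraph (Fin n)) (φ : Fin w ↪ Fin n) (a : Fin w) :
    outdeg H φ a.val = h873ext H φ a := by
  classical
  unfold outdeg h873ext
  rw [dif_pos a.2]
  congr 1
  ext j
  simp only [Finset.mem_filter, Finset.mem_univ, true_and, not_exists]
  exact ⟨fun h => ⟨h.2, h.1⟩, fun h => ⟨h.2, h.1⟩⟩

theorem slot_improve (w : ℕ) (l l' : List (ℕ × ℕ)) (mk sl : List ℕ) (hm : SlotOK w l l' mk sl)
    (hs : slotSide w l l' mk sl = true) (H : SimpleGraph (Fin n)) (φ : Fin w ↪ Fin n)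
    (hc : Conf H φ l mk) (ho : ∀ i < mk.length, outdeg H φ (mk.getD i w) = sl.getD i 0)
    (q : ℝ) (hq0 : 0 < q) (hq1 : q < 1) : Imp H q := by
  classical
  obtain ⟨hl', hmkw, hsd, hsq⟩ := g20_side w l l' mk sl hs
  have hR := hm n H φ hc ho q hq0 hq1
  have hc' := Conf_repl H φ l l' mk hc hl'
  have hext : ∀ a : Fin w, h873ext H φ a = oW mk sl a.val := by
    intro a
    by_cases ha : a.val ∈ mk
    · have h1 : mk.idxOf a.val < mk.length := List.idxOf_lt_length_iff.2 ha
      have h2 := ho _ h1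
      have h3 : mk.getD (mk.idxOf a.val) w = a.val := by
        rw [List.getD_eq_getElem _ _ h1]
        exact List.getElem_idxOf h1
      rw [h3, g20_outdeg] at h2
      unfold oW
      rw [if_pos (List.contains_iff_mem.2 ha)]
      exact h2
    · rw [h873_ext_zero H φ l mk hc a ha]
      unfold oW
      rw [if_neg]
      intro h
      exact ha (List.contains_iff_mem.1 h)
  have hin : ∀ a, dg H (φ a) = dW w l a + oW mk sl a.val := fun a => by
    rw [h873_dg_in H φ l hc.1 a, hext]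
  have hin' : ∀ a, dg (repl H φ l') (φ a) = dW w l' a + oW mk sl a.val := by
    intro a
    rw [h873_dg_in (repl H φ l') φ l' hc'.1 a, h873_ext_repl, hext]
  have hout : ∀ v ∈ Finset.univ.filter (fun v => ¬ ∃ a, φ a = v),
      dg (repl H φ l') v = dg H v := by
    intro v hv
    exact h873_dg_out H φ l' v (Finset.mem_filter.1 hv).2
  have hs2 : (∑ v, dg (repl H φ l') v ^ 2) + 1 ≤ ∑ v, dg H v ^ 2 := by
    rw [h873_sum_split φ, h873_sum_split φ (fun v => dg H v ^ 2)]
    have e1 := Finset.sum_congr (rfl : (Finset.univ.filter (fun v => ¬ ∃ a, φ a = v)) = _)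
      (fun v hv => congrArg (fun x => x ^ 2) (hout v hv))
    simp only [hin, hin']
    omega
  refine ⟨repl H φ l', ?_, hR, ?_⟩
  · rw [h873_sum_split φ, h873_sum_split φ (fun v => dg H v)]
    congr 1
    · exact Finset.sum_congr rfl hout
    · simp only [hin, hin', Finset.sum_add_distrib, hsd]
  · unfold pot
    have h3 : n ^ 3 - tri (repl H φ l') ≤ n ^ 3 := Nat.sub_le _ _
    have h4 : ((∑ i, dg (repl H φ l') i ^ 2) + 1) * (n ^ 3 + 1) ≤
        (∑ i, dg H i ^ 2) * (n ^ 3 + 1) := Nat.mul_le_mul_right _ hs2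
    rw [add_mul] at h4
    omega

/-- convenient form of `slot_improve` -/
theorem g20_improve {w : ℕ} (l l' : List (ℕ × ℕ)) (mk sl : List ℕ) (hm : SlotOK w l l' mk sl)
    (hs : slotSide w l l' mk sl = true) (H : SimpleGraph (Fin n)) (q : ℝ) (hq0 : 0 < q)
    (hq1 : q < 1) (L : Fin w → Fin n) (hinj : Function.Injective L)
    (hconf : ∀ a b, H.Adj (L a) (L b) ↔ adjL l a b = true)
    (hcl : ∀ a : Fin w, a.val ∉ mk → ∀ j, H.Adj (L a) j → ∃ b, L b = j)
    (hdeg : ∀ i < mk.length, ∀ h : mk.getD i w < w, dg H (L ⟨mk.getD i w, h⟩) =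
      dW w l ⟨mk.getD i w, h⟩ + sl.getD i 0) : Imp H q := by
  classical
  obtain ⟨hl', hmkw, hsd, hsq⟩ := g20_side w l l' mk sl hs
  have hc : Conf H ⟨L, hinj⟩ l mk := ⟨hconf, hcl⟩
  refine slot_improve w l l' mk sl hm hs H ⟨L, hinj⟩ hc ?_ q hq0 hq1
  intro i hi
  have h1 : mk.getD i w < w := by
    rw [List.getD_eq_getElem _ _ hi]
    exact hmkw _ (List.getElem_mem hi)
  have h2 := g20_outdeg H ⟨L, hinj⟩ ⟨mk.getD i w, h1⟩
  have h3 := h873_dg_in H ⟨L, hinj⟩ l hconf ⟨mk.getD i w, h1⟩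
  have h4 := hdeg i hi h1
  have h5 : dg H ((⟨L, hinj⟩ : Fin w ↪ Fin n) ⟨mk.getD i w, h1⟩) =
      dg H (L ⟨mk.getD i w, h1⟩) := rfl
  rw [h5, h4] at h3
  rw [h2]
  omega

/-- a leaf at a vertex of degree three or more can be improved. -/
theorem g20_leaf (H : SimpleGraph (Fin n)) (q : ℝ) (hq0 : 0 < q) (hq1 : q < 1) (hI : ¬ Imp H q)
    (u x : Fin n) (hu : 3 ≤ dg H u) (hux : H.Adj u x) : 2 ≤ dg H x := by
  by_contra hx
  have h1 : dg H x = 1 := by
    have := dg_pos hux.symm
    omega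
  have hxu := dg_one' h1 hux.symm
  obtain ⟨x', hx', nx'⟩ := exists_nb (le_trans (by norm_num) hu) x
  have nvx : ¬ H.Adj x x' := fun h => hx'.ne ((hxu x').1 h).symm
  exact hI (reloc_imp H q u x x' hux.ne nx' hx' nvx (by omega)
    (kelmans H q hq0 hq1 u x x' hux.ne hx' nvx nx' fun j h => Or.inl ((hxu j).1 h)))

/-- the four moves with slots -/
def svP3a : Prop := SlotOK 5 [(0,1),(1,2),(3,4)] [(0,1),(1,2),(0,4)] [3,4] [2,1]
def svP3b : Prop := SlotOK 5 [(0,1),(1,2),(3,4)] [(0,1),(1,2),(0,2)] [3,4] [2,2]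
def svP4 : Prop := SlotOK 6 [(0,1),(1,2),(2,3),(4,5)] [(0,1),(1,2),(2,3),(0,3)] [4,5] [2,1]
def svTail : Prop := SlotOK 5 [(0,1),(1,2),(2,3),(3,4)] [(0,1),(1,2),(2,3),(0,3)] [4] [2]

/-- an isolated edge forces maximum degree two (this is the second half of the proof of
`maxdeg_two` in G14). -/
theorem K2_maxdeg (H : SimpleGraph (Fin n)) (q : ℝ) (hq0 : 0 < q) (hq1 : q < 1)
    (hI : ¬ Imp H q) (v y : Fin n) (hK : K2 H v y) (u : Fin n) : dg H u ≤ 2 := by
  classical
  by_contra hu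
  have hu3 : 3 ≤ dg H u := by omega
  obtain ⟨hv, hy⟩ := hK
  have dv := g14_dg_one hv
  have dy := g14_dg_one hy
  have hnb : ∀ s : Fin n, 3 ≤ dg H s → s ≠ v ∧ s ≠ y ∧ ∀ x, H.Adj s x → x ≠ v ∧ x ≠ y ∧
      ¬ H.Adj v x ∧ ¬ H.Adj x v := by
    intro s hs
    have h1 : s ≠ v := by rintro rfl; omega
    have h2 : s ≠ y := by rintro rfl; omega
    have h3 : ∀ x, H.Adj s x → x ≠ v ∧ x ≠ y := by
      intro x hx
      constructor
      · rintro rfl
        exact h2 ((hv s).1 hx.symm)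
      · rintro rfl
        exact h1 ((hy s).1 hx.symm)
    refine ⟨h1, h2, fun x hx => ⟨(h3 x hx).1, (h3 x hx).2, ?_, ?_⟩⟩
    · intro h
      exact (h3 x hx).2 ((hv x).1 h)
    · intro h
      exact (h3 x hx).2 ((hv x).1 h.symm)
  have key1 : ∀ s x : Fin n, 3 ≤ dg H s → H.Adj s x → (4 ≤ dg H s ∨ dg H x ≤ 2) → False := by
    intro s x hs hx hd
    obtain ⟨h1, h2, h3⟩ := hnb s hs
    obtain ⟨h4, h5, h6, h7⟩ := h3 x hx
    exact hI (reloc_imp H q s v x h1 h4 hx h6 (by omega)
      (s1_one H q hq0 hq1 s v x y h1 h2 h4 h5 hx hv (fun j hj => Or.inl ((hy j).1 hj)) hs hd))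
  have hex : ∃ x, H.Adj u x := by
    by_contra hne
    push Not at hne
    have : dg H u = 0 := by
      unfold dg
      rw [Finset.card_eq_zero, Finset.filter_eq_empty_iff]
      intro j _
      exact hne j
    omega
  obtain ⟨x, hx⟩ := hex
  have hdu : dg H u = 3 := by
    by_contra h
    exact key1 u x hu3 hx (Or.inl (by omega))
  have hdx3 : 3 ≤ dg H x := by
    by_contra h
    exact key1 u x hu3 hx (Or.inr (by omega))
  have hdx : dg H x = 3 := by
    by_contra h
    exact key1 x u hdx3 hx.symm (Or.inl (by omega))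
  obtain ⟨h1, h2, h3⟩ := hnb u hu3
  obtain ⟨h4, h5, h6, h7⟩ := h3 x hx
  obtain ⟨g1, g2, g3⟩ := hnb x hdx3
  obtain ⟨g4, g5, g6, g7⟩ := g3 u hx.symm
  have h := s1_two H q hq0 hq1 u v x y h1 h2 h4 h5 hx hv hy hdu hdx
  rcases le_total (RH H q) (RH (reloc H u v x) q) with hR | hR
  · exact hI (reloc_imp H q u v x h1 h4 hx h6 (by omega) hR)
  · exact hI (reloc_imp H q x v u g1 g4 hx.symm g6 (by omega) (by linarith))

/-- the host of a tail has degree at least four. -/
theorem Tail_host (m : svTail) (H : SimpleGraph (Fin n)) (q : ℝ) (hq0 : 0 < q) (hq1 : q < 1)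
    (hI : ¬ Imp H q) (v y z w t : Fin n) (h : Tail H v y z w t) : 4 ≤ dg H t := by
  classical
  by_contra hcon
  have f := h.g14facts
  obtain ⟨f1, f2, f3, f4, f5, f6, f7, f8⟩ := f
  obtain ⟨nvz, nyw, nvw, nzt, nyt, nvt, hv, hy, hz, hw, ht⟩ := h
  have hdt : dg H t = 3 := by omega
  have n1 := f1.ne
  have n2 := f3.ne
  have n3 := f5.ne
  have n4 := f7.ne
  have t1 : ¬ H.Adj t v := fun h => nyt.symm ((hv t).1 h.symm)
  have t2 : ¬ H.Adj t y := fun h => ((hy t).1 h.symm).elim nvt.symm nzt.symm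
  have t3 : ¬ H.Adj t z := fun h => ((hz t).1 h.symm).elim nyt.symm n4.symm
  have hinj : Function.Injective ![v, y, z, w, t] := by
    intro a b hab
    fin_cases a <;> fin_cases b <;> simp_all
  refine hI (g20_improve _ _ _ _ m (by decide) H q hq0 hq1 ![v, y, z, w, t] hinj ?_ ?_ ?_)
  · intro a b
    fin_cases a <;> fin_cases b <;>
      simp [adjL, hv, hy, hz, hw, t1, t2, t3, f8, nvz, nvz.symm, nyw, nyw.symm, nvw, nvw.symm,
        nzt, nzt.symm, nyt, nyt.symm, nvt, nvt.symm, n1, n1.symm, n2, n2.symm, n3, n3.symm,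
        n4, n4.symm]
  · intro a ha j hj
    fin_cases a
    · exact ⟨1, ((hv j).1 hj).symm⟩
    · exact ((hy j).1 hj).elim (fun h => ⟨0, h.symm⟩) fun h => ⟨2, h.symm⟩
    · exact ((hz j).1 hj).elim (fun h => ⟨1, h.symm⟩) fun h => ⟨3, h.symm⟩
    · exact ((hw j).1 hj).elim (fun h => ⟨2, h.symm⟩) fun h => ⟨4, h.symm⟩
    · exact absurd (List.mem_singleton.2 rfl) ha
  · intro i hi h5
    have hi0 : i = 0 := by simpa using hi
    subst hi0
    show dg H t = dW 5 _ 4 + 2
    rw [hdt]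
    decide

/-- a path component with three vertices: every vertex of degree three or more has only
neighbours of degree at least three, and if its degree is three then of degree at least four. -/
theorem P3_nbr (ma : svP3a) (mb : svP3b) (H : SimpleGraph (Fin n)) (q : ℝ) (hq0 : 0 < q)
    (hq1 : q < 1) (hI : ¬ Imp H q) (a b c : Fin n) (h : P3 H a b c) (u x : Fin n)
    (hu : 3 ≤ dg H u) (hux : H.Adj u x) : 3 ≤ dg H x ∧ (dg H u = 3 → 4 ≤ dg H x) := by
  classical
  obtain ⟨f1, f2, f3, f4⟩ := h.g14facts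
  obtain ⟨nac, ha, hb, hc⟩ := h
  have nab := f1.ne
  have nbc := f3.ne
  have da := g14_dg_one ha
  have dc := g14_dg_one hc
  have db := g14_dg_two nac hb
  have nua : u ≠ a := by rintro rfl; omega
  have nub : u ≠ b := by rintro rfl; omega
  have nuc : u ≠ c := by rintro rfl; omega
  have nux := hux.ne
  have nxa : x ≠ a := by
    rintro rfl
    exact nub ((ha u).1 hux.symm)
  have nxb : x ≠ b := by
    rintro rfl
    exact ((hb u).1 hux.symm).elim nua nuc
  have nxc : x ≠ c := by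
    rintro rfl
    exact nub ((hc u).1 hux.symm)
  have u1 : ¬ H.Adj u a := fun h => nub ((ha u).1 h.symm)
  have u2 : ¬ H.Adj u b := fun h => ((hb u).1 h.symm).elim nua nuc
  have u3 : ¬ H.Adj u c := fun h => nub ((hc u).1 h.symm)
  have x1 : ¬ H.Adj x a := fun h => nxb ((ha x).1 h.symm)
  have x2 : ¬ H.Adj x b := fun h => ((hb x).1 h.symm).elim nxa nxc
  have x3 : ¬ H.Adj x c := fun h => nxb ((hc x).1 h.symm)
  have x4 : H.Adj x u := hux.symm
  have hinj : Function.Injective ![a, b, c, u, x] := by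
    intro i j hij
    fin_cases i <;> fin_cases j <;> simp_all
  have hconf : ∀ i j, H.Adj (![a, b, c, u, x] i) (![a, b, c, u, x] j) ↔
      adjL [(0,1),(1,2),(3,4)] i j = true := by
    intro i j
    fin_cases i <;> fin_cases j <;>
      simp [adjL, ha, hb, hc, u1, u2, u3, x1, x2, x3, x4, hux, nab, nab.symm, nac, nac.symm, nbc,
        nbc.symm, nua, nua.symm, nub, nub.symm, nuc, nuc.symm, nxa, nxa.symm, nxb, nxb.symm,
        nxc, nxc.symm, nux, nux.symm]
  have hcl : ∀ i : Fin 5, i.val ∉ [3, 4] → ∀ j, H.Adj (![a, b, c, u, x] i) j →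
      ∃ k, ![a, b, c, u, x] k = j := by
    intro i hi j hj
    fin_cases i
    · exact ⟨1, ((ha j).1 hj).symm⟩
    · exact ((hb j).1 hj).elim (fun h => ⟨0, h.symm⟩) fun h => ⟨2, h.symm⟩
    · exact ⟨1, ((hc j).1 hj).symm⟩
    · exact absurd (List.mem_cons_self) hi
    · exact absurd (List.mem_cons_of_mem _ (List.mem_singleton.2 rfl)) hi
  have hd : ∀ s t : ℕ, dg H u = 1 + s → dg H x = 1 + t → ∀ i < [3, 4].length,
      ∀ h : [3, 4].getD i 5 < 5, dg H (![a, b, c, u, x] ⟨[3, 4].getD i 5, h⟩) =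
        dW 5 [(0,1),(1,2),(3,4)] ⟨[3, 4].getD i 5, h⟩ + [s, t].getD i 0 := by
    intro s t hs ht i hi h5
    have hi2 : i = 0 ∨ i = 1 := by
      have : i < 2 := hi
      omega
    rcases hi2 with rfl | rfl
    · show dg H u = dW 5 _ 3 + s
      rw [hs]
      congr 1
    · show dg H x = dW 5 _ 4 + t
      rw [ht]
      congr 1
  have hx2 := g20_leaf H q hq0 hq1 hI u x hu hux
  have hx3 : 3 ≤ dg H x := by
    by_contra hx
    have hdx : dg H x = 2 := by omega
    rcases (show dg H u = 3 ∨ 4 ≤ dg H u by omega) with hdu | hdu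
    · exact hI (g20_improve _ _ _ _ ma (by decide) H q hq0 hq1 ![a, b, c, u, x] hinj hconf hcl
        (hd 2 1 (by omega) (by omega)))
    · exact hI (reloc_imp H q u a x nua nxa hux (fun h => x1 h.symm) (by omega)
        (s1_Y H q hq0 hq1 u a x b c nua nub nxa nxb hux ha (fun j hj => (hb j).1 hj)
          (fun h => u2 h.symm) hdu (by omega)))
  refine ⟨hx3, fun hdu => ?_⟩
  by_contra hx4
  have hdx : dg H x = 3 := by omega
  exact hI (g20_improve _ _ _ _ mb (by decide) H q hq0 hq1 ![a, b, c, u, x] hinj hconf hcl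
    (hd 2 2 (by omega) (by omega)))

/-- a path component with four vertices: every vertex of degree three or more has only
neighbours of degree at least three. -/
theorem P4_nbr (m : svP4) (H : SimpleGraph (Fin n)) (q : ℝ) (hq0 : 0 < q)
    (hq1 : q < 1) (hI : ¬ Imp H q) (v y z w : Fin n) (h : P4 H v y z w) (u x : Fin n)
    (hu : 3 ≤ dg H u) (hux : H.Adj u x) : 3 ≤ dg H x := by
  classical
  obtain ⟨f1, f2, f3, f4, f5, f6⟩ := h.g14facts
  obtain ⟨nvz, nyw, nvw, hv, hy, hz, hw⟩ := h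
  have nvy := f1.ne
  have nyz := f3.ne
  have nzw := f5.ne
  have dv := g14_dg_one hv
  have dw := g14_dg_one hw
  have dy := g14_dg_two nvz hy
  have dz := g14_dg_two nyw hz
  have nuv : u ≠ v := by rintro rfl; omega
  have nuy : u ≠ y := by rintro rfl; omega
  have nuz : u ≠ z := by rintro rfl; omega
  have nuw : u ≠ w := by rintro rfl; omega
  have nux := hux.ne
  have nxv : x ≠ v := by
    rintro rfl
    exact nuy ((hv u).1 hux.symm)
  have nxy : x ≠ y := by
    rintro rfl
    exact ((hy u).1 hux.symm).elim nuv nuz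
  have nxz : x ≠ z := by
    rintro rfl
    exact ((hz u).1 hux.symm).elim nuy nuw
  have nxw : x ≠ w := by
    rintro rfl
    exact nuz ((hw u).1 hux.symm)
  have u1 : ¬ H.Adj u v := fun h => nuy ((hv u).1 h.symm)
  have u2 : ¬ H.Adj u y := fun h => ((hy u).1 h.symm).elim nuv nuz
  have u3 : ¬ H.Adj u z := fun h => ((hz u).1 h.symm).elim nuy nuw
  have u4 : ¬ H.Adj u w := fun h => nuz ((hw u).1 h.symm)
  have x1 : ¬ H.Adj x v := fun h => nxy ((hv x).1 h.symm)
  have x2 : ¬ H.Adj x y := fun h => ((hy x).1 h.symm).elim nxv nxz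
  have x3 : ¬ H.Adj x z := fun h => ((hz x).1 h.symm).elim nxy nxw
  have x4 : ¬ H.Adj x w := fun h => nxz ((hw x).1 h.symm)
  have x5 : H.Adj x u := hux.symm
  have hinj : Function.Injective ![v, y, z, w, u, x] := by
    intro i j hij
    fin_cases i <;> fin_cases j <;> simp_all
  have hx2 := g20_leaf H q hq0 hq1 hI u x hu hux
  by_contra hx
  have hdx : dg H x = 2 := by omega
  rcases (show dg H u = 3 ∨ 4 ≤ dg H u by omega) with hdu | hdu
  · refine hI (g20_improve _ _ _ _ m (by decide) H q hq0 hq1 ![v, y, z, w, u, x] hinj ?_ ?_ ?_)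
    · intro i j
      fin_cases i <;> fin_cases j <;>
        simp [adjL, hv, hy, hz, hw, u1, u2, u3, u4, x1, x2, x3, x4, x5, hux, nvz, nvz.symm, nyw,
          nyw.symm, nvw, nvw.symm, nvy, nvy.symm, nyz, nyz.symm, nzw, nzw.symm, nuv, nuv.symm,
          nuy, nuy.symm, nuz, nuz.symm, nuw, nuw.symm, nxv, nxv.symm, nxy, nxy.symm,
          nxz, nxz.symm, nxw, nxw.symm, nux, nux.symm]
    · intro i hi j hj
      fin_cases i
      · exact ⟨1, ((hv j).1 hj).symm⟩
      · exact ((hy j).1 hj).elim (fun h => ⟨0, h.symm⟩) fun h => ⟨2, h.symm⟩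
      · exact ((hz j).1 hj).elim (fun h => ⟨1, h.symm⟩) fun h => ⟨3, h.symm⟩
      · exact ⟨2, ((hw j).1 hj).symm⟩
      · exact absurd (List.mem_cons_self) hi
      · exact absurd (List.mem_cons_of_mem _ (List.mem_singleton.2 rfl)) hi
    · intro i hi h6
      have hi2 : i = 0 ∨ i = 1 := by
        have : i < 2 := hi
        omega
      rcases hi2 with rfl | rfl
      · show dg H u = dW 6 _ 4 + 2
        rw [hdu]
        decide
      · show dg H x = dW 6 _ 5 + 1
        rw [hdx]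
        decide
  · exact hI (reloc_imp H q u v x nuv nxv hux (fun h => x1 h.symm) (by omega)
      (s1_Y H q hq0 hq1 u v x y z nuv nuy nxv nxy hux hv (fun j hj => (hy j).1 hj)
        (fun h => u2 h.symm) hdu (by omega)))

end Pool.Agent.H34R2.U
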