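import Pool.Agent.H34R2.U.G16

/-! TASK G23: structure of a graph without improvement whose degrees are at most two. -/

set_option autoImplicit false

namespace Pool.Agent.H34R2.U

open Finset

variable {n : ℕ}

/-- as `noImp_TE` (G16), but with the bound on the degrees as a hypothesis. -/
theorem noImp_TE' (M : AllMoves) (H : SimpleGraph (Fin n)) (q : ℝ) (hq0 : 0 < q) (hq1 : q < 1)
    (hI : ¬ Imp H q) (hle : ∀ v, dg H v ≤ 2) (a : ℕ) (ha : 1 ≤ a) (ha3 : 3 ∣ a)
    (hsum : ∑ v, dg H v = n + a) : TE H := by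
  classical
  have hge : ∀ v, 1 ≤ dg H v := fun v => no_isolated H q hq0 hq1 hI (by omega) v
  have h12 : ∀ v, dg H v = 1 ∨ dg H v = 2 := fun v => by
    have := hle v; have := hge v; omega
  have hcases := two_cases M.m5 M.m6 M.c6 M.c7 M.l7 H q hq0 hq1 hI hge hle
  let D2 : Finset (Fin n) := Finset.univ.filter fun v => dg H v = 2
  let D : Finset (Fin n) := Finset.univ.filter fun v =>
    ∃ a b, a ≠ b ∧ H.Adj v a ∧ H.Adj v b ∧ H.Adj a b
  have hD : ∀ v, v ∈ D ↔ ∃ a b, a ≠ b ∧ H.Adj v a ∧ H.Adj v b ∧ H.Adj a b := by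
    intro v; simp [D]
  have hDD : D ⊆ D2 := by
    intro v hv
    obtain ⟨x, y, hxy, hx, hy, _⟩ := (hD v).1 hv
    have := g16_dg_two_of hxy (g16_two_nbrs (hle v) hxy hx hy)
    simp [D2, this]
  have hcard2 : D2.card = a := by
    have h1 : ∑ v, dg H v = ∑ v : Fin n, (1 + if dg H v = 2 then 1 else 0) := by
      apply Finset.sum_congr rfl
      intro v _
      rcases h12 v with h | h <;> simp [h]
    rw [h1, Finset.sum_add_distrib, Finset.sum_const, Finset.card_univ, Fintype.card_fin,
      smul_eq_mul, mul_one, Finset.sum_boole] at hsum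
    simp only [Nat.cast_id] at hsum
    show (Finset.univ.filter fun v => dg H v = 2).card = a
    omega
  have hdv := tri_dvd H hle D hD
  let E : Finset (Fin n) := D2 \ D
  have hEc : E.card + D.card = a := by
    rw [← hcard2]; exact Finset.card_sdiff_add_card_eq_card hDD
  have hE3 : 3 ∣ E.card := (Nat.dvd_add_left hdv).1 (hEc ▸ ha3)
  have hEmem : ∀ v, v ∈ E ↔ dg H v = 2 ∧ ¬ ∃ a b, a ≠ b ∧ H.Adj v a ∧ H.Adj v b ∧ H.Adj a b := by
    intro v
    simp only [E, Finset.mem_sdiff, hD]
    simp [D2]
  have hEcase : ∀ v ∈ E, (∃ a b, P3 H a v b) ∨ (∃ a b c, P4 H a v b c) ∨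
      (∃ a b c, C4 H v a b c) ∨ (∃ a b c d, C5 H v a b c d) := by
    intro v hv
    obtain ⟨h1, h2⟩ := (hEmem v).1 hv
    rcases hcases v h1 with h | h
    · exact absurd h h2
    · exact h
  -- membership criterion
  have hEin : ∀ v x y, x ≠ y → (∀ j, H.Adj v j ↔ j = x ∨ j = y) → ¬ H.Adj x y → v ∈ E := by
    intro v x y hxy h hn
    rw [hEmem]
    refine ⟨g16_dg_two_of hxy h, ?_⟩
    rintro ⟨s, t, hst, hs, ht, hadj⟩
    rcases (h s).1 hs with rfl | rfl <;> rcases (h t).1 ht with rfl | rfl
    · exact hst rfl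
    · exact hn hadj
    · exact hn hadj.symm
    · exact hst rfl
  have hEempty : E = ∅ := by
    by_contra hEne
    by_cases hC4 : ∃ a b c d, C4 H a b c d
    · obtain ⟨x, y, z, w, h⟩ := hC4
      have hEeq : E = [x, y, z, w].toFinset := by
        ext v
        simp only [List.mem_toFinset, List.mem_cons, List.not_mem_nil, or_false]
        constructor
        · intro hv
          rcases hEcase v hv with ⟨r, s, h'⟩ | ⟨r, s, t, h'⟩ | ⟨r, s, t, h'⟩ | ⟨r, s, t, u, h'⟩
          · exact (no_C4_P3 M.c43 H q hq0 hq1 hI _ _ _ _ _ _ _ h h').elim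
          · exact (no_C4_P4 M.c44 H q hq0 hq1 hI _ _ _ _ _ _ _ _ h h').elim
          · by_contra hcon
            push Not at hcon
            exact no_C4_C4 M.cc44 H q hq0 hq1 hI _ _ _ _ _ _ _ _ h h' hcon
          · exact (no_C4_C5 M.cc45 H q hq0 hq1 hI _ _ _ _ _ _ _ _ _ h h').elim
        · have nd := g16_C4_nodup h
          obtain ⟨hac, hbd, hx, hy, hz, hw⟩ := h
          simp only [List.nodup_cons, List.mem_cons, List.not_mem_nil, or_false, not_or] at nd
          rintro (rfl | rfl | rfl | rfl)
          · exact hEin _ y w hbd hx (by rw [hy]; tauto)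
          · exact hEin _ x z hac hy (by rw [hx]; tauto)
          · exact hEin _ y w hbd hz (by rw [hy]; tauto)
          · exact hEin _ x z hac hw (by rw [hx]; tauto)
      rw [hEeq, List.toFinset_card_of_nodup (g16_C4_nodup h)] at hE3
      revert hE3; simp; try decide
    by_cases hC5 : ∃ a b c d e, C5 H a b c d e
    · obtain ⟨x, y, z, w, t, h⟩ := hC5
      have h5E : ∀ v ∈ [x, y, z, w, t].toFinset, v ∈ E := by
        intro v hv
        simp only [List.mem_toFinset, List.mem_cons, List.not_mem_nil, or_false] at hv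
        have nd := g16_C5_nodup h
        obtain ⟨h1, h2, h3, h4, h5, hx, hy, hz, hw, ht⟩ := h
        simp only [List.nodup_cons, List.mem_cons, List.not_mem_nil, or_false, not_or] at nd
        rcases hv with rfl | rfl | rfl | rfl | rfl
        · exact hEin _ y t h4 hx (by rw [hy]; tauto)
        · exact hEin _ x z h1 hy (by rw [hx]; tauto)
        · exact hEin _ y w h3 hz (by rw [hy]; tauto)
        · exact hEin _ z t h5 hw (by rw [hz]; tauto)
        · exact hEin _ x w h2 ht (by rw [hx]; tauto)
      have hEcase' : ∀ v ∈ E, v ∈ [x, y, z, w, t].toFinset ∨ (∃ a b c, P4 H a v b c) := by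
        intro v hv
        rcases hEcase v hv with ⟨r, s, h'⟩ | h' | ⟨r, s, u, h'⟩ | ⟨r, s, u, u', h'⟩
        · exact (no_C5_P3 M.c53 H q hq0 hq1 hI _ _ _ _ _ _ _ _ h h').elim
        · exact Or.inr h'
        · exact absurd ⟨_, _, _, _, h'⟩ hC4
        · left
          simp only [List.mem_toFinset, List.mem_cons, List.not_mem_nil, or_false]
          by_contra hcon
          push Not at hcon
          exact no_C5_C5 M.cc55 H q hq0 hq1 hI _ _ _ _ _ _ _ _ _ _ h h' hcon
      by_cases hP4 : ∃ a b c d, P4 H a b c d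
      · obtain ⟨p, r, s, u, h'⟩ := hP4
        have hEeq : E = ([x, y, z, w, t] ++ [r, s]).toFinset := by
          ext v
          rw [List.toFinset_append, Finset.mem_union]
          constructor
          · intro hv
            rcases hEcase' v hv with h1 | ⟨p', s', u', h2⟩
            · exact Or.inl h1
            · right
              simp only [List.mem_toFinset, List.mem_cons, List.not_mem_nil, or_false]
              by_cases e1 : p' = p
              · subst e1
                left
                exact (h'.2.2.2.1 v).1 ((h2.2.2.2.1 v).2 rfl)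
              · by_cases e2 : p' = u
                · subst e2
                  right
                  exact (h'.2.2.2.2.2.2 v).1 ((h2.2.2.2.1 v).2 rfl)
                · exact (no_P4_P4 M.m44 H q hq0 hq1 hI _ _ _ _ _ _ _ _ h' h2 e1 e2).elim
          · rintro (hv | hv)
            · exact h5E v hv
            · simp only [List.mem_toFinset, List.mem_cons, List.not_mem_nil, or_false] at hv
              have nd := g16_P4_nodup h'
              obtain ⟨h1, h2, h3, hp, hr, hs, hu⟩ := h'
              simp only [List.nodup_cons, List.mem_cons, List.not_mem_nil, or_false,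
                not_or] at nd
              rcases hv with rfl | rfl
              · exact hEin _ p s h1 hr (by rw [hp]; tauto)
              · exact hEin _ r u h2 hs (by rw [hr]; tauto)
        have nd7 : ([x, y, z, w, t] ++ [r, s]).Nodup := by
          apply g16_nodup_app (g16_C5_nodup h)
          · have := g16_P4_nodup h'
            simp only [List.nodup_cons, List.mem_cons, List.not_mem_nil, or_false, not_or] at this ⊢
            tauto
          · have hcl := g16_C5_closed h
            have hp := g16_leaf_notC5 h h'.2.2.2.1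
            have hu := g16_leaf_notC5 h h'.2.2.2.2.2.2
            have hr := g16_closed_out hcl ((h'.2.2.2.2.1 p).2 (Or.inl rfl)) hp
            have hs := g16_closed_out hcl ((h'.2.2.2.2.2.1 u).2 (Or.inr rfl)) hu
            intro k hk hk'
            simp only [List.mem_cons, List.not_mem_nil, or_false] at hk
            rcases hk with rfl | rfl
            · exact hr (by simpa using hk')
            · exact hs (by simpa using hk')
        rw [hEeq, List.toFinset_card_of_nodup nd7] at hE3
        revert hE3; simp; try decide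
      · have hEeq : E = [x, y, z, w, t].toFinset := by
          ext v
          constructor
          · intro hv
            rcases hEcase' v hv with h1 | ⟨p', s', u', h2⟩
            · exact h1
            · exact absurd ⟨_, _, _, _, h2⟩ hP4
          · exact h5E v
        rw [hEeq, List.toFinset_card_of_nodup (g16_C5_nodup h)] at hE3
        revert hE3; simp; try decide
    by_cases hP4 : ∃ a b c d, P4 H a b c d
    · obtain ⟨p, r, s, u, h'⟩ := hP4
      have hEeq : E = [r, s].toFinset := by
        ext v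
        simp only [List.mem_toFinset, List.mem_cons, List.not_mem_nil, or_false]
        constructor
        · intro hv
          rcases hEcase v hv with ⟨r', s', h2⟩ | ⟨p', s', u', h2⟩ | ⟨r', s', t', h2⟩ |
            ⟨r', s', t', u', h2⟩
          · exact (no_P3_P4 M.m34 H q hq0 hq1 hI _ _ _ _ _ _ _ h2 h').elim
          · by_cases e1 : p' = p
            · subst e1
              left
              exact (h'.2.2.2.1 v).1 ((h2.2.2.2.1 v).2 rfl)
            · by_cases e2 : p' = u
              · subst e2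
                right
                exact (h'.2.2.2.2.2.2 v).1 ((h2.2.2.2.1 v).2 rfl)
              · exact (no_P4_P4 M.m44 H q hq0 hq1 hI _ _ _ _ _ _ _ _ h' h2 e1 e2).elim
          · exact absurd ⟨_, _, _, _, h2⟩ hC4
          · exact absurd ⟨_, _, _, _, _, h2⟩ hC5
        · intro hv
          have nd := g16_P4_nodup h'
          obtain ⟨h1, h2, h3, hp, hr, hs, hu⟩ := h'
          simp only [List.nodup_cons, List.mem_cons, List.not_mem_nil, or_false,
            not_or] at nd
          rcases hv with rfl | rfl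
          · exact hEin _ p s h1 hr (by rw [hp]; tauto)
          · exact hEin _ r u h2 hs (by rw [hr]; tauto)
      have nd2 : [r, s].Nodup := by
        have := g16_P4_nodup h'
        simp only [List.nodup_cons, List.mem_cons, List.not_mem_nil, or_false, not_or] at this ⊢
        tauto
      rw [hEeq, List.toFinset_card_of_nodup nd2] at hE3
      revert hE3; simp; try decide
    · -- only P3's
      have hEP3 : ∀ v ∈ E, ∃ a b, P3 H a v b := by
        intro v hv
        rcases hEcase v hv with h | ⟨p', s', u', h2⟩ | ⟨r', s', t', h2⟩ | ⟨r', s', t', u', h2⟩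
        · exact h
        · exact absurd ⟨_, _, _, _, h2⟩ hP4
        · exact absurd ⟨_, _, _, _, h2⟩ hC4
        · exact absurd ⟨_, _, _, _, _, h2⟩ hC5
      have hEle : E.card ≤ 2 := by
        by_contra hcon
        push Not at hcon
        obtain ⟨v1, hv1, v2, hv2, v3, hv3, h12', h13', h23'⟩ := Finset.two_lt_card.1 hcon
        obtain ⟨a1, b1, k1⟩ := hEP3 v1 hv1
        obtain ⟨a2, b2, k2⟩ := hEP3 v2 hv2
        obtain ⟨a3, b3, k3⟩ := hEP3 v3 hv3
        exact no_3P3 M.m333 H q hq0 hq1 hI _ _ _ _ _ _ _ _ _ k1 k2 k3 h12' h13' h23'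
      have hEpos : 0 < E.card := Finset.card_pos.2 (Finset.nonempty_iff_ne_empty.2 hEne)
      omega
  refine ⟨h12, ?_⟩
  intro u v w huv hvw huw
  have hv2 := g16_two_nbrs (hle v) huw huv.symm hvw
  have hd2 := g16_dg_two_of huw hv2
  have hvE : v ∉ E := by rw [hEempty]; simp
  rw [hEmem] at hvE
  push Not at hvE
  obtain ⟨s, t, hst, hs, ht, hadj⟩ := hvE hd2
  rcases (hv2 s).1 hs with rfl | rfl <;> rcases (hv2 t).1 ht with rfl | rfl
  · exact absurd rfl hst
  · exact hadj
  · exact hadj.symm
  · exact absurd rfl hst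

/-- disjoint union of triangles and at most one cycle of length four or five: all degrees are two
and all vertices outside a set `E` of size `n % 3 + (if n % 3 = 0 then 0 else 3)` are in
triangles; `E` is empty, a four-cycle or a five-cycle. -/
def TC (H : SimpleGraph (Fin n)) : Prop :=
  (∀ v, dg H v = 2) ∧
    ((∀ v, ∃ a b, a ≠ b ∧ H.Adj v a ∧ H.Adj v b ∧ H.Adj a b) ∨
      (∃ a b c d, C4 H a b c d ∧ ∀ v, v ≠ a → v ≠ b → v ≠ c → v ≠ d →
        ∃ x y, x ≠ y ∧ H.Adj v x ∧ H.Adj v y ∧ H.Adj x y) ∨
      (∃ a b c d e, C5 H a b c d e ∧ ∀ v, v ≠ a → v ≠ b → v ≠ c → v ≠ d → v ≠ e →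
        ∃ x y, x ≠ y ∧ H.Adj v x ∧ H.Adj v y ∧ H.Adj x y))

theorem noImp_TC (M : AllMoves) (H : SimpleGraph (Fin n)) (q : ℝ) (hq0 : 0 < q) (hq1 : q < 1)
    (hI : ¬ Imp H q) (h2 : ∀ v, dg H v = 2) : TC H := by
  have hcases : ∀ v, (∃ a b, a ≠ b ∧ H.Adj v a ∧ H.Adj v b ∧ H.Adj a b) ∨
      (∃ a b c, C4 H v a b c) ∨ (∃ a b c d, C5 H v a b c d) := by
    intro v
    rcases two_cases M.m5 M.m6 M.c6 M.c7 M.l7 H q hq0 hq1 hI (fun v => by rw [h2 v]; omega)
      (fun v => (h2 v).le) v (h2 v) with h | ⟨a, b, h⟩ | ⟨a, b, c, h⟩ | h | h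
    · exact Or.inl h
    · have h3 := g14_dg_one h.2.1
      rw [h2 a] at h3
      omega
    · have h3 := g14_dg_one h.2.2.2.1
      rw [h2 a] at h3
      omega
    · exact Or.inr (Or.inl h)
    · exact Or.inr (Or.inr h)
  refine ⟨h2, ?_⟩
  by_cases hC4 : ∃ a b c d, C4 H a b c d
  · right; left
    obtain ⟨a, b, c, d, h⟩ := hC4
    refine ⟨a, b, c, d, h, fun v h1 h2 h3 h4 => ?_⟩
    rcases hcases v with h' | ⟨x, y, z, h'⟩ | ⟨x, y, z, w, h'⟩
    · exact h'
    · exact (no_C4_C4 M.cc44 H q hq0 hq1 hI _ _ _ _ _ _ _ _ h h' ⟨h1, h2, h3, h4⟩).elim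
    · exact (no_C4_C5 M.cc45 H q hq0 hq1 hI _ _ _ _ _ _ _ _ _ h h').elim
  · by_cases hC5 : ∃ a b c d e, C5 H a b c d e
    · right; right
      obtain ⟨a, b, c, d, e, h⟩ := hC5
      refine ⟨a, b, c, d, e, h, fun v h1 h2 h3 h4 h5 => ?_⟩
      rcases hcases v with h' | ⟨x, y, z, h'⟩ | ⟨x, y, z, w, h'⟩
      · exact h'
      · exact absurd ⟨_, _, _, _, h'⟩ hC4
      · exact (no_C5_C5 M.cc55 H q hq0 hq1 hI _ _ _ _ _ _ _ _ _ _ h h'
          ⟨h1, h2, h3, h4, h5⟩).elim
    · left
      intro v
      rcases hcases v with h' | ⟨x, y, z, h'⟩ | ⟨x, y, z, w, h'⟩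
      · exact h'
      · exact absurd ⟨_, _, _, _, h'⟩ hC4
      · exact absurd ⟨_, _, _, _, _, h'⟩ hC5

open Classical in
theorem g23_dg (H : SimpleGraph (Fin n)) (v : Fin n) :
    dg H v = (Finset.univ.filter fun j => H.Adj v j).card := by
  unfold dg
  rfl

/-- a vertex outside a closed set has small degree -/
theorem g23_dg_le (H : SimpleGraph (Fin n)) (S : Finset (Fin n))
    (hS : ∀ s ∈ S, ∀ j, H.Adj s j → j ∈ S) (u : Fin n) (hu : u ∉ S) :
    dg H u + S.card + 1 ≤ n := by
  classical
  have h1 : Disjoint (Finset.univ.filter fun j => H.Adj u j) (insert u S) := by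
    rw [Finset.disjoint_left]
    intro x hx hx'
    rw [Finset.mem_filter] at hx
    rcases Finset.mem_insert.1 hx' with h | h
    · rw [h] at hx
      exact H.loopless.irrefl u hx.2
    · exact hu (hS x h u hx.2.symm)
  have h2 := Finset.card_le_univ ((Finset.univ.filter fun j => H.Adj u j) ∪ insert u S)
  rw [Finset.card_union_of_disjoint h1, Finset.card_insert_of_notMem hu, Fintype.card_fin] at h2
  have h3 : dg H u = (Finset.univ.filter fun j => H.Adj u j).card := by
    rw [g23_dg]
  omega

/-- all vertices outside `S` have degree two, by counting -/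
theorem g23_rest (H : SimpleGraph (Fin 6)) (hle : ∀ v, dg H v ≤ 2) (hsum : ∑ v, dg H v = 10)
    (S : Finset (Fin 6)) (h : ∑ v ∈ S, dg H v + 2 * (6 - S.card) ≤ 10) :
    ∀ u, u ∉ S → dg H u = 2 := by
  classical
  intro u hu
  by_contra hne
  have hlt : dg H u < 2 := lt_of_le_of_ne (hle u) hne
  have h1 : ∑ v ∈ Sᶜ, dg H v < ∑ v ∈ Sᶜ, 2 :=
    Finset.sum_lt_sum (fun v _ => hle v) ⟨u, Finset.mem_compl.2 hu, hlt⟩
  rw [Finset.sum_const, smul_eq_mul, Finset.card_compl, Fintype.card_fin] at h1
  have h2 := Finset.sum_add_sum_compl S (fun v => dg H v)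
  rw [hsum] at h2
  omega

/-- a graph of maximum degree two on `n ≤ 6` vertices with `n - 1` edges, without improvement:
for `n = 6` it is `K2 ∪ C4` or `P3 ∪ C3`, for `n = 4` it is `P4`, for `n = 3` it is `P3`. Only the
case `n = 6` is needed. -/
theorem noImp_six (M : AllMoves) (H : SimpleGraph (Fin 6)) (q : ℝ) (hq0 : 0 < q) (hq1 : q < 1)
    (hI : ¬ Imp H q) (hle : ∀ v, dg H v ≤ 2) (hsum : ∑ v, dg H v = 10) :
    (∃ v y a b c d, K2 H v y ∧ C4 H a b c d) ∨
      (∃ a b c x y z, P3 H a b c ∧ x ≠ y ∧ y ≠ z ∧ x ≠ z ∧ H.Adj x y ∧ H.Adj y z ∧ H.Adj x z) := by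
  classical
  have hge : ∀ v, 1 ≤ dg H v := fun v => no_isolated H q hq0 hq1 hI (by omega) v
  obtain ⟨v, hv⟩ : ∃ v, dg H v = 1 := by
    by_contra hcon
    push Not at hcon
    have h1 : ∑ v, dg H v = ∑ v : Fin 6, 2 := by
      apply Finset.sum_congr rfl
      intro v _
      have := hle v
      have := hge v
      have := hcon v
      omega
    rw [hsum] at h1
    simp at h1
  rcases leaf_cases M.m5 M.m6 H q hq0 hq1 hI v hv with ⟨y, h⟩ | ⟨y, z, h⟩ | ⟨y, z, w, h⟩ |
    ⟨y, z, w, t, h⟩
  · -- an isolated edge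
    left
    have hvy : v ≠ y := ((h.1 y).2 rfl).ne
    have dy : dg H y = 1 := g14_dg_one h.2
    have hcl : ∀ s ∈ ({v, y} : Finset (Fin 6)), ∀ j, H.Adj s j → j ∈ ({v, y} : Finset (Fin 6)) := by
      intro s hs j hj
      simp only [Finset.mem_insert, Finset.mem_singleton] at hs ⊢
      rcases hs with hs | hs
      · rw [hs] at hj
        exact Or.inr ((h.1 j).1 hj)
      · rw [hs] at hj
        exact Or.inl ((h.2 j).1 hj)
    have hc : ({v, y} : Finset (Fin 6)).card = 2 := Finset.card_pair hvy
    have hrest := g23_rest H hle hsum {v, y} (by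
      rw [Finset.sum_pair hvy, hc, hv, dy])
    obtain ⟨u, hu⟩ : ∃ u, u ∉ ({v, y} : Finset (Fin 6)) := by
      by_contra hcon
      push Not at hcon
      have h1 : (Finset.univ : Finset (Fin 6)) ⊆ {v, y} := fun x _ => hcon x
      have h2 := Finset.card_le_card h1
      rw [hc] at h2
      simp at h2
    have hout : ∀ x y', H.Adj x y' → y' ∉ ({v, y} : Finset (Fin 6)) →
        x ∉ ({v, y} : Finset (Fin 6)) := fun x y' h1 h2 => g16_closed_out hcl h1 h2
    rcases two_cases M.m5 M.m6 M.c6 M.c7 M.l7 H q hq0 hq1 hI hge hle u (hrest u hu) with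
      ⟨a, b, hab, ha, hb, hadj⟩ | ⟨a, b, h'⟩ | ⟨a, b, c, h'⟩ | ⟨a, b, c, h'⟩ | ⟨a, b, c, d, h'⟩
    · exfalso
      have nu := g16_two_nbrs (hle u) hab ha hb
      have na := g16_two_nbrs (hle a) hb.ne ha.symm hadj
      have nb := g16_two_nbrs (hle b) ha.ne hb.symm hadj.symm
      have ha' := hout a u ha.symm hu
      have hb' := hout b u hb.symm hu
      have hcl5 : ∀ s ∈ ({v, y} ∪ {u, a, b} : Finset (Fin 6)), ∀ j, H.Adj s j →
          j ∈ ({v, y} ∪ {u, a, b} : Finset (Fin 6)) := by
        intro s hs j hj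
        rw [Finset.mem_union] at hs ⊢
        rcases hs with hs | hs
        · exact Or.inl (hcl s hs j hj)
        · right
          simp only [Finset.mem_insert, Finset.mem_singleton] at hs ⊢
          rcases hs with hs | hs | hs <;> rw [hs] at hj
          · rcases (nu j).1 hj with h1 | h1 <;> simp [h1]
          · rcases (na j).1 hj with h1 | h1 <;> simp [h1]
          · rcases (nb j).1 hj with h1 | h1 <;> simp [h1]
      have hc5 : ({v, y} ∪ {u, a, b} : Finset (Fin 6)).card = 5 := by
        rw [Finset.card_union_of_disjoint, hc,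
          Finset.card_eq_three.2 ⟨u, a, b, ha.ne, hb.ne, hab, rfl⟩]
        rw [Finset.disjoint_right]
        intro x hx
        simp only [Finset.mem_insert, Finset.mem_singleton] at hx
        rcases hx with hx | hx | hx <;> rw [hx] <;> assumption
      obtain ⟨w, hw⟩ : ∃ w, w ∉ ({v, y} ∪ {u, a, b} : Finset (Fin 6)) := by
        by_contra hcon
        push Not at hcon
        have h1 : (Finset.univ : Finset (Fin 6)) ⊆ {v, y} ∪ {u, a, b} := fun x _ => hcon x
        have h2 := Finset.card_le_card h1
        rw [hc5] at h2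
        simp at h2
      have h6 := g23_dg_le H _ hcl5 w hw
      rw [hc5] at h6
      have := hge w
      omega
    · exfalso
      have h1 := hout a u ((h'.2.1 u).2 rfl) hu
      have h2 := hrest a h1
      rw [g14_dg_one h'.2.1] at h2
      omega
    · exfalso
      have h1 := hout a u ((h'.2.2.2.1 u).2 rfl) hu
      have h2 := hrest a h1
      rw [g14_dg_one h'.2.2.2.1] at h2
      omega
    · exact ⟨v, y, u, a, b, c, h, h'⟩
    · exfalso
      have h1 := g16_leaf_notC5 h' h.1
      have h2 := g23_dg_le H _ (g16_C5_closed h') v h1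
      have h3 := g16_C5_nodup h'
      have h4 : ({u, a, b, c, d} : Finset (Fin 6)).card = 5 := by
        have h5 := List.toFinset_card_of_nodup h3
        simpa using h5
      rw [h4, hv] at h2
      omega
  · -- a path with three vertices
    right
    have dz : dg H z = 1 := g14_dg_one h.2.2.2
    have dy : dg H y = 2 := g14_dg_two h.1 h.2.2.1
    have nd := g16_P3_nodup h
    have hc : ({v, y, z} : Finset (Fin 6)).card = 3 := by
      have h5 := List.toFinset_card_of_nodup nd
      simpa using h5
    have hvy : v ≠ y := ((h.2.1 y).2 rfl).ne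
    have hyz : y ≠ z := ((h.2.2.1 z).2 (Or.inr rfl)).ne
    have hcl : ∀ s ∈ ({v, y, z} : Finset (Fin 6)), ∀ j, H.Adj s j →
        j ∈ ({v, y, z} : Finset (Fin 6)) := by
      intro s hs j hj
      simp only [Finset.mem_insert, Finset.mem_singleton] at hs ⊢
      rcases hs with hs | hs | hs <;> rw [hs] at hj
      · exact Or.inr (Or.inl ((h.2.1 j).1 hj))
      · rcases (h.2.2.1 j).1 hj with h1 | h1
        · exact Or.inl h1
        · exact Or.inr (Or.inr h1)
      · exact Or.inr (Or.inl ((h.2.2.2 j).1 hj))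
    have hrest := g23_rest H hle hsum {v, y, z} (by
      rw [Finset.sum_insert (by simp [hvy, h.1]), Finset.sum_pair hyz, hc, hv, dy, dz]
      omega)
    have hcc : (({v, y, z} : Finset (Fin 6))ᶜ).card = 3 := by
      rw [Finset.card_compl, hc, Fintype.card_fin]
    obtain ⟨x1, x2, x3, h12, h13, h23, hx⟩ := Finset.card_eq_three.1 hcc
    have hmem : ∀ x, x ∉ ({v, y, z} : Finset (Fin 6)) ↔ x = x1 ∨ x = x2 ∨ x = x3 := by
      intro x
      rw [← Finset.mem_compl, hx]
      simp
    have hadj : ∀ x x', x ∉ ({v, y, z} : Finset (Fin 6)) → x' ∉ ({v, y, z} : Finset (Fin 6)) →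
        x ≠ x' → H.Adj x x' := by
      intro x x' hx1 hx2 hne
      by_contra hn
      have hsub : (Finset.univ.filter fun j => H.Adj x j) ⊆
          ((({v, y, z} : Finset (Fin 6))ᶜ).erase x).erase x' := by
        intro j hj
        rw [Finset.mem_filter] at hj
        rw [Finset.mem_erase, Finset.mem_erase, Finset.mem_compl]
        refine ⟨?_, hj.2.ne', g16_closed_out hcl hj.2.symm hx1⟩
        rintro rfl
        exact hn hj.2
      have h1 := Finset.card_le_card hsub
      rw [Finset.card_erase_of_mem (by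
        rw [Finset.mem_erase, Finset.mem_compl]; exact ⟨hne.symm, hx2⟩),
        Finset.card_erase_of_mem (Finset.mem_compl.2 hx1), hcc] at h1
      have h2 := hrest x hx1
      rw [g23_dg] at h2
      have h3 : (Finset.univ.filter fun j => H.Adj x j).card = 2 := by
        rw [← h2]
      omega
    refine ⟨v, y, z, x1, x2, x3, h, h12, h23, h13, ?_, ?_, ?_⟩
    · exact hadj _ _ ((hmem _).2 (by simp)) ((hmem _).2 (by simp)) h12
    · exact hadj _ _ ((hmem _).2 (by simp)) ((hmem _).2 (by simp)) h23
    · exact hadj _ _ ((hmem _).2 (by simp)) ((hmem _).2 (by simp)) h13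
  · -- a path with four vertices
    exfalso
    have dw : dg H w = 1 := g14_dg_one h.2.2.2.2.2.2
    have dy : dg H y = 2 := g14_dg_two h.1 h.2.2.2.2.1
    have dz : dg H z = 2 := g14_dg_two h.2.1 h.2.2.2.2.2.1
    have nd := g16_P4_nodup h
    have hc : ({v, y, z, w} : Finset (Fin 6)).card = 4 := by
      have h5 := List.toFinset_card_of_nodup nd
      simpa using h5
    have hsumS : ∑ x ∈ ({v, y, z, w} : Finset (Fin 6)), dg H x = 6 := by
      have h5 := List.sum_toFinset (fun x => dg H x) nd
      simp only [List.toFinset_cons, List.toFinset_nil, List.map_cons, List.map_nil,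
        List.sum_cons, List.sum_nil, insert_empty_eq] at h5
      rw [h5, hv, dy, dz, dw]
      norm_num
    have hrest := g23_rest H hle hsum {v, y, z, w} (by rw [hsumS, hc])
    have hcl : ∀ s ∈ ({v, y, z, w} : Finset (Fin 6)), ∀ j, H.Adj s j →
        j ∈ ({v, y, z, w} : Finset (Fin 6)) := by
      obtain ⟨k1, k2, k3, k4, k5, k6, k7⟩ := h
      intro s hs j hj
      simp only [Finset.mem_insert, Finset.mem_singleton] at hs ⊢
      rcases hs with hs | hs | hs | hs <;> rw [hs] at hj
      · exact Or.inr (Or.inl ((k4 j).1 hj))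
      · rcases (k5 j).1 hj with h1 | h1 <;> simp [h1]
      · rcases (k6 j).1 hj with h1 | h1 <;> simp [h1]
      · simp [(k7 j).1 hj]
    obtain ⟨u, hu⟩ : ∃ u, u ∉ ({v, y, z, w} : Finset (Fin 6)) := by
      by_contra hcon
      push Not at hcon
      have h1 : (Finset.univ : Finset (Fin 6)) ⊆ {v, y, z, w} := fun x _ => hcon x
      have h2 := Finset.card_le_card h1
      rw [hc] at h2
      simp at h2
    have h6 := g23_dg_le H _ hcl u hu
    rw [hc, hrest u hu] at h6
    omega
  · exfalso
    have h1 := h.2.2.2.2.2.2.2.2.2.2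
    have h2 := hle t
    omega

end Pool.Agent.H34R2.U
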