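import Pool.Agent.H34R2.U.G23
import Pool.Agent.H34R2.U.G17

/-! TASK G24: the extremal graphs for `n` missing edges exist and are unique up to isomorphism
(helper25). -/

set_option autoImplicit false

namespace Pool.Agent.H34R2.U

open Finset

variable {n : ℕ}

/-- exceptional part `φ` with the edge list `l`, triangles outside -/
def g24Ex (H : SimpleGraph (Fin n)) {m : ℕ} (φ : Fin m ↪ Fin n) (l : List (ℕ × ℕ)) : Prop :=
  Conf H φ l [] ∧
    ∀ v, (¬ ∃ i, φ i = v) → ∃ x y, x ≠ y ∧ H.Adj v x ∧ H.Adj v y ∧ H.Adj x y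

/-- the vertices outside the exceptional part -/
abbrev g24V {m : ℕ} (φ : Fin m ↪ Fin n) : Type := {v : Fin n // ¬ ∃ i, φ i = v}

/-- same triangle -/
def g24r (H : SimpleGraph (Fin n)) {m : ℕ} (φ : Fin m ↪ Fin n) (i j : g24V φ) : Prop :=
  i = j ∨ H.Adj i.1 j.1

theorem g24_eqv (H : SimpleGraph (Fin n)) {m : ℕ} (φ : Fin m ↪ Fin n) (l : List (ℕ × ℕ))
    (h : g24Ex H φ l) (h2 : ∀ v, dg H v = 2) : Equivalence (g24r H φ) := by
  refine ⟨fun i => Or.inl rfl, ?_, ?_⟩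
  · rintro i j (h1 | h1)
    · exact Or.inl h1.symm
    · exact Or.inr h1.symm
  · rintro i j k (h1 | h1) (h3 | h3)
    · exact Or.inl (h1.trans h3)
    · subst h1; exact Or.inr h3
    · subst h3; exact Or.inr h1
    · by_cases hik : i = k
      · exact Or.inl hik
      · refine Or.inr ?_
        have hik' : i.1 ≠ k.1 := fun h => hik (Subtype.ext h)
        obtain ⟨x, y, hxy, hx, hy, hxy'⟩ := h.2 j.1 j.2
        have hn := g16_two_nbrs (h2 j.1).le hxy hx hy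
        rcases (hn i.1).1 h1.symm with h4 | h4 <;> rcases (hn k.1).1 h3 with h5 | h5
        · exact absurd (h4.trans h5.symm) hik'
        · rw [h4, h5]; exact hxy'
        · rw [h4, h5]; exact hxy'.symm
        · exact absurd (h4.trans h5.symm) hik'

theorem g24_cs (H : SimpleGraph (Fin n)) {m : ℕ} (φ : Fin m ↪ Fin n) (l : List (ℕ × ℕ))
    (h : g24Ex H φ l) (h2 : ∀ v, dg H v = 2) (v : g24V φ) [Fintype (g24V φ)] :
    g17cs (g24r H φ) v = 3 := by
  classical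
  have h3 : (insert v.1 (Finset.univ.filter fun j => H.Adj v.1 j)).card = 3 := by
    rw [Finset.card_insert_of_notMem (by simp)]
    have := h2 v.1
    unfold dg at this
    rw [this]
  rw [← h3]
  unfold g17cs
  rw [← Finset.card_image_of_injective _ Subtype.val_injective]
  congr 1
  ext w
  simp only [Finset.mem_image, mem_filter, mem_univ, true_and, mem_insert]
  constructor
  · rintro ⟨w', h4 | h4, rfl⟩
    · exact Or.inl (congrArg Subtype.val h4).symm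
    · exact Or.inr h4
  · rintro (h4 | h4)
    · exact ⟨v, Or.inl rfl, h4.symm⟩
    · refine ⟨⟨w, ?_⟩, Or.inr h4, rfl⟩
      rintro ⟨i, rfl⟩
      exact v.2 (h.1.2 i (by simp) v.1 h4.symm)

theorem g24_cardV {m : ℕ} (φ : Fin m ↪ Fin n) [Fintype (g24V φ)] :
    Fintype.card (g24V φ) + m = n := by
  classical
  have h1 := Fintype.card_subtype_compl (fun v : Fin n => ∃ i, φ i = v)
  have h2 : Fintype.card {v : Fin n // ∃ i, φ i = v} = m := by
    have := Fintype.card_congr (Equiv.ofInjective φ φ.injective :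
      Fin m ≃ {v : Fin n // ∃ i, φ i = v})
    rw [Fintype.card_fin] at this
    refine Eq.trans ?_ this.symm
    congr!
  have h3 := Fintype.card_subtype_le (fun v : Fin n => ∃ i, φ i = v)
  rw [h2, Fintype.card_fin] at h1 h3
  have h4 : Fintype.card (g24V φ) = n - m := by
    rw [← h1]
  omega

theorem g24_card (H : SimpleGraph (Fin n)) {m : ℕ} (φ : Fin m ↪ Fin n) (l : List (ℕ × ℕ))
    (h : g24Ex H φ l) (h2 : ∀ v, dg H v = 2) : ∃ k, n = m + 3 * k := by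
  classical
  have h3 := g17_count (g24r H φ) (g24_eqv H φ l h h2) 3
  have h4 : (univ.filter fun v => g17cs (g24r H φ) v = 3) = univ := by
    ext v
    simp [g24_cs H φ l h h2 v]
  rw [h4, Finset.card_univ] at h3
  have h5 := g24_cardV φ
  rw [h3] at h5
  exact ⟨_, (h5.symm.trans (add_comm _ _))⟩

theorem g24_glue (H H' : SimpleGraph (Fin n)) {m : ℕ} (φ φ' : Fin m ↪ Fin n)
    (l : List (ℕ × ℕ)) (h : g24Ex H φ l) (h' : g24Ex H' φ' l) (h2 : ∀ v, dg H v = 2)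
    (h2' : ∀ v, dg H' v = 2) :
    ∃ σ : Equiv.Perm (Fin n), ∀ i j, H.Adj i j ↔ H'.Adj (σ i) (σ j) := by
  classical
  have hcard : Fintype.card (g24V φ) = Fintype.card (g24V φ') := by
    have h5 := g24_cardV φ
    have h6 := g24_cardV φ'
    omega
  let g0 : g24V φ ≃ g24V φ' := Fintype.equivOfCardEq hcard
  have eqv := g24_eqv H φ l h h2
  have eqv'' := g24_eqv H' φ' l h' h2'
  have eqv' : Equivalence (fun i j => g24r H' φ' (g0 i) (g0 j)) :=
    ⟨fun i => eqv''.refl _, fun hh => eqv''.symm hh, fun hh hh' => eqv''.trans hh hh'⟩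
  have cs := g24_cs H φ l h h2
  have cs' : ∀ v, g17cs (fun i j => g24r H' φ' (g0 i) (g0 j)) v = 3 := by
    intro v
    rw [← g24_cs H' φ' l h' h2' (g0 v)]
    unfold g17cs
    refine Finset.card_equiv g0 ?_
    intro w
    simp
  obtain ⟨τ, hτ⟩ := g17_glue (g24r H φ) (fun i j => g24r H' φ' (g0 i) (g0 j)) eqv eqv'
    (fun s => by simp [cs, cs'])
  let g : g24V φ ≃ g24V φ' := τ.trans g0
  have hg : ∀ i j : g24V φ, H.Adj i.1 j.1 ↔ H'.Adj (g i).1 (g j).1 := by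
    intro i j
    have h3 : g24r H φ i j ↔ g24r H' φ' (g i) (g j) := hτ i j
    unfold g24r at h3
    have h4 : g i = g j ↔ i = j := g.injective.eq_iff
    rw [h4] at h3
    by_cases hij : i = j
    · subst hij
      simp
    · simpa [hij] using h3
  let f : {v // ∃ i, φ i = v} ≃ {v // ∃ i, φ' i = v} :=
    (Equiv.ofInjective φ φ.injective).symm.trans (Equiv.ofInjective φ' φ'.injective)
  have hf : ∀ i, (f ⟨φ i, i, rfl⟩).1 = φ' i := by
    intro i
    have h3 : (Equiv.ofInjective φ φ.injective).symm ⟨φ i, i, rfl⟩ = i :=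
      (Equiv.ofInjective φ φ.injective).injective (by simp)
    show ((Equiv.ofInjective φ' φ'.injective)
      ((Equiv.ofInjective φ φ.injective).symm ⟨φ i, i, rfl⟩)).1 = φ' i
    rw [h3]
    rfl
  let σ : Equiv.Perm (Fin n) := Equiv.subtypeCongr f g
  have hσ1 : ∀ i, σ (φ i) = φ' i := by
    intro i
    show (Equiv.sumCompl _) ((Equiv.sumCongr f g) ((Equiv.sumCompl _).symm (φ i))) = φ' i
    rw [Equiv.sumCompl_symm_apply_of_pos ⟨i, rfl⟩]
    exact hf i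
  have hσ2 : ∀ v (hv : ¬ ∃ i, φ i = v), σ v = (g ⟨v, hv⟩).1 := by
    intro v hv
    show (Equiv.sumCompl _) ((Equiv.sumCongr f g) ((Equiv.sumCompl _).symm v)) = _
    rw [Equiv.sumCompl_symm_apply_of_neg (p := fun v => ∃ i, φ i = v) hv]
    rfl
  have hcl : ∀ a v, (¬ ∃ i, φ i = v) → ¬ H.Adj (φ a) v := fun a v hv hh =>
    hv (h.1.2 a (by simp) v hh)
  have hcl' : ∀ a v, (¬ ∃ i, φ' i = v) → ¬ H'.Adj (φ' a) v := fun a v hv hh =>
    hv (h'.1.2 a (by simp) v hh)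
  refine ⟨σ, fun i j => ?_⟩
  by_cases hi : ∃ a, φ a = i
  · obtain ⟨a, rfl⟩ := hi
    by_cases hj : ∃ b, φ b = j
    · obtain ⟨b, rfl⟩ := hj
      rw [hσ1, hσ1, h.1.1, h'.1.1]
    · rw [hσ1, hσ2 j hj]
      exact iff_of_false (hcl a j hj) (hcl' a _ (g ⟨j, hj⟩).2)
  · by_cases hj : ∃ b, φ b = j
    · obtain ⟨b, rfl⟩ := hj
      rw [hσ1, hσ2 i hi]
      exact iff_of_false (fun hh => hcl b i hi hh.symm)
        (fun hh => hcl' b _ (g ⟨i, hi⟩).2 hh.symm)
    · rw [hσ2 i hi, hσ2 j hj]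
      exact hg ⟨i, hi⟩ ⟨j, hj⟩

theorem g24_ex4 (H : SimpleGraph (Fin n)) (a b c d : Fin n) (h : C4 H a b c d)
    (ht : ∀ v, v ≠ a → v ≠ b → v ≠ c → v ≠ d →
        ∃ x y, x ≠ y ∧ H.Adj v x ∧ H.Adj v y ∧ H.Adj x y) :
    ∃ φ : Fin 4 ↪ Fin n, g24Ex H φ [(0,1),(1,2),(2,3),(0,3)] := by
  have nd := g16_C4_nodup h
  obtain ⟨hac, hbd, ha, hb, hc, hd⟩ := h
  refine ⟨g16_embL _ nd, ?_, ?_⟩
  · refine g16_conf_embL H _ nd _ ?_
    intro i j
    fin_cases i <;> simp [Fin.exists_fin_succ, adjL, ha, hb, hc, hd, @eq_comm _ j]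
  · intro v hv
    refine ht v ?_ ?_ ?_ ?_
    · rintro rfl; exact hv ⟨0, rfl⟩
    · rintro rfl; exact hv ⟨1, rfl⟩
    · rintro rfl; exact hv ⟨2, rfl⟩
    · rintro rfl; exact hv ⟨3, rfl⟩

theorem g24_ex5 (H : SimpleGraph (Fin n)) (a b c d e : Fin n) (h : C5 H a b c d e)
    (ht : ∀ v, v ≠ a → v ≠ b → v ≠ c → v ≠ d → v ≠ e →
        ∃ x y, x ≠ y ∧ H.Adj v x ∧ H.Adj v y ∧ H.Adj x y) :
    ∃ φ : Fin 5 ↪ Fin n, g24Ex H φ [(0,1),(1,2),(2,3),(3,4),(0,4)] := by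
  have nd := g16_C5_nodup h
  obtain ⟨_, _, _, _, _, ha, hb, hc, hd, he⟩ := h
  refine ⟨g16_embL _ nd, ?_, ?_⟩
  · refine g16_conf_embL H _ nd _ ?_
    intro i j
    fin_cases i <;> simp [Fin.exists_fin_succ, adjL, ha, hb, hc, hd, he, @eq_comm _ j]
  · intro v hv
    refine ht v ?_ ?_ ?_ ?_ ?_
    · rintro rfl; exact hv ⟨0, rfl⟩
    · rintro rfl; exact hv ⟨1, rfl⟩
    · rintro rfl; exact hv ⟨2, rfl⟩
    · rintro rfl; exact hv ⟨3, rfl⟩
    · rintro rfl; exact hv ⟨4, rfl⟩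

theorem g24_ex0 (H : SimpleGraph (Fin n))
    (ht : ∀ v, ∃ x y, x ≠ y ∧ H.Adj v x ∧ H.Adj v y ∧ H.Adj x y) :
    ∃ φ : Fin 0 ↪ Fin n, g24Ex H φ [] :=
  ⟨⟨Fin.elim0, fun i => i.elim0⟩, ⟨fun i => i.elim0, fun i => i.elim0⟩, fun v _ => ht v⟩

theorem g24_cases (H : SimpleGraph (Fin n)) (h : TC H) :
    (∃ φ : Fin 0 ↪ Fin n, g24Ex H φ []) ∨
      (∃ φ : Fin 4 ↪ Fin n, g24Ex H φ [(0,1),(1,2),(2,3),(0,3)]) ∨
      (∃ φ : Fin 5 ↪ Fin n, g24Ex H φ [(0,1),(1,2),(2,3),(3,4),(0,4)]) := by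
  rcases h.2 with h1 | ⟨a, b, c, d, h1, h2⟩ | ⟨a, b, c, d, e, h1, h2⟩
  · exact Or.inl (g24_ex0 H h1)
  · exact Or.inr (Or.inl (g24_ex4 H a b c d h1 h2))
  · exact Or.inr (Or.inr (g24_ex5 H a b c d e h1 h2))

theorem TC_iso (H H' : SimpleGraph (Fin n)) (h : TC H) (h' : TC H') :
    ∃ σ : Equiv.Perm (Fin n), ∀ i j, H.Adj i j ↔ H'.Adj (σ i) (σ j) := by
  rcases g24_cases H h with ⟨φ, h1⟩ | ⟨φ, h1⟩ | ⟨φ, h1⟩ <;>
    rcases g24_cases H' h' with ⟨φ', h1'⟩ | ⟨φ', h1'⟩ | ⟨φ', h1'⟩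
  · exact g24_glue H H' φ φ' _ h1 h1' h.1 h'.1
  · exfalso
    obtain ⟨k, hk⟩ := g24_card H φ _ h1 h.1
    obtain ⟨k', hk'⟩ := g24_card H' φ' _ h1' h'.1
    omega
  · exfalso
    obtain ⟨k, hk⟩ := g24_card H φ _ h1 h.1
    obtain ⟨k', hk'⟩ := g24_card H' φ' _ h1' h'.1
    omega
  · exfalso
    obtain ⟨k, hk⟩ := g24_card H φ _ h1 h.1
    obtain ⟨k', hk'⟩ := g24_card H' φ' _ h1' h'.1
    omega
  · exact g24_glue H H' φ φ' _ h1 h1' h.1 h'.1
  · exfalso
    obtain ⟨k, hk⟩ := g24_card H φ _ h1 h.1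
    obtain ⟨k', hk'⟩ := g24_card H' φ' _ h1' h'.1
    omega
  · exfalso
    obtain ⟨k, hk⟩ := g24_card H φ _ h1 h.1
    obtain ⟨k', hk'⟩ := g24_card H' φ' _ h1' h'.1
    omega
  · exfalso
    obtain ⟨k, hk⟩ := g24_card H φ _ h1 h.1
    obtain ⟨k', hk'⟩ := g24_card H' φ' _ h1' h'.1
    omega
  · exact g24_glue H H' φ φ' _ h1 h1' h.1 h'.1

theorem g24_adjL_symm {w : ℕ} (l : List (ℕ × ℕ)) (a b : Fin w) : adjL l a b = adjL l b a := by
  unfold adjL
  congr 1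
  funext e
  rw [Bool.or_comm]

theorem g24_build (k m : ℕ) (l : List (ℕ × ℕ)) (hirr : ∀ i : Fin m, adjL l i i = false)
    (hdeg : ∀ i : Fin m, (∑ j : Fin m, if adjL l i j = true then 1 else 0) = 2)
    (n : ℕ) (hn : n = 3 * k + m) :
    ∃ (H : SimpleGraph (Fin n)) (φ : Fin m ↪ Fin n), g24Ex H φ l ∧ ∀ v, dg H v = 2 := by
  classical
  let V := (Fin k × Fin 3) ⊕ Fin m
  have hc : Fintype.card V = n := by
    simp [V, hn]
    ring
  let e : V ≃ Fin n := Fintype.equivFinOfCardEq hc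
  let R : V → V → Prop := fun a b => match a, b with
    | Sum.inl x, Sum.inl y => x.1 = y.1 ∧ x.2 ≠ y.2
    | Sum.inr p, Sum.inr q => adjL l p q = true
    | _, _ => False
  have hs : ∀ a b, R a b → R b a := by
    rintro (a | a) (b | b) h
    · exact ⟨h.1.symm, h.2.symm⟩
    · exact h
    · exact h
    · exact (g24_adjL_symm l b a).trans h
  have hi : ∀ a, ¬ R a a := by
    rintro (a | a) h
    · exact h.2 rfl
    · have h' : adjL l a a = true := h
      rw [hirr a] at h'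
      exact absurd h' (by simp)
  have hadj : ∀ a b, (g17gr e R hs hi).Adj (e a) (e b) ↔ R a b := by
    intro a b
    simp [g17gr]
  have hd1 : ∀ p : Fin k × Fin 3, dg (g17gr e R hs hi) (e (Sum.inl p)) = 2 := by
    rintro ⟨a, x⟩
    rw [g17gr_dg, Fintype.sum_sum_type, Fintype.sum_prod_type]
    have h1 : ∀ (b : Fin k) (y : Fin 3), R (Sum.inl (a, x)) (Sum.inl (b, y)) ↔ a = b ∧ x ≠ y :=
      fun b y => Iff.rfl
    have h2 : ∀ p : Fin m, ¬ R (Sum.inl (a, x)) (Sum.inr p) := fun p h => h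
    simp only [h1, h2, if_false, Finset.sum_const_zero, add_zero]
    rw [Finset.sum_eq_single a]
    · fin_cases x <;> simp [Fin.sum_univ_three]
    · intro b _ hb
      refine Finset.sum_eq_zero fun y _ => ?_
      rw [if_neg]
      exact fun h => hb h.1.symm
    · intro h; exact absurd (mem_univ a) h
  have hd2 : ∀ i : Fin m, dg (g17gr e R hs hi) (e (Sum.inr i)) = 2 := by
    intro i
    rw [g17gr_dg, Fintype.sum_sum_type]
    have h1 : ∀ j : Fin m, R (Sum.inr i) (Sum.inr j) ↔ adjL l i j = true := fun j => Iff.rfl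
    have h2 : ∀ p : Fin k × Fin 3, ¬ R (Sum.inr i) (Sum.inl p) := fun p h => h
    simp only [h1, h2, if_false, Finset.sum_const_zero, zero_add]
    exact hdeg i
  refine ⟨g17gr e R hs hi, ⟨fun i => e (Sum.inr i), fun i j h => Sum.inr.inj (e.injective h)⟩,
    ⟨⟨fun a b => hadj _ _, ?_⟩, ?_⟩, ?_⟩
  · intro a _ j hj
    obtain ⟨w, rfl⟩ := e.surjective j
    have h1 := (hadj _ _).1 hj
    rcases w with p | b
    · exact absurd h1 (fun h => h)
    · exact ⟨b, rfl⟩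
  · intro v hv
    obtain ⟨w, rfl⟩ := e.surjective v
    rcases w with ⟨a, x⟩ | b
    · refine ⟨e (Sum.inl (a, x + 1)), e (Sum.inl (a, x + 2)), ?_, ?_, ?_, ?_⟩
      · intro h
        have h1 := Sum.inl.inj (e.injective h)
        have h2 := (Prod.mk.inj h1).2
        revert h2
        fin_cases x <;> simp
      · refine (hadj _ _).2 ⟨rfl, ?_⟩
        fin_cases x <;> simp
      · refine (hadj _ _).2 ⟨rfl, ?_⟩
        fin_cases x <;> simp
      · refine (hadj _ _).2 ⟨rfl, ?_⟩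
        fin_cases x <;> simp
    · exact absurd ⟨b, rfl⟩ hv
  · intro v
    obtain ⟨w, rfl⟩ := e.surjective v
    rcases w with p | i
    · exact hd1 p
    · exact hd2 i

theorem g24_nb (H : SimpleGraph (Fin n)) {m : ℕ} (φ : Fin m ↪ Fin n) (l : List (ℕ × ℕ))
    (h : Conf H φ l []) (i : Fin m) (j : Fin n) :
    H.Adj (φ i) j ↔ ∃ b, adjL l i b = true ∧ j = φ b := by
  constructor
  · intro hj
    obtain ⟨b, rfl⟩ := h.2 i (by simp) j hj
    exact ⟨b, (h.1 i b).1 hj, rfl⟩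
  · rintro ⟨b, hb, rfl⟩
    exact (h.1 i b).2 hb

theorem TC_exists (n : ℕ) (hn : 3 ≤ n) : ∃ H : SimpleGraph (Fin n), TC H := by
  have hmod : n % 3 = 0 ∨ n % 3 = 1 ∨ n % 3 = 2 := by omega
  rcases hmod with h0 | h0 | h0
  · obtain ⟨H, φ, h1, h2⟩ := g24_build (n / 3) 0 [] (fun i => i.elim0) (fun i => i.elim0) n
      (by omega)
    exact ⟨H, h2, Or.inl fun v => h1.2 v (fun ⟨i, _⟩ => i.elim0)⟩
  · obtain ⟨H, φ, h1, h2⟩ := g24_build ((n - 4) / 3) 4 [(0,1),(1,2),(2,3),(0,3)]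
      (by decide) (by decide) n (by omega)
    have hne : ∀ a b : Fin 4, a ≠ b → φ a ≠ φ b := fun a b hab h => hab (φ.injective h)
    refine ⟨H, h2, Or.inr (Or.inl ⟨φ 0, φ 1, φ 2, φ 3, ⟨hne _ _ (by decide),
      hne _ _ (by decide), ?_, ?_, ?_, ?_⟩, ?_⟩)⟩
    · intro j
      rw [g24_nb H φ _ h1.1]
      simp [Fin.exists_fin_succ, adjL]
    · intro j
      rw [g24_nb H φ _ h1.1]
      simp [Fin.exists_fin_succ, adjL]
    · intro j
      rw [g24_nb H φ _ h1.1]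
      simp [Fin.exists_fin_succ, adjL]
    · intro j
      rw [g24_nb H φ _ h1.1]
      simp [Fin.exists_fin_succ, adjL]
    · intro v ha hb hc hd
      refine h1.2 v ?_
      rintro ⟨i, rfl⟩
      fin_cases i
      · exact ha rfl
      · exact hb rfl
      · exact hc rfl
      · exact hd rfl
  · obtain ⟨H, φ, h1, h2⟩ := g24_build ((n - 5) / 3) 5 [(0,1),(1,2),(2,3),(3,4),(0,4)]
      (by decide) (by decide) n (by omega)
    have hne : ∀ a b : Fin 5, a ≠ b → φ a ≠ φ b := fun a b hab h => hab (φ.injective h)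
    refine ⟨H, h2, Or.inr (Or.inr ⟨φ 0, φ 1, φ 2, φ 3, φ 4, ⟨hne _ _ (by decide),
      hne _ _ (by decide), hne _ _ (by decide), hne _ _ (by decide), hne _ _ (by decide),
      ?_, ?_, ?_, ?_, ?_⟩, ?_⟩)⟩
    · intro j
      rw [g24_nb H φ _ h1.1]
      simp [Fin.exists_fin_succ, adjL]
    · intro j
      rw [g24_nb H φ _ h1.1]
      simp [Fin.exists_fin_succ, adjL]
    · intro j
      rw [g24_nb H φ _ h1.1]
      simp [Fin.exists_fin_succ, adjL]
    · intro j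
      rw [g24_nb H φ _ h1.1]
      simp [Fin.exists_fin_succ, adjL]
    · intro j
      rw [g24_nb H φ _ h1.1]
      simp [Fin.exists_fin_succ, adjL]
    · intro v ha hb hc hd he
      refine h1.2 v ?_
      rintro ⟨i, rfl⟩
      fin_cases i
      · exact ha rfl
      · exact hb rfl
      · exact hc rfl
      · exact hd rfl
      · exact he rfl

end Pool.Agent.H34R2.U
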