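import Pool.Agent.H34R2.U.MDefs

/-! TASK M9: soundness of the cone certificate (pure finite algebra, no graphs). -/

set_option autoImplicit false

namespace Pool.Agent.H34R2.U

open Finset

/-- pairing of a coefficient function with a row -/
noncomputable def M9.pr (types : List Ty) (coef : Ty → ℝ) (row : List ℕ) : ℝ :=
  (List.zipWith (fun τ (x : ℕ) => coef τ * (x : ℝ)) types row).sum

namespace M9

lemma exists_zip {α β : Type*} : ∀ (l₁ : List α) (l₂ : List β), l₁.length = l₂.length →
    ∀ a ∈ l₁, ∃ b, (a, b) ∈ List.zip l₁ l₂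
  | [], _, _, a, ha => by simp at ha
  | _ :: _, [], h, _, _ => by simp at h
  | x :: l₁, y :: l₂, h, a, ha => by
    rcases List.mem_cons.1 ha with rfl | ha
    · exact ⟨y, by simp⟩
    · obtain ⟨b, hb⟩ := exists_zip l₁ l₂ (by simpa using h) a ha
      exact ⟨b, by simp [hb]⟩

lemma pr_congr (types : List Ty) (c d : Ty → ℝ) (row : List ℕ) (h : ∀ τ ∈ types, c τ = d τ) :
    pr types c row = pr types d row := by
  induction types generalizing row with
  | nil => simp [pr]
  | cons t ts ih =>
    cases row with
    | nil => simp [pr]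
    | cons x xs =>
      have := ih xs (fun τ hτ => h τ (List.mem_cons_of_mem _ hτ))
      simp only [pr, List.zipWith_cons_cons, List.sum_cons] at this ⊢
      rw [this, h t (List.mem_cons_self ..)]

lemma pr_add (types : List Ty) (c d : Ty → ℝ) (row : List ℕ) :
    pr types (fun τ => c τ + d τ) row = pr types c row + pr types d row := by
  induction types generalizing row with
  | nil => simp [pr]
  | cons t ts ih =>
    cases row with
    | nil => simp [pr]
    | cons x xs =>
      have := ih xs
      simp only [pr, List.zipWith_cons_cons, List.sum_cons] at this ⊢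
      rw [this]; ring

lemma pr_smul (types : List Ty) (a : ℝ) (c : Ty → ℝ) (row : List ℕ) :
    pr types (fun τ => a * c τ) row = a * pr types c row := by
  induction types generalizing row with
  | nil => simp [pr]
  | cons t ts ih =>
    cases row with
    | nil => simp [pr]
    | cons x xs =>
      have := ih xs
      simp only [pr, List.zipWith_cons_cons, List.sum_cons] at this ⊢
      rw [this]; ring

lemma pr_zero (types : List Ty) (row : List ℕ) :
    pr types (fun _ => 0) row = 0 := by
  have := pr_smul types 0 (fun _ => 0) row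
  simpa using this

lemma pr_sum {ι : Type*} (types : List Ty) (s : Finset ι) (c : ι → Ty → ℝ) (row : List ℕ) :
    pr types (fun τ => ∑ i ∈ s, c i τ) row = ∑ i ∈ s, pr types (c i) row := by
  classical
  induction s using Finset.induction_on with
  | empty => simp [pr_zero]
  | insert a s ha ih =>
    simp only [Finset.sum_insert ha]
    rw [pr_add, ih]

lemma pr_comb : ∀ (types : List Ty) (coef : Ty → ℝ) (k : ℕ) (row acc : List ℕ),
    row.length = types.length → acc.length = types.length →
    pr types coef (List.zipWith (fun x y => k * x + y) row acc) =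
      k * pr types coef row + pr types coef acc
  | [], coef, k, row, acc, h1, h2 => by simp [pr]
  | t :: ts, coef, k, [], acc, h1, h2 => by simp at h1
  | t :: ts, coef, k, x :: xs, [], h1, h2 => by simp at h2
  | t :: ts, coef, k, x :: xs, y :: ys, h1, h2 => by
    have := pr_comb ts coef k xs ys (by simpa using h1) (by simpa using h2)
    simp only [pr, List.zipWith_cons_cons, List.sum_cons] at this ⊢
    rw [this]; push_cast; ring

lemma pr_mulRow (r j T : ℕ) : ∀ (types : List Ty) (coef : Ty → ℝ) (row : List ℕ),
    pr types (fun τ => coef τ * (nJ r j T τ : ℝ)) row = pr types coef (mulRow r j T types row)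
  | [], coef, row => by simp [pr]
  | t :: ts, coef, [] => by simp [pr, mulRow]
  | t :: ts, coef, x :: xs => by
    have := pr_mulRow r j T ts coef xs
    simp only [pr, mulRow, List.zipWith_cons_cons, List.sum_cons] at this ⊢
    rw [this]; push_cast; ring

lemma pr_replicate_zero (types : List Ty) (coef : Ty → ℝ) (n : ℕ) :
    pr types coef (List.replicate n 0) = 0 := by
  induction types generalizing n with
  | nil => simp [pr]
  | cons t ts ih =>
    cases n with
    | zero => simp [pr]
    | succ n =>
      have := ih n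
      simp only [pr, List.replicate_succ, List.zipWith_cons_cons, List.sum_cons] at this ⊢
      rw [this]; simp

lemma combo_nonneg (types : List Ty) (rows : List (List ℕ)) (coef : Ty → ℝ)
    (hlen : ∀ row ∈ rows, row.length = types.length)
    (hpos : ∀ row ∈ rows, 0 ≤ pr types coef row) (c : List (ℕ × ℕ)) :
    combo rows types.length c = [] ∨
      ((combo rows types.length c).length = types.length ∧
        0 ≤ pr types coef (combo rows types.length c)) := by
  induction c with
  | nil =>
    right
    simp [combo, pr_replicate_zero]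
  | cons e c ih =>
    have hc : combo rows types.length (e :: c) =
      List.zipWith (fun x y => e.2 * x + y) (rows.getD e.1 []) (combo rows types.length c) := rfl
    rw [hc]
    rcases ih with ih | ⟨ih1, ih2⟩
    · left; rw [ih]; simp
    · by_cases he : e.1 < rows.length
      · right
        have hm : rows.getD e.1 [] ∈ rows := by
          rw [List.getD_eq_getElem _ _ he]
          exact List.getElem_mem he
        refine ⟨by rw [List.length_zipWith, ih1, hlen _ hm, min_self], ?_⟩
        rw [pr_comb _ _ _ _ _ (hlen _ hm) ih1]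
        have := hpos _ hm
        positivity
      · left
        rw [List.getD_eq_default _ _ (not_lt.1 he)]
        simp

lemma combo_nonneg' (types : List Ty) (rows : List (List ℕ)) (coef : Ty → ℝ)
    (hlen : ∀ row ∈ rows, row.length = types.length)
    (hpos : ∀ row ∈ rows, 0 ≤ pr types coef row) (c : List (ℕ × ℕ)) :
    0 ≤ pr types coef (combo rows types.length c) := by
  rcases combo_nonneg types rows coef hlen hpos c with h | h
  · rw [h]; simp [pr]
  · exact h.2

/-- sum over bit masks -/
lemma sum_bits (h : ℕ → Bool → ℝ) (r : ℕ) :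
    ∑ T ∈ range (2 ^ r), ∏ i ∈ range r, h i (T.testBit i) =
      ∏ i ∈ range r, (h i false + h i true) := by
  induction r with
  | zero => simp
  | succ r ih =>
    rw [pow_succ, mul_two, Finset.sum_range_add, Finset.prod_range_succ, ← ih, mul_add,
      Finset.sum_mul, Finset.sum_mul]
    congr 1
    · apply Finset.sum_congr rfl
      intro T hT
      rw [Finset.prod_range_succ, Nat.testBit_lt_two_pow (Finset.mem_range.1 hT)]
    · apply Finset.sum_congr rfl
      intro T hT
      rw [Finset.prod_range_succ, Nat.testBit_two_pow_add_eq,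
        Nat.testBit_lt_two_pow (Finset.mem_range.1 hT)]
      congr 1
      apply Finset.prod_congr rfl
      intro i hi
      rw [Nat.testBit_two_pow_add_gt (Finset.mem_range.1 hi)]

/-- probability -/
noncomputable def prob (K r : ℕ) (z : ℝ) (wt : ℕ → ℝ) (T j : ℕ) : ℝ :=
  (1 - z) ^ j * z ^ (K - j) * ∏ i ∈ range r, (if T.testBit i then 1 - wt i else wt i)

lemma prob_nonneg (K r : ℕ) (z : ℝ) (wt : ℕ → ℝ) (T j : ℕ) (h0 : 0 ≤ z) (h1 : z ≤ 1)
    (h2 : ∀ i, 0 ≤ wt i ∧ wt i ≤ 1) : 0 ≤ prob K r z wt T j := by
  unfold prob
  have : 0 ≤ 1 - z := by linarith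
  have h3 : 0 ≤ ∏ i ∈ range r, (if T.testBit i then 1 - wt i else wt i) := by
    apply Finset.prod_nonneg
    intro i _
    split_ifs
    · linarith [(h2 i).2]
    · exact (h2 i).1
  positivity

/-- indicator for one block -/
def ind (r T m : ℕ) : Bool := (List.range r).all (fun i => !T.testBit i || m.testBit i)

lemma sum_block (K r : ℕ) (z : ℝ) (wt : ℕ → ℝ) (m k : ℕ) (hk : k ≤ K) :
    ∑ T ∈ range (2 ^ r), ∑ j ∈ range (K + 1),
      prob K r z wt T j * ((if ind r T m then k.choose j else 0 : ℕ) : ℝ) =
      z ^ (K - k) * ∏ i ∈ (range r).filter (fun i => m.testBit i = false), wt i := by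
  have h1 : ∀ T, ∑ j ∈ range (K + 1),
      prob K r z wt T j * ((if ind r T m then k.choose j else 0 : ℕ) : ℝ) =
      (∏ i ∈ range r, (if T.testBit i then (if m.testBit i then 1 - wt i else 0) else wt i)) *
        ∑ j ∈ range (K + 1), (1 - z) ^ j * z ^ (K - j) * (k.choose j : ℝ) := by
    intro T
    rw [Finset.mul_sum]
    apply Finset.sum_congr rfl
    intro j _
    by_cases hi : ind r T m = true
    · rw [if_pos hi]
      unfold prob
      have : ∏ i ∈ range r, (if T.testBit i then 1 - wt i else wt i) =
          ∏ i ∈ range r, (if T.testBit i then (if m.testBit i then 1 - wt i else 0) else wt i) := by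
        apply Finset.prod_congr rfl
        intro i hir
        unfold ind at hi
        rw [List.all_eq_true] at hi
        have := hi i (List.mem_range.2 (Finset.mem_range.1 hir))
        by_cases hT : T.testBit i = true
        · simp only [hT, Bool.not_true, Bool.false_or] at this
          simp [hT, this]
        · simp [hT]
      rw [this]; ring
    · rw [if_neg hi]
      unfold ind at hi
      rw [List.all_eq_true] at hi
      push Not at hi
      obtain ⟨i, hir, hi⟩ := hi
      have h0 : ∏ i ∈ range r,
          (if T.testBit i then (if m.testBit i then 1 - wt i else 0) else wt i) = 0 := by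
        apply Finset.prod_eq_zero (Finset.mem_range.2 (List.mem_range.1 hir))
        cases hT : T.testBit i <;> cases hm : m.testBit i <;> simp_all
      rw [h0]; simp
  rw [Finset.sum_congr rfl (fun T _ => h1 T), ← Finset.sum_mul, mul_comm]
  congr 1
  · -- binomial
    have h2 : ∑ j ∈ range (K + 1), (1 - z) ^ j * z ^ (K - j) * (k.choose j : ℝ) =
        ∑ j ∈ range (k + 1), (1 - z) ^ j * z ^ (K - j) * (k.choose j : ℝ) := by
      symm
      apply Finset.sum_subset
      · intro j hj
        rw [Finset.mem_range] at hj ⊢
        omega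
      · intro j _ hj
        rw [Finset.mem_range, not_lt] at hj
        rw [Nat.choose_eq_zero_of_lt (by omega)]
        simp
    rw [h2]
    have h3 : ∀ j ∈ range (k + 1), (1 - z) ^ j * z ^ (K - j) * (k.choose j : ℝ) =
        z ^ (K - k) * ((1 - z) ^ j * z ^ (k - j) * (k.choose j : ℝ)) := by
      intro j hj
      have hj' := Finset.mem_range.1 hj
      have : K - j = (K - k) + (k - j) := by omega
      rw [this, pow_add]; ring
    rw [Finset.sum_congr rfl h3, ← Finset.mul_sum, ← add_pow]
    simp
  · have := sum_bits (fun i b => if b then (if m.testBit i then 1 - wt i else 0) else wt i) r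
    rw [this, Finset.prod_filter]
    apply Finset.prod_congr rfl
    intro i _
    cases hm : m.testBit i <;> simp

lemma Fty_eq (K r : ℕ) (z : ℝ) (wt : ℕ → ℝ) (τ : Ty) (hτ : ∀ b ∈ τ, b.2 ≤ K) :
    Fty K r z wt τ = ∑ T ∈ range (2 ^ r), ∑ j ∈ range (K + 1),
      (if T = 0 ∧ j = 0 then 0 else prob K r z wt T j) * (nJ r j T τ : ℝ) := by
  induction τ with
  | nil => simp [Fty, nJ]
  | cons b t ih =>
    have ih' := ih (fun c hc => hτ c (List.mem_cons_of_mem _ hc))
    have hb := sum_block K r z wt b.1 b.2 (hτ b (List.mem_cons_self ..))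
    have e1 : Fty K r z wt (b :: t) =
        (z ^ (K - b.2) * ∏ i ∈ (range r).filter (fun i => b.1.testBit i = false), wt i -
          z ^ K * ∏ i ∈ range r, wt i) + Fty K r z wt t := by
      simp only [Fty, List.map_cons, List.sum_cons, List.length_cons]
      push_cast
      ring
    rw [e1, ih', ← hb]
    have e2 : ∀ T j, (nJ r j T (b :: t) : ℝ) =
        ((if ind r T b.1 then b.2.choose j else 0 : ℕ) : ℝ) + (nJ r j T t : ℝ) := by
      intro T j
      have : nJ r j T (b :: t) = (if ind r T b.1 then b.2.choose j else 0) + nJ r j T t := by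
        unfold nJ ind
        rw [List.map_cons, List.sum_cons]
      rw [this, Nat.cast_add]
    simp only [e2, mul_add, Finset.sum_add_distrib]
    congr 1
    rw [sub_eq_iff_eq_add]
    have e3 : z ^ K * ∏ i ∈ range r, wt i =
        ∑ T ∈ range (2 ^ r), ∑ j ∈ range (K + 1),
          (if T = 0 ∧ j = 0 then prob K r z wt T j *
            ((if ind r T b.1 then b.2.choose j else 0 : ℕ) : ℝ) else 0) := by
      rw [Finset.sum_eq_single 0, Finset.sum_eq_single 0]
      · simp [prob, ind]
      · intro j _ hj; simp [hj]
      · intro h; simp at h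
      · intro T _ hT; simp [hT]
      · intro h; simp at h
    rw [e3, ← Finset.sum_add_distrib]
    apply Finset.sum_congr rfl
    intro T _
    rw [← Finset.sum_add_distrib]
    apply Finset.sum_congr rfl
    intro j _
    split_ifs <;> simp

lemma pr_ones (types : List Ty) (coef : Ty → ℝ) (row : List ℕ) (hl : row.length = types.length)
    (h1 : ∀ x ∈ row, x = 1) : pr types coef row = (types.map coef).sum := by
  induction types generalizing row with
  | nil => simp [pr]
  | cons t ts ih =>
    cases row with
    | nil => simp at hl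
    | cons x xs =>
      have := ih xs (by simpa using hl) (fun y hy => h1 y (List.mem_cons_of_mem _ hy))
      simp only [pr, List.zipWith_cons_cons, List.sum_cons, List.map_cons] at this ⊢
      rw [this, h1 x (List.mem_cons_self ..)]
      simp

end M9

open M9 in
theorem cert_sound (K r : ℕ) (C : Cert) (hC : certOK K r C = true) (coef : Ty → ℝ)
    (hpos : ∀ row ∈ C.rows,
      0 ≤ (List.zipWith (fun τ (x : ℕ) => coef τ * (x : ℝ)) C.types row).sum)
    (L : List (ℝ × (ℕ → ℝ)))
    (hL : ∀ e ∈ L, 0 ≤ e.1 ∧ e.1 ≤ 1 ∧ ∀ i, 0 ≤ e.2 i ∧ e.2 i ≤ 1) :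
    0 ≤ (C.types.map fun τ => coef τ * (L.map fun e => Fty K r e.1 e.2 τ).prod).sum := by
  unfold certOK at hC
  simp only [Bool.and_eq_true, List.all_eq_true, List.any_eq_true, beq_iff_eq,
    decide_eq_true_eq, Bool.or_eq_true] at hC
  obtain ⟨⟨⟨⟨⟨hlen, hone⟩, hle⟩, -⟩, hml⟩, hmul⟩ := hC
  -- closure of the dual cone under multiplication by `nJ`
  have key : ∀ (c : Ty → ℝ), (∀ row ∈ C.rows, 0 ≤ pr C.types c row) →
      ∀ T < 2 ^ r, ∀ j ≤ K, ¬ (T = 0 ∧ j = 0) →
        ∀ row ∈ C.rows, 0 ≤ pr C.types (fun τ => c τ * (nJ r j T τ : ℝ)) row := by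
    intro c hc T hT j hj hTj row hrow
    rw [pr_mulRow]
    obtain ⟨e, he⟩ := exists_zip C.rows C.mul hml.symm row hrow
    obtain ⟨h1, h2⟩ := hmul _ he
    obtain ⟨f, hf⟩ := exists_zip (List.range (2 ^ r)) e (by simpa using h1.symm) T
      (List.mem_range.2 hT)
    obtain ⟨h3, h4⟩ := h2 _ hf
    obtain ⟨g, hg⟩ := exists_zip (List.range (K + 1)) f (by simpa using h3.symm) j
      (List.mem_range.2 (by omega))
    rcases h4 _ hg with h5 | h5
    · exact absurd ⟨h5.2, h5.1⟩ hTj
    · rw [← h5]
      exact combo_nonneg' _ _ _ hlen hc _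
  have main : ∀ L : List (ℝ × (ℕ → ℝ)),
      (∀ e ∈ L, 0 ≤ e.1 ∧ e.1 ≤ 1 ∧ ∀ i, 0 ≤ e.2 i ∧ e.2 i ≤ 1) →
      ∀ row ∈ C.rows, 0 ≤ pr C.types
        (fun τ => coef τ * (L.map fun e => Fty K r e.1 e.2 τ).prod) row := by
    intro L
    induction L with
    | nil =>
      intro _ row hrow
      simpa [pr] using hpos row hrow
    | cons e L ih =>
      intro hL row hrow
      have ih' := ih (fun e he => hL e (List.mem_cons_of_mem _ he))
      obtain ⟨hz0, hz1, hw⟩ := hL e (List.mem_cons_self ..)
      have h1 : pr C.types (fun τ => coef τ * ((e :: L).map fun e => Fty K r e.1 e.2 τ).prod) row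
          = pr C.types (fun τ => ∑ T ∈ range (2 ^ r), ∑ j ∈ range (K + 1),
              (if T = 0 ∧ j = 0 then 0 else prob K r e.1 e.2 T j) *
              ((coef τ * (L.map fun e => Fty K r e.1 e.2 τ).prod) * (nJ r j T τ : ℝ))) row := by
        apply pr_congr
        intro τ hτ
        rw [List.map_cons, List.prod_cons, Fty_eq K r e.1 e.2 τ (hle τ hτ)]
        rw [show coef τ * ((∑ T ∈ range (2 ^ r), ∑ j ∈ range (K + 1),
            (if T = 0 ∧ j = 0 then 0 else prob K r e.1 e.2 T j) * (nJ r j T τ : ℝ)) *
            (L.map fun e => Fty K r e.1 e.2 τ).prod) =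
          (∑ T ∈ range (2 ^ r), ∑ j ∈ range (K + 1),
            (if T = 0 ∧ j = 0 then 0 else prob K r e.1 e.2 T j) * (nJ r j T τ : ℝ)) *
            (coef τ * (L.map fun e => Fty K r e.1 e.2 τ).prod) by ring]
        rw [Finset.sum_mul]
        apply Finset.sum_congr rfl
        intro T _
        rw [Finset.sum_mul]
        apply Finset.sum_congr rfl
        intro j _
        ring
      rw [h1, pr_sum]
      apply Finset.sum_nonneg
      intro T hT
      rw [pr_sum]
      apply Finset.sum_nonneg
      intro j hj
      rw [pr_smul]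
      by_cases hTj : T = 0 ∧ j = 0
      · rw [if_pos hTj]; simp
      · rw [if_neg hTj]
        apply mul_nonneg (prob_nonneg K r e.1 e.2 T j hz0 hz1 hw)
        exact key _ ih' T (Finset.mem_range.1 hT) j
          (by have := Finset.mem_range.1 hj; omega) hTj row hrow
  obtain ⟨row, hrow, hone⟩ := hone
  have := main L hL row hrow
  rw [pr_ones _ _ _ (hlen row hrow) hone] at this
  exact this

end Pool.Agent.H34R2.U
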