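import Pool.Agent.H34R2.U.M8
import Pool.Agent.H34R2.U.M9

/-! TASK M10: the final check for local moves and its soundness. -/

set_option autoImplicit false

namespace Pool.Agent.H34R2.U

open Finset

variable {n : ℕ}

/-- equality of types -/
def eqTy : Ty → Ty → Bool
  | [], [] => true
  | a :: s, b :: t => Nat.beq a.1 b.1 && (Nat.beq a.2 b.2 && eqTy s t)
  | _, _ => false

/-- membership in a list of types -/
def memTy (τ : Ty) : List Ty → Bool
  | [] => false
  | σ :: l => eqTy τ σ || memTy τ l

/-- no type is repeated -/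
def nodupTy : List Ty → Bool
  | [] => true
  | σ :: l => !memTy σ l && nodupTy l

/-- addition of coefficient lists -/
def addN : List ℕ → List ℕ → List ℕ
  | [], b => b
  | a, [] => a
  | x :: a, y :: b => (x + y) :: addN a b

/-- multiplication of a coefficient list by a number -/
def scaleN (c : ℕ) : List ℕ → List ℕ
  | [] => []
  | x :: a => (c * x) :: scaleN c a

/-- coefficients of `x + (1 + s) * b(s)` -/
def stepN (x : ℕ) : List ℕ → List ℕ
  | [] => [x]
  | y :: t => (x + y) :: stepN y t

/-- Taylor shift: coefficients of `P(1 + s)` -/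
def shiftN : List ℕ → List ℕ
  | [] => []
  | x :: a => stepN x (shiftN a)

/-- comparison of coefficients -/
def leN : List ℕ → List ℕ → Bool
  | [], _ => true
  | x :: a, [] => Nat.beq x 0 && leN a []
  | x :: a, y :: b => Nat.ble x y && leN a b

/-- sum of the polynomials of the entries of type `τ` -/
def collect (τ : Ty) : List (Ty × List ℕ) → List ℕ
  | [] => []
  | e :: d => if eqTy e.1 τ then addN e.2 (collect τ d) else collect τ d

/-- sum of `collect` over several lists -/
def collects (τ : Ty) : List (List (Ty × List ℕ)) → List ℕ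
  | [] => []
  | d :: ds => addN (collect τ d) (collects τ ds)

/-- positive and negative part of the shifted coefficient polynomial of the type `τ` -/
def prOf (r M : ℕ) (d0 : List (Ty × List ℕ)) (ds : List (List (Ty × List ℕ))) (τ : Ty) :
    List ℕ × List ℕ :=
  if Nat.beq ((τ.length - 1) % 2) 0 then
    (shiftN (List.replicate (M - eK r τ) 0 ++
        scaleN ((τ.length - 1).factorial) (collects τ ds)),
      shiftN (List.replicate (M - eK r τ) 0 ++
        scaleN ((τ.length - 1).factorial * ds.length) (collect τ d0)))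
  else
    (shiftN (List.replicate (M - eK r τ) 0 ++
        scaleN ((τ.length - 1).factorial * ds.length) (collect τ d0)),
      shiftN (List.replicate (M - eK r τ) 0 ++
        scaleN ((τ.length - 1).factorial) (collects τ ds)))

/-- combination of coefficient lists with the coefficients of a row -/
def combN : List ℕ → List (List ℕ) → List ℕ
  | x :: row, p :: ps => if Nat.beq x 0 then combN row ps else addN (scaleN x p) (combN row ps)
  | _, _ => []

/-- the check of the rows -/
def chkCore (r M : ℕ) (types : List Ty) (rows : List (List ℕ)) (d0 : List (Ty × List ℕ))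
    (ds : List (List (Ty × List ℕ))) : Bool :=
  rows.all fun row => leN (combN row ((types.map (prOf r M d0 ds)).map Prod.snd))
    (combN row ((types.map (prOf r M d0 ds)).map Prod.fst))

def chk (w : ℕ) (l : List (ℕ × ℕ)) (ls : List (List (ℕ × ℕ))) (mk : List ℕ) (C : Cert) : Bool :=
  inOK w l mk && (ls.all fun l' => inOK w l' mk) &&
  certOK (w - mk.length) mk.length C && nodupTy C.types &&
  (C.types.all fun τ => Nat.ble (eK mk.length τ) (w * (w - 1) / 2)) &&
  ((dp w l mk).all fun e => memTy e.1 C.types) &&
  (ls.all fun l' => (dp w l' mk).all fun e => memTy e.1 C.types) &&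
  chkCore mk.length (w * (w - 1) / 2) C.types C.rows (dp w l mk) (ls.map fun l' => dp w l' mk)

/-! ### correctness of the auxiliary functions -/

theorem m10_eqTy (s t : Ty) : eqTy s t = true ↔ s = t := by
  induction s generalizing t with
  | nil => cases t <;> simp [eqTy]
  | cons a s ih =>
    cases t with
    | nil => simp [eqTy]
    | cons b t =>
      simp only [eqTy, Bool.and_eq_true, Nat.beq_eq, ih, List.cons.injEq, Prod.ext_iff]
      tauto

theorem m10_memTy (τ : Ty) (l : List Ty) : memTy τ l = true ↔ τ ∈ l := by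
  induction l with
  | nil => simp [memTy]
  | cons σ l ih => simp [memTy, ih, m10_eqTy]

theorem m10_nodupTy (l : List Ty) : nodupTy l = true ↔ l.Nodup := by
  induction l with
  | nil => simp [nodupTy]
  | cons σ l ih =>
    simp only [nodupTy, Bool.and_eq_true, ih, List.nodup_cons, ← m10_memTy, Bool.not_eq_true',
      Bool.eq_false_iff, ne_eq]

theorem m10_evalN_nil (x : ℝ) : evalN [] x = 0 := rfl

theorem m10_evalN_cons (a : ℕ) (l : List ℕ) (x : ℝ) : evalN (a :: l) x = a + x * evalN l x := rfl

theorem m10_addN (a b : List ℕ) (x : ℝ) : evalN (addN a b) x = evalN a x + evalN b x := by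
  induction a generalizing b with
  | nil => simp [addN, m10_evalN_nil]
  | cons y a ih =>
    cases b with
    | nil => simp [addN, m10_evalN_nil]
    | cons z b =>
      simp only [addN, m10_evalN_cons, ih]
      push_cast
      ring

theorem m10_scaleN (c : ℕ) (a : List ℕ) (x : ℝ) : evalN (scaleN c a) x = c * evalN a x := by
  induction a with
  | nil => simp [scaleN, m10_evalN_nil]
  | cons y a ih =>
    simp only [scaleN, m10_evalN_cons, ih]
    push_cast
    ring

theorem m10_stepN (c : ℕ) (a : List ℕ) (s : ℝ) :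
    evalN (stepN c a) s = c + (1 + s) * evalN a s := by
  induction a generalizing c with
  | nil => simp [stepN, m10_evalN_nil, m10_evalN_cons]
  | cons y a ih =>
    simp only [stepN, m10_evalN_cons, ih]
    push_cast
    ring

theorem m10_shiftN (a : List ℕ) (s : ℝ) : evalN (shiftN a) s = evalN a (1 + s) := by
  induction a with
  | nil => simp [shiftN, m10_evalN_nil]
  | cons y a ih => rw [shiftN, m10_stepN, ih, m10_evalN_cons]

theorem m10_replicate (m : ℕ) (a : List ℕ) (x : ℝ) :
    evalN (List.replicate m 0 ++ a) x = x ^ m * evalN a x := by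
  induction m with
  | zero => simp
  | succ m ih =>
    rw [List.replicate_succ, List.cons_append, m10_evalN_cons, ih]
    push_cast
    ring

theorem m10_evalN_nonneg (a : List ℕ) {s : ℝ} (hs : 0 ≤ s) : 0 ≤ evalN a s := by
  induction a with
  | nil => simp [m10_evalN_nil]
  | cons y a ih =>
    rw [m10_evalN_cons]
    positivity

theorem m10_leN {a b : List ℕ} (h : leN a b = true) {s : ℝ} (hs : 0 ≤ s) :
    evalN a s ≤ evalN b s := by
  induction a generalizing b with
  | nil => exact m10_evalN_nonneg b hs
  | cons x a ih =>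
    cases b with
    | nil =>
      simp only [leN, Bool.and_eq_true, Nat.beq_eq] at h
      have h1 := ih h.2
      rw [m10_evalN_nil] at h1 ⊢
      rw [m10_evalN_cons, h.1]
      have := mul_nonneg hs (neg_nonneg.2 h1)
      push_cast
      linarith
    | cons y b =>
      simp only [leN, Bool.and_eq_true, Nat.ble_eq] at h
      have h1 := ih h.2
      have h2 : (x : ℝ) ≤ y := by exact_mod_cast h.1
      rw [m10_evalN_cons, m10_evalN_cons]
      have := mul_le_mul_of_nonneg_left h1 hs
      linarith

theorem m10_collect (τ : Ty) (e : Ty × List ℕ) (d : List (Ty × List ℕ)) (x : ℝ) :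
    evalN (collect τ (e :: d)) x = (if e.1 = τ then evalN e.2 x else 0) +
      evalN (collect τ d) x := by
  change evalN (if eqTy e.1 τ then addN e.2 (collect τ d) else collect τ d) x = _
  by_cases h : e.1 = τ
  · rw [if_pos ((m10_eqTy _ _).2 h), if_pos h, m10_addN]
  · rw [if_neg (fun h' => h ((m10_eqTy _ _).1 h')), if_neg h, zero_add]

/-- regrouping of the terms by their type -/
theorem m10_group (r : ℕ) (q x : ℝ) (types : List Ty) (g : Ty → ℝ)
    (d : List (Ty × List ℕ)) (h : ∀ e ∈ d, e.1 ∈ types) :
    (d.map fun e => evalN e.2 x * (sgn e.1 : ℝ) * q ^ eK r e.1 * g e.1).sum =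
      ∑ τ ∈ types.toFinset, (sgn τ : ℝ) * q ^ eK r τ * evalN (collect τ d) x * g τ := by
  induction d with
  | nil => simp [collect, m10_evalN_nil]
  | cons e d ih =>
    rw [List.map_cons, List.sum_cons, ih fun e he => h e (List.mem_cons_of_mem _ he)]
    have h1 : ∀ τ ∈ types.toFinset, (sgn τ : ℝ) * q ^ eK r τ * evalN (collect τ (e :: d)) x * g τ =
        (if e.1 = τ then (sgn τ : ℝ) * q ^ eK r τ * evalN e.2 x * g τ else 0) +
          (sgn τ : ℝ) * q ^ eK r τ * evalN (collect τ d) x * g τ := by
      intro τ _
      rw [m10_collect]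
      split_ifs <;> ring
    rw [Finset.sum_congr rfl h1, Finset.sum_add_distrib, Finset.sum_ite_eq,
      if_pos (List.mem_toFinset.2 (h e List.mem_cons_self))]
    ring

/-- the shifted polynomials have the right value -/
theorem m10_prOf {r M : ℕ} {d0 : List (Ty × List ℕ)} {ds : List (List (Ty × List ℕ))} {τ : Ty}
    (s : ℝ) : evalN (prOf r M d0 ds τ).1 s - evalN (prOf r M d0 ds τ).2 s =
      (1 + s) ^ (M - eK r τ) * ((sgn τ : ℝ) * (evalN (collects τ ds) (1 + s) -
        ds.length * evalN (collect τ d0) (1 + s))) := by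
  unfold prOf sgn
  rcases Nat.even_or_odd (τ.length - 1) with h | h
  · have h1 : Nat.beq ((τ.length - 1) % 2) 0 = true := by
      rw [Nat.beq_eq]
      exact Nat.even_iff.1 h
    rw [if_pos h1, h.neg_one_pow]
    simp only [m10_shiftN, m10_replicate, m10_scaleN]
    push_cast
    ring
  · have h1 : ¬ Nat.beq ((τ.length - 1) % 2) 0 = true := by
      rw [Nat.beq_eq]
      have := Nat.odd_iff.1 h
      omega
    rw [if_neg h1, h.neg_one_pow]
    simp only [m10_shiftN, m10_replicate, m10_scaleN]
    push_cast
    ring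

/-- value of a combination -/
theorem m10_combN (types : List Ty) (f : Ty → List ℕ) (row : List ℕ) (s : ℝ) :
    evalN (combN row (types.map f)) s =
      (List.zipWith (fun τ (x : ℕ) => evalN (f τ) s * (x : ℝ)) types row).sum := by
  induction types generalizing row with
  | nil => cases row <;> simp [combN, m10_evalN_nil]
  | cons τ types ih =>
    cases row with
    | nil => simp [combN, m10_evalN_nil]
    | cons x row =>
      simp only [List.map_cons, combN, List.zipWith_cons_cons, List.sum_cons]
      by_cases hx : x = 0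
      · subst hx
        rw [if_pos (by rfl), ih]
        simp
      · have : ¬ Nat.beq x 0 = true := by rw [Nat.beq_eq]; exact hx
        rw [if_neg this, m10_addN, m10_scaleN, ih]
        ring

theorem m10_zip_sub (types : List Ty) (row : List ℕ) (f g h : Ty → ℝ) (c : ℝ)
    (H : ∀ τ ∈ types, h τ = c * (f τ - g τ)) :
    (List.zipWith (fun τ (x : ℕ) => h τ * (x : ℝ)) types row).sum =
      c * ((List.zipWith (fun τ (x : ℕ) => f τ * (x : ℝ)) types row).sum -
        (List.zipWith (fun τ (x : ℕ) => g τ * (x : ℝ)) types row).sum) := by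
  induction types generalizing row with
  | nil => simp
  | cons τ types ih =>
    cases row with
    | nil => simp
    | cons x row =>
      simp only [List.zipWith_cons_cons, List.sum_cons]
      rw [ih row (fun τ hτ => H τ (List.mem_cons_of_mem _ hτ)), H τ List.mem_cons_self]
      ring

theorem m10_adjL_self {w : ℕ} {l : List (ℕ × ℕ)} {mk : List ℕ} (h : inOK w l mk = true)
    (a : Fin w) : adjL l a a = false := by
  unfold inOK at h
  simp only [Bool.and_eq_true, List.all_eq_true, decide_eq_true_eq] at h
  unfold adjL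
  rw [List.any_eq_false]
  intro e he
  have := (h.1.1.2 e he).2
  simp only [Bool.or_eq_true, Bool.and_eq_true, beq_iff_eq]
  omega

theorem m10_conf_repl {H : SimpleGraph (Fin n)} {w : ℕ} {φ : Fin w ↪ Fin n}
    {l l' : List (ℕ × ℕ)} {mk : List ℕ} (hc : Conf H φ l mk) (h : inOK w l' mk = true) :
    Conf (repl H φ l') φ l' mk := by
  refine ⟨fun a b => ?_, fun a ha j hj => ?_⟩
  · constructor
    · rintro ⟨_, ⟨a', b', h1, h2, h3⟩ | ⟨h1, _⟩⟩
      · rw [φ.injective h1, φ.injective h2] at h3
        exact h3
      · exact absurd ⟨⟨a, rfl⟩, ⟨b, rfl⟩⟩ h1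
    · intro h1
      refine ⟨fun h2 => ?_, Or.inl ⟨a, b, rfl, rfl, h1⟩⟩
      rw [φ.injective h2, m10_adjL_self h] at h1
      exact absurd h1 (by simp)
  · obtain ⟨_, ⟨a', b', h1, h2, h3⟩ | ⟨h1, h2⟩⟩ := hj
    · exact ⟨b', h2⟩
    · exact hc.2 a ha j h2

theorem m10_Qw_repl (H : SimpleGraph (Fin n)) {w : ℕ} (φ : Fin w ↪ Fin n) (l' : List (ℕ × ℕ))
    (q : ℝ) (i j : Fin n) (hj : ∀ a, φ a ≠ j) : Qw (repl H φ l') q i j = Qw H q i j := by
  unfold Qw
  have : (repl H φ l').Adj i j ↔ H.Adj i j := by
    constructor
    · rintro ⟨_, ⟨a', b', h1, h2, h3⟩ | ⟨h1, h2⟩⟩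
      · exact absurd h2 (hj b')
      · exact h2
    · intro h
      exact ⟨h.ne, Or.inr ⟨fun h1 => by
        obtain ⟨b, hb⟩ := h1.2
        exact hj b hb, h⟩⟩
  by_cases h : H.Adj i j
  · rw [if_pos h, if_pos (this.2 h)]
  · rw [if_neg h, if_neg (fun h' => h (this.1 h'))]

attribute [local irreducible] dp

/-- The owner of M10 may change the definitions above (for speed of kernel evaluation: the
evaluation of `chk` on instances with `w ≤ 10` has to run in the kernel), but not this statement. -/
theorem chk_sound (w : ℕ) (l : List (ℕ × ℕ)) (ls : List (List (ℕ × ℕ))) (mk : List ℕ) (C : Cert)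
    (h : chk w l ls mk C = true) : MoveOK w l ls mk := by
  unfold chk at h
  simp only [Bool.and_eq_true, List.all_eq_true, m10_nodupTy, m10_memTy, Nat.ble_eq] at h
  obtain ⟨⟨⟨⟨⟨⟨⟨hin, hins⟩, hC⟩, hnd⟩, heK⟩, hd0⟩, hds⟩, hcore⟩ := h
  intro n H φ hc q hq0 hq1
  set r := mk.length with hr
  set M := w * (w - 1) / 2 with hM
  set A : Finset (Fin n) := univ.filter fun j => ∀ a, φ a ≠ j with hA
  set ψ : Finset (Fin n) → ℕ → ℝ := fun B i =>
    if h : mk.getD i w < w then tt (Qw H q) (φ ⟨mk.getD i w, h⟩) B else 1 with hψ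
  set G : Ty → ℝ := fun τ => MM (Qw H q) (fun B => Fty (w - r) r (q ^ B.card) (ψ B) τ) A with hG
  -- the reliabilities
  have h0 : RH H q = ∑ τ ∈ C.types.toFinset, (sgn τ : ℝ) * q ^ eK r τ *
      evalN (collect τ (dp w l mk)) q⁻¹ * G τ := by
    rw [dp_sound w l mk hin H φ hc q hq0, ← m10_group r q q⁻¹ C.types G _ hd0]
  have h1 : ∀ l' ∈ ls, RH (repl H φ l') q = ∑ τ ∈ C.types.toFinset, (sgn τ : ℝ) * q ^ eK r τ *
      evalN (collect τ (dp w l' mk)) q⁻¹ * G τ := by
    intro l' hl'
    rw [dp_sound w l' mk (hins l' hl') (repl H φ l') φ (m10_conf_repl hc (hins l' hl')) q hq0,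
      ← m10_group r q q⁻¹ C.types G _ (hds l' hl')]
    congr 1
    refine List.map_congr_left fun e _ => ?_
    congr 1
    rw [hG]
    refine MM_congr ?_ ?_
    · intro i hi j hj _
      exact m10_Qw_repl H φ l' q i j (Finset.mem_filter.1 hj).2
    · intro B hB _
      have : (fun i => if h : mk.getD i w < w then
          tt (Qw (repl H φ l') q) (φ ⟨mk.getD i w, h⟩) B else 1) = ψ B := by
        funext i
        rw [hψ]
        simp only
        split_ifs with hi
        · unfold tt
          refine Finset.prod_congr rfl fun j hj => ?_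
          exact m10_Qw_repl H φ l' q _ j (Finset.mem_filter.1 (hB hj)).2
        · rfl
      rw [this]
  -- the coefficients
  set coef : Ty → ℝ := fun τ => (sgn τ : ℝ) * q ^ eK r τ *
    (evalN (collects τ (ls.map fun l' => dp w l' mk)) q⁻¹ -
      (ls.map fun l' => dp w l' mk).length * evalN (collect τ (dp w l mk)) q⁻¹) with hcoef
  have htot : (ls.map fun l' => RH (repl H φ l') q - RH H q).sum =
      ∑ τ ∈ C.types.toFinset, coef τ * G τ := by
    have key : ∀ ls' : List (List (ℕ × ℕ)), (∀ l' ∈ ls', l' ∈ ls) →
        (ls'.map fun l' => RH (repl H φ l') q - RH H q).sum =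
        ∑ τ ∈ C.types.toFinset, (sgn τ : ℝ) * q ^ eK r τ *
          (evalN (collects τ (ls'.map fun l' => dp w l' mk)) q⁻¹ -
          (ls'.map fun l' => dp w l' mk).length * evalN (collect τ (dp w l mk)) q⁻¹) * G τ := by
      intro ls'
      induction ls' with
      | nil => intro _; simp [collects, m10_evalN_nil]
      | cons l' ls' ih =>
        intro hls'
        rw [List.map_cons, List.sum_cons, ih fun l'' h => hls' l'' (List.mem_cons_of_mem _ h),
          h1 l' (hls' l' List.mem_cons_self), h0, ← Finset.sum_sub_distrib,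
          ← Finset.sum_add_distrib]
        refine Finset.sum_congr rfl fun τ _ => ?_
        rw [List.map_cons, collects, m10_addN, List.length_cons]
        push_cast
        ring
    exact key ls fun _ h => h
  rw [htot]
  have hQ : Wt (Qw H q) := Qw_wt H hq0.le hq1.le
  refine MM_termwise C.types.toFinset hQ A coef
    (fun τ B => Fty (w - r) r (q ^ B.card) (ψ B) τ) fun L _ => ?_
  rw [List.sum_toFinset _ hnd]
  -- positivity of the rows
  have hx : q⁻¹ = 1 + (q⁻¹ - 1) := by ring
  have hs : 0 ≤ q⁻¹ - 1 := by
    rw [sub_nonneg]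
    exact (one_le_inv₀ hq0).2 hq1.le
  have hpos : ∀ row ∈ C.rows,
      0 ≤ (List.zipWith (fun τ (x : ℕ) => coef τ * (x : ℝ)) C.types row).sum := by
    intro row hrow
    unfold chkCore at hcore
    rw [List.all_eq_true] at hcore
    have h2 := m10_leN (hcore row hrow) hs
    rw [List.map_map, List.map_map, m10_combN, m10_combN] at h2
    rw [m10_zip_sub C.types row (fun τ => evalN ((Prod.fst ∘ prOf r M (dp w l mk)
      (ls.map fun l' => dp w l' mk)) τ) (q⁻¹ - 1)) (fun τ => evalN ((Prod.snd ∘ prOf r M
      (dp w l mk) (ls.map fun l' => dp w l' mk)) τ) (q⁻¹ - 1)) coef (q ^ M) ?_]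
    · exact mul_nonneg (by positivity) (sub_nonneg.2 h2)
    · intro τ hτ
      simp only [Function.comp]
      rw [m10_prOf, ← hx, hcoef]
      have h3 : q ^ M * q⁻¹ ^ (M - eK r τ) = q ^ eK r τ := by
        have h4 : M = eK r τ + (M - eK r τ) := by
          have := heK τ hτ
          omega
        conv_lhs => rw [h4, Nat.add_sub_cancel_left]
        rw [pow_add, mul_assoc, ← mul_pow, mul_inv_cancel₀ hq0.ne', one_pow, mul_one]
      rw [← mul_assoc, h3]
      ring
  have := cert_sound (w - r) r C hC coef hpos (L.map fun B => (q ^ B.card, ψ B)) ?_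
  · simpa [List.map_map, Function.comp_def] using this
  · intro e he
    obtain ⟨B, _, rfl⟩ := List.mem_map.1 he
    refine ⟨by positivity, pow_le_one₀ hq0.le hq1.le, fun i => ?_⟩
    rw [hψ]
    simp only
    split_ifs with hi
    · unfold tt
      exact ⟨Finset.prod_nonneg fun j _ => hQ.2.1 _ _,
        Finset.prod_le_one (fun j _ => hQ.2.1 _ _) fun j _ => hQ.2.2 _ _⟩
    · exact ⟨zero_le_one, le_refl _⟩

end Pool.Agent.H34R2.U
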