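import Pool.Agent.H34R2.U.M11Base
import Pool.Agent.H34R2.U.Cert5_0
import Pool.Agent.H34R2.U.Cert6_0
import Pool.Agent.H34R2.U.Cert7_0
import Pool.Agent.H34R2.U.Cert8_0
import Pool.Agent.H34R2.U.Cert9_0

/-! instances of the machine-checked moves -/

set_option autoImplicit false
set_option maxRecDepth 100000

namespace Pool.Agent.H34R2.U

theorem i_P5 : MoveOK 5 [(0,1),(1,2),(2,3),(3,4)]
  [[(0,1),(1,2),(0,2),(3,4)]] [] :=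
  move_of _ _ _ _ cert5_0 _ _ cert5_0_ok rfl rfl (by decide +kernel)

theorem i_P3P4 : MoveOK 7 [(0,1),(1,2),(3,4),(4,5),(5,6)]
  [[(0,1),(1,2),(0,2),(3,4),(5,6)]] [] :=
  move_of _ _ _ _ cert7_0 _ _ cert7_0_ok rfl rfl (by decide +kernel)

theorem i_P4P4 : MoveOK 8 [(0,1),(1,2),(2,3),(4,5),(5,6),(6,7)]
  [[(0,1),(1,2),(0,2),(4,5),(3,6),(6,7)]] [] :=
  move_of _ _ _ _ cert8_0 _ _ cert8_0_ok rfl rfl (by decide +kernel)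

theorem i_3P3 : MoveOK 9 [(0,1),(1,2),(3,4),(4,5),(6,7),(7,8)]
  [[(0,1),(1,2),(0,2),(3,4),(5,6),(7,8)]] [] :=
  move_of _ _ _ _ cert9_0 _ _ cert9_0_ok rfl rfl (by decide +kernel)

theorem i_C6 : MoveOK 6 [(0,1),(1,2),(2,3),(3,4),(4,5),(0,5)]
  [[(0,1),(1,2),(0,2),(3,4),(4,5),(3,5)]] [] :=
  move_of _ _ _ _ cert6_0 _ _ cert6_0_ok rfl rfl (by decide +kernel)

theorem i_C7 : MoveOK 7 [(0,1),(1,2),(2,3),(3,4),(4,5),(5,6),(0,6)]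
  [[(0,1),(1,2),(0,2),(3,4),(4,5),(5,6),(3,6)]] [] :=
  move_of _ _ _ _ cert7_0 _ _ cert7_0_ok rfl rfl (by decide +kernel)

theorem i_C4P3 : MoveOK 7 [(0,1),(1,2),(2,3),(0,3),(4,5),(5,6)]
  [[(0,1),(1,2),(0,2),(3,4),(4,5),(5,6)]] [] :=
  move_of _ _ _ _ cert7_0 _ _ cert7_0_ok rfl rfl (by decide +kernel)

theorem i_C4P4 : MoveOK 8 [(0,1),(1,2),(2,3),(0,3),(4,5),(5,6),(6,7)]
  [[(0,1),(1,2),(0,2),(4,5),(5,6),(4,6),(3,7)]] [] :=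
  move_of _ _ _ _ cert8_0 _ _ cert8_0_ok rfl rfl (by decide +kernel)

theorem i_C4C4 : MoveOK 8 [(0,1),(1,2),(2,3),(0,3),(4,5),(5,6),(6,7),(4,7)]
  [[(0,1),(1,2),(0,2),(3,4),(4,5),(5,6),(6,7),(3,7)]] [] :=
  move_of _ _ _ _ cert8_0 _ _ cert8_0_ok rfl rfl (by decide +kernel)

theorem i_C4C5 : MoveOK 9 [(0,1),(1,2),(2,3),(0,3),(4,5),(5,6),(6,7),(7,8),(4,8)]
  [[(0,1),(1,2),(0,2),(3,4),(4,5),(3,5),(6,7),(7,8),(6,8)]] [] :=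
  move_of _ _ _ _ cert9_0 _ _ cert9_0_ok rfl rfl (by decide +kernel)

theorem i_C5P3 : MoveOK 8 [(0,1),(1,2),(2,3),(3,4),(0,4),(5,6),(6,7)]
  [[(0,1),(1,2),(0,2),(3,4),(4,5),(3,5),(6,7)]] [] :=
  move_of _ _ _ _ cert8_0 _ _ cert8_0_ok rfl rfl (by decide +kernel)

end Pool.Agent.H34R2.U
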