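import Pool.Agent.H34R2.U.M11Base
import Pool.Agent.H34R2.U.Cert5_1
import Pool.Agent.H34R2.U.Cert7_1

/-! instances of the machine-checked moves -/

set_option autoImplicit false
set_option maxRecDepth 100000

namespace Pool.Agent.H34R2.U

theorem i_P6 : MoveOK 6 [(0,1),(1,2),(2,3),(3,4),(4,5)]
  [[(0,1),(1,2),(0,2),(3,4),(4,5)]] [5] :=
  move_of _ _ _ _ cert5_1 _ _ cert5_1_ok rfl rfl (by decide +kernel)

theorem i_P3T : MoveOK 8 [(0,1),(1,2),(3,4),(4,5),(5,6),(6,7)]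
  [[(0,1),(1,2),(0,2),(3,4),(5,6),(6,7)]] [7] :=
  move_of _ _ _ _ cert7_1 _ _ cert7_1_ok rfl rfl (by decide +kernel)

end Pool.Agent.H34R2.U
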