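import Pool.Agent.H34R2.U.M11Base
import Pool.Agent.H34R2.U.Cert8_1

/-! instances of the machine-checked moves -/

set_option autoImplicit false
set_option maxRecDepth 100000

namespace Pool.Agent.H34R2.U

theorem i_P4T : MoveOK 9 [(0,1),(1,2),(2,3),(4,5),(5,6),(6,7),(7,8)]
  [[(0,1),(1,2),(0,2),(4,5),(3,6),(6,7),(7,8)]] [8] :=
  move_of _ _ _ _ cert8_1 _ _ cert8_1_ok rfl rfl (by decide +kernel)

theorem i_TT : MoveOK 9 [(0,1),(1,2),(2,3),(3,8),(4,5),(5,6),(6,7),(7,8)]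
  [[(0,1),(1,2),(0,2),(3,8),(4,5),(5,6),(3,7),(7,8)]] [8] :=
  move_of _ _ _ _ cert8_1 _ _ cert8_1_ok rfl rfl (by decide +kernel)

end Pool.Agent.H34R2.U
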