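import Pool.Agent.H34R2.U.G16
import Pool.Agent.H34R2.U.MI1
import Pool.Agent.H34R2.U.MI2
import Pool.Agent.H34R2.U.MI3
import Pool.Agent.H34R2.U.MI4
import Pool.Agent.H34R2.U.MI5

/-! all machine-checked moves -/

set_option autoImplicit false

namespace Pool.Agent.H34R2.U

theorem allMoves : AllMoves where
  m5 := i_P5
  m6 := i_P6
  m34 := i_P3P4
  m3T := i_P3T
  m44 := i_P4P4
  m4T := i_P4T
  mTT := i_TT
  m333 := i_3P3
  c6 := i_C6
  c7 := i_C7
  l7 := i_L7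
  c43 := i_C4P3
  c44 := i_C4P4
  cc44 := i_C4C4
  cc45 := i_C4C5
  c53 := i_C5P3
  cc55 := i_C5C5

end Pool.Agent.H34R2.U
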