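import Pool.Agent.H34R2.U.M10

/-! splitting of the check -/

set_option autoImplicit false

namespace Pool.Agent.H34R2.U

def chkRest (w : ℕ) (l : List (ℕ × ℕ)) (ls : List (List (ℕ × ℕ))) (mk : List ℕ) (C : Cert)
    (d0 : List (Ty × List ℕ)) (ds : List (List (Ty × List ℕ))) : Bool :=
  inOK w l mk && (ls.all fun l' => inOK w l' mk) &&
  nodupTy C.types &&
  (C.types.all fun τ => Nat.ble (eK mk.length τ) (w * (w - 1) / 2)) &&
  (d0.all fun e => memTy e.1 C.types) &&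
  (ds.all fun d => d.all fun e => memTy e.1 C.types) &&
  chkCore mk.length (w * (w - 1) / 2) C.types C.rows d0 ds

theorem move_of (w : ℕ) (l : List (ℕ × ℕ)) (ls : List (List (ℕ × ℕ))) (mk : List ℕ) (C : Cert)
    (d0 : List (Ty × List ℕ)) (ds : List (List (Ty × List ℕ)))
    (hC : certOK (w - mk.length) mk.length C = true)
    (hd0 : dp w l mk = d0) (hds : (ls.map fun l' => dp w l' mk) = ds)
    (h : chkRest w l ls mk C d0 ds = true) : MoveOK w l ls mk := by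
  apply chk_sound w l ls mk C
  subst hd0 hds
  unfold chkRest at h
  unfold chk
  simp only [Bool.and_eq_true] at h ⊢
  obtain ⟨⟨⟨⟨⟨⟨h1, h2⟩, h3⟩, h4⟩, h5⟩, h6⟩, h7⟩ := h
  refine ⟨⟨⟨⟨⟨⟨⟨h1, h2⟩, hC⟩, h3⟩, h4⟩, h5⟩, ?_⟩, h7⟩
  rw [List.all_map] at h6
  exact h6

end Pool.Agent.H34R2.U
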