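import Pool.Agent.H34R2.U.M11Base
import Pool.Agent.H34R2.U.U1

/-! instances of strict moves -/

set_option autoImplicit false

namespace Pool.Agent.H34R2.U

theorem strict_of (w : ℕ) (l : List (ℕ × ℕ)) (ls : List (List (ℕ × ℕ))) (mk : List ℕ) (C : Cert)
    (d0 : List (Ty × List ℕ)) (ds : List (List (Ty × List ℕ)))
    (hC : certOK (w - mk.length) mk.length C = true)
    (hd0 : dp w l mk = d0) (hds : (ls.map fun l' => dp w l' mk) = ds)
    (h : chkRest w l ls mk C d0 ds = true) (h1 : chkOne w l ls mk C = true) :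
    MoveStrict w l ls mk := by
  refine chk_strict w l ls mk C ?_ h1
  subst hd0 hds
  unfold chkRest at h
  unfold chk
  simp only [Bool.and_eq_true] at h ⊢
  obtain ⟨⟨⟨⟨⟨⟨h1, h2⟩, h3⟩, h4⟩, h5⟩, h6⟩, h7⟩ := h
  refine ⟨⟨⟨⟨⟨⟨⟨h1, h2⟩, hC⟩, h3⟩, h4⟩, h5⟩, ?_⟩, h7⟩
  rw [List.all_map] at h6
  exact h6

end Pool.Agent.H34R2.U
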