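import Pool.Agent.H34R2.U.Final
import Pool.Agent.H34R2.U.N2Det

/-! TASK N2: no uniformly most reliable graph for `a = 2`. -/

set_option autoImplicit false

namespace Pool.Agent.H34R2.U

open Finset
open Classical
open Pool.Agent.Helper428.UMR

/-- There is no uniformly most reliable graph when `a = 2` (i.e. `n = 2k`, `m = 2k² - 2k - 1`,
`k ≥ 3`).  (The hypotheses on the moves are not needed; see `N2Aux.none_two'`.) -/
theorem none_two (_m5 : mvP5) (_m6 : mvP6) (_m34 : mvP3P4) (_m3T : mvP3T) (_m44 : mvP4P4)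
    (_m4T : mvP4T) (_mTT : mvTT) (_m333 : mv3P3) (n m : ℕ) (hn : 6 ≤ n)
    (ha : 2 * m + 2 + 2 * n = n ^ 2) (G : SimpleGraph (Fin n)) (hm : G.edgeFinset.card = m) :
    ¬ IsUMR G :=
  N2Aux.none_two' n m hn ha G hm

end Pool.Agent.H34R2.U
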