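import Pool.Agent.H34R2.U.Defs

/-! Definitions for the degree-reducing move (S-tasks). -/

set_option autoImplicit false

namespace Pool.Agent.H34R2.U

/-- the six block weights; arguments `U X z`. -/
def F1 (U X z : ℝ) : ℝ := U + X * z ^ 2 - 2 * (U * X * z ^ 2)
def F2 (U X z : ℝ) : ℝ := z + U * X * z - 2 * (U * X * z ^ 2)
def F3 (U X z : ℝ) : ℝ := U * z + X * z - 2 * (U * X * z ^ 2)
def F4 (U X z : ℝ) : ℝ := U * X + z ^ 2 - 2 * (U * X * z ^ 2)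
def F5 (U X z : ℝ) : ℝ := U * z + U * X * z + X * z ^ 2 - 3 * (U * X * z ^ 2)
def F6 (U X z : ℝ) : ℝ := z ^ 2 + 2 * (U * X * z) - 3 * (U * X * z ^ 2)

/-- product of a weight over a list of blocks, each block given by its triple `(U, X, z)`. -/
noncomputable def pr (F : ℝ → ℝ → ℝ → ℝ) (L : List (ℝ × ℝ × ℝ)) : ℝ :=
  (L.map fun t => F t.1 t.2.1 t.2.2).prod

/-- the termwise value. -/
noncomputable def DD (q e : ℝ) (L : List (ℝ × ℝ × ℝ)) : ℝ :=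
  q * pr F1 L - pr F2 L + e * (pr F3 L - q * pr F4 L - 2 * q * pr F5 L + 2 * q * pr F6 L)

/-- the block with `d` vertices, of which `a` are `H`-neighbours of `u` and `b` are `H`-neighbours
of `x`. -/
noncomputable def blk (q : ℝ) (t : ℕ × ℕ × ℕ) : ℝ × ℝ × ℝ :=
  (q ^ (t.2.2 - t.1), q ^ (t.2.2 - t.2.1), q ^ t.2.2)

/-- a legal list of blocks `(a, b, d)`. -/
def Legal (L : List (ℕ × ℕ × ℕ)) : Prop := ∀ t ∈ L, t.1 ≤ t.2.2 ∧ t.2.1 ≤ t.2.2 ∧ 1 ≤ t.2.2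

end Pool.Agent.H34R2.U
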