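import Pool.Agent.H34R2.U.SDefs

/-! TASK S5: real inequalities for the one-sided degree-reducing move. -/

set_option autoImplicit false

namespace Pool.Agent.H34R2.U

theorem F1_nn {U X z : ℝ} (hz : 0 ≤ z) (hz1 : z ≤ 1) (hU0 : 0 ≤ U) (hU : U ≤ 1) (hX0 : 0 ≤ X)
    (hX : X ≤ 1) : 0 ≤ F1 U X z := by
  have h2 : z ^ 2 ≤ 1 := by nlinarith
  have h3 : X * z ^ 2 ≤ 1 := by nlinarith [mul_nonneg hX0 (sq_nonneg z)]
  have h4 : 0 ≤ X * z ^ 2 := mul_nonneg hX0 (sq_nonneg z)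
  have : F1 U X z = U * (1 - X * z ^ 2) + X * z ^ 2 * (1 - U) := by unfold F1; ring
  rw [this]
  exact add_nonneg (mul_nonneg hU0 (by linarith)) (mul_nonneg h4 (by linarith))

theorem F2_nn {U X z : ℝ} (hz : 0 ≤ z) (hz1 : z ≤ 1) (hU0 : 0 ≤ U) (hU : U ≤ 1) (hX0 : 0 ≤ X)
    (hX : X ≤ 1) : 0 ≤ F2 U X z := by
  have h1 : 0 ≤ U * X := mul_nonneg hU0 hX0
  have h2 : U * X ≤ 1 := by nlinarith
  have h3 : U * X * z ≤ 1 := by nlinarith
  have : F2 U X z = z * ((1 - U * X * z) + U * X * (1 - z)) := by unfold F2; ring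
  rw [this]
  exact mul_nonneg hz (add_nonneg (by linarith) (mul_nonneg h1 (by linarith)))

theorem sq_core {s w X : ℝ} (hw : 0 < w) (hws : w ≤ s) (hs : s ≤ 1) (hX : X ≤ s ^ 2) :
    s * F2 (s ^ 2) X (w ^ 2) ≤ w * F1 (s ^ 2) X (w ^ 2) := by
  have hs0 : 0 < s := lt_of_lt_of_le hw hws
  have hw1 : w ≤ 1 := hws.trans hs
  have key : w * F1 (s ^ 2) X (w ^ 2) - s * F2 (s ^ 2) X (w ^ 2) =
      w * (w * ((s - w) * ((w ^ 2 + w * s + s ^ 2) - 2 * (s * w) ^ 2)) * (s ^ 2 - X) +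
        s * (s - w) * ((1 - s ^ 2) * (1 - w ^ 2) * (s * w) +
          (1 - s * w) ^ 2 * (1 + s * w))) := by
    unfold F1 F2; ring
  have h1 : 0 ≤ s - w := by linarith
  have hp0 : 0 ≤ s * w := by positivity
  have hp1 : s * w ≤ 1 := by nlinarith
  have h2 : 0 ≤ (w ^ 2 + w * s + s ^ 2) - 2 * (s * w) ^ 2 := by
    have h3 : (s * w) ^ 2 ≤ s * w := by nlinarith
    nlinarith [sq_nonneg (s - w)]
  have h4 : 0 ≤ 1 - s ^ 2 := by nlinarith
  have h5 : 0 ≤ 1 - w ^ 2 := by nlinarith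
  have h6 : 0 ≤ s ^ 2 - X := by linarith
  have h7 : 0 ≤ w * F1 (s ^ 2) X (w ^ 2) - s * F2 (s ^ 2) X (w ^ 2) := by
    rw [key]; positivity
  linarith

theorem cube_core {s w X : ℝ} (hw : 0 < w) (hws : w ≤ s) (hs : s ≤ 1) (hX : X ≤ 1) :
    s * F2 (s ^ 3) X (w ^ 3) ≤ w * F1 (s ^ 3) X (w ^ 3) := by
  have hs0 : 0 < s := lt_of_lt_of_le hw hws
  have hw1 : w ≤ 1 := hws.trans hs
  have key : w * F1 (s ^ 3) X (w ^ 3) - s * F2 (s ^ 3) X (w ^ 3) =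
      w * (w ^ 2 * ((s - w) * ((w + s) * (w ^ 2 + s ^ 2) - 2 * (s * w) ^ 3)) * (1 - X) +
        (s - w) * (s * (s + w) - w ^ 2 * (s + w) * (s ^ 2 + w ^ 2) + 2 * s ^ 3 * w ^ 5)) := by
    unfold F1 F2; ring
  have h1 : 0 ≤ s - w := by linarith
  have hp0 : 0 ≤ s * w := by positivity
  have hp1 : s * w ≤ 1 := by nlinarith
  have h2 : 0 ≤ (w + s) * (w ^ 2 + s ^ 2) - 2 * (s * w) ^ 3 := by
    have h3 : (s * w) ^ 3 ≤ (s * w) ^ 2 := by
      have := mul_nonneg (sq_nonneg (s * w)) (sub_nonneg.2 hp1)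
      nlinarith
    have h4 : (s * w) ^ 2 ≤ s * w ^ 2 := by nlinarith [mul_nonneg hp0 hw.le]
    have h5 : s * w ^ 2 ≤ (w + s) * (w ^ 2 + s ^ 2) - s * w ^ 2 - s ^ 2 * w := by
      have : 0 < w ^ 3 + s ^ 3 := by positivity
      nlinarith
    have h6 : (s * w) ^ 2 ≤ s ^ 2 * w := by nlinarith [mul_nonneg hp0 hs0.le]
    have h7 : 0 ≤ w ^ 3 + s ^ 3 := by positivity
    nlinarith
  have h8 : 0 ≤ s * (s + w) - w ^ 2 * (s + w) * (s ^ 2 + w ^ 2) + 2 * s ^ 3 * w ^ 5 := by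
    obtain ⟨r, hr0, hr1, hr⟩ : ∃ r : ℝ, 0 ≤ r ∧ r ≤ 1 ∧ w = s * r :=
      ⟨w / s, by positivity, by rw [div_le_one hs0]; exact hws, by field_simp⟩
    have e : s * (s + w) - w ^ 2 * (s + w) * (s ^ 2 + w ^ 2) + 2 * s ^ 3 * w ^ 5 =
        s ^ 2 * ((1 - s ^ 3) * (r ^ 2 * (1 + r) * (1 + r ^ 2) - 2 * r ^ 5 * (1 + s ^ 3)) +
          (1 - r) * (1 + 2 * r + r ^ 2 - r ^ 4)) := by
      rw [hr]; ring
    rw [e]
    have hS0 : 0 ≤ s ^ 3 := by positivity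
    have hS1 : s ^ 3 ≤ 1 := pow_le_one₀ hs0.le hs
    have hr2 : r ^ 2 ≤ 1 := pow_le_one₀ hr0 hr1
    have hr3 : r ^ 3 ≤ 1 := pow_le_one₀ hr0 hr1
    have hr4 : r ^ 4 ≤ 1 := pow_le_one₀ hr0 hr1
    have hr3' : r ^ 3 ≤ r ^ 2 := pow_le_pow_of_le_one hr0 hr1 (by norm_num)
    have hr3'' : r ^ 3 ≤ r := by
      calc r ^ 3 ≤ r ^ 1 := pow_le_pow_of_le_one hr0 hr1 (by norm_num)
        _ = r := pow_one r
    have h9 : 0 ≤ (1 + r) * (1 + r ^ 2) - 4 * r ^ 3 := by nlinarith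
    have h10 : 0 ≤ r ^ 2 * (1 + r) * (1 + r ^ 2) - 2 * r ^ 5 * (1 + s ^ 3) := by
      have : r ^ 2 * (1 + r) * (1 + r ^ 2) - 2 * r ^ 5 * (1 + s ^ 3) =
        r ^ 2 * ((1 + r) * (1 + r ^ 2) - 4 * r ^ 3) + 2 * r ^ 5 * (1 - s ^ 3) := by ring
      rw [this]
      have : 0 ≤ 1 - s ^ 3 := by linarith
      positivity
    have h11 : 0 ≤ 1 + 2 * r + r ^ 2 - r ^ 4 := by nlinarith [sq_nonneg r]
    have h12 : 0 ≤ 1 - s ^ 3 := by linarith
    have h13 : 0 ≤ 1 - r := by linarith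
    positivity
  have h6 : 0 ≤ 1 - X := by linarith
  have h7 : 0 ≤ w * F1 (s ^ 3) X (w ^ 3) - s * F2 (s ^ 3) X (w ^ 3) := by
    rw [key]; positivity
  linarith

/-- bound with exponent `a/2` when `X ≤ U`. -/
theorem F_sq {U X z : ℝ} (hz : 0 < z) (hzX : z ≤ X) (hXU : X ≤ U) (hU : U ≤ 1) :
    U * F2 U X z ^ 2 ≤ z * F1 U X z ^ 2 := by
  have hU0 : 0 < U := lt_of_lt_of_le hz (hzX.trans hXU)
  have hX0 : 0 < X := lt_of_lt_of_le hz hzX
  have hX1 : X ≤ 1 := hXU.trans hU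
  have hz1 : z ≤ 1 := hzX.trans hX1
  have hs : Real.sqrt U ^ 2 = U := Real.sq_sqrt hU0.le
  have hw : Real.sqrt z ^ 2 = z := Real.sq_sqrt hz.le
  have h := sq_core (s := Real.sqrt U) (w := Real.sqrt z) (X := X) (Real.sqrt_pos.2 hz)
    (Real.sqrt_le_sqrt (hzX.trans hXU)) (by rw [Real.sqrt_le_one]; exact hU) (by rw [hs]; exact hXU)
  rw [hs, hw] at h
  have h0 : 0 ≤ Real.sqrt U * F2 U X z :=
    mul_nonneg (Real.sqrt_nonneg _) (F2_nn hz.le hz1 hU0.le hU hX0.le hX1)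
  have h1 := pow_le_pow_left₀ h0 h 2
  rw [mul_pow, mul_pow, hs, hw] at h1
  exact h1

/-- bound with exponent `a/3` in general. -/
theorem F_cube {U X z : ℝ} (hz : 0 < z) (hzU : z ≤ U) (hU : U ≤ 1) (hzX : z ≤ X) (hX : X ≤ 1) :
    U * F2 U X z ^ 3 ≤ z * F1 U X z ^ 3 := by
  have hU0 : 0 < U := lt_of_lt_of_le hz hzU
  have hX0 : 0 < X := lt_of_lt_of_le hz hzX
  have hz1 : z ≤ 1 := hzX.trans hX
  have c (y : ℝ) (hy : 0 ≤ y) : (y ^ ((1 : ℝ) / 3)) ^ 3 = y := by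
    rw [← Real.rpow_natCast, ← Real.rpow_mul hy]; norm_num
  have hs := c U hU0.le
  have hw := c z hz.le
  have h := cube_core (s := U ^ ((1 : ℝ) / 3)) (w := z ^ ((1 : ℝ) / 3)) (X := X)
    (Real.rpow_pos_of_pos hz _) (Real.rpow_le_rpow hz.le hzU (by norm_num))
    (Real.rpow_le_one hU0.le hU (by norm_num)) hX
  rw [hs, hw] at h
  have h0 : 0 ≤ U ^ ((1 : ℝ) / 3) * F2 U X z :=
    mul_nonneg (Real.rpow_nonneg hU0.le _) (F2_nn hz.le hz1 hU0.le hU hX0.le hX)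
  have h1 := pow_le_pow_left₀ h0 h 3
  rw [mul_pow, mul_pow, hs, hw] at h1
  exact h1

/-- the induction invariant for `DD_nonneg`. -/
def Inv (q : ℝ) (P1 P2 P3 P4 P5 P6 : ℝ) : Prop :=
  ∃ G1 G3 G5 m1 m2 m3 m4 m5 m6 : ℝ,
    0 < G1 ∧ G3 ≤ G1 ∧ G5 ≤ G3 ∧ 0 ≤ G5 ∧
    P1 = G1 * m1 ∧ P2 = G1 * m2 ∧ P3 = G3 * m3 ∧ P4 = G3 * m4 ∧ P5 = G5 * m5 ∧ P6 = G5 * m6 ∧
    0 ≤ m6 ∧ m6 ≤ m5 ∧
    (∀ u t y A B D : ℝ, 0 ≤ u → 0 ≤ t → 0 ≤ y → 0 ≤ A → 0 ≤ B → 0 ≤ D →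
      t ≤ q * u → y ≤ 1 → B ≤ A → D ≤ B →
      0 ≤ q * u * A * m1 - t * B * m2 + y * (u * B * m3 - q * t * A * m4 - 2 * q * u * D * m5 +
        2 * q * t * D * m6)) ∧
    (∀ A B D : ℝ, 0 ≤ A → 0 ≤ B → 0 ≤ D → B ≤ A → D ≤ B →
      0 ≤ q * A * m1 - B * m2 + B * m3 - q * A * m4 - 2 * q * D * m5 + 2 * q * D * m6)

theorem inv_nil (q : ℝ) (hq0 : 0 < q) (hq1 : q < 1) : Inv q 1 1 1 1 1 1 := by
  refine ⟨1, 1, 1, 1, 1, 1, 1, 1, 1, one_pos, le_rfl, le_rfl, zero_le_one, by ring, by ring,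
    by ring, by ring, by ring, by ring, zero_le_one, le_rfl, ?_, ?_⟩
  · intro u t y A B D hu ht hy hA hB hD htu hy1 hBA hDB
    have e : q * u * A * 1 - t * B * 1 + y * (u * B * 1 - q * t * A * 1 - 2 * q * u * D * 1 +
        2 * q * t * D * 1) = (1 - y) * ((q * u - t) * A + t * (A - B)) +
          y * ((u - t) * (q * (A - D) + (B - D) + D * (1 - q))) := by ring
    rw [e]
    have h1 : 0 ≤ 1 - y := by linarith
    have h2 : 0 ≤ q * u - t := by linarith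
    have h3 : 0 ≤ A - B := by linarith
    have h4 : 0 ≤ u - t := by nlinarith
    have h5 : 0 ≤ A - D := by linarith
    have h6 : 0 ≤ B - D := by linarith
    have h7 : 0 ≤ 1 - q := by linarith
    positivity
  · intro A B D _ _ _ _ _
    apply le_of_eq; ring

theorem inv_unmarked (q : ℝ) (X z : ℝ) (hz : 0 < z) (hz1 : z < 1) (hzX : z ≤ X) (hX1 : X ≤ 1)
    (P1 P2 P3 P4 P5 P6 : ℝ) (h : Inv q P1 P2 P3 P4 P5 P6) :
    Inv q (F1 z X z * P1) (F2 z X z * P2) (F3 z X z * P3) (F4 z X z * P4) (F5 z X z * P5)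
      (F6 z X z * P6) := by
  obtain ⟨G1, G3, G5, m1, m2, m3, m4, m5, m6, hG1, hG3, hG5, hG50, e1, e2, e3, e4, e5, e6,
    hm6, hm5, hi, hii⟩ := h
  have hX0 : 0 < X := lt_of_lt_of_le hz hzX
  have f2 : F2 z X z = F1 z X z := by unfold F2 F1; ring
  have f4 : F4 z X z = F3 z X z := by unfold F3 F4; ring
  have f6 : F6 z X z = F5 z X z := by unfold F5 F6; ring
  have k5 : 0 ≤ F5 z X z := by
    have : F5 z X z = z ^ 2 * (1 - X * z + 2 * X * (1 - z)) := by unfold F5; ring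
    rw [this]
    have h1 : 0 ≤ 1 - X * z := by nlinarith
    have h2 : 0 ≤ 1 - z := by linarith
    positivity
  have k35 : F5 z X z ≤ F3 z X z := by
    have : F3 z X z - F5 z X z = z * X * (1 - z) ^ 2 := by unfold F5 F3; ring
    have h2 : 0 ≤ z * X * (1 - z) ^ 2 := by positivity
    linarith
  have k13 : F3 z X z ≤ F1 z X z := by
    have : F1 z X z - F3 z X z = z * (1 - X) * (1 - z) := by unfold F1 F3; ring
    have h1 : 0 ≤ 1 - X := by linarith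
    have h3 : 0 ≤ 1 - z := by linarith
    have h2 : 0 ≤ z * (1 - X) * (1 - z) := by positivity
    linarith
  have k1 : 0 < F1 z X z := by
    have : F1 z X z = z * (1 - X * z ^ 2) + X * z ^ 2 * (1 - z) := by unfold F1; ring
    rw [this]
    have h1 : X * z ^ 2 < 1 := by
      have : z ^ 2 < 1 := by nlinarith
      nlinarith [sq_nonneg z]
    have h2 : 0 < 1 - X * z ^ 2 := by linarith
    have h3 : 0 ≤ 1 - z := by linarith
    positivity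
  refine ⟨F1 z X z * G1, F3 z X z * G3, F5 z X z * G5, m1, m2, m3, m4, m5, m6, by positivity,
    ?_, ?_, by positivity, ?_, ?_, ?_, ?_, ?_, ?_, hm6, hm5, hi, hii⟩
  · exact mul_le_mul k13 hG3 (hG50.trans hG5) k1.le
  · exact mul_le_mul k35 hG5 hG50 (k5.trans k35)
  · rw [e1]; ring
  · rw [e2, f2]; ring
  · rw [e3]; ring
  · rw [e4, f4]; ring
  · rw [e5]; ring
  · rw [e6, f6]; ring

theorem inv_marked (q : ℝ) (hq0 : 0 < q) (hq1 : q < 1) (U X z : ℝ) (hz : 0 < z) (hz1 : z < 1)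
    (hzU : z ≤ U) (hU1 : U ≤ 1) (hzX : z ≤ X) (hX1 : X ≤ 1) (hm : z ≤ q * U)
    (P1 P2 P3 P4 P5 P6 : ℝ) (h : Inv q P1 P2 P3 P4 P5 P6) :
    Inv q (F1 U X z * P1) (F2 U X z * P2) (F3 U X z * P3) (F4 U X z * P4) (F5 U X z * P5)
      (F6 U X z * P6) := by
  obtain ⟨G1, G3, G5, m1, m2, m3, m4, m5, m6, hG1, hG3, hG5, hG50, e1, e2, e3, e4, e5, e6,
    hm6, hm5, hi, hii⟩ := h
  have hX0 : 0 < X := lt_of_lt_of_le hz hzX
  have hU0 : 0 < U := lt_of_lt_of_le hz hzU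
  have k6 : 0 ≤ F6 U X z := by
    have : F6 U X z = z ^ 2 * (1 - U * X) + 2 * (U * X * z * (1 - z)) := by unfold F6; ring
    rw [this]
    have h1 : U * X ≤ 1 := by nlinarith
    have h2 : 0 ≤ 1 - U * X := by linarith
    have h3 : 0 ≤ 1 - z := by linarith
    positivity
  have k56 : F6 U X z ≤ F5 U X z := by
    have : F5 U X z - F6 U X z = z * (U - z) * (1 - X) := by unfold F5 F6; ring
    have h1 : 0 ≤ 1 - X := by linarith
    have h3 : 0 ≤ U - z := by linarith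
    have h2 : 0 ≤ z * (U - z) * (1 - X) := by positivity
    linarith
  set A' := U + z ^ 2 - 2 * U * z ^ 2 with hA'
  set B' := z + z * U - 2 * U * z ^ 2 with hB'
  set D' := 2 * U * z + z ^ 2 - 3 * U * z ^ 2 with hD'
  have f1 : F1 U X z = (1 - X) * U + X * A' := by rw [hA']; unfold F1; ring
  have f2 : F2 U X z = (1 - X) * z + X * B' := by rw [hB']; unfold F2; ring
  have f3 : F3 U X z = (1 - X) * (z * U) + X * B' := by rw [hB']; unfold F3; ring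
  have f4 : F4 U X z = (1 - X) * z ^ 2 + X * A' := by rw [hA']; unfold F4; ring
  have f5 : F5 U X z = (1 - X) * (U * z) + X * D' := by rw [hD']; unfold F5; ring
  have f6 : F6 U X z = (1 - X) * z ^ 2 + X * D' := by rw [hD']; unfold F6; ring
  have hX' : 0 ≤ 1 - X := by linarith
  have hD0 : 0 ≤ D' := by
    have : D' = z * (2 * U * (1 - z) + z * (1 - U)) := by rw [hD']; ring
    rw [this]
    have h3 : 0 ≤ 1 - z := by linarith
    have h4 : 0 ≤ 1 - U := by linarith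
    positivity
  have hDB' : D' ≤ B' := by
    have : B' - D' = z * (1 - U) * (1 - z) := by rw [hB', hD']; ring
    have h3 : 0 ≤ 1 - z := by linarith
    have h4 : 0 ≤ 1 - U := by linarith
    have : 0 ≤ z * (1 - U) * (1 - z) := by positivity
    linarith
  have hBA' : B' ≤ A' := by
    have : A' - B' = (U - z) * (1 - z) := by rw [hB', hA']; ring
    have h3 : 0 ≤ 1 - z := by linarith
    have h4 : 0 ≤ U - z := by linarith
    have : 0 ≤ (U - z) * (1 - z) := by positivity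
    linarith
  have hB0 : 0 ≤ B' := hD0.trans hDB'
  have hA0 : 0 ≤ A' := hB0.trans hBA'
  refine ⟨G1, G3, G5, F1 U X z * m1, F2 U X z * m2, F3 U X z * m3, F4 U X z * m4, F5 U X z * m5,
    F6 U X z * m6, hG1, hG3, hG5, hG50, by rw [e1]; ring, by rw [e2]; ring, by rw [e3]; ring,
    by rw [e4]; ring, by rw [e5]; ring, by rw [e6]; ring, mul_nonneg k6 hm6,
    mul_le_mul k56 hm5 hm6 (k6.trans k56), ?_, ?_⟩
  · intro u t y A B D hu ht hy hA hB hD htu hy1 hBA hDB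
    have i1 := hi (u * U) (t * z) (y * z) A B D (by positivity) (by positivity) (by positivity)
      hA hB hD (by nlinarith) (by nlinarith) hBA hDB
    have i2 := hi u t y (A * A') (B * B') (D * D') hu ht hy (by positivity) (by positivity)
      (by positivity) htu hy1 (mul_le_mul hBA hBA' hB0 hA) (mul_le_mul hDB hDB' hD0 hB)
    have j1 := mul_nonneg hX' i1
    have j2 := mul_nonneg hX0.le i2
    have := add_nonneg j1 j2
    rw [f1, f2, f3, f4, f5, f6]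
    refine this.trans (le_of_eq ?_)
    ring
  · intro A B D hA hB hD hBA hDB
    have i1 := hi U z z A B D hU0.le hz.le hz.le hA hB hD hm hz1.le hBA hDB
    have i2 := hii (A * A') (B * B') (D * D') (by positivity) (by positivity)
      (by positivity) (mul_le_mul hBA hBA' hB0 hA) (mul_le_mul hDB hDB' hD0 hB)
    have j1 := mul_nonneg hX' i1
    have j2 := mul_nonneg hX0.le i2
    have := add_nonneg j1 j2
    rw [f1, f2, f3, f4, f5, f6]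
    refine this.trans (le_of_eq ?_)
    ring

theorem pr_cons (F : ℝ → ℝ → ℝ → ℝ) (t : ℝ × ℝ × ℝ) (L : List (ℝ × ℝ × ℝ)) :
    pr F (t :: L) = F t.1 t.2.1 t.2.2 * pr F L := by
  unfold pr; simp

theorem inv_list (q : ℝ) (hq0 : 0 < q) (hq1 : q < 1) (L : List (ℝ × ℝ × ℝ))
    (hL : ∀ t ∈ L, 0 < t.2.2 ∧ t.2.2 < 1 ∧ t.2.2 ≤ t.1 ∧ t.1 ≤ 1 ∧ t.2.2 ≤ t.2.1 ∧ t.2.1 ≤ 1 ∧
      (t.1 = t.2.2 ∨ t.2.2 ≤ q * t.1)) :
    Inv q (pr F1 L) (pr F2 L) (pr F3 L) (pr F4 L) (pr F5 L) (pr F6 L) := by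
  induction L with
  | nil => simpa [pr] using inv_nil q hq0 hq1
  | cons t L ih =>
    have ih' := ih (fun s hs => hL s (List.mem_cons_of_mem _ hs))
    obtain ⟨h1, h2, h3, h4, h5, h6, h7⟩ := hL t List.mem_cons_self
    simp only [pr_cons]
    rcases h7 with h7 | h7
    · rw [h7]
      exact inv_unmarked q _ _ h1 h2 h5 h6 _ _ _ _ _ _ ih'
    · exact inv_marked q hq0 hq1 _ _ _ h1 h2 h3 h4 h5 h6 h7 _ _ _ _ _ _ ih'

/-- one-sided termwise inequality. -/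
theorem DD_nonneg (q : ℝ) (hq0 : 0 < q) (hq1 : q < 1) (e : ℝ) (he0 : 0 ≤ e) (he1 : e ≤ 1)
    (L : List (ℝ × ℝ × ℝ))
    (hL : ∀ t ∈ L, 0 < t.2.2 ∧ t.2.2 < 1 ∧ t.2.2 ≤ t.1 ∧ t.1 ≤ 1 ∧ t.2.2 ≤ t.2.1 ∧ t.2.1 ≤ 1 ∧
      (t.1 = t.2.2 ∨ t.2.2 ≤ q * t.1))
    (hI : pr F2 L ≤ q * pr F1 L) : 0 ≤ DD q e L := by
  obtain ⟨G1, G3, G5, m1, m2, m3, m4, m5, m6, hG1, hG3, hG5, hG50, e1, e2, e3, e4, e5, e6,
    hm6, hm5, hi, hii⟩ := inv_list q hq0 hq1 L hL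
  unfold DD
  rw [e1, e2] at hI
  rw [e1, e2, e3, e4, e5, e6]
  have h2 := hii 1 1 1 zero_le_one zero_le_one zero_le_one le_rfl le_rfl
  have hG30 : 0 ≤ G3 := hG50.trans hG5
  have hq : 0 ≤ q * m1 - m2 := by
    by_contra hc
    push Not at hc
    have := mul_neg_of_pos_of_neg hG1 hc
    nlinarith
  have a1 : 0 ≤ (G1 - e * G3) * (q * m1 - m2) := by
    apply mul_nonneg _ hq
    nlinarith
  have a2 : 0 ≤ e * G3 * ((m3 - q * m4 - 2 * q * (m5 - m6)) + (q * m1 - m2)) := by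
    apply mul_nonneg (mul_nonneg he0 hG30)
    linarith
  have a3 : 0 ≤ e * (2 * q * ((G3 - G5) * (m5 - m6))) := by
    have : 0 ≤ G3 - G5 := by linarith
    have : 0 ≤ m5 - m6 := by linarith
    positivity
  have := add_nonneg (add_nonneg a1 a2) a3
  refine this.trans (le_of_eq ?_)
  ring

theorem blk_facts (q : ℝ) (hq0 : 0 < q) (hq1 : q < 1) (t : ℕ × ℕ × ℕ)
    (ht : t.1 ≤ t.2.2 ∧ t.2.1 ≤ t.2.2 ∧ 1 ≤ t.2.2) :
    0 < (blk q t).2.2 ∧ (blk q t).2.2 < 1 ∧ (blk q t).2.2 ≤ (blk q t).1 ∧ (blk q t).1 ≤ 1 ∧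
      (blk q t).2.2 ≤ (blk q t).2.1 ∧ (blk q t).2.1 ≤ 1 ∧
      ((blk q t).1 = (blk q t).2.2 ∨ (blk q t).2.2 ≤ q * (blk q t).1) := by
  obtain ⟨a, b, d⟩ := t
  obtain ⟨h1, h2, h3⟩ := ht
  simp only at h1 h2 h3
  unfold blk
  simp only
  refine ⟨pow_pos hq0 _, pow_lt_one₀ hq0.le hq1 (by omega), 
    pow_le_pow_of_le_one hq0.le hq1.le (by omega), pow_le_one₀ hq0.le hq1.le,
    pow_le_pow_of_le_one hq0.le hq1.le (by omega), pow_le_one₀ hq0.le hq1.le, ?_⟩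
  rcases Nat.eq_zero_or_pos a with h | h
  · left; rw [h]; simp
  · right
    calc q ^ d ≤ q ^ (d - a + 1) := pow_le_pow_of_le_one hq0.le hq1.le (by omega)
      _ = q * q ^ (d - a) := by rw [pow_succ]; ring

theorem pr_nn (F : ℝ → ℝ → ℝ → ℝ) (L : List (ℝ × ℝ × ℝ))
    (h : ∀ t ∈ L, 0 ≤ F t.1 t.2.1 t.2.2) : 0 ≤ pr F L := by
  unfold pr
  apply List.prod_nonneg
  intro a ha
  rw [List.mem_map] at ha
  obtain ⟨t, ht, rfl⟩ := ha
  exact h t ht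

theorem pr_pow_le (k : ℕ) (q : ℝ) (hq0 : 0 < q) (hq1 : q < 1) (L : List (ℕ × ℕ × ℕ))
    (hL : Legal L)
    (h : ∀ t ∈ L, F2 (blk q t).1 (blk q t).2.1 (blk q t).2.2 ^ k ≤
      q ^ t.1 * F1 (blk q t).1 (blk q t).2.1 (blk q t).2.2 ^ k) :
    pr F2 (L.map (blk q)) ^ k ≤
      q ^ (L.map fun t => t.1).sum * pr F1 (L.map (blk q)) ^ k := by
  induction L with
  | nil => simp [pr]
  | cons t L ih =>
    have ih' := ih (fun s hs => hL s (List.mem_cons_of_mem _ hs))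
      (fun s hs => h s (List.mem_cons_of_mem _ hs))
    have ht := h t List.mem_cons_self
    obtain ⟨h1, h2, h3, h4, h5, h6, h7⟩ := blk_facts q hq0 hq1 t (hL t List.mem_cons_self)
    have n1 := F1_nn h1.le h2.le (h1.le.trans h3) h4 (h1.le.trans h5) h6
    have n2 := F2_nn h1.le h2.le (h1.le.trans h3) h4 (h1.le.trans h5) h6
    have m2 : 0 ≤ pr F2 (L.map (blk q)) := by
      apply pr_nn
      intro s hs
      rw [List.mem_map] at hs
      obtain ⟨s, hs, rfl⟩ := hs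
      obtain ⟨h1, h2, h3, h4, h5, h6, h7⟩ := blk_facts q hq0 hq1 s
        (hL s (List.mem_cons_of_mem _ hs))
      exact F2_nn h1.le h2.le (h1.le.trans h3) h4 (h1.le.trans h5) h6
    simp only [List.map_cons, List.sum_cons, pr_cons, mul_pow, pow_add]
    calc _ ≤ (q ^ t.1 * F1 (blk q t).1 (blk q t).2.1 (blk q t).2.2 ^ k) *
          (q ^ (L.map fun t => t.1).sum * pr F1 (L.map (blk q)) ^ k) :=
          mul_le_mul ht ih' (pow_nonneg m2 _) (by positivity)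
      _ = _ := by ring

theorem pr_final (k : ℕ) (hk0 : k ≠ 0) (q : ℝ) (hq0 : 0 < q) (hq1 : q < 1) (L : List (ℕ × ℕ × ℕ))
    (hL : Legal L) (hk : k ≤ (L.map fun t => t.1).sum)
    (h : ∀ t ∈ L, F2 (blk q t).1 (blk q t).2.1 (blk q t).2.2 ^ k ≤
      q ^ t.1 * F1 (blk q t).1 (blk q t).2.1 (blk q t).2.2 ^ k) :
    pr F2 (L.map (blk q)) ≤ q * pr F1 (L.map (blk q)) := by
  have m1 : 0 ≤ pr F1 (L.map (blk q)) := by
    apply pr_nn
    intro s hs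
    rw [List.mem_map] at hs
    obtain ⟨s, hs, rfl⟩ := hs
    obtain ⟨h1, h2, h3, h4, h5, h6, h7⟩ := blk_facts q hq0 hq1 s (hL s hs)
    exact F1_nn h1.le h2.le (h1.le.trans h3) h4 (h1.le.trans h5) h6
  have h1 := pr_pow_le k q hq0 hq1 L hL h
  have h2 : pr F2 (L.map (blk q)) ^ k ≤ (q * pr F1 (L.map (blk q))) ^ k := by
    rw [mul_pow]
    exact h1.trans (mul_le_mul_of_nonneg_right (pow_le_pow_of_le_one hq0.le hq1.le hk)
      (pow_nonneg m1 _))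
  exact le_of_pow_le_pow_left₀ hk0 (by positivity) h2

/-- `k ≥ 2` and no block has `b > a > 0`. -/
theorem I_two (q : ℝ) (hq0 : 0 < q) (hq1 : q < 1) (L : List (ℕ × ℕ × ℕ)) (hL : Legal L)
    (hab : ∀ t ∈ L, t.1 = 0 ∨ t.2.1 ≤ t.1) (hk : 2 ≤ (L.map fun t => t.1).sum) :
    pr F2 (L.map (blk q)) ≤ q * pr F1 (L.map (blk q)) := by
  apply pr_final 2 two_ne_zero q hq0 hq1 L hL hk
  intro t ht
  obtain ⟨h1, h2, h3, h4, h5, h6, h7⟩ := blk_facts q hq0 hq1 t (hL t ht)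
  obtain ⟨l1, l2, l3⟩ := hL t ht
  rcases hab t ht with h | h
  · have e : (blk q t).1 = (blk q t).2.2 := by unfold blk; simp [h]
    rw [h, pow_zero, one_mul, e]
    apply le_of_eq
    unfold F1 F2; ring
  · have hXU : (blk q t).2.1 ≤ (blk q t).1 := by
      unfold blk; simp only
      exact pow_le_pow_of_le_one hq0.le hq1.le (by omega)
    have := F_sq h1 h5 hXU h4
    have e : (blk q t).2.2 = (blk q t).1 * q ^ t.1 := by
      unfold blk; simp only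
      rw [← pow_add]; congr 1; omega
    have hU0 : 0 < (blk q t).1 := lt_of_lt_of_le h1 h3
    have e2 : (blk q t).2.2 * F1 (blk q t).1 (blk q t).2.1 (blk q t).2.2 ^ 2 =
      (blk q t).1 * (q ^ t.1 * F1 (blk q t).1 (blk q t).2.1 (blk q t).2.2 ^ 2) := by
      rw [← mul_assoc, ← e]
    rw [e2] at this
    exact le_of_mul_le_mul_left this hU0

/-- `k ≥ 3`. -/
theorem I_three (q : ℝ) (hq0 : 0 < q) (hq1 : q < 1) (L : List (ℕ × ℕ × ℕ)) (hL : Legal L)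
    (hk : 3 ≤ (L.map fun t => t.1).sum) :
    pr F2 (L.map (blk q)) ≤ q * pr F1 (L.map (blk q)) := by
  apply pr_final 3 three_ne_zero q hq0 hq1 L hL hk
  intro t ht
  obtain ⟨h1, h2, h3, h4, h5, h6, h7⟩ := blk_facts q hq0 hq1 t (hL t ht)
  obtain ⟨l1, l2, l3⟩ := hL t ht
  have := F_cube h1 h3 h4 h5 h6
  have e : (blk q t).2.2 = (blk q t).1 * q ^ t.1 := by
    unfold blk; simp only
    rw [← pow_add]; congr 1; omega
  have hU0 : 0 < (blk q t).1 := lt_of_lt_of_le h1 h3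
  have e2 : (blk q t).2.2 * F1 (blk q t).1 (blk q t).2.1 (blk q t).2.2 ^ 3 =
    (blk q t).1 * (q ^ t.1 * F1 (blk q t).1 (blk q t).2.1 (blk q t).2.2 ^ 3) := by
    rw [← mul_assoc, ← e]
  rw [e2] at this
  exact le_of_mul_le_mul_left this hU0

theorem legal_map (q : ℝ) (hq0 : 0 < q) (hq1 : q < 1) (L : List (ℕ × ℕ × ℕ)) (hL : Legal L) :
    ∀ t ∈ L.map (blk q), 0 < t.2.2 ∧ t.2.2 < 1 ∧ t.2.2 ≤ t.1 ∧ t.1 ≤ 1 ∧ t.2.2 ≤ t.2.1 ∧
      t.2.1 ≤ 1 ∧ (t.1 = t.2.2 ∨ t.2.2 ≤ q * t.1) := by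
  intro t ht
  rw [List.mem_map] at ht
  obtain ⟨s, hs, rfl⟩ := ht
  exact blk_facts q hq0 hq1 s (hL s hs)

/-- the two one-sided consequences. -/
theorem DD_two (q : ℝ) (hq0 : 0 < q) (hq1 : q < 1) (e : ℝ) (he0 : 0 ≤ e) (he1 : e ≤ 1)
    (L : List (ℕ × ℕ × ℕ)) (hL : Legal L)
    (hab : ∀ t ∈ L, t.1 = 0 ∨ t.2.1 ≤ t.1) (hk : 2 ≤ (L.map fun t => t.1).sum) :
    0 ≤ DD q e (L.map (blk q)) :=
  DD_nonneg q hq0 hq1 e he0 he1 _ (legal_map q hq0 hq1 L hL) (I_two q hq0 hq1 L hL hab hk)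

theorem DD_three (q : ℝ) (hq0 : 0 < q) (hq1 : q < 1) (e : ℝ) (he0 : 0 ≤ e) (he1 : e ≤ 1)
    (L : List (ℕ × ℕ × ℕ)) (hL : Legal L) (hk : 3 ≤ (L.map fun t => t.1).sum) :
    0 ≤ DD q e (L.map (blk q)) :=
  DD_nonneg q hq0 hq1 e he0 he1 _ (legal_map q hq0 hq1 L hL) (I_three q hq0 hq1 L hL hk)

end Pool.Agent.H34R2.U
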