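import Pool.Agent.H34R2.U.SLDefs

/-! TASK SLA: the value recursion `slotK` implies `slotProp`. -/

set_option autoImplicit false

namespace Pool.Agent.H34R2.U

open Finset

/-! ### evaluation homomorphisms -/

lemma sla_evB_nil (x : ℕ) : evB x [] = 0 := rfl

lemma sla_evB_cons (x y : ℕ) (a : List ℕ) : evB x (y :: a) = y + x * evB x a := rfl

lemma sla_evB_addN (x : ℕ) : ∀ a b : List ℕ, evB x (addN a b) = evB x a + evB x b
  | [], b => by rw [addN, sla_evB_nil, zero_add]
  | y :: a, [] => by
    have h : addN (y :: a) [] = y :: a := rfl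
    rw [h, sla_evB_nil, add_zero]
  | y :: a, z :: b => by
    rw [addN, sla_evB_cons, sla_evB_cons, sla_evB_cons, sla_evB_addN x a b]
    ring

lemma sla_evB_scaleN (x c : ℕ) (a : List ℕ) : evB x (scaleN c a) = c * evB x a := by
  induction a with
  | nil => simp [scaleN, sla_evB_nil]
  | cons y a ih =>
    rw [scaleN, sla_evB_cons, sla_evB_cons, ih]
    ring

lemma sla_evB_mulP (x : ℕ) (a b : List ℕ) : evB x (mulP' a b) = evB x a * evB x b := by
  induction a with
  | nil => simp [mulP', sla_evB_nil]
  | cons y a ih =>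
    rw [mulP', sla_evB_addN, sla_evB_scaleN, sla_evB_cons, sla_evB_cons, ih]
    ring

lemma sla_evB_stepN (x : ℕ) (b : List ℕ) : ∀ y : ℕ,
    evB x (stepN y b) = y + (1 + x) * evB x b := by
  induction b with
  | nil => intro y; simp [stepN, sla_evB_nil, sla_evB_cons]
  | cons z t ih =>
    intro y
    rw [stepN, sla_evB_cons, sla_evB_cons, ih z]
    ring

lemma sla_evB_powT (x e : ℕ) : evB x (powT e) = (x + 1) ^ e := by
  induction e with
  | zero => simp [powT, sla_evB_nil, sla_evB_cons]
  | succ e ih =>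
    rw [powT, sla_evB_stepN, ih]
    ring

lemma sla_powT_cons (e : ℕ) : ∃ t : List ℕ, powT e = 1 :: t := by
  induction e with
  | zero => exact ⟨[], rfl⟩
  | succ e ih =>
    obtain ⟨t, ht⟩ := ih
    refine ⟨stepN 1 t, ?_⟩
    rw [powT, ht, stepN]

lemma sla_gTerm (x j k e : ℕ) : evB x (gTerm j k e) = gTermV x j k e := by
  cases j with
  | zero =>
    obtain ⟨t, ht⟩ := sla_powT_cons e
    have h := sla_evB_powT x e
    rw [ht, sla_evB_cons] at h
    have h2 : gTermV x 0 k e = (x + 1) ^ e - 1 := rfl
    rw [h2, ← h]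
    show evB x (0 :: (powT e).tail) = _
    rw [ht, List.tail_cons, sla_evB_cons]
    omega
  | succ j =>
    have h2 : gTermV x (j + 1) k e = (k.choose (j + 1)) * (x + 1) ^ e := rfl
    rw [h2]
    show evB x (scaleN (k.choose (j + 1)) (powT e)) = _
    rw [sla_evB_scaleN, sla_evB_powT]

lemma sla_gPoly (x r : ℕ) (a : List ℕ) (j : ℕ) (τ : Ty) :
    evB x (gPoly r a j τ) = gVal x r a j τ := by
  unfold gPoly gVal
  induction τ with
  | nil => rfl
  | cons b τ ih =>
    rw [List.foldr_cons, List.foldr_cons, sla_evB_addN, sla_gTerm, ih]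
    rfl

/-! ### states -/

lemma sla_step (x : ℕ) : ∀ (gs : List (List ℕ)) (V : List (List ℕ × List ℕ)),
    stepK (gs.map (evB x)) (V.map fun e => (evB x e.1, evB x e.2)) =
      (sl_step gs V).map fun e => (evB x e.1, evB x e.2)
  | [], V => by simp [stepK, sl_step]
  | g :: gs, [] => by simp [stepK, sl_step]
  | g :: gs, e :: V => by
    rw [List.map_cons, List.map_cons, stepK, sl_step, List.map_cons, sla_step x gs V,
      sla_evB_mulP, sla_evB_mulP]
    rfl

lemma sla_step' (x r : ℕ) (a : List ℕ) (j : ℕ) (types : List Ty) (V : List (List ℕ × List ℕ)) :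
    stepK (types.map (gVal x r a j)) (V.map fun e => (evB x e.1, evB x e.2)) =
      (sl_step (types.map (gPoly r a j)) V).map fun e => (evB x e.1, evB x e.2) := by
  rw [← sla_step, List.map_map]
  congr 2
  funext τ
  exact (sla_gPoly x r a j τ).symm

/-! ### combinations -/

/-- the combination of the positive parts -/
def sla_comb : List ℕ → List (List ℕ) → List ℕ
  | x :: xs, e :: es => addN (scaleN x e) (sla_comb xs es)
  | _, _ => []

lemma sla_dotP (x : ℕ) : ∀ (vals : List ℕ) (V : List (List ℕ × List ℕ)),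
    dotP vals (V.map fun e => (evB x e.1, evB x e.2)) = evB x (sla_comb vals (V.map Prod.fst))
  | [], V => by simp [dotP, sla_comb, sla_evB_nil]
  | v :: vals, [] => by simp [dotP, sla_comb, sla_evB_nil]
  | v :: vals, e :: V => by
    rw [List.map_cons, List.map_cons, dotP, sla_comb, sla_dotP x vals V, sla_evB_addN,
      sla_evB_scaleN]
    rfl

lemma sla_dotM (x : ℕ) : ∀ (vals : List ℕ) (V : List (List ℕ × List ℕ)),
    dotM vals (V.map fun e => (evB x e.1, evB x e.2)) = evB x (sla_comb vals (V.map Prod.snd))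
  | [], V => by simp [dotM, sla_comb, sla_evB_nil]
  | v :: vals, [] => by simp [dotM, sla_comb, sla_evB_nil]
  | v :: vals, e :: V => by
    rw [List.map_cons, List.map_cons, dotM, sla_comb, sla_dotM x vals V, sla_evB_addN,
      sla_evB_scaleN]
    rfl

lemma sla_zip (t : ℝ) : ∀ (vals : List ℕ) (V : List (List ℕ × List ℕ)),
    (List.zipWith (fun (x : ℕ) (e : List ℕ × List ℕ) =>
          (x : ℝ) * (evalN e.1 t - evalN e.2 t)) vals V).sum =
      evalN (sla_comb vals (V.map Prod.fst)) t - evalN (sla_comb vals (V.map Prod.snd)) t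
  | [], V => by simp [sla_comb, m10_evalN_nil]
  | v :: vals, [] => by simp [sla_comb, m10_evalN_nil]
  | v :: vals, e :: V => by
    rw [List.map_cons, List.map_cons, sla_comb, sla_comb, List.zipWith_cons_cons, List.sum_cons,
      sla_zip t vals V, m10_addN, m10_addN, m10_scaleN, m10_scaleN]
    ring

/-! ### digits -/

lemma sla_evalN_nonneg (t : ℝ) (ht : 0 ≤ t) (c : List ℕ) : 0 ≤ evalN c t := by
  induction c with
  | nil => rw [m10_evalN_nil]
  | cons a c ih =>
    rw [m10_evalN_cons]
    positivity

lemma sla_coef_le (P : List ℕ) : ∀ x ∈ P, x ≤ evB 1 P := by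
  induction P with
  | nil => intro x hx; simp at hx
  | cons a P ih =>
    intro x hx
    rw [sla_evB_cons]
    rcases List.mem_cons.1 hx with h | h
    · omega
    · have := ih x h
      omega

lemma sla_zero (B : ℕ) (hB : 0 < B) (t : ℝ) (M : List ℕ) (h : evB B M = 0) : evalN M t = 0 := by
  induction M with
  | nil => rfl
  | cons a M ih =>
    rw [sla_evB_cons] at h
    have h1 : a = 0 := by omega
    have h2 : B * evB B M = 0 := by omega
    have h3 : evB B M = 0 := by
      rcases Nat.mul_eq_zero.1 h2 with h | h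
      · omega
      · exact h
    rw [m10_evalN_cons, h1, ih h3]
    simp

lemma sla_mod (B : ℕ) (P : List ℕ) (hP : ∀ x ∈ P, x < B) : evB B P % B = P.headD 0 := by
  cases P with
  | nil => simp [sla_evB_nil]
  | cons a P =>
    rw [sla_evB_cons, Nat.add_mul_mod_self_left]
    exact Nat.mod_eq_of_lt (hP a (by simp))

lemma sla_div (B : ℕ) (hB : 0 < B) (P : List ℕ) (hP : ∀ x ∈ P, x < B) :
    evB B P / B = evB B P.tail := by
  cases P with
  | nil => simp [sla_evB_nil]
  | cons a P =>
    rw [sla_evB_cons, Nat.add_mul_div_left _ _ hB, Nat.div_eq_of_lt (hP a (by simp)), zero_add,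
      List.tail_cons]

lemma sla_eval_ht (t : ℝ) (P : List ℕ) :
    evalN P t = ((P.headD 0 : ℕ) : ℝ) + t * evalN P.tail t := by
  cases P with
  | nil =>
    rw [List.tail_nil, m10_evalN_nil]
    simp
  | cons a P => rfl

lemma sla_dig (B : ℕ) (hB : 0 < B) (t : ℝ) (ht : 0 ≤ t) (f : ℕ) : ∀ P M : List ℕ,
    (∀ x ∈ P, x < B) → (∀ x ∈ M, x < B) → digLe B f (evB B P) (evB B M) = true →
    evalN M t ≤ evalN P t := by
  induction f with
  | zero =>
    intro P M hP hM h
    have h1 : evB B M = 0 := Nat.eq_of_beq_eq_true h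
    rw [sla_zero B hB t M h1]
    exact sla_evalN_nonneg t ht P
  | succ f ih =>
    intro P M hP hM h
    unfold digLe at h
    rw [Bool.and_eq_true, Bool.or_eq_true] at h
    obtain ⟨h1, h2⟩ := h
    rcases h2 with h2 | h2
    · have h3 : evB B M = 0 := Nat.eq_of_beq_eq_true h2
      rw [sla_zero B hB t M h3]
      exact sla_evalN_nonneg t ht P
    · have h1' : evB B M % B ≤ evB B P % B := Nat.le_of_ble_eq_true h1
      rw [sla_mod B M hM, sla_mod B P hP] at h1'
      have h2' : digLe B f (evB B P / B) (evB B M / B) = true := h2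
      rw [sla_div B hB P hP, sla_div B hB M hM] at h2'
      have h3 := ih P.tail M.tail (fun x hx => hP x (List.mem_of_mem_tail hx))
        (fun x hx => hM x (List.mem_of_mem_tail hx)) h2'
      rw [sla_eval_ht t P, sla_eval_ht t M]
      have h4 : ((M.headD 0 : ℕ) : ℝ) ≤ ((P.headD 0 : ℕ) : ℝ) := by exact_mod_cast h1'
      have h5 := mul_le_mul_of_nonneg_left h3 ht
      linarith

/-! ### the leaf -/

lemma sla_leaf (B : ℕ) (R : List (List ℕ)) (V : List (List ℕ × List ℕ))
    (h : leafK B R (V.map fun e => (evB B e.1, evB B e.2))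
      (V.map fun e => (evB 1 e.1, evB 1 e.2)) = true) :
    ∀ vals ∈ R, ∀ t : ℝ, 0 ≤ t →
        0 ≤ (List.zipWith (fun (x : ℕ) (e : List ℕ × List ℕ) =>
          (x : ℝ) * (evalN e.1 t - evalN e.2 t)) vals V).sum := by
  intro vals hv t ht
  unfold leafK at h
  rw [List.all_eq_true] at h
  have h1 := h vals hv
  rw [Bool.and_eq_true, Bool.and_eq_true] at h1
  obtain ⟨h2, h3, h4⟩ := h1
  rw [sla_dotP] at h2 h4
  rw [sla_dotM] at h3 h4
  have h2' : evB 1 (sla_comb vals (V.map Prod.fst)) < B := Nat.le_of_ble_eq_true h2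
  have h3' : evB 1 (sla_comb vals (V.map Prod.snd)) < B := Nat.le_of_ble_eq_true h3
  have hB : 0 < B := by omega
  have h5 := sla_dig B hB t ht 64 _ _
    (fun x hx => lt_of_le_of_lt (sla_coef_le _ x hx) h2')
    (fun x hx => lt_of_le_of_lt (sla_coef_le _ x hx) h3') h4
  rw [sla_zip]
  linarith

theorem slotK_sound (B w r : ℕ) (types : List Ty) (R : List (List ℕ)) (f last : ℕ)
    (rem : List ℕ) (V : List (List ℕ × List ℕ))
    (h : slotK B w r types R f last rem (V.map fun e => (evB B e.1, evB B e.2))
      (V.map fun e => (evB 1 e.1, evB 1 e.2)) = true) :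
    slotProp w r types R f last rem V := by
  induction f generalizing last rem V with
  | zero => simp [slotK] at h
  | succ f ih =>
    unfold slotK at h
    unfold slotProp
    split_ifs at h ⊢ with hc
    · exact sla_leaf B R V h
    · intro a ha hkey j hj
      rw [List.all_eq_true] at h
      have h1 := h a ha
      rw [Bool.or_eq_true] at h1
      rcases h1 with h1 | h1
      · exfalso
        have h2 : keyL a < Nat.max 1 last := Nat.le_of_ble_eq_true h1
        have h3 : Nat.max 1 last = max 1 last := rfl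
        omega
      · rw [List.all_eq_true] at h1
        have h2 := h1 j (List.mem_range.2 (by omega))
        rw [sla_step', sla_step'] at h2
        exact ih _ _ _ h2

end Pool.Agent.H34R2.U
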