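import Pool.Agent.H34R2.U.SLDefs

/-! TASK SLB: expansion of the weight of a marked outer block. -/

set_option autoImplicit false

namespace Pool.Agent.H34R2.U

open Finset

/-- the exponent that is split off -/
def exAll (w r : ℕ) (a : List ℕ) : ℕ :=
  maxL a * (w - r) + ((List.range r).map fun i => maxL a - a.getD i 0).sum

theorem slb_getD_le (a : List ℕ) (i : ℕ) : a.getD i 0 ≤ maxL a := by
  induction a generalizing i with
  | nil => simp
  | cons x a ih =>
    cases i with
    | zero => simp [maxL]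
    | succ i =>
      have := ih i
      simp only [List.getD_cons_succ, maxL]
      exact this.trans (le_max_right _ _)

theorem slb_sum_filter (p : ℕ → Bool) (f : ℕ → ℕ) (r : ℕ) :
    (((List.range r).filter p).map f).sum = ∑ i ∈ range r, if p i = true then f i else 0 := by
  induction r with
  | zero => simp
  | succ r ih =>
    rw [List.range_succ, List.filter_append, List.map_append, List.sum_append, ih,
      Finset.sum_range_succ]
    congr 1
    by_cases h : p r = true
    · simp [h]
    · simp [h]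

theorem slb_len_filter (p : ℕ → Bool) (r : ℕ) :
    ((List.range r).filter p).length = ∑ i ∈ range r, if p i = true then 1 else 0 := by
  have := slb_sum_filter p (fun _ => 1) r
  rw [← this]
  simp

theorem slb_sum_all (f : ℕ → ℕ) (r : ℕ) :
    ((List.range r).map f).sum = ∑ i ∈ range r, f i := by
  induction r with
  | zero => simp
  | succ r ih =>
    rw [List.range_succ, List.map_append, List.sum_append, ih, Finset.sum_range_succ]
    simp

/-- the exponents -/
theorem slb_exp (w r : ℕ) (hr : r ≤ w) (a : List ℕ) (d : ℕ) (had : maxL a ≤ d) (b : ℕ × ℕ)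
    (hb : b.2 ≤ w - r) :
    d * (w - r - b.2) + (∑ i ∈ range r, if b.1.testBit i = false then d - a.getD i 0 else 0) +
      exB r a b = (d - maxL a) * (w - bsz r b) + exAll w r a := by
  unfold exB exAll bsz
  rw [slb_sum_filter, slb_len_filter, slb_sum_all]
  have h1 : ∑ i ∈ range r, (maxL a - a.getD i 0) =
      (∑ i ∈ range r, if b.1.testBit i = true then maxL a - a.getD i 0 else 0) +
      ∑ i ∈ range r, if b.1.testBit i = false then maxL a - a.getD i 0 else 0 := by
    rw [← Finset.sum_add_distrib]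
    refine Finset.sum_congr rfl fun i _ => ?_
    cases b.1.testBit i <;> simp
  have h2 : r = (∑ i ∈ range r, if b.1.testBit i = true then 1 else 0) +
      ∑ i ∈ range r, if b.1.testBit i = false then 1 else 0 := by
    rw [← Finset.sum_add_distrib]
    conv_lhs => rw [← Finset.card_range r, Finset.card_eq_sum_ones]
    refine Finset.sum_congr rfl fun i _ => ?_
    cases b.1.testBit i <;> simp
  have h3 : (∑ i ∈ range r, if b.1.testBit i = false then d - a.getD i 0 else 0) =
      (d - maxL a) * (∑ i ∈ range r, if b.1.testBit i = false then 1 else 0) +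
      ∑ i ∈ range r, if b.1.testBit i = false then maxL a - a.getD i 0 else 0 := by
    rw [Finset.mul_sum, ← Finset.sum_add_distrib]
    refine Finset.sum_congr rfl fun i _ => ?_
    have := slb_getD_le a i
    cases b.1.testBit i
    · simp only [if_true, mul_one]
      omega
    · simp
  rw [h3, h1]
  generalize (∑ i ∈ range r, if b.1.testBit i = true then 1 else 0) = Bt at *
  generalize (∑ i ∈ range r, if b.1.testBit i = false then 1 else 0) = A at *
  generalize (∑ i ∈ range r, if b.1.testBit i = true then maxL a - a.getD i 0 else 0) = S1 at *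
  generalize (∑ i ∈ range r, if b.1.testBit i = false then maxL a - a.getD i 0 else 0) = S0 at *
  have h4 : w - (b.2 + Bt) = (w - r - b.2) + A := by omega
  rw [h4]
  obtain ⟨e, rfl⟩ : ∃ e, d = e + maxL a := ⟨d - maxL a, by omega⟩
  obtain ⟨k, hk⟩ : ∃ k, w - r = b.2 + k := ⟨w - r - b.2, by omega⟩
  rw [hk]
  have h5 : b.2 + k - b.2 = k := by omega
  have h6 : e + maxL a - maxL a = e := by omega
  rw [h5, h6]
  ring

/-- the weight of one block -/
theorem slb_blk (w r : ℕ) (hr : r ≤ w) (a : List ℕ) (d : ℕ) (had : maxL a ≤ d) (b : ℕ × ℕ)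
    (hb : b.2 ≤ w - r) (q : ℝ) (hq0 : 0 < q) :
    (q ^ d) ^ (w - r - b.2) *
      ∏ i ∈ (range r).filter (fun i => b.1.testBit i = false), q ^ (d - a.getD i 0) =
    q ^ exAll w r a * ((q ^ (d - maxL a)) ^ (w - bsz r b) * q⁻¹ ^ exB r a b) := by
  have h1 := slb_exp w r hr a d had b hb
  rw [Finset.prod_pow_eq_pow_sum, Finset.sum_filter, ← pow_mul, ← pow_add, ← pow_mul]
  have h2 : q ^ (d * (w - r - b.2) +
      (∑ i ∈ range r, if b.1.testBit i = false then d - a.getD i 0 else 0)) * q ^ exB r a b =
      q ^ ((d - maxL a) * (w - bsz r b)) * q ^ exAll w r a := by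
    rw [← pow_add, ← pow_add, h1]
  have h3 : q ^ exB r a b * q⁻¹ ^ exB r a b = 1 := by
    rw [← mul_pow, mul_inv_cancel₀ hq0.ne', one_pow]
  calc q ^ (d * (w - r - b.2) +
      (∑ i ∈ range r, if b.1.testBit i = false then d - a.getD i 0 else 0))
      = q ^ (d * (w - r - b.2) +
      (∑ i ∈ range r, if b.1.testBit i = false then d - a.getD i 0 else 0)) *
        (q ^ exB r a b * q⁻¹ ^ exB r a b) := by rw [h3, mul_one]
    _ = (q ^ (d * (w - r - b.2) +
      (∑ i ∈ range r, if b.1.testBit i = false then d - a.getD i 0 else 0)) * q ^ exB r a b) *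
        q⁻¹ ^ exB r a b := by ring
    _ = _ := by rw [h2]; ring

theorem slb_binom (w k : ℕ) (hk : k ≤ w) (s : ℝ) :
    ∑ j ∈ range (w + 1), (1 - s) ^ j * s ^ (w - j) * (k.choose j : ℝ) = s ^ (w - k) := by
  have h1 : ∑ j ∈ range (w + 1), (1 - s) ^ j * s ^ (w - j) * (k.choose j : ℝ) =
      ∑ j ∈ range (k + 1), (1 - s) ^ j * s ^ (w - j) * (k.choose j : ℝ) := by
    symm
    refine Finset.sum_subset (Finset.range_subset_range.2 (by omega)) fun j _ hj => ?_
    rw [Finset.mem_range, not_lt] at hj
    rw [Nat.choose_eq_zero_of_lt (by omega), Nat.cast_zero, mul_zero]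
  rw [h1]
  have h2 := add_pow (1 - s) s k
  rw [sub_add_cancel, one_pow] at h2
  calc ∑ j ∈ range (k + 1), (1 - s) ^ j * s ^ (w - j) * (k.choose j : ℝ)
      = s ^ (w - k) * ∑ j ∈ range (k + 1), (1 - s) ^ j * s ^ (k - j) * (k.choose j : ℝ) := by
        rw [Finset.mul_sum]
        refine Finset.sum_congr rfl fun j hj => ?_
        have hj' := Finset.mem_range.1 hj
        have : w - j = (w - k) + (k - j) := by omega
        rw [this, pow_add]
        ring
    _ = s ^ (w - k) := by rw [← h2, mul_one]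

theorem slb_powT (t : ℝ) (e : ℕ) : evalN (powT e) t = (1 + t) ^ e := by
  induction e with
  | zero => simp [powT, m10_evalN_cons, m10_evalN_nil]
  | succ e ih =>
    rw [powT, m10_stepN, ih, pow_succ]
    push_cast
    ring

theorem slb_powT_head (e : ℕ) : ∃ l, powT e = 1 :: l := by
  induction e with
  | zero => exact ⟨[], rfl⟩
  | succ e ih =>
    obtain ⟨l, hl⟩ := ih
    refine ⟨stepN 1 l, ?_⟩
    rw [powT, hl, stepN]

theorem slb_gTerm (t : ℝ) (j k e : ℕ) :
    evalN (gTerm j k e) t = (k.choose j : ℝ) * (1 + t) ^ e - if j = 0 then 1 else 0 := by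
  cases j with
  | zero =>
    obtain ⟨l, hl⟩ := slb_powT_head e
    have h1 := slb_powT t e
    rw [hl, m10_evalN_cons] at h1
    simp only [gTerm, hl, List.tail_cons, m10_evalN_cons, Nat.choose_zero_right, if_true]
    rw [← h1]
    push_cast
    ring
  | succ j =>
    simp only [gTerm, m10_scaleN, slb_powT]
    rw [if_neg (by omega)]
    ring

theorem slb_one (w r : ℕ) (hr : r ≤ w) (a : List ℕ) (d : ℕ) (had : maxL a ≤ d) (b : ℕ × ℕ)
    (hb : b.2 ≤ w - r) (q : ℝ) (hq0 : 0 < q) :
    (q ^ d) ^ (w - r - b.2) *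
      ∏ i ∈ (range r).filter (fun i => b.1.testBit i = false), q ^ (d - a.getD i 0) -
      (q ^ d) ^ (w - r) * ∏ i ∈ range r, q ^ (d - a.getD i 0) =
    q ^ exAll w r a * ∑ j ∈ range (w + 1),
        (1 - q ^ (d - maxL a)) ^ j * (q ^ (d - maxL a)) ^ (w - j) *
          evalN (gTerm j (bsz r b) (exB r a b)) (q⁻¹ - 1) := by
  have h1 := slb_blk w r hr a d had b hb q hq0
  have h2 := slb_blk w r hr a d had (0, 0) (Nat.zero_le _) q hq0
  have e1 : (range r).filter (fun i => (0 : ℕ).testBit i = false) = range r := by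
    apply Finset.filter_true_of_mem
    intro i _
    exact Nat.zero_testBit i
  have e2 : bsz r (0, 0) = 0 := by
    unfold bsz
    simp
  have e3 : exB r a (0, 0) = 0 := by
    unfold exB
    simp
  simp only [e1, e2, e3, Nat.sub_zero, pow_zero, mul_one] at h2
  rw [h1, h2, ← mul_sub]
  congr 1
  have hk : bsz r b ≤ w := by
    unfold bsz
    have := List.length_filter_le (fun i => b.1.testBit i) (List.range r)
    rw [List.length_range] at this
    omega
  have h3 : ∀ j, (1 - q ^ (d - maxL a)) ^ j * (q ^ (d - maxL a)) ^ (w - j) *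
      evalN (gTerm j (bsz r b) (exB r a b)) (q⁻¹ - 1) =
      q⁻¹ ^ exB r a b * ((1 - q ^ (d - maxL a)) ^ j * (q ^ (d - maxL a)) ^ (w - j) *
        ((bsz r b).choose j : ℝ)) -
      if j = 0 then (q ^ (d - maxL a)) ^ w else 0 := by
    intro j
    rw [slb_gTerm]
    have : 1 + (q⁻¹ - 1) = q⁻¹ := by ring
    rw [this]
    by_cases hj : j = 0
    · subst hj
      simp only [if_true, pow_zero, Nat.sub_zero]
      ring
    · simp only [if_neg hj]
      ring
  rw [Finset.sum_congr rfl fun j _ => h3 j, Finset.sum_sub_distrib, ← Finset.mul_sum,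
    slb_binom w _ hk, Finset.sum_ite_eq' (range (w + 1)) 0]
  rw [if_pos (Finset.mem_range.2 (by omega))]
  ring

theorem slb_gPoly_cons (r : ℕ) (a : List ℕ) (j : ℕ) (b : ℕ × ℕ) (τ : Ty) (t : ℝ) :
    evalN (gPoly r a j (b :: τ)) t =
      evalN (gTerm j (bsz r b) (exB r a b)) t + evalN (gPoly r a j τ) t := by
  have : gPoly r a j (b :: τ) = addN (gTerm j (bsz r b) (exB r a b)) (gPoly r a j τ) := rfl
  rw [this, m10_addN]

theorem block_expand (w r : ℕ) (τ : Ty) (hτ : tyOK w r τ = true) (a : List ℕ) (d : ℕ)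
    (had : maxL a ≤ d) (q : ℝ) (hq0 : 0 < q) (hq1 : q < 1) :
    Fty (w - r) r (q ^ d) (fun i => q ^ (d - a.getD i 0)) τ =
      q ^ exAll w r a * ∑ j ∈ range (w + 1),
        (1 - q ^ (d - maxL a)) ^ j * (q ^ (d - maxL a)) ^ (w - j) *
          evalN (gPoly r a j τ) (q⁻¹ - 1) := by
  unfold tyOK at hτ
  simp only [Bool.and_eq_true] at hτ
  obtain ⟨⟨⟨hr, -⟩, hs⟩, -⟩ := hτ
  have hr' : r ≤ w := Nat.le_of_ble_eq_true hr
  have hs' : (τ.map Prod.snd).sum = w - r := Nat.eq_of_beq_eq_true hs
  have hb : ∀ b ∈ τ, b.2 ≤ w - r := by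
    intro b hb
    rw [← hs']
    exact List.le_sum_of_mem (List.mem_map.2 ⟨b, hb, rfl⟩)
  clear hs hs' hr
  induction τ with
  | nil =>
    have : ∀ j, evalN (gPoly r a j []) (q⁻¹ - 1) = 0 := fun j => rfl
    simp only [this, mul_zero, Finset.sum_const_zero]
    unfold Fty
    simp
  | cons b τ ih =>
    have h1 := ih fun c hc => hb c (List.mem_cons_of_mem _ hc)
    have h2 := slb_one w r hr' a d had b (hb b List.mem_cons_self) q hq0
    simp only [slb_gPoly_cons, mul_add, Finset.sum_add_distrib]
    rw [← h2, ← h1]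
    unfold Fty
    rw [List.map_cons, List.sum_cons, List.length_cons]
    push_cast
    ring

end Pool.Agent.H34R2.U
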