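import Pool.Agent.H34R2.U.SLDefs
import Pool.Agent.H34R2.U.M9

/-! TASK SLC: outer blocks without marks, by the certificate without marks. -/

set_option autoImplicit false

namespace Pool.Agent.H34R2.U

open Finset

namespace SLC

theorem insN_perm (x : ℕ) (l : List ℕ) : (insN x l).Perm (x :: l) := by
  induction l with
  | nil => exact List.Perm.refl _
  | cons y t ih =>
    unfold insN
    split_ifs
    · exact List.Perm.refl _
    · exact (List.Perm.cons y ih).trans (List.Perm.swap x y t)

theorem sortN_perm (l : List ℕ) : (sortN l).Perm l := by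
  induction l with
  | nil => exact List.Perm.refl _
  | cons x t ih =>
    unfold sortN
    exact (insN_perm x _).trans (List.Perm.cons x ih)

theorem sum_ite_notMem {S : List Ty} {a : Ty} (ha : a ∉ S) (y : ℝ) (G : Ty → ℝ) :
    (S.map fun σ => (if a = σ then y else 0) * G σ).sum = 0 := by
  induction S with
  | nil => simp
  | cons σ S ih =>
    rw [List.mem_cons, not_or] at ha
    rw [List.map_cons, List.sum_cons, if_neg ha.1, zero_mul, zero_add]
    exact ih ha.2

theorem sum_ite_mem {S : List Ty} (hS : S.Nodup) {a : Ty} (ha : a ∈ S) (y : ℝ) (G : Ty → ℝ) :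
    (S.map fun σ => (if a = σ then y else 0) * G σ).sum = y * G a := by
  induction S with
  | nil => exact absurd ha (List.not_mem_nil)
  | cons σ S ih =>
    rw [List.nodup_cons] at hS
    rw [List.map_cons, List.sum_cons]
    by_cases h : a = σ
    · subst h
      rw [if_pos rfl, sum_ite_notMem hS.1, add_zero]
    · rw [if_neg h, zero_mul, zero_add]
      exact ih hS.2 ((List.mem_cons.1 ha).resolve_left h)

theorem regroup (P : Ty → Ty) {S : List Ty} (hS : S.Nodup) (G : Ty → ℝ) :
    ∀ (types : List Ty) (c : List ℝ), (∀ τ ∈ types, P τ ∈ S) →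
    (S.map fun σ => (List.zipWith (fun τ y => if P τ = σ then y else 0) types c).sum * G σ).sum =
      (List.zipWith (fun τ y => y * G (P τ)) types c).sum
  | [], c, _ => by simp
  | t :: ts, [], _ => by simp
  | t :: ts, y :: ys, h => by
    have ih := regroup P hS G ts ys (fun τ hτ => h τ (List.mem_cons_of_mem _ hτ))
    simp only [List.zipWith_cons_cons, List.sum_cons]
    rw [← ih, ← sum_ite_mem hS (h t (List.mem_cons_self ..)) y G, ← List.sum_map_add]
    congr 1
    apply List.map_congr_left
    intro σ _
    ring

theorem valAt_sum (coef : Ty → ℝ) : ∀ (S : List Ty) (row : List ℕ), S.Nodup →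
    (List.zipWith (fun σ (x : ℕ) => coef σ * (x : ℝ)) S row).sum =
      (S.map fun σ => coef σ * (valAt σ S row : ℝ)).sum
  | [], row, _ => by simp
  | σ :: S, [], _ => by
    have h : ∀ τ, valAt τ (σ :: S) [] = 0 := fun τ => rfl
    simp [h]
  | σ :: S, x :: xs, hS => by
    rw [List.nodup_cons] at hS
    have ih := valAt_sum coef S xs hS.2
    have h0 : valAt σ (σ :: S) (x :: xs) = x := by
      change (if eqTy σ σ then x else valAt σ S xs) = x
      rw [if_pos ((m10_eqTy σ σ).2 rfl)]
    have h1 : ∀ τ ∈ S, valAt τ (σ :: S) (x :: xs) = valAt τ S xs := by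
      intro τ hτ
      change (if eqTy τ σ then x else valAt τ S xs) = _
      rw [if_neg]
      intro h
      rw [m10_eqTy] at h
      subst h
      exact hS.1 hτ
    simp only [List.zipWith_cons_cons, List.sum_cons, List.map_cons]
    rw [ih, h0]
    congr 2
    apply List.map_congr_left
    intro τ hτ
    rw [h1 τ hτ]

theorem zipWith_congr' {g h : Ty → ℝ} : ∀ (types : List Ty) (c : List ℝ),
    (∀ τ ∈ types, g τ = h τ) →
    List.zipWith (fun τ (y : ℝ) => y * g τ) types c = List.zipWith (fun τ (y : ℝ) => y * h τ) types c
  | [], c, _ => by simp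
  | t :: ts, [], _ => by simp
  | t :: ts, y :: ys, H => by
    simp only [List.zipWith_cons_cons]
    rw [H t (List.mem_cons_self ..),
      zipWith_congr' ts ys (fun τ hτ => H τ (List.mem_cons_of_mem _ hτ))]

end SLC

open SLC

/-- an outer block without marks only sees the sizes of the blocks of the type. -/
theorem Fty_proj (w r : ℕ) (τ : Ty) (hτ : tyOK w r τ = true) (z : ℝ) :
    Fty (w - r) r z (fun _ => z) τ = Fty w 0 z (fun _ => z) (projTy r τ) := by
  unfold tyOK at hτ
  simp only [Bool.and_eq_true] at hτ
  obtain ⟨⟨⟨hr, -⟩, hsum⟩, -⟩ := hτ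
  have hr' : r ≤ w := Nat.le_of_ble_eq_true hr
  have hsum' : (τ.map Prod.snd).sum = w - r := Nat.eq_of_beq_eq_true hsum
  have hb : ∀ b ∈ τ, b.2 ≤ w - r := by
    intro b hb
    rw [← hsum']
    exact List.single_le_sum (by intro x _; exact Nat.zero_le x) _ (List.mem_map_of_mem hb)
  have hP : (projTy r τ).Perm ((τ.map (bsz r)).map fun k => (0, k)) := by
    unfold projTy
    exact (sortN_perm _).map _
  have hlen : (projTy r τ).length = τ.length := by
    rw [hP.length_eq]
    simp
  unfold Fty
  rw [hlen]
  have h1 : ((projTy r τ).map fun b => z ^ (w - b.2) *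
      ∏ i ∈ (range 0).filter (fun i => b.1.testBit i = false), (fun _ => z) i).sum =
      (τ.map fun b => z ^ (w - r - b.2) *
      ∏ i ∈ (range r).filter (fun i => b.1.testBit i = false), (fun _ => z) i).sum := by
    rw [(hP.map _).sum_eq, List.map_map, List.map_map]
    congr 1
    apply List.map_congr_left
    intro b hbm
    simp only [Function.comp, Finset.range_zero, Finset.filter_empty, Finset.prod_const,
      Finset.card_empty, pow_zero, mul_one]
    rw [← pow_add]
    congr 1
    have h2 : ((List.range r).filter fun i => b.1.testBit i).length =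
        ((range r).filter (fun i => b.1.testBit i = true)).card := by
      rw [← List.toFinset_card_of_nodup ((List.nodup_range).filter _)]
      congr 1
      ext i
      simp
    have h3 : ((range r).filter (fun i => b.1.testBit i = true)).card +
        ((range r).filter (fun i => b.1.testBit i = false)).card = r := by
      have h4 := Finset.card_filter_add_card_filter_not (s := range r) (fun i => b.1.testBit i = true)
      rw [Finset.card_range] at h4
      simpa using h4
    have h5 := hb b hbm
    unfold bsz
    rw [h2]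
    omega
  rw [h1]
  simp only [Finset.prod_const, Finset.card_range, pow_zero, mul_one]
  rw [← pow_add, Nat.sub_add_cancel hr']

theorem sl_leaf_sound (w r : ℕ) (types : List Ty) (C : Cert) (hC : certOK w 0 C = true)
    (hnd : C.types.Nodup) (hty : ∀ τ ∈ types, tyOK w r τ = true)
    (hmem : ∀ τ ∈ types, projTy r τ ∈ C.types) (c : List ℝ)
    (hpos : ∀ vals ∈ slRows r types C, 0 ≤ (List.zipWith (fun (x : ℕ) (y : ℝ) => (x : ℝ) * y)
      vals c).sum)
    (L : List ℝ) (hL : ∀ z ∈ L, 0 ≤ z ∧ z ≤ 1) :
    0 ≤ (List.zipWith (fun τ (y : ℝ) =>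
      y * (L.map fun z => Fty (w - r) r z (fun _ => z) τ).prod) types c).sum := by
  classical
  have h1 := cert_sound w 0 C hC
    (fun σ => (List.zipWith (fun τ y => if projTy r τ = σ then y else 0) types c).sum) (by
      intro row hrow
      have h2 := hpos (types.map fun τ => valAt (projTy r τ) C.types row) (by
        unfold slRows
        exact List.mem_map.2 ⟨row, hrow, rfl⟩)
      rw [valAt_sum _ _ _ hnd, regroup (projTy r) hnd (fun σ => (valAt σ C.types row : ℝ)) types c
        hmem]
      rw [List.zipWith_map_left] at h2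
      have e : (fun (τ : Ty) (y : ℝ) => y * (valAt (projTy r τ) C.types row : ℝ)) =
          fun (τ : Ty) (y : ℝ) => (valAt (projTy r τ) C.types row : ℝ) * y := by
        funext τ y
        ring
      rw [e]
      exact h2) (L.map fun z => (z, fun _ => z)) (by
      intro e he
      rw [List.mem_map] at he
      obtain ⟨z, hz, rfl⟩ := he
      exact ⟨(hL z hz).1, (hL z hz).2, fun _ => hL z hz⟩)
  rw [regroup (projTy r) hnd _ types c hmem] at h1
  rw [zipWith_congr' types c (h := fun τ => ((L.map fun z => (z, fun _ => z)).map
    fun (e : ℝ × (ℕ → ℝ)) => Fty w 0 e.1 e.2 (projTy r τ)).prod)]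
  · exact h1
  · intro τ hτ
    rw [List.map_map]
    congr 1
    apply List.map_congr_left
    intro z _
    exact Fty_proj w r τ (hty τ hτ) z

end Pool.Agent.H34R2.U
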