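import Pool.Agent.H34R2.U.SLB
import Pool.Agent.H34R2.U.SLC

/-! TASK SLD: soundness of the recursion `slotProp`: termwise positivity for all lists of outer
blocks with the prescribed marks. -/

set_option autoImplicit false

namespace Pool.Agent.H34R2.U

open Finset

namespace SLD

lemma evalN_mulP (x : ℝ) (b : List ℕ) :
    ∀ a : List ℕ, evalN (mulP' a b) x = evalN a x * evalN b x
  | [] => by
    rw [mulP', m10_evalN_nil, zero_mul]
  | y :: a => by
    rw [mulP', m10_addN, m10_scaleN, m10_evalN_cons, m10_evalN_cons, evalN_mulP x b a]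
    push_cast
    ring

lemma lin (D : List ℕ × List ℕ → ℝ) (A P : Ty → ℝ) (g : ℕ → Ty → ℝ) (c : ℝ) (co : ℕ → ℝ)
    (n : ℕ) : ∀ (types : List Ty) (V : List (List ℕ × List ℕ)),
    (∀ τ ∈ types, A τ = c * ∑ j ∈ range n, co j * g j τ) →
    (List.zipWith (fun τ e => D e * (A τ * P τ)) types V).sum =
      c * ∑ j ∈ range n, co j * (List.zipWith (fun τ e => D e * (g j τ * P τ)) types V).sum
  | [], V => by
    intro _
    simp
  | τ :: ts, [] => by
    intro _
    simp
  | τ :: ts, e :: V => by
    intro h
    have ih := lin D A P g c co n ts V (fun σ hσ => h σ (List.mem_cons_of_mem _ hσ))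
    simp only [List.zipWith_cons_cons, List.sum_cons]
    rw [ih, h τ List.mem_cons_self]
    simp only [mul_add, Finset.sum_add_distrib, Finset.mul_sum, Finset.sum_mul]
    congr 1
    apply Finset.sum_congr rfl
    intro j _
    ring

lemma zip_step (f : Ty → List ℕ × List ℕ → ℝ) (g : Ty → List ℕ) :
    ∀ (types : List Ty) (V : List (List ℕ × List ℕ)),
    List.zipWith f types (sl_step (types.map g) V) =
      List.zipWith (fun τ (e : List ℕ × List ℕ) => f τ (mulP' (g τ) e.1, mulP' (g τ) e.2))
        types V
  | [], V => by simp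
  | τ :: ts, [] => by simp [sl_step]
  | τ :: ts, e :: V => by
    rw [List.map_cons, sl_step, List.zipWith_cons_cons, List.zipWith_cons_cons,
      zip_step f g ts V]

lemma length_step : ∀ (G : List (List ℕ)) (V : List (List ℕ × List ℕ)),
    V.length = G.length → (sl_step G V).length = G.length
  | [], V => by intro _; simp [sl_step]
  | g :: G, [] => by intro h; simp at h
  | g :: G, e :: V => by
    intro h
    rw [sl_step, List.length_cons, List.length_cons,
      length_step G V (by simpa using h)]

lemma mem_pats : ∀ (rem a : List ℕ), a.length = rem.length →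
    (∀ i, a.getD i 0 ≤ rem.getD i 0) → a ∈ pats rem
  | [], a => by
    intro h _
    have : a = [] := List.length_eq_zero_iff.1 (by simpa using h)
    simp [pats, this]
  | x :: t, [] => by
    intro h
    simp at h
  | x :: t, y :: a => by
    intro h h2
    rw [pats, List.mem_flatMap]
    refine ⟨y, ?_, ?_⟩
    · rw [List.mem_range]
      have := h2 0
      simp at this
      omega
    · rw [List.mem_map]
      refine ⟨a, mem_pats t a (by simpa using h) (fun i => ?_), rfl⟩
      have := h2 (i + 1)
      simpa using this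

lemma length_subL : ∀ (a b : List ℕ), b.length = a.length → (subL a b).length = a.length
  | [], b => by intro _; simp [subL]
  | x :: a, [] => by intro h; simp at h
  | x :: a, y :: b => by
    intro h
    rw [subL, List.length_cons, List.length_cons, length_subL a b (by simpa using h)]

lemma getD_subL : ∀ (a b : List ℕ) (i : ℕ), b.length = a.length →
    (subL a b).getD i 0 = a.getD i 0 - b.getD i 0
  | [], b, i => by intro _; simp [subL]
  | x :: a, [], i => by intro h; simp at h
  | x :: a, y :: b, 0 => by intro h; simp [subL]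
  | x :: a, y :: b, i + 1 => by
    intro h
    rw [subL]
    have := getD_subL a b i (by simpa using h)
    simpa using this

lemma mem_subL : ∀ (a b : List ℕ) (z : ℕ), z ∈ subL a b → ∃ x ∈ a, z ≤ x
  | [], b, z => by intro h; simp [subL] at h
  | x :: a, [], z => by intro h; simp [subL] at h
  | x :: a, y :: b, z => by
    intro h
    rw [subL, List.mem_cons] at h
    rcases h with h | h
    · exact ⟨x, List.mem_cons_self, by rw [h]; exact Nat.sub_le x y⟩
    · obtain ⟨x', hx', hz⟩ := mem_subL a b z h
      exact ⟨x', List.mem_cons_of_mem _ hx', hz⟩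

lemma keyL_pos : ∀ (a : List ℕ) (i : ℕ), a.getD i 0 ≠ 0 → 1 ≤ keyL a
  | [], i => by intro h; simp at h
  | x :: a, 0 => by
    intro h
    simp at h
    rw [keyL]
    omega
  | x :: a, i + 1 => by
    intro h
    have := keyL_pos a i (by simpa using h)
    rw [keyL]
    omega

lemma maxL_le (d : ℕ) : ∀ a : List ℕ, (∀ x ∈ a, x ≤ d) → maxL a ≤ d
  | [] => by intro _; simp [maxL]
  | x :: a => by
    intro h
    rw [maxL]
    exact Nat.max_le.2 ⟨h x List.mem_cons_self,
      maxL_le d a (fun y hy => h y (List.mem_cons_of_mem _ hy))⟩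

lemma getD_le_sum (L : List (ℕ × List ℕ)) (e : ℕ × List ℕ) (he : e ∈ L) (i : ℕ) :
    e.2.getD i 0 ≤ (L.map fun e => e.2.getD i 0).sum :=
  List.single_le_sum (fun _ _ => Nat.zero_le _) _ (List.mem_map.2 ⟨e, he, rfl⟩)

lemma exists_ne_of_sum (i : ℕ) : ∀ L : List (ℕ × List ℕ),
    (L.map fun e => e.2.getD i 0).sum ≠ 0 → ∃ e ∈ L, e.2.getD i 0 ≠ 0
  | [] => by intro h; simp at h
  | e :: L => by
    intro h
    by_cases he : e.2.getD i 0 = 0
    · rw [List.map_cons, List.sum_cons, he, zero_add] at h
      obtain ⟨e', he', h'⟩ := exists_ne_of_sum i L h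
      exact ⟨e', List.mem_cons_of_mem _ he', h'⟩
    · exact ⟨e, List.mem_cons_self, he⟩

end SLD

open SLD

/-- `L` is the list of outer blocks `(d, a)`: `d` vertices, of which `a i` are `H`-neighbours of
the `i`-th marked vertex. -/
theorem slot_num (w r : ℕ) (types : List Ty) (C : Cert) (hC : certOK w 0 C = true)
    (hnd : C.types.Nodup) (hty : ∀ τ ∈ types, tyOK w r τ = true)
    (hmem : ∀ τ ∈ types, projTy r τ ∈ C.types)
    (f last : ℕ) (rem : List ℕ) (V : List (List ℕ × List ℕ))
    (hprop : slotProp w r types (slRows r types C) f last rem V)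
    (hV : V.length = types.length) (hrem : rem.length = r) (hrem7 : ∀ x ∈ rem, x ≤ 7)
    (L : List (ℕ × List ℕ))
    (hL : ∀ e ∈ L, 1 ≤ e.1 ∧ e.2.length = r ∧ ∀ x ∈ e.2, x ≤ e.1)
    (hsum : ∀ i < r, (L.map fun e => e.2.getD i 0).sum = rem.getD i 0)
    (hlast : ∀ e ∈ L, 1 ≤ keyL e.2 → last ≤ keyL e.2)
    (q : ℝ) (hq0 : 0 < q) (hq1 : q < 1) :
    0 ≤ (List.zipWith (fun τ (e : List ℕ × List ℕ) =>
      (evalN e.1 (q⁻¹ - 1) - evalN e.2 (q⁻¹ - 1)) *
        (L.map fun b => Fty (w - r) r (q ^ b.1) (fun i => q ^ (b.1 - b.2.getD i 0)) τ).prod)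
      types V).sum := by
  have ht0 : 0 ≤ q⁻¹ - 1 := by
    have := (one_le_inv₀ hq0).2 hq1.le
    linarith
  induction f generalizing last rem V L with
  | zero => exact absurd hprop (by simp [slotProp])
  | succ f ih =>
    rw [slotProp] at hprop
    by_cases hall : (rem.all fun x => Nat.beq x 0) = true
    · rw [if_pos hall] at hprop
      have hrem0 : ∀ i, rem.getD i 0 = 0 := by
        intro i
        rw [List.all_eq_true] at hall
        by_cases hi : i < rem.length
        · rw [List.getD_eq_getElem _ _ hi]
          exact Nat.eq_of_beq_eq_true (hall _ (List.getElem_mem hi))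
        · rw [List.getD_eq_default _ _ (by omega)]
      have hmark : ∀ e ∈ L, ∀ i, e.2.getD i 0 = 0 := by
        intro e he i
        by_cases hi : i < r
        · have h1 := getD_le_sum L e he i
          rw [hsum i hi, hrem0 i] at h1
          omega
        · rw [List.getD_eq_default _ _ (by rw [(hL e he).2.1]; omega)]
      have h1 := sl_leaf_sound w r types C hC hnd hty hmem
        (V.map fun e => evalN e.1 (q⁻¹ - 1) - evalN e.2 (q⁻¹ - 1))
        (fun vals hvals => by
          rw [List.zipWith_map_right]
          exact hprop vals hvals (q⁻¹ - 1) ht0)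
        (L.map fun b => q ^ b.1)
        (fun z hz => by
          rw [List.mem_map] at hz
          obtain ⟨b, -, rfl⟩ := hz
          exact ⟨by positivity, pow_le_one₀ hq0.le hq1.le⟩)
      rw [List.zipWith_map_right] at h1
      refine h1.trans (le_of_eq ?_)
      congr 1
      have h2 : ∀ τ : Ty, ((L.map fun b => q ^ b.1).map fun z =>
          Fty (w - r) r z (fun _ => z) τ).prod =
          (L.map fun b => Fty (w - r) r (q ^ b.1) (fun i => q ^ (b.1 - b.2.getD i 0)) τ).prod := by
        intro τ
        rw [List.map_map]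
        congr 1
        apply List.map_congr_left
        intro b hb
        simp only [Function.comp_apply]
        congr 1
        funext i
        rw [hmark b hb i, Nat.sub_zero]
      simp only [h2]
    · rw [if_neg hall] at hprop
      -- a marked block
      have hex : ∃ e ∈ L, 1 ≤ keyL e.2 := by
        have h1 : ∃ x ∈ rem, x ≠ 0 := by
          by_contra hcon
          push Not at hcon
          apply hall
          rw [List.all_eq_true]
          intro x hx
          rw [hcon x hx]
          rfl
        obtain ⟨x, hx, hx0⟩ := h1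
        obtain ⟨i, hi, rfl⟩ := List.getElem_of_mem hx
        have h2 : rem.getD i 0 ≠ 0 := by
          rw [List.getD_eq_getElem _ _ hi]
          exact hx0
        rw [← hsum i (by omega)] at h2
        obtain ⟨e, he, h3⟩ := exists_ne_of_sum i L h2
        exact ⟨e, he, keyL_pos _ i h3⟩
      obtain ⟨e0, he0, hmin⟩ := (L.toFinset.filter fun e => 1 ≤ keyL e.2).exists_min_image
        (fun e => keyL e.2) (by
          obtain ⟨e, he, h1⟩ := hex
          exact ⟨e, by simp [he, h1]⟩)
      rw [Finset.mem_filter, List.mem_toFinset] at he0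
      obtain ⟨he0L, he0k⟩ := he0
      have hmin' : ∀ e ∈ L, 1 ≤ keyL e.2 → keyL e0.2 ≤ keyL e.2 := by
        intro e he h1
        exact hmin e (by simp [he, h1])
      have hperm : L.Perm (e0 :: L.erase e0) := List.perm_cons_erase he0L
      obtain ⟨hd1, hlen, hle⟩ := hL e0 he0L
      have hgd : ∀ i, e0.2.getD i 0 ≤ rem.getD i 0 := by
        intro i
        by_cases hi : i < r
        · rw [← hsum i hi]
          exact getD_le_sum L e0 he0L i
        · rw [List.getD_eq_default _ _ (by omega)]
          exact Nat.zero_le _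
      have hpat : e0.2 ∈ pats rem := mem_pats rem e0.2 (by omega) hgd
      have hkey : max 1 last ≤ keyL e0.2 := max_le he0k (hlast e0 he0L he0k)
      have hsub : ∀ e ∈ L.erase e0, e ∈ L := fun e he => List.mem_of_mem_erase he
      -- the product
      have hprod : ∀ τ : Ty, (L.map fun b =>
          Fty (w - r) r (q ^ b.1) (fun i => q ^ (b.1 - b.2.getD i 0)) τ).prod =
          Fty (w - r) r (q ^ e0.1) (fun i => q ^ (e0.1 - e0.2.getD i 0)) τ *
          ((L.erase e0).map fun b =>
            Fty (w - r) r (q ^ b.1) (fun i => q ^ (b.1 - b.2.getD i 0)) τ).prod := by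
        intro τ
        rw [(hperm.map _).prod_eq, List.map_cons, List.prod_cons]
      simp only [hprod]
      have hexp : ∀ τ ∈ types,
          Fty (w - r) r (q ^ e0.1) (fun i => q ^ (e0.1 - e0.2.getD i 0)) τ =
          q ^ exAll w r e0.2 * ∑ j ∈ range (w + 1),
            ((1 - q ^ (e0.1 - maxL e0.2)) ^ j * (q ^ (e0.1 - maxL e0.2)) ^ (w - j)) *
              evalN (gPoly r e0.2 j τ) (q⁻¹ - 1) := by
        intro τ hτ
        exact block_expand w r τ (hty τ hτ) e0.2 e0.1 (maxL_le _ _ hle) q hq0 hq1
      rw [lin (fun e : List ℕ × List ℕ => evalN e.1 (q⁻¹ - 1) - evalN e.2 (q⁻¹ - 1))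
        (fun τ => Fty (w - r) r (q ^ e0.1) (fun i => q ^ (e0.1 - e0.2.getD i 0)) τ)
        (fun τ => ((L.erase e0).map fun b =>
            Fty (w - r) r (q ^ b.1) (fun i => q ^ (b.1 - b.2.getD i 0)) τ).prod)
        (fun j τ => evalN (gPoly r e0.2 j τ) (q⁻¹ - 1)) (q ^ exAll w r e0.2)
        (fun j => (1 - q ^ (e0.1 - maxL e0.2)) ^ j * (q ^ (e0.1 - maxL e0.2)) ^ (w - j))
        (w + 1) types V hexp]
      refine mul_nonneg (by positivity) (Finset.sum_nonneg (fun j hj => mul_nonneg ?_ ?_))
      · have h1 : q ^ (e0.1 - maxL e0.2) ≤ 1 := pow_le_one₀ hq0.le hq1.le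
        have h2 : 0 ≤ 1 - q ^ (e0.1 - maxL e0.2) := by linarith
        positivity
      · rw [Finset.mem_range] at hj
        have h1 := ih (keyL e0.2) (subL rem e0.2)
          (sl_step (types.map (gPoly r e0.2 j)) V)
          (hprop e0.2 hpat hkey j (by omega))
          (by rw [length_step _ _ (by rw [List.length_map]; exact hV), List.length_map])
          (by rw [length_subL _ _ (by omega)]; exact hrem)
          (fun z hz => by
            obtain ⟨x, hx, hzx⟩ := mem_subL _ _ _ hz
            exact hzx.trans (hrem7 x hx))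
          (L.erase e0) (fun e he => hL e (hsub e he))
          (fun i hi => by
            have h2 := hsum i hi
            rw [(hperm.map _).sum_eq, List.map_cons, List.sum_cons] at h2
            rw [getD_subL _ _ _ (by omega)]
            omega)
          (fun e he h2 => hmin' e (hsub e he) h2)
        rw [zip_step] at h1
        refine h1.trans (le_of_eq ?_)
        congr 1
        apply congrArg (fun F => List.zipWith F types V)
        funext τ e
        simp only [evalN_mulP]
        ring

end Pool.Agent.H34R2.U
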