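import Pool.Agent.H34R2.U.SLD

/-! TASK SLE: from the numerical check to the move on graphs. -/

set_option autoImplicit false

namespace Pool.Agent.H34R2.U

open Finset

lemma sle_subN (a b : List ℕ) (s : ℝ) :
    evalN (subN a b) s - evalN (subN b a) s = evalN a s - evalN b s := by
  induction a generalizing b with
  | nil =>
    cases b with
    | nil => simp [subN]
    | cons y b => simp [subN, m10_evalN_nil]
  | cons x a ih =>
    cases b with
    | nil => simp [subN, m10_evalN_nil]
    | cons y b =>
      simp only [subN, m10_evalN_cons]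
      have h := ih b
      have h1 : ((Nat.sub x y : ℕ) : ℝ) - ((Nat.sub y x : ℕ) : ℝ) = (x : ℝ) - y := by
        change ((x - y : ℕ) : ℝ) - ((y - x : ℕ) : ℝ) = (x : ℝ) - y
        rcases le_total x y with h2 | h2
        · rw [Nat.sub_eq_zero_of_le h2, Nat.cast_sub h2]
          push_cast
          ring
        · rw [Nat.sub_eq_zero_of_le h2, Nat.cast_sub h2]
          push_cast
          ring
      linear_combination h1 + s * h

lemma sle_trimN (a : List ℕ) (s : ℝ) : evalN (trimN a) s = evalN a s := by
  induction a with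
  | nil => rfl
  | cons x a ih =>
    rw [trimN, m10_evalN_cons, ← ih]
    generalize trimN a = c
    cases c with
    | nil =>
      simp only
      by_cases hx : x = 0
      · subst hx
        rw [if_pos (by rfl)]
        simp [m10_evalN_nil]
      · have : ¬ Nat.beq x 0 = true := by rw [Nat.beq_eq]; exact hx
        rw [if_neg this, m10_evalN_cons]
    | cons y b => rw [m10_evalN_cons]

lemma sle_redP (e : List ℕ × List ℕ) (s : ℝ) :
    evalN (redP e).1 s - evalN (redP e).2 s = evalN e.1 s - evalN e.2 s := by
  unfold redP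
  simp only [sle_trimN]
  exact sle_subN e.1 e.2 s

lemma sle_part {n : ℕ} {A : Finset (Fin n)} {L : List (Finset (Fin n))} (h : IsPart A L) :
    ∀ B ∈ L, B.Nonempty ∧ B ⊆ A := by
  induction h with
  | nil => intro B hB; simp at hB
  | cons A B L hB hBA hL ih =>
    intro B' hB'
    rcases List.mem_cons.1 hB' with rfl | hB'
    · exact ⟨hB, hBA⟩
    · exact ⟨(ih B' hB').1, (ih B' hB').2.trans sdiff_subset⟩

lemma sle_sum {n : ℕ} {A : Finset (Fin n)} {L : List (Finset (Fin n))} (h : IsPart A L)
    (p : Fin n → Prop) [DecidablePred p] :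
    (L.map fun B => (B.filter p).card).sum = (A.filter p).card := by
  induction h with
  | nil => simp
  | cons A B L hB hBA hL ih =>
    rw [List.map_cons, List.sum_cons, ih, ← Finset.card_union_of_disjoint]
    · congr 1
      rw [← Finset.filter_union, Finset.union_sdiff_of_subset hBA]
    · exact (Finset.disjoint_sdiff).mono (filter_subset _ _) (filter_subset _ _)

attribute [local irreducible] dp

theorem slot_sound (w : ℕ) (l l' : List (ℕ × ℕ)) (mk sl : List ℕ) (types types' : List Ty)
    (C : Cert) (f : ℕ) (hC : certOK w 0 C = true)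
    (hside : slSide w l l' mk sl types types' C = true)
    (hprop : slotProp w mk.length types' (slRows mk.length types' C) f 0 sl
      (types'.map (slPoly w l l' mk))) : SlotOK w l l' mk sl := by
  classical
  unfold slSide at hside
  simp only [Bool.and_eq_true] at hside
  obtain ⟨⟨⟨⟨⟨⟨⟨⟨⟨⟨⟨⟨⟨hin, hin'⟩, hsl⟩, hsl7⟩, hnd⟩, hnd'⟩, hndC⟩, hty⟩, hproj⟩, heK⟩, hd0⟩, hd1⟩,
    hsub⟩, hzero⟩ := hside
  rw [List.all_eq_true] at hsl7 hty hproj heK hd0 hd1 hsub hzero
  rw [m10_nodupTy] at hnd hnd' hndC
  simp only [m10_memTy, Nat.ble_eq, Nat.beq_eq] at hsl hsl7 hproj heK hd0 hd1 hsub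
  intro n H φ hc hout q hq0 hq1
  obtain ⟨r, hr⟩ : ∃ r, r = mk.length := ⟨_, rfl⟩
  obtain ⟨M, hM⟩ : ∃ M, M = w * (w - 1) / 2 := ⟨_, rfl⟩
  obtain ⟨A, hA⟩ : ∃ A : Finset (Fin n), A = univ.filter fun j => ∀ a, φ a ≠ j := ⟨_, rfl⟩
  obtain ⟨ψ, hψ⟩ : ∃ ψ : Finset (Fin n) → ℕ → ℝ, ψ = fun B i =>
    if h : mk.getD i w < w then tt (Qw H q) (φ ⟨mk.getD i w, h⟩) B else 1 := ⟨_, rfl⟩
  obtain ⟨G, hG⟩ : ∃ G : Ty → ℝ, G = fun τ =>
    MM (Qw H q) (fun B => Fty (w - r) r (q ^ B.card) (ψ B) τ) A := ⟨_, rfl⟩
  rw [← hr] at hprop hty hproj heK hsl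
  rw [← hM] at heK
  -- the reliabilities
  have h0 : RH H q = ∑ τ ∈ types.toFinset, (sgn τ : ℝ) * q ^ eK r τ *
      evalN (collect τ (dp w l mk)) q⁻¹ * G τ := by
    rw [dp_sound w l mk hin H φ hc q hq0, ← m10_group r q q⁻¹ types G _ hd0, hG, hψ, hA, hr]
  have h1 : RH (repl H φ l') q = ∑ τ ∈ types.toFinset, (sgn τ : ℝ) * q ^ eK r τ *
      evalN (collect τ (dp w l' mk)) q⁻¹ * G τ := by
    rw [dp_sound w l' mk hin' (repl H φ l') φ (m10_conf_repl hc hin') q hq0,
      ← m10_group r q q⁻¹ types G _ hd1, ← hr]
    congr 1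
    refine List.map_congr_left fun e _ => ?_
    congr 1
    rw [hG, ← hA]
    refine MM_congr ?_ ?_
    · intro i hi j hj _
      rw [hA] at hj
      exact m10_Qw_repl H φ l' q i j (Finset.mem_filter.1 hj).2
    · intro B hB _
      have : (fun i => if h : mk.getD i w < w then
          tt (Qw (repl H φ l') q) (φ ⟨mk.getD i w, h⟩) B else 1) = ψ B := by
        funext i
        rw [hψ]
        simp only
        split_ifs with hi
        · unfold tt
          refine Finset.prod_congr rfl fun j hj => ?_
          have := hB hj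
          rw [hA] at this
          exact m10_Qw_repl H φ l' q _ j (Finset.mem_filter.1 this).2
        · rfl
      rw [this]
  obtain ⟨coef, hcoef⟩ : ∃ coef : Ty → ℝ, coef = fun τ =>
    evalN (slPoly w l l' mk τ).1 (q⁻¹ - 1) - evalN (slPoly w l l' mk τ).2 (q⁻¹ - 1) := ⟨_, rfl⟩
  have hx : 1 + (q⁻¹ - 1) = q⁻¹ := by ring
  have hcoef1 : ∀ τ ∈ types, (sgn τ : ℝ) * q ^ eK r τ *
      (evalN (collect τ (dp w l' mk)) q⁻¹ - evalN (collect τ (dp w l mk)) q⁻¹) =
      q ^ M * coef τ := by
    intro τ hτ
    rw [hcoef]
    simp only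
    unfold slPoly
    rw [sle_redP, m10_prOf, hx, ← hr, ← hM]
    have h3 : q ^ M * q⁻¹ ^ (M - eK r τ) = q ^ eK r τ := by
      have h4 : M = eK r τ + (M - eK r τ) := by
        have := heK τ hτ
        omega
      conv_lhs => rw [h4, Nat.add_sub_cancel_left]
      rw [pow_add, mul_assoc, ← mul_pow, mul_inv_cancel₀ hq0.ne', one_pow, mul_one]
    rw [← mul_assoc, h3, collects, collects, m10_addN, m10_evalN_nil]
    simp only [List.length_singleton, Nat.cast_one]
    ring
  have hdiff : RH (repl H φ l') q - RH H q = q ^ M * ∑ τ ∈ types'.toFinset, coef τ * G τ := by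
    have h2 : ∑ τ ∈ types'.toFinset, coef τ * G τ = ∑ τ ∈ types.toFinset, coef τ * G τ := by
      apply Finset.sum_subset
      · intro τ hτ
        rw [List.mem_toFinset] at hτ ⊢
        exact hsub τ hτ
      · intro τ hτ hτ'
        rw [List.mem_toFinset] at hτ hτ'
        have h3 := hzero τ hτ
        rw [Bool.or_eq_true] at h3
        rcases h3 with h3 | h3
        · exact absurd ((m10_memTy _ _).1 h3) hτ'
        · have h4 : slPoly w l l' mk τ = ([], []) := by
            revert h3
            generalize slPoly w l l' mk τ = e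
            obtain ⟨e1, e2⟩ := e
            cases e1 <;> cases e2 <;> simp
          rw [hcoef]
          simp [h4, m10_evalN_nil]
    rw [h2, h0, h1, ← Finset.sum_sub_distrib, Finset.mul_sum]
    refine Finset.sum_congr rfl fun τ hτ => ?_
    rw [List.mem_toFinset] at hτ
    rw [← mul_assoc, ← hcoef1 τ hτ]
    ring
  have hQ : Wt (Qw H q) := Qw_wt H hq0.le hq1.le
  have hmain : 0 ≤ ∑ τ ∈ types'.toFinset, coef τ * G τ := by
    rw [hG]
    refine MM_termwise types'.toFinset hQ A coef
      (fun τ B => Fty (w - r) r (q ^ B.card) (ψ B) τ) fun L hL => ?_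
    rw [List.sum_toFinset _ hnd']
    -- numbers of neighbours
    obtain ⟨nb, hnb⟩ : ∃ nb : Finset (Fin n) → ℕ → ℕ, nb = fun B i =>
      if h : mk.getD i w < w then (B.filter fun j => H.Adj (φ ⟨mk.getD i w, h⟩) j).card else 0 :=
      ⟨_, rfl⟩
    have hnble : ∀ B i, nb B i ≤ B.card := by
      intro B i
      rw [hnb]
      simp only
      split_ifs
      · exact card_filter_le _ _
      · exact Nat.zero_le _
    have hgetD : ∀ B : Finset (Fin n), ∀ i < r, ((List.range r).map (nb B)).getD i 0 = nb B i := by
      intro B i hi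
      rw [List.getD_eq_getElem _ _ (by simpa using hi)]
      simp
    have hmkw : ∀ i < r, mk.getD i w < w := by
      intro i hi
      unfold inOK at hin
      simp only [Bool.and_eq_true, List.all_eq_true, decide_eq_true_eq] at hin
      rw [List.getD_eq_getElem _ _ (by rw [← hr]; exact hi)]
      exact hin.1.2 _ (List.getElem_mem _)
    have hψnb : ∀ B : Finset (Fin n), ∀ i < r, ψ B i = q ^ (B.card - nb B i) := by
      intro B i hi
      rw [hψ, hnb]
      simp only
      rw [dif_pos (hmkw i hi), dif_pos (hmkw i hi)]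
      unfold tt
      rw [← Finset.prod_filter_mul_prod_filter_not B
        (fun j => H.Adj (φ ⟨mk.getD i w, hmkw i hi⟩) j)]
      rw [Finset.prod_congr rfl (g := fun _ => (1 : ℝ)) (fun j hj => by
        have := (Finset.mem_filter.1 hj).2
        unfold Qw
        rw [if_pos this])]
      rw [Finset.prod_congr rfl (s₁ := B.filter fun j => ¬ H.Adj (φ ⟨mk.getD i w, hmkw i hi⟩) j)
        (g := fun _ => q) (fun j hj => by
        have := (Finset.mem_filter.1 hj).2
        unfold Qw
        rw [if_neg this])]
      rw [Finset.prod_const_one, one_mul, Finset.prod_const]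
      congr 1
      have := Finset.card_filter_add_card_filter_not (s := B)
        (fun j => H.Adj (φ ⟨mk.getD i w, hmkw i hi⟩) j)
      omega
    have key := slot_num w r types' C hC hndC (fun τ hτ => hty τ (hsub τ hτ))
      (fun τ hτ => hproj τ (hsub τ hτ)) f 0 sl (types'.map (slPoly w l l' mk)) hprop
      (by rw [List.length_map]) hsl hsl7
      (L.map fun B => (B.card, (List.range r).map (nb B)))
      (by
        intro e he
        obtain ⟨B, hB, rfl⟩ := List.mem_map.1 he
        refine ⟨Finset.card_pos.2 (sle_part hL B hB).1, by simp, fun x hx => ?_⟩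
        obtain ⟨i, _, rfl⟩ := List.mem_map.1 hx
        exact hnble B i)
      (by
        intro i hi
        rw [List.map_map]
        have h2 : (L.map ((fun e : ℕ × List ℕ => e.2.getD i 0) ∘
            fun B => (B.card, (List.range r).map (nb B)))) = L.map fun B => nb B i := by
          refine List.map_congr_left fun B _ => ?_
          exact hgetD B i hi
        rw [h2, ← hout i (by rw [← hr]; exact hi)]
        unfold outdeg
        rw [dif_pos (hmkw i hi)]
        have h3 : (L.map fun B => nb B i) = L.map fun B =>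
            (B.filter fun j => H.Adj (φ ⟨mk.getD i w, hmkw i hi⟩) j).card := by
          refine List.map_congr_left fun B _ => ?_
          rw [hnb]
          simp only
          rw [dif_pos (hmkw i hi)]
        rw [h3, sle_sum hL, hA, Finset.filter_filter])
      (fun _ _ _ => Nat.zero_le _) q hq0 hq1
    refine le_of_le_of_eq key ?_
    rw [List.zipWith_map_right, List.zipWith_self]
    congr 1
    refine List.map_congr_left fun τ _ => ?_
    rw [List.map_map, hcoef]
    congr 2
    refine List.map_congr_left fun B _ => ?_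
    simp only [Function.comp]
    unfold Fty
    have h4 : ∀ i < r, q ^ (B.card - ((List.range r).map (nb B)).getD i 0) = ψ B i := by
      intro i hi
      rw [hgetD B i hi, hψnb B i hi]
    congr 1
    · congr 1
      refine List.map_congr_left fun b _ => ?_
      congr 1
      exact Finset.prod_congr rfl fun i hi =>
        h4 i (Finset.mem_range.1 (Finset.mem_filter.1 hi).1)
    · congr 2
      exact Finset.prod_congr rfl fun i hi => h4 i (Finset.mem_range.1 hi)
  have := mul_nonneg (pow_nonneg hq0.le M) hmain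
  rw [← hdiff] at this
  linarith

end Pool.Agent.H34R2.U
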