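import Pool.Agent.H34R2.U.SLA
import Pool.Agent.H34R2.U.SLE

/-! splitting of the slot check -/

set_option autoImplicit false

namespace Pool.Agent.H34R2.U

/-- the part of the check for the first marked block -/
def slotKa (B w r : ℕ) (types : List Ty) (R : List (List ℕ)) (f last : ℕ) (rem : List ℕ)
    (VB V1 : List (ℕ × ℕ)) (a : List ℕ) : Bool :=
  Nat.blt (keyL a) (Nat.max 1 last) ||
      (List.range (w + 1)).all fun j =>
        slotK B w r types R f (keyL a) (subL rem a) (stepK (types.map (gVal B r a j)) VB)
          (stepK (types.map (gVal 1 r a j)) V1)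

theorem slotKa_of (B w r : ℕ) (types : List Ty) (R : List (List ℕ)) (f last : ℕ) (rem : List ℕ)
    (VB V1 : List (ℕ × ℕ)) (a : List ℕ)
    (h : ∀ j ∈ List.range (w + 1),
      slotK B w r types R f (keyL a) (subL rem a) (stepK (types.map (gVal B r a j)) VB)
          (stepK (types.map (gVal 1 r a j)) V1) = true) :
    slotKa B w r types R f last rem VB V1 a = true := by
  unfold slotKa
  rw [Bool.or_eq_true]
  right
  rw [List.all_eq_true]
  exact h

theorem slotK_of (B w r : ℕ) (types : List Ty) (R : List (List ℕ)) (f last : ℕ) (rem : List ℕ)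
    (VB V1 : List (ℕ × ℕ)) (hr : rem.all (fun x => Nat.beq x 0) = false)
    (h : ∀ a ∈ pats rem, slotKa B w r types R f last rem VB V1 a = true) :
    slotK B w r types R (f + 1) last rem VB V1 = true := by
  unfold slotK
  rw [hr, if_neg (by simp)]
  rw [List.all_eq_true]
  exact h

theorem slot_move (w : ℕ) (l l' : List (ℕ × ℕ)) (mk sl : List ℕ) (types types' : List Ty)
    (C : Cert) (f B r : ℕ) (R : List (List ℕ)) (V : List (List ℕ × List ℕ))
    (hC : certOK w 0 C = true) (hr : r = mk.length)
    (hside : slSide w l l' mk sl types types' C = true)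
    (hV : types'.map (slPoly w l l' mk) = V) (hR : slRows r types' C = R)
    (h : slotK B w r types' R f 0 sl (V.map fun e => (evB B e.1, evB B e.2))
      (V.map fun e => (evB 1 e.1, evB 1 e.2)) = true) : SlotOK w l l' mk sl := by
  subst hr hV hR
  exact slot_sound w l l' mk sl types types' C f hC hside (slotK_sound _ _ _ _ _ _ _ _ _ h)

end Pool.Agent.H34R2.U
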