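import Pool.Agent.H34R2.U.S4
import Pool.Agent.H34R2.U.YDefs

/-! TASK Y4: exact expansion of the effect of moving the edge `u x` to `v x` where `v` is a leaf
of `H` with neighbour `y` (generalises `s1_diff` of S4: the neighbours of `y` are arbitrary,
only `u y` is not an edge of `H`). -/

set_option autoImplicit false

namespace Pool.Agent.H34R2.U

open Finset

variable {n : ℕ}

/-- weight on blocks -/
noncomputable def FFY (F : ℝ → ℝ → ℝ → ℝ → ℝ) (H : SimpleGraph (Fin n)) (q : ℝ)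
    (u x y : Fin n) (B : Finset (Fin n)) : ℝ :=
  F (tt (Qw H q) u B) (tt (Qw H q) x B) (tt (Qw H q) y B) (q ^ B.card)

theorem s1_diffY (H : SimpleGraph (Fin n)) (q : ℝ) (hq0 : 0 < q) (u v x y : Fin n)
    (huv : u ≠ v) (huy : u ≠ y) (hxv : x ≠ v) (hxy : x ≠ y) (hux : H.Adj u x)
    (hv : ∀ j, H.Adj v j ↔ j = y) (hyu : ¬ H.Adj y u) :
    RH (reloc H u v x) q - RH H q =
      q * (1 - q) *
        (q * MM (Qw H q) (FFY P1 H q u x y) ((((univ.erase u).erase v).erase x).erase y) -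
          MM (Qw H q) (FFY P2 H q u x y) ((((univ.erase u).erase v).erase x).erase y) +
          Qw H q x y *
            (MM (Qw H q) (FFY P3' H q u x y) ((((univ.erase u).erase v).erase x).erase y) -
              q * MM (Qw H q) (FFY P4' H q u x y) ((((univ.erase u).erase v).erase x).erase y) -
              2 * q *
                MM (Qw H q) (FFY P5 H q u x y) ((((univ.erase u).erase v).erase x).erase y) +
              2 * q * MM (Qw H q) (FFY P6 H q u x y)
                ((((univ.erase u).erase v).erase x).erase y))) := by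
  classical
  have hux' : u ≠ x := hux.ne
  have hvx : ¬ H.Adj v x := fun h => hxy ((hv x).1 h)
  have hs := Qw_symm H q
  have hQ1 : ∀ i j, H.Adj i j → Qw H q i j = 1 := fun i j h => by simp [Qw, h]
  have hQ0 : ∀ i j, ¬ H.Adj i j → Qw H q i j = q := fun i j h => by simp [Qw, h]
  have huvA : ¬ H.Adj u v := fun h => huy ((hv u).1 h.symm)
  have huyA : ¬ H.Adj u y := fun h => hyu h.symm
  have hvyA : H.Adj v y := (hv y).2 rfl
  have hvy : v ≠ y := hvyA.ne
  rw [reloc_diff H q hq0 u v x huv hux hvx hxv, hQ0 u v huvA]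
  obtain ⟨K, hKd⟩ : ∃ K, K = ((((univ.erase u).erase v).erase x).erase y) := ⟨_, rfl⟩
  have hK : ∀ j ∈ K, j ≠ u ∧ j ≠ v ∧ j ≠ x ∧ j ≠ y := by
    intro j hj
    rw [hKd] at hj
    simp only [mem_erase, mem_univ, and_true] at hj
    tauto
  have hxK : x ∉ K := fun h => (hK x h).2.2.1 rfl
  have hyK : y ∉ insert x K := by
    rw [mem_insert]
    rintro (h | h)
    · exact hxy h.symm
    · exact (hK y h).2.2.2 rfl
  have hK0 : (univ.erase u).erase v = insert y (insert x K) := by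
    rw [hKd]
    ext j
    simp only [mem_erase, mem_univ, and_true, mem_insert]
    constructor
    · intro h
      by_cases h1 : j = y
      · exact Or.inl h1
      · by_cases h2 : j = x
        · exact Or.inr (Or.inl h2)
        · exact Or.inr (Or.inr ⟨h1, h2, h⟩)
    · rintro (h | h | h)
      · exact ⟨h ▸ hvy.symm, h ▸ huy.symm⟩
      · exact ⟨h ▸ hxv, h ▸ hux'.symm⟩
      · exact h.2.2
  rw [← hKd, hK0]
  have tins : ∀ (a w : Fin n) (B : Finset (Fin n)), w ∉ B →
      tt (Qw H q) a (insert w B) = Qw H q a w * tt (Qw H q) a B := fun a w B h => prod_insert h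
  have tv : ∀ B ⊆ K, tt (Qw H q) v B = q ^ B.card := by
    intro B hB
    rw [tt, prod_congr rfl (fun j hj => hQ0 v j fun h => (hK j (hB hj)).2.2.2 ((hv j).1 h)),
      prod_const]
  obtain ⟨f3, hf3⟩ : ∃ f3 : Finset (Fin n) → ℝ, f3 = fun B => if x ∈ B then
      tt (Qw H q) u B - q⁻¹ * tt (Qw H q) v B
      else tt (Qw H q) u B + tt (Qw H q) v B - 2 * (tt (Qw H q) u B * tt (Qw H q) v B) := ⟨_, rfl⟩
  rw [← hf3]
  -- removal of `y`
  obtain ⟨m1, hm1⟩ : ∃ m : Fin n → ℝ, m = fun i => Qw H q u i := ⟨_, rfl⟩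
  obtain ⟨m2, hm2⟩ : ∃ m : Fin n → ℝ, m = fun i => Qw H q v i * (if i = x then -q⁻¹ else 1) :=
    ⟨_, rfl⟩
  obtain ⟨m3, hm3⟩ : ∃ m : Fin n → ℝ, m = fun i => Qw H q u i * Qw H q v i *
    (if i = x then 0 else 1) := ⟨_, rfl⟩
  have pm1 : ∀ B : Finset (Fin n), ∏ i ∈ B, m1 i = tt (Qw H q) u B := fun B => by rw [hm1]; rfl
  have pm2 : ∀ B : Finset (Fin n), ∏ i ∈ B, m2 i =
      tt (Qw H q) v B * (if x ∈ B then -q⁻¹ else 1) := fun B => by
    rw [hm2, prod_mul_distrib, prod_ite_eq' B x]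
    rfl
  have pm3 : ∀ B : Finset (Fin n), ∏ i ∈ B, m3 i =
      tt (Qw H q) u B * tt (Qw H q) v B * (if x ∈ B then 0 else 1) := fun B => by
    rw [hm3, prod_mul_distrib, prod_mul_distrib, prod_ite_eq' B x]
    rfl
  have step1 := MM_insert (univ : Finset (Fin 3)) hs y (insert x K) hyK f3 ![q, 1, -(2 * q)]
    ![m1, m2, m3] (by
      intro B hB
      have hyB : y ∉ B := fun h => hyK (hB h)
      simp only [Fin.sum_univ_three, Matrix.cons_val_zero, Matrix.cons_val_one,
        Matrix.cons_val_two, Matrix.head_cons, Matrix.tail_cons]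
      rw [pm1, pm2, pm3, hf3]
      simp only [mem_insert, hxy, false_or]
      rw [tins u y B hyB, tins v y B hyB, hQ0 u y huyA, hQ1 v y hvyA]
      split_ifs <;> ring)
  simp only [Fin.sum_univ_three, Matrix.cons_val_zero, Matrix.cons_val_one,
    Matrix.cons_val_two, Matrix.head_cons, Matrix.tail_cons, pm1, pm2, pm3] at step1
  rw [step1]
  -- removal of `x`
  have step2 : ∀ (g : Finset (Fin n) → ℝ) (c0 c1 : ℝ) (n0 n1 : Fin n → ℝ)
      (hg : ∀ B ⊆ K, g (insert x B) = c0 * ∏ i ∈ B, n0 i + c1 * ∏ i ∈ B, n1 i),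
      MM (Qw H q) g (insert x K) =
        c0 * MM (Qw H q) (fun B => (1 - tt (Qw H q) x B) * (∏ i ∈ B, n0 i) +
          tt (Qw H q) x B * g B) K +
        c1 * MM (Qw H q) (fun B => (1 - tt (Qw H q) x B) * (∏ i ∈ B, n1 i) +
          tt (Qw H q) x B * g B) K := by
    intro g c0 c1 n0 n1 hg
    have h := MM_insert (univ : Finset (Fin 2)) hs x K hxK g ![c0, c1] ![n0, n1] (by
      intro B hB
      simp only [Fin.sum_univ_two, Matrix.cons_val_zero, Matrix.cons_val_one]
      exact hg B hB)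
    simpa only [Fin.sum_univ_two, Matrix.cons_val_zero, Matrix.cons_val_one] using h
  have hyx : Qw H q y x = Qw H q x y := hs y x
  have hqq : q⁻¹ * q = 1 := inv_mul_cancel₀ hq0.ne'
  have fx : ∀ B ⊆ K, f3 (insert x B) = tt (Qw H q) u B - q ^ B.card := by
    intro B hB
    have hxB : x ∉ B := fun h => hxK (hB h)
    rw [hf3]
    simp only [mem_insert_self, if_true]
    rw [tins u x B hxB, tins v x B hxB, hQ1 u x hux, hQ0 v x hvx, tv B hB]
    linear_combination (-(q ^ B.card)) * hqq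
  have fn : ∀ B ⊆ K, f3 B = tt (Qw H q) u B + q ^ B.card - 2 * (tt (Qw H q) u B * q ^ B.card) := by
    intro B hB
    have hxB : x ∉ B := fun h => hxK (hB h)
    rw [hf3]
    simp only [if_neg hxB]
    rw [tv B hB]
  have tyx : ∀ B ⊆ K, tt (Qw H q) y (insert x B) = Qw H q x y * tt (Qw H q) y B := by
    intro B hB
    have hxB : x ∉ B := fun h => hxK (hB h)
    rw [tins y x B hxB, hyx]
  have tux : ∀ B ⊆ K, tt (Qw H q) u (insert x B) = tt (Qw H q) u B := by
    intro B hB
    have hxB : x ∉ B := fun h => hxK (hB h)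
    rw [tins u x B hxB, hQ1 u x hux, one_mul]
  have tvx : ∀ B ⊆ K, tt (Qw H q) v (insert x B) = q * q ^ B.card := by
    intro B hB
    have hxB : x ∉ B := fun h => hxK (hB h)
    rw [tins v x B hxB, hQ0 v x hvx, tv B hB]
  have p1 : ∀ B : Finset (Fin n), ∏ i ∈ B, Qw H q u i = tt (Qw H q) u B := fun B => rfl
  have p2 : ∀ B : Finset (Fin n), ∏ i ∈ B, (q * Qw H q y i) = q ^ B.card * tt (Qw H q) y B :=
    fun B => by rw [prod_mul_distrib, prod_const]; rfl
  have p3 : ∀ B : Finset (Fin n), ∏ _i ∈ B, q = q ^ B.card := fun B => prod_const q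
  have p4 : ∀ B : Finset (Fin n), ∏ i ∈ B, (Qw H q y i * Qw H q u i) =
      tt (Qw H q) y B * tt (Qw H q) u B :=
    fun B => by rw [prod_mul_distrib]; rfl
  have s1 := step2 (fun B => (1 - tt (Qw H q) y B) * tt (Qw H q) u B + tt (Qw H q) y B * f3 B)
    1 (-(Qw H q x y)) (fun i => Qw H q u i) (fun i => q * Qw H q y i) (by
      intro B hB
      rw [p1, p2, tyx B hB, tux B hB, fx B hB]
      ring)
  have s2 := step2 (fun B => (1 - tt (Qw H q) y B) * (tt (Qw H q) v B * (if x ∈ B then -q⁻¹ else 1))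
      + tt (Qw H q) y B * f3 B)
    (-1) (Qw H q x y) (fun _ => q) (fun i => Qw H q y i * Qw H q u i) (by
      intro B hB
      rw [p3, p4, tyx B hB, tvx B hB, fx B hB, if_pos (mem_insert_self x B)]
      linear_combination (-(q ^ B.card) * (1 - Qw H q x y * tt (Qw H q) y B)) * hqq)
  have s3 := step2 (fun B => (1 - tt (Qw H q) y B) * (tt (Qw H q) u B * tt (Qw H q) v B *
      (if x ∈ B then 0 else 1)) + tt (Qw H q) y B * f3 B)
    (Qw H q x y) (-(Qw H q x y)) (fun i => Qw H q y i * Qw H q u i) (fun i => q * Qw H q y i) (by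
      intro B hB
      rw [p4, p2, tyx B hB, tvx B hB, fx B hB, if_pos (mem_insert_self x B)]
      ring)
  rw [s1, s2, s3]
  have key : ∀ (F : ℝ → ℝ → ℝ → ℝ → ℝ) (g : Finset (Fin n) → ℝ),
      (∀ B ⊆ K, g B = F (tt (Qw H q) u B) (tt (Qw H q) x B) (tt (Qw H q) y B) (q ^ B.card)) →
      MM (Qw H q) g K = MM (Qw H q) (FFY F H q u x y) K := fun F g hg =>
    MM_congr (fun _ _ _ _ _ => rfl) fun B hB _ => hg B hB
  have hxB : ∀ B ⊆ K, x ∉ B := fun B hB h => hxK (hB h)
  rw [key P1 (fun B => (1 - tt (Qw H q) x B) * (∏ i ∈ B, Qw H q u i) + tt (Qw H q) x B *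
      ((1 - tt (Qw H q) y B) * tt (Qw H q) u B + tt (Qw H q) y B * f3 B)) (fun B hB => by
        simp only [p1, fn B hB, P1]; ring),
    key P4' (fun B => (1 - tt (Qw H q) x B) * (∏ i ∈ B, (q * Qw H q y i)) + tt (Qw H q) x B *
      ((1 - tt (Qw H q) y B) * tt (Qw H q) u B + tt (Qw H q) y B * f3 B)) (fun B hB => by
        simp only [p2, fn B hB, P4']; ring),
    key P2 (fun B => (1 - tt (Qw H q) x B) * (∏ _i ∈ B, q) + tt (Qw H q) x B *
      ((1 - tt (Qw H q) y B) * (tt (Qw H q) v B * (if x ∈ B then -q⁻¹ else 1)) +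
        tt (Qw H q) y B * f3 B)) (fun B hB => by
        simp only [p3, tv B hB, fn B hB, P2, if_neg (hxB B hB)]; ring),
    key P3' (fun B => (1 - tt (Qw H q) x B) * (∏ i ∈ B, (Qw H q y i * Qw H q u i)) +
      tt (Qw H q) x B *
      ((1 - tt (Qw H q) y B) * (tt (Qw H q) v B * (if x ∈ B then -q⁻¹ else 1)) +
        tt (Qw H q) y B * f3 B)) (fun B hB => by
        simp only [p4, tv B hB, fn B hB, P3', if_neg (hxB B hB)]; ring),
    key P5 (fun B => (1 - tt (Qw H q) x B) * (∏ i ∈ B, (Qw H q y i * Qw H q u i)) +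
      tt (Qw H q) x B *
      ((1 - tt (Qw H q) y B) * (tt (Qw H q) u B * tt (Qw H q) v B * (if x ∈ B then 0 else 1)) +
        tt (Qw H q) y B * f3 B)) (fun B hB => by
        simp only [p4, tv B hB, fn B hB, P5, if_neg (hxB B hB)]; ring),
    key P6 (fun B => (1 - tt (Qw H q) x B) * (∏ i ∈ B, (q * Qw H q y i)) + tt (Qw H q) x B *
      ((1 - tt (Qw H q) y B) * (tt (Qw H q) u B * tt (Qw H q) v B * (if x ∈ B then 0 else 1)) +
        tt (Qw H q) y B * f3 B)) (fun B hB => by
        simp only [p2, tv B hB, fn B hB, P6, if_neg (hxB B hB)]; ring)]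
  ring

end Pool.Agent.H34R2.U
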